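import Pool.Agent.PfB.Defs

/-! MP_f2c8f8_an, project PfB, row PB-18 -/

set_option autoImplicit false

open MeasureTheory Filter
open scoped ComplexConjugate Topology

noncomputable section

namespace Pool.Agent.PfB

theorem pb18_edge {p : ℕ} (hp : 1 ≤ p) (j : ℤ) :
    -(Real.pi / (2 * p)) + th p j = Real.pi * j / p ∧
      Real.pi / (2 * p) + th p j = Real.pi * (j + 1) / p := by
  have hp' : (p : ℝ) ≠ 0 := by positivity
  unfold th
  constructor
  · field_simp
    ring
  · field_simp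
    ring

theorem arc_sum {p : ℕ} (hp : 1 ≤ p) {f : ℝ → ℝ}
    (hf : IntervalIntegrable f volume (-Real.pi) Real.pi) :
    ∫ t in (-Real.pi)..Real.pi, f t =
      ∑ j ∈ JJ p, ∫ t in (-(Real.pi / (2 * p)))..(Real.pi / (2 * p)), f (th p j + t) := by
  have hp' : (0 : ℝ) < p := by exact_mod_cast hp
  have hp0 : (p : ℝ) ≠ 0 := hp'.ne'
  have hpi := Real.pi_pos
  have h1 : ∀ j : ℤ, ∫ t in (-(Real.pi / (2 * p)))..(Real.pi / (2 * p)), f (th p j + t) =
      ∫ t in (Real.pi * j / p)..(Real.pi * (j + 1) / p), f t := by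
    intro j
    have := intervalIntegral.integral_comp_add_left (a := -(Real.pi / (2 * p)))
      (b := Real.pi / (2 * p)) f (th p j)
    rw [this]
    obtain ⟨h2, h3⟩ := pb18_edge hp j
    rw [add_comm (th p j), add_comm (th p j), h2, h3]
  have h4 : ∀ n : ℕ, (n : ℤ) ≤ 2 * p → ∑ j ∈ Finset.Ico (-(p : ℤ)) (-(p : ℤ) + n),
      ∫ t in (Real.pi * j / p)..(Real.pi * (j + 1) / p), f t =
      ∫ t in (-Real.pi)..(Real.pi * ((-(p : ℤ) + n : ℤ) : ℝ) / p), f t := by
    intro n
    induction n with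
    | zero =>
      intro _
      have : Real.pi * ((-(p : ℤ) + ((0 : ℕ) : ℤ) : ℤ) : ℝ) / p = -Real.pi := by
        push_cast
        field_simp
        ring
      rw [this]
      simp
    | succ n ih =>
      intro hn
      have hn' : (n : ℤ) ≤ 2 * p := by push_cast at hn; omega
      have e1 : Finset.Ico (-(p : ℤ)) (-(p : ℤ) + ((n + 1 : ℕ) : ℤ)) =
          insert (-(p : ℤ) + n) (Finset.Ico (-(p : ℤ)) (-(p : ℤ) + n)) := by
        ext x
        simp only [Finset.mem_Ico, Finset.mem_insert]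
        push_cast
        omega
      rw [e1, Finset.sum_insert (by simp), ih hn', add_comm]
      have e2 : Real.pi * (((-(p : ℤ) + n : ℤ) : ℝ) + 1) / p =
          Real.pi * ((-(p : ℤ) + ((n + 1 : ℕ) : ℤ) : ℤ) : ℝ) / p := by
        push_cast; ring
      rw [e2]
      have hsub : ∀ a b : ℝ, -Real.pi ≤ a → a ≤ Real.pi → -Real.pi ≤ b → b ≤ Real.pi →
          IntervalIntegrable f volume a b := by
        intro a b ha ha' hb hb'
        refine hf.mono_set ?_
        rw [Set.uIcc_of_le (by linarith : -Real.pi ≤ Real.pi)]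
        exact Set.uIcc_subset_Icc ⟨ha, ha'⟩ ⟨hb, hb'⟩
      have bd : ∀ m : ℤ, -(p : ℤ) ≤ m → m ≤ p → -Real.pi ≤ Real.pi * (m : ℝ) / p ∧
          Real.pi * (m : ℝ) / p ≤ Real.pi := by
        intro m h1 h2
        have h1' : -(p : ℝ) ≤ m := by exact_mod_cast h1
        have h2' : (m : ℝ) ≤ p := by exact_mod_cast h2
        constructor
        · rw [le_div_iff₀ hp']; nlinarith
        · rw [div_le_iff₀ hp']; nlinarith
      obtain ⟨b1, b2⟩ := bd (-(p : ℤ) + n) (by omega) (by omega)
      obtain ⟨b3, b4⟩ := bd (-(p : ℤ) + ((n + 1 : ℕ) : ℤ)) (by push_cast; omega)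
        (by push_cast at hn ⊢; omega)
      exact intervalIntegral.integral_add_adjacent_intervals
        (hsub _ _ (by linarith) (by linarith) b1 b2) (hsub _ _ b1 b2 b3 b4)
  have h5 := h4 (2 * p) (by push_cast; omega)
  have e3 : -(p : ℤ) + ((2 * p : ℕ) : ℤ) = p := by push_cast; ring
  rw [e3] at h5
  have e4 : Real.pi * ((p : ℤ) : ℝ) / p = Real.pi := by
    push_cast; field_simp
  rw [e4] at h5
  rw [← h5]
  exact Finset.sum_congr rfl fun j _ => (h1 j).symm

theorem arc_sign {p : ℕ} (hp : 1 ≤ p) {f : ℝ → ℝ} (hf : Continuous f) {τ : ℝ}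
    (hτ : |τ| ≤ Real.pi / (2 * p)) :
    (∫ t in (-(Real.pi / (2 * p)))..(Real.pi / (2 * p)), (if t ≤ τ then f t else -f t)) =
      ar p f + 2 * ∫ t in (0 : ℝ)..τ, f t := by
  have _ := hp
  obtain ⟨h1, h2⟩ := abs_le.1 hτ
  set c : ℝ := Real.pi / (2 * p) with hc
  have hi : ∀ a b : ℝ, IntervalIntegrable f volume a b := fun a b => hf.intervalIntegrable a b
  have hL : ∀ t ∈ Set.uIoc (-c) τ, (if t ≤ τ then f t else -f t) = f t := by
    intro t ht
    rw [Set.uIoc_of_le h1] at ht
    rw [if_pos ht.2]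
  have hR : ∀ t ∈ Set.uIoc τ c, (if t ≤ τ then f t else -f t) = -f t := by
    intro t ht
    rw [Set.uIoc_of_le h2] at ht
    rw [if_neg (not_le.2 ht.1)]
  have i1 : IntervalIntegrable (fun t => if t ≤ τ then f t else -f t) volume (-c) τ :=
    (hi (-c) τ).congr fun t ht => (hL t ht).symm
  have i2 : IntervalIntegrable (fun t => if t ≤ τ then f t else -f t) volume τ c :=
    (hi τ c).neg.congr fun t ht => (hR t ht).symm
  rw [← intervalIntegral.integral_add_adjacent_intervals i1 i2,
    intervalIntegral.integral_congr_ae (Filter.Eventually.of_forall fun t ht => hL t ht),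
    intervalIntegral.integral_congr_ae (Filter.Eventually.of_forall fun t ht => hR t ht),
    intervalIntegral.integral_neg]
  have e1 : ∫ t in (-c)..τ, f t = (∫ t in (-c)..0, f t) + ∫ t in (0 : ℝ)..τ, f t :=
    (intervalIntegral.integral_add_adjacent_intervals (hi _ _) (hi _ _)).symm
  have e2 : ∫ t in (0 : ℝ)..c, f t = (∫ t in (0 : ℝ)..τ, f t) + ∫ t in τ..c, f t :=
    (intervalIntegral.integral_add_adjacent_intervals (hi _ _) (hi _ _)).symm
  unfold ar
  rw [← hc]
  linarith

theorem pb18_int {f : ℝ → ℝ} (hf : Continuous f) {c τ : ℝ} (h1 : -c ≤ τ) (h2 : τ ≤ c) :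
    IntervalIntegrable (fun t => if t ≤ τ then f t else -f t) volume (-c) c := by
  have hi : ∀ a b : ℝ, IntervalIntegrable f volume a b := fun a b => hf.intervalIntegrable a b
  have i1 : IntervalIntegrable (fun t => if t ≤ τ then f t else -f t) volume (-c) τ := by
    refine (hi (-c) τ).congr fun t ht => ?_
    rw [Set.uIoc_of_le h1] at ht
    rw [if_pos ht.2]
  have i2 : IntervalIntegrable (fun t => if t ≤ τ then f t else -f t) volume τ c := by
    refine (hi τ c).neg.congr fun t ht => ?_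
    rw [Set.uIoc_of_le h2] at ht
    simp only [Pi.neg_apply]
    rw [if_neg (not_le.2 ht.1)]
  exact i1.trans i2

theorem pb18_ind {c τ r l : ℝ} (hc : -c ≤ c) (hr : 0 < r) (hl : 0 ≤ l) :
    IntervalIntegrable ((Set.Icc (τ - r) (τ + r)).indicator (fun _ => l)) volume (-c) c ∧
      ∫ t in (-c)..c, (Set.Icc (τ - r) (τ + r)).indicator (fun _ => l) t ≤ 2 * r * l := by
  have hI : Integrable ((Set.Icc (τ - r) (τ + r)).indicator (fun _ => l)) volume := by
    rw [integrable_indicator_iff measurableSet_Icc]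
    exact continuousOn_const.integrableOn_Icc
  refine ⟨hI.intervalIntegrable, ?_⟩
  rw [intervalIntegral.integral_of_le hc]
  refine (setIntegral_le_integral hI (Filter.Eventually.of_forall fun t =>
    Set.indicator_nonneg (fun _ _ => hl) t)).trans ?_
  rw [integral_indicator measurableSet_Icc, setIntegral_const,
    Real.volume_real_Icc_of_le (by linarith), smul_eq_mul]
  linarith

/-- pointwise bound -/
theorem pb18_pt {g b d L r l s : ℝ} (hd : 0 ≤ d) (hL : 0 < L) (hr : 0 < r) (hl : 0 < l)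
    (hs : s = 1 ∨ s = -1) (hg : L * d ≤ s * g) (ι : ℝ) (hι : ι = if d ≤ r then l / 2 else 0) :
    |g + b| ≤ s * (g + b) + 2 * (ι + ((2 * l)⁻¹ + (4 * L * r)⁻¹) * b ^ 2) := by
  have hb2 : 0 ≤ b ^ 2 := sq_nonneg b
  have key : |b| - L * d ≤ ι + ((2 * l)⁻¹ + (4 * L * r)⁻¹) * b ^ 2 := by
    have e1 : 0 ≤ (2 * l)⁻¹ * b ^ 2 := by positivity
    have e2 : 0 ≤ (4 * L * r)⁻¹ * b ^ 2 := by positivity
    rw [add_mul]
    by_cases h : d ≤ r
    · rw [hι, if_pos h]
      have e3 : |b| ≤ l / 2 + (2 * l)⁻¹ * b ^ 2 := by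
        rw [inv_mul_eq_div, ← sub_nonneg]
        have : l / 2 + b ^ 2 / (2 * l) - |b| = (l - |b|) ^ 2 / (2 * l) := by
          field_simp
          rw [sub_sq, sq_abs]
          ring
        rw [this]
        positivity
      have : 0 ≤ L * d := by positivity
      linarith
    · rw [hι, if_neg h]
      have hdr : r < d := not_le.1 h
      have hd0 : d ≠ 0 := (hr.trans hdr).ne'
      have e3 : |b| ≤ L * d + b ^ 2 / (4 * (L * d)) := by
        have hLd : 0 < L * d := by
          have : 0 < d := hr.trans hdr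
          positivity
        rw [← sub_nonneg]
        have : L * d + b ^ 2 / (4 * (L * d)) - |b| = (2 * (L * d) - |b|) ^ 2 / (4 * (L * d)) := by
          field_simp
          rw [sub_sq, sq_abs]
          ring
        rw [this]
        positivity
      have e4 : b ^ 2 / (4 * (L * d)) ≤ (4 * L * r)⁻¹ * b ^ 2 := by
        rw [inv_mul_eq_div]
        apply div_le_div_of_nonneg_left hb2 (by positivity)
        nlinarith
      linarith
  have hpos : 0 ≤ ι + ((2 * l)⁻¹ + (4 * L * r)⁻¹) * b ^ 2 := by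
    have : 0 ≤ ι := by
      rw [hι]; split_ifs <;> positivity
    positivity
  have hab1 := le_abs_self b
  have hab2 := neg_abs_le b
  rcases hs with rfl | rfl
  · rcases abs_cases (g + b) with ⟨h1, _⟩ | ⟨h1, _⟩
    · rw [h1]; linarith
    · rw [h1]; linarith
  · rcases abs_cases (g + b) with ⟨h1, _⟩ | ⟨h1, _⟩
    · rw [h1]; linarith
    · rw [h1]; linarith

/-- optimization in the parameter -/
theorem pb18_opt {X r B E : ℝ} (hr : 0 < r) (hB : 0 ≤ B)
    (h : ∀ l : ℝ, 0 < l → X ≤ 2 * (r * l + (2 * l)⁻¹ * B + E)) :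
    X ≤ 2 * (√(2 * r) * √B + E) := by
  rcases hB.eq_or_lt with h0 | h0
  · rw [← h0]
    simp only [Real.sqrt_zero, mul_zero, zero_add]
    refine le_of_forall_pos_le_add fun e he => ?_
    have := h (e / (2 * r)) (by positivity)
    rw [← h0] at this
    have e1 : r * (e / (2 * r)) = e / 2 := by field_simp
    rw [e1] at this
    linarith
  · have h1 : 0 < √(2 * r) := Real.sqrt_pos.2 (by positivity)
    have h2 : 0 < √B := Real.sqrt_pos.2 h0
    have h3 : √(2 * r) ^ 2 = 2 * r := Real.sq_sqrt (by positivity)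
    have h4 : √B ^ 2 = B := Real.sq_sqrt hB
    have := h (√B / √(2 * r)) (by positivity)
    have e1 : r * (√B / √(2 * r)) = √(2 * r) * √B / 2 := by
      have : r = √(2 * r) ^ 2 / 2 := by rw [h3]; ring
      rw [this]
      have h5 : √(2 * (√(2 * r) ^ 2 / 2)) = √(2 * r) := by
        congr 1
        rw [h3]; ring
      rw [h5]
      field_simp
    have e2 : (2 * (√B / √(2 * r)))⁻¹ * B = √(2 * r) * √B / 2 := by
      calc (2 * (√B / √(2 * r)))⁻¹ * B = (2 * (√B / √(2 * r)))⁻¹ * √B ^ 2 := by rw [h4]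
        _ = √(2 * r) * √B / 2 := by field_simp
    rw [e1, e2] at this
    linarith

/-- the elementary inequality of the reduction: `f = g + b`, `g` changes sign at `τ` -/
theorem arc_abs {p : ℕ} (hp : 1 ≤ p) {g b : ℝ → ℝ} (hg : Continuous g) (hb : Continuous b) {τ L : ℝ}
    (hτ : |τ| ≤ Real.pi / (2 * p)) (hL : 0 < L)
    (h : ∀ t : ℝ, |t| ≤ Real.pi / (2 * p) → (t ≤ τ → L * |t - τ| ≤ g t) ∧
      (τ ≤ t → L * |t - τ| ≤ -g t)) {r : ℝ} (hr : 0 < r) :
    (∫ t in (-(Real.pi / (2 * p)))..(Real.pi / (2 * p)), |g t + b t|) ≤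
      ar p (fun t => g t + b t) + 2 * (∫ t in (0 : ℝ)..τ, (g t + b t)) +
        2 * (√(2 * r) * √(∫ t in (-(Real.pi / (2 * p)))..(Real.pi / (2 * p)), b t ^ 2) +
          (4 * L * r)⁻¹ * ∫ t in (-(Real.pi / (2 * p)))..(Real.pi / (2 * p)), b t ^ 2) := by
  have hs := arc_sign hp (f := fun t => g t + b t) (hg.add hb) hτ
  obtain ⟨h1, h2⟩ := abs_le.1 hτ
  have hc : -(Real.pi / (2 * p)) ≤ Real.pi / (2 * p) := h1.trans h2
  have hgb : Continuous fun t => g t + b t := hg.add hb
  have hI1 := pb18_int hgb h1 h2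
  rw [← hs]
  set c : ℝ := Real.pi / (2 * p) with hcdef
  have hB : 0 ≤ ∫ t in (-c)..c, b t ^ 2 :=
    intervalIntegral.integral_nonneg hc fun t _ => sq_nonneg _
  have key : ∀ l : ℝ, 0 < l → (∫ t in (-c)..c, |g t + b t|) -
      (∫ t in (-c)..c, (if t ≤ τ then g t + b t else -(g t + b t))) ≤
      2 * (r * l + (2 * l)⁻¹ * (∫ t in (-c)..c, b t ^ 2) +
        (4 * L * r)⁻¹ * ∫ t in (-c)..c, b t ^ 2) := by
    intro l hl
    obtain ⟨j1, j2⟩ := pb18_ind (c := c) (τ := τ) (l := l / 2) hc hr (by positivity)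
    have j3 : IntervalIntegrable (fun t => ((2 * l)⁻¹ + (4 * L * r)⁻¹) * b t ^ 2) volume (-c) c :=
      (continuous_const.mul (hb.pow 2)).intervalIntegrable _ _
    have j4 : (∫ t in (-c)..c, |g t + b t|) ≤ ∫ t in (-c)..c,
        ((if t ≤ τ then g t + b t else -(g t + b t)) +
          2 * ((Set.Icc (τ - r) (τ + r)).indicator (fun _ => l / 2) t +
            ((2 * l)⁻¹ + (4 * L * r)⁻¹) * b t ^ 2)) := by
      refine intervalIntegral.integral_mono_on hc (hgb.abs.intervalIntegrable _ _)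
        (hI1.add ((j1.add j3).const_mul 2)) fun t ht => ?_
      have ht' : |t| ≤ c := abs_le.2 ht
      obtain ⟨k1, k2⟩ := h t ht'
      have hι : (Set.Icc (τ - r) (τ + r)).indicator (fun _ => l / 2) t =
          if |t - τ| ≤ r then l / 2 else 0 := by
        by_cases hh : |t - τ| ≤ r
        · rw [if_pos hh, Set.indicator_of_mem]
          obtain ⟨q1, q2⟩ := abs_le.1 hh
          exact ⟨by linarith, by linarith⟩
        · rw [if_neg hh, Set.indicator_of_notMem]
          intro hm
          exact hh (abs_le.2 ⟨by linarith [hm.1], by linarith [hm.2]⟩)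
      by_cases hle : t ≤ τ
      · rw [if_pos hle]
        have := pb18_pt (g := g t) (b := b t) (d := |t - τ|) (s := 1) (abs_nonneg _) hL hr hl
          (Or.inl rfl) (by rw [one_mul]; exact k1 hle) _ hι
        rw [one_mul] at this
        exact this
      · rw [if_neg hle]
        have := pb18_pt (g := g t) (b := b t) (d := |t - τ|) (s := -1) (abs_nonneg _) hL hr hl
          (Or.inr rfl) (by rw [neg_one_mul]; exact k2 (not_le.1 hle).le) _ hι
        rw [neg_one_mul] at this
        exact this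
    have j5 : (∫ t in (-c)..c,
        ((if t ≤ τ then g t + b t else -(g t + b t)) +
          2 * ((Set.Icc (τ - r) (τ + r)).indicator (fun _ => l / 2) t +
            ((2 * l)⁻¹ + (4 * L * r)⁻¹) * b t ^ 2))) =
        (∫ t in (-c)..c, (if t ≤ τ then g t + b t else -(g t + b t))) +
          2 * ((∫ t in (-c)..c, (Set.Icc (τ - r) (τ + r)).indicator (fun _ => l / 2) t) +
            ((2 * l)⁻¹ + (4 * L * r)⁻¹) * ∫ t in (-c)..c, b t ^ 2) := by
      rw [intervalIntegral.integral_add hI1 ((j1.add j3).const_mul 2),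
        intervalIntegral.integral_const_mul, intervalIntegral.integral_add j1 j3,
        intervalIntegral.integral_const_mul]
    rw [j5] at j4
    rw [add_mul] at j4
    linarith
  have := pb18_opt hr hB key
  linarith

/-- periodic extension of shifts -/
theorem exists_per {p : ℕ} (hp : 1 ≤ p) (σ : ℤ → ℝ) : ∃ τ : ℤ → ℝ,
    (∀ j ∈ JJ p, τ j = σ j) ∧ (∀ j n : ℤ, τ (j + 2 * p * n) = τ j) ∧
      (∀ j : ℤ, ∃ i ∈ JJ p, τ j = σ i) := by
  have hp' : (0 : ℤ) < 2 * p := by omega
  refine ⟨fun j => σ ((j + p) % (2 * p) - p), ?_, ?_, ?_⟩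
  · intro j hj
    rw [JJ, Finset.mem_Ico] at hj
    have : (j + p) % (2 * (p : ℤ)) = j + p := Int.emod_eq_of_lt (by omega) (by omega)
    simp only [this]
    congr 1
    ring
  · intro j n
    have : (j + 2 * p * n + p) % (2 * (p : ℤ)) = (j + p) % (2 * p) := by
      have e : j + 2 * (p : ℤ) * n + p = (j + p) + 2 * p * n := by ring
      rw [e, Int.add_mul_emod_self_left]
    simp only [this]
  · intro j
    refine ⟨(j + p) % (2 * p) - p, ?_, rfl⟩
    rw [JJ, Finset.mem_Ico]
    have h1 := Int.emod_nonneg (j + p) hp'.ne'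
    have h2 := Int.emod_lt_of_pos (j + p) hp'
    omega

end Pool.Agent.PfB
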