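import Pool.Agent.PfB.Defs

/-! MP_f2c8f8_an, project PfB, row PB-8 -/

set_option autoImplicit false

open MeasureTheory Filter
open scoped ComplexConjugate Topology

noncomputable section

namespace Pool.Agent.PfB

/-- the function whose negative is the derivative of `bk` -/
def pb8_g (p k : ℕ) (x : ℝ) : ℝ :=
  cf0 p k * Real.exp (-((p : ℝ) * x)) * Real.cosh (((p : ℝ) - k) * x) / Real.cosh (p * x)

theorem pb8_tanh_le {a b : ℝ} (h : a ≤ b) : Real.tanh a ≤ Real.tanh b := by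
  rw [Real.tanh_eq_sinh_div_cosh, Real.tanh_eq_sinh_div_cosh,
    div_le_div_iff₀ (Real.cosh_pos a) (Real.cosh_pos b)]
  have h1 : 0 ≤ Real.sinh (b - a) := Real.sinh_nonneg_iff.mpr (by linarith)
  rw [Real.sinh_sub] at h1
  linarith

theorem pb8_key {P q : ℝ} (hq : 0 ≤ q) (hqP : q ≤ P) (x : ℝ) :
    P / 2 * (1 + Real.tanh (P * x)) ≤ P + P * Real.tanh (P * x) - q * Real.tanh (q * x) := by
  have hP : 0 ≤ P := hq.trans hqP
  have h1 := Real.tanh_lt_one (P * x)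
  have h2 := Real.neg_one_lt_tanh (P * x)
  rcases le_total 0 x with hx | hx
  · have h3 : Real.tanh (q * x) ≤ Real.tanh (P * x) :=
      pb8_tanh_le (mul_le_mul_of_nonneg_right hqP hx)
    have h4 : 0 ≤ Real.tanh (P * x) := by
      rw [← Real.tanh_zero]
      exact pb8_tanh_le (mul_nonneg hP hx)
    have h5 : q * Real.tanh (q * x) ≤ P * Real.tanh (P * x) :=
      (mul_le_mul_of_nonneg_left h3 hq).trans (mul_le_mul_of_nonneg_right hqP h4)
    nlinarith
  · have h3 : Real.tanh (q * x) ≤ 0 := by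
      rw [← Real.tanh_zero]
      exact pb8_tanh_le (mul_nonpos_of_nonneg_of_nonpos hq hx)
    have h5 : q * Real.tanh (q * x) ≤ 0 := mul_nonpos_of_nonneg_of_nonpos hq h3
    nlinarith

theorem pb8_key_le {P q : ℝ} (hq : 0 ≤ q) (hqP : q ≤ P) (x : ℝ) :
    P + P * Real.tanh (P * x) - q * Real.tanh (q * x) ≤ 3 * P := by
  have hP : 0 ≤ P := hq.trans hqP
  have h1 := Real.tanh_lt_one (P * x)
  have h2 := Real.neg_one_lt_tanh (q * x)
  nlinarith

theorem pb8_cosh1 {P : ℝ} (hP : 1 ≤ P) (x : ℝ) :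
    Real.cosh ((P - 1) * x) ≤ 2 * Real.exp (-x) * Real.cosh (P * x) := by
  have e1 : 2 * Real.exp (-x) * Real.cosh (P * x) =
      Real.exp ((P - 1) * x) + Real.exp (-((P + 1) * x)) := by
    rw [Real.cosh_eq]
    have e2 : Real.exp ((P - 1) * x) = Real.exp (-x) * Real.exp (P * x) := by
      rw [← Real.exp_add]
      congr 1
      ring
    have e3 : Real.exp (-((P + 1) * x)) = Real.exp (-x) * Real.exp (-(P * x)) := by
      rw [← Real.exp_add]
      congr 1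
      ring
    rw [e2, e3]
    ring
  rw [e1, Real.cosh_eq]
  have p1 := Real.exp_pos ((P - 1) * x)
  have p2 := Real.exp_pos (-((P + 1) * x))
  rcases le_total 0 x with hx | hx
  · have h : Real.exp (-((P - 1) * x)) ≤ Real.exp ((P - 1) * x) := by
      rw [Real.exp_le_exp]
      nlinarith
    linarith
  · have h : Real.exp (-((P - 1) * x)) ≤ Real.exp (-((P + 1) * x)) := by
      rw [Real.exp_le_exp]
      nlinarith
    linarith

theorem pb8_cosh2 {P : ℝ} (hP : 1 ≤ P) (x : ℝ) :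
    Real.cosh ((P - 1) * x) ≤ 2 * Real.exp x * Real.cosh (P * x) := by
  have h := pb8_cosh1 hP (-x)
  rw [mul_neg, mul_neg, neg_neg, Real.cosh_neg, Real.cosh_neg] at h
  exact h

theorem pb8_q {p k : ℕ} (hk : 1 ≤ k) (hkp : k ≤ p) : 0 ≤ (p : ℝ) - k ∧ (p : ℝ) - k ≤ p - 1 := by
  have h1 : (1 : ℝ) ≤ k := by exact_mod_cast hk
  have h2 : (k : ℝ) ≤ p := by exact_mod_cast hkp
  exact ⟨by linarith, by linarith⟩

theorem pb8_cf0 (p k : ℕ) : 1 / 2 ≤ cf0 p k ∧ cf0 p k ≤ 1 := by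
  unfold cf0
  split <;> norm_num

theorem pb8_bkd_eq (p k : ℕ) (x : ℝ) : bkd p k x = pb8_g p k x *
    ((p : ℝ) + p * Real.tanh (p * x) - ((p : ℝ) - k) * Real.tanh (((p : ℝ) - k) * x)) := by
  unfold bkd pb8_g
  ring

theorem pb8_g_pos (p k : ℕ) (x : ℝ) : 0 < pb8_g p k x := by
  unfold pb8_g
  have h := (pb8_cf0 p k).1
  have h1 := Real.exp_pos (-((p : ℝ) * x))
  have h2 := Real.cosh_pos (((p : ℝ) - k) * x)
  have h3 := Real.cosh_pos ((p : ℝ) * x)
  have h4 : 0 < cf0 p k := by linarith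
  positivity

theorem pb8_g_le1 {p k : ℕ} (hk : 1 ≤ k) (hkp : k ≤ p) (x : ℝ) :
    pb8_g p k x ≤ 2 * Real.exp (-(((p : ℝ) + 1) * x)) := by
  obtain ⟨q0, q1⟩ := pb8_q hk hkp
  have hp1 : (1 : ℝ) ≤ p := by exact_mod_cast hk.trans hkp
  have hc : Real.cosh (((p : ℝ) - k) * x) ≤ Real.cosh (((p : ℝ) - 1) * x) := by
    rw [Real.cosh_le_cosh, abs_mul, abs_mul]
    refine mul_le_mul_of_nonneg_right ?_ (abs_nonneg x)
    rw [abs_of_nonneg q0, abs_of_nonneg (by linarith)]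
    exact q1
  have h1 := hc.trans (pb8_cosh1 hp1 x)
  have hC := Real.cosh_pos ((p : ℝ) * x)
  have he : Real.exp (-(((p : ℝ) + 1) * x)) = Real.exp (-((p : ℝ) * x)) * Real.exp (-x) := by
    rw [← Real.exp_add]
    congr 1
    ring
  unfold pb8_g
  rw [div_le_iff₀ hC, he]
  have h2 := (pb8_cf0 p k).2
  have h3 := (pb8_cf0 p k).1
  have h4 := Real.exp_pos (-((p : ℝ) * x))
  have h5 := Real.cosh_pos (((p : ℝ) - k) * x)
  calc cf0 p k * Real.exp (-((p : ℝ) * x)) * Real.cosh (((p : ℝ) - k) * x)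
      ≤ 1 * Real.exp (-((p : ℝ) * x)) * Real.cosh (((p : ℝ) - k) * x) := by gcongr
    _ ≤ 1 * Real.exp (-((p : ℝ) * x)) * (2 * Real.exp (-x) * Real.cosh (p * x)) := by gcongr
    _ = 2 * (Real.exp (-((p : ℝ) * x)) * Real.exp (-x)) * Real.cosh (p * x) := by ring

theorem pb8_g_le2 {p k : ℕ} (hk : 1 ≤ k) (hkp : k ≤ p) (x : ℝ) :
    pb8_g p k x ≤ 2 * Real.exp (-(((p : ℝ) - 1) * x)) := by
  obtain ⟨q0, q1⟩ := pb8_q hk hkp
  have hp1 : (1 : ℝ) ≤ p := by exact_mod_cast hk.trans hkp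
  have hc : Real.cosh (((p : ℝ) - k) * x) ≤ Real.cosh (((p : ℝ) - 1) * x) := by
    rw [Real.cosh_le_cosh, abs_mul, abs_mul]
    refine mul_le_mul_of_nonneg_right ?_ (abs_nonneg x)
    rw [abs_of_nonneg q0, abs_of_nonneg (by linarith)]
    exact q1
  have h1 := hc.trans (pb8_cosh2 hp1 x)
  have hC := Real.cosh_pos ((p : ℝ) * x)
  have he : Real.exp (-(((p : ℝ) - 1) * x)) = Real.exp (-((p : ℝ) * x)) * Real.exp x := by
    rw [← Real.exp_add]
    congr 1
    ring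
  unfold pb8_g
  rw [div_le_iff₀ hC, he]
  have h2 := (pb8_cf0 p k).2
  have h3 := (pb8_cf0 p k).1
  have h4 := Real.exp_pos (-((p : ℝ) * x))
  have h5 := Real.cosh_pos (((p : ℝ) - k) * x)
  calc cf0 p k * Real.exp (-((p : ℝ) * x)) * Real.cosh (((p : ℝ) - k) * x)
      ≤ 1 * Real.exp (-((p : ℝ) * x)) * Real.cosh (((p : ℝ) - k) * x) := by gcongr
    _ ≤ 1 * Real.exp (-((p : ℝ) * x)) * (2 * Real.exp x * Real.cosh (p * x)) := by gcongr
    _ = 2 * (Real.exp (-((p : ℝ) * x)) * Real.exp x) * Real.cosh (p * x) := by ring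

theorem pb8_g_ww {p k : ℕ} (hk : 1 ≤ k) (hkp : k ≤ p) (x : ℝ) : pb8_g p k x ≤ 2 * ww p x := by
  unfold ww
  rcases min_choice (Real.exp (-(((p : ℝ) + 1) * x))) (Real.exp (-(((p : ℝ) - 1) * x))) with h | h
  · rw [h]; exact pb8_g_le1 hk hkp x
  · rw [h]; exact pb8_g_le2 hk hkp x

theorem bkd_nonneg {p k : ℕ} (hk : 1 ≤ k) (hkp : k ≤ p) (x : ℝ) : 0 ≤ bkd p k x := by
  obtain ⟨q0, q1⟩ := pb8_q hk hkp
  rw [pb8_bkd_eq]
  refine mul_nonneg (pb8_g_pos p k x).le (le_trans ?_ (pb8_key q0 (by linarith) x))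
  have h2 := Real.neg_one_lt_tanh ((p : ℝ) * x)
  have h3 : (0 : ℝ) ≤ p := Nat.cast_nonneg p
  exact mul_nonneg (by linarith) (by linarith)

theorem bkd_half {p k : ℕ} (hk : 1 ≤ k) (hkp : k ≤ p) (x : ℝ) : bkd p p x / 2 ≤ bkd p k x := by
  rcases eq_or_lt_of_le hkp with rfl | hlt
  · have := bkd_nonneg hk hkp x
    linarith
  obtain ⟨q0, q1⟩ := pb8_q hk hkp
  have hkey := pb8_key q0 (by linarith : (p : ℝ) - k ≤ p) x
  have hp0 : (0 : ℝ) ≤ p := Nat.cast_nonneg p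
  have h2 := Real.neg_one_lt_tanh ((p : ℝ) * x)
  have hE := Real.exp_pos (-((p : ℝ) * x))
  have hC := Real.cosh_pos ((p : ℝ) * x)
  have hc1 := Real.one_le_cosh (((p : ℝ) - k) * x)
  have c1 : cf0 p p = 1 / 2 := if_pos rfl
  have c2 : cf0 p k = 1 := if_neg (by omega)
  unfold bkd
  rw [c1, c2, sub_self, zero_mul, Real.cosh_zero, Real.tanh_zero]
  have hT : 0 ≤ (p : ℝ) / 2 * (1 + Real.tanh (p * x)) := mul_nonneg (by linarith) (by linarith)
  have hS : 1 * ((p : ℝ) / 2 * (1 + Real.tanh (p * x))) ≤ Real.cosh (((p : ℝ) - k) * x) *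
      ((p : ℝ) + p * Real.tanh (p * x) - ((p : ℝ) - k) * Real.tanh (((p : ℝ) - k) * x)) :=
    mul_le_mul hc1 hkey hT (by linarith)
  rw [div_div, div_le_div_iff₀ (by positivity) hC]
  have hEC : 0 ≤ Real.exp (-((p : ℝ) * x)) * Real.cosh (p * x) := by positivity
  have hfin := mul_le_mul_of_nonneg_left hS hEC
  have hT2 := mul_nonneg hEC hT
  nlinarith

theorem pb8_g_cont (p k : ℕ) : Continuous (pb8_g p k) := by
  unfold pb8_g
  refine Continuous.div₀ ?_ ?_ fun x => (Real.cosh_pos _).ne'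
  · fun_prop
  · exact Real.continuous_cosh.comp (by fun_prop)

theorem pb8_tanh_cont : Continuous Real.tanh := by
  have h : Real.tanh = fun x => Real.sinh x / Real.cosh x := by
    funext x
    exact Real.tanh_eq_sinh_div_cosh x
  rw [h]
  exact Real.continuous_sinh.div₀ Real.continuous_cosh fun x => (Real.cosh_pos x).ne'

theorem bkd_cont (p k : ℕ) : Continuous (bkd p k) := by
  have h : bkd p k = fun x => pb8_g p k x *
    ((p : ℝ) + p * Real.tanh (p * x) - ((p : ℝ) - k) * Real.tanh (((p : ℝ) - k) * x)) := by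
    funext x
    exact pb8_bkd_eq p k x
  rw [h]
  have h1 : Continuous fun x : ℝ => Real.tanh ((p : ℝ) * x) := pb8_tanh_cont.comp (by fun_prop)
  have h2 : Continuous fun x : ℝ => Real.tanh (((p : ℝ) - k) * x) :=
    pb8_tanh_cont.comp (by fun_prop)
  exact (pb8_g_cont p k).mul ((continuous_const.add (continuous_const.mul h1)).sub
    (continuous_const.mul h2))

theorem pb8_bkd_le_g {p k : ℕ} (hk : 1 ≤ k) (hkp : k ≤ p) (x : ℝ) :
    bkd p k x ≤ 3 * p * pb8_g p k x := by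
  obtain ⟨q0, q1⟩ := pb8_q hk hkp
  rw [pb8_bkd_eq, mul_comm (3 * (p : ℝ))]
  exact mul_le_mul_of_nonneg_left (pb8_key_le q0 (by linarith) x) (pb8_g_pos p k x).le

theorem bkd_le {p : ℕ} (hp : 2 ≤ p) : ∃ C : ℝ, 0 < C ∧ ∀ k : ℕ, 1 ≤ k → k ≤ p → ∀ x : ℝ,
    bkd p k x ≤ C * ww p x := by
  have hp0 : (0 : ℝ) < p := by exact_mod_cast (by omega : 0 < p)
  refine ⟨6 * p, by positivity, fun k hk hkp x => ?_⟩
  have h1 := pb8_bkd_le_g hk hkp x
  have h2 := mul_le_mul_of_nonneg_left (pb8_g_ww hk hkp x) (by positivity : (0 : ℝ) ≤ 3 * p)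
  linarith

theorem pb8_g_deriv (p k : ℕ) (x : ℝ) : HasDerivAt (pb8_g p k) (-(bkd p k x)) x := by
  have e1 : HasDerivAt (fun y : ℝ => Real.exp (-((p : ℝ) * y)))
      (Real.exp (-((p : ℝ) * x)) * (-((p : ℝ) * 1))) x :=
    (((hasDerivAt_id x).const_mul (p : ℝ)).neg).exp
  have e2 : HasDerivAt (fun y : ℝ => Real.cosh (((p : ℝ) - k) * y))
      (Real.sinh (((p : ℝ) - k) * x) * (((p : ℝ) - k) * 1)) x :=
    ((hasDerivAt_id x).const_mul ((p : ℝ) - k)).cosh
  have e3 : HasDerivAt (fun y : ℝ => Real.cosh ((p : ℝ) * y))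
      (Real.sinh ((p : ℝ) * x) * ((p : ℝ) * 1)) x :=
    ((hasDerivAt_id x).const_mul (p : ℝ)).cosh
  have hC := (Real.cosh_pos ((p : ℝ) * x)).ne'
  have hc := (Real.cosh_pos (((p : ℝ) - k) * x)).ne'
  have h := ((e1.const_mul (cf0 p k)).mul e2).div e3 hC
  have hfun : pb8_g p k = (fun y : ℝ => cf0 p k * Real.exp (-((p : ℝ) * y))) *
      (fun y : ℝ => Real.cosh (((p : ℝ) - k) * y)) / (fun y : ℝ => Real.cosh ((p : ℝ) * y)) := by
    funext y
    rfl
  rw [hfun]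
  refine h.congr_deriv ?_
  rw [pb8_bkd_eq, Real.tanh_eq_sinh_div_cosh, Real.tanh_eq_sinh_div_cosh]
  unfold pb8_g
  simp only [Pi.mul_apply]
  field_simp
  ring

theorem pb8_exp_int (c a : ℝ) (hc : 0 < c) :
    IntegrableOn (fun y : ℝ => Real.exp (-(c * y))) (Set.Ioi a) := by
  have h := exp_neg_integrableOn_Ioi a hc
  refine h.congr_fun (fun y _ => ?_) measurableSet_Ioi
  simp only
  congr 1
  ring

theorem pb8_g_int {p k : ℕ} (hk : 1 ≤ k) (hkp : k ≤ p) (x : ℝ) :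
    IntegrableOn (pb8_g p k) (Set.Ioi x) := by
  have hp1 : (0 : ℝ) < (p : ℝ) + 1 := by positivity
  refine Integrable.mono' ((pb8_exp_int _ x hp1).const_mul 2)
    (pb8_g_cont p k).aestronglyMeasurable (Eventually.of_forall fun y => ?_)
  rw [Real.norm_eq_abs, abs_of_pos (pb8_g_pos p k y)]
  exact pb8_g_le1 hk hkp y

theorem pb8_lin {p : ℕ} (hp : 2 ≤ p) {x y : ℝ} (hy : x ≤ y) :
    (y - x) * Real.exp (-(((p : ℝ) + 1) * y)) ≤ Real.exp (-x) * Real.exp (-((p : ℝ) * y)) := by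
  have h1 : y - x ≤ Real.exp (y - x) := by
    have := Real.add_one_le_exp (y - x)
    linarith
  have h2 : Real.exp (-x) * Real.exp (-((p : ℝ) * y)) =
      Real.exp (y - x) * Real.exp (-(((p : ℝ) + 1) * y)) := by
    rw [← Real.exp_add, ← Real.exp_add]
    congr 1
    ring
  rw [h2]
  exact mul_le_mul_of_nonneg_right h1 (Real.exp_pos _).le

theorem pb8_T_int {p k : ℕ} (hp : 2 ≤ p) (hk : 1 ≤ k) (hkp : k ≤ p) (x : ℝ) :
    IntegrableOn (fun y => (y - x) * bkd p k y) (Set.Ioi x) := by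
  have hp0 : (0 : ℝ) < p := by exact_mod_cast (by omega : 0 < p)
  refine Integrable.mono' ((pb8_exp_int _ x hp0).const_mul (6 * p * Real.exp (-x)))
    (((continuous_id.sub continuous_const).mul (bkd_cont p k)).aestronglyMeasurable) ?_
  refine (ae_restrict_iff' measurableSet_Ioi).mpr (Eventually.of_forall fun y hy => ?_)
  have hy' : x < y := hy
  have hb := bkd_nonneg hk hkp y
  have h1 := pb8_bkd_le_g hk hkp y
  have h2 := pb8_g_le1 hk hkp y
  have h3 := pb8_lin hp hy'.le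
  have hyx : 0 ≤ y - x := by linarith
  rw [Real.norm_eq_abs, abs_of_nonneg (mul_nonneg hyx hb)]
  calc (y - x) * bkd p k y ≤ (y - x) * (3 * p * pb8_g p k y) := by gcongr
    _ ≤ (y - x) * (3 * p * (2 * Real.exp (-(((p : ℝ) + 1) * y)))) := by gcongr
    _ = 6 * p * ((y - x) * Real.exp (-(((p : ℝ) + 1) * y))) := by ring
    _ ≤ 6 * p * (Real.exp (-x) * Real.exp (-((p : ℝ) * y))) := by gcongr
    _ = 6 * p * Real.exp (-x) * Real.exp (-((p : ℝ) * y)) := by ring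

theorem pb8_bk_eq {p k : ℕ} (hp : 2 ≤ p) (hk : 1 ≤ k) (hkp : k ≤ p) (x : ℝ) :
    bk p k x = ∫ y in Set.Ioi x, pb8_g p k y := by
  have hp0 : (0 : ℝ) < p := by exact_mod_cast (by omega : 0 < p)
  have hT := pb8_T_int hp hk hkp x
  have hg := pb8_g_int hk hkp x
  have hd : ∀ y ∈ Set.Ioi x, HasDerivAt (fun y => -((y - x) * pb8_g p k y))
      ((y - x) * bkd p k y - pb8_g p k y) y := by
    intro y _
    have h := (((hasDerivAt_id y).sub_const x).mul (pb8_g_deriv p k y)).neg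
    refine h.congr_deriv ?_
    simp only [id]
    ring
  have hlim : Tendsto (fun y => -((y - x) * pb8_g p k y)) atTop (𝓝 0) := by
    have h0 : Tendsto (fun y : ℝ => 2 * Real.exp (-x) * Real.exp (-((p : ℝ) * y))) atTop (𝓝 0) := by
      have h1 : Tendsto (fun y : ℝ => Real.exp (-((p : ℝ) * y))) atTop (𝓝 0) :=
        Real.tendsto_exp_neg_atTop_nhds_zero.comp (tendsto_id.const_mul_atTop hp0)
      have h2 := h1.const_mul (2 * Real.exp (-x))
      rwa [mul_zero] at h2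
    have h3 : Tendsto (fun y => (y - x) * pb8_g p k y) atTop (𝓝 0) := by
      refine squeeze_zero' ?_ ?_ h0
      · filter_upwards [eventually_ge_atTop x] with y hy
        exact mul_nonneg (by linarith) (pb8_g_pos p k y).le
      · filter_upwards [eventually_ge_atTop x] with y hy
        have h4 := pb8_lin hp hy
        have h5 := pb8_g_le1 hk hkp y
        have hyx : 0 ≤ y - x := by linarith
        calc (y - x) * pb8_g p k y ≤ (y - x) * (2 * Real.exp (-(((p : ℝ) + 1) * y))) := by gcongr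
          _ = 2 * ((y - x) * Real.exp (-(((p : ℝ) + 1) * y))) := by ring
          _ ≤ 2 * (Real.exp (-x) * Real.exp (-((p : ℝ) * y))) := by gcongr
          _ = 2 * Real.exp (-x) * Real.exp (-((p : ℝ) * y)) := by ring
    have h4 := h3.neg
    rwa [neg_zero] at h4
  have hI := integral_Ioi_of_hasDerivAt_of_tendsto
    (f := fun y => -((y - x) * pb8_g p k y)) (a := x)
    (((continuous_id.sub continuous_const).mul (pb8_g_cont p k)).neg.continuousWithinAt)
    hd (hT.sub hg) hlim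
  have hs : ∫ y in Set.Ioi x, ((y - x) * bkd p k y - pb8_g p k y) =
      (∫ y in Set.Ioi x, (y - x) * bkd p k y) - ∫ y in Set.Ioi x, pb8_g p k y :=
    integral_sub hT hg
  rw [hs] at hI
  unfold bk Tt
  simp only [sub_self, zero_mul, neg_zero] at hI
  linarith

theorem bk_deriv {p k : ℕ} (hp : 2 ≤ p) (hk : 1 ≤ k) (hkp : k ≤ p) (x : ℝ) :
    HasDerivAt (bk p k) (-(cf0 p k * Real.exp (-((p : ℝ) * x)) * Real.cosh (((p : ℝ) - k) * x) /
      Real.cosh (p * x))) x := by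
  have h1 : bk p k = fun y => (∫ t in Set.Ioi (0 : ℝ), pb8_g p k t) -
      ∫ t in (0 : ℝ)..y, pb8_g p k t := by
    funext y
    rw [pb8_bk_eq hp hk hkp y, ← intervalIntegral.integral_Ioi_sub_Ioi' (pb8_g_int hk hkp 0)
      (pb8_g_int hk hkp y)]
    ring
  rw [h1]
  have h2 : HasDerivAt (fun y => ∫ t in (0 : ℝ)..y, pb8_g p k t) (pb8_g p k x) x :=
    intervalIntegral.integral_hasDerivAt_right
      ((pb8_g_cont p k).intervalIntegrable _ _)
      ((pb8_g_cont p k).stronglyMeasurableAtFilter _ _) (pb8_g_cont p k).continuousAt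
  exact h2.const_sub _

theorem bk_nonneg {p k : ℕ} (hk : 1 ≤ k) (hkp : k ≤ p) (x : ℝ) : 0 ≤ bk p k x := by
  unfold bk Tt
  refine setIntegral_nonneg measurableSet_Ioi fun y hy => ?_
  have hy' : x < y := hy
  exact mul_nonneg (by linarith) (bkd_nonneg hk hkp y)

theorem pb8_exp_val (c a : ℝ) (hc : 0 < c) :
    ∫ y in Set.Ioi a, Real.exp (-(c * y)) = Real.exp (-(c * a)) / c := by
  have h := integral_exp_mul_Ioi (a := -c) (by linarith) a
  have e : (fun y : ℝ => Real.exp (-(c * y))) = fun y : ℝ => Real.exp (-c * y) := by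
    funext y
    rw [neg_mul]
  rw [e, h, neg_mul, neg_div_neg_eq]

theorem pb8_bk_le1 {p k : ℕ} (hp : 2 ≤ p) (hk : 1 ≤ k) (hkp : k ≤ p) (x : ℝ) :
    bk p k x ≤ 2 * Real.exp (-(((p : ℝ) + 1) * x)) := by
  have hp1 : (0 : ℝ) < (p : ℝ) + 1 := by positivity
  rw [pb8_bk_eq hp hk hkp]
  calc ∫ y in Set.Ioi x, pb8_g p k y
      ≤ ∫ y in Set.Ioi x, 2 * Real.exp (-(((p : ℝ) + 1) * y)) :=
        integral_mono (pb8_g_int hk hkp x) ((pb8_exp_int _ x hp1).const_mul 2)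
          fun y => pb8_g_le1 hk hkp y
    _ = 2 * (Real.exp (-(((p : ℝ) + 1) * x)) / ((p : ℝ) + 1)) := by
        rw [integral_const_mul, pb8_exp_val _ _ hp1]
    _ ≤ 2 * Real.exp (-(((p : ℝ) + 1) * x)) := by
        have h : Real.exp (-(((p : ℝ) + 1) * x)) / ((p : ℝ) + 1) ≤
            Real.exp (-(((p : ℝ) + 1) * x)) := by
          refine div_le_self (Real.exp_pos _).le ?_
          have : (0 : ℝ) ≤ p := Nat.cast_nonneg p
          linarith
        linarith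

theorem pb8_bk_le2 {p k : ℕ} (hp : 2 ≤ p) (hk : 1 ≤ k) (hkp : k ≤ p) (x : ℝ) :
    bk p k x ≤ 2 * Real.exp (-(((p : ℝ) - 1) * x)) := by
  have hp2 : (2 : ℝ) ≤ p := by exact_mod_cast hp
  have hp1 : (0 : ℝ) < (p : ℝ) - 1 := by linarith
  rw [pb8_bk_eq hp hk hkp]
  calc ∫ y in Set.Ioi x, pb8_g p k y
      ≤ ∫ y in Set.Ioi x, 2 * Real.exp (-(((p : ℝ) - 1) * y)) :=
        integral_mono (pb8_g_int hk hkp x) ((pb8_exp_int _ x hp1).const_mul 2)
          fun y => pb8_g_le2 hk hkp y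
    _ = 2 * (Real.exp (-(((p : ℝ) - 1) * x)) / ((p : ℝ) - 1)) := by
        rw [integral_const_mul, pb8_exp_val _ _ hp1]
    _ ≤ 2 * Real.exp (-(((p : ℝ) - 1) * x)) := by
        have h : Real.exp (-(((p : ℝ) - 1) * x)) / ((p : ℝ) - 1) ≤
            Real.exp (-(((p : ℝ) - 1) * x)) := by
          refine div_le_self (Real.exp_pos _).le ?_
          linarith
        linarith

theorem bk_tendsto {p k : ℕ} (hp : 2 ≤ p) (hk : 1 ≤ k) (hkp : k ≤ p) :
    Tendsto (bk p k) atTop (𝓝 0) := by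
  have hp1 : (0 : ℝ) < (p : ℝ) + 1 := by positivity
  have h0 : Tendsto (fun y : ℝ => 2 * Real.exp (-(((p : ℝ) + 1) * y))) atTop (𝓝 0) := by
    have h1 : Tendsto (fun y : ℝ => Real.exp (-(((p : ℝ) + 1) * y))) atTop (𝓝 0) :=
      Real.tendsto_exp_neg_atTop_nhds_zero.comp (tendsto_id.const_mul_atTop hp1)
    have h2 := h1.const_mul 2
    rwa [mul_zero] at h2
  exact squeeze_zero (fun x => bk_nonneg hk hkp x) (fun x => pb8_bk_le1 hp hk hkp x) h0

theorem bk_ge {p k : ℕ} (hp : 2 ≤ p) (hk : 1 ≤ k) (hkp : k ≤ p) (x : ℝ) : bk p p x ≤ bk p k x := by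
  have hp1 : 1 ≤ p := by omega
  rw [pb8_bk_eq hp hk hkp, pb8_bk_eq hp hp1 le_rfl]
  refine integral_mono (pb8_g_int hp1 le_rfl x) (pb8_g_int hk hkp x) fun y => ?_
  unfold pb8_g
  have c1 : cf0 p p = 1 / 2 := if_pos rfl
  rw [c1, sub_self, zero_mul, Real.cosh_zero, mul_one]
  have h1 := (pb8_cf0 p k).1
  have hC := Real.cosh_pos ((p : ℝ) * y)
  have hE := Real.exp_pos (-((p : ℝ) * y))
  have hc1 := Real.one_le_cosh (((p : ℝ) - k) * y)
  refine div_le_div_of_nonneg_right ?_ hC.le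
  calc 1 / 2 * Real.exp (-((p : ℝ) * y)) = 1 / 2 * Real.exp (-((p : ℝ) * y)) * 1 := by ring
    _ ≤ cf0 p k * Real.exp (-((p : ℝ) * y)) * Real.cosh (((p : ℝ) - k) * y) := by gcongr

theorem pb8_bk_ww {p k : ℕ} (hp : 2 ≤ p) (hk : 1 ≤ k) (hkp : k ≤ p) (x : ℝ) :
    bk p k x ≤ 2 * ww p x := by
  unfold ww
  rcases min_choice (Real.exp (-(((p : ℝ) + 1) * x))) (Real.exp (-(((p : ℝ) - 1) * x))) with h | h
  · rw [h]; exact pb8_bk_le1 hp hk hkp x
  · rw [h]; exact pb8_bk_le2 hp hk hkp x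

theorem bk_le {p : ℕ} (hp : 2 ≤ p) : ∃ C : ℝ, 0 < C ∧ ∀ k : ℕ, 1 ≤ k → k ≤ p → ∀ x : ℝ,
    bk p k x ≤ C * ww p x :=
  ⟨2, by norm_num, fun _ hk hkp x => pb8_bk_ww hp hk hkp x⟩

theorem pb8_bk_cont {p k : ℕ} (hp : 2 ≤ p) (hk : 1 ≤ k) (hkp : k ≤ p) : Continuous (bk p k) :=
  continuous_iff_continuousAt.mpr fun x => (bk_deriv hp hk hkp x).continuousAt

theorem pb8_bk_anti {p k : ℕ} (hp : 2 ≤ p) (hk : 1 ≤ k) (hkp : k ≤ p) : StrictAnti (bk p k) := by
  refine strictAnti_of_deriv_neg fun x => ?_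
  rw [(bk_deriv hp hk hkp x).deriv]
  have h := pb8_g_pos p k x
  unfold pb8_g at h
  linarith

/-- the majorant -/
def pb8_m (x : ℝ) : ℝ := Real.exp (-(3 / 4 * |x|))

theorem pb8_m_int : Integrable pb8_m := by
  have h1 : IntegrableOn pb8_m (Set.Iic 0) := by
    refine (integrableOn_exp_mul_Iic (a := 3 / 4) (by norm_num) 0).congr_fun (fun x hx => ?_)
      measurableSet_Iic
    have hx' : x ≤ 0 := hx
    unfold pb8_m
    simp only
    rw [abs_of_nonpos hx', mul_neg, neg_neg]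
  have h2 : IntegrableOn pb8_m (Set.Ioi 0) := by
    refine (pb8_exp_int (3 / 4) 0 (by norm_num)).congr_fun (fun x hx => ?_) measurableSet_Ioi
    have hx' : 0 < x := hx
    unfold pb8_m
    simp only
    rw [abs_of_pos hx']
  rw [← integrableOn_univ, ← Set.Iic_union_Ioi (a := (0 : ℝ))]
  exact h1.union h2

theorem pb8_dom {p : ℕ} (hp : 2 ≤ p) {η : ℝ} (h0 : 0 < η) (h1 : η ≤ 1 / 4) {k : ℕ} (hk : 1 ≤ k)
    (hkp : k ≤ p) (x : ℝ) :
    rh p η ^ 2 * Real.exp (rh p η * x) * bk p k x ≤ 2 * (p : ℝ) ^ 2 * pb8_m x := by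
  have hp2 : (2 : ℝ) ≤ p := by exact_mod_cast hp
  have hr0 : 0 ≤ rh p η := by unfold rh; linarith
  have hr1 : rh p η ^ 2 ≤ (p : ℝ) ^ 2 := by
    refine pow_le_pow_left₀ hr0 ?_ 2
    unfold rh
    linarith
  have hmain : Real.exp (rh p η * x) * bk p k x ≤ 2 * pb8_m x := by
    unfold pb8_m
    rcases le_total 0 x with hx | hx
    · have h := pb8_bk_le1 hp hk hkp x
      calc Real.exp (rh p η * x) * bk p k x
          ≤ Real.exp (rh p η * x) * (2 * Real.exp (-(((p : ℝ) + 1) * x))) := by gcongr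
        _ = 2 * Real.exp (rh p η * x + -(((p : ℝ) + 1) * x)) := by
            rw [Real.exp_add]
            ring
        _ ≤ 2 * Real.exp (-(3 / 4 * |x|)) := by
            have : Real.exp (rh p η * x + -(((p : ℝ) + 1) * x)) ≤ Real.exp (-(3 / 4 * |x|)) := by
              rw [Real.exp_le_exp, abs_of_nonneg hx]
              unfold rh
              nlinarith
            linarith
    · have h := pb8_bk_le2 hp hk hkp x
      calc Real.exp (rh p η * x) * bk p k x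
          ≤ Real.exp (rh p η * x) * (2 * Real.exp (-(((p : ℝ) - 1) * x))) := by gcongr
        _ = 2 * Real.exp (rh p η * x + -(((p : ℝ) - 1) * x)) := by
            rw [Real.exp_add]
            ring
        _ ≤ 2 * Real.exp (-(3 / 4 * |x|)) := by
            have : Real.exp (rh p η * x + -(((p : ℝ) - 1) * x)) ≤ Real.exp (-(3 / 4 * |x|)) := by
              rw [Real.exp_le_exp, abs_of_nonpos hx]
              unfold rh
              nlinarith
            linarith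
  have hE : 0 ≤ Real.exp (rh p η * x) * bk p k x :=
    mul_nonneg (Real.exp_pos _).le (bk_nonneg hk hkp x)
  calc rh p η ^ 2 * Real.exp (rh p η * x) * bk p k x
      = rh p η ^ 2 * (Real.exp (rh p η * x) * bk p k x) := by ring
    _ ≤ (p : ℝ) ^ 2 * (Real.exp (rh p η * x) * bk p k x) := by gcongr
    _ ≤ (p : ℝ) ^ 2 * (2 * pb8_m x) := by gcongr
    _ = 2 * (p : ℝ) ^ 2 * pb8_m x := by ring

theorem pb8_nn {p : ℕ} {η : ℝ} {k : ℕ} (hk : 1 ≤ k) (hkp : k ≤ p) (x : ℝ) :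
    0 ≤ rh p η ^ 2 * Real.exp (rh p η * x) * bk p k x :=
  mul_nonneg (mul_nonneg (sq_nonneg _) (Real.exp_pos _).le) (bk_nonneg hk hkp x)

theorem pb8_II_int {p : ℕ} (hp : 2 ≤ p) {η : ℝ} (h0 : 0 < η) (h1 : η ≤ 1 / 4) {k : ℕ} (hk : 1 ≤ k)
    (hkp : k ≤ p) :
    Integrable fun x : ℝ => rh p η ^ 2 * Real.exp (rh p η * x) * bk p k x := by
  refine Integrable.mono' (pb8_m_int.const_mul (2 * (p : ℝ) ^ 2)) ?_
    (Eventually.of_forall fun x => ?_)
  · have h2 : Continuous fun x : ℝ => rh p η ^ 2 * Real.exp (rh p η * x) := by fun_prop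
    exact (h2.mul (pb8_bk_cont hp hk hkp)).aestronglyMeasurable
  · rw [Real.norm_eq_abs, abs_of_nonneg (pb8_nn hk hkp x)]
    exact pb8_dom hp h0 h1 hk hkp x

/-- bounds of the coefficients `β_k` -/
theorem beta_bd {p : ℕ} (hp : 2 ≤ p) : ∃ c C : ℝ, 0 < c ∧ 0 < C ∧ ∀ η : ℝ, 0 < η → η ≤ 1 / 4 →
    c ≤ II (rh p η) (bk p p) ∧ ∀ k : ℕ, 1 ≤ k → k ≤ p → II (rh p η) (bk p k) ≤ C := by
  have hp1 : 1 ≤ p := by omega
  have hp2 : (2 : ℝ) ≤ p := by exact_mod_cast hp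
  have hm0 : 0 ≤ ∫ x : ℝ, pb8_m x := integral_nonneg fun x => (Real.exp_pos _).le
  have hb : 0 < bk p p 1 :=
    (bk_nonneg hp1 le_rfl 2).trans_lt (pb8_bk_anti hp hp1 le_rfl (by norm_num))
  refine ⟨bk p p 1, 2 * (p : ℝ) ^ 2 * (∫ x : ℝ, pb8_m x) + 1, hb, by positivity,
    fun η h0 h1 => ⟨?_, fun k hk hkp => ?_⟩⟩
  · have hint := pb8_II_int hp h0 h1 hp1 le_rfl
    unfold II
    have h2 : ∫ x in Set.Ioc (0 : ℝ) 1, rh p η ^ 2 * Real.exp (rh p η * x) * bk p p x ≤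
        ∫ x : ℝ, rh p η ^ 2 * Real.exp (rh p η * x) * bk p p x :=
      setIntegral_le_integral hint (Eventually.of_forall fun x => pb8_nn hp1 le_rfl x)
    refine le_trans ?_ h2
    have h3 : ∫ _x in Set.Ioc (0 : ℝ) 1, bk p p 1 = bk p p 1 := by
      rw [setIntegral_const]
      simp
    rw [← h3]
    refine setIntegral_mono_on ?_ hint.integrableOn measurableSet_Ioc fun x hx => ?_
    · exact integrableOn_const (by simp)
    have hx0 : 0 < x := hx.1
    have hx1 : x ≤ 1 := hx.2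
    have hr : 1 ≤ rh p η := by unfold rh; linarith
    have h4 : bk p p 1 ≤ bk p p x := (pb8_bk_anti hp hp1 le_rfl).antitone hx1
    have h5 : 1 ≤ Real.exp (rh p η * x) := Real.one_le_exp (by positivity)
    have h6 : 1 ≤ rh p η ^ 2 := one_le_pow₀ hr
    have h7 : 1 ≤ rh p η ^ 2 * Real.exp (rh p η * x) := by
      have := mul_le_mul h6 h5 zero_le_one (by positivity)
      linarith
    calc bk p p 1 = 1 * bk p p 1 := (one_mul _).symm
      _ ≤ rh p η ^ 2 * Real.exp (rh p η * x) * bk p p x := by gcongr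
  · have hint := pb8_II_int hp h0 h1 hk hkp
    unfold II
    have h2 : ∫ x : ℝ, rh p η ^ 2 * Real.exp (rh p η * x) * bk p k x ≤
        ∫ x : ℝ, 2 * (p : ℝ) ^ 2 * pb8_m x :=
      integral_mono hint (pb8_m_int.const_mul _) fun x => pb8_dom hp h0 h1 hk hkp x
    rw [integral_const_mul] at h2
    linarith

end Pool.Agent.PfB
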