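import Pool.Agent.PfB.CPair
import Pool.Agent.PfA.Coef0
import Pool.Agent.PfA.Lin

/-! MP_f2c8f8_an, project PfB, row PB-36 -/

set_option autoImplicit false

open MeasureTheory Filter
open scoped ComplexConjugate Topology

noncomputable section

namespace Pool.Agent.PfB

open Pool.Agent.PfA


/-- coefficients of the part of `w` between two circles -/
def sc (p : ℕ) (w : ℂ → ℝ) (r a : ℝ) (n : ℕ) : ℂ :=
  ∑ z ∈ zs w (r * Real.exp a) with r * Real.exp (-a) < ‖z‖,
    (w z : ℂ) * (((kap (p - 1) n (r / ‖z‖) : ℝ) : ℂ) *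
      Complex.exp (-((n : ℂ) * (Complex.arg z : ℂ) * Complex.I)))

theorem pb36_sum {M : Type*} [AddCommMonoid M] (A : Finset ℂ) (f : ℂ → M) :
    ∑ i : Fin A.card, f (A.equivFin.symm i : ℂ) = ∑ z ∈ A, f z := by
  rw [← Finset.sum_coe_sort A f]
  exact Equiv.sum_comp A.equivFin.symm (fun z : A => f (z : ℂ))

/-- the growth of the counting function of a finite configuration -/
theorem pb36_growth (A : Finset ℂ) (m x : ℂ → ℝ) (hm : ∀ z, 0 ≤ m z) {a t : ℝ} (ht : 1 ≤ t)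
    (hx1 : ∀ z ∈ A, -a < x z) (hx2 : ∀ z ∈ A, x z ≤ a)
    (h : ∀ y : ℝ, -a ≤ y → y ≤ a + 1 → ∑ z ∈ A, m z * max 0 (y - x z) ≤ Real.exp (t * y))
    (hA : 0 ≤ a) (y : ℝ) : ∑ z ∈ A, m z * max 0 (y - x z) ≤ Real.exp (t * y) := by
  rcases lt_or_ge y (-a) with h1 | h1
  · rw [Finset.sum_eq_zero]
    · exact (Real.exp_pos _).le
    · intro z hz
      rw [max_eq_left, mul_zero]
      linarith [hx1 z hz]
  rcases le_or_gt y (a + 1) with h2 | h2
  · exact h y h1 h2
  have h3 := h (a + 1) (by linarith) le_rfl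
  have h4 : ∀ s : ℝ, a ≤ s → ∑ z ∈ A, m z * max 0 (s - x z) = ∑ z ∈ A, m z * (s - x z) := by
    intro s hs
    refine Finset.sum_congr rfl fun z hz => ?_
    rw [max_eq_right]
    linarith [hx2 z hz]
  rw [h4 _ (by linarith)] at h3 ⊢
  have h5 : ∑ z ∈ A, m z ≤ Real.exp (t * (a + 1)) := by
    refine le_trans (Finset.sum_le_sum fun z hz => ?_) h3
    have := hx2 z hz
    have := hm z
    nlinarith
  have h6 : ∑ z ∈ A, m z * (y - x z) = ∑ z ∈ A, m z * (a + 1 - x z) +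
      (∑ z ∈ A, m z) * (y - (a + 1)) := by
    rw [Finset.sum_mul, ← Finset.sum_add_distrib]
    refine Finset.sum_congr rfl fun z _ => ?_
    ring
  rw [h6]
  have h7 : t * y = t * (a + 1) + t * (y - (a + 1)) := by ring
  rw [h7, Real.exp_add]
  have h8 : 1 + (y - (a + 1)) ≤ Real.exp (t * (y - (a + 1))) := by
    have := Real.add_one_le_exp (t * (y - (a + 1)))
    nlinarith
  have h9 := Real.exp_pos (t * (a + 1))
  calc ∑ z ∈ A, m z * (a + 1 - x z) + (∑ z ∈ A, m z) * (y - (a + 1)) ≤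
      Real.exp (t * (a + 1)) + Real.exp (t * (a + 1)) * (y - (a + 1)) :=
        add_le_add h3 (mul_le_mul_of_nonneg_right h5 (by linarith))
    _ = Real.exp (t * (a + 1)) * (1 + (y - (a + 1))) := by ring
    _ ≤ _ := mul_le_mul_of_nonneg_left h8 h9.le

theorem pb36_NI {w : ℂ → ℝ} (hw : LF w) {r a : ℝ} (hr : 0 < r)
    (h1 : 1 ≤ r * Real.exp (-a)) (y : ℝ) (hy : -a ≤ y) :
    ∑ z ∈ zs w (r * Real.exp a) with r * Real.exp (-a) < ‖z‖,
      |w z| * max 0 (Real.log (r * Real.exp y / ‖z‖)) ≤ NI w (r * Real.exp y) := by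
  have h2 : 1 ≤ r * Real.exp y := by
    refine h1.trans (mul_le_mul_of_nonneg_left ?_ hr.le)
    exact Real.exp_le_exp.2 hy
  rcases le_total y a with h3 | h3
  · exact sum_log_le hw h2 (mul_le_mul_of_nonneg_left (Real.exp_le_exp.2 h3) hr.le) (by linarith)
  · refine le_trans (Finset.sum_le_sum_of_subset_of_nonneg ?_ ?_)
      (sum_log_le hw (R := r * Real.exp y) h2 le_rfl (r := r * Real.exp (-a)) (by linarith))
    · intro z hz
      rw [Finset.mem_filter, mem_zs hw] at hz ⊢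
      refine ⟨⟨hz.1.1.trans ?_, hz.1.2⟩, hz.2⟩
      exact mul_le_mul_of_nonneg_left (Real.exp_le_exp.2 h3) hr.le
    · intro z _ _
      exact mul_nonneg (abs_nonneg _) (le_max_left _ _)

/-- one term of the coefficients -/
theorem pb36_term {p : ℕ} {w : ℂ → ℝ} {r B : ℝ} (hr : 0 < r) (hB : 0 < B) (n : ℕ) {z : ℂ}
    (hz : 0 < ‖z‖) :
    (B : ℂ) * (((|w z| / B : ℝ) : ℂ) * ((((if 0 < w z then (1 : ℝ) else -1) * (-1) ^ n *
      kap (p - 1) n (Real.exp (-Real.log (‖z‖ / r))) : ℝ) : ℂ) *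
        Complex.exp (-((n : ℂ) * ((Complex.arg z + Real.pi : ℝ) : ℂ) * Complex.I)))) =
      (w z : ℂ) * (((kap (p - 1) n (r / ‖z‖) : ℝ) : ℂ) *
        Complex.exp (-((n : ℂ) * (Complex.arg z : ℂ) * Complex.I))) := by
  have h2 : Real.exp (-Real.log (‖z‖ / r)) = r / ‖z‖ := by
    rw [Real.exp_neg, Real.exp_log (div_pos hz hr), inv_div]
  have h3 : Complex.exp (-((n : ℂ) * ((Complex.arg z + Real.pi : ℝ) : ℂ) * Complex.I)) =
      (-1) ^ n * Complex.exp (-((n : ℂ) * (Complex.arg z : ℂ) * Complex.I)) := by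
    have h4 : -((n : ℂ) * ((Complex.arg z + Real.pi : ℝ) : ℂ) * Complex.I) =
        (n : ℂ) * (-(Real.pi * Complex.I)) +
          -((n : ℂ) * (Complex.arg z : ℂ) * Complex.I) := by
      push_cast
      ring
    rw [h4, Complex.exp_add, Complex.exp_nat_mul, Complex.exp_neg, Complex.exp_pi_mul_I]
    norm_num
  have h5 : |w z| * (if 0 < w z then (1 : ℝ) else -1) = w z := by
    split_ifs with h6
    · rw [abs_of_pos h6, mul_one]
    · rw [abs_of_nonpos (not_lt.1 h6)]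
      ring
  have h6 : ((-1 : ℂ) ^ n) * (-1) ^ n = 1 := by
    rw [← mul_pow]
    norm_num
  have hBc : (B : ℂ) ≠ 0 := by exact_mod_cast hB.ne'
  rw [h2, h3]
  have h7 : (w z : ℂ) = (|w z| : ℝ) * ((if 0 < w z then (1 : ℝ) else -1 : ℝ) : ℂ) := by
    rw [← Complex.ofReal_mul, h5]
  rw [h7]
  generalize ((if 0 < w z then (1 : ℝ) else -1) : ℝ) = s
  generalize kap (p - 1) n (r / ‖z‖) = κ
  generalize Complex.exp (-((n : ℂ) * (Complex.arg z : ℂ) * Complex.I)) = E
  push_cast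
  field_simp
  linear_combination ((|w z| : ℝ) : ℂ) * (s : ℂ) * (κ : ℂ) * E * h6

/-- the configuration of the zeros and poles between two circles -/
theorem build {p : ℕ} {w : ℂ → ℝ} (hw : LF w) {r a B t : ℝ} (hr : 0 < r) (ha : 0 < a)
    (ht : 1 ≤ t) (hB : 0 < B) (hrE : ∀ z, w z ≠ 0 → ‖z‖ ≠ r) (h1 : 1 ≤ r * Real.exp (-a))
    (hNI : ∀ y : ℝ, -a ≤ y → y ≤ a + 1 → NI w (r * Real.exp y) ≤ B * Real.exp (t * y)) :
    ∃ c : Cfg t, (∀ n : ℕ, (B : ℂ) * cf p c n = sc p w r a n) ∧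
      B * c.N 0 = ∑ z ∈ zs w (r * Real.exp a) with r * Real.exp (-a) < ‖z‖,
        |w z| * max 0 (Real.log (r / ‖z‖)) := by
  set A : Finset ℂ := (zs w (r * Real.exp a)).filter (fun z => r * Real.exp (-a) < ‖z‖) with hA
  have hmem : ∀ z ∈ A, ‖z‖ ≤ r * Real.exp a ∧ w z ≠ 0 ∧ r * Real.exp (-a) < ‖z‖ := by
    intro z hz
    rw [hA, Finset.mem_filter, mem_zs hw] at hz
    exact ⟨hz.1.1, hz.1.2, hz.2⟩
  have hpos : ∀ z ∈ A, 0 < ‖z‖ := fun z hz => by linarith [(hmem z hz).2.2]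
  -- the logarithm
  have hlog : ∀ z ∈ A, ∀ y : ℝ, Real.log (r * Real.exp y / ‖z‖) = y - Real.log (‖z‖ / r) := by
    intro z hz y
    have h2 := hpos z hz
    rw [Real.log_div (by positivity) h2.ne', Real.log_mul hr.ne' (Real.exp_pos y).ne',
      Real.log_exp, Real.log_div h2.ne' hr.ne']
    ring
  have hx1 : ∀ z ∈ A, -a < Real.log (‖z‖ / r) := by
    intro z hz
    rw [Real.lt_log_iff_exp_lt (div_pos (hpos z hz) hr), lt_div_iff₀ hr, mul_comm]
    exact (hmem z hz).2.2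
  have hx2 : ∀ z ∈ A, Real.log (‖z‖ / r) ≤ a := by
    intro z hz
    rw [Real.log_le_iff_le_exp (div_pos (hpos z hz) hr), div_le_iff₀ hr, mul_comm]
    exact (hmem z hz).1
  have hgr : ∀ y : ℝ, ∑ z ∈ A, |w z| / B * max 0 (y - Real.log (‖z‖ / r)) ≤
      Real.exp (t * y) := by
    intro y
    refine pb36_growth A (fun z => |w z| / B) (fun z => Real.log (‖z‖ / r))
      (fun z => div_nonneg (abs_nonneg _) hB.le) ht hx1 hx2 ?_ ha.le y
    intro s hs1 hs2
    have h2 := (pb36_NI hw hr h1 s hs1).trans (hNI s hs1 hs2)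
    rw [← hA] at h2
    have h3 : ∑ z ∈ A, |w z| / B * max 0 (s - Real.log (‖z‖ / r)) =
        (∑ z ∈ A, |w z| * max 0 (Real.log (r * Real.exp s / ‖z‖))) / B := by
      rw [Finset.sum_div]
      refine Finset.sum_congr rfl fun z hz => ?_
      rw [hlog z hz]
      ring
    rw [h3, div_le_iff₀ hB, mul_comm (Real.exp _)]
    exact h2
  refine ⟨⟨A.card, fun i => Real.log (‖(A.equivFin.symm i : ℂ)‖ / r),
    fun i => Complex.arg (A.equivFin.symm i : ℂ) + Real.pi,
    fun i => if 0 < w (A.equivFin.symm i : ℂ) then 1 else -1,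
    fun i => |w (A.equivFin.symm i : ℂ)| / B, fun i => div_nonneg (abs_nonneg _) hB.le,
    fun i => ?_, fun i => ?_, fun y => ?_⟩, fun n => ?_, ?_⟩
  · split_ifs
    · exact Or.inl rfl
    · exact Or.inr rfl
  · intro h0
    have hz := (A.equivFin.symm i).2
    have h2 := div_pos (hpos _ hz) hr
    rw [Real.log_eq_zero] at h0
    rcases h0 with h0 | h0 | h0
    · linarith
    · rw [div_eq_one_iff_eq hr.ne'] at h0
      exact hrE _ (hmem _ hz).2.1 h0
    · linarith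
  · exact (pb36_sum A (fun z => |w z| / B * max 0 (y - Real.log (‖z‖ / r)))).trans_le (hgr y)
  · unfold cf sc
    rw [← hA, Finset.mul_sum, ← pb36_sum A]
    refine Finset.sum_congr rfl fun i _ => ?_
    exact pb36_term hr hB n (hpos _ (A.equivFin.symm i).2)
  · unfold Cfg.N
    rw [Finset.mul_sum, ← pb36_sum A]
    refine Finset.sum_congr rfl fun i _ => ?_
    have hz := (A.equivFin.symm i).2
    have h2 := hlog _ hz 0
    rw [Real.exp_zero, mul_one] at h2
    simp only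
    rw [h2]
    field_simp

end Pool.Agent.PfB
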