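import Pool.Agent.PfB.Defs
import Pool.Agent.PfA.ElemFc
import Pool.Agent.PfA.Pair
import Pool.Agent.PfA.Dual

/-! MP_f2c8f8_an, project PfB, row PB-35 -/

set_option autoImplicit false

open MeasureTheory Filter
open scoped ComplexConjugate Topology

noncomputable section

namespace Pool.Agent.PfB

open Pool.Agent.PfA


/-- Fourier coefficients of a configuration -/
def cf (p : ℕ) {ρ : ℝ} (c : Cfg ρ) (n : ℕ) : ℂ :=
  ∑ i, ((c.m i : ℝ) : ℂ) * (((c.e i * (-1) ^ n * kap (p - 1) n (Real.exp (-c.x i)) : ℝ) : ℂ) *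
    Complex.exp (-((n : ℂ) * (c.a i : ℂ) * Complex.I)))

/-- one mass, as a function on the plane -/
def pb35_g (p : ℕ) (x a : ℝ) (z : ℂ) : ℝ :=
  Real.log ‖EE (p - 1) (-(z * Complex.exp (-((a : ℂ) * Complex.I))) / ((Real.exp x : ℝ) : ℂ))‖

lemma pb35_int (p : ℕ) (x a : ℝ) : CircleIntegrable (pb35_g p x a) 0 1 := by
  refine MeromorphicOn.circleIntegrable_log_norm
    (f := fun z => EE (p - 1) (-(z * Complex.exp (-((a : ℂ) * Complex.I))) /
      ((Real.exp x : ℝ) : ℂ))) ?_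
  intro z _
  have hd : Differentiable ℂ (fun z : ℂ => EE (p - 1)
      (-(z * Complex.exp (-((a : ℂ) * Complex.I))) / ((Real.exp x : ℝ) : ℂ))) := by
    unfold EE
    fun_prop
  exact (hd.analyticAt z).meromorphicAt

lemma pb35_KK (p : ℕ) {x : ℝ} (hx : x ≠ 0) (a t : ℝ) :
    pb35_g p x a (circleMap 0 1 t) = KK p x (t - a) := by
  have hw : -(circleMap 0 1 t * Complex.exp (-((a : ℂ) * Complex.I))) / ((Real.exp x : ℝ) : ℂ) =
      -Complex.exp (-(x : ℂ) + ((t - a : ℝ) : ℂ) * Complex.I) := by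
    rw [circleMap_zero, Complex.ofReal_one, one_mul, ← Complex.exp_add, Complex.ofReal_exp,
      neg_div, ← Complex.exp_sub]
    congr 2
    push_cast
    ring
  unfold pb35_g
  rw [hw]
  unfold EE KK
  set w : ℂ := Complex.exp (-(x : ℂ) + ((t - a : ℝ) : ℂ) * Complex.I) with hwd
  have hn : ‖w‖ = Real.exp (-x) := by
    rw [hwd, Complex.norm_exp]
    simp
  have h1 : (1 : ℂ) + w ≠ 0 := by
    intro h
    have h2 : w = -1 := by linear_combination h
    rw [h2, norm_neg, norm_one] at hn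
    have h3 : -x = 0 := by
      have := congrArg Real.log hn
      rw [Real.log_one, Real.log_exp] at this
      exact this.symm
    exact hx (by linarith)
  rw [sub_neg_eq_add, norm_mul, Complex.norm_exp, Real.log_mul (norm_ne_zero_iff.2 h1)
    (Real.exp_ne_zero _), Real.log_exp, Complex.re_sum]
  congr 1
  refine Finset.sum_congr rfl fun k _ => ?_
  have h4 : (-w) ^ k = (-1) ^ k * ((Real.exp (-(k * x)) : ℝ) : ℂ) *
      Complex.exp (((k * (t - a) : ℝ) : ℂ) * Complex.I) := by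
    rw [neg_pow, hwd, ← Complex.exp_nat_mul, Complex.ofReal_exp, mul_assoc, ← Complex.exp_add]
    congr 2
    push_cast
    ring
  rw [Complex.div_natCast_re, h4]
  have h5 : ((-1 : ℂ) ^ k * ((Real.exp (-(k * x)) : ℝ) : ℂ) *
      Complex.exp (((k * (t - a) : ℝ) : ℂ) * Complex.I)).re =
      (-1 : ℝ) ^ k * Real.exp (-(k * x)) * Real.cos (k * (t - a)) := by
    have h6 : ((-1 : ℂ) ^ k * ((Real.exp (-(k * x)) : ℝ) : ℂ)) =
        (((-1 : ℝ) ^ k * Real.exp (-(k * x)) : ℝ) : ℂ) := by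
      push_cast
      rfl
    rw [h6, Complex.re_ofReal_mul, Complex.exp_ofReal_mul_I_re]
  rw [h5]

/-- rotation -/
lemma pb35_rot (g h : ℂ → ℝ) (a : ℝ)
    (hgh : ∀ t : ℝ, g (circleMap 0 1 t) = h (circleMap 0 1 (t - a))) (n : ℕ) :
    fc g 1 n = Complex.exp (-((n : ℂ) * (a : ℂ) * Complex.I)) * fc h 1 n := by
  unfold fc
  rw [Real.circleAverage_def, Real.circleAverage_def]
  set F : ℝ → ℂ := fun θ => ((h (circleMap 0 1 θ) : ℝ) : ℂ) *
    (conj (circleMap 0 1 θ) / ((1 : ℝ) : ℂ)) ^ n with hF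
  have hper : Function.Periodic F (2 * Real.pi) := by
    intro θ
    simp only [hF]
    rw [show circleMap 0 1 (θ + 2 * Real.pi) = circleMap 0 1 θ from periodic_circleMap 0 1 θ]
  have h1 : ∀ θ : ℝ, ((g (circleMap 0 1 θ) : ℝ) : ℂ) *
      (conj (circleMap 0 1 θ) / ((1 : ℝ) : ℂ)) ^ n =
      Complex.exp (-((n : ℂ) * (a : ℂ) * Complex.I)) * F (θ - a) := by
    intro θ
    simp only [hF]
    rw [hgh, pf14_circle one_pos, pf14_circle one_pos, ← Complex.exp_nat_mul,
      ← Complex.exp_nat_mul]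
    have : Complex.exp ((n : ℂ) * -((θ : ℂ) * Complex.I)) =
        Complex.exp (-((n : ℂ) * (a : ℂ) * Complex.I)) *
          Complex.exp ((n : ℂ) * -(((θ - a : ℝ) : ℂ) * Complex.I)) := by
      rw [← Complex.exp_add]
      congr 1
      push_cast
      ring
    rw [this]
    ring
  simp_rw [h1]
  rw [intervalIntegral.integral_const_mul, intervalIntegral.integral_comp_sub_right F a,
    mul_smul_comm]
  congr 2
  have h2 := hper.intervalIntegral_add_eq (0 - a) 0
  rw [show (0 : ℝ) - a + 2 * Real.pi = 2 * Real.pi - a by ring, zero_add] at h2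
  exact h2

lemma pb35_fc {p : ℕ} {x : ℝ} (hx : x ≠ 0) (a : ℝ) (n : ℕ) :
    fc (pb35_g p x a) 1 n = Complex.exp (-((n : ℂ) * (a : ℂ) * Complex.I)) *
      (((-1) ^ n * kap (p - 1) n (Real.exp (-x)) : ℝ) : ℂ) := by
  have ha : Real.exp x ≠ 1 := by
    intro h
    exact hx (by rw [← Real.log_exp x, h, Real.log_one])
  have h1 := fc_EE (p - 1) (Real.exp_pos x) one_pos ha n
  rw [pb35_rot (pb35_g p x a) (fun z => Real.log ‖EE (p - 1) (-z / ((Real.exp x : ℝ) : ℂ))‖) a
    (fun t => ?_) n, h1]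
  · congr 1
    rw [Real.exp_neg, one_div]
    push_cast
    rfl
  · unfold pb35_g
    have h2 : circleMap 0 1 t * Complex.exp (-((a : ℂ) * Complex.I)) = circleMap 0 1 (t - a) := by
      rw [circleMap_zero, circleMap_zero, Complex.ofReal_one, one_mul, one_mul, ← Complex.exp_add]
      congr 1
      push_cast
      ring
    rw [h2]

lemma pb35_cint {u : ℂ → ℝ} (hu : CircleIntegrable u 0 1) (n : ℕ) :
    CircleIntegrable (fun z => (u z : ℂ) * (conj z / ((1 : ℝ) : ℂ)) ^ n) 0 1 := by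
  have h1 : IntervalIntegrable (fun θ : ℝ => ((u (circleMap 0 1 θ) : ℝ) : ℂ)) volume 0
      (2 * Real.pi) := ⟨hu.1.ofReal, hu.2.ofReal⟩
  have hc : Continuous (fun θ : ℝ => (conj (circleMap 0 1 θ) / ((1 : ℝ) : ℂ)) ^ n) :=
    (((Complex.continuous_conj.comp (continuous_circleMap 0 1)).div_const _).pow n)
  exact h1.mul_continuousOn hc.continuousOn

lemma pb35_cmul (c : ℝ) (u : ℂ → ℝ) (n : ℕ) :
    fc (fun z => c * u z) 1 n = (c : ℂ) * fc u 1 n := by
  unfold fc
  rw [← smul_eq_mul (c : ℂ), ← Real.circleAverage_fun_smul]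
  congr 1
  funext z
  rw [smul_eq_mul]
  push_cast
  ring

lemma pb35_sum {ι : Type} (s : Finset ι) (u : ι → ℂ → ℝ)
    (hu : ∀ i ∈ s, CircleIntegrable (u i) 0 1) (n : ℕ) :
    fc (fun z => ∑ i ∈ s, u i z) 1 n = ∑ i ∈ s, fc (u i) 1 n := by
  unfold fc
  rw [← Real.circleAverage_fun_sum (fun i hi => pb35_cint (hu i hi) n)]
  congr 1
  funext z
  rw [← Finset.sum_mul]
  push_cast
  ring

theorem cfg_pair {p : ℕ} (hp : 1 ≤ p) {ρ : ℝ} (c : Cfg ρ) {M : ℕ} {b : ℕ → ℂ} (hb : TU M b) :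
    (cf p c 0 * conj (b 0)).re + 2 * ∑ n ∈ Finset.Icc 1 M, (cf p c n * conj (b n)).re ≤
      (2 * Real.pi)⁻¹ * ∫ t in (-Real.pi)..Real.pi, |c.u p t| := by
  have _ := hp
  set U : ℂ → ℝ := fun z => ∑ i, c.m i * c.e i * pb35_g p (c.x i) (c.a i) z with hU
  have hUi : ∀ i ∈ (Finset.univ : Finset (Fin c.n)),
      CircleIntegrable (fun z => c.m i * c.e i * pb35_g p (c.x i) (c.a i) z) 0 1 := by
    intro i _
    have h := pb35_int p (c.x i) (c.a i)
    exact (IntervalIntegrable.const_mul h (c.m i * c.e i))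
  have hUint : CircleIntegrable U 0 1 := by
    have h := IntervalIntegrable.sum (Finset.univ : Finset (Fin c.n))
      (f := fun i θ => c.m i * c.e i * pb35_g p (c.x i) (c.a i) (circleMap 0 1 θ)) hUi
    have h2 : (∑ i ∈ (Finset.univ : Finset (Fin c.n)), fun θ : ℝ =>
        c.m i * c.e i * pb35_g p (c.x i) (c.a i) (circleMap 0 1 θ)) =
        fun θ : ℝ => U (circleMap 0 1 θ) := by
      funext θ
      rw [Finset.sum_apply]
    rw [h2] at h
    exact h
  have hval : ∀ t : ℝ, U (circleMap 0 1 t) = c.u p t := by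
    intro t
    simp only [hU, Cfg.u]
    refine Finset.sum_congr rfl fun i _ => ?_
    rw [pb35_KK p (c.x0 i)]
  have hfc : ∀ n : ℕ, fc U 1 n = cf p c n := by
    intro n
    rw [hU, pb35_sum Finset.univ _ hUi n]
    unfold cf
    refine Finset.sum_congr rfl fun i _ => ?_
    rw [pb35_cmul, pb35_fc (c.x0 i)]
    push_cast
    ring
  have hmain := pr_le one_pos hUint hb
  unfold pr at hmain
  simp only [hfc] at hmain
  refine hmain.trans (le_of_eq ?_)
  unfold UU
  rw [Real.circleAverage_def, smul_eq_mul]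
  congr 1
  simp_rw [hval]
  have hper : Function.Periodic (fun t => |c.u p t|) (2 * Real.pi) := by
    intro t
    simp only
    rw [← hval, ← hval, show circleMap 0 1 (t + 2 * Real.pi) = circleMap 0 1 t from
      periodic_circleMap 0 1 t]
  have h2 := hper.intervalIntegral_add_eq 0 (-Real.pi)
  rw [zero_add, show -Real.pi + 2 * Real.pi = Real.pi by ring] at h2
  exact h2

end Pool.Agent.PfB
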