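import Mathlib
import Pool.Agent.PfA.Defs

/-!
# Pfluger's problem below the integers: definitions (MP_f2c8f8_an, project PfB)

`p ≥ 2`, `ρ = p - η`, kernels of genus `p - 1`, finite configurations of weighted zeros and poles.
-/

set_option autoImplicit false

open MeasureTheory

noncomputable section

namespace Pool.Agent.PfB

/-- the order `p - η` -/
abbrev rh (p : ℕ) (η : ℝ) : ℝ := (p : ℝ) - η

/-- `(-1) ^ (p + 1)` -/
def sg (p : ℕ) : ℝ := (-1) ^ (p + 1)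

/-- `(-1) ^ j` -/
def sj (j : ℤ) : ℝ := (-1 : ℝ) ^ j

/-- the zeros of `cos (p θ)` -/
def th (p : ℕ) (j : ℤ) : ℝ := Real.pi * (2 * j + 1) / (2 * p)

/-- the indices of the zeros in `(-π, π)` -/
def JJ (p : ℕ) : Finset ℤ := Finset.Ico (-(p : ℤ)) p

/-- `log |E (w)|`, `w = - exp (-x + i b)`, `E` the elementary factor of genus `p - 1` -/
def KK (p : ℕ) (x b : ℝ) : ℝ :=
  Real.log ‖(1 : ℂ) + Complex.exp (-(x : ℂ) + (b : ℂ) * Complex.I)‖ +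
    ∑ j ∈ Finset.Icc 1 (p - 1), (-1 : ℝ) ^ j * Real.exp (-(j * x)) * Real.cos (j * b) / j

/-- `KK` without the `p`-th harmonic -/
def KP (p : ℕ) (x b : ℝ) : ℝ :=
  KK p x b - sg p / p * Real.exp (-(p * |x|)) * Real.cos (p * b)

/-- `KP` around the `j`-th zero -/
def kj (p : ℕ) (x : ℝ) (j : ℤ) (b : ℝ) : ℝ := sg p * sj j * KP p x (th p j + b)

/-- `KK` at the `j`-th zero -/
def kt (p : ℕ) (x : ℝ) (j : ℤ) : ℝ := sg p * sj j * KK p x (th p j)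

/-- the weight `min (exp (-(p+1)x)) (exp (-(p-1)x))` -/
def ww (p : ℕ) (x : ℝ) : ℝ :=
  min (Real.exp (-(((p : ℝ) + 1) * x))) (Real.exp (-(((p : ℝ) - 1) * x)))

/-- the weight `min (exp (-px)) (exp (-(p-1)x))` -/
def vv (p : ℕ) (x : ℝ) : ℝ :=
  min (Real.exp (-((p : ℝ) * x))) (Real.exp (-(((p : ℝ) - 1) * x)))

/-- a function with second derivative `k`, small at infinity -/
def Tt (k : ℝ → ℝ) (x : ℝ) : ℝ := ∫ y in Set.Ioi x, (y - x) * k y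

/-- integral against `d n₀`, `n₀ = ρ exp (ρ x)` -/
def II (ρ : ℝ) (f : ℝ → ℝ) : ℝ := ∫ x : ℝ, ρ ^ 2 * Real.exp (ρ * x) * f x

/-- the density of `Psi` -/
def kc (p : ℕ) (y : ℝ) : ℝ := (p : ℝ) / Real.pi / Real.cosh (p * y)

/-- the first order value -/
def Psi (p : ℕ) (x : ℝ) : ℝ := Tt (kc p) x

/-- the factor of the last coefficient -/
def cf0 (p k : ℕ) : ℝ := if k = p then 1 / 2 else 1

/-- the density of `bk` -/
def bkd (p k : ℕ) (x : ℝ) : ℝ :=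
  cf0 p k * Real.exp (-((p : ℝ) * x)) * Real.cosh (((p : ℝ) - k) * x) *
    ((p : ℝ) + p * Real.tanh (p * x) - ((p : ℝ) - k) * Real.tanh (((p : ℝ) - k) * x)) /
      Real.cosh (p * x)

/-- coefficients of `kt` -/
def bk (p k : ℕ) (x : ℝ) : ℝ := Tt (bkd p k) x

/-- left minus right half of an arc -/
def ar (p : ℕ) (f : ℝ → ℝ) : ℝ :=
  (∫ t in (-(Real.pi / (2 * p)))..0, f t) - ∫ t in (0 : ℝ)..(Real.pi / (2 * p)), f t

/-- the pairing of the kernel with the sign of `cos (p θ)` -/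
def Ph (p : ℕ) (x a : ℝ) : ℝ :=
  (2 * Real.pi)⁻¹ * ∑ j ∈ JJ p, ar p (fun t => sg p * sj j * KK p x (th p j + t - a))

/-- the main term -/
def mn (p : ℕ) (η : ℝ) : ℝ := 1 / Real.sin (Real.pi * η / (2 * p))

/-- the total weight of the `p`-th harmonic -/
def Z0 (p : ℕ) (η : ℝ) : ℝ := 2 * p * rh p η ^ 2 / ((p : ℝ) ^ 2 - rh p η ^ 2)

/-- loss of the `p`-th harmonic -/
def ell (p : ℕ) (τ : ℤ → ℝ) : ℝ :=
  (Real.pi * p)⁻¹ * ∑ j ∈ JJ p, (1 - Real.cos (p * τ j))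

/-- contribution of the shifts `τ` -/
def QQ (p : ℕ) (τ : ℤ → ℝ) (x a : ℝ) : ℝ := ∑ j ∈ JJ p, ∫ t in (0 : ℝ)..τ j, kj p x j (t - a)

/-- the same with the full kernel, at `a = 0` -/
def RR (p : ℕ) (τ : ℤ → ℝ) (x : ℝ) : ℝ :=
  ∑ j ∈ JJ p, ∫ t in (0 : ℝ)..τ j, sg p * sj j * KK p x (th p j + t)

/-- the shifts of the extremal function -/
def tL (p : ℕ) (η : ℝ) (j : ℤ) : ℝ := η * th p j / rh p η

/-- value of the extremal configuration at the shifts `τ` -/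
def WW (p : ℕ) (η : ℝ) (τ : ℤ → ℝ) : ℝ :=
  (Real.sin (Real.pi * η))⁻¹ * ∑ j ∈ JJ p, Real.cos (rh p η * (τ j - tL p η j))

/-- finite configurations -/
structure Cfg (ρ : ℝ) where
  /-- number of masses -/
  n : ℕ
  /-- logarithm of the modulus -/
  x : Fin n → ℝ
  /-- argument (of the opposite point) -/
  a : Fin n → ℝ
  /-- sign -/
  e : Fin n → ℝ
  /-- mass -/
  m : Fin n → ℝ
  m0 : ∀ i, 0 ≤ m i
  e1 : ∀ i, e i = 1 ∨ e i = -1
  x0 : ∀ i, x i ≠ 0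
  hN : ∀ y : ℝ, ∑ i, m i * max 0 (y - x i) ≤ Real.exp (ρ * y)

namespace Cfg

variable {ρ : ℝ}

/-- integrated counting function -/
def N (c : Cfg ρ) (y : ℝ) : ℝ := ∑ i, c.m i * max 0 (y - c.x i)

/-- the defect of the counting function -/
def ee (c : Cfg ρ) (y : ℝ) : ℝ := Real.exp (ρ * y) - c.N y

/-- the potential on the unit circle -/
def u (p : ℕ) (c : Cfg ρ) (t : ℝ) : ℝ := ∑ i, c.m i * c.e i * KK p (c.x i) (t - c.a i)

/-- twice the characteristic -/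
def FF (p : ℕ) (c : Cfg ρ) : ℝ :=
  (2 * Real.pi)⁻¹ * (∫ t in (-Real.pi)..Real.pi, |c.u p t|) + c.N 0

/-- angular defects -/
def d (p : ℕ) (c : Cfg ρ) (i : Fin c.n) : ℝ := 1 - c.e i * Real.cos (p * c.a i)

/-- radial defect -/
def Dr (p : ℕ) (c : Cfg ρ) : ℝ := ∫ y : ℝ, c.ee y * kc p y

/-- angular defect -/
def Da (p : ℕ) (c : Cfg ρ) : ℝ :=
  (Real.pi * p)⁻¹ * ∑ i, c.m i * (Real.exp (-(p * |c.x i|)) * c.d p i)

/-- total defect -/
def DD (p : ℕ) (c : Cfg ρ) : ℝ := c.Dr p + c.Da p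

/-- the `p`-th harmonic, cosine part -/
def Ac (p : ℕ) (c : Cfg ρ) : ℝ :=
  (p : ℝ)⁻¹ * ∑ i, c.m i * (c.e i * Real.exp (-(p * |c.x i|)) * Real.cos (p * c.a i))

/-- the `p`-th harmonic, sine part -/
def As (p : ℕ) (c : Cfg ρ) : ℝ :=
  (p : ℝ)⁻¹ * ∑ i, c.m i * (c.e i * Real.exp (-(p * |c.x i|)) * Real.sin (p * c.a i))

/-- upper bound of the value of `c` at the shifts `τ` -/
def Lam (p : ℕ) (η : ℝ) (c : Cfg ρ) (τ : ℤ → ℝ) : ℝ :=
  mn p η - c.DD p - c.Ac p * ell p τ +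
    Real.pi⁻¹ * ∑ i, c.m i * (c.e i * QQ p τ (c.x i) (c.a i))

/-- normalised configurations -/
structure Nor (p : ℕ) (c : Cfg ρ) : Prop where
  s : c.As p = 0
  c : 0 ≤ c.Ac p

end Cfg

end Pool.Agent.PfB
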