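import Pool.Agent.PfA.Core2
import Pool.Agent.PfA.Core3
import Pool.Agent.PfA.Lin
import Pool.Agent.PfB.Defs

/-! MP_f2c8f8_an, project PfB, row PB-34 -/

set_option autoImplicit false

open MeasureTheory Filter Metric
open scoped ComplexConjugate Topology

noncomputable section

namespace Pool.Agent.PfB

open Pool.Agent.PfA


/-- the signed integrated counting function -/
def NS (w : ℂ → ℝ) (R : ℝ) : ℝ :=
  ∑ a ∈ zs w R, w a * Real.log (R * ‖a‖⁻¹) + w 0 * Real.log R

theorem pb34_log_eq_NS (D : Function.locallyFinsupp ℂ ℤ) (w : ℂ → ℝ)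
    (h : ∀ z, w z = (D z : ℝ)) {r : ℝ} (hr : 0 ≤ r) :
    Function.locallyFinsuppWithin.logCounting D r = NS w r := by
  classical
  have hw0 : ∀ z, w z = 0 ↔ D z = 0 := by
    intro z
    rw [h z, Int.cast_eq_zero]
  have hbr : closedBall (0 : ℂ) |r| = closedBall (0 : ℂ) r := by rw [abs_of_nonneg hr]
  have hsup : {a : ℂ | ‖a‖ ≤ r ∧ w a ≠ 0} =
      (Function.locallyFinsuppWithin.toClosedBall r D).support := by
    ext a
    simp only [Set.mem_ofPred_eq, Function.mem_support]
    constructor
    · rintro ⟨h1, h2⟩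
      rw [Function.locallyFinsuppWithin.toClosedBall_eval_within]
      · rwa [ne_eq, hw0] at h2
      · rw [hbr]
        simpa using h1
    · intro h1
      have h2 : a ∈ closedBall (0 : ℂ) |r| :=
        Function.locallyFinsuppWithin.toClosedBall_support_subset_closedBall D h1
      rw [Function.locallyFinsuppWithin.toClosedBall_eval_within _ h2] at h1
      refine ⟨?_, ?_⟩
      · rw [hbr] at h2
        simpa using h2
      · rwa [ne_eq, hw0]
  have hfin : {a : ℂ | ‖a‖ ≤ r ∧ w a ≠ 0}.Finite := by
    rw [hsup]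
    exact (Function.locallyFinsuppWithin.toClosedBall r D).finiteSupport
      (isCompact_closedBall 0 |r|)
  have hzs : (zs w r : Set ℂ) = {a : ℂ | ‖a‖ ≤ r ∧ w a ≠ 0} := by
    unfold zs
    rw [dif_pos hfin]
    exact hfin.coe_toFinset
  unfold NS
  simp only [Function.locallyFinsuppWithin.logCounting, AddMonoidHom.coe_mk, ZeroHom.coe_mk]
  congr 1
  · rw [finsum_eq_sum_of_support_subset (s := zs w r)]
    · refine Finset.sum_congr rfl fun a ha => ?_
      have ha' : a ∈ (zs w r : Set ℂ) := ha
      rw [hzs] at ha'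
      rw [h a, Function.locallyFinsuppWithin.toClosedBall_eval_within]
      rw [hbr]
      simpa using ha'.1
    · intro a ha
      rw [hzs, hsup]
      simp only [Function.mem_support] at ha ⊢
      intro h0
      apply ha
      rw [h0]
      simp
  · rw [h 0]

theorem pb34_neg {f : ℂ → ℂ} (hf : Meromorphic f)
    (hne : ∀ c z : ℂ, meromorphicOrderAt (fun z => f z - c) z ≠ ⊤) (a : ℂ) :
    (MeromorphicOn.divisor (fun z => f z - a) Set.univ)⁻ =
      (MeromorphicOn.divisor f Set.univ)⁻ := by
  by_cases ha : a = 0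
  · subst ha
    simp
  · ext z
    rw [Function.locallyFinsuppWithin.negPart_apply, Function.locallyFinsuppWithin.negPart_apply]
    obtain ⟨h1, h2, h3⟩ := pf6_ord hf hne ha z _ _ rfl rfl
    have he : (fun z => f z - 0) = f := by funext x; simp
    rw [he] at h1 h2 h3
    generalize MeromorphicOn.divisor (fun z => f z - a) Set.univ z = m at *
    generalize MeromorphicOn.divisor f Set.univ z = n at *
    rw [negPart_def, negPart_def]
    rcases lt_trichotomy m 0 with h | h | h
    · rw [h1 h]
    · subst h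
      rw [neg_zero, sup_idem, sup_of_le_right (by have := h3 rfl; omega)]
    · rw [h2 h, neg_zero, sup_idem, sup_of_le_right (by omega)]

theorem pb34_lc {f : ℂ → ℂ} (hf : Meromorphic f)
    (hne : ∀ c z : ℂ, meromorphicOrderAt (fun z => f z - c) z ≠ ⊤) (a : WithTop ℂ) :
    ∃ D : Function.locallyFinsupp ℂ ℤ, (∀ z, dd f a z = (D z : ℝ)) ∧
      ValueDistribution.logCounting f a = Function.locallyFinsuppWithin.logCounting
        (D + (MeromorphicOn.divisor f Set.univ)⁻) := by
  induction a using WithTop.recTopCoe with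
  | top =>
    refine ⟨0, fun z => ?_, ?_⟩
    · show (0 : ℝ) = _
      simp
    · rw [ValueDistribution.logCounting_top, zero_add]
  | coe c =>
    refine ⟨MeromorphicOn.divisor (fun z => f z - c) Set.univ, fun z => rfl, ?_⟩
    rw [ValueDistribution.logCounting_coe, ← pb34_neg hf hne c]
    congr 1
    ext z
    rw [Function.locallyFinsuppWithin.coe_add, Pi.add_apply,
      Function.locallyFinsuppWithin.posPart_apply, Function.locallyFinsuppWithin.negPart_apply]
    generalize MeromorphicOn.divisor (fun z => f z - c) Set.univ z = m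
    rw [posPart_def, negPart_def]
    omega

theorem mean_NS {f : ℂ → ℂ} (hf : Meromorphic f)
    (hne : ∀ c z : ℂ, meromorphicOrderAt (fun z => f z - c) z ≠ ⊤) (a b : WithTop ℂ) :
    ∃ C : ℝ, 0 ≤ C ∧ ∀ r : ℝ, 1 ≤ r →
      |Real.circleAverage (fun z => ll f a z - ll f b z) 0 r -
        NS (fun z => dd f a z - dd f b z) r| ≤ C := by
  obtain ⟨κa, hκa⟩ := pf7_mean hf a
  obtain ⟨κb, hκb⟩ := pf7_mean hf b
  obtain ⟨Da, hDa, hLa⟩ := pb34_lc hf hne a
  obtain ⟨Db, hDb, hLb⟩ := pb34_lc hf hne b
  refine ⟨|κa - κb|, abs_nonneg _, fun r hr => ?_⟩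
  have h1 : Real.circleAverage (fun z => ll f a z - ll f b z) 0 r =
      Real.circleAverage (fun z => ll f a z) 0 r - Real.circleAverage (fun z => ll f b z) 0 r :=
    Real.circleAverage_fun_sub (pf7_int hf a r) (pf7_int hf b r)
  have h2 : NS (fun z => dd f a z - dd f b z) r =
      ValueDistribution.logCounting f a r - ValueDistribution.logCounting f b r := by
    rw [← pb34_log_eq_NS (Da - Db) (fun z => dd f a z - dd f b z) _ (by linarith), hLa, hLb,
      map_sub, map_add, map_add]
    · simp only [Pi.sub_apply, Pi.add_apply]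
      ring
    · intro z
      show dd f a z - dd f b z = _
      rw [hDa, hDb, Function.locallyFinsuppWithin.coe_sub, Pi.sub_apply, Int.cast_sub]
  rw [h1, hκa r hr, hκb r hr, h2]
  apply le_of_eq
  congr 1
  ring

end Pool.Agent.PfB
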