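import Pool.Agent.PfB.Bld
import Pool.Agent.PfA.CoefHigh
import Pool.Agent.PfB.Mean

/-! MP_f2c8f8_an, project PfB, row PB-37 -/

set_option autoImplicit false

open MeasureTheory Filter
open scoped ComplexConjugate Topology

noncomputable section

namespace Pool.Agent.PfB

open Pool.Agent.PfA

/-- the kernel of the two radii formula -/
def pb37_K (r : ℝ) (n : ℕ) (z : ℂ) : ℂ :=
  (if ‖z‖ < r then conj z / (r : ℂ) else (r : ℂ) / z) ^ n

theorem pb37_conj (z : ℂ) : conj z = (‖z‖ : ℂ) * Complex.exp (-((Complex.arg z : ℂ) * Complex.I)) := by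
  conv_lhs => rw [← Complex.norm_mul_exp_arg_mul_I z]
  rw [map_mul, ← Complex.exp_conj, map_mul, Complex.conj_I, Complex.conj_ofReal, Complex.conj_ofReal]
  congr 2
  ring

theorem pb37_inv {z : ℂ} (hz : z ≠ 0) :
    z⁻¹ = ((‖z‖⁻¹ : ℝ) : ℂ) * Complex.exp (-((Complex.arg z : ℂ) * Complex.I)) := by
  have h0 : 0 < ‖z‖ := norm_pos_iff.2 hz
  rw [Complex.exp_neg]
  conv_lhs => rw [← Complex.norm_mul_exp_arg_mul_I z]
  rw [mul_inv]
  push_cast
  ring

/-- the kernel is the coefficient `kap` -/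
theorem pb37_kap {p n : ℕ} (hp : 2 ≤ p) (hn : p ≤ n) {r : ℝ} (hr : 0 < r) {z : ℂ} (hz : 0 < ‖z‖)
    (hzr : ‖z‖ ≠ r) :
    ((kap (p - 1) n (r / ‖z‖) : ℝ) : ℂ) * Complex.exp (-((n : ℂ) * (Complex.arg z : ℂ) * Complex.I)) =
      -(1 / (2 * (n : ℂ))) * pb37_K r n z := by
  have hz0 : z ≠ 0 := norm_pos_iff.1 hz
  have e1 : Complex.exp (-((n : ℂ) * (Complex.arg z : ℂ) * Complex.I)) =
      Complex.exp (-((Complex.arg z : ℂ) * Complex.I)) ^ n := by
    rw [← Complex.exp_nat_mul]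
    congr 1
    ring
  unfold kap pb37_K
  rw [if_neg (by omega), if_neg (by omega), e1]
  by_cases h : ‖z‖ < r
  · have h2 : ¬ r / ‖z‖ < 1 := by
      rw [not_lt, le_div_iff₀ hz]; linarith
    rw [if_neg h2, if_pos h, pb37_conj]
    rw [mul_div_right_comm, mul_pow, inv_div]
    push_cast
    ring
  · have h2 : r / ‖z‖ < 1 := by
      rw [div_lt_one hz]
      exact lt_of_le_of_ne (not_lt.1 h) (Ne.symm hzr)
    rw [if_pos h2, if_neg h, div_eq_mul_inv (r : ℂ), pb37_inv hz0]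
    rw [← mul_assoc, mul_pow]
    push_cast
    ring

theorem pb37_norm {r : ℝ} (hr : 0 < r) (n : ℕ) (z : ℂ) :
    ‖pb37_K r n z‖ = (if ‖z‖ < r then ‖z‖ / r else r / ‖z‖) ^ n := by
  unfold pb37_K
  rw [norm_pow]
  congr 1
  split_ifs
  · rw [norm_div, RCLike.norm_conj, Complex.norm_real, Real.norm_of_nonneg hr.le]
  · rw [norm_div, Complex.norm_real, Real.norm_of_nonneg hr.le]

theorem pb37_term {r R a : ℝ} (hr : 0 < r) (ha : 0 < a) (hR : r * Real.exp a < R) {z : ℂ}
    (hz : ‖z‖ ≤ R) (n : ℕ) :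
    ‖(pb37_K r n z - ((r : ℂ) * conj z / (R : ℂ) ^ 2) ^ n) -
      (if ‖z‖ ≤ r * Real.exp a ∧ r * Real.exp (-a) < ‖z‖ then pb37_K r n z else 0)‖ ≤
      2 * Real.exp (-(n * a)) := by
  have hea : 1 < Real.exp a := Real.one_lt_exp_iff.2 ha
  have hrR : r < R := by nlinarith
  have hR0 : 0 < R := hr.trans hrR
  have hx : Real.exp (-(n * a)) = (Real.exp (-a)) ^ n := by
    rw [← Real.exp_nat_mul]
    congr 1
    ring
  have hna : Real.exp (-a) = (Real.exp a)⁻¹ := Real.exp_neg a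
  have hE : 0 < Real.exp (-a) := Real.exp_pos _
  have hEE : Real.exp (-a) * Real.exp a = 1 := by rw [← Real.exp_add]; simp
  have h1 : ‖((r : ℂ) * conj z / (R : ℂ) ^ 2) ^ n‖ ≤ Real.exp (-(n * a)) := by
    rw [hx, norm_pow]
    apply pow_le_pow_left₀ (norm_nonneg _)
    rw [norm_div, norm_mul, norm_pow, RCLike.norm_conj, Complex.norm_real, Complex.norm_real,
      Real.norm_of_nonneg hr.le, Real.norm_of_nonneg hR0.le, div_le_iff₀ (by positivity)]
    have h2 : r < Real.exp (-a) * R := by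
      calc r = Real.exp (-a) * (r * Real.exp a) := by
            rw [mul_comm r, ← mul_assoc, hEE, one_mul]
        _ < _ := mul_lt_mul_of_pos_left hR hE
    calc r * ‖z‖ ≤ (Real.exp (-a) * R) * R := mul_le_mul h2.le hz (norm_nonneg _) (by positivity)
      _ = Real.exp (-a) * R ^ 2 := by ring
  split_ifs with h
  · rw [sub_sub_cancel_left, norm_neg]
    have := Real.exp_pos (-(n * a))
    linarith
  · rw [sub_zero]
    have h2 : ‖pb37_K r n z‖ ≤ Real.exp (-(n * a)) := by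
      rw [pb37_norm hr, hx]
      apply pow_le_pow_left₀ (by split_ifs <;> positivity)
      split_ifs with h3
      · rw [div_le_iff₀ hr]
        by_contra h4
        rw [not_le] at h4
        exact h ⟨by nlinarith, by linarith⟩
      · rw [not_lt] at h3
        have h5 : 0 < ‖z‖ := by linarith
        rw [div_le_iff₀ h5]
        by_contra h4
        rw [not_le] at h4
        apply h
        constructor
        · have h6 : Real.exp (-a) * ‖z‖ * Real.exp a < r * Real.exp a :=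
            mul_lt_mul_of_pos_right h4 (Real.exp_pos a)
          have h7 : Real.exp (-a) * ‖z‖ * Real.exp a = ‖z‖ := by
            rw [mul_right_comm, hEE, one_mul]
          linarith
        · have h8 : Real.exp (-a) < 1 := Real.exp_lt_one_iff.2 (by linarith)
          nlinarith
    calc _ ≤ ‖pb37_K r n z‖ + ‖((r : ℂ) * conj z / (R : ℂ) ^ 2) ^ n‖ := norm_sub_le _ _
      _ ≤ _ := by linarith

theorem pb37_sc {w : ℂ → ℝ} {E : Set ℝ} (hw : LF w) (hE : ∀ a : ℂ, w a ≠ 0 → ‖a‖ ∈ E)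
    {p n : ℕ} (hp : 2 ≤ p) (hn : p ≤ n) {r R a : ℝ} (hr : 0 < r) (hrE : r ∉ E)
    (hR : r * Real.exp a < R) :
    sc p w r a n = -(1 / (2 * (n : ℂ))) * ∑ z ∈ zs w R, (w z : ℂ) *
      (if ‖z‖ ≤ r * Real.exp a ∧ r * Real.exp (-a) < ‖z‖ then pb37_K r n z else 0) := by
  unfold sc
  rw [Finset.mul_sum]
  have h1 : ∀ z ∈ zs w R, -(1 / (2 * (n : ℂ))) * ((w z : ℂ) *
      (if ‖z‖ ≤ r * Real.exp a ∧ r * Real.exp (-a) < ‖z‖ then pb37_K r n z else 0)) =
      if ‖z‖ ≤ r * Real.exp a ∧ r * Real.exp (-a) < ‖z‖ then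
        (w z : ℂ) * (-(1 / (2 * (n : ℂ))) * pb37_K r n z) else 0 := by
    intro z _
    split_ifs
    · ring
    · simp
  rw [Finset.sum_congr rfl h1, ← Finset.sum_filter]
  have h2 : (zs w (r * Real.exp a)).filter (fun z => r * Real.exp (-a) < ‖z‖) =
      (zs w R).filter (fun z => ‖z‖ ≤ r * Real.exp a ∧ r * Real.exp (-a) < ‖z‖) := by
    ext z
    rw [Finset.mem_filter, Finset.mem_filter, pf13_mem_zs hw, pf13_mem_zs hw]
    constructor
    · rintro ⟨⟨h3, h4⟩, h5⟩
      exact ⟨⟨by linarith, h4⟩, h3, h5⟩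
    · rintro ⟨⟨_, h4⟩, h3, h5⟩
      exact ⟨⟨h3, h4⟩, h5⟩
  rw [h2]
  apply Finset.sum_congr rfl
  intro z hz
  rw [Finset.mem_filter, pf13_mem_zs hw] at hz
  have h3 : 0 < ‖z‖ := lt_trans (by positivity) hz.2.2
  have h4 : ‖z‖ ≠ r := fun h5 => hrE (h5 ▸ hE z hz.1.2)
  rw [pb37_kap hp hn hr h3 h4]

theorem co_hi {u w : ℂ → ℝ} {E : Set ℝ} {N T : ℝ → ℝ} {C : ℝ} (h : Core u w E N T C)
    {p : ℕ} (hp : 2 ≤ p) {κ η r0 s2 : ℝ} (hκ : 0 < κ) (hη : 0 < η) (hr0 : 1 ≤ r0)
    (hN : ∀ r, r0 ≤ r → N r ≤ κ * T r) (h1 : 1 ≤ s2) (hs : s2 < p) :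
    ∃ C1 : ℝ, 0 ≤ C1 ∧ ∀ r a : ℝ, 0 < a → r0 ≤ r → r ∉ E → 0 < T r →
      (∀ t, r ≤ t → t ≤ Real.exp (a + 3) * r → T t ≤ (1 + η) * T r * (t / r) ^ s2) →
      ∀ n : ℕ, p ≤ n →
        ‖fc u r n - sc p w r a n‖ ≤ C1 * (T r + 1) * Real.exp (-((n - s2) * a)) := by
  have hC := h.hC
  have hs2 : 0 < s2 := by linarith
  set D : ℝ := Real.exp s2 with hD
  have hD0 : 0 < D := Real.exp_pos _
  refine ⟨4 * (1 + η) * D + C + Real.exp 1 * s2 * (κ * (1 + η)) * D, by positivity, ?_⟩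
  intro r a ha hr hrE hTr hT n hn
  have hrpos : 0 < r := by linarith
  have hn1 : 1 ≤ n := by omega
  have hnpos : (0 : ℝ) < n := by exact_mod_cast hn1
  have hea : 1 < Real.exp a := Real.one_lt_exp_iff.2 ha
  have he1 : 1 < Real.exp 1 := Real.one_lt_exp_iff.2 (by norm_num)
  have h3a : Real.exp (a + 3) = Real.exp 3 * Real.exp a := by rw [add_comm, Real.exp_add]
  have hT' : ∀ t, r ≤ t → t ≤ Real.exp 3 * Real.exp a * r →
      T t ≤ (1 + η) * T r * (t / r) ^ s2 := by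
    intro t ht1 ht2
    exact hT t ht1 (by rw [h3a]; exact ht2)
  have hea0 : 0 < Real.exp a := Real.exp_pos a
  obtain ⟨R, hR1, hR2, hRE⟩ := exists_reg h.dat.cE (x := r * Real.exp a)
    (y := Real.exp 1 * Real.exp a * r) (by
      have : 0 < r * Real.exp a := by positivity
      nlinarith)
  have hrR : r < R := by nlinarith
  have hRpos : 0 < R := by linarith
  have hcnt : cnt w R ≤ Real.exp 1 * s2 * (κ * (1 + η) * T r) * (R / r) ^ s2 :=
    pf13_cnt h hκ hr0 hN h1 hea.le hr hT' hrR.le hR2.le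
  have hRr : (R / r) ^ s2 ≤ D * Real.exp (s2 * a) := by
    have h2 : R / r ≤ Real.exp (a + 1) := by
      rw [div_le_iff₀ hrpos, Real.exp_add]
      linarith
    calc (R / r) ^ s2 ≤ (Real.exp (a + 1)) ^ s2 :=
          Real.rpow_le_rpow (by positivity) h2 hs2.le
      _ = D * Real.exp (s2 * a) := by
          rw [← Real.exp_mul, hD, ← Real.exp_add]
          congr 1
          ring
  set X : ℝ := Real.exp (-((n - s2) * a)) with hX
  have hX0 : 0 < X := Real.exp_pos _
  have hXe : Real.exp (-(n * a)) * Real.exp (s2 * a) = X := by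
    rw [hX, ← Real.exp_add]
    congr 1
    ring
  have hXn : Real.exp (-(n * a)) ≤ X := by
    rw [hX]
    apply Real.exp_le_exp.2
    have : 0 < s2 * a := by positivity
    nlinarith
  have hrn : (r / R) ^ n ≤ Real.exp (-(n * a)) := by
    have hx : Real.exp (-(n * a)) = (Real.exp (-a)) ^ n := by
      rw [← Real.exp_nat_mul]
      congr 1
      ring
    rw [hx]
    apply pow_le_pow_left₀ (by positivity)
    rw [Real.exp_neg, div_le_iff₀ hRpos, inv_mul_eq_div, le_div_iff₀ hea0]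
    linarith
  -- the first term
  have hT1 : (r / R) ^ n * UU u R ≤ (4 * (1 + η) * D * T r + C) * X := by
    have h2 := h.hU R (by linarith)
    have h3 := hT' R hrR.le (by
      have h4 : Real.exp 1 ≤ Real.exp 3 := Real.exp_le_exp.2 (by norm_num)
      have h5 : Real.exp 1 * (Real.exp a * r) ≤ Real.exp 3 * (Real.exp a * r) :=
        mul_le_mul_of_nonneg_right h4 (by positivity)
      linarith)
    have h6 : (1 + η) * T r * (R / r) ^ s2 ≤ (1 + η) * T r * (D * Real.exp (s2 * a)) :=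
      mul_le_mul_of_nonneg_left hRr (by positivity)
    have h7 : UU u R ≤ 4 * ((1 + η) * T r * (D * Real.exp (s2 * a))) + C := by linarith
    have h8 : 0 ≤ 4 * ((1 + η) * T r * (D * Real.exp (s2 * a))) + C := by positivity
    calc (r / R) ^ n * UU u R ≤ (r / R) ^ n * (4 * ((1 + η) * T r * (D * Real.exp (s2 * a))) + C) :=
          mul_le_mul_of_nonneg_left h7 (by positivity)
      _ ≤ Real.exp (-(n * a)) * (4 * ((1 + η) * T r * (D * Real.exp (s2 * a))) + C) :=
          mul_le_mul_of_nonneg_right hrn h8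
      _ = 4 * (1 + η) * D * T r * (Real.exp (-(n * a)) * Real.exp (s2 * a)) +
          C * Real.exp (-(n * a)) := by ring
      _ ≤ 4 * (1 + η) * D * T r * X + C * X := by
          rw [hXe]
          have := mul_le_mul_of_nonneg_left hXn hC
          linarith
      _ = _ := by ring
  -- the sum
  have ht := h.dat.two r R hrpos hrR hrE hRE n hn1
  have hsc := pb37_sc h.dat.lf h.dat.wE hp hn (a := a) hrpos hrE hR1
  have e1 : fc u r n - sc p w r a n = ((r / R : ℝ) : ℂ) ^ n * fc u R n +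
      -(1 / (2 * (n : ℂ))) * ∑ z ∈ zs w R, (w z : ℂ) *
        ((pb37_K r n z - ((r : ℂ) * conj z / (R : ℂ) ^ 2) ^ n) -
          (if ‖z‖ ≤ r * Real.exp a ∧ r * Real.exp (-a) < ‖z‖ then pb37_K r n z else 0)) := by
    have e2 : fc u r n = ((r / R : ℝ) : ℂ) ^ n * fc u R n + -(1 / (2 * (n : ℂ))) *
        ∑ z ∈ zs w R, (w z : ℂ) * (pb37_K r n z - ((r : ℂ) * conj z / (R : ℂ) ^ 2) ^ n) := by
      unfold pb37_K
      rw [← ht]
      ring
    rw [e2, hsc, add_sub_assoc, ← mul_sub, ← Finset.sum_sub_distrib]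
    congr 2
    apply Finset.sum_congr rfl
    intro z _
    ring
  have hk : ‖-(1 / (2 * (n : ℂ)))‖ = 1 / (2 * (n : ℝ)) := by
    rw [norm_neg, norm_div, norm_mul]
    simp
  have hsum : ‖∑ z ∈ zs w R, (w z : ℂ) *
        ((pb37_K r n z - ((r : ℂ) * conj z / (R : ℂ) ^ 2) ^ n) -
          (if ‖z‖ ≤ r * Real.exp a ∧ r * Real.exp (-a) < ‖z‖ then pb37_K r n z else 0))‖ ≤
      cnt w R * (2 * Real.exp (-(n * a))) := by
    refine (norm_sum_le _ _).trans ?_
    unfold cnt
    rw [Finset.sum_mul]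
    apply Finset.sum_le_sum
    intro z hz
    rw [pf13_mem_zs h.dat.lf] at hz
    rw [norm_mul, Complex.norm_real, Real.norm_eq_abs]
    exact mul_le_mul_of_nonneg_left (pb37_term hrpos ha hR1 hz.1 n) (abs_nonneg _)
  have hfin : ‖fc u r n - sc p w r a n‖ ≤ (r / R) ^ n * UU u R +
      cnt w R * Real.exp (-(n * a)) := by
    rw [e1]
    refine (norm_add_le _ _).trans ?_
    rw [norm_mul, norm_mul, hk, norm_pow, Complex.norm_real, Real.norm_of_nonneg (by positivity)]
    have h2 := norm_fc_le hRpos (h.dat.int R) n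
    have h3 : (r / R) ^ n * ‖fc u R n‖ ≤ (r / R) ^ n * UU u R :=
      mul_le_mul_of_nonneg_left h2 (by positivity)
    have h4 : 1 / (2 * (n : ℝ)) * ‖∑ z ∈ zs w R, (w z : ℂ) *
        ((pb37_K r n z - ((r : ℂ) * conj z / (R : ℂ) ^ 2) ^ n) -
          (if ‖z‖ ≤ r * Real.exp a ∧ r * Real.exp (-a) < ‖z‖ then pb37_K r n z else 0))‖ ≤
        1 / 2 * (cnt w R * (2 * Real.exp (-(n * a)))) := by
      apply mul_le_mul _ hsum (norm_nonneg _) (by norm_num)
      apply one_div_le_one_div_of_le (by norm_num)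
      have : (1 : ℝ) ≤ n := by exact_mod_cast hn1
      linarith
    linarith
  have hcX : cnt w R * Real.exp (-(n * a)) ≤ Real.exp 1 * s2 * (κ * (1 + η)) * D * T r * X := by
    calc cnt w R * Real.exp (-(n * a))
        ≤ (Real.exp 1 * s2 * (κ * (1 + η) * T r) * (R / r) ^ s2) * Real.exp (-(n * a)) :=
          mul_le_mul_of_nonneg_right hcnt (Real.exp_pos _).le
      _ ≤ (Real.exp 1 * s2 * (κ * (1 + η) * T r) * (D * Real.exp (s2 * a))) *
          Real.exp (-(n * a)) := by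
          apply mul_le_mul_of_nonneg_right _ (Real.exp_pos _).le
          exact mul_le_mul_of_nonneg_left hRr (by positivity)
      _ = Real.exp 1 * s2 * (κ * (1 + η)) * D * T r *
          (Real.exp (-(n * a)) * Real.exp (s2 * a)) := by ring
      _ = _ := by rw [hXe]
  have hG : 0 ≤ Real.exp 1 * s2 * (κ * (1 + η)) * D := by positivity
  calc ‖fc u r n - sc p w r a n‖ ≤ (4 * (1 + η) * D * T r + C) * X +
        Real.exp 1 * s2 * (κ * (1 + η)) * D * T r * X := by linarith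
    _ = (4 * (1 + η) * D * T r + C + Real.exp 1 * s2 * (κ * (1 + η)) * D * T r) * X := by ring
    _ ≤ (4 * (1 + η) * D + C + Real.exp 1 * s2 * (κ * (1 + η)) * D) * (T r + 1) * X := by
        apply mul_le_mul_of_nonneg_right _ hX0.le
        have h2 : 0 ≤ 4 * (1 + η) * D := by positivity
        have h3 : 0 ≤ C * T r := by positivity
        nlinarith
    _ = _ := rfl

end Pool.Agent.PfB
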