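import Pool.Agent.PfB.Bld
import Pool.Agent.PfA.CoefHigh
import Pool.Agent.PfB.Mean

/-! MP_f2c8f8_an, project PfB, row PB-38 -/

set_option autoImplicit false

open MeasureTheory Filter
open scoped ComplexConjugate Topology

noncomputable section

namespace Pool.Agent.PfB

open Pool.Agent.PfA

/-- the points between the circles of radii `ρ` and `r` -/
theorem pb38_filter {w : ℂ → ℝ} (hw : LF w) {r ρ : ℝ} (hρ : ρ ≤ r) :
    (zs w r).filter (fun z => ¬ ρ < ‖z‖) = zs w ρ := by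
  ext z
  rw [Finset.mem_filter, mem_zs hw, mem_zs hw, not_lt]
  constructor
  · rintro ⟨⟨_, h⟩, h'⟩
    exact ⟨h', h⟩
  · rintro ⟨h, h'⟩
    exact ⟨⟨h.trans hρ, h'⟩, h⟩

/-- a sum over a larger disc of terms which vanish outside the disc of radius `r` -/
theorem pb38_cut {β : Type*} [AddCommMonoid β] {w : ℂ → ℝ} (hw : LF w) {r R ρ : ℝ} (hR : r ≤ R)
    (F : ℂ → β) (hF : ∀ z, r < ‖z‖ → F z = 0) :
    ∑ z ∈ zs w R with ρ < ‖z‖, F z = ∑ z ∈ zs w r with ρ < ‖z‖, F z := by
  symm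
  apply Finset.sum_subset
  · intro z hz
    rw [Finset.mem_filter, mem_zs hw] at hz ⊢
    exact ⟨⟨hz.1.1.trans hR, hz.1.2⟩, hz.2⟩
  · intro z hz hn
    rw [Finset.mem_filter, mem_zs hw] at hz hn
    apply hF
    by_contra hle
    exact hn ⟨⟨not_lt.1 hle, hz.1.2⟩, hz.2⟩

/-- the integrated counting function for the radius `r`, only the inner points -/
theorem pb38_inner {w : ℂ → ℝ} (hw : LF w) {r ρ a : ℝ} (hρ0 : 1 ≤ ρ)
    (hr : r = ρ * Real.exp a) :
    ∑ z ∈ zs w ρ, |w z| * Real.log (r * ‖z‖⁻¹) + |w 0| * Real.log r ≤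
      NI w ρ + a * cnt w ρ := by
  have hρ : 0 < ρ := by linarith
  have hlr : Real.log r = a + Real.log ρ := by
    rw [hr, Real.log_mul hρ.ne' (Real.exp_pos a).ne', Real.log_exp]
    ring
  have h1 : ∀ z ∈ zs w ρ, |w z| * Real.log (r * ‖z‖⁻¹) =
      |w z| * Real.log (ρ * ‖z‖⁻¹) + (a * |w z| - (if z = 0 then a * |w 0| else 0)) := by
    intro z _
    by_cases hz : z = 0
    · subst hz
      simp
    · rw [if_neg hz]
      have hz' : 0 < ‖z‖ := norm_pos_iff.2 hz
      have h2 : Real.log (r * ‖z‖⁻¹) = a + Real.log (ρ * ‖z‖⁻¹) := by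
        have : r * ‖z‖⁻¹ = (ρ * ‖z‖⁻¹) * Real.exp a := by rw [hr]; ring
        rw [this, Real.log_mul (by positivity) (Real.exp_pos a).ne', Real.log_exp]
        ring
      rw [h2]
      ring
  rw [Finset.sum_congr rfl h1, Finset.sum_add_distrib, Finset.sum_sub_distrib, ← Finset.mul_sum,
    hlr]
  unfold NI cnt
  have h3 : ∑ z ∈ zs w ρ, (if z = 0 then a * |w 0| else 0) = a * |w 0| := by
    rw [Finset.sum_ite_eq']
    split_ifs with h0
    · rfl
    · have : w 0 = 0 := by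
        by_contra hne
        exact h0 ((mem_zs hw).2 ⟨by simpa using hρ.le, hne⟩)
      rw [this]
      simp
  rw [h3]
  nlinarith

/-- comparison of the two sums for a weight `x` bounded by `|w|` -/
theorem pb38_cmp {w x : ℂ → ℝ} (hw : LF w) (hx : ∀ z, |x z| ≤ |w z|) {r a : ℝ}
    (ha : 0 ≤ a) (h1 : 1 ≤ r * Real.exp (-a)) :
    |(∑ z ∈ zs w r, x z * Real.log (r * ‖z‖⁻¹) + x 0 * Real.log r) -
      ∑ z ∈ zs w (r * Real.exp a) with r * Real.exp (-a) < ‖z‖,
        x z * max 0 (Real.log (r / ‖z‖))| ≤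
      NI w (r * Real.exp (-a)) + a * cnt w (r * Real.exp (-a)) := by
  have hr : 0 < r := by
    by_contra hneg
    have h2 : r * Real.exp (-a) ≤ 0 := mul_nonpos_of_nonpos_of_nonneg (not_lt.1 hneg)
      (Real.exp_pos _).le
    linarith
  have he : Real.exp (-a) ≤ 1 := by
    rw [← Real.exp_zero]
    exact Real.exp_le_exp.2 (by linarith)
  have he' : 1 ≤ Real.exp a := Real.one_le_exp ha
  have hρr : r * Real.exp (-a) ≤ r := by nlinarith
  have hrR : r ≤ r * Real.exp a := by nlinarith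
  have hr1 : 1 ≤ r := h1.trans hρr
  have h2 : ∑ z ∈ zs w (r * Real.exp a) with r * Real.exp (-a) < ‖z‖,
        x z * max 0 (Real.log (r / ‖z‖)) =
      ∑ z ∈ zs w r with r * Real.exp (-a) < ‖z‖, x z * Real.log (r * ‖z‖⁻¹) := by
    rw [pb38_cut hw hrR]
    · apply Finset.sum_congr rfl
      intro z hz
      rw [Finset.mem_filter, mem_zs hw] at hz
      rw [← div_eq_mul_inv, max_eq_right]
      have := pf11_log_nonneg (norm_nonneg z) hz.1.1
      rwa [← div_eq_mul_inv] at this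
    · intro z hz
      have : Real.log (r / ‖z‖) ≤ 0 := by
        apply Real.log_nonpos
        · positivity
        · rw [div_le_one (hr.trans hz)]
          exact hz.le
      rw [max_eq_left this, mul_zero]
  rw [h2]
  have h3 : ∑ z ∈ zs w r, x z * Real.log (r * ‖z‖⁻¹) =
      ∑ z ∈ zs w r with r * Real.exp (-a) < ‖z‖, x z * Real.log (r * ‖z‖⁻¹) +
        ∑ z ∈ zs w (r * Real.exp (-a)), x z * Real.log (r * ‖z‖⁻¹) := by
    rw [← pb38_filter hw hρr]
    exact (Finset.sum_filter_add_sum_filter_not _ _ _).symm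
  rw [h3]
  have h4 : ∀ A B D : ℝ, A + B + D - A = B + D := fun A B D => by ring
  rw [h4]
  refine le_trans ?_ (pb38_inner hw h1 (r := r) (a := a) ?_)
  · refine (abs_add_le _ _).trans (add_le_add ?_ ?_)
    · refine (Finset.abs_sum_le_sum_abs _ _).trans (Finset.sum_le_sum fun z hz => ?_)
      rw [mem_zs hw] at hz
      have h5 := pf11_log_nonneg (norm_nonneg z) (hz.1.trans hρr)
      rw [abs_mul, abs_of_nonneg h5]
      exact mul_le_mul_of_nonneg_right (hx z) h5
    · rw [abs_mul, abs_of_nonneg (Real.log_nonneg hr1)]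
      exact mul_le_mul_of_nonneg_right (hx 0) (Real.log_nonneg hr1)
  · rw [mul_assoc, ← Real.exp_add, neg_add_cancel, Real.exp_zero, mul_one]

/-- the coefficients of a single point between the circles -/
theorem pb38_term {q n : ℕ} (hn : 1 ≤ n) (hq : n ≤ q) {r : ℝ} (hr : 0 < r) {z : ℂ}
    (hz : 0 < ‖z‖) (hzr : ‖z‖ ≤ r) :
    (((kap q n (r / ‖z‖) : ℝ) : ℂ) *
      Complex.exp (-((n : ℂ) * (Complex.arg z : ℂ) * Complex.I))) =
      1 / (2 * (n : ℂ)) * (((r : ℂ) / z) ^ n - (conj z / (r : ℂ)) ^ n) := by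
  have hz0 : z ≠ 0 := norm_pos_iff.1 hz
  have hy : ¬ r / ‖z‖ < 1 := by
    rw [not_lt, one_le_div hz]
    exact hzr
  have hexp : Complex.exp (-((n : ℂ) * (Complex.arg z : ℂ) * Complex.I)) =
      (Complex.exp (-((Complex.arg z : ℂ) * Complex.I))) ^ n := by
    rw [← Complex.exp_nat_mul]
    congr 1
    ring
  have hnz : ((‖z‖ : ℝ) : ℂ) ≠ 0 := by
    exact_mod_cast hz.ne'
  have hrz : (r : ℂ) ≠ 0 := by exact_mod_cast hr.ne'
  have hpol : z = ((‖z‖ : ℝ) : ℂ) * Complex.exp ((Complex.arg z : ℂ) * Complex.I) :=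
    (Complex.norm_mul_exp_arg_mul_I z).symm
  have h1 : (r : ℂ) / z = ((r / ‖z‖ : ℝ) : ℂ) * Complex.exp (-((Complex.arg z : ℂ) * Complex.I)) := by
    rw [Complex.exp_neg]
    nth_rewrite 1 [hpol]
    push_cast
    have := Complex.exp_ne_zero ((Complex.arg z : ℂ) * Complex.I)
    field_simp
  have h2 : conj z = ((‖z‖ : ℝ) : ℂ) * Complex.exp (-((Complex.arg z : ℂ) * Complex.I)) := by
    nth_rewrite 1 [hpol]
    rw [map_mul, Complex.conj_ofReal, ← Complex.exp_conj, map_mul, Complex.conj_ofReal,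
      Complex.conj_I]
    congr 2
    ring
  have h3 : conj z / (r : ℂ) =
      (((r / ‖z‖)⁻¹ : ℝ) : ℂ) * Complex.exp (-((Complex.arg z : ℂ) * Complex.I)) := by
    rw [h2]
    push_cast
    field_simp
  rw [h1, h3, hexp, mul_pow, mul_pow]
  unfold kap
  rw [if_neg (by omega), if_pos hq, if_neg hy]
  push_cast
  ring

theorem pb38_sc {w : ℂ → ℝ} (hw : LF w) {p n : ℕ} (hn : 1 ≤ n) (hnp : n < p) {r a : ℝ}
    (hr : 0 < r) (ha : 0 ≤ a) :
    sc p w r a n = ∑ z ∈ zs w r with r * Real.exp (-a) < ‖z‖,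
      (w z : ℂ) * (1 / (2 * (n : ℂ)) * (((r : ℂ) / z) ^ n - (conj z / (r : ℂ)) ^ n)) := by
  have he' : 1 ≤ Real.exp a := Real.one_le_exp ha
  have hrR : r ≤ r * Real.exp a := by nlinarith
  unfold sc
  rw [pb38_cut hw hrR]
  · apply Finset.sum_congr rfl
    intro z hz
    rw [Finset.mem_filter, mem_zs hw] at hz
    have hz0 : 0 < ‖z‖ := lt_of_le_of_lt (by positivity) hz.2
    rw [pb38_term hn (by omega) hr hz0 hz.1.1]
  · intro z hz
    have hz0 : 0 < ‖z‖ := hr.trans hz
    have hy : r / ‖z‖ < 1 := by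
      rw [div_lt_one hz0]
      exact hz
    have : kap (p - 1) n (r / ‖z‖) = 0 := by
      unfold kap
      rw [if_neg (by omega), if_pos (by omega), if_pos hy, sub_self, mul_zero]
    rw [this]
    simp

/-- the two radii formula, solved for the larger circle -/
theorem pb38_coef {u w : ℂ → ℝ} {E : Set ℝ} (h : Dat u w E) {p n : ℕ} (hn : 1 ≤ n) (hnp : n < p)
    {r r' a : ℝ} (hr' : 0 < r') (ha : 0 ≤ a) (hrr : r' < r * Real.exp (-a)) (h1 : r' ∉ E)
    (h2 : r ∉ E) :
    ‖fc u r n - sc p w r a n‖ ≤ (r / r') ^ n * (UU u r' + cnt w (r * Real.exp (-a))) := by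
  have hr : 0 < r := by
    by_contra hneg
    have : r * Real.exp (-a) ≤ 0 := mul_nonpos_of_nonpos_of_nonneg (not_lt.1 hneg)
      (Real.exp_pos _).le
    linarith
  have he : Real.exp (-a) ≤ 1 := by
    rw [← Real.exp_zero]
    exact Real.exp_le_exp.2 (by linarith)
  have hρr : r * Real.exp (-a) ≤ r := by nlinarith
  have hr'r : r' < r := lt_of_lt_of_le hrr hρr
  have hn0 : (n : ℂ) ≠ 0 := by
    have : n ≠ 0 := by omega
    exact_mod_cast this
  have hrz : (r : ℂ) ≠ 0 := by exact_mod_cast hr.ne'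
  have hrz' : (r' : ℂ) ≠ 0 := by exact_mod_cast hr'.ne'
  have ht := h.two r' r hr' hr'r h1 h2 n hn
  set K : ℂ → ℂ := fun z => (w z : ℂ) * ((if ‖z‖ < r' then conj z / (r' : ℂ)
    else (r' : ℂ) / z) ^ n - ((r' : ℂ) * conj z / (r : ℂ) ^ 2) ^ n) with hK
  have h3 : ∑ z ∈ zs w r, K z = ∑ z ∈ zs w r with r * Real.exp (-a) < ‖z‖, K z +
      ∑ z ∈ zs w (r * Real.exp (-a)), K z := by
    rw [← pb38_filter h.lf hρr]
    exact (Finset.sum_filter_add_sum_filter_not _ _ _).symm
  have h4 : sc p w r a n = ((r / r' : ℝ) : ℂ) ^ n * (1 / (2 * (n : ℂ)) *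
      ∑ z ∈ zs w r with r * Real.exp (-a) < ‖z‖, K z) := by
    rw [pb38_sc h.lf hn hnp hr ha, Finset.mul_sum, Finset.mul_sum]
    apply Finset.sum_congr rfl
    intro z hz
    rw [Finset.mem_filter] at hz
    have hz0 : 0 < ‖z‖ := lt_of_le_of_lt (by positivity) hz.2
    have hzn : z ≠ 0 := norm_pos_iff.1 hz0
    have hz1 : ¬ ‖z‖ < r' := not_lt.2 (hrr.trans hz.2).le
    rw [hK]
    simp only
    rw [if_neg hz1]
    have e1 : ((r : ℂ) / z) ^ n = ((r / r' : ℝ) : ℂ) ^ n * ((r' : ℂ) / z) ^ n := by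
      rw [← mul_pow]
      congr 1
      push_cast
      field_simp
    have e2 : (conj z / (r : ℂ)) ^ n =
        ((r / r' : ℝ) : ℂ) ^ n * ((r' : ℂ) * conj z / (r : ℂ) ^ 2) ^ n := by
      rw [← mul_pow]
      congr 1
      push_cast
      field_simp
    rw [e1, e2]
    ring
  have hq : ((r / r' : ℝ) : ℂ) ^ n * ((r' / r : ℝ) : ℂ) ^ n = 1 := by
    rw [← mul_pow, ← Complex.ofReal_mul]
    have : r / r' * (r' / r) = 1 := by field_simp
    rw [this, Complex.ofReal_one, one_pow]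
  have h5 : fc u r n - sc p w r a n = ((r / r' : ℝ) : ℂ) ^ n * (fc u r' n +
      1 / (2 * (n : ℂ)) * ∑ z ∈ zs w (r * Real.exp (-a)), K z) := by
    have e1 : fc u r n = ((r / r' : ℝ) : ℂ) ^ n * (((r' / r : ℝ) : ℂ) ^ n * fc u r n) := by
      rw [← mul_assoc, hq, one_mul]
    have e2 : ((r' / r : ℝ) : ℂ) ^ n * fc u r n = fc u r' n + 1 / (2 * (n : ℂ)) *
        ∑ z ∈ zs w r, K z := by
      linear_combination -ht
    rw [e1, e2, h3, h4]
    ring
  have h6 : ‖∑ z ∈ zs w (r * Real.exp (-a)), K z‖ ≤ cnt w (r * Real.exp (-a)) := by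
    refine (norm_sum_le _ _).trans ?_
    unfold cnt
    apply Finset.sum_le_sum
    intro z hz
    rw [mem_zs h.lf] at hz
    rw [hK]
    simp only
    rw [norm_mul, Complex.norm_real, Real.norm_eq_abs]
    apply mul_le_of_le_one_right (abs_nonneg _)
    by_cases hz1 : ‖z‖ < r'
    · rw [if_pos hz1]
      exact pf11_ker1 hr' hr'r hz1 n
    · rw [if_neg hz1]
      have hne : ‖z‖ ≠ r' := fun heq => h1 (heq ▸ h.wE z hz.2)
      have hlt : r' < ‖z‖ := lt_of_le_of_ne (not_lt.1 hz1) (Ne.symm hne)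
      rw [pf11_ker2 hr' hlt (hz.1.trans hρr) n]
      have hz0 : 0 < ‖z‖ := hr'.trans hlt
      have e1 : (r' / ‖z‖) ^ n ≤ 1 := pow_le_one₀ (by positivity) (by
        rw [div_le_one hz0]; exact hlt.le)
      have e2 : 0 ≤ (r' * ‖z‖ / r ^ 2) ^ n := by positivity
      linarith
  have h7 : ‖(1 : ℂ) / (2 * (n : ℂ))‖ ≤ 1 := by
    rw [norm_div, norm_one, norm_mul, Complex.norm_natCast, div_le_one]
    · have : (1 : ℝ) ≤ n := by exact_mod_cast hn
      have e2 : ‖(2 : ℂ)‖ = 2 := by simp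
      rw [e2]
      linarith
    · have : (1 : ℝ) ≤ n := by exact_mod_cast hn
      have e2 : ‖(2 : ℂ)‖ = 2 := by simp
      rw [e2]
      linarith
  rw [h5, norm_mul, norm_pow, Complex.norm_real, Real.norm_of_nonneg (by positivity)]
  apply mul_le_mul_of_nonneg_left _ (by positivity)
  refine (norm_add_le _ _).trans (add_le_add (norm_fc_le hr' (h.int r') n) ?_)
  rw [norm_mul]
  have h8 : 0 ≤ cnt w (r * Real.exp (-a)) := Finset.sum_nonneg fun _ _ => abs_nonneg _
  calc ‖(1 : ℂ) / (2 * (n : ℂ))‖ * ‖∑ z ∈ zs w (r * Real.exp (-a)), K z‖ ≤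
      1 * cnt w (r * Real.exp (-a)) := mul_le_mul h7 h6 (norm_nonneg _) zero_le_one
    _ = _ := one_mul _

theorem co_lo {u w : ℂ → ℝ} {E : Set ℝ} {N T : ℝ → ℝ} {C : ℝ} (h : Core u w E N T C)
    {p : ℕ} (hp : 2 ≤ p) {κ η r0 s1 : ℝ} (hκ : 0 < κ) (hη : 0 < η) (hr0 : 1 ≤ r0)
    (hN : ∀ r, r0 ≤ r → N r ≤ κ * T r) (h1 : 0 < s1) :
    ∃ C1 : ℝ, 0 ≤ C1 ∧ ∀ r a : ℝ, 1 ≤ a → r0 * Real.exp (a + 1) ≤ r → r ∉ E → 0 < T r →
      (∀ t, 1 ≤ t → t ≤ r → T t ≤ (1 + η) * T r * (t / r) ^ s1) →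
      (∀ n : ℕ, 1 ≤ n → n < p → ‖fc u r n - sc p w r a n‖ ≤
        C1 * (T r * Real.exp (-((s1 - n) * a)) + Real.exp (n * (a + 1)))) ∧
      (∀ M : ℝ, (∀ r, 1 ≤ r → |Real.circleAverage u 0 r - NS w r| ≤ M) →
        |Real.circleAverage u 0 r - (sc p w r a 0).re| ≤
          M + C1 * (T r * (a + 1) * Real.exp (-(s1 * a)))) ∧
      N r ≤ ∑ z ∈ zs w (r * Real.exp a) with r * Real.exp (-a) < ‖z‖,
        |w z| * max 0 (Real.log (r / ‖z‖)) + C1 * (T r * (a + 1) * Real.exp (-(s1 * a))) := by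
  set A : ℝ := κ * (1 + η) * Real.exp s1 with hA
  have hA0 : 0 < A := by positivity
  have hep : 1 ≤ Real.exp p := Real.one_le_exp (Nat.cast_nonneg p)
  have hes : 1 ≤ Real.exp s1 := Real.one_le_exp h1.le
  refine ⟨Real.exp p * (4 * (1 + η) + A) + C, by have := h.hC; positivity, ?_⟩
  set C1 : ℝ := Real.exp p * (4 * (1 + η) + A) + C with hC1
  have hC1A : A ≤ C1 := by
    have := h.hC
    have e1 : A ≤ Real.exp p * A := le_mul_of_one_le_left hA0.le hep
    have e2 : 0 ≤ Real.exp p * (4 * (1 + η)) := by positivity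
    rw [hC1]
    nlinarith
  intro r a ha hr hrE hTr hT
  have ha0 : 0 ≤ a := by linarith
  have hr00 : 0 < r0 := by linarith
  have hrpos : 0 < r := lt_of_lt_of_le (by positivity) hr
  set ρ : ℝ := r * Real.exp (-a) with hρ
  have hρpos : 0 < ρ := by positivity
  have hρ1 : r0 * Real.exp 1 ≤ ρ := by
    rw [hρ]
    calc r0 * Real.exp 1 = r0 * Real.exp (a + 1) * Real.exp (-a) := by
          rw [mul_assoc, ← Real.exp_add]
          congr 2
          ring
      _ ≤ r * Real.exp (-a) := mul_le_mul_of_nonneg_right hr (Real.exp_pos _).le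
  have he1 : 2 < Real.exp 1 := by
    have := Real.exp_one_gt_d9
    linarith
  have hρr0 : r0 ≤ ρ := by nlinarith
  have hρone : 1 ≤ ρ := hr0.trans hρr0
  have hle1 : Real.exp (-a) ≤ 1 := by
    rw [← Real.exp_zero]
    exact Real.exp_le_exp.2 (by linarith)
  have hρr : ρ ≤ r := by
    rw [hρ]
    nlinarith
  have heρ : Real.exp 1 * ρ ≤ r := by
    rw [hρ]
    have : Real.exp 1 * Real.exp (-a) ≤ 1 := by
      rw [← Real.exp_add]
      exact Real.exp_le_one_iff.2 (by linarith)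
    nlinarith
  have hratio : ρ / r = Real.exp (-a) := by
    rw [hρ]
    field_simp
  -- growth at radius `e ρ`
  have hTe : T (Real.exp 1 * ρ) ≤ (1 + η) * T r * (Real.exp s1 * Real.exp (-(s1 * a))) := by
    have e1 := hT (Real.exp 1 * ρ) (by nlinarith) heρ
    have e2 : (Real.exp 1 * ρ / r) ^ s1 = Real.exp s1 * Real.exp (-(s1 * a)) := by
      rw [mul_div_assoc, hratio, ← Real.exp_add, ← Real.exp_mul, ← Real.exp_add]
      congr 1
      ring
    rwa [e2] at e1
  have hTρ : T ρ ≤ (1 + η) * T r * Real.exp (-(s1 * a)) := by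
    have e1 := hT ρ hρone hρr
    have e2 : (ρ / r) ^ s1 = Real.exp (-(s1 * a)) := by
      rw [hratio, ← Real.exp_mul]
      congr 1
      ring
    rwa [e2] at e1
  have hcnt : cnt w ρ ≤ A * (T r * Real.exp (-(s1 * a))) := by
    have e1 := cnt_le h.dat.lf (t := ρ) (l := 1) hρone one_pos
    rw [one_mul, ← h.hN _ (by nlinarith)] at e1
    have e2 := hN (Real.exp 1 * ρ) (by nlinarith)
    calc cnt w ρ ≤ κ * T (Real.exp 1 * ρ) := e1.trans e2
      _ ≤ κ * ((1 + η) * T r * (Real.exp s1 * Real.exp (-(s1 * a)))) :=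
          mul_le_mul_of_nonneg_left hTe hκ.le
      _ = A * (T r * Real.exp (-(s1 * a))) := by rw [hA]; ring
  have hNIρ : NI w ρ ≤ A * (T r * Real.exp (-(s1 * a))) := by
    rw [← h.hN _ hρone]
    calc N ρ ≤ κ * T ρ := hN ρ hρr0
      _ ≤ κ * ((1 + η) * T r * Real.exp (-(s1 * a))) := mul_le_mul_of_nonneg_left hTρ hκ.le
      _ = κ * (1 + η) * (T r * Real.exp (-(s1 * a))) := by ring
      _ ≤ A * (T r * Real.exp (-(s1 * a))) := by
          apply mul_le_mul_of_nonneg_right _ (by positivity)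
          rw [hA]
          exact le_mul_of_one_le_right (by positivity) hes
  have hrest : NI w ρ + a * cnt w ρ ≤ C1 * (T r * (a + 1) * Real.exp (-(s1 * a))) := by
    have e1 : a * cnt w ρ ≤ a * (A * (T r * Real.exp (-(s1 * a)))) :=
      mul_le_mul_of_nonneg_left hcnt ha0
    have e2 : 0 ≤ T r * (a + 1) * Real.exp (-(s1 * a)) := by positivity
    calc NI w ρ + a * cnt w ρ ≤ A * (T r * Real.exp (-(s1 * a))) +
          a * (A * (T r * Real.exp (-(s1 * a)))) := add_le_add hNIρ e1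
      _ = A * (T r * (a + 1) * Real.exp (-(s1 * a))) := by ring
      _ ≤ _ := mul_le_mul_of_nonneg_right hC1A e2
  refine ⟨?_, ?_, ?_⟩
  · intro n hn hnp
    obtain ⟨r', hr1, hr2, hr3⟩ := exists_reg h.dat.cE
      (show r * Real.exp (-(a + 1)) < ρ by
        rw [hρ]
        exact mul_lt_mul_of_pos_left (Real.exp_lt_exp.2 (by linarith)) hrpos)
    have hr0' : r0 ≤ r * Real.exp (-(a + 1)) := by
      calc r0 = r0 * Real.exp (a + 1) * Real.exp (-(a + 1)) := by
            rw [mul_assoc, ← Real.exp_add, add_neg_cancel, Real.exp_zero, mul_one]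
        _ ≤ _ := mul_le_mul_of_nonneg_right hr (Real.exp_pos _).le
    have hr'1 : 1 ≤ r' := by linarith
    have hr'0 : 0 < r' := by linarith
    have k1 := pb38_coef h.dat hn hnp hr'0 ha0 hr2 hr3 hrE
    refine k1.trans ?_
    have k2 : (r / r') ^ n ≤ Real.exp (n * (a + 1)) := by
      have e1 : r / r' ≤ Real.exp (a + 1) := by
        rw [div_le_iff₀ hr'0]
        have : r = Real.exp (a + 1) * (r * Real.exp (-(a + 1))) := by
          rw [mul_comm r, ← mul_assoc, ← Real.exp_add, add_neg_cancel, Real.exp_zero, one_mul]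
        rw [this]
        exact mul_le_mul_of_nonneg_left hr1.le (Real.exp_pos _).le
      calc (r / r') ^ n ≤ (Real.exp (a + 1)) ^ n := pow_le_pow_left₀ (by positivity) e1 n
        _ = Real.exp (n * (a + 1)) := by rw [← Real.exp_nat_mul]
    have k3 : UU u r' ≤ 4 * ((1 + η) * T r * Real.exp (-(s1 * a))) + C := by
      have e1 := h.hU r' hr'1
      have e2 : T r' ≤ T ρ := h.Tmono (Set.mem_Ici.2 hr'1) (Set.mem_Ici.2 hρone) hr2.le
      linarith
    have k4 : UU u r' + cnt w ρ ≤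
        (4 * (1 + η) + A) * (T r * Real.exp (-(s1 * a))) + C := by
      calc UU u r' + cnt w ρ ≤ 4 * ((1 + η) * T r * Real.exp (-(s1 * a))) + C +
            A * (T r * Real.exp (-(s1 * a))) := add_le_add k3 hcnt
        _ = _ := by ring
    have k5 : 0 ≤ (4 * (1 + η) + A) * (T r * Real.exp (-(s1 * a))) + C := by
      have := h.hC
      positivity
    have k6 : Real.exp (n * (a + 1)) * Real.exp (-(s1 * a)) =
        Real.exp n * Real.exp (-((s1 - n) * a)) := by
      rw [← Real.exp_add, ← Real.exp_add]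
      congr 1
      ring
    have k7 : Real.exp n ≤ Real.exp p := Real.exp_le_exp.2 (by exact_mod_cast hnp.le)
    calc (r / r') ^ n * (UU u r' + cnt w ρ) ≤
        (r / r') ^ n * ((4 * (1 + η) + A) * (T r * Real.exp (-(s1 * a))) + C) :=
          mul_le_mul_of_nonneg_left k4 (by positivity)
      _ ≤ Real.exp (n * (a + 1)) *
          ((4 * (1 + η) + A) * (T r * Real.exp (-(s1 * a))) + C) :=
          mul_le_mul_of_nonneg_right k2 k5
      _ = (4 * (1 + η) + A) * T r * (Real.exp (n * (a + 1)) * Real.exp (-(s1 * a))) +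
          C * Real.exp (n * (a + 1)) := by ring
      _ = (4 * (1 + η) + A) * T r * (Real.exp n * Real.exp (-((s1 - n) * a))) +
          C * Real.exp (n * (a + 1)) := by rw [k6]
      _ ≤ (4 * (1 + η) + A) * T r * (Real.exp p * Real.exp (-((s1 - n) * a))) +
          C * Real.exp (n * (a + 1)) := by
          apply add_le_add _ le_rfl
          apply mul_le_mul_of_nonneg_left _ (by positivity)
          exact mul_le_mul_of_nonneg_right k7 (Real.exp_pos _).le
      _ ≤ C1 * (T r * Real.exp (-((s1 - n) * a)) + Real.exp (n * (a + 1))) := by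
          have := h.hC
          have e1 : 0 ≤ C * (T r * Real.exp (-((s1 - n) * a))) := by positivity
          have e2 : 0 ≤ Real.exp p * (4 * (1 + η) + A) * Real.exp (n * (a + 1)) := by positivity
          rw [hC1]
          nlinarith
  · intro M hM
    have k1 := hM r (hρone.trans hρr)
    have k2 := pb38_cmp h.dat.lf (x := w) (fun z => le_rfl) (r := r) (a := a) ha0
      (by rw [← hρ]; exact hρone)
    have k3 : (sc p w r a 0).re = ∑ z ∈ zs w (r * Real.exp a) with r * Real.exp (-a) < ‖z‖,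
        w z * max 0 (Real.log (r / ‖z‖)) := by
      unfold sc
      rw [Complex.re_sum]
      apply Finset.sum_congr rfl
      intro z _
      have : kap (p - 1) 0 (r / ‖z‖) = max 0 (Real.log (r / ‖z‖)) := by
        unfold kap
        rw [if_pos rfl]
      rw [this]
      simp only [Nat.cast_zero, zero_mul, neg_zero, Complex.exp_zero, mul_one]
      rw [← Complex.ofReal_mul, Complex.ofReal_re]
    rw [k3]
    have k4 : NS w r = ∑ z ∈ zs w r, w z * Real.log (r * ‖z‖⁻¹) + w 0 * Real.log r := rfl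
    rw [k4] at k1
    calc |Real.circleAverage u 0 r - _| ≤ _ := abs_sub_le _
          (∑ z ∈ zs w r, w z * Real.log (r * ‖z‖⁻¹) + w 0 * Real.log r) _
      _ ≤ M + C1 * (T r * (a + 1) * Real.exp (-(s1 * a))) :=
          add_le_add k1 (k2.trans hrest)
  · have k2 := pb38_cmp h.dat.lf (x := fun z => |w z|) (fun z => (abs_abs _).le) (r := r)
      (a := a) ha0 (by rw [← hρ]; exact hρone)
    have k3 := (le_abs_self _).trans (k2.trans hrest)
    have k4 : N r = ∑ z ∈ zs w r, |w z| * Real.log (r * ‖z‖⁻¹) + |w 0| * Real.log r := by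
      rw [h.hN r (hρone.trans hρr)]
      rfl
    rw [k4]
    linarith

end Pool.Agent.PfB
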