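import Pool.Agent.PfB.Defs

/-! MP_f2c8f8_an, project PfB, row PB-10: integrals over configurations -/

set_option autoImplicit false

open MeasureTheory Filter
open scoped ComplexConjugate Topology

noncomputable section

namespace Pool.Agent.PfB

/-! ### Weights -/

theorem pb10_vv_pos (p : ℕ) (y : ℝ) : 0 < vv p y := lt_min (Real.exp_pos _) (Real.exp_pos _)

theorem pb10_ww_pos (p : ℕ) (y : ℝ) : 0 < ww p y := lt_min (Real.exp_pos _) (Real.exp_pos _)

theorem pb10_vv_cont (p : ℕ) : Continuous (vv p) := by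
  unfold vv
  fun_prop

theorem pb10_exp_abs_int {a : ℝ} (ha : 0 < a) : Integrable (fun y : ℝ => Real.exp (-(a * |y|))) := by
  rw [← integrableOn_univ, ← Set.Iic_union_Ioi (a := (0 : ℝ)), integrableOn_union]
  constructor
  · refine (integrableOn_exp_mul_Iic ha 0).congr_fun (fun y hy => ?_) measurableSet_Iic
    rw [Set.mem_Iic] at hy
    rw [abs_of_nonpos hy]
    ring_nf
  · refine (integrableOn_exp_mul_Ioi (a := -a) (by linarith) 0).congr_fun (fun y hy => ?_)
      measurableSet_Ioi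
    rw [Set.mem_Ioi] at hy
    rw [abs_of_pos hy]
    ring_nf

theorem pb10_exp_vv_le {p : ℕ} {η : ℝ} (h0 : 0 < η) (h1 : η ≤ 1 / 4) (y : ℝ) :
    Real.exp (rh p η * y) * vv p y ≤ Real.exp (-(η * |y|)) := by
  rcases le_total 0 y with hy | hy
  · calc Real.exp (rh p η * y) * vv p y ≤ Real.exp (rh p η * y) * Real.exp (-((p : ℝ) * y)) :=
        mul_le_mul_of_nonneg_left (min_le_left _ _) (Real.exp_pos _).le
      _ = Real.exp (-(η * |y|)) := by
        rw [← Real.exp_add, abs_of_nonneg hy]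
        congr 1
        simp only [rh]
        ring
  · calc Real.exp (rh p η * y) * vv p y ≤
          Real.exp (rh p η * y) * Real.exp (-(((p : ℝ) - 1) * y)) :=
        mul_le_mul_of_nonneg_left (min_le_right _ _) (Real.exp_pos _).le
      _ ≤ Real.exp (-(η * |y|)) := by
        rw [← Real.exp_add, abs_of_nonpos hy]
        refine Real.exp_le_exp.mpr ?_
        simp only [rh]
        nlinarith

theorem vv_int {p : ℕ} (hp : 2 ≤ p) {η : ℝ} (h0 : 0 < η) (h1 : η ≤ 1 / 4) :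
    Integrable (fun y : ℝ => Real.exp (rh p η * y) * vv p y) := by
  refine (pb10_exp_abs_int h0).mono' ?_ (Eventually.of_forall fun y => ?_)
  · have := pb10_vv_cont p
    exact Continuous.aestronglyMeasurable (by fun_prop)
  · rw [Real.norm_eq_abs, abs_of_nonneg (mul_nonneg (Real.exp_pos _).le (pb10_vv_pos p y).le)]
    exact pb10_exp_vv_le h0 h1 y

/-! ### Configurations -/

theorem N_nonneg {ρ : ℝ} (c : Cfg ρ) (y : ℝ) : 0 ≤ c.N y := by
  unfold Cfg.N
  exact Finset.sum_nonneg fun i _ => mul_nonneg (c.m0 i) (le_max_left _ _)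

theorem ee_nonneg {ρ : ℝ} (c : Cfg ρ) (y : ℝ) : 0 ≤ c.ee y := by
  unfold Cfg.ee Cfg.N
  linarith [c.hN y]

theorem ee_le {ρ : ℝ} (c : Cfg ρ) (y : ℝ) : c.ee y ≤ Real.exp (ρ * y) := by
  unfold Cfg.ee
  linarith [N_nonneg c y]

theorem pb10_N_cont {ρ : ℝ} (c : Cfg ρ) : Continuous c.N := by
  unfold Cfg.N
  fun_prop

theorem pb10_ee_cont {ρ : ℝ} (c : Cfg ρ) : Continuous c.ee := by
  have := pb10_N_cont c
  unfold Cfg.ee
  fun_prop

theorem exp_k_int {p : ℕ} (hp : 2 ≤ p) {η : ℝ} (h0 : 0 < η) (h1 : η ≤ 1 / 4) {k : ℝ → ℝ} {B : ℝ}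
    (hk : Measurable k) (hB : ∀ y, |k y| ≤ B * vv p y) :
    Integrable (fun y : ℝ => Real.exp (rh p η * y) * k y) := by
  refine ((vv_int hp h0 h1).const_mul B).mono' ?_ (Eventually.of_forall fun y => ?_)
  · exact (Measurable.mul (by fun_prop) hk).aestronglyMeasurable
  · rw [Real.norm_eq_abs, abs_mul, abs_of_pos (Real.exp_pos _)]
    calc Real.exp (rh p η * y) * |k y| ≤ Real.exp (rh p η * y) * (B * vv p y) :=
        mul_le_mul_of_nonneg_left (hB y) (Real.exp_pos _).le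
      _ = B * (Real.exp (rh p η * y) * vv p y) := by ring

theorem ee_k_int {p : ℕ} (hp : 2 ≤ p) {η : ℝ} (h0 : 0 < η) (h1 : η ≤ 1 / 4)
    (c : Cfg (rh p η)) {k : ℝ → ℝ} {B : ℝ}
    (hk : Measurable k) (hB : ∀ y, |k y| ≤ B * vv p y) :
    Integrable (fun y : ℝ => c.ee y * k y) := by
  refine (exp_k_int hp h0 h1 hk hB).norm.mono' ?_ (Eventually.of_forall fun y => ?_)
  · exact (Measurable.mul (pb10_ee_cont c).measurable hk).aestronglyMeasurable
  · rw [Real.norm_eq_abs, Real.norm_eq_abs, abs_mul, abs_mul, abs_of_pos (Real.exp_pos _),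
      abs_of_nonneg (ee_nonneg c y)]
    exact mul_le_mul_of_nonneg_right (ee_le c y) (abs_nonneg _)

/-! ### The operator `Tt` -/

theorem pb10_lin_exp {a : ℝ} (ha : 0 < a) {B x y : ℝ} (hB : 0 ≤ B) (hy : x ≤ y) :
    (y - x) * (B * Real.exp (-(a * y))) ≤
      B * (2 / a) * Real.exp (-(a / 2 * x)) * Real.exp (-(a / 2) * y) := by
  have h1 : y - x ≤ 2 / a * Real.exp (a / 2 * (y - x)) := by
    have h2 : a / 2 * (y - x) ≤ Real.exp (a / 2 * (y - x)) := by
      linarith [Real.add_one_le_exp (a / 2 * (y - x))]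
    calc y - x = 2 / a * (a / 2 * (y - x)) := by field_simp
      _ ≤ 2 / a * Real.exp (a / 2 * (y - x)) := mul_le_mul_of_nonneg_left h2 (by positivity)
  calc (y - x) * (B * Real.exp (-(a * y))) ≤
        2 / a * Real.exp (a / 2 * (y - x)) * (B * Real.exp (-(a * y))) :=
      mul_le_mul_of_nonneg_right h1 (by positivity)
    _ = B * (2 / a) * (Real.exp (a / 2 * (y - x)) * Real.exp (-(a * y))) := by ring
    _ = B * (2 / a) * (Real.exp (-(a / 2 * x)) * Real.exp (-(a / 2) * y)) := by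
      rw [← Real.exp_add, ← Real.exp_add]
      congr 2
      ring
    _ = B * (2 / a) * Real.exp (-(a / 2 * x)) * Real.exp (-(a / 2) * y) := by ring

theorem pb10_Tt_int {a : ℝ} (ha : 0 < a) {k : ℝ → ℝ} {B : ℝ} (hk : Measurable k)
    (hB : ∀ y, |k y| ≤ B * Real.exp (-(a * y))) (x : ℝ) :
    IntegrableOn (fun y : ℝ => (y - x) * k y) (Set.Ioi x) := by
  have hB0 : 0 ≤ B := by
    have h1 := (abs_nonneg _).trans (hB 0)
    exact nonneg_of_mul_nonneg_left h1 (Real.exp_pos _)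
  refine ((integrableOn_exp_mul_Ioi (a := -(a / 2)) (by linarith) x).const_mul
    (B * (2 / a) * Real.exp (-(a / 2 * x)))).mono' ?_ ?_
  · exact (Measurable.mul (by fun_prop) hk).aestronglyMeasurable
  · refine (ae_restrict_iff' measurableSet_Ioi).mpr (Eventually.of_forall fun y hy => ?_)
    rw [Set.mem_Ioi] at hy
    rw [Real.norm_eq_abs, abs_mul, abs_of_pos (by linarith : 0 < y - x)]
    exact (mul_le_mul_of_nonneg_left (hB y) (by linarith)).trans (pb10_lin_exp ha hB0 hy.le)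

theorem pb10_Tt_bd {a : ℝ} (ha : 0 < a) {k : ℝ → ℝ} {B : ℝ}
    (hB : ∀ y, |k y| ≤ B * Real.exp (-(a * y))) (x : ℝ) :
    |Tt k x| ≤ 4 / a ^ 2 * B * Real.exp (-(a * x)) := by
  have hB0 : 0 ≤ B := by
    have h1 := (abs_nonneg _).trans (hB 0)
    exact nonneg_of_mul_nonneg_left h1 (Real.exp_pos _)
  unfold Tt
  rw [← Real.norm_eq_abs]
  refine (norm_integral_le_of_norm_le ((integrableOn_exp_mul_Ioi (a := -(a / 2))
    (by linarith) x).const_mul (B * (2 / a) * Real.exp (-(a / 2 * x)))) ?_).trans ?_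
  · refine (ae_restrict_iff' measurableSet_Ioi).mpr (Eventually.of_forall fun y hy => ?_)
    rw [Set.mem_Ioi] at hy
    rw [Real.norm_eq_abs, abs_mul, abs_of_pos (by linarith : 0 < y - x)]
    exact (mul_le_mul_of_nonneg_left (hB y) (by linarith)).trans (pb10_lin_exp ha hB0 hy.le)
  · rw [integral_const_mul, integral_exp_mul_Ioi (by linarith)]
    have h1 : Real.exp (-(a * x)) = Real.exp (-(a / 2 * x)) * Real.exp (-(a / 2) * x) := by
      rw [← Real.exp_add]
      congr 1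
      ring
    rw [h1]
    refine le_of_eq ?_
    field_simp
    ring

theorem pb10_vv_le (p : ℕ) (y : ℝ) : vv p y ≤ Real.exp (-(((p : ℝ) - 1) * y)) := min_le_right _ _

theorem Tt_int {p : ℕ} (hp : 2 ≤ p) {k : ℝ → ℝ} {B : ℝ}
    (hk : Measurable k) (hB : ∀ y, |k y| ≤ B * vv p y) (x : ℝ) :
    IntegrableOn (fun y : ℝ => (y - x) * k y) (Set.Ioi x) := by
  have hp' : (2 : ℝ) ≤ p := by exact_mod_cast hp
  have hB0 : 0 ≤ B := nonneg_of_mul_nonneg_left ((abs_nonneg _).trans (hB 0)) (pb10_vv_pos p 0)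
  exact pb10_Tt_int (a := (p : ℝ) - 1) (by linarith) hk
    (fun y => (hB y).trans (mul_le_mul_of_nonneg_left (pb10_vv_le p y) hB0)) x

theorem pb10_bd {a b : ℝ} (ha : 1 ≤ a) (hb : 1 ≤ b) {k : ℝ → ℝ} {B : ℝ}
    (hB : ∀ y, |k y| ≤ B * min (Real.exp (-(a * y))) (Real.exp (-(b * y)))) (x : ℝ) :
    |Tt k x| ≤ 4 * B * min (Real.exp (-(a * x))) (Real.exp (-(b * x))) := by
  have hB0 : 0 ≤ B :=
    nonneg_of_mul_nonneg_left ((abs_nonneg _).trans (hB 0)) (lt_min (Real.exp_pos _) (Real.exp_pos _))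
  have key : ∀ c : ℝ, 1 ≤ c → (∀ y, |k y| ≤ B * Real.exp (-(c * y))) →
      |Tt k x| ≤ 4 * B * Real.exp (-(c * x)) := by
    intro c hc h
    refine (pb10_Tt_bd (by linarith) h x).trans ?_
    have h1 : 4 / c ^ 2 ≤ 4 := by
      rw [div_le_iff₀ (by positivity)]
      nlinarith
    have h2 : 0 ≤ B * Real.exp (-(c * x)) := by positivity
    calc 4 / c ^ 2 * B * Real.exp (-(c * x)) = 4 / c ^ 2 * (B * Real.exp (-(c * x))) := by ring
      _ ≤ 4 * (B * Real.exp (-(c * x))) := mul_le_mul_of_nonneg_right h1 h2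
      _ = 4 * B * Real.exp (-(c * x)) := by ring
  have h1 := key a ha fun y => (hB y).trans (mul_le_mul_of_nonneg_left (min_le_left _ _) hB0)
  have h2 := key b hb fun y => (hB y).trans (mul_le_mul_of_nonneg_left (min_le_right _ _) hB0)
  rw [mul_min_of_nonneg _ _ (by positivity : (0 : ℝ) ≤ 4 * B)]
  exact le_min h1 h2

theorem Tt_bd {p : ℕ} (hp : 2 ≤ p) : ∃ C : ℝ, 0 < C ∧ ∀ (k : ℝ → ℝ) (B : ℝ), Measurable k →
    (∀ y, |k y| ≤ B * vv p y) → ∀ x, |Tt k x| ≤ C * B * vv p x := by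
  have hp' : (2 : ℝ) ≤ p := by exact_mod_cast hp
  refine ⟨4, by norm_num, fun k B _ hB x => ?_⟩
  exact pb10_bd (a := p) (b := (p : ℝ) - 1) (by linarith) (by linarith) hB x

theorem Tt_bdw {p : ℕ} (hp : 2 ≤ p) : ∃ C : ℝ, 0 < C ∧ ∀ (k : ℝ → ℝ) (B : ℝ), Measurable k →
    (∀ y, |k y| ≤ B * ww p y) → ∀ x, |Tt k x| ≤ C * B * ww p x := by
  have hp' : (2 : ℝ) ≤ p := by exact_mod_cast hp
  refine ⟨4, by norm_num, fun k B _ hB x => ?_⟩
  exact pb10_bd (a := (p : ℝ) + 1) (b := (p : ℝ) - 1) (by linarith) (by linarith) hB x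

/-! ### Fubini -/

theorem pb10_ind (k : ℝ → ℝ) (x : ℝ) :
    (Set.Ioi x).indicator (fun y : ℝ => (y - x) * k y) = fun y => max 0 (y - x) * k y := by
  ext y
  by_cases hy : x < y
  · rw [Set.indicator_of_mem (Set.mem_Ioi.mpr hy), max_eq_right (by linarith)]
  · rw [Set.indicator_of_notMem (by simpa using hy), max_eq_left (by linarith), zero_mul]

theorem pb10_Tt_eq (k : ℝ → ℝ) (x : ℝ) : Tt k x = ∫ y, max 0 (y - x) * k y := by
  unfold Tt
  rw [← integral_indicator measurableSet_Ioi, pb10_ind]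

theorem pb10_max_int {p : ℕ} (hp : 2 ≤ p) {k : ℝ → ℝ} {B : ℝ}
    (hk : Measurable k) (hB : ∀ y, |k y| ≤ B * vv p y) (x : ℝ) :
    Integrable (fun y : ℝ => max 0 (y - x) * k y) := by
  rw [← pb10_ind]
  exact (Tt_int hp hk hB x).integrable_indicator measurableSet_Ioi

theorem pb10_inner {ρ : ℝ} (hρ : 0 < ρ) (y : ℝ) :
    Integrable (fun x : ℝ => Real.exp (ρ * x) * max 0 (y - x)) ∧
      ∫ x : ℝ, Real.exp (ρ * x) * max 0 (y - x) = Real.exp (ρ * y) / ρ ^ 2 := by
  have hind : (Set.Iic y).indicator (fun x : ℝ => Real.exp (ρ * x) * (y - x)) =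
      fun x => Real.exp (ρ * x) * max 0 (y - x) := by
    ext x
    by_cases hx : x ≤ y
    · rw [Set.indicator_of_mem (Set.mem_Iic.mpr hx), max_eq_right (by linarith)]
    · rw [Set.indicator_of_notMem (by simpa using hx), max_eq_left (by linarith), mul_zero]
  have hon : IntegrableOn (fun x : ℝ => Real.exp (ρ * x) * (y - x)) (Set.Iic y) := by
    refine ((integrableOn_exp_mul_Iic (a := ρ / 2) (by linarith) y).const_mul
      (2 / ρ * Real.exp (ρ / 2 * y))).mono' ?_ ?_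
    · exact Continuous.aestronglyMeasurable (by fun_prop)
    · refine (ae_restrict_iff' measurableSet_Iic).mpr (Eventually.of_forall fun x hx => ?_)
      rw [Set.mem_Iic] at hx
      rw [Real.norm_eq_abs, abs_mul, abs_of_pos (Real.exp_pos _), abs_of_nonneg (by linarith)]
      have h1 : y - x ≤ 2 / ρ * Real.exp (ρ / 2 * (y - x)) := by
        have h2 : ρ / 2 * (y - x) ≤ Real.exp (ρ / 2 * (y - x)) := by
          linarith [Real.add_one_le_exp (ρ / 2 * (y - x))]
        calc y - x = 2 / ρ * (ρ / 2 * (y - x)) := by field_simp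
          _ ≤ 2 / ρ * Real.exp (ρ / 2 * (y - x)) := mul_le_mul_of_nonneg_left h2 (by positivity)
      calc Real.exp (ρ * x) * (y - x) ≤
            Real.exp (ρ * x) * (2 / ρ * Real.exp (ρ / 2 * (y - x))) :=
          mul_le_mul_of_nonneg_left h1 (Real.exp_pos _).le
        _ = 2 / ρ * (Real.exp (ρ * x) * Real.exp (ρ / 2 * (y - x))) := by ring
        _ = 2 / ρ * (Real.exp (ρ / 2 * y) * Real.exp (ρ / 2 * x)) := by
          rw [← Real.exp_add, ← Real.exp_add]
          congr 2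
          ring
        _ = 2 / ρ * Real.exp (ρ / 2 * y) * Real.exp (ρ / 2 * x) := by ring
  refine ⟨?_, ?_⟩
  · rw [← hind]
    exact hon.integrable_indicator measurableSet_Iic
  · rw [← hind, integral_indicator measurableSet_Iic]
    have hF : ∀ x : ℝ, HasDerivAt (fun x : ℝ => Real.exp (ρ * x) * ((y - x) / ρ + 1 / ρ ^ 2))
        (Real.exp (ρ * x) * (y - x)) x := by
      intro x
      have h1 : HasDerivAt (fun x : ℝ => Real.exp (ρ * x)) (Real.exp (ρ * x) * (ρ * 1)) x :=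
        ((hasDerivAt_id x).const_mul ρ).exp
      have h2 : HasDerivAt (fun x : ℝ => (y - x) / ρ + 1 / ρ ^ 2) (-1 / ρ) x :=
        (((hasDerivAt_id x).const_sub y).div_const ρ).add_const _
      have h3 := h1.mul h2
      refine h3.congr_deriv ?_
      field_simp
      ring
    have hlim : Tendsto (fun x : ℝ => Real.exp (ρ * x) * ((y - x) / ρ + 1 / ρ ^ 2)) atBot
        (𝓝 0) := by
      have h1 : Tendsto (fun x : ℝ => Real.exp (ρ * x)) atBot (𝓝 0) :=
        Real.tendsto_exp_atBot.comp (tendsto_id.const_mul_atBot hρ)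
      have h2 : Tendsto (fun t : ℝ => t ^ 1 * Real.exp (-t)) atTop (𝓝 0) :=
        Real.tendsto_pow_mul_exp_neg_atTop_nhds_zero 1
      have h3 : Tendsto (fun x : ℝ => (-(ρ * x)) ^ 1 * Real.exp (-(-(ρ * x)))) atBot (𝓝 0) :=
        h2.comp (tendsto_neg_atBot_atTop.comp (tendsto_id.const_mul_atBot hρ))
      have h4 : Tendsto (fun x : ℝ => (y / ρ + 1 / ρ ^ 2) * Real.exp (ρ * x) +
          1 / ρ ^ 2 * ((-(ρ * x)) ^ 1 * Real.exp (-(-(ρ * x))))) atBot
          (𝓝 ((y / ρ + 1 / ρ ^ 2) * 0 + 1 / ρ ^ 2 * 0)) :=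
        (h1.const_mul _).add (h3.const_mul _)
      rw [mul_zero, mul_zero, add_zero] at h4
      refine h4.congr fun x => ?_
      rw [neg_neg]
      field_simp
      ring
    rw [integral_Iic_of_hasDerivAt_of_tendsto' (fun x _ => hF x) hon hlim]
    field_simp
    ring

theorem pb10_fub {p : ℕ} (hp : 2 ≤ p) {η : ℝ} (h0 : 0 < η) (h1 : η ≤ 1 / 4) {k : ℝ → ℝ} {B : ℝ}
    (hk : Measurable k) (hB : ∀ y, |k y| ≤ B * vv p y) :
    Integrable (Function.uncurry fun x y : ℝ =>
      rh p η ^ 2 * Real.exp (rh p η * x) * (max 0 (y - x) * k y)) (volume.prod volume) := by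
  have hp' : (2 : ℝ) ≤ p := by exact_mod_cast hp
  have hρ : 0 < rh p η := by simp only [rh]; linarith
  rw [integrable_prod_iff']
  · have heq : ∀ y : ℝ, (fun x : ℝ => (Function.uncurry fun x y : ℝ =>
        rh p η ^ 2 * Real.exp (rh p η * x) * (max 0 (y - x) * k y)) (x, y)) =
        fun x => rh p η ^ 2 * k y * (Real.exp (rh p η * x) * max 0 (y - x)) := by
      intro y
      ext x
      simp only [Function.uncurry_apply_pair]
      ring
    refine ⟨Eventually.of_forall fun y => ?_, ?_⟩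
    · rw [heq]
      exact (pb10_inner hρ y).1.const_mul _
    · have h2 : (fun y : ℝ => ∫ x : ℝ, ‖(Function.uncurry fun x y : ℝ =>
          rh p η ^ 2 * Real.exp (rh p η * x) * (max 0 (y - x) * k y)) (x, y)‖) =
          fun y => ‖Real.exp (rh p η * y) * k y‖ := by
        ext y
        have h3 : (fun x : ℝ => ‖(Function.uncurry fun x y : ℝ =>
          rh p η ^ 2 * Real.exp (rh p η * x) * (max 0 (y - x) * k y)) (x, y)‖) =
          fun x => rh p η ^ 2 * |k y| * (Real.exp (rh p η * x) * max 0 (y - x)) := by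
          ext x
          simp only [Function.uncurry_apply_pair]
          rw [Real.norm_eq_abs, abs_mul, abs_mul, abs_mul, abs_of_pos (Real.exp_pos _),
            abs_of_nonneg (le_max_left 0 (y - x)), abs_of_nonneg (sq_nonneg (rh p η))]
          ring
        rw [h3, integral_const_mul, (pb10_inner hρ y).2, Real.norm_eq_abs, abs_mul,
          abs_of_pos (Real.exp_pos _)]
        field_simp
      rw [h2]
      exact (exp_k_int hp h0 h1 hk hB).norm
  · refine Measurable.aestronglyMeasurable ?_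
    refine Measurable.mul (by fun_prop) (Measurable.mul (by fun_prop) ?_)
    exact hk.comp measurable_snd

theorem II_T {p : ℕ} (hp : 2 ≤ p) {η : ℝ} (h0 : 0 < η) (h1 : η ≤ 1 / 4) {k : ℝ → ℝ} {B : ℝ}
    (hk : Measurable k) (hB : ∀ y, |k y| ≤ B * vv p y) :
    Integrable (fun x : ℝ => rh p η ^ 2 * Real.exp (rh p η * x) * Tt k x) ∧
    II (rh p η) (Tt k) = ∫ y : ℝ, Real.exp (rh p η * y) * k y := by
  have hp' : (2 : ℝ) ≤ p := by exact_mod_cast hp
  have hρ : 0 < rh p η := by simp only [rh]; linarith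
  have hf := pb10_fub hp h0 h1 hk hB
  have heq : (fun x : ℝ => rh p η ^ 2 * Real.exp (rh p η * x) * Tt k x) =
      fun x => ∫ y : ℝ, rh p η ^ 2 * Real.exp (rh p η * x) * (max 0 (y - x) * k y) := by
    ext x
    rw [pb10_Tt_eq, integral_const_mul]
  constructor
  · rw [heq]
    exact hf.integral_prod_left
  · unfold II
    rw [heq, integral_integral_swap hf]
    congr 1
    ext y
    have h2 : (fun x : ℝ => rh p η ^ 2 * Real.exp (rh p η * x) * (max 0 (y - x) * k y)) =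
        fun x => rh p η ^ 2 * k y * (Real.exp (rh p η * x) * max 0 (y - x)) := by
      ext x
      ring
    rw [h2, integral_const_mul, (pb10_inner hρ y).2]
    field_simp

/-- the sum over a configuration -/
theorem S_T {p : ℕ} (hp : 2 ≤ p) {η : ℝ} (h0 : 0 < η) (h1 : η ≤ 1 / 4)
    (c : Cfg (rh p η)) {k : ℝ → ℝ} {B : ℝ}
    (hk : Measurable k) (hB : ∀ y, |k y| ≤ B * vv p y) :
    ∑ i, c.m i * Tt k (c.x i) = II (rh p η) (Tt k) - ∫ y : ℝ, c.ee y * k y := by
  rw [(II_T hp h0 h1 hk hB).2, ← integral_sub (exp_k_int hp h0 h1 hk hB)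
    (ee_k_int hp h0 h1 c hk hB)]
  have h2 : ∀ i ∈ Finset.univ, c.m i * Tt k (c.x i) =
      ∫ y : ℝ, c.m i * (max 0 (y - c.x i) * k y) := by
    intro i _
    rw [pb10_Tt_eq, integral_const_mul]
  rw [Finset.sum_congr rfl h2, ← integral_finset_sum _ (fun i _ =>
    (pb10_max_int hp hk hB (c.x i)).const_mul (c.m i))]
  congr 1
  ext y
  have h3 : Real.exp (rh p η * y) * k y - c.ee y * k y = c.N y * k y := by
    unfold Cfg.ee
    ring
  rw [h3]
  unfold Cfg.N
  rw [Finset.sum_mul]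
  refine Finset.sum_congr rfl fun i _ => ?_
  ring

theorem S_T_le {p : ℕ} (hp : 2 ≤ p) {η : ℝ} (h0 : 0 < η) (h1 : η ≤ 1 / 4)
    (c : Cfg (rh p η)) {k : ℝ → ℝ} {B : ℝ} (hk : Measurable k) (hB : ∀ y, |k y| ≤ B * vv p y)
    (hk0 : ∀ y, 0 ≤ k y) : ∑ i, c.m i * Tt k (c.x i) ≤ II (rh p η) (Tt k) := by
  rw [S_T hp h0 h1 c hk hB]
  have h2 : 0 ≤ ∫ y : ℝ, c.ee y * k y :=
    integral_nonneg fun y => mul_nonneg (ee_nonneg c y) (hk0 y)
  linarith

end Pool.Agent.PfB
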