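import Pool.Agent.PfB.CoHi
import Pool.Agent.PfB.CoLo
import Pool.Agent.PfB.Bld
import Pool.Agent.PfB.CPair
import Pool.Agent.PfA.Peaks
import Pool.Agent.PfA.Dual
import Pool.Agent.PfA.Pair
import Pool.Agent.PfA.CoreMain

/-! MP_f2c8f8_an, project PfB, row PB-39 -/

set_option autoImplicit false

open MeasureTheory Filter
open scoped ComplexConjugate Topology

noncomputable section

namespace Pool.Agent.PfB

open Pool.Agent.PfA

theorem pb39_geom {x s : ℝ} (hx : 1 ≤ x) (p M : ℕ) :
    ∑ n ∈ Finset.Icc 1 M, (if n < p then (0 : ℝ) else Real.exp (-(((n : ℝ) - s) * x))) ≤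
      2 * Real.exp (-(((p : ℝ) - s) * x)) := by
  have hA : 2 ≤ Real.exp x := by
    have h1 := Real.add_one_le_exp x
    linarith
  rcases Nat.eq_zero_or_pos p with hp | hp
  · subst hp
    have h := pf21_geom (A := Real.exp x) (s2 := s) (q := 0) hA M
    have h1 : ∀ y : ℝ, Real.exp x ^ (-(y - s)) = Real.exp (-((y - s) * x)) := by
      intro y
      rw [← Real.exp_mul]
      congr 1
      ring
    have h2 : ∑ n ∈ Finset.Icc 1 M, (if n < 0 then (0 : ℝ) else Real.exp (-(((n : ℝ) - s) * x))) =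
        ∑ n ∈ Finset.Icc 1 M, (if n ≤ 0 then (0 : ℝ) else Real.exp x ^ (-((n : ℝ) - s))) := by
      apply Finset.sum_congr rfl
      intro n hn
      rw [Finset.mem_Icc] at hn
      rw [if_neg (by omega), if_neg (by omega), h1]
    rw [h2]
    refine h.trans ?_
    have h3 : Real.exp x ^ (-(((0 : ℕ) : ℝ) + 1 - s)) ≤ Real.exp (-((((0 : ℕ) : ℝ) - s) * x)) := by
      rw [← Real.exp_mul]
      apply Real.exp_le_exp.mpr
      push_cast
      nlinarith
    linarith
  · have h := pf21_geom (A := Real.exp x) (s2 := s) (q := p - 1) hA M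
    have h1 : ∀ y : ℝ, Real.exp x ^ (-(y - s)) = Real.exp (-((y - s) * x)) := by
      intro y
      rw [← Real.exp_mul]
      congr 1
      ring
    have h2 : ∑ n ∈ Finset.Icc 1 M, (if n < p then (0 : ℝ) else Real.exp (-(((n : ℝ) - s) * x))) =
        ∑ n ∈ Finset.Icc 1 M, (if n ≤ p - 1 then (0 : ℝ) else Real.exp x ^ (-((n : ℝ) - s))) := by
      apply Finset.sum_congr rfl
      intro n hn
      by_cases h3 : n < p
      · rw [if_pos h3, if_pos (by omega)]
      · rw [if_neg h3, if_neg (by omega), h1]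
    rw [h2]
    refine h.trans ?_
    have h4 : ((p - 1 : ℕ) : ℝ) + 1 = (p : ℝ) := by
      rw [Nat.cast_sub hp]
      push_cast
      ring
    rw [h4, h1]

theorem core_exact {u w : ℂ → ℝ} {E : Set ℝ} {N T : ℝ → ℝ} {C : ℝ} (h : Core u w E N T C)
    (hm : ∃ M : ℝ, ∀ r, 1 ≤ r → |Real.circleAverage u 0 r - NS w r| ≤ M)
    {p : ℕ} (hp : 2 ≤ p) {η : ℝ} (h0 : 0 < η) (h1 : η ≤ 1 / 4)
    (hone : ∀ c : Cfg (rh p η), c.FF p ≤ 2 * p / Real.sin (Real.pi * η))
    (hbig : ∀ s : ℝ, 0 < s → s < rh p η → ∀ M X : ℝ, ∃ x ≥ X, M * x ^ s ≤ T x)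
    (hsmall : ∀ s : ℝ, rh p η < s → ∀ ε : ℝ, 0 < ε → ∀ X : ℝ, ∃ x ≥ X, T x ≤ ε * x ^ s)
    {κ : ℝ} (hκ : 0 < κ) (hκ2 : κ * (p / Real.sin (Real.pi * η)) < 1) (X : ℝ) :
    ∃ r ≥ X, 0 < T r ∧ κ * T r < N r := by
  by_contra! hcon
  obtain ⟨M0, hM0⟩ := hm
  have hM00 : 0 ≤ M0 := (abs_nonneg _).trans (hM0 1 le_rfl)
  have hp2 : (2 : ℝ) ≤ (p : ℝ) := by exact_mod_cast hp
  set t : ℝ := rh p η with ht
  have htp : t = (p : ℝ) - η := rfl
  have ht1 : 1 ≤ t := by rw [htp]; linarith
  set Φ : ℝ := (p : ℝ) / Real.sin (Real.pi * η) with hΦ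
  have hsin : 0 < Real.sin (Real.pi * η) := by
    apply Real.sin_pos_of_pos_of_lt_pi (by positivity)
    nlinarith [Real.pi_pos]
  have hΦ0 : 0 < Φ := by positivity
  -- positivity of `T`
  obtain ⟨x0, hx0, hTx0⟩ := hbig (t / 2) (by linarith) (by linarith) 1 (max 1 X)
  have hx1 : 1 ≤ x0 := le_trans (le_max_left _ _) hx0
  have hxX : X ≤ x0 := le_trans (le_max_right _ _) hx0
  have hTx0' : 0 < T x0 := by
    have : 0 < x0 ^ (t / 2) := Real.rpow_pos_of_pos (by linarith) _
    linarith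
  have hTpos : ∀ r, x0 ≤ r → 0 < T r := by
    intro r hr
    have := h.Tmono (a := x0) (b := r) (Set.mem_Ici.2 hx1) (Set.mem_Ici.2 (le_trans hx1 hr)) hr
    linarith
  have hN : ∀ r, x0 ≤ r → N r ≤ κ * T r := fun r hr => hcon r (le_trans hxX hr) (hTpos r hr)
  -- choice of `e`
  have hc0 : 0 < κ * Φ := by positivity
  obtain ⟨e, he, he1, he2⟩ : ∃ e : ℝ, 0 < e ∧ e ≤ 1 ∧ κ * (1 + e) ^ 2 * Φ < 1 := by
    refine ⟨min 1 ((1 - κ * Φ) / 4), lt_min one_pos (by linarith), min_le_left _ _, ?_⟩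
    set e := min 1 ((1 - κ * Φ) / 4) with he
    have h1 : e ≤ 1 := min_le_left _ _
    have h2 : e ≤ (1 - κ * Φ) / 4 := min_le_right _ _
    have h0 : 0 < e := lt_min one_pos (by linarith)
    have h3 : (1 + e) ^ 2 ≤ 1 + 3 * e := by nlinarith
    have h4 : κ * (1 + e) ^ 2 * Φ = κ * Φ * (1 + e) ^ 2 := by ring
    rw [h4]
    have h5 : κ * Φ * (1 + e) ^ 2 ≤ κ * Φ * (1 + 3 * e) :=
      mul_le_mul_of_nonneg_left h3 hc0.le
    nlinarith
  set γ := 1 - κ * (1 + e) ^ 2 * Φ with hγ
  have hγ0 : 0 < γ := by rw [hγ]; linarith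
  -- the constants of the two coefficient estimates
  obtain ⟨C1, hC1, hhigh⟩ := co_hi h hp hκ he hx1 hN (s2 := (p : ℝ) - η / 2) (by linarith)
    (by linarith)
  obtain ⟨C2, hC2, hlow⟩ := co_lo h hp hκ he hx1 hN (s1 := (p : ℝ) - 1 / 2) (by linarith)
  -- choice of `a`
  set K : ℝ := 2 * C2 + 2 * p * C2 + 4 * C1 with hK
  have hK0 : 0 ≤ K := by positivity
  obtain ⟨a, ha1, haK⟩ : ∃ a : ℝ, 1 ≤ a ∧ K * Real.exp (-(η / 2 * a)) ≤ γ := by
    have h2 : Tendsto (fun a : ℝ => K * Real.exp (-(η / 2 * a))) atTop (𝓝 (K * 0)) := by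
      apply Tendsto.const_mul
      apply Real.tendsto_exp_neg_atTop_nhds_zero.comp
      exact tendsto_id.const_mul_atTop (by positivity)
    rw [mul_zero] at h2
    have h3 := (h2.eventually (ge_mem_nhds hγ0)).and (eventually_ge_atTop (1 : ℝ))
    obtain ⟨a, h4, h5⟩ := h3.exists
    exact ⟨a, h5, h4⟩
  have ha0 : 0 < a := by linarith
  -- choice of `s1`, `s2`
  have hlog : 0 < Real.log (1 + e) := Real.log_pos (by linarith)
  set δ : ℝ := min (η / 4) (Real.log (1 + e) / (a + 1)) with hδ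
  have hδ0 : 0 < δ := lt_min (by positivity) (by positivity)
  have hδ1 : δ ≤ η / 4 := min_le_left _ _
  have hδ2 : δ * (a + 1) ≤ Real.log (1 + e) := by
    have := min_le_right (η / 4) (Real.log (1 + e) / (a + 1))
    rw [← hδ] at this
    rwa [le_div_iff₀ (by linarith)] at this
  have hs1 : (p : ℝ) - 1 / 2 ≤ t - δ := by rw [htp]; linarith
  have hs2 : t + δ ≤ (p : ℝ) - η / 2 := by rw [htp]; linarith
  -- the peak
  set Kc : ℝ := M0 + 1 + 2 * p * C2 * Real.exp (p * (a + 1)) + 4 * C1 + 2 * C with hKc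
  have hC := h.hC
  have hKc0 : 0 ≤ Kc := by rw [hKc]; positivity
  obtain ⟨r, hrX, hr1, hrE, hTr, hMr, hl, hh'⟩ := exists_peak h.Tmono
    (by linarith : (0 : ℝ) < t - δ) (by linarith : t - δ < t + δ)
    (hbig (t - δ) (by linarith) (by linarith)) (hsmall (t + δ) (by linarith)) h.dat.cE he
    (Real.exp (a + 3)) (Kc / γ + 1) (x0 * Real.exp (a + 1))
  have hexp1 : 1 ≤ Real.exp (a + 1) := Real.one_le_exp (by linarith)
  have hrx0 : x0 ≤ r := by
    refine le_trans ?_ hrX
    exact le_mul_of_one_le_right (by linarith) hexp1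
  have hr0 : 0 < r := by linarith
  have hT0 : 0 ≤ T r := hTr.le
  -- the growth hypotheses with fixed exponents
  have hl' : ∀ t', 1 ≤ t' → t' ≤ r → T t' ≤ (1 + e) * T r * (t' / r) ^ ((p : ℝ) - 1 / 2) := by
    intro t' ht1' ht2'
    refine (hl t' ht1' ht2').trans ?_
    apply mul_le_mul_of_nonneg_left _ (by positivity)
    apply Real.rpow_le_rpow_of_exponent_ge (by positivity) _ hs1
    exact (div_le_one hr0).mpr ht2'
  have hh'' : ∀ t', r ≤ t' → t' ≤ Real.exp (a + 3) * r →
      T t' ≤ (1 + e) * T r * (t' / r) ^ ((p : ℝ) - η / 2) := by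
    intro t' ht1' ht2'
    refine (hh' t' ht1' ht2').trans ?_
    apply mul_le_mul_of_nonneg_left _ (by positivity)
    apply Real.rpow_le_rpow_of_exponent_le _ hs2
    exact (one_le_div hr0).mpr ht1'
  have hhi := hhigh r a ha0 hrx0 hrE hTr hh''
  obtain ⟨hlo, hlo0, hloN⟩ := hlow r a ha1 hrX hrE hTr hl'
  have hlo0' := hlo0 M0 hM0
  -- the configuration
  set B : ℝ := κ * (1 + e) ^ 2 * T r with hB
  have hB0 : 0 < B := by positivity
  have hra : x0 ≤ r * Real.exp (-a) := by
    have h2 : x0 * Real.exp a ≤ r := by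
      refine le_trans ?_ hrX
      apply mul_le_mul_of_nonneg_left _ (by linarith)
      exact Real.exp_le_exp.mpr (by linarith)
    calc x0 = x0 * Real.exp a * Real.exp (-a) := by
          rw [mul_assoc, ← Real.exp_add, add_neg_cancel, Real.exp_zero, mul_one]
      _ ≤ r * Real.exp (-a) := mul_le_mul_of_nonneg_right h2 (Real.exp_pos _).le
  obtain ⟨c, hc, hcN⟩ := build (p := p) h.dat.lf hr0 ha0 (t := t) ht1 hB0
    (fun z hz hzr => hrE (hzr ▸ h.dat.wE z hz)) (hx1.trans hra) (by
      intro y hy1 hy2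
      have h2 : x0 ≤ r * Real.exp y := by
        refine hra.trans ?_
        apply mul_le_mul_of_nonneg_left _ hr0.le
        exact Real.exp_le_exp.mpr hy1
      have h3 : N (r * Real.exp y) = NI w (r * Real.exp y) := h.hN _ (hx1.trans h2)
      rw [← h3]
      refine (hN _ h2).trans ?_
      have h4 : T (r * Real.exp y) ≤ (1 + e) ^ 2 * T r * Real.exp (t * y) := by
        have h7 : Real.exp (Real.log (1 + e)) = 1 + e := Real.exp_log (by linarith)
        rcases le_total y 0 with hy | hy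
        · have h5 := hl (r * Real.exp y) (hx1.trans h2)
            ((mul_le_mul_of_nonneg_left (Real.exp_le_one_iff.mpr hy) hr0.le).trans
              (mul_one r).le)
          rw [mul_div_cancel_left₀ _ hr0.ne', ← Real.exp_mul] at h5
          have h6 : Real.exp (y * (t - δ)) ≤ Real.exp (Real.log (1 + e)) * Real.exp (t * y) := by
            rw [← Real.exp_add]
            apply Real.exp_le_exp.mpr
            have h8 : (-y) * δ ≤ (a + 1) * δ :=
              mul_le_mul_of_nonneg_right (by linarith) hδ0.le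
            have h9 : y * (t - δ) = t * y + (-y) * δ := by ring
            linarith
          rw [h7] at h6
          calc T (r * Real.exp y) ≤ (1 + e) * T r * Real.exp (y * (t - δ)) := h5
            _ ≤ (1 + e) * T r * ((1 + e) * Real.exp (t * y)) :=
              mul_le_mul_of_nonneg_left h6 (by positivity)
            _ = (1 + e) ^ 2 * T r * Real.exp (t * y) := by ring
        · have h5 := hh' (r * Real.exp y)
            ((mul_one r).ge.trans (mul_le_mul_of_nonneg_left (Real.one_le_exp hy) hr0.le))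
            (by
              rw [mul_comm]
              apply mul_le_mul_of_nonneg_right _ hr0.le
              exact Real.exp_le_exp.mpr (by linarith))
          rw [mul_div_cancel_left₀ _ hr0.ne', ← Real.exp_mul] at h5
          have h6 : Real.exp (y * (t + δ)) ≤ Real.exp (Real.log (1 + e)) * Real.exp (t * y) := by
            rw [← Real.exp_add]
            apply Real.exp_le_exp.mpr
            have h8 : y * δ ≤ (a + 1) * δ :=
              mul_le_mul_of_nonneg_right hy2 hδ0.le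
            have h9 : y * (t + δ) = t * y + y * δ := by ring
            linarith
          rw [h7] at h6
          calc T (r * Real.exp y) ≤ (1 + e) * T r * Real.exp (y * (t + δ)) := h5
            _ ≤ (1 + e) * T r * ((1 + e) * Real.exp (t * y)) :=
              mul_le_mul_of_nonneg_left h6 (by positivity)
            _ = (1 + e) ^ 2 * T r * Real.exp (t * y) := by ring
      calc κ * T (r * Real.exp y) ≤ κ * ((1 + e) ^ 2 * T r * Real.exp (t * y)) :=
            mul_le_mul_of_nonneg_left h4 hκ.le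
        _ = B * Real.exp (t * y) := by rw [hB]; ring)
  obtain ⟨M, b, hb, hUU⟩ := duality hr0 (h.dat.int r) (ε := 1) one_pos
  have hpair := cfg_pair (p := p) (by omega) c hb
  -- the error terms
  set Z : ℝ := Real.exp (-(η / 2 * a)) with hZ
  have hZ0 : 0 < Z := Real.exp_pos _
  have hZ1 : Z ≤ 1 := by
    rw [hZ, Real.exp_le_one_iff]
    have : 0 ≤ η / 2 * a := by positivity
    linarith
  have hhalf : Real.exp (-(a / 2)) ≤ Z := by
    rw [hZ]
    apply Real.exp_le_exp.mpr
    have h2 : η / 2 * a ≤ 1 / 2 * a := mul_le_mul_of_nonneg_right (by linarith) ha0.le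
    linarith
  have hs1a : (a + 1) * Real.exp (-(((p : ℝ) - 1 / 2) * a)) ≤ Z := by
    have h2 : a + 1 ≤ Real.exp a := Real.add_one_le_exp a
    calc (a + 1) * Real.exp (-(((p : ℝ) - 1 / 2) * a))
        ≤ Real.exp a * Real.exp (-(((p : ℝ) - 1 / 2) * a)) :=
          mul_le_mul_of_nonneg_right h2 (Real.exp_pos _).le
      _ = Real.exp (a + -(((p : ℝ) - 1 / 2) * a)) := (Real.exp_add _ _).symm
      _ ≤ Real.exp (-(a / 2)) := by
          apply Real.exp_le_exp.mpr
          have h3 : 3 / 2 * a ≤ ((p : ℝ) - 1 / 2) * a :=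
            mul_le_mul_of_nonneg_right (by linarith) ha0.le
          linarith
      _ ≤ Z := hhalf
  have hterm : ∀ n ∈ Finset.Icc 1 M, (fc u r n * conj (b n)).re ≤
      B * (cf p c n * conj (b n)).re +
        ((if n ≤ p then C2 * (T r * Z + Real.exp (p * (a + 1))) else 0) +
        C1 * (T r + 1) *
          (if n < p then (0 : ℝ) else Real.exp (-(((n : ℝ) - ((p : ℝ) - η / 2)) * a)))) := by
    intro n hnM
    rw [Finset.mem_Icc] at hnM
    have hb1 : ‖b n‖ ≤ 1 := norm_coef_le hb hnM.2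
    have hb0 : 0 ≤ ‖b n‖ := norm_nonneg _
    have h2 : (fc u r n * conj (b n)).re = B * (cf p c n * conj (b n)).re +
        ((fc u r n - sc p w r a n) * conj (b n)).re := by
      rw [← hc n]
      have h3 : fc u r n * conj (b n) = (B : ℂ) * (cf p c n * conj (b n)) +
          (fc u r n - (B : ℂ) * cf p c n) * conj (b n) := by ring
      rw [h3, Complex.add_re, Complex.re_ofReal_mul]
    have h4 : ((fc u r n - sc p w r a n) * conj (b n)).re ≤ ‖fc u r n - sc p w r a n‖ := by
      calc ((fc u r n - sc p w r a n) * conj (b n)).re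
          ≤ ‖(fc u r n - sc p w r a n) * conj (b n)‖ := Complex.re_le_norm _
        _ = ‖fc u r n - sc p w r a n‖ * ‖b n‖ := by rw [norm_mul, RCLike.norm_conj]
        _ ≤ ‖fc u r n - sc p w r a n‖ * 1 := mul_le_mul_of_nonneg_left hb1 (norm_nonneg _)
        _ = ‖fc u r n - sc p w r a n‖ := mul_one _
    rw [h2]
    apply add_le_add_right
    refine h4.trans ?_
    by_cases hnp : n < p
    · rw [if_pos hnp.le, if_pos hnp, mul_zero, add_zero]
      refine (hlo n hnM.1 hnp).trans ?_
      apply mul_le_mul_of_nonneg_left _ hC2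
      have hn1 : (n : ℝ) ≤ (p : ℝ) - 1 := by
        have h6 : n + 1 ≤ p := hnp
        have h7 : ((n + 1 : ℕ) : ℝ) ≤ (p : ℝ) := by exact_mod_cast h6
        push_cast at h7
        linarith
      apply add_le_add
      · apply mul_le_mul_of_nonneg_left _ hT0
        refine le_trans ?_ hhalf
        apply Real.exp_le_exp.mpr
        have h8 : 1 / 2 * a ≤ ((p : ℝ) - 1 / 2 - n) * a :=
          mul_le_mul_of_nonneg_right (by linarith) ha0.le
        linarith
      · apply Real.exp_le_exp.mpr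
        apply mul_le_mul_of_nonneg_right _ (by linarith)
        linarith
    · rw [if_neg hnp]
      have h5 := hhi n (by omega)
      have h6 : (0 : ℝ) ≤ (if n ≤ p then C2 * (T r * Z + Real.exp (p * (a + 1))) else 0) := by
        split_ifs
        · positivity
        · exact le_rfl
      linarith
  have hsum := Finset.sum_le_sum hterm
  rw [Finset.sum_add_distrib, Finset.sum_add_distrib, ← Finset.mul_sum, ← Finset.mul_sum] at hsum
  have hA1 := pf21_low (q := p) (M := M) (c := C2 * (T r * Z + Real.exp (p * (a + 1))))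
    (by positivity)
  have hA2 := pb39_geom (x := a) (s := (p : ℝ) - η / 2) ha1 p M
  have hA2' : Real.exp (-(((p : ℝ) - ((p : ℝ) - η / 2)) * a)) = Z := by
    rw [hZ]
    congr 1
    ring
  rw [hA2'] at hA2
  have hA3 : C1 * (T r + 1) * ∑ n ∈ Finset.Icc 1 M,
      (if n < p then (0 : ℝ) else Real.exp (-(((n : ℝ) - ((p : ℝ) - η / 2)) * a))) ≤
      C1 * (T r + 1) * (2 * Z) := mul_le_mul_of_nonneg_left hA2 (by positivity)
  -- the zeroth coefficient
  have hzero : (fc u r 0 * conj (b 0)).re ≤ B * (cf p c 0 * conj (b 0)).re +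
      (M0 + C2 * (T r * Z)) := by
    have hb1 : ‖b 0‖ ≤ 1 := norm_coef_le hb (Nat.zero_le _)
    have hbim : (b 0).im = 0 := hb.1
    have hre : |(b 0).re| ≤ 1 := (Complex.abs_re_le_norm _).trans hb1
    have h2 : (fc u r 0 * conj (b 0)).re = Real.circleAverage u 0 r * (b 0).re := by
      rw [pf21_fc_zero, Complex.re_ofReal_mul, Complex.conj_re]
    have h3 : B * (cf p c 0 * conj (b 0)).re = (sc p w r a 0).re * (b 0).re := by
      rw [← hc 0, Complex.mul_re, Complex.conj_re, Complex.conj_im, hbim, neg_zero, mul_zero,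
        sub_zero, Complex.re_ofReal_mul]
      ring
    rw [h2, h3]
    have h4 : Real.circleAverage u 0 r * (b 0).re - (sc p w r a 0).re * (b 0).re ≤
        |Real.circleAverage u 0 r - (sc p w r a 0).re| := by
      rw [← sub_mul]
      calc (Real.circleAverage u 0 r - (sc p w r a 0).re) * (b 0).re
          ≤ |(Real.circleAverage u 0 r - (sc p w r a 0).re) * (b 0).re| := le_abs_self _
        _ = |Real.circleAverage u 0 r - (sc p w r a 0).re| * |(b 0).re| := abs_mul _ _
        _ ≤ |Real.circleAverage u 0 r - (sc p w r a 0).re| * 1 :=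
            mul_le_mul_of_nonneg_left hre (abs_nonneg _)
        _ = _ := mul_one _
    have h5 : C2 * (T r * (a + 1) * Real.exp (-(((p : ℝ) - 1 / 2) * a))) ≤ C2 * (T r * Z) := by
      apply mul_le_mul_of_nonneg_left _ hC2
      rw [mul_assoc]
      exact mul_le_mul_of_nonneg_left hs1a hT0
    linarith
  have hNr : N r ≤ B * c.N 0 + C2 * (T r * Z) := by
    have h5 : C2 * (T r * (a + 1) * Real.exp (-(((p : ℝ) - 1 / 2) * a))) ≤ C2 * (T r * Z) := by
      apply mul_le_mul_of_nonneg_left _ hC2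
      rw [mul_assoc]
      exact mul_le_mul_of_nonneg_left hs1a hT0
    rw [hcN]
    linarith
  -- the pairing
  have hpr : pr u r M b ≤ B * ((2 * Real.pi)⁻¹ * ∫ x in (-Real.pi)..Real.pi, |c.u p x|) +
      (M0 + C2 * (T r * Z)) + 2 * (p * (C2 * (T r * Z + Real.exp (p * (a + 1)))) +
        C1 * (T r + 1) * (2 * Z)) := by
    unfold pr
    have h2 := mul_le_mul_of_nonneg_left hpair hB0.le
    rw [mul_add] at h2
    have h3 : B * (2 * ∑ n ∈ Finset.Icc 1 M, (cf p c n * conj (b n)).re) =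
        2 * (B * ∑ n ∈ Finset.Icc 1 M, (cf p c n * conj (b n)).re) := by ring
    rw [h3] at h2
    linarith
  have hFF := hone c
  have hFF' : B * c.FF p ≤ B * (2 * Φ) := by
    apply mul_le_mul_of_nonneg_left _ hB0.le
    refine hFF.trans (le_of_eq ?_)
    rw [hΦ]
    ring
  have hFFd : B * c.FF p = B * ((2 * Real.pi)⁻¹ * ∫ x in (-Real.pi)..Real.pi, |c.u p x|) +
      B * c.N 0 := by
    unfold Cfg.FF
    ring
  have hTle := h.hT r hr1
  have hBΦ : B * (2 * Φ) = 2 * (1 - γ) * T r := by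
    rw [hB, hγ]
    ring
  have hKZ : K * Z ≤ γ := haK
  -- conclusion
  have hfin : 2 * T r ≤ 2 * (1 - γ) * T r + K * Z * T r + Kc := by
    have h2 : 2 * T r ≤ UU u r + N r + 2 * C := by linarith
    have h3 : UU u r + N r ≤ B * c.FF p + (M0 + C2 * (T r * Z)) +
        2 * (p * (C2 * (T r * Z + Real.exp (p * (a + 1)))) +
        C1 * (T r + 1) * (2 * Z)) + 1 + C2 * (T r * Z) := by
      rw [hFFd]
      linarith
    have h4 : C1 * (4 * Z) ≤ 4 * C1 := by
      have := mul_le_mul_of_nonneg_left hZ1 (by positivity : (0 : ℝ) ≤ 4 * C1)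
      linarith
    have h5 : B * c.FF p + (M0 + C2 * (T r * Z)) +
        2 * (p * (C2 * (T r * Z + Real.exp (p * (a + 1)))) +
        C1 * (T r + 1) * (2 * Z)) + 1 + C2 * (T r * Z) + 2 * C =
        B * c.FF p + (2 * C2 + 2 * p * C2 + 4 * C1) * Z * T r +
          (M0 + 1 + 2 * p * C2 * Real.exp (p * (a + 1)) + 2 * C) + C1 * (4 * Z) := by ring
    rw [hK, hKc]
    linarith
  have hfin2 : γ * T r ≤ Kc := by
    have h2 : K * Z * T r ≤ γ * T r := mul_le_mul_of_nonneg_right hKZ hT0
    have h3 : 2 * (1 - γ) * T r = 2 * T r - 2 * (γ * T r) := by ring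
    linarith
  have hfin3 : Kc / γ + 1 ≤ T r := by
    have h2 : (1 : ℝ) ≤ r ^ (t - δ) := Real.one_le_rpow hr1 (by linarith)
    have h3 : 0 ≤ Kc / γ + 1 := by positivity
    calc Kc / γ + 1 = (Kc / γ + 1) * 1 := (mul_one _).symm
      _ ≤ (Kc / γ + 1) * r ^ (t - δ) := mul_le_mul_of_nonneg_left h2 h3
      _ ≤ T r := hMr
  have hfin4 : γ * (Kc / γ + 1) ≤ Kc := (mul_le_mul_of_nonneg_left hfin3 hγ0.le).trans hfin2
  rw [mul_add, mul_div_cancel₀ _ hγ0.ne', mul_one] at hfin4
  linarith

end Pool.Agent.PfB
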