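import Pool.Agent.PfB.Defs

/-! MP_f2c8f8_an, project PfB, row PB-13 -/

set_option autoImplicit false

open MeasureTheory Filter
open scoped ComplexConjugate Topology

noncomputable section

namespace Pool.Agent.PfB

/-- the integrand, as a function of a complex variable -/
def pb13_g (η : ℝ) (w : ℂ) : ℂ := Complex.exp ((η : ℂ) * w) / (1 + Complex.exp w)

theorem pb13_normSq (y s : ℝ) :
    ‖(1 : ℂ) + Complex.exp ((y : ℂ) + (s : ℂ) * Complex.I)‖ ^ 2 =
      1 + 2 * Real.exp y * Real.cos s + Real.exp y ^ 2 := by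
  rw [← Complex.normSq_eq_norm_sq, Complex.normSq_apply]
  have h1 : ((1 : ℂ) + Complex.exp ((y : ℂ) + (s : ℂ) * Complex.I)).re =
      1 + Real.exp y * Real.cos s := by
    simp [Complex.exp_re]
  have h2 : ((1 : ℂ) + Complex.exp ((y : ℂ) + (s : ℂ) * Complex.I)).im =
      Real.exp y * Real.sin s := by
    simp [Complex.exp_im]
  rw [h1, h2]
  linear_combination (Real.exp y) ^ 2 * Real.sin_sq_add_cos_sq s

theorem pb13_cos {θ s : ℝ} (hθ : |θ| < Real.pi) (hs : |s| ≤ |θ|) :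
    Real.cos θ ≤ Real.cos s := by
  rw [← Real.cos_abs θ, ← Real.cos_abs s]
  exact Real.cos_le_cos_of_nonneg_of_le_pi (abs_nonneg s) hθ.le hs

theorem pb13_cospos {θ : ℝ} (hθ : |θ| < Real.pi) : 0 < (1 + Real.cos θ) / 2 := by
  have : -1 < Real.cos θ := by
    rw [← Real.cos_abs θ, ← Real.cos_pi]
    exact Real.cos_lt_cos_of_nonneg_of_le_pi (abs_nonneg θ) le_rfl hθ
  linarith

theorem pb13_lower {θ s : ℝ} (hθ : |θ| < Real.pi) (hs : |s| ≤ |θ|) (y : ℝ) :
    (1 + Real.cos θ) / 2 * (1 + Real.exp y ^ 2) ≤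
      ‖(1 : ℂ) + Complex.exp ((y : ℂ) + (s : ℂ) * Complex.I)‖ ^ 2 := by
  rw [pb13_normSq]
  have h1 := pb13_cos hθ hs
  have h2 := pb13_cospos hθ
  have h3 : 0 < Real.exp y := Real.exp_pos y
  have h4 : Real.cos θ ≤ 1 := Real.cos_le_one θ
  have h5 : 2 * Real.exp y ≤ 1 + Real.exp y ^ 2 := by nlinarith [sq_nonneg (Real.exp y - 1)]
  nlinarith [mul_le_mul_of_nonneg_left h1 h3.le,
    mul_le_mul_of_nonneg_left h5 (sub_nonneg.2 h4), mul_pos h3 h2]

theorem pb13_den_ne {θ s : ℝ} (hθ : |θ| < Real.pi) (hs : |s| ≤ |θ|) (y : ℝ) :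
    (1 : ℂ) + Complex.exp ((y : ℂ) + (s : ℂ) * Complex.I) ≠ 0 := by
  intro h
  have h1 := pb13_lower hθ hs y
  rw [h, norm_zero] at h1
  have h2 := mul_pos (pb13_cospos hθ) (show (0 : ℝ) < 1 + Real.exp y ^ 2 by positivity)
  norm_num at h1
  linarith

theorem pb13_bound {η θ s : ℝ} (hθ : |θ| < Real.pi)
    (hs : |s| ≤ |θ|) (y : ℝ) :
    ‖pb13_g η ((y : ℂ) + (s : ℂ) * Complex.I)‖ ≤
      (Real.sqrt ((1 + Real.cos θ) / 2))⁻¹ * Real.exp (-(min η (1 - η) * |y|)) := by
  have hκ := pb13_cospos hθ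
  have hl := pb13_lower hθ hs y
  set κ : ℝ := (1 + Real.cos θ) / 2 with hκdef
  have hq : 0 < Real.sqrt κ := Real.sqrt_pos.2 hκ
  have hq2 : Real.sqrt κ ^ 2 = κ := Real.sq_sqrt hκ.le
  have hE : 0 < Real.exp y := Real.exp_pos y
  have hnum : ‖Complex.exp ((η : ℂ) * ((y : ℂ) + (s : ℂ) * Complex.I))‖ = Real.exp (η * y) := by
    rw [Complex.norm_exp]
    congr 1
    simp
  unfold pb13_g
  rw [norm_div, hnum]
  set D : ℝ := ‖(1 : ℂ) + Complex.exp ((y : ℂ) + (s : ℂ) * Complex.I)‖ with hD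
  have hD0 : 0 ≤ D := norm_nonneg _
  have hD1 : Real.sqrt κ ≤ D := by
    have : Real.sqrt κ ^ 2 ≤ D ^ 2 := by
      rw [hq2]; nlinarith [mul_nonneg hκ.le (sq_nonneg (Real.exp y))]
    exact le_trans (le_abs_self _) (abs_le_of_sq_le_sq this hD0)
  have hD2 : Real.sqrt κ * Real.exp y ≤ D := by
    have : (Real.sqrt κ * Real.exp y) ^ 2 ≤ D ^ 2 := by
      rw [mul_pow, hq2]; nlinarith
    exact le_trans (le_abs_self _) (abs_le_of_sq_le_sq this hD0)
  rcases le_total y 0 with hy | hy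
  · rw [abs_of_nonpos hy]
    have h1 : Real.exp (η * y) / D ≤ Real.exp (η * y) / Real.sqrt κ :=
      div_le_div_of_nonneg_left (Real.exp_pos _).le hq hD1
    have h2 : Real.exp (η * y) ≤ Real.exp (-(min η (1 - η) * -y)) := by
      apply Real.exp_le_exp.2
      have : min η (1 - η) ≤ η := min_le_left _ _
      nlinarith
    calc Real.exp (η * y) / D ≤ Real.exp (η * y) / Real.sqrt κ := h1
      _ = (Real.sqrt κ)⁻¹ * Real.exp (η * y) := by rw [div_eq_inv_mul]
      _ ≤ (Real.sqrt κ)⁻¹ * Real.exp (-(min η (1 - η) * -y)) :=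
          mul_le_mul_of_nonneg_left h2 (inv_nonneg.2 hq.le)
  · rw [abs_of_nonneg hy]
    have h1 : Real.exp (η * y) / D ≤ Real.exp (η * y) / (Real.sqrt κ * Real.exp y) :=
      div_le_div_of_nonneg_left (Real.exp_pos _).le (mul_pos hq hE) hD2
    have h2 : Real.exp (η * y) / (Real.sqrt κ * Real.exp y) =
        (Real.sqrt κ)⁻¹ * Real.exp (-((1 - η) * y)) := by
      have : Real.exp (-((1 - η) * y)) = Real.exp (η * y) / Real.exp y := by
        rw [← Real.exp_sub]; congr 1; ring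
      rw [this]
      field_simp
    have h3 : Real.exp (-((1 - η) * y)) ≤ Real.exp (-(min η (1 - η) * y)) := by
      apply Real.exp_le_exp.2
      have : min η (1 - η) ≤ 1 - η := min_le_right _ _
      nlinarith
    rw [h2] at h1
    exact h1.trans (mul_le_mul_of_nonneg_left h3 (inv_nonneg.2 hq.le))

theorem pb13_int_abs {m : ℝ} (hm : 0 < m) :
    Integrable (fun y : ℝ => Real.exp (-(m * |y|))) := by
  rw [← integrableOn_univ, ← Set.Iic_union_Ioi (a := (0 : ℝ))]
  refine IntegrableOn.union ?_ ?_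
  · refine (integrableOn_exp_mul_Iic hm 0).congr_fun (fun y hy => ?_) measurableSet_Iic
    have hy' : y ≤ 0 := hy
    show Real.exp (m * y) = Real.exp (-(m * |y|))
    rw [abs_of_nonpos hy']
    congr 1
    ring
  · refine (integrableOn_exp_mul_Ioi (neg_lt_zero.2 hm) 0).congr_fun (fun y hy => ?_)
      measurableSet_Ioi
    have hy' : 0 < y := hy
    show Real.exp (-m * y) = Real.exp (-(m * |y|))
    rw [abs_of_pos hy']
    congr 1
    ring

theorem pb13_meas (η s : ℝ) :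
    Measurable (fun y : ℝ => pb13_g η ((y : ℂ) + (s : ℂ) * Complex.I)) := by
  unfold pb13_g
  fun_prop

theorem pb13_integrable {η θ s : ℝ} (h0 : 0 < η) (h1 : η < 1) (hθ : |θ| < Real.pi)
    (hs : |s| ≤ |θ|) :
    Integrable (fun y : ℝ => pb13_g η ((y : ℂ) + (s : ℂ) * Complex.I)) := by
  have hm : 0 < min η (1 - η) := lt_min h0 (by linarith)
  refine Integrable.mono' ((pb13_int_abs hm).const_mul
    (Real.sqrt ((1 + Real.cos θ) / 2))⁻¹) (pb13_meas η s).aestronglyMeasurable ?_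
  exact Eventually.of_forall fun y => pb13_bound hθ hs y

theorem pb13_J_eq (η θ y : ℝ) :
    (Real.exp (η * y) : ℂ) / (1 + Complex.exp ((y : ℂ) + (θ : ℂ) * Complex.I)) =
      Complex.exp (-(η * θ * Complex.I)) * pb13_g η ((y : ℂ) + (θ : ℂ) * Complex.I) := by
  unfold pb13_g
  rw [← mul_div_assoc, ← Complex.exp_add]
  have : -((η : ℂ) * θ * Complex.I) + η * ((y : ℂ) + (θ : ℂ) * Complex.I) = ((η * y : ℝ) : ℂ) := by
    push_cast; ring
  rw [this, Complex.ofReal_exp]

theorem J_integrable {η θ : ℝ} (h0 : 0 < η) (h1 : η < 1) (hθ : |θ| < Real.pi) :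
    Integrable (fun y : ℝ => (Real.exp (η * y) : ℂ) /
      (1 + Complex.exp ((y : ℂ) + (θ : ℂ) * Complex.I))) := by
  have h := (pb13_integrable h0 h1 hθ (le_refl |θ|)).const_mul
    (Complex.exp (-(η * θ * Complex.I)))
  refine h.congr (Eventually.of_forall fun y => ?_)
  exact (pb13_J_eq η θ y).symm

theorem pb13_diff {η θ : ℝ} (hθ : |θ| < Real.pi) {z : ℂ} (hz : |z.im| ≤ |θ|) :
    DifferentiableAt ℂ (pb13_g η) z := by
  have hne : (1 : ℂ) + Complex.exp z ≠ 0 := by
    have := pb13_den_ne hθ hz z.re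
    rwa [Complex.re_add_im] at this
  unfold pb13_g
  refine DifferentiableAt.div ?_ ?_ hne
  · exact ((differentiableAt_id).const_mul (η : ℂ)).cexp
  · exact (Complex.differentiable_exp z).const_add 1

theorem pb13_mem_uIcc {θ s : ℝ} (hs : s ∈ Set.uIcc 0 θ) : |s| ≤ |θ| := by
  rcases Set.mem_uIcc.1 hs with ⟨h1, h2⟩ | ⟨h1, h2⟩
  · rw [abs_of_nonneg h1, abs_of_nonneg (h1.trans h2)]; exact h2
  · rw [abs_of_nonpos h2, abs_of_nonpos (h1.trans h2)]; linarith

theorem pb13_vert {η θ : ℝ} (h0 : 0 < η) (h1 : η < 1) (hθ : |θ| < Real.pi) (σ : ℝ)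
    (hσ : |σ| = 1) :
    Tendsto (fun T : ℝ => ∫ s : ℝ in (0 : ℝ)..θ, pb13_g η (((σ * T : ℝ) : ℂ) + (s : ℂ) * Complex.I))
      atTop (𝓝 0) := by
  have hm : 0 < min η (1 - η) := lt_min h0 (by linarith)
  rw [tendsto_zero_iff_norm_tendsto_zero]
  refine squeeze_zero' (Eventually.of_forall fun _ => norm_nonneg _)
    (g := fun T : ℝ => (Real.sqrt ((1 + Real.cos θ) / 2))⁻¹ *
      Real.exp (-(min η (1 - η) * T)) * |θ - 0|) ?_ ?_
  · filter_upwards [eventually_ge_atTop (0 : ℝ)] with T hT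
    refine intervalIntegral.norm_integral_le_of_norm_le_const fun s hs => ?_
    have h := pb13_bound (η := η) hθ (pb13_mem_uIcc (Set.uIoc_subset_uIcc hs)) (σ * T)
    rwa [abs_mul, hσ, one_mul, abs_of_nonneg hT] at h
  · have h2 : Tendsto (fun T : ℝ => Real.exp (-(min η (1 - η) * T))) atTop (𝓝 0) := by
      refine Real.tendsto_exp_atBot.comp ?_
      exact tendsto_neg_atTop_atBot.comp (tendsto_id.const_mul_atTop hm)
    have h3 := (h2.const_mul (Real.sqrt ((1 + Real.cos θ) / 2))⁻¹).mul_const |θ - 0|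
    simpa using h3

theorem pb13_shift {η θ : ℝ} (h0 : 0 < η) (h1 : η < 1) (hθ : |θ| < Real.pi) :
    ∫ y : ℝ, pb13_g η ((y : ℂ) + (θ : ℂ) * Complex.I) =
      ∫ y : ℝ, pb13_g η ((y : ℂ) + ((0 : ℝ) : ℂ) * Complex.I) := by
  have h00 : |(0 : ℝ)| ≤ |θ| := by rw [abs_zero]; exact abs_nonneg θ
  have t1 := intervalIntegral_tendsto_integral (pb13_integrable h0 h1 hθ (le_refl |θ|))
    tendsto_neg_atTop_atBot tendsto_id
  have t2 := intervalIntegral_tendsto_integral (pb13_integrable h0 h1 hθ h00)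
    tendsto_neg_atTop_atBot tendsto_id
  have t3 := pb13_vert h0 h1 hθ 1 (by simp)
  have t4 := pb13_vert h0 h1 hθ (-1) (by simp)
  have C : ∀ T : ℝ,
      (∫ y : ℝ in -T..id T, pb13_g η ((y : ℂ) + ((0 : ℝ) : ℂ) * Complex.I)) -
        (∫ y : ℝ in -T..id T, pb13_g η ((y : ℂ) + (θ : ℂ) * Complex.I)) +
        Complex.I * (∫ s : ℝ in (0 : ℝ)..θ, pb13_g η (((1 * T : ℝ) : ℂ) + (s : ℂ) * Complex.I)) -
        Complex.I * (∫ s : ℝ in (0 : ℝ)..θ, pb13_g η (((-1 * T : ℝ) : ℂ) + (s : ℂ) * Complex.I)) =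
      0 := by
    intro T
    have h := Complex.integral_boundary_rect_eq_zero_of_differentiableOn (pb13_g η)
      ((-T : ℝ) : ℂ) ((T : ℂ) + (θ : ℂ) * Complex.I) ?_
    · have e1 : (((-T : ℝ) : ℂ)).re = -T := Complex.ofReal_re _
      have e2 : (((-T : ℝ) : ℂ)).im = 0 := Complex.ofReal_im _
      have e3 : ((T : ℂ) + (θ : ℂ) * Complex.I).re = T := by simp
      have e4 : ((T : ℂ) + (θ : ℂ) * Complex.I).im = θ := by simp
      rw [e1, e2, e3, e4] at h
      simp only [smul_eq_mul] at h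
      rw [one_mul, neg_one_mul]
      exact h
    · intro z hz
      have hz2 : z.im ∈ Set.uIcc 0 θ := by
        have := hz.2
        simpa using this
      exact (pb13_diff hθ (pb13_mem_uIcc hz2)).differentiableWithinAt
  have t5 := ((t2.sub t1).add (t3.const_mul Complex.I)).sub (t4.const_mul Complex.I)
  have t6 : Tendsto (fun _ : ℝ => (0 : ℂ)) atTop (𝓝 0) := tendsto_const_nhds
  have t7 := tendsto_nhds_unique (t5.congr C) t6
  have t8 : (∫ y : ℝ, pb13_g η ((y : ℂ) + ((0 : ℝ) : ℂ) * Complex.I)) -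
      ∫ y : ℝ, pb13_g η ((y : ℂ) + (θ : ℂ) * Complex.I) = 0 := by
    rw [← t7]; ring
  exact (sub_eq_zero.1 t8).symm

/-- the beta integral -/
theorem pb13_beta (α β : ℝ) (hα : 0 < α) (hβ : 0 < β) :
    ∫ x in (0 : ℝ)..1, x ^ (α - 1) * (1 - x) ^ (β - 1) =
      Real.Gamma α * Real.Gamma β / Real.Gamma (α + β) := by
  have h := ProbabilityTheory.beta_eq_betaIntegralReal α β hα hβ
  rw [ProbabilityTheory.beta] at h
  rw [h, Complex.betaIntegral, intervalIntegral.integral_of_le (by norm_num),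
    intervalIntegral.integral_of_le (by norm_num), ← RCLike.re_to_complex, ← integral_re]
  · refine (setIntegral_congr_fun measurableSet_Ioc fun x hx => ?_)
    obtain ⟨hx1, hx2⟩ := hx
    norm_cast
    rw [← Complex.ofReal_cpow, ← Complex.ofReal_cpow, RCLike.re_to_complex,
        Complex.re_mul_ofReal, Complex.ofReal_re]
    all_goals linarith
  · have hc := Complex.betaIntegral_convergent (u := (α : ℂ)) (v := (β : ℂ)) (by simpa) (by simpa)
    rw [intervalIntegrable_iff_integrableOn_Ioc_of_le (by simp), IntegrableOn] at hc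
    exact hc

/-- the logistic map -/
def pb13_L (y : ℝ) : ℝ := Real.exp y / (1 + Real.exp y)

theorem pb13_L_image : pb13_L '' Set.univ = Set.Ioo (0 : ℝ) 1 := by
  ext x
  constructor
  · rintro ⟨y, _, rfl⟩
    have h := Real.exp_pos y
    unfold pb13_L
    constructor
    · positivity
    · rw [div_lt_one (by positivity)]; linarith
  · rintro ⟨h0, h1⟩
    have h1' : 0 < 1 - x := by linarith
    refine ⟨Real.log (x / (1 - x)), Set.mem_univ _, ?_⟩
    unfold pb13_L
    rw [Real.exp_log (div_pos h0 h1')]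
    field_simp
    ring

theorem pb13_L_inj : Set.InjOn pb13_L Set.univ := by
  intro a _ b _ h
  unfold pb13_L at h
  have ha := Real.exp_pos a
  have hb := Real.exp_pos b
  rw [div_eq_div_iff (by positivity) (by positivity)] at h
  have : Real.exp a = Real.exp b := by linarith
  exact Real.exp_injective this

theorem pb13_L_deriv (y : ℝ) :
    HasDerivAt pb13_L (Real.exp y / (1 + Real.exp y) ^ 2) y := by
  have h1 : HasDerivAt (fun y => Real.exp y) (Real.exp y) y := Real.hasDerivAt_exp y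
  have h2 : HasDerivAt (fun y => 1 + Real.exp y) (Real.exp y) y := h1.const_add 1
  have h3 := h1.div h2 (by positivity : (1 : ℝ) + Real.exp y ≠ 0)
  have h4 : (Real.exp y * (1 + Real.exp y) - Real.exp y * Real.exp y) / (1 + Real.exp y) ^ 2 =
      Real.exp y / (1 + Real.exp y) ^ 2 := by
    congr 1; ring
  rw [h4] at h3
  exact h3

theorem pb13_real {η : ℝ} (h0 : 0 < η) (h1 : η < 1) :
    ∫ y : ℝ, Real.exp (η * y) / (1 + Real.exp y) = Real.pi / Real.sin (Real.pi * η) := by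
  have hb := pb13_beta η (1 - η) h0 (by linarith)
  rw [intervalIntegral.integral_of_le (by norm_num), integral_Ioc_eq_integral_Ioo,
    ← pb13_L_image, integral_image_eq_integral_abs_deriv_smul MeasurableSet.univ
      (fun y _ => (pb13_L_deriv y).hasDerivWithinAt) pb13_L_inj, setIntegral_univ] at hb
  rw [show η + (1 - η) = 1 by ring, Real.Gamma_one, div_one, Real.Gamma_mul_Gamma_one_sub] at hb
  rw [← hb]
  refine integral_congr_ae (Eventually.of_forall fun y => ?_)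
  have hE := Real.exp_pos y
  have hE1 : 0 < 1 + Real.exp y := by positivity
  show Real.exp (η * y) / (1 + Real.exp y) =
    |Real.exp y / (1 + Real.exp y) ^ 2| • (pb13_L y ^ (η - 1) * (1 - pb13_L y) ^ (1 - η - 1))
  rw [abs_of_pos (by positivity), smul_eq_mul]
  have e1 : 1 - pb13_L y = (1 + Real.exp y)⁻¹ := by
    unfold pb13_L; field_simp; ring
  have e2 : pb13_L y ^ (η - 1) = Real.exp ((η - 1) * y) / (1 + Real.exp y) ^ (η - 1) := by
    unfold pb13_L
    rw [Real.div_rpow hE.le hE1.le, ← Real.exp_mul, mul_comm y]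
  have e3 : (1 - pb13_L y) ^ (1 - η - 1) = (1 + Real.exp y) ^ η := by
    rw [e1, Real.inv_rpow hE1.le, ← Real.rpow_neg hE1.le]
    congr 1; ring
  have e4 : (1 + Real.exp y) ^ η = (1 + Real.exp y) ^ (η - 1) * (1 + Real.exp y) := by
    rw [Real.rpow_sub_one hE1.ne']; field_simp
  have e5 : Real.exp (η * y) = Real.exp y * Real.exp ((η - 1) * y) := by
    rw [← Real.exp_add]; congr 1; ring
  rw [e2, e3, e4, e5]
  have hp : 0 < (1 + Real.exp y) ^ (η - 1) := Real.rpow_pos_of_pos hE1 _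
  field_simp

theorem J_integral {η θ : ℝ} (h0 : 0 < η) (h1 : η < 1) (hθ : |θ| < Real.pi) :
    ∫ y : ℝ, (Real.exp (η * y) : ℂ) / (1 + Complex.exp ((y : ℂ) + (θ : ℂ) * Complex.I)) =
      ((Real.pi / Real.sin (Real.pi * η) : ℝ) : ℂ) * Complex.exp (-(η * θ * Complex.I)) := by
  have e1 : ∀ y : ℝ, (Real.exp (η * y) : ℂ) / (1 + Complex.exp ((y : ℂ) + (θ : ℂ) * Complex.I)) =
      Complex.exp (-(η * θ * Complex.I)) * pb13_g η ((y : ℂ) + (θ : ℂ) * Complex.I) :=
    pb13_J_eq η θ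
  simp_rw [e1]
  rw [integral_const_mul, pb13_shift h0 h1 hθ, ← pb13_real h0 h1, ← integral_complex_ofReal,
    mul_comm]
  congr 1
  refine integral_congr_ae (Eventually.of_forall fun y => ?_)
  show pb13_g η ((y : ℂ) + ((0 : ℝ) : ℂ) * Complex.I) =
    ((Real.exp (η * y) / (1 + Real.exp y) : ℝ) : ℂ)
  unfold pb13_g
  push_cast
  rw [zero_mul, add_zero]

end Pool.Agent.PfB
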