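import Pool.Agent.PfB.Ker

/-! MP_f2c8f8_an, project PfB, row PB-4 -/

set_option autoImplicit false

open MeasureTheory Filter
open scoped ComplexConjugate Topology

noncomputable section

namespace Pool.Agent.PfB

/-- the root of unity -/
theorem pb4_root {p : ℕ} (hp : 1 ≤ p) :
    IsPrimitiveRoot (Complex.exp (2 * Real.pi * Complex.I / p)) p :=
  Complex.isPrimitiveRoot_exp p (by omega)

theorem pb4_exp (p : ℕ) (x b : ℝ) (m : ℕ) :
    Complex.exp (-(x : ℂ) + ((b + 2 * Real.pi * m / p : ℝ) : ℂ) * Complex.I) =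
      Complex.exp (2 * Real.pi * Complex.I / p) ^ m * Complex.exp (-(x : ℂ) + (b : ℂ) * Complex.I) := by
  rw [← Complex.exp_nat_mul, ← Complex.exp_add]
  congr 1
  push_cast
  ring

theorem pb4_prod {p : ℕ} (hp : 1 ≤ p) (x b : ℝ) :
    ∏ m ∈ Finset.range p, ((1 : ℂ) +
      Complex.exp (-(x : ℂ) + ((b + 2 * Real.pi * m / p : ℝ) : ℂ) * Complex.I)) =
      1 - (-Complex.exp (-(x : ℂ) + (b : ℂ) * Complex.I)) ^ p := by
  have h := X_pow_sub_C_eq_prod (pb4_root hp)
    (α := -Complex.exp (-(x : ℂ) + (b : ℂ) * Complex.I)) (by omega : 0 < p) rfl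
  have h2 := congrArg (Polynomial.eval 1) h
  rw [Polynomial.eval_prod] at h2
  simp only [Polynomial.eval_sub, Polynomial.eval_pow, Polynomial.eval_X, Polynomial.eval_C,
    one_pow] at h2
  rw [h2]
  refine Finset.prod_congr rfl fun m _ => ?_
  rw [pb4_exp p]
  ring

theorem pb4_cos {p l : ℕ} (hl : 1 ≤ l) (hlp : l < p) (b : ℝ) :
    ∑ m ∈ Finset.range p, Real.cos (l * (b + 2 * Real.pi * m / p)) = 0 := by
  have hp : 1 ≤ p := by omega
  set r : ℂ := Complex.exp (2 * Real.pi * Complex.I / p) ^ l with hr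
  have hr1 : r ≠ 1 := (pb4_root hp).pow_ne_one_of_pos_of_lt (by omega) hlp
  have hrp : r ^ p = 1 := by
    rw [hr, ← pow_mul, mul_comm l p, pow_mul, (pb4_root hp).pow_eq_one, one_pow]
  have hs : ∑ m ∈ Finset.range p, r ^ m = 0 := by
    have h1 := geom_sum_mul r p
    rw [hrp, sub_self] at h1
    rcases mul_eq_zero.1 h1 with h2 | h2
    · exact h2
    · exact absurd (sub_eq_zero.1 h2) hr1
  have h2 : ∀ m : ℕ, Real.cos (l * (b + 2 * Real.pi * m / p)) =
      (Complex.exp ((l : ℂ) * b * Complex.I) * r ^ m).re := by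
    intro m
    have h3 : Complex.exp ((l : ℂ) * b * Complex.I) * r ^ m =
        Complex.exp (((l * (b + 2 * Real.pi * m / p) : ℝ) : ℂ) * Complex.I) := by
      rw [hr, ← pow_mul, ← Complex.exp_nat_mul, ← Complex.exp_add]
      congr 1
      push_cast
      ring
    rw [h3, Complex.exp_ofReal_mul_I_re]
  rw [Finset.sum_congr rfl fun m _ => h2 m, ← Complex.re_sum, ← Finset.mul_sum, hs, mul_zero,
    Complex.zero_re]

theorem pb4_ne {x : ℝ} (hx : x ≠ 0) (b : ℝ) :
    (1 : ℂ) + Complex.exp (-(x : ℂ) + (b : ℂ) * Complex.I) ≠ 0 := by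
  intro h
  have h1 : Complex.exp (-(x : ℂ) + (b : ℂ) * Complex.I) = -1 := by linear_combination h
  have h2 := congrArg norm h1
  rw [Complex.norm_exp, norm_neg, norm_one] at h2
  simp only [Complex.add_re, Complex.neg_re, Complex.ofReal_re, Complex.mul_re, Complex.I_re,
    mul_zero, Complex.ofReal_im, Complex.I_im, mul_one, sub_zero, add_zero] at h2
  rw [Real.exp_eq_one_iff] at h2
  exact hx (by linarith)

/-- half of the grid -/
theorem pb4_half {p : ℕ} (hp : 1 ≤ p) {x : ℝ} (hx : x ≠ 0) (b : ℝ) :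
    ∑ m ∈ Finset.range p, KK p x (b + 2 * Real.pi * m / p) =
      Real.log ‖1 - (-Complex.exp (-(x : ℂ) + (b : ℂ) * Complex.I)) ^ p‖ := by
  unfold KK
  rw [Finset.sum_add_distrib, Finset.sum_comm]
  have h1 : ∑ j ∈ Finset.Icc 1 (p - 1), ∑ m ∈ Finset.range p,
      (-1 : ℝ) ^ j * Real.exp (-(j * x)) * Real.cos (j * (b + 2 * Real.pi * m / p)) / j = 0 := by
    refine Finset.sum_eq_zero fun j hj => ?_
    rw [Finset.mem_Icc] at hj
    rw [← Finset.sum_div, ← Finset.mul_sum, pb4_cos hj.1 (by omega), mul_zero, zero_div]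
  rw [h1, add_zero, ← pb4_prod hp x b, norm_prod, Real.log_prod]
  intro m _
  exact norm_ne_zero_iff.2 (pb4_ne hx _)

theorem pb4_log (p : ℕ) (x b : ℝ) :
    Real.log ‖1 - (-Complex.exp (-(x : ℂ) + (b : ℂ) * Complex.I)) ^ p‖ =
      1 / 2 * Real.log (1 + Real.exp (-(p * x)) ^ 2 -
        2 * (-1) ^ p * Real.exp (-(p * x)) * Real.cos (p * b)) := by
  have h1 : (-Complex.exp (-(x : ℂ) + (b : ℂ) * Complex.I)) ^ p =
      ((((-1) ^ p * Real.exp (-(p * x)) : ℝ)) : ℂ) *
        Complex.exp (((p * b : ℝ) : ℂ) * Complex.I) := by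
    rw [neg_pow, ← Complex.exp_nat_mul]
    push_cast
    rw [mul_assoc, ← Complex.exp_add]
    congr 2
    ring
  have h2 : ‖1 - (-Complex.exp (-(x : ℂ) + (b : ℂ) * Complex.I)) ^ p‖ ^ 2 =
      1 + Real.exp (-(p * x)) ^ 2 - 2 * (-1) ^ p * Real.exp (-(p * x)) * Real.cos (p * b) := by
    rw [← Complex.normSq_eq_norm_sq, h1, Complex.normSq_apply]
    simp only [Complex.sub_re, Complex.one_re, Complex.sub_im, Complex.one_im,
      Complex.re_ofReal_mul, Complex.im_ofReal_mul, Complex.exp_ofReal_mul_I_re,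
      Complex.exp_ofReal_mul_I_im]
    have h3 : ((-1 : ℝ) ^ p) ^ 2 = 1 := by rw [← pow_mul, mul_comm, pow_mul]; simp
    have h4 := Real.sin_sq_add_cos_sq (p * b)
    linear_combination (Real.exp (-(p * x)) ^ 2) * h3 +
      (((-1 : ℝ) ^ p) ^ 2 * Real.exp (-(p * x)) ^ 2) * h4
  rw [← h2, Real.log_pow]
  push_cast
  ring

theorem pb4_range (p : ℕ) (g : ℕ → ℝ) :
    ∑ i ∈ Finset.range (2 * p), g i = ∑ m ∈ Finset.range p, (g (2 * m) + g (2 * m + 1)) := by
  induction p with
  | zero => simp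
  | succ p ih =>
    rw [Finset.sum_range_succ, ← ih, show 2 * (p + 1) = 2 * p + 1 + 1 by ring,
      Finset.sum_range_succ, Finset.sum_range_succ]
    ring

theorem pb4_sj_even (m : ℤ) : sj (2 * m) = 1 := by
  unfold sj
  rw [zpow_mul]
  norm_num

theorem pb4_sj_odd (m : ℤ) : sj (2 * m + 1) = -1 := by
  unfold sj
  rw [zpow_add₀ (by norm_num), zpow_mul]
  norm_num

theorem grid_sum {p : ℕ} (hp : 1 ≤ p) {x : ℝ} (hx : x ≠ 0) (a : ℝ) :
    ∑ j ∈ JJ p, sg p * sj j * KK p x (th p j - a) =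
      1 / 2 * Real.log ((Real.cosh (p * x) + Real.sin (p * a)) /
        (Real.cosh (p * x) - Real.sin (p * a))) := by
  have hp0 : (p : ℝ) ≠ 0 := by
    have : (1 : ℝ) ≤ p := by exact_mod_cast hp
    linarith
  set f : ℤ → ℝ := fun j => sg p * sj j * KK p x (th p j - a) with hf
  have hper : ∀ j n : ℤ, f (j + 2 * p * n) = f j := by
    intro j n
    have h1 : sj (j + 2 * p * n) = sj j := by
      unfold sj
      rw [zpow_add₀ (by norm_num), mul_assoc, zpow_mul]
      norm_num
    have h2 : th p (j + 2 * p * n) - a = th p j - a + 2 * Real.pi * n := by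
      unfold th
      push_cast
      field_simp
      ring
    simp only [hf]
    rw [h1, h2, KK_per]
  have hsum : ∑ j ∈ JJ p, f j = ∑ m ∈ Finset.range p, (f (2 * m) + f (2 * m + 1)) := by
    rw [← sum_JJ_shift hper p]
    have h1 : ∑ j ∈ JJ p, f (j + p) = ∑ i ∈ Finset.range (2 * p), f (i : ℤ) := by
      unfold JJ
      refine Finset.sum_bij' (fun j _ => (j + p).toNat) (fun i _ => (i : ℤ) - p) ?_ ?_ ?_ ?_ ?_
      · intro j hj
        rw [Finset.mem_Ico] at hj
        rw [Finset.mem_range]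
        omega
      · intro i hi
        rw [Finset.mem_range] at hi
        rw [Finset.mem_Ico]
        omega
      · intro j hj
        rw [Finset.mem_Ico] at hj
        omega
      · intro i hi
        omega
      · intro j hj
        rw [Finset.mem_Ico] at hj
        congr 1
        omega
    rw [h1, pb4_range p (fun i => f (i : ℤ))]
    refine Finset.sum_congr rfl fun m _ => ?_
    push_cast
    rfl
  rw [hsum]
  have h0 : ∀ m : ℕ, f (2 * m) + f (2 * m + 1) =
      sg p * (KK p x (th p 0 - a + 2 * Real.pi * m / p) -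
        KK p x (th p 1 - a + 2 * Real.pi * m / p)) := by
    intro m
    have e1 : th p (2 * m) - a = th p 0 - a + 2 * Real.pi * m / p := by
      unfold th
      push_cast
      field_simp
      ring
    have e2 : th p (2 * m + 1) - a = th p 1 - a + 2 * Real.pi * m / p := by
      unfold th
      push_cast
      field_simp
      ring
    simp only [hf]
    rw [pb4_sj_even, pb4_sj_odd, e1, e2]
    ring
  rw [Finset.sum_congr rfl fun m _ => h0 m, ← Finset.mul_sum, Finset.sum_sub_distrib,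
    pb4_half hp hx, pb4_half hp hx, pb4_log, pb4_log]
  have c0 : Real.cos (p * (th p 0 - a)) = Real.sin (p * a) := by
    rw [← Real.cos_pi_div_two_sub]
    congr 1
    unfold th
    push_cast
    field_simp
    ring
  have c1 : Real.cos (p * (th p 1 - a)) = -Real.sin (p * a) := by
    rw [← Real.cos_pi_div_two_sub, ← Real.cos_add_pi]
    congr 1
    unfold th
    push_cast
    field_simp
    ring
  rw [c0, c1]
  set S := Real.sin (p * a) with hS
  set E := Real.exp (-(p * x)) with hE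
  have hE0 : 0 < E := Real.exp_pos _
  have hcosh : 2 * E * Real.cosh (p * x) = 1 + E ^ 2 := by
    rw [Real.cosh_eq, hE]
    have : Real.exp (-(p * x)) * Real.exp (p * x) = 1 := by
      rw [← Real.exp_add]; simp
    linear_combination this
  have hc1 : 1 < Real.cosh (p * x) := Real.one_lt_cosh.2 (mul_ne_zero hp0 hx)
  have hS1 : S ≤ 1 := Real.sin_le_one _
  have hS2 : -1 ≤ S := Real.neg_one_le_sin _
  have hA : 0 < Real.cosh (p * x) + S := by linarith
  have hB : 0 < Real.cosh (p * x) - S := by linarith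
  have eA : 1 + E ^ 2 + 2 * E * S = 2 * E * (Real.cosh (p * x) + S) := by
    linear_combination -hcosh
  have eB : 1 + E ^ 2 - 2 * E * S = 2 * E * (Real.cosh (p * x) - S) := by
    linear_combination -hcosh
  have hlog : Real.log ((Real.cosh (p * x) + S) / (Real.cosh (p * x) - S)) =
      Real.log (1 + E ^ 2 + 2 * E * S) - Real.log (1 + E ^ 2 - 2 * E * S) := by
    rw [eA, eB, Real.log_mul (by positivity) hA.ne', Real.log_mul (by positivity) hB.ne',
      Real.log_div hA.ne' hB.ne']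
    ring
  rw [hlog]
  rcases Nat.even_or_odd p with h | h
  · have s1 : (-1 : ℝ) ^ p = 1 := h.neg_one_pow
    have s2 : sg p = -1 := by unfold sg; rw [pow_succ, s1]; ring
    rw [s1, s2]
    have e1 : 1 + E ^ 2 - 2 * 1 * E * S = 1 + E ^ 2 - 2 * E * S := by ring
    have e2 : 1 + E ^ 2 - 2 * 1 * E * -S = 1 + E ^ 2 + 2 * E * S := by ring
    rw [e1, e2]
    ring
  · have s1 : (-1 : ℝ) ^ p = -1 := h.neg_one_pow
    have s2 : sg p = 1 := by unfold sg; rw [pow_succ, s1]; ring
    rw [s1, s2]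
    have e1 : 1 + E ^ 2 - 2 * -1 * E * S = 1 + E ^ 2 + 2 * E * S := by ring
    have e2 : 1 + E ^ 2 - 2 * -1 * E * -S = 1 + E ^ 2 - 2 * E * S := by ring
    rw [e1, e2]
    ring

end Pool.Agent.PfB
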