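import Pool.Agent.PfB.Ker
import Pool.Agent.PfB.Grid

/-! MP_f2c8f8_an, project PfB, row PB-5 -/

set_option autoImplicit false

open MeasureTheory Filter
open scoped ComplexConjugate Topology

noncomputable section

namespace Pool.Agent.PfB

/-- Derivative of an arc pairing of a shifted continuous function. -/
theorem pb5_ar_deriv {F : ℝ → ℝ} (hF : Continuous F) (p : ℕ) (a : ℝ) :
    HasDerivAt (fun a => ar p (fun t => F (t - a)))
      (-2 * F (-a) + F (-(Real.pi / (2 * p)) - a) + F (Real.pi / (2 * p) - a)) a := by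
  set h : ℝ := Real.pi / (2 * p) with hh
  have hΦ : ∀ s, HasDerivAt (fun s => ∫ t in (0 : ℝ)..s, F t) (F s) s := fun s =>
    intervalIntegral.integral_hasDerivAt_right (hF.intervalIntegrable _ _)
      hF.aestronglyMeasurable.stronglyMeasurableAtFilter hF.continuousAt
  have hsh : ∀ c : ℝ, HasDerivAt (fun a => ∫ t in (0 : ℝ)..(c - a), F t) (-F (c - a)) a := by
    intro c
    have h1 : HasDerivAt (fun a : ℝ => c - a) (-1) a := by
      simpa using (hasDerivAt_id a).const_sub c
    have h2 := (hΦ (c - a)).comp a h1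
    exact h2.congr_deriv (by ring)
  have hint : ∀ u v : ℝ, (∫ t in u..v, F t) = (∫ t in (0 : ℝ)..v, F t) - ∫ t in (0 : ℝ)..u, F t :=
    fun u v => (intervalIntegral.integral_interval_sub_left (hF.intervalIntegrable _ _)
      (hF.intervalIntegrable _ _)).symm
  have heq : (fun a => ar p (fun t => F (t - a))) = fun a =>
      ((∫ t in (0 : ℝ)..(0 - a), F t) - ∫ t in (0 : ℝ)..(-h - a), F t) -
        ((∫ t in (0 : ℝ)..(h - a), F t) - ∫ t in (0 : ℝ)..(0 - a), F t) := by
    funext a
    rw [ar, intervalIntegral.integral_comp_sub_right, intervalIntegral.integral_comp_sub_right,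
      hint, hint (0 - a)]
  rw [heq]
  have := ((hsh 0).sub (hsh (-h))).sub ((hsh h).sub (hsh 0))
  refine this.congr_deriv ?_
  rw [zero_sub]
  ring

theorem pb5_th_add {p : ℕ} (hp : 1 ≤ p) (j : ℤ) :
    th p j + Real.pi / (2 * p) = Real.pi * ((j : ℝ) + 1) / p := by
  have : (p : ℝ) ≠ 0 := by positivity
  rw [th]
  field_simp
  ring

theorem pb5_th_sub {p : ℕ} (hp : 1 ≤ p) (j : ℤ) :
    th p j - Real.pi / (2 * p) = Real.pi * (j : ℝ) / p := by
  have : (p : ℝ) ≠ 0 := by positivity
  rw [th]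
  field_simp
  ring

theorem pb5_sj_succ (j : ℤ) : sj (j + 1) = -sj j := by
  rw [sj, sj, zpow_add₀ (by norm_num), zpow_one]
  ring

theorem pb5_sj_add_even (j m : ℤ) : sj (j + 2 * m) = sj j := by
  rw [sj, sj, zpow_add₀ (by norm_num), zpow_mul]
  norm_num

/-- telescoping over a period -/
theorem pb5_tele {p : ℕ} (hp : 1 ≤ p) (x a : ℝ) :
    ∑ j ∈ JJ p, sj j * (KK p x (Real.pi * (j : ℝ) / p - a) +
      KK p x (Real.pi * ((j : ℝ) + 1) / p - a)) = 0 := by
  have hp0 : (p : ℝ) ≠ 0 := by positivity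
  let g : ℤ → ℝ := fun j => sj j * KK p x (Real.pi * (j : ℝ) / p - a)
  have hg : ∀ j n : ℤ, g (j + 2 * p * n) = g j := by
    intro j n
    simp only [g]
    have e1 : sj (j + 2 * p * n) = sj j := by
      rw [mul_assoc, pb5_sj_add_even]
    have e2 : Real.pi * ((j + 2 * p * n : ℤ) : ℝ) / p - a =
        (Real.pi * (j : ℝ) / p - a) + 2 * Real.pi * n := by
      push_cast
      field_simp
      ring
    rw [e1, e2, KK_per]
  have h1 := sum_JJ_shift hg 1
  have h2 : ∀ j : ℤ, sj j * (KK p x (Real.pi * (j : ℝ) / p - a) +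
      KK p x (Real.pi * ((j : ℝ) + 1) / p - a)) = g j - g (j + 1) := by
    intro j
    simp only [g]
    rw [pb5_sj_succ]
    push_cast
    ring
  rw [Finset.sum_congr rfl (fun j _ => h2 j), Finset.sum_sub_distrib, h1, sub_self]

theorem Ph_deriv {p : ℕ} (hp : 1 ≤ p) {x : ℝ} (hx : x ≠ 0) (a : ℝ) :
    HasDerivAt (fun a => Ph p x a)
      (-(1 / (2 * Real.pi)) * Real.log ((Real.cosh (p * x) + Real.sin (p * a)) /
        (Real.cosh (p * x) - Real.sin (p * a)))) a := by
  have hc : ∀ j : ℤ, Continuous fun s => sg p * sj j * KK p x (th p j + s) := fun j =>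
    continuous_const.mul ((KK_cont hx).comp (continuous_const.add continuous_id))
  have h1 : HasDerivAt (fun a => ∑ j ∈ JJ p, ar p (fun t => sg p * sj j * KK p x (th p j + t - a)))
      (∑ j ∈ JJ p, (-2 * (sg p * sj j * KK p x (th p j + -a)) +
        sg p * sj j * KK p x (th p j + (-(Real.pi / (2 * p)) - a)) +
        sg p * sj j * KK p x (th p j + (Real.pi / (2 * p) - a)))) a := by
    apply HasDerivAt.fun_sum
    intro j _
    have h2 := pb5_ar_deriv (hc j) p a
    simpa only [add_sub_assoc] using h2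
  have h3 := h1.const_mul (2 * Real.pi)⁻¹
  have h4 : (fun a => Ph p x a) = fun a => (2 * Real.pi)⁻¹ *
      ∑ j ∈ JJ p, ar p (fun t => sg p * sj j * KK p x (th p j + t - a)) := rfl
  rw [h4]
  refine h3.congr_deriv ?_
  have h5 : ∑ j ∈ JJ p, (-2 * (sg p * sj j * KK p x (th p j + -a)) +
        sg p * sj j * KK p x (th p j + (-(Real.pi / (2 * p)) - a)) +
        sg p * sj j * KK p x (th p j + (Real.pi / (2 * p) - a))) =
      -2 * ∑ j ∈ JJ p, sg p * sj j * KK p x (th p j - a) +
        sg p * ∑ j ∈ JJ p, sj j * (KK p x (Real.pi * (j : ℝ) / p - a) +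
          KK p x (Real.pi * ((j : ℝ) + 1) / p - a)) := by
    rw [Finset.mul_sum, Finset.mul_sum, ← Finset.sum_add_distrib]
    apply Finset.sum_congr rfl
    intro j _
    have e1 : th p j + (-(Real.pi / (2 * p)) - a) = Real.pi * (j : ℝ) / p - a := by
      rw [← pb5_th_sub hp]; ring
    have e2 : th p j + (Real.pi / (2 * p) - a) = Real.pi * ((j : ℝ) + 1) / p - a := by
      rw [← pb5_th_add hp]; ring
    rw [e1, e2, sub_eq_add_neg (th p j) a]
    ring
  rw [h5, pb5_tele hp, grid_sum hp hx]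
  have hpi : Real.pi ≠ 0 := Real.pi_ne_zero
  field_simp
  ring

theorem Ph_anti {p : ℕ} (hp : 1 ≤ p) (x a : ℝ) : Ph p x (a + Real.pi / p) = -Ph p x a := by
  have hp0 : (p : ℝ) ≠ 0 := by positivity
  let g : ℤ → ℝ := fun j => ar p (fun t => sg p * sj j * KK p x (th p j + t - a))
  have hg : ∀ j n : ℤ, g (j + 2 * p * n) = g j := by
    intro j n
    simp only [g]
    congr 1
    funext t
    have e1 : sj (j + 2 * p * n) = sj j := by
      rw [mul_assoc, pb5_sj_add_even]
    have e2 : th p (j + 2 * p * n) + t - a = (th p j + t - a) + 2 * Real.pi * n := by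
      rw [th, th]
      push_cast
      field_simp
      ring
    rw [e1, e2, KK_per]
  have h1 := sum_JJ_shift hg (-1)
  have har : ∀ f : ℝ → ℝ, ar p (fun t => -f t) = -ar p f := by
    intro f
    rw [ar, ar, intervalIntegral.integral_neg, intervalIntegral.integral_neg]
    ring
  have h2 : ∀ j : ℤ, ar p (fun t => sg p * sj j * KK p x (th p j + t - (a + Real.pi / p))) =
      -g (j + -1) := by
    intro j
    simp only [g]
    rw [← har]
    congr 1
    funext t
    have e1 : sj j = -sj (j + -1) := by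
      have := pb5_sj_succ (j + -1)
      rw [neg_add_cancel_right] at this
      exact this
    have e2 : th p j + t - (a + Real.pi / p) = th p (j + -1) + t - a := by
      rw [th, th]
      push_cast
      field_simp
      ring
    rw [e2]
    rw [e1]
    ring
  rw [Ph, Ph, Finset.sum_congr rfl (fun j _ => h2 j), Finset.sum_neg_distrib, h1]
  ring

theorem pb5_log {s : ℝ} (h0 : 0 ≤ s) (h1 : s < 1) : 2 * s ≤ Real.log ((1 + s) / (1 - s)) := by
  have h2 := Real.hasSum_log_sub_log_of_abs_lt_one (x := s) (by rw [abs_of_nonneg h0]; exact h1)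
  rw [Real.log_div (by linarith) (by linarith)]
  have h3 := sum_le_hasSum {0} (fun k _ => by positivity) h2
  simpa using h3

theorem pb5_log' {C S : ℝ} (hC : 0 < C) (h0 : 0 ≤ S) (h1 : S < C) :
    2 * (S / C) ≤ Real.log ((C + S) / (C - S)) := by
  have h2 := pb5_log (s := S / C) (by positivity) (by rwa [div_lt_one hC])
  have h3 : (1 + S / C) / (1 - S / C) = (C + S) / (C - S) := by
    have : C - S ≠ 0 := by linarith
    have : 1 - S / C ≠ 0 := by
      have := (div_lt_one hC).2 h1
      linarith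
    field_simp
  rwa [h3] at h2

theorem pb5_log'' {C S : ℝ} (hC : 0 < C) (h0 : S ≤ 0) (h1 : -C < S) :
    Real.log ((C + S) / (C - S)) ≤ 2 * (S / C) := by
  have h2 := pb5_log' (S := -S) hC (by linarith) (by linarith)
  have h3 : (C + -S) / (C - -S) = ((C + S) / (C - S))⁻¹ := by
    rw [inv_div]
    congr 1
    ring
  rw [h3, Real.log_inv, neg_div] at h2
  linarith

/-- the comparison function -/
def pb5D (p : ℕ) (x a : ℝ) : ℝ :=
  Ph p x 0 - Ph p x a - (Real.pi * p)⁻¹ * ((Real.cosh (p * x))⁻¹ * (1 - Real.cos (p * a)))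

theorem pb5_D_deriv {p : ℕ} (hp : 1 ≤ p) {x : ℝ} (hx : x ≠ 0) (a : ℝ) :
    HasDerivAt (pb5D p x) (1 / (2 * Real.pi) *
      (Real.log ((Real.cosh (p * x) + Real.sin (p * a)) /
        (Real.cosh (p * x) - Real.sin (p * a))) -
        2 * (Real.sin (p * a) / Real.cosh (p * x)))) a := by
  have h1 := Ph_deriv hp hx a
  have h2 : HasDerivAt (fun a : ℝ => Real.cos (p * a)) (-Real.sin (p * a) * (p * 1)) a :=
    (Real.hasDerivAt_cos _).comp a ((hasDerivAt_id a).const_mul (p : ℝ))
  have h3 := ((((hasDerivAt_const a (Ph p x 0)).sub h1)).sub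
    (((h2.const_sub 1).const_mul (Real.cosh (p * x))⁻¹).const_mul (Real.pi * p)⁻¹))
  have h4 : pb5D p x = (fun a => Ph p x 0 - Ph p x a -
      (Real.pi * p)⁻¹ * ((Real.cosh (p * x))⁻¹ * (1 - Real.cos (p * a)))) := rfl
  rw [h4]
  refine h3.congr_deriv ?_
  have hpi : Real.pi ≠ 0 := Real.pi_ne_zero
  have hp0 : (p : ℝ) ≠ 0 := by positivity
  have hch : Real.cosh (p * x) ≠ 0 := (Real.cosh_pos _).ne'
  generalize Real.log ((Real.cosh (p * x) + Real.sin (p * a)) /
        (Real.cosh (p * x) - Real.sin (p * a))) = L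
  field_simp
  ring

theorem pb5_D_zero (p : ℕ) (x : ℝ) : pb5D p x 0 = 0 := by
  simp [pb5D]

theorem pb5_D_per {p : ℕ} (hp : 1 ≤ p) (x : ℝ) :
    Function.Periodic (pb5D p x) (2 * (Real.pi / p)) := by
  intro a
  have hp0 : (p : ℝ) ≠ 0 := by positivity
  have h1 : Ph p x (a + 2 * (Real.pi / p)) = Ph p x a := by
    have e : a + 2 * (Real.pi / p) = (a + Real.pi / p) + Real.pi / p := by ring
    rw [e, Ph_anti hp, Ph_anti hp, neg_neg]
  have h2 : Real.cos (p * (a + 2 * (Real.pi / p))) = Real.cos (p * a) := by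
    have e : (p : ℝ) * (a + 2 * (Real.pi / p)) = p * a + 2 * Real.pi := by
      field_simp
    rw [e, Real.cos_add_two_pi]
  rw [pb5D, pb5D, h1, h2]

theorem pb5_D_nonneg {p : ℕ} (hp : 1 ≤ p) {x : ℝ} (hx : x ≠ 0) (a : ℝ) : 0 ≤ pb5D p x a := by
  have hp0 : (0 : ℝ) < p := by exact_mod_cast hp
  have hc : 0 < Real.pi / p := div_pos Real.pi_pos hp0
  have hC : 0 < Real.cosh (p * x) := Real.cosh_pos _
  have hC1 : 1 < Real.cosh (p * x) := by
    rw [Real.one_lt_cosh]
    exact mul_ne_zero hp0.ne' hx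
  have hd : ∀ a, HasDerivAt (pb5D p x) _ a := fun a => pb5_D_deriv hp hx a
  have hcont : Continuous (pb5D p x) :=
    continuous_iff_continuousAt.2 fun a => (hd a).continuousAt
  have hdiff : Differentiable ℝ (pb5D p x) := fun a => (hd a).differentiableAt
  obtain ⟨y, hy, hay⟩ := (pb5_D_per hp x).exists_mem_Ico (by linarith) a (-(Real.pi / p))
  rw [hay, ← pb5_D_zero p x]
  have hy1 : -(Real.pi / p) ≤ y := hy.1
  have hy2 : y ≤ Real.pi / p := by have := hy.2; linarith
  have hpp : (p : ℝ) * (Real.pi / p) = Real.pi := by field_simp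
  rcases le_total 0 y with h | h
  · have hm : MonotoneOn (pb5D p x) (Set.Icc 0 (Real.pi / p)) := by
      apply monotoneOn_of_deriv_nonneg (convex_Icc _ _) hcont.continuousOn
        hdiff.differentiableOn
      intro b hb
      rw [interior_Icc] at hb
      rw [(hd b).deriv]
      have hs : 0 ≤ Real.sin (p * b) := by
        apply Real.sin_nonneg_of_nonneg_of_le_pi
        · exact mul_nonneg hp0.le hb.1.le
        · rw [← hpp]
          exact mul_le_mul_of_nonneg_left hb.2.le hp0.le
      have h5 := pb5_log' hC hs (lt_of_le_of_lt (Real.sin_le_one _) hC1)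
      have : 0 ≤ 1 / (2 * Real.pi) := by positivity
      apply mul_nonneg this
      linarith
    exact hm ⟨le_refl _, hc.le⟩ ⟨h, hy2⟩ h
  · have hm : AntitoneOn (pb5D p x) (Set.Icc (-(Real.pi / p)) 0) := by
      apply antitoneOn_of_deriv_nonpos (convex_Icc _ _) hcont.continuousOn
        hdiff.differentiableOn
      intro b hb
      rw [interior_Icc] at hb
      rw [(hd b).deriv]
      have hs : Real.sin (p * b) ≤ 0 := by
        apply Real.sin_nonpos_of_nonpos_of_neg_pi_le
        · exact mul_nonpos_of_nonneg_of_nonpos hp0.le hb.2.le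
        · have h6 := mul_le_mul_of_nonneg_left hb.1.le hp0.le
          rw [mul_neg, hpp] at h6
          exact h6
      have h5 := pb5_log'' hC hs (by have := Real.neg_one_le_sin (p * b); linarith)
      have : 0 ≤ 1 / (2 * Real.pi) := by positivity
      apply mul_nonpos_of_nonneg_of_nonpos this
      linarith
    exact hm ⟨hy1, h⟩ ⟨by linarith, le_refl _⟩ h

theorem pb5_ge_one {p : ℕ} (hp : 1 ≤ p) {x : ℝ} (hx : x ≠ 0) (a : ℝ) :
    (Real.pi * p)⁻¹ * (Real.exp (-(p * |x|)) * (1 - Real.cos (p * a))) ≤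
      Ph p x 0 - Ph p x a := by
  have hp0 : (0 : ℝ) < p := by exact_mod_cast hp
  have h1 := pb5_D_nonneg hp hx a
  rw [pb5D] at h1
  have h2 : Real.exp (-(p * |x|)) ≤ (Real.cosh (p * x))⁻¹ := by
    rw [Real.exp_neg]
    apply inv_anti₀ (Real.cosh_pos _)
    rw [← Real.cosh_abs, abs_mul, abs_of_pos hp0, Real.cosh_eq]
    have h3 : Real.exp (-(p * |x|)) ≤ Real.exp (p * |x|) := by
      apply Real.exp_le_exp.2
      have : 0 ≤ (p : ℝ) * |x| := by positivity
      linarith
    linarith
  have h3 : 0 ≤ 1 - Real.cos (p * a) := by have := Real.cos_le_one (p * a); linarith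
  have h4 : (Real.pi * p)⁻¹ * (Real.exp (-(p * |x|)) * (1 - Real.cos (p * a))) ≤
      (Real.pi * p)⁻¹ * ((Real.cosh (p * x))⁻¹ * (1 - Real.cos (p * a))) := by
    apply mul_le_mul_of_nonneg_left _ (by positivity)
    exact mul_le_mul_of_nonneg_right h2 h3
  linarith

theorem Ph_ge {p : ℕ} (hp : 1 ≤ p) {x : ℝ} (hx : x ≠ 0) (a : ℝ) {e : ℝ} (he : e = 1 ∨ e = -1) :
    (Real.pi * p)⁻¹ * (Real.exp (-(p * |x|)) * (1 - e * Real.cos (p * a))) ≤
      Ph p x 0 - e * Ph p x a := by
  have hp0 : (p : ℝ) ≠ 0 := by positivity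
  rcases he with rfl | rfl
  · simpa using pb5_ge_one hp hx a
  · have h1 := pb5_ge_one hp hx (a + Real.pi / p)
    have e1 : (p : ℝ) * (a + Real.pi / p) = p * a + Real.pi := by field_simp
    rw [Ph_anti hp, e1, Real.cos_add_pi] at h1
    simpa using h1

end Pool.Agent.PfB
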