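import Pool.Agent.PfB.Ker
import Pool.Agent.PfB.Phd
import Pool.Agent.PfB.Conf

/-! MP_f2c8f8_an, project PfB, row PB-6 -/

set_option autoImplicit false

open MeasureTheory Filter
open scoped ComplexConjugate Topology

noncomputable section

namespace Pool.Agent.PfB

/-! ### The density `kc` -/

theorem pb6_kc_cont (p : ℕ) : Continuous (kc p) := by
  unfold kc
  exact Continuous.div continuous_const (Real.continuous_cosh.comp (continuous_const.mul continuous_id))
    (fun y => (Real.cosh_pos _).ne')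

theorem pb6_kc_nonneg (p : ℕ) (y : ℝ) : 0 ≤ kc p y := by
  unfold kc
  have := Real.cosh_pos ((p : ℝ) * y)
  positivity

theorem pb6_kc_le (p : ℕ) (y : ℝ) :
    kc p y ≤ 2 * (p / Real.pi) * Real.exp (-((p : ℝ) * |y|)) := by
  unfold kc
  have h1 : Real.exp ((p : ℝ) * |y|) ≤ 2 * Real.cosh (p * y) := by
    rw [Real.cosh_eq]
    rcases le_total 0 y with hy | hy
    · rw [abs_of_nonneg hy]
      linarith [Real.exp_pos (-((p : ℝ) * y))]
    · rw [abs_of_nonpos hy]
      have : (p : ℝ) * -y = -((p : ℝ) * y) := by ring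
      rw [this]
      linarith [Real.exp_pos ((p : ℝ) * y)]
  have h2 := Real.cosh_pos ((p : ℝ) * y)
  rw [div_le_iff₀ h2, Real.exp_neg]
  have h3 : (0 : ℝ) ≤ p / Real.pi := by positivity
  have h4 := Real.exp_pos ((p : ℝ) * |y|)
  calc (p : ℝ) / Real.pi = p / Real.pi * (Real.exp ((p : ℝ) * |y|) * (Real.exp ((p : ℝ) * |y|))⁻¹) := by
        rw [mul_inv_cancel₀ h4.ne', mul_one]
    _ ≤ p / Real.pi * ((2 * Real.cosh (p * y)) * (Real.exp ((p : ℝ) * |y|))⁻¹) := by
        refine mul_le_mul_of_nonneg_left ?_ h3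
        exact mul_le_mul_of_nonneg_right h1 (inv_nonneg.mpr h4.le)
    _ = 2 * (p / Real.pi) * (Real.exp ((p : ℝ) * |y|))⁻¹ * Real.cosh (p * y) := by ring

theorem pb6_kc_int {p : ℕ} (hp : 1 ≤ p) : Integrable (kc p) := by
  have hp' : (0 : ℝ) < p := by exact_mod_cast hp
  refine ((pb10_exp_abs_int hp').const_mul (2 * (p / Real.pi))).mono'
    (pb6_kc_cont p).aestronglyMeasurable (Eventually.of_forall fun y => ?_)
  rw [Real.norm_eq_abs, abs_of_nonneg (pb6_kc_nonneg p y)]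
  exact pb6_kc_le p y

/-- the primitive of `kc` -/
def pb6_A (p : ℕ) (x : ℝ) : ℝ := Real.pi⁻¹ * Real.arctan (Real.sinh (p * x))

theorem pb6_A_deriv (p : ℕ) (x : ℝ) : HasDerivAt (pb6_A p) (kc p x) x := by
  have h1 : HasDerivAt (fun x : ℝ => (p : ℝ) * x) p x := by
    simpa using (hasDerivAt_id x).const_mul (p : ℝ)
  have h2 := (h1.sinh).arctan.const_mul Real.pi⁻¹
  refine h2.congr_deriv ?_
  unfold kc
  have h3 := Real.cosh_sq ((p : ℝ) * x)
  have h4 := (Real.cosh_pos ((p : ℝ) * x)).ne'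
  have h5 : 1 + Real.sinh ((p : ℝ) * x) ^ 2 = Real.cosh (p * x) ^ 2 := by rw [h3]; ring
  rw [h5]
  field_simp

theorem pb6_A_top {p : ℕ} (hp : 1 ≤ p) : Tendsto (pb6_A p) atTop (𝓝 (1 / 2)) := by
  have hp' : (0 : ℝ) < p := by exact_mod_cast hp
  have h1 : Tendsto (fun x : ℝ => (p : ℝ) * x) atTop atTop := tendsto_id.const_mul_atTop hp'
  have h2 : Tendsto (fun x : ℝ => Real.arctan (Real.sinh (p * x))) atTop (𝓝 (Real.pi / 2)) :=
    (tendsto_nhds_of_tendsto_nhdsWithin Real.tendsto_arctan_atTop).comp (Real.sinhOrderIso.tendsto_atTop.comp h1)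
  have h3 := h2.const_mul Real.pi⁻¹
  have h4 : Real.pi⁻¹ * (Real.pi / 2) = 1 / 2 := by
    field_simp
  rw [h4] at h3
  exact h3

theorem pb6_A_neg (p : ℕ) (x : ℝ) : pb6_A p (-x) = -pb6_A p x := by
  unfold pb6_A
  rw [mul_neg, Real.sinh_neg, Real.arctan_neg, mul_neg]

theorem pb6_A_bot {p : ℕ} (hp : 1 ≤ p) : Tendsto (pb6_A p) atBot (𝓝 (-(1 / 2))) := by
  have h1 := ((pb6_A_top hp).comp tendsto_neg_atBot_atTop).neg
  refine h1.congr (fun x => ?_)
  simp only [Function.comp_apply, pb6_A_neg, neg_neg]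

theorem kc_int {p : ℕ} (hp : 1 ≤ p) : ∫ y : ℝ, kc p y = 1 := by
  rw [integral_of_hasDerivAt_of_tendsto (pb6_A_deriv p) (pb6_kc_int hp) (pb6_A_bot hp)
    (pb6_A_top hp)]
  norm_num

theorem pb6_tail {p : ℕ} (hp : 1 ≤ p) (x : ℝ) :
    ∫ y in Set.Ioi x, kc p y = 1 / 2 - pb6_A p x := by
  exact integral_Ioi_of_hasDerivAt_of_tendsto' (fun y _ => pb6_A_deriv p y)
    (pb6_kc_int hp).integrableOn (pb6_A_top hp)

/-! ### The function `Psi` -/

theorem pb6_Ioi_deriv {g : ℝ → ℝ} (hg : Continuous g) (hi : ∀ x, IntegrableOn g (Set.Ioi x)) (x : ℝ) :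
    HasDerivAt (fun x => ∫ y in Set.Ioi x, g y) (-g x) x := by
  have h1 : (fun x => ∫ y in Set.Ioi x, g y) =
      fun x => (∫ y in Set.Ioi (0 : ℝ), g y) - ∫ y in (0 : ℝ)..x, g y := by
    funext x
    have := intervalIntegral.integral_interval_add_Ioi (hi 0) (hi x)
    linarith
  rw [h1]
  have h2 : HasDerivAt (fun x => ∫ y in (0 : ℝ)..x, g y) (g x) x :=
    intervalIntegral.integral_hasDerivAt_right (hg.intervalIntegrable _ _)
      hg.aestronglyMeasurable.stronglyMeasurableAtFilter hg.continuousAt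
  simpa using h2.const_sub (∫ y in Set.Ioi (0 : ℝ), g y)

theorem pb6_kc_exp (p : ℕ) (y : ℝ) :
    |kc p y| ≤ 2 * (p / Real.pi) * Real.exp (-((p : ℝ) * y)) := by
  rw [abs_of_nonneg (pb6_kc_nonneg p y)]
  refine (pb6_kc_le p y).trans ?_
  have h1 : Real.exp (-((p : ℝ) * |y|)) ≤ Real.exp (-((p : ℝ) * y)) := by
    apply Real.exp_le_exp.mpr
    have := mul_le_mul_of_nonneg_left (le_abs_self y) (Nat.cast_nonneg (α := ℝ) p)
    linarith
  exact mul_le_mul_of_nonneg_left h1 (by positivity)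

theorem pb6_Psi_deriv {p : ℕ} (hp : 1 ≤ p) (x : ℝ) :
    HasDerivAt (Psi p) (-(1 / 2 - pb6_A p x)) x := by
  have hp' : (0 : ℝ) < p := by exact_mod_cast hp
  have hI1 : ∀ x, IntegrableOn (kc p) (Set.Ioi x) := fun x => (pb6_kc_int hp).integrableOn
  have hT : ∀ x, IntegrableOn (fun y : ℝ => (y - x) * kc p y) (Set.Ioi x) := fun x =>
    pb10_Tt_int hp' (pb6_kc_cont p).measurable (pb6_kc_exp p) x
  have hI2 : ∀ x, IntegrableOn (fun y : ℝ => y * kc p y) (Set.Ioi x) := by
    intro x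
    refine ((hT x).add ((hI1 x).const_mul x)).congr (Eventually.of_forall fun y => ?_)
    simp only [Pi.add_apply]
    ring
  have h1 : Psi p = fun x => (∫ y in Set.Ioi x, y * kc p y) - x * ∫ y in Set.Ioi x, kc p y := by
    funext x
    unfold Psi Tt
    rw [← integral_const_mul, ← integral_sub (hI2 x) ((hI1 x).const_mul x)]
    refine integral_congr_ae (Eventually.of_forall fun y => ?_)
    simp only
    ring
  rw [h1]
  have h2 := pb6_Ioi_deriv (continuous_id.mul (pb6_kc_cont p)) hI2 x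
  have h3 := pb6_Ioi_deriv (pb6_kc_cont p) hI1 x
  have h4 := h2.sub ((hasDerivAt_id x).mul h3)
  refine h4.congr_deriv ?_
  rw [pb6_tail hp x]
  simp only [id, Pi.mul_apply]
  ring

theorem pb6_Psi_top {p : ℕ} (hp : 1 ≤ p) : Tendsto (Psi p) atTop (𝓝 0) := by
  have hp' : (0 : ℝ) < p := by exact_mod_cast hp
  refine squeeze_zero_norm (a := fun x => 4 / (p : ℝ) ^ 2 * (2 * (p / Real.pi)) *
    Real.exp (-((p : ℝ) * x))) (fun x => ?_) ?_
  · exact pb10_Tt_bd hp' (pb6_kc_exp p) x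
  · have h1 : Tendsto (fun x : ℝ => Real.exp (-((p : ℝ) * x))) atTop (𝓝 0) :=
      Real.tendsto_exp_neg_atTop_nhds_zero.comp (tendsto_id.const_mul_atTop hp')
    simpa using h1.const_mul (4 / (p : ℝ) ^ 2 * (2 * (p / Real.pi)))

theorem pb6_Psi_neg {p : ℕ} (hp : 1 ≤ p) (y : ℝ) : Psi p (-y) = Psi p y + y := by
  have h1 : ∀ x, HasDerivAt (fun x => Psi p (-x) - Psi p x - x) 0 x := by
    intro x
    have h2 : HasDerivAt (fun x => Psi p (-x)) (-(1 / 2 - pb6_A p (-x)) * -1) x :=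
      (pb6_Psi_deriv hp (-x)).comp x (hasDerivAt_neg x)
    have h3 := (h2.sub (pb6_Psi_deriv hp x)).sub (hasDerivAt_id x)
    refine h3.congr_deriv ?_
    rw [pb6_A_neg]
    ring
  have h4 := is_const_of_deriv_eq_zero (fun x => (h1 x).differentiableAt) (fun x => (h1 x).deriv) y 0
  simp only [neg_zero, sub_self] at h4
  linarith

/-! ### The pairing -/

/-- the logarithm in `Ph_deriv` -/
def pb6_L (p : ℕ) (x a : ℝ) : ℝ :=
  Real.log (Real.cosh (p * x) + Real.sin (p * a)) - Real.log (Real.cosh (p * x) - Real.sin (p * a))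

theorem pb6_pos {p : ℕ} (hp : 1 ≤ p) {x : ℝ} (hx : x ≠ 0) (a : ℝ) :
    Real.cosh (p * x) - 1 ≤ Real.cosh (p * x) + Real.sin (p * a) ∧
      Real.cosh (p * x) - 1 ≤ Real.cosh (p * x) - Real.sin (p * a) ∧ 0 < Real.cosh (p * x) - 1 := by
  have hp' : (p : ℝ) ≠ 0 := by positivity
  have h1 : 1 < Real.cosh (p * x) := Real.one_lt_cosh.mpr (mul_ne_zero hp' hx)
  have h2 := Real.sin_le_one ((p : ℝ) * a)
  have h3 := Real.neg_one_le_sin ((p : ℝ) * a)
  refine ⟨by linarith, by linarith, by linarith⟩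

theorem pb6_L_eq {p : ℕ} (hp : 1 ≤ p) {x : ℝ} (hx : x ≠ 0) (a : ℝ) :
    Real.log ((Real.cosh (p * x) + Real.sin (p * a)) / (Real.cosh (p * x) - Real.sin (p * a))) =
      pb6_L p x a := by
  obtain ⟨h1, h2, h3⟩ := pb6_pos hp hx a
  unfold pb6_L
  exact Real.log_div (by linarith) (by linarith)

theorem pb6_L_cont {p : ℕ} (hp : 1 ≤ p) {x : ℝ} (hx : x ≠ 0) : Continuous (pb6_L p x) := by
  unfold pb6_L
  refine Continuous.sub ?_ ?_
  · refine Continuous.log (by fun_prop) (fun a => ?_)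
    obtain ⟨h1, h2, h3⟩ := pb6_pos hp hx a
    linarith
  · refine Continuous.log (by fun_prop) (fun a => ?_)
    obtain ⟨h1, h2, h3⟩ := pb6_pos hp hx a
    linarith

theorem pb6_Ph {p : ℕ} (hp : 1 ≤ p) {x : ℝ} (hx : x ≠ 0) :
    Ph p x 0 = (4 * Real.pi)⁻¹ * ∫ a in (0 : ℝ)..(Real.pi / p), pb6_L p x a := by
  have h1 : ∫ a in (0 : ℝ)..(Real.pi / p), -(1 / (2 * Real.pi)) * pb6_L p x a =
      Ph p x (Real.pi / p) - Ph p x 0 := by
    refine intervalIntegral.integral_eq_sub_of_hasDerivAt (f := fun a => Ph p x a)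
      (fun a _ => ?_) ?_
    · rw [← pb6_L_eq hp hx a]
      exact Ph_deriv hp hx a
    · exact ((pb6_L_cont hp hx).const_mul _).intervalIntegrable _ _
  have h2 := Ph_anti hp x 0
  rw [zero_add] at h2
  rw [intervalIntegral.integral_const_mul, h2] at h1
  have hpi := Real.pi_pos
  have h3 : Ph p x 0 = (1 / (4 * Real.pi)) * ∫ a in (0 : ℝ)..(Real.pi / p), pb6_L p x a := by
    have h4 : (1 / (2 * Real.pi)) = 2 * (1 / (4 * Real.pi)) := by
      field_simp
      norm_num
    rw [h4] at h1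
    linarith
  rw [h3, one_div]

/-- the derivative in `x` -/
def pb6_dL (p : ℕ) (x a : ℝ) : ℝ :=
  p * Real.sinh (p * x) / (Real.cosh (p * x) + Real.sin (p * a)) -
    p * Real.sinh (p * x) / (Real.cosh (p * x) - Real.sin (p * a))

theorem pb6_L_deriv {p : ℕ} (hp : 1 ≤ p) {x : ℝ} (hx : x ≠ 0) (a : ℝ) :
    HasDerivAt (fun x => pb6_L p x a) (pb6_dL p x a) x := by
  obtain ⟨h1, h2, h3⟩ := pb6_pos hp hx a
  have h4 : HasDerivAt (fun x : ℝ => Real.cosh (p * x)) (p * Real.sinh (p * x)) x := by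
    have h5 : HasDerivAt (fun x : ℝ => (p : ℝ) * x) p x := by
      simpa using (hasDerivAt_id x).const_mul (p : ℝ)
    refine h5.cosh.congr_deriv ?_
    ring
  unfold pb6_L pb6_dL
  refine HasDerivAt.sub ?_ ?_
  · exact (h4.add_const _).log (by linarith)
  · exact (h4.sub_const _).log (by linarith)

theorem pb6_dL_cont {p : ℕ} (hp : 1 ≤ p) {x : ℝ} (hx : x ≠ 0) : Continuous (pb6_dL p x) := by
  unfold pb6_dL
  refine Continuous.sub ?_ ?_
  · refine Continuous.div (by fun_prop) (by fun_prop) (fun a => ?_)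
    obtain ⟨h1, h2, h3⟩ := pb6_pos hp hx a
    linarith
  · refine Continuous.div (by fun_prop) (by fun_prop) (fun a => ?_)
    obtain ⟨h1, h2, h3⟩ := pb6_pos hp hx a
    linarith

theorem pb6_dL_int {p : ℕ} (hp : 1 ≤ p) {x : ℝ} (hx : 0 < x) :
    ∫ a in (0 : ℝ)..(Real.pi / p), pb6_dL p x a = -(4 * Real.pi) * (1 / 2 - pb6_A p x) := by
  have hp0 : (0 : ℝ) < p := by exact_mod_cast hp
  have hs : 0 < Real.sinh (p * x) := Real.sinh_pos_iff.mpr (by positivity)
  have h1 : ∫ a in (0 : ℝ)..(Real.pi / p), pb6_dL p x a =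
      2 * Real.arctan (Real.cos (p * (Real.pi / p)) / Real.sinh (p * x)) -
        2 * Real.arctan (Real.cos (p * 0) / Real.sinh (p * x)) := by
    refine intervalIntegral.integral_eq_sub_of_hasDerivAt
      (f := fun a => 2 * Real.arctan (Real.cos (p * a) / Real.sinh (p * x))) (fun a _ => ?_)
      ((pb6_dL_cont hp hx.ne').intervalIntegrable _ _)
    have h5 : HasDerivAt (fun a : ℝ => (p : ℝ) * a) p a := by
      simpa using (hasDerivAt_id a).const_mul (p : ℝ)
    have h6 := ((h5.cos.div_const (Real.sinh (p * x))).arctan).const_mul 2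
    refine h6.congr_deriv ?_
    obtain ⟨g1, g2, g3⟩ := pb6_pos hp hx.ne' a
    unfold pb6_dL
    have g4 : Real.cosh (p * x) + Real.sin (p * a) ≠ 0 := by linarith
    have g5 : Real.cosh (p * x) - Real.sin (p * a) ≠ 0 := by linarith
    have g6 : Real.sinh (p * x) ^ 2 + Real.cos (p * a) ^ 2 ≠ 0 := by positivity
    have g7 := Real.cosh_sq ((p : ℝ) * x)
    have g8 := Real.sin_sq_add_cos_sq ((p : ℝ) * a)
    have g9 : 1 + (Real.cos (p * a) / Real.sinh (p * x)) ^ 2 ≠ 0 := by positivity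
    have g10 : (Real.cosh (p * x) + Real.sin (p * a)) * (Real.cosh (p * x) - Real.sin (p * a)) =
        Real.sinh (p * x) ^ 2 + Real.cos (p * a) ^ 2 := by
      linear_combination g7 - g8
    have g11 : p * Real.sinh (p * x) / (Real.cosh (p * x) + Real.sin (p * a)) -
        p * Real.sinh (p * x) / (Real.cosh (p * x) - Real.sin (p * a)) =
        -(2 * p * Real.sinh (p * x) * Real.sin (p * a)) /
          (Real.sinh (p * x) ^ 2 + Real.cos (p * a) ^ 2) := by
      rw [← g10, div_sub_div _ _ g4 g5]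
      congr 1
      ring
    rw [g11]
    field_simp
  rw [h1]
  have h2 : (p : ℝ) * (Real.pi / p) = Real.pi := by field_simp
  rw [h2, Real.cos_pi, mul_zero, Real.cos_zero, neg_div, Real.arctan_neg, one_div,
    Real.arctan_inv_of_pos hs]
  unfold pb6_A
  have hpi := Real.pi_pos
  field_simp
  ring

theorem pb6_Ph_deriv {p : ℕ} (hp : 1 ≤ p) {x : ℝ} (hx : 0 < x) :
    HasDerivAt (fun x => (4 * Real.pi)⁻¹ * ∫ a in (0 : ℝ)..(Real.pi / p), pb6_L p x a)
      (-(1 / 2 - pb6_A p x)) x := by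
  have hp0 : (0 : ℝ) < p := by exact_mod_cast hp
  have hs : Set.Ioo (x / 2) (2 * x) ∈ 𝓝 x := Ioo_mem_nhds (by linarith) (by linarith)
  have hb : 0 < Real.cosh (p * (x / 2)) - 1 := (pb6_pos hp (x := x / 2) (by positivity) 0).2.2
  have key := intervalIntegral.hasDerivAt_integral_of_dominated_loc_of_deriv_le
    (μ := volume) (a := 0) (b := Real.pi / p) (F := fun x a => pb6_L p x a)
    (F' := fun x a => pb6_dL p x a) (x₀ := x) (s := Set.Ioo (x / 2) (2 * x))
    (bound := fun _ => 2 * (p * Real.sinh (p * (2 * x)) / (Real.cosh (p * (x / 2)) - 1)))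
    hs ?_ ((pb6_L_cont hp hx.ne').intervalIntegrable _ _)
    (pb6_dL_cont hp hx.ne').aestronglyMeasurable ?_ (by simp) ?_
  · have h1 := key.2.const_mul (4 * Real.pi)⁻¹
    refine h1.congr_deriv ?_
    rw [pb6_dL_int hp hx]
    have hpi := Real.pi_pos
    field_simp
  · filter_upwards [hs] with y hy
    have hy0 : y ≠ 0 := by
      have := hy.1
      intro h0
      rw [h0] at this
      linarith
    exact (pb6_L_cont hp hy0).aestronglyMeasurable
  · refine Eventually.of_forall (fun a _ y hy => ?_)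
    have hy0 : 0 < y := by linarith [hy.1]
    obtain ⟨h1, h2, h3⟩ := pb6_pos hp hy0.ne' a
    have h4 : Real.cosh (p * (x / 2)) ≤ Real.cosh (p * y) := by
      rw [Real.cosh_le_cosh, abs_of_pos (by positivity), abs_of_pos (by positivity)]
      exact mul_le_mul_of_nonneg_left hy.1.le hp0.le
    have h5 : Real.sinh (p * y) ≤ Real.sinh (p * (2 * x)) :=
      Real.sinh_le_sinh.mpr (mul_le_mul_of_nonneg_left hy.2.le hp0.le)
    have h6 : 0 < Real.sinh (p * y) := Real.sinh_pos_iff.mpr (by positivity)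
    have h7 : ∀ z, Real.cosh (p * y) - 1 ≤ z → |p * Real.sinh (p * y) / z| ≤
        p * Real.sinh (p * (2 * x)) / (Real.cosh (p * (x / 2)) - 1) := by
      intro z hz
      have hz0 : 0 < z := by linarith
      rw [abs_of_nonneg (by positivity)]
      exact div_le_div₀ (by positivity) (mul_le_mul_of_nonneg_left h5 hp0.le) hb (by linarith)
    unfold pb6_dL
    rw [Real.norm_eq_abs]
    refine (abs_sub _ _).trans ?_
    linarith [h7 _ h1, h7 _ h2]
  · refine Eventually.of_forall (fun a _ y hy => ?_)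
    have hy0 : 0 < y := by linarith [hy.1]
    exact pb6_L_deriv hp hy0.ne' a

theorem pb6_L_bd {p : ℕ} (hp : 1 ≤ p) {x : ℝ} (hx : x ≠ 0) (a : ℝ) :
    |pb6_L p x a| ≤ 2 / (Real.cosh (p * x) - 1) := by
  obtain ⟨h1, h2, h3⟩ := pb6_pos hp hx a
  have key : ∀ u v : ℝ, Real.cosh (p * x) - 1 ≤ u → Real.cosh (p * x) - 1 ≤ v → u - v ≤ 2 →
      Real.log u - Real.log v ≤ 2 / (Real.cosh (p * x) - 1) := by
    intro u v hu hv huv
    have hv0 : 0 < v := by linarith
    have hu0 : 0 < u := by linarith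
    rw [← Real.log_div hu0.ne' hv0.ne']
    have h4 := Real.log_le_sub_one_of_pos (div_pos hu0 hv0)
    have h5 : u / v - 1 = (u - v) / v := by field_simp
    rw [h5] at h4
    refine h4.trans ?_
    rw [div_le_div_iff₀ hv0 h3]
    nlinarith
  have h4 := Real.sin_le_one ((p : ℝ) * a)
  have h5 := Real.neg_one_le_sin ((p : ℝ) * a)
  unfold pb6_L
  rw [abs_le]
  refine ⟨?_, key _ _ h1 h2 (by linarith)⟩
  have := key _ _ h2 h1 (by linarith)
  linarith

theorem pb6_Ph_top {p : ℕ} (hp : 1 ≤ p) :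
    Tendsto (fun x => (4 * Real.pi)⁻¹ * ∫ a in (0 : ℝ)..(Real.pi / p), pb6_L p x a) atTop (𝓝 0) := by
  have hp0 : (0 : ℝ) < p := by exact_mod_cast hp
  have h1 : Tendsto (fun x : ℝ => Real.cosh (p * x) - 1) atTop atTop := by
    have h2 : Tendsto (fun x : ℝ => Real.sinh (p * x)) atTop atTop :=
      Real.sinhOrderIso.tendsto_atTop.comp (tendsto_id.const_mul_atTop hp0)
    refine tendsto_atTop_add_const_right _ _ (tendsto_atTop_mono (fun x => ?_) h2)
    exact (Real.sinh_lt_cosh _).le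
  have h3 : Tendsto (fun x : ℝ => ∫ a in (0 : ℝ)..(Real.pi / p), pb6_L p x a) atTop (𝓝 0) := by
    have h4 : Tendsto (fun x : ℝ => 2 / (Real.cosh (p * x) - 1) * |Real.pi / p - 0|) atTop (𝓝 0) := by
      have := (tendsto_const_nhds (x := (2 : ℝ))).div_atTop h1
      simpa using this.mul_const (|Real.pi / p - 0|)
    refine squeeze_zero_norm' ?_ h4
    filter_upwards [eventually_gt_atTop (0 : ℝ)] with x hx
    exact intervalIntegral.norm_integral_le_of_norm_le_const (fun a _ => pb6_L_bd hp hx.ne' a)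
  simpa using h3.const_mul (4 * Real.pi)⁻¹

theorem pb6_pos_case {p : ℕ} (hp : 1 ≤ p) {x : ℝ} (hx : 0 < x) : Ph p x 0 = Psi p x := by
  rw [pb6_Ph hp hx.ne']
  set F : ℝ → ℝ := fun x => (4 * Real.pi)⁻¹ * ∫ a in (0 : ℝ)..(Real.pi / p), pb6_L p x a with hF
  have hd : ∀ y ∈ Set.Ioi (0 : ℝ), HasDerivAt (fun y => F y - Psi p y) 0 y := by
    intro y hy
    refine ((pb6_Ph_deriv hp hy).sub (pb6_Psi_deriv hp y)).congr_deriv ?_
    ring
  have hconst : ∀ y ∈ Set.Ioi (0 : ℝ), F y - Psi p y = F x - Psi p x := by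
    intro y hy
    refine (convex_Ioi (0 : ℝ)).is_const_of_fderivWithin_eq_zero (𝕜 := ℝ)
      (f := fun y => F y - Psi p y) ?_ ?_ hy hx
    · intro z hz
      exact (hd z hz).differentiableAt.differentiableWithinAt
    · intro z hz
      have := (hd z hz).hasFDerivAt.hasFDerivWithinAt (s := Set.Ioi (0 : ℝ))
      rw [this.fderivWithin (uniqueDiffOn_Ioi 0 z hz)]
      ext
      simp
  have h0 : Tendsto (fun y => F y - Psi p y) atTop (𝓝 (0 - 0)) := (pb6_Ph_top hp).sub (pb6_Psi_top hp)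
  have h1 : Tendsto (fun y => F y - Psi p y) atTop (𝓝 (F x - Psi p x)) := by
    refine tendsto_const_nhds.congr' ?_
    filter_upwards [eventually_gt_atTop (0 : ℝ)] with y hy
    exact (hconst y hy).symm
  have h2 := tendsto_nhds_unique h1 h0
  show F x = Psi p x
  linarith

theorem Ph_zero {p : ℕ} (hp : 1 ≤ p) {x : ℝ} (hx : x ≠ 0) :
    Ph p x 0 + max 0 (-x) = Psi p x := by
  rcases lt_or_gt_of_ne hx with h | h
  · have h1 : 0 < -x := by linarith
    have h2 : Ph p x 0 = Ph p (-x) 0 := by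
      rw [pb6_Ph hp hx, pb6_Ph hp h1.ne']
      have h3 : ∀ a, pb6_L p (-x) a = pb6_L p x a := by
        intro a
        unfold pb6_L
        rw [mul_neg, Real.cosh_neg]
      simp only [h3]
    rw [h2, pb6_pos_case hp h1, max_eq_right h1.le]
    have h4 := pb6_Psi_neg hp (-x)
    rw [neg_neg] at h4
    exact h4.symm
  · rw [pb6_pos_case hp h, max_eq_left (by linarith), add_zero]

end Pool.Agent.PfB
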