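import Pool.Agent.PfB.Conf
import Pool.Agent.PfB.Phz
import Pool.Agent.PfB.Jint

/-! MP_f2c8f8_an, project PfB, row PB-12 -/

set_option autoImplicit false

open MeasureTheory Filter
open scoped ComplexConjugate Topology

noncomputable section

namespace Pool.Agent.PfB

/-- real form of `J_integral` at angle zero -/
theorem pb12_J {s : ℝ} (h0 : 0 < s) (h1 : s < 1) :
    ∫ t : ℝ, Real.exp (s * t) / (1 + Real.exp t) = Real.pi / Real.sin (Real.pi * s) := by
  have hJ := J_integral (η := s) (θ := 0) h0 h1 (by simpa using Real.pi_pos)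
  have e1 : (fun y : ℝ => (Real.exp (s * y) : ℂ) /
      (1 + Complex.exp ((y : ℂ) + ((0 : ℝ) : ℂ) * Complex.I))) =
      fun y : ℝ => ((Real.exp (s * y) / (1 + Real.exp y) : ℝ) : ℂ) := by
    funext y
    push_cast
    simp
  rw [e1, integral_complex_ofReal] at hJ
  have e2 : Complex.exp (-((s : ℂ) * ((0 : ℝ) : ℂ) * Complex.I)) = 1 := by simp
  rw [e2, mul_one] at hJ
  exact_mod_cast hJ

theorem mn_eq {p : ℕ} (hp : 2 ≤ p) {η : ℝ} (h0 : 0 < η) (h1 : η ≤ 1 / 4) :
    ∫ y : ℝ, Real.exp (rh p η * y) * kc p y = mn p η := by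
  have hp2 : (2 : ℝ) ≤ p := by exact_mod_cast hp
  have hp0 : (0 : ℝ) < p := by linarith
  have h2p : (0 : ℝ) < 2 * p := by linarith
  set s : ℝ := 1 - η / (2 * p) with hs
  have hq : 0 < η / (2 * p) := div_pos h0 h2p
  have hq1 : η / (2 * p) < 1 := by
    rw [div_lt_one h2p]; linarith
  have hs0 : 0 < s := by rw [hs]; linarith
  have hs1 : s < 1 := by rw [hs]; linarith
  have hJ := pb12_J hs0 hs1
  have hsin : Real.sin (Real.pi * s) = Real.sin (Real.pi * η / (2 * p)) := by
    rw [hs, show Real.pi * (1 - η / (2 * p)) = Real.pi - Real.pi * η / (2 * p) by ring,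
      Real.sin_pi_sub]
  have e1 : (fun y : ℝ => Real.exp (rh p η * y) * kc p y) =
      fun y : ℝ => (2 * p / Real.pi) *
        ((fun t : ℝ => Real.exp (s * t) / (1 + Real.exp t)) ((2 * p) * y)) := by
    funext y
    simp only [kc, rh]
    have hc : Real.cosh (p * y) = (Real.exp (p * y) + Real.exp (-(p * y))) / 2 := by
      rw [Real.cosh_eq]
    have a1 : Real.exp (s * (2 * p * y)) = Real.exp (((p : ℝ) - η) * y) * Real.exp (p * y) := by
      rw [← Real.exp_add]
      congr 1
      rw [hs]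
      field_simp
      ring
    have a2 : 1 + Real.exp (2 * p * y) =
        Real.exp (p * y) * (Real.exp (p * y) + Real.exp (-(p * y))) := by
      rw [mul_add, ← Real.exp_add, ← Real.exp_add, show (p : ℝ) * y + -(p * y) = 0 by ring,
        Real.exp_zero, show (p : ℝ) * y + p * y = 2 * p * y by ring]
      ring
    rw [hc, a1, a2]
    have b1 : Real.exp ((p : ℝ) * y) ≠ 0 := (Real.exp_pos _).ne'
    have b2 : Real.exp ((p : ℝ) * y) + Real.exp (-(p * y)) ≠ 0 := by positivity
    have b3 : Real.pi ≠ 0 := Real.pi_ne_zero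
    field_simp
  have hI := Measure.integral_comp_mul_left
    (fun t : ℝ => Real.exp (s * t) / (1 + Real.exp t)) (2 * (p : ℝ))
  rw [e1, integral_const_mul, hI, hJ, hsin, mn, smul_eq_mul, abs_of_pos (inv_pos.mpr h2p)]
  have b3 : Real.pi ≠ 0 := Real.pi_ne_zero
  field_simp

theorem pb12_kc_meas (p : ℕ) : Measurable (kc p) := by
  unfold kc
  exact measurable_const.div (Real.continuous_cosh.measurable.comp (measurable_const_mul _))

theorem pb12_kc_bd {p : ℕ} (hp : 1 ≤ p) (y : ℝ) : |kc p y| ≤ (p : ℝ) * vv p y := by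
  have hp1 : (1 : ℝ) ≤ p := by exact_mod_cast hp
  have hp0 : (0 : ℝ) < p := by linarith
  have hc : 0 < Real.cosh (p * y) := Real.cosh_pos _
  have hpos : 0 ≤ kc p y := by
    unfold kc
    positivity
  rw [abs_of_nonneg hpos]
  have hpi : 2 ≤ Real.pi := Real.two_le_pi
  have key : (Real.pi * Real.cosh (p * y))⁻¹ ≤ vv p y := by
    unfold vv
    refine le_min ?_ ?_
    · rw [Real.exp_neg]
      refine inv_anti₀ (Real.exp_pos _) ?_
      rw [Real.cosh_eq]
      have := Real.exp_pos ((p : ℝ) * y)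
      have := Real.exp_pos (-((p : ℝ) * y))
      nlinarith
    · rw [Real.exp_neg]
      refine inv_anti₀ (Real.exp_pos _) ?_
      have h1 : Real.exp (((p : ℝ) - 1) * y) ≤ 2 * Real.cosh (p * y) := by
        rw [Real.cosh_eq]
        rcases le_total 0 y with hy | hy
        · have : Real.exp (((p : ℝ) - 1) * y) ≤ Real.exp (p * y) :=
            Real.exp_le_exp.mpr (by nlinarith)
          have := Real.exp_pos (-((p : ℝ) * y))
          linarith
        · have : Real.exp (((p : ℝ) - 1) * y) ≤ Real.exp (-(p * y)) :=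
            Real.exp_le_exp.mpr (by nlinarith)
          have := Real.exp_pos ((p : ℝ) * y)
          linarith
      nlinarith
  have : kc p y = (p : ℝ) * (Real.pi * Real.cosh (p * y))⁻¹ := by
    unfold kc
    rw [mul_inv]
    ring
  rw [this]
  exact mul_le_mul_of_nonneg_left key hp0.le

theorem S_Psi {p : ℕ} (hp : 2 ≤ p) {η : ℝ} (h0 : 0 < η) (h1 : η ≤ 1 / 4) (c : Cfg (rh p η)) :
    ∑ i, c.m i * Psi p (c.x i) = mn p η - c.Dr p := by
  have hk := pb12_kc_meas p
  have hB := fun y => pb12_kc_bd (p := p) (by omega) y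
  have h := S_T hp h0 h1 c hk hB
  rw [(II_T hp h0 h1 hk hB).2, mn_eq hp h0 h1] at h
  exact h

theorem pb12_sin (n : ℕ) (y : ℝ) : |Real.sin (n * y)| ≤ n * |Real.sin y| := by
  induction n with
  | zero => simp
  | succ n ih =>
    have e : ((n + 1 : ℕ) : ℝ) * y = n * y + y := by push_cast; ring
    rw [e, Real.sin_add]
    have h1 : |Real.sin (n * y) * Real.cos y + Real.cos (n * y) * Real.sin y| ≤
        |Real.sin (n * y)| * 1 + 1 * |Real.sin y| := by
      refine (abs_add_le _ _).trans ?_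
      rw [abs_mul, abs_mul]
      exact add_le_add (mul_le_mul_of_nonneg_left (Real.abs_cos_le_one _) (abs_nonneg _))
        (mul_le_mul_of_nonneg_right (Real.abs_cos_le_one _) (abs_nonneg _))
    push_cast
    linarith

theorem mn_le {p : ℕ} (hp : 1 ≤ p) {η : ℝ} (h0 : 0 < η) (h1 : η ≤ 1 / 4) :
    mn p η ≤ 2 * p / Real.sin (Real.pi * η) := by
  have hp1 : (1 : ℝ) ≤ p := by exact_mod_cast hp
  have h2p : (0 : ℝ) < 2 * p := by linarith
  have hpi := Real.pi_pos
  have hy0 : 0 < Real.pi * η / (2 * p) := by positivity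
  have hy1 : Real.pi * η / (2 * p) < Real.pi := by
    rw [div_lt_iff₀ h2p]
    nlinarith
  have hs : 0 < Real.sin (Real.pi * η / (2 * p)) := Real.sin_pos_of_pos_of_lt_pi hy0 hy1
  have hS : 0 < Real.sin (Real.pi * η) :=
    Real.sin_pos_of_pos_of_lt_pi (by positivity) (by nlinarith)
  have h := pb12_sin (2 * p) (Real.pi * η / (2 * p))
  have e : ((2 * p : ℕ) : ℝ) * (Real.pi * η / (2 * p)) = Real.pi * η := by
    push_cast
    field_simp
  rw [e, abs_of_pos hS, abs_of_pos hs] at h
  push_cast at h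
  unfold mn
  rw [div_le_div_iff₀ hs hS]
  linarith

end Pool.Agent.PfB
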