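import Pool.Agent.PfB.Conf

/-! MP_f2c8f8_an, project PfB, row PB-11 -/

set_option autoImplicit false

open MeasureTheory Filter
open scoped ComplexConjugate Topology

noncomputable section

namespace Pool.Agent.PfB

theorem ww_pos (p : ℕ) (x : ℝ) : 0 < ww p x := lt_min (Real.exp_pos _) (Real.exp_pos _)

theorem ww_le_vv (p : ℕ) (x : ℝ) : ww p x ≤ vv p x := by
  unfold ww vv
  rcases le_total 0 x with hx | hx
  · refine le_min (min_le_of_left_le ?_) (min_le_right _ _)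
    apply Real.exp_le_exp.mpr
    nlinarith
  · refine le_min (min_le_of_right_le ?_) (min_le_right _ _)
    apply Real.exp_le_exp.mpr
    nlinarith

theorem ww_of_nonneg (p : ℕ) {x : ℝ} (hx : 0 ≤ x) :
    ww p x = Real.exp (-(((p : ℝ) + 1) * x)) := by
  unfold ww
  apply min_eq_left
  apply Real.exp_le_exp.mpr
  nlinarith

theorem ww_of_nonpos (p : ℕ) {x : ℝ} (hx : x ≤ 0) :
    ww p x = Real.exp (-(((p : ℝ) - 1) * x)) := by
  unfold ww
  apply min_eq_right
  apply Real.exp_le_exp.mpr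
  nlinarith

theorem pb11_meas (p : ℕ) : Measurable (ww p) := by
  unfold ww
  fun_prop

theorem pb11_abs (p : ℕ) (x : ℝ) : |ww p x| = ww p x := abs_of_pos (ww_pos p x)

/-- `exp (ρ y) ww y` is small at both ends -/
theorem pb11_exp_ww {p : ℕ} {η : ℝ} (h0 : 0 < η) (h1 : η ≤ 1 / 4) (y : ℝ) :
    Real.exp (rh p η * y) * ww p y ≤ Real.exp (-(3 / 4 * |y|)) := by
  rcases le_total 0 y with hy | hy
  · rw [ww_of_nonneg p hy, ← Real.exp_add, abs_of_nonneg hy]
    apply Real.exp_le_exp.mpr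
    simp only [rh]
    nlinarith
  · rw [ww_of_nonpos p hy, ← Real.exp_add, abs_of_nonpos hy]
    apply Real.exp_le_exp.mpr
    simp only [rh]
    nlinarith

theorem pb11_exp_abs_int {a : ℝ} (ha : 0 < a) :
    ∫ y : ℝ, Real.exp (-(a * |y|)) = 2 / a := by
  rw [integral_comp_abs (f := fun y : ℝ => Real.exp (-(a * y)))]
  have h : ∫ y in Set.Ioi (0 : ℝ), Real.exp (-(a * y)) = 1 / a := by
    have h2 := integral_exp_mul_Ioi (a := -a) (by linarith) 0
    rw [mul_zero, Real.exp_zero] at h2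
    simp only [neg_mul] at h2
    rw [h2, neg_div_neg_eq]
  rw [h]
  ring

/-- lower bound of `Tt` -/
theorem pb11_Tt_ge {p : ℕ} (hp : 2 ≤ p) {k : ℝ → ℝ} {B : ℝ} (hk : Measurable k)
    (hB : ∀ y, |k y| ≤ B * vv p y) (hk0 : ∀ y, 0 ≤ k y) (x D : ℝ)
    (hD : ∀ y, x < y → y ≤ x + 1 → D ≤ k y) : D / 2 ≤ Tt k x := by
  have hint := Tt_int hp hk hB x
  have hsub : Set.Ioc x (x + 1) ⊆ Set.Ioi x := fun y hy => hy.1
  have h1 : ∫ y in Set.Ioc x (x + 1), (y - x) * k y ≤ Tt k x := by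
    unfold Tt
    refine setIntegral_mono_set hint ?_ hsub.eventuallyLE
    filter_upwards [ae_restrict_mem measurableSet_Ioi] with y hy
    exact mul_nonneg (sub_nonneg.mpr (le_of_lt hy)) (hk0 y)
  refine le_trans ?_ h1
  have h2 : ∫ y in Set.Ioc x (x + 1), (y - x) * D = D / 2 := by
    rw [← intervalIntegral.integral_of_le (by linarith)]
    have h3 : ∀ y ∈ Set.uIcc x (x + 1),
        HasDerivAt (fun y : ℝ => (y - x) ^ 2 / 2 * D) ((y - x) * D) y := by
      intro y _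
      have h4 := (((hasDerivAt_id y).sub_const x).pow 2).div_const 2 |>.mul_const D
      have h5 : (y - x) * D = (((2 : ℕ) : ℝ) * (id y - x) ^ (2 - 1) * 1) / 2 * D := by
        simp only [id]
        norm_num
      rw [h5]
      exact h4
    rw [intervalIntegral.integral_eq_sub_of_hasDerivAt h3
      (Continuous.intervalIntegrable (by fun_prop) _ _)]
    ring
  rw [← h2]
  refine setIntegral_mono_on ?_ (hint.mono_set hsub) measurableSet_Ioc fun y hy => ?_
  · exact (Continuous.integrableOn_Icc (by fun_prop)).mono_set Set.Ioc_subset_Icc_self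
  · exact mul_le_mul_of_nonneg_left (hD y hy.1 hy.2) (sub_nonneg.mpr (le_of_lt hy.1))

theorem pb11_ww_ge (p : ℕ) {x y : ℝ} (hp : 2 ≤ p) (h1 : x < y) (h2 : y ≤ x + 1) :
    Real.exp (-((p : ℝ) + 1)) * ww p x ≤ ww p y := by
  have hp' : (2 : ℝ) ≤ p := by exact_mod_cast hp
  have hx := ww_pos p x
  refine le_min ?_ ?_
  · calc Real.exp (-((p : ℝ) + 1)) * ww p x ≤
          Real.exp (-((p : ℝ) + 1)) * Real.exp (-(((p : ℝ) + 1) * x)) :=
        mul_le_mul_of_nonneg_left (min_le_left _ _) (Real.exp_pos _).le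
      _ ≤ Real.exp (-(((p : ℝ) + 1) * y)) := by
        rw [← Real.exp_add]
        apply Real.exp_le_exp.mpr
        nlinarith
  · calc Real.exp (-((p : ℝ) + 1)) * ww p x ≤
          Real.exp (-((p : ℝ) + 1)) * Real.exp (-(((p : ℝ) - 1) * x)) :=
        mul_le_mul_of_nonneg_left (min_le_right _ _) (Real.exp_pos _).le
      _ ≤ Real.exp (-(((p : ℝ) - 1) * y)) := by
        rw [← Real.exp_add]
        apply Real.exp_le_exp.mpr
        nlinarith

theorem pb11_Tt_nonneg {p : ℕ} (hp : 2 ≤ p) {k : ℝ → ℝ} {B : ℝ} (hk : Measurable k)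
    (hB : ∀ y, |k y| ≤ B * vv p y) (hk0 : ∀ y, 0 ≤ k y) (x : ℝ) : 0 ≤ Tt k x := by
  have := pb11_Tt_ge hp hk hB hk0 x 0 (fun y _ _ => hk0 y)
  simpa using this

theorem pb11_ww_vv (p : ℕ) (y : ℝ) : |ww p y| ≤ 1 * vv p y := by
  rw [pb11_abs, one_mul]
  exact ww_le_vv p y

theorem pb11_int_ww {p : ℕ} (hp : 2 ≤ p) {η : ℝ} (h0 : 0 < η) (h1 : η ≤ 1 / 4) :
    ∫ y : ℝ, Real.exp (rh p η * y) * ww p y ≤ 8 / 3 := by
  have h2 : (8 : ℝ) / 3 = 2 / (3 / 4) := by norm_num
  rw [h2, ← pb11_exp_abs_int (a := 3 / 4) (by norm_num)]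
  exact integral_mono (exp_k_int hp h0 h1 (pb11_meas p) (pb11_ww_vv p))
    (pb10_exp_abs_int (by norm_num)) (fun y => pb11_exp_ww h0 h1 y)

theorem S_ww {p : ℕ} (hp : 2 ≤ p) : ∃ C : ℝ, 0 < C ∧ ∀ η : ℝ, 0 < η → η ≤ 1 / 4 →
    ∀ c : Cfg (rh p η), ∑ i, c.m i * ww p (c.x i) ≤ C := by
  refine ⟨2 * Real.exp ((p : ℝ) + 1) * (8 / 3), by positivity, fun η h0 h1 c => ?_⟩
  have hk0 : ∀ y, 0 ≤ ww p y := fun y => (ww_pos p y).le
  have h2 : ∑ i, c.m i * ww p (c.x i) ≤
      2 * Real.exp ((p : ℝ) + 1) * ∑ i, c.m i * Tt (ww p) (c.x i) := by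
    rw [Finset.mul_sum]
    refine Finset.sum_le_sum fun i _ => ?_
    have h3 := pb11_Tt_ge hp (pb11_meas p) (pb11_ww_vv p) hk0 (c.x i) _
      (fun y hy hy' => pb11_ww_ge p hp hy hy')
    have h4 : ww p (c.x i) ≤ 2 * Real.exp ((p : ℝ) + 1) * Tt (ww p) (c.x i) := by
      calc ww p (c.x i) = 2 * Real.exp ((p : ℝ) + 1) *
            (Real.exp (-((p : ℝ) + 1)) * ww p (c.x i) / 2) := by
            rw [Real.exp_neg]
            field_simp
        _ ≤ _ := mul_le_mul_of_nonneg_left h3 (by positivity)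
    calc c.m i * ww p (c.x i) ≤ c.m i * (2 * Real.exp ((p : ℝ) + 1) * Tt (ww p) (c.x i)) :=
          mul_le_mul_of_nonneg_left h4 (c.m0 i)
      _ = _ := by ring
  have h5 := S_T_le hp h0 h1 c (pb11_meas p) (pb11_ww_vv p) hk0
  rw [(II_T hp h0 h1 (pb11_meas p) (pb11_ww_vv p)).2] at h5
  exact h2.trans (mul_le_mul_of_nonneg_left (h5.trans (pb11_int_ww hp h0 h1)) (by positivity))

theorem S_tail {p : ℕ} (hp : 2 ≤ p) : ∃ C : ℝ, 0 < C ∧ ∀ η : ℝ, 0 < η → η ≤ 1 / 4 →
    ∀ c : Cfg (rh p η), ∀ X : ℝ, 0 ≤ X →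
      ∑ i, (if c.x i < -X then c.m i * ww p (c.x i) else 0) ≤ C * Real.exp (-(X / 4)) := by
  refine ⟨2 * Real.exp ((p : ℝ) + 1) * (4 / 3 * Real.exp (3 / 4)), by positivity,
    fun η h0 h1 c X hX => ?_⟩
  set k : ℝ → ℝ := Set.indicator (Set.Iic (1 - X)) (ww p) with hkdef
  have hkm : Measurable k := (pb11_meas p).indicator measurableSet_Iic
  have hk0 : ∀ y, 0 ≤ k y := fun y => Set.indicator_nonneg (fun y _ => (ww_pos p y).le) y
  have hkw : ∀ y, k y ≤ ww p y := fun y =>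
    Set.indicator_le_self' (fun y _ => (ww_pos p y).le) y
  have hB : ∀ y, |k y| ≤ 1 * vv p y := fun y => by
    rw [abs_of_nonneg (hk0 y), one_mul]
    exact (hkw y).trans (ww_le_vv p y)
  have h2 : ∑ i, (if c.x i < -X then c.m i * ww p (c.x i) else 0) ≤
      2 * Real.exp ((p : ℝ) + 1) * ∑ i, c.m i * Tt k (c.x i) := by
    rw [Finset.mul_sum]
    refine Finset.sum_le_sum fun i _ => ?_
    split_ifs with hi
    · have h3 := pb11_Tt_ge hp hkm hB hk0 (c.x i) (Real.exp (-((p : ℝ) + 1)) * ww p (c.x i))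
        (fun y hy hy' => by
          have : k y = ww p y := Set.indicator_of_mem (by
            rw [Set.mem_Iic]; linarith) _
          rw [this]
          exact pb11_ww_ge p hp hy hy')
      have h4 : ww p (c.x i) ≤ 2 * Real.exp ((p : ℝ) + 1) * Tt k (c.x i) := by
        calc ww p (c.x i) = 2 * Real.exp ((p : ℝ) + 1) *
              (Real.exp (-((p : ℝ) + 1)) * ww p (c.x i) / 2) := by
              rw [Real.exp_neg]
              field_simp
          _ ≤ _ := mul_le_mul_of_nonneg_left h3 (by positivity)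
      calc c.m i * ww p (c.x i) ≤ c.m i * (2 * Real.exp ((p : ℝ) + 1) * Tt k (c.x i)) :=
            mul_le_mul_of_nonneg_left h4 (c.m0 i)
        _ = _ := by ring
    · exact mul_nonneg (by positivity)
        (mul_nonneg (c.m0 i) (pb11_Tt_nonneg hp hkm hB hk0 _))
  have h5 := S_T_le hp h0 h1 c hkm hB hk0
  rw [(II_T hp h0 h1 hkm hB).2] at h5
  have h6 : ∫ y : ℝ, Real.exp (rh p η * y) * k y ≤ 4 / 3 * Real.exp (3 / 4) *
      Real.exp (-(X / 4)) := by
    have h7 : (∫ y : ℝ, Real.exp (rh p η * y) * k y) ≤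
        ∫ y : ℝ, Set.indicator (Set.Iic (1 - X)) (fun y => Real.exp (3 / 4 * y)) y := by
      refine integral_mono (exp_k_int hp h0 h1 hkm hB)
        ((integrable_indicator_iff measurableSet_Iic).mpr
          (integrableOn_exp_mul_Iic (by norm_num) _)) (fun y => ?_)
      by_cases hy : y ∈ Set.Iic (1 - X)
      · simp only [hkdef, Set.indicator_of_mem hy]
        refine (pb11_exp_ww h0 h1 y).trans (Real.exp_le_exp.mpr ?_)
        linarith [neg_abs_le y]
      · simp only [hkdef, Set.indicator_of_notMem hy, mul_zero, le_refl]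
    rw [integral_indicator measurableSet_Iic, integral_exp_mul_Iic (by norm_num)] at h7
    refine h7.trans ?_
    have h8 : Real.exp (3 / 4 * (1 - X)) / (3 / 4) = 4 / 3 * Real.exp (3 / 4 * (1 - X)) := by
      ring
    rw [h8, mul_assoc, ← Real.exp_add]
    refine mul_le_mul_of_nonneg_left (Real.exp_le_exp.mpr ?_) (by norm_num)
    linarith
  calc _ ≤ _ := h2
    _ ≤ 2 * Real.exp ((p : ℝ) + 1) * (4 / 3 * Real.exp (3 / 4) * Real.exp (-(X / 4))) :=
      mul_le_mul_of_nonneg_left (h5.trans h6) (by positivity)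
    _ = _ := by ring

theorem II_ww {p : ℕ} (hp : 2 ≤ p) : ∃ C : ℝ, 0 < C ∧ ∀ η : ℝ, 0 < η → η ≤ 1 / 4 →
    II (rh p η) (ww p) ≤ C ∧
      Integrable (fun x : ℝ => rh p η ^ 2 * Real.exp (rh p η * x) * ww p x) := by
  have hp' : (2 : ℝ) ≤ p := by exact_mod_cast hp
  refine ⟨(p : ℝ) ^ 2 * (8 / 3), by positivity, fun η h0 h1 => ?_⟩
  have hint := exp_k_int hp h0 h1 (pb11_meas p) (pb11_ww_vv p)
  have heq : (fun x : ℝ => rh p η ^ 2 * Real.exp (rh p η * x) * ww p x) =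
      fun x : ℝ => rh p η ^ 2 * (Real.exp (rh p η * x) * ww p x) := by
    ext x; ring
  constructor
  · unfold II
    rw [heq, integral_const_mul]
    have h2 : rh p η ^ 2 ≤ (p : ℝ) ^ 2 := by
      simp only [rh]
      nlinarith
    have h3 : 0 ≤ ∫ y : ℝ, Real.exp (rh p η * y) * ww p y :=
      integral_nonneg fun y => mul_nonneg (Real.exp_pos _).le (ww_pos p y).le
    exact mul_le_mul h2 (pb11_int_ww hp h0 h1) h3 (by positivity)
  · rw [heq]
    exact hint.const_mul _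

theorem pb11_ea_vv {p : ℕ} (hp1 : 2 ≤ p) (y : ℝ) : Real.exp (-(p * |y|)) ≤ vv p y := by
  have hp : (2 : ℝ) ≤ p := by exact_mod_cast hp1
  unfold vv
  rcases le_total 0 y with hy | hy
  · rw [abs_of_nonneg hy]
    refine le_min le_rfl (Real.exp_le_exp.mpr ?_)
    nlinarith
  · rw [abs_of_nonpos hy]
    refine le_min (Real.exp_le_exp.mpr ?_) (Real.exp_le_exp.mpr ?_) <;> nlinarith

theorem pb11_ea_int {p : ℕ} (hp : 2 ≤ p) {η : ℝ} (h0 : 0 < η) (h1 : η ≤ 1 / 4) :
    ∫ y : ℝ, Real.exp (rh p η * y) * Real.exp (-(p * |y|)) =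
      2 * p / ((p : ℝ) ^ 2 - rh p η ^ 2) := by
  have hp' : (2 : ℝ) ≤ p := by exact_mod_cast hp
  have hint : Integrable (fun y : ℝ => Real.exp (rh p η * y) * Real.exp (-(p * |y|))) :=
    exp_k_int hp h0 h1 (k := fun y => Real.exp (-(p * |y|))) (B := 1) (by fun_prop) (fun y => by
      rw [abs_of_pos (Real.exp_pos _), one_mul]
      exact pb11_ea_vv hp y)
  rw [← intervalIntegral.integral_Iic_add_Ioi (b := 0) hint.integrableOn hint.integrableOn]
  have e1 : ∫ y in Set.Iic (0 : ℝ), Real.exp (rh p η * y) * Real.exp (-(p * |y|)) =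
      1 / (2 * p - η) := by
    have h2 := integral_exp_mul_Iic (a := 2 * (p : ℝ) - η) (by linarith) 0
    rw [mul_zero, Real.exp_zero] at h2
    rw [← h2]
    refine setIntegral_congr_fun measurableSet_Iic fun y hy => ?_
    rw [Set.mem_Iic] at hy
    rw [abs_of_nonpos hy, ← Real.exp_add]
    congr 1
    simp only [rh]
    ring
  have e2 : ∫ y in Set.Ioi (0 : ℝ), Real.exp (rh p η * y) * Real.exp (-(p * |y|)) =
      1 / η := by
    have h2 := integral_exp_mul_Ioi (a := -η) (by linarith) 0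
    rw [mul_zero, Real.exp_zero, neg_div_neg_eq] at h2
    rw [← h2]
    refine setIntegral_congr_fun measurableSet_Ioi fun y hy => ?_
    rw [Set.mem_Ioi] at hy
    rw [abs_of_pos hy, ← Real.exp_add]
    congr 1
    simp only [rh]
    ring
  rw [e1, e2]
  simp only [rh]
  have h3 : (p : ℝ) ^ 2 - ((p : ℝ) - η) ^ 2 = η * (2 * p - η) := by ring
  rw [h3]
  have h4 : (2 * (p : ℝ) - η) ≠ 0 := by linarith
  field_simp
  ring

theorem II_Z0 {p : ℕ} (hp : 2 ≤ p) {η : ℝ} (h0 : 0 < η) (h1 : η ≤ 1 / 4) :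
    Integrable (fun x : ℝ => rh p η ^ 2 * Real.exp (rh p η * x) * Real.exp (-(p * |x|))) ∧
    II (rh p η) (fun x => Real.exp (-(p * |x|))) = Z0 p η := by
  have hint : Integrable (fun y : ℝ => Real.exp (rh p η * y) * Real.exp (-(p * |y|))) :=
    exp_k_int hp h0 h1 (k := fun y => Real.exp (-(p * |y|))) (B := 1) (by fun_prop) (fun y => by
      rw [abs_of_pos (Real.exp_pos _), one_mul]
      exact pb11_ea_vv hp y)
  have heq : (fun x : ℝ => rh p η ^ 2 * Real.exp (rh p η * x) * Real.exp (-(p * |x|))) =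
      fun x : ℝ => rh p η ^ 2 * (Real.exp (rh p η * x) * Real.exp (-(p * |x|))) := by
    ext x; ring
  constructor
  · rw [heq]
    exact hint.const_mul _
  · unfold II Z0
    rw [heq, integral_const_mul, pb11_ea_int hp h0 h1]
    ring

theorem pb11_kc_nonneg (p : ℕ) (y : ℝ) : 0 ≤ kc p y := by
  unfold kc
  have := Real.cosh_pos (p * y)
  have := Real.pi_pos
  positivity

theorem pb11_cosh_le (x : ℝ) : Real.cosh x ≤ Real.exp |x| := by
  rw [Real.cosh_eq]
  have h1 : Real.exp x ≤ Real.exp |x| := Real.exp_le_exp.mpr (le_abs_self x)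
  have h2 : Real.exp (-x) ≤ Real.exp |x| := Real.exp_le_exp.mpr (neg_le_abs x)
  linarith

theorem pb11_cosh_ge (x : ℝ) : Real.exp |x| / 2 ≤ Real.cosh x := by
  rw [Real.cosh_eq]
  rcases le_total 0 x with hx | hx
  · rw [abs_of_nonneg hx]
    linarith [Real.exp_pos (-x)]
  · rw [abs_of_nonpos hx]
    linarith [Real.exp_pos x]

theorem pb11_kc_ge (p : ℕ) (y : ℝ) : (p : ℝ) / Real.pi * Real.exp (-(p * |y|)) ≤ kc p y := by
  unfold kc
  have h1 := pb11_cosh_le (p * y)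
  have h2 := Real.cosh_pos (p * y)
  have hp : (0 : ℝ) ≤ p := Nat.cast_nonneg p
  rw [abs_mul, abs_of_nonneg hp] at h1
  rw [Real.exp_neg, ← div_eq_mul_inv]
  exact div_le_div_of_nonneg_left (by positivity) h2 h1

theorem pb11_kc_le {p : ℕ} (hp : 2 ≤ p) (y : ℝ) : |kc p y| ≤ (2 * p / Real.pi) * vv p y := by
  rw [abs_of_nonneg (pb11_kc_nonneg p y)]
  have h1 := pb11_cosh_ge (p * y)
  have h2 := Real.cosh_pos (p * y)
  have hp0 : (0 : ℝ) ≤ p := Nat.cast_nonneg p
  rw [abs_mul, abs_of_nonneg hp0] at h1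
  calc kc p y = (p : ℝ) / Real.pi / Real.cosh (p * y) := rfl
    _ ≤ (p : ℝ) / Real.pi / (Real.exp (p * |y|) / 2) :=
      div_le_div_of_nonneg_left (by positivity) (by positivity) h1
    _ = (2 * p / Real.pi) * Real.exp (-(p * |y|)) := by
      rw [Real.exp_neg]
      field_simp
    _ ≤ _ := mul_le_mul_of_nonneg_left (pb11_ea_vv hp y) (by positivity)

theorem pb11_kc_meas (p : ℕ) : Measurable (kc p) := by
  unfold kc
  have h : Continuous (fun y : ℝ => (p : ℝ) / Real.pi / Real.cosh (p * y)) :=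
    Continuous.div continuous_const (Real.continuous_cosh.comp (by fun_prop))
      (fun y => (Real.cosh_pos _).ne')
  exact h.measurable

theorem Dr_nonneg {p : ℕ} {ρ : ℝ} (c : Cfg ρ) : 0 ≤ c.Dr p :=
  integral_nonneg fun y => mul_nonneg (ee_nonneg c y) (pb11_kc_nonneg p y)

theorem pb11_d_nonneg {p : ℕ} {ρ : ℝ} (c : Cfg ρ) (i : Fin c.n) : 0 ≤ c.d p i := by
  unfold Cfg.d
  rcases c.e1 i with h | h <;> rw [h]
  · linarith [Real.cos_le_one (p * c.a i)]
  · linarith [Real.neg_one_le_cos (p * c.a i)]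

theorem Da_nonneg {p : ℕ} {ρ : ℝ} (c : Cfg ρ) : 0 ≤ c.Da p := by
  unfold Cfg.Da
  have h := Real.pi_pos
  exact mul_nonneg (by positivity) (Finset.sum_nonneg fun i _ =>
    mul_nonneg (c.m0 i) (mul_nonneg (Real.exp_pos _).le (pb11_d_nonneg c i)))

/-- the radial defect controls the error against `exp (-p|y|)` -/
theorem Dr_ge {p : ℕ} (hp : 2 ≤ p) {η : ℝ} (h0 : 0 < η) (h1 : η ≤ 1 / 4) (c : Cfg (rh p η)) :
    Integrable (fun y : ℝ => c.ee y * Real.exp (-(p * |y|))) ∧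
    ∫ y : ℝ, c.ee y * Real.exp (-(p * |y|)) ≤ Real.pi / p * c.Dr p := by
  have hp' : (2 : ℝ) ≤ p := by exact_mod_cast hp
  have hint : Integrable (fun y : ℝ => c.ee y * Real.exp (-(p * |y|))) :=
    ee_k_int hp h0 h1 c (k := fun y => Real.exp (-(p * |y|))) (B := 1) (by fun_prop) (fun y => by
      rw [abs_of_pos (Real.exp_pos _), one_mul]
      exact pb11_ea_vv hp y)
  refine ⟨hint, ?_⟩
  unfold Cfg.Dr
  rw [← integral_const_mul]
  refine integral_mono hint
    ((ee_k_int hp h0 h1 c (pb11_kc_meas p) (pb11_kc_le hp)).const_mul _) (fun y => ?_)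
  have h2 := pb11_kc_ge p y
  have h3 : Real.exp (-(p * |y|)) ≤ Real.pi / p * kc p y := by
    have h4 := Real.pi_pos
    calc Real.exp (-(p * |y|)) = Real.pi / p * ((p : ℝ) / Real.pi * Real.exp (-(p * |y|))) := by
          field_simp
      _ ≤ _ := mul_le_mul_of_nonneg_left h2 (by positivity)
  calc c.ee y * Real.exp (-(p * |y|)) ≤ c.ee y * (Real.pi / p * kc p y) :=
        mul_le_mul_of_nonneg_left h3 (ee_nonneg c y)
    _ = _ := by ring

theorem pb11_right {p : ℕ} (hp : 2 ≤ p) (x z : ℝ) (hz : 0 ≤ z) (hxz : x ≤ z) :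
    ∫ y in Set.Ioi z, (y - x) * ((p : ℝ) ^ 2 * Real.exp (-(p * |y|))) =
      ((z - x) * p + 1) * Real.exp (-(p * z)) := by
  have hp' : (2 : ℝ) ≤ p := by exact_mod_cast hp
  have hkm : Measurable (fun y : ℝ => (p : ℝ) ^ 2 * Real.exp (-(p * |y|))) := by fun_prop
  have hB : ∀ y, |(p : ℝ) ^ 2 * Real.exp (-(p * |y|))| ≤ (p : ℝ) ^ 2 * vv p y := fun y => by
    rw [abs_of_pos (by positivity)]
    exact mul_le_mul_of_nonneg_left (pb11_ea_vv hp y) (by positivity)
  have hint : IntegrableOn (fun y : ℝ => (y - x) * ((p : ℝ) ^ 2 * Real.exp (-(p * |y|))))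
      (Set.Ioi z) := (Tt_int hp hkm hB x).mono_set (Set.Ioi_subset_Ioi hxz)
  have h1 : ∀ y ∈ Set.Ioi z, (y - x) * ((p : ℝ) ^ 2 * Real.exp (-(p * |y|))) =
      (y - x) * ((p : ℝ) ^ 2 * Real.exp (-(p * y))) := by
    intro y hy
    rw [abs_of_pos (lt_of_le_of_lt hz hy)]
  rw [setIntegral_congr_fun measurableSet_Ioi h1]
  have hint2 := hint.congr_fun h1 measurableSet_Ioi
  have hderiv : ∀ y ∈ Set.Ici z, HasDerivAt
      (fun y : ℝ => -(((y - x) * p + 1) * Real.exp (-(p * y))))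
      ((y - x) * ((p : ℝ) ^ 2 * Real.exp (-(p * y)))) y := by
    intro y _
    have h2 : HasDerivAt (fun y : ℝ => (y - x) * p + 1) (1 * p) y :=
      (((hasDerivAt_id y).sub_const x).mul_const (p : ℝ)).add_const 1
    have h3 : HasDerivAt (fun y : ℝ => Real.exp (-(p * y)))
        (Real.exp (-(p * y)) * -(p * 1)) y :=
      (((hasDerivAt_id y).const_mul (p : ℝ)).neg).exp
    have h4 := (h2.mul h3).neg
    refine h4.congr_deriv ?_
    ring
  have htend : Tendsto (fun y : ℝ => -(((y - x) * p + 1) * Real.exp (-(p * y)))) atTop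
      (𝓝 0) := by
    have h2 : Tendsto (fun y : ℝ => y ^ 1 * Real.exp (-(p : ℝ) * y)) atTop (𝓝 0) := by
      have := Real.tendsto_pow_mul_exp_neg_atTop_nhds_zero 1
      have h3 : Tendsto (fun y : ℝ => (p : ℝ) * y) atTop atTop :=
        tendsto_id.const_mul_atTop (by linarith)
      have h4 := (this.comp h3).const_mul ((p : ℝ)⁻¹)
      rw [mul_zero] at h4
      refine h4.congr fun y => ?_
      simp only [Function.comp_apply, pow_one]
      field_simp
    have h3 : Tendsto (fun y : ℝ => Real.exp (-(p : ℝ) * y)) atTop (𝓝 0) := by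
      refine Real.tendsto_exp_atBot.comp ?_
      exact tendsto_id.const_mul_atTop_of_neg (by linarith)
    have h4 := ((h2.const_mul (p : ℝ)).add (h3.const_mul (1 - x * p))).neg
    rw [mul_zero, mul_zero, add_zero, neg_zero] at h4
    refine h4.congr fun y => ?_
    rw [neg_mul]
    ring
  rw [integral_Ioi_of_hasDerivAt_of_tendsto' hderiv hint2 htend]
  ring

/-- `exp (-p|x|)` as a second primitive -/
theorem pb11_Tt_ea {p : ℕ} (hp : 2 ≤ p) (x : ℝ) :
    Real.exp (-(p * |x|)) =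
      Tt (fun y => (p : ℝ) ^ 2 * Real.exp (-(p * |y|))) x - 2 * p * max 0 (0 - x) := by
  have hp' : (2 : ℝ) ≤ p := by exact_mod_cast hp
  have hkm : Measurable (fun y : ℝ => (p : ℝ) ^ 2 * Real.exp (-(p * |y|))) := by fun_prop
  have hB : ∀ y, |(p : ℝ) ^ 2 * Real.exp (-(p * |y|))| ≤ (p : ℝ) ^ 2 * vv p y := fun y => by
    rw [abs_of_pos (by positivity)]
    exact mul_le_mul_of_nonneg_left (pb11_ea_vv hp y) (by positivity)
  have hint := Tt_int hp hkm hB x
  rcases le_total 0 x with hx | hx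
  · unfold Tt
    rw [pb11_right hp x x hx le_rfl, max_eq_left (by linarith), abs_of_nonneg hx]
    ring
  · unfold Tt
    rw [← Set.Ioc_union_Ioi_eq_Ioi hx, setIntegral_union (Set.Ioc_disjoint_Ioi le_rfl)
      measurableSet_Ioi (hint.mono_set Set.Ioc_subset_Ioi_self)
      (hint.mono_set (Set.Ioi_subset_Ioi hx)), pb11_right hp x 0 le_rfl hx,
      max_eq_right (by linarith), abs_of_nonpos hx]
    have h1 : ∫ y in Set.Ioc x 0, (y - x) * ((p : ℝ) ^ 2 * Real.exp (-(p * |y|))) =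
        (-x * p - 1) + Real.exp (p * x) := by
      have h2 : ∀ y ∈ Set.Ioc x 0, (y - x) * ((p : ℝ) ^ 2 * Real.exp (-(p * |y|))) =
          (y - x) * ((p : ℝ) ^ 2 * Real.exp (p * y)) := by
        intro y hy
        rw [abs_of_nonpos hy.2]
        congr 3
        ring
      rw [setIntegral_congr_fun measurableSet_Ioc h2, ← intervalIntegral.integral_of_le hx]
      have hderiv : ∀ y ∈ Set.uIcc x 0, HasDerivAt
          (fun y : ℝ => ((y - x) * p - 1) * Real.exp (p * y))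
          ((y - x) * ((p : ℝ) ^ 2 * Real.exp (p * y))) y := by
        intro y _
        have h2 : HasDerivAt (fun y : ℝ => (y - x) * p - 1) (1 * p) y :=
          (((hasDerivAt_id y).sub_const x).mul_const (p : ℝ)).sub_const 1
        have h3 : HasDerivAt (fun y : ℝ => Real.exp (p * y))
            (Real.exp (p * y) * (p * 1)) y :=
          ((hasDerivAt_id y).const_mul (p : ℝ)).exp
        refine (h2.mul h3).congr_deriv ?_
        ring
      rw [intervalIntegral.integral_eq_sub_of_hasDerivAt hderiv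
        (Continuous.intervalIntegrable (by fun_prop) _ _)]
      simp only [mul_zero, Real.exp_zero]
      ring
    rw [h1]
    simp only [mul_zero, neg_zero, Real.exp_zero]
    have h3 : -((p : ℝ) * -x) = p * x := by ring
    rw [h3]
    ring

theorem Z_ge {p : ℕ} (hp : 2 ≤ p) {η : ℝ} (h0 : 0 < η) (h1 : η ≤ 1 / 4) (c : Cfg (rh p η)) :
    Z0 p η - Real.pi * p * c.Dr p ≤ ∑ i, c.m i * Real.exp (-(p * |c.x i|)) := by
  have hp' : (2 : ℝ) ≤ p := by exact_mod_cast hp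
  have hkm : Measurable (fun y : ℝ => (p : ℝ) ^ 2 * Real.exp (-(p * |y|))) := by fun_prop
  have hB : ∀ y, |(p : ℝ) ^ 2 * Real.exp (-(p * |y|))| ≤ (p : ℝ) ^ 2 * vv p y := fun y => by
    rw [abs_of_pos (by positivity)]
    exact mul_le_mul_of_nonneg_left (pb11_ea_vv hp y) (by positivity)
  have h2 := S_T hp h0 h1 c hkm hB
  rw [(II_T hp h0 h1 hkm hB).2] at h2
  have h3 : ∫ y : ℝ, Real.exp (rh p η * y) * ((p : ℝ) ^ 2 * Real.exp (-(p * |y|))) =
      Z0 p η + 2 * p := by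
    have h4 : ∀ y : ℝ, Real.exp (rh p η * y) * ((p : ℝ) ^ 2 * Real.exp (-(p * |y|))) =
        (p : ℝ) ^ 2 * (Real.exp (rh p η * y) * Real.exp (-(p * |y|))) := fun y => by ring
    simp_rw [h4]
    rw [integral_const_mul, pb11_ea_int hp h0 h1]
    unfold Z0
    have h5 : (p : ℝ) ^ 2 - rh p η ^ 2 ≠ 0 := by
      simp only [rh]
      have : 0 < (p : ℝ) ^ 2 - ((p : ℝ) - η) ^ 2 := by nlinarith
      exact this.ne'
    field_simp
    ring
  have h4 : ∫ y : ℝ, c.ee y * ((p : ℝ) ^ 2 * Real.exp (-(p * |y|))) ≤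
      Real.pi * p * c.Dr p := by
    have h5 : ∀ y : ℝ, c.ee y * ((p : ℝ) ^ 2 * Real.exp (-(p * |y|))) =
        (p : ℝ) ^ 2 * (c.ee y * Real.exp (-(p * |y|))) := fun y => by ring
    simp_rw [h5]
    rw [integral_const_mul]
    calc (p : ℝ) ^ 2 * ∫ y : ℝ, c.ee y * Real.exp (-(p * |y|)) ≤
          (p : ℝ) ^ 2 * (Real.pi / p * c.Dr p) :=
        mul_le_mul_of_nonneg_left (Dr_ge hp h0 h1 c).2 (by positivity)
      _ = _ := by
        field_simp
  have h5 : c.N 0 ≤ 1 := by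
    have := c.hN 0
    rw [mul_zero, Real.exp_zero] at this
    exact this
  have h6 : ∑ i, c.m i * Real.exp (-(p * |c.x i|)) =
      ∑ i, c.m i * Tt (fun y => (p : ℝ) ^ 2 * Real.exp (-(p * |y|))) (c.x i) -
        2 * p * c.N 0 := by
    unfold Cfg.N
    rw [Finset.mul_sum, ← Finset.sum_sub_distrib]
    refine Finset.sum_congr rfl fun i _ => ?_
    rw [pb11_Tt_ea hp (c.x i)]
    ring
  rw [h6, h2, h3]
  nlinarith

theorem Ac_eq {p : ℕ} (hp : 1 ≤ p) {ρ : ℝ} (c : Cfg ρ) :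
    c.Ac p = (p : ℝ)⁻¹ * ∑ i, c.m i * Real.exp (-(p * |c.x i|)) - Real.pi * c.Da p := by
  have hp' : (1 : ℝ) ≤ p := by exact_mod_cast hp
  unfold Cfg.Ac Cfg.Da Cfg.d
  have h : Real.pi * ((Real.pi * p)⁻¹ * ∑ i, c.m i * (Real.exp (-(p * |c.x i|)) *
      (1 - c.e i * Real.cos (p * c.a i)))) =
      (p : ℝ)⁻¹ * ∑ i, c.m i * (Real.exp (-(p * |c.x i|)) *
      (1 - c.e i * Real.cos (p * c.a i))) := by
    rw [mul_inv, ← mul_assoc, ← mul_assoc, mul_inv_cancel₀ Real.pi_ne_zero, one_mul]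
  rw [h, ← mul_sub, ← Finset.sum_sub_distrib]
  congr 1
  refine Finset.sum_congr rfl fun i _ => ?_
  ring

theorem Ac_ge {p : ℕ} (hp : 2 ≤ p) {η : ℝ} (h0 : 0 < η) (h1 : η ≤ 1 / 4) (c : Cfg (rh p η)) :
    Z0 p η / p - Real.pi * c.DD p ≤ c.Ac p := by
  have hp' : (2 : ℝ) ≤ p := by exact_mod_cast hp
  rw [Ac_eq (by omega) c]
  have h2 := Z_ge hp h0 h1 c
  have h3 : (p : ℝ)⁻¹ * (Z0 p η - Real.pi * p * c.Dr p) ≤
      (p : ℝ)⁻¹ * ∑ i, c.m i * Real.exp (-(p * |c.x i|)) :=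
    mul_le_mul_of_nonneg_left h2 (by positivity)
  have h4 : (p : ℝ)⁻¹ * (Z0 p η - Real.pi * p * c.Dr p) = Z0 p η / p - Real.pi * c.Dr p := by
    field_simp
  unfold Cfg.DD
  rw [mul_add]
  linarith

theorem Z0_bd {p : ℕ} (hp : 2 ≤ p) {η : ℝ} (h0 : 0 < η) (h1 : η ≤ 1 / 4) :
    (p : ℝ) / (2 * η) ≤ Z0 p η ∧ Z0 p η ≤ (p : ℝ) ^ 2 / η := by
  have hp' : (2 : ℝ) ≤ p := by exact_mod_cast hp
  unfold Z0
  have h3 : (p : ℝ) ^ 2 - rh p η ^ 2 = η * (2 * p - η) := by simp only [rh]; ring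
  rw [h3]
  have h4 : 0 < 2 * (p : ℝ) - η := by linarith
  simp only [rh]
  constructor
  · rw [div_le_div_iff₀ (by positivity) (by positivity)]
    have h5 : 0 ≤ (p : ℝ) * η * (4 * ((p : ℝ) - η) ^ 2 - (2 * p - η)) := by
      apply mul_nonneg (by positivity)
      nlinarith
    nlinarith
  · rw [div_le_div_iff₀ (by positivity) (by positivity)]
    have h5 : 0 ≤ (p : ℝ) * η * (p * (2 * p - η) - 2 * ((p : ℝ) - η) ^ 2) := by
      apply mul_nonneg (by positivity)
      nlinarith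
    nlinarith

end Pool.Agent.PfB
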