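import Pool.Agent.PfB.Ker

/-! MP_f2c8f8_an, project PfB, row PB-7 -/

set_option autoImplicit false

open MeasureTheory Filter
open scoped ComplexConjugate Topology

noncomputable section

namespace Pool.Agent.PfB

theorem pb7_sj_sq (j : ℤ) : sj j * sj j = 1 := by
  unfold sj
  rw [← zpow_add₀ (by norm_num : (-1 : ℝ) ≠ 0), ← two_mul, zpow_mul]
  norm_num

theorem pb7_sg_pow (p : ℕ) : sg p * (-1) ^ p = -1 := by
  unfold sg
  rw [pow_succ, mul_right_comm, ← mul_pow]
  norm_num

theorem pb7_th_neg (p : ℕ) (j : ℤ) : th p (-1 - j) = -th p j := by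
  unfold th
  push_cast
  ring

theorem pb7_th_per {p : ℕ} (hp : 1 ≤ p) (j n : ℤ) :
    th p (j + 2 * p * n) = th p j + 2 * Real.pi * n := by
  have h : (p : ℝ) ≠ 0 := by positivity
  unfold th
  push_cast
  field_simp
  ring

theorem pb7_mul_th {p : ℕ} (hp : 1 ≤ p) (j : ℤ) : (p : ℝ) * th p j = j * Real.pi + Real.pi / 2 := by
  have h : (p : ℝ) ≠ 0 := by positivity
  unfold th
  field_simp

theorem kt_per {p : ℕ} (hp : 1 ≤ p) (x : ℝ) (j n : ℤ) : kt p x (j + 2 * p * n) = kt p x j := by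
  unfold kt
  rw [pb7_th_per hp, KK_per]
  have h : sj (j + 2 * p * n) = sj j := by
    unfold sj
    rw [zpow_add₀ (by norm_num : (-1 : ℝ) ≠ 0), mul_assoc, zpow_mul]
    norm_num
  rw [h]

theorem kt_neg {p : ℕ} (hp : 1 ≤ p) (x : ℝ) (j : ℤ) : kt p x (-1 - j) = -kt p x j := by
  unfold kt
  rw [pb7_th_neg, KK_neg]
  have h : sj (-1 - j) = -sj j := by
    have e : sj (-1 - j) * sj j = -1 := by
      unfold sj
      rw [← zpow_add₀ (by norm_num : (-1 : ℝ) ≠ 0), sub_add_cancel]
      norm_num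
    calc sj (-1 - j) = (sj (-1 - j) * sj j) * sj j := by rw [mul_assoc, pb7_sj_sq, mul_one]
      _ = -sj j := by rw [e]; ring
  rw [h]
  ring

/-- the denominator -/
def pb7_den (θ t : ℝ) : ℝ := 1 + 2 * t * Real.cos θ + t ^ 2

theorem pb7_den_eq (θ t : ℝ) :
    pb7_den θ t = (1 + t * Real.cos θ) ^ 2 + (t * Real.sin θ) ^ 2 := by
  have := Real.sin_sq_add_cos_sq θ
  unfold pb7_den
  linear_combination -t ^ 2 * this

theorem pb7_sin_ne {p : ℕ} (hp : 1 ≤ p) (j : ℤ) : Real.sin (th p j) ≠ 0 := by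
  intro h
  obtain ⟨n, hn⟩ := Real.sin_eq_zero_iff.1 h
  have hpos : (p : ℝ) ≠ 0 := by positivity
  unfold th at hn
  field_simp at hn
  have h2 : (n : ℝ) * p * 2 = 2 * j + 1 := by linarith
  have h3 : n * p * 2 = 2 * j + 1 := by exact_mod_cast h2
  omega

theorem pb7_den_pos {p : ℕ} (hp : 1 ≤ p) (j : ℤ) (t : ℝ) : 0 < pb7_den (th p j) t := by
  rw [pb7_den_eq]
  have hs := pb7_sin_ne hp j
  rcases eq_or_ne t 0 with rfl | ht
  · norm_num
  · have : 0 < (t * Real.sin (th p j)) ^ 2 := by positivity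
    positivity

theorem pb7_cont {p : ℕ} (hp : 1 ≤ p) (j : ℤ) :
    Continuous (fun t : ℝ => t ^ p / (1 + 2 * t * Real.cos (th p j) + t ^ 2)) := by
  apply Continuous.div (by fun_prop) (by fun_prop)
  intro t
  exact (pb7_den_pos hp j t).ne'

theorem pb7_wz (x b : ℝ) : wz x b =
    (-(Real.exp (-x) * Real.cos b) : ℝ) + (-(Real.exp (-x) * Real.sin b) : ℝ) * Complex.I := by
  unfold wz
  rw [Complex.exp_add, Complex.exp_mul_I, ← Complex.ofReal_neg, ← Complex.ofReal_exp,
    ← Complex.ofReal_cos, ← Complex.ofReal_sin]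
  push_cast
  ring

theorem pb7_wz_re (x b : ℝ) : (wz x b).re = -(Real.exp (-x) * Real.cos b) := by
  rw [pb7_wz, Complex.add_re, Complex.ofReal_re, Complex.re_ofReal_mul, Complex.I_re, mul_zero,
    add_zero]

theorem pb7_wz_im (x b : ℝ) : (wz x b).im = -(Real.exp (-x) * Real.sin b) := by
  rw [pb7_wz, Complex.add_im, Complex.ofReal_im, Complex.im_ofReal_mul, Complex.I_im, mul_one,
    zero_add]

theorem pb7_wz_pow {p : ℕ} (hp : 1 ≤ p) (x : ℝ) (j : ℤ) :
    wz x (th p j) ^ p = ((-1) ^ p * Real.exp (-x) ^ p * sj j : ℝ) * Complex.I := by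
  have h1 : Complex.exp ((p : ℂ) * ((th p j : ℂ) * Complex.I)) = (sj j : ℝ) * Complex.I := by
    have h2 : (p : ℂ) * ((th p j : ℂ) * Complex.I) = ((p * th p j : ℝ) : ℂ) * Complex.I := by
      push_cast; ring
    rw [h2, pb7_mul_th hp, Complex.exp_mul_I, ← Complex.ofReal_cos, ← Complex.ofReal_sin,
      Real.cos_add_pi_div_two, Real.sin_add_pi_div_two, Real.sin_int_mul_pi, Real.cos_int_mul_pi]
    simp [sj]
  unfold wz
  rw [Complex.exp_add, neg_pow, mul_pow, ← Complex.exp_nat_mul ((th p j : ℂ) * Complex.I), h1,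
    ← Complex.ofReal_neg, ← Complex.ofReal_exp]
  push_cast
  ring

theorem pb7_FA {p : ℕ} (hp : 1 ≤ p) (x : ℝ) (j : ℤ) : sg p * sj j * (FA p x (th p j)).re =
    -(Real.sin (th p j) * (Real.exp (-x) ^ p /
      (1 + 2 * Real.exp (-x) * Real.cos (th p j) + Real.exp (-x) ^ 2)) * Real.exp (-x)) := by
  have hd := pb7_den_pos hp j (Real.exp (-x))
  have h1 : (1 - wz x (th p j)).re = 1 + Real.exp (-x) * Real.cos (th p j) := by
    rw [Complex.sub_re, pb7_wz_re, Complex.one_re]; ring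
  have h2 : (1 - wz x (th p j)).im = Real.exp (-x) * Real.sin (th p j) := by
    rw [Complex.sub_im, pb7_wz_im, Complex.one_im]; ring
  have h3 : Complex.normSq (1 - wz x (th p j)) = pb7_den (th p j) (Real.exp (-x)) := by
    rw [Complex.normSq_apply, h1, h2, pb7_den_eq]; ring
  unfold FA
  rw [pb7_wz_pow hp, Complex.div_re, h1, h2, h3]
  simp only [Complex.mul_re, Complex.mul_im, Complex.ofReal_re, Complex.ofReal_im, Complex.I_re,
    Complex.I_im, mul_zero, mul_one, zero_mul, sub_zero, zero_div, zero_add, add_zero]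
  have h4 := pb7_sj_sq j
  have h5 := pb7_sg_pow p
  unfold pb7_den at hd ⊢
  rw [← mul_div_assoc, ← mul_div_assoc, div_mul_eq_mul_div, ← neg_div]
  congr 1
  linear_combination (Real.exp (-x) ^ p * Real.exp (-x) * Real.sin (th p j) * (sg p * (-1) ^ p)) *
    h4 + (Real.exp (-x) ^ p * Real.exp (-x) * Real.sin (th p j)) * h5

theorem pb7_wz_ne {p : ℕ} (hp : 1 ≤ p) (x : ℝ) (j : ℤ) : wz x (th p j) ≠ 1 := by
  intro h
  have h2 : (1 - wz x (th p j)).im = Real.exp (-x) * Real.sin (th p j) := by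
    rw [Complex.sub_im, pb7_wz_im, Complex.one_im]; ring
  rw [h] at h2
  simp only [sub_self, Complex.zero_im] at h2
  exact mul_ne_zero (Real.exp_pos _).ne' (pb7_sin_ne hp j) h2.symm

theorem pb7_KK_lim (p : ℕ) (b : ℝ) : Tendsto (fun x => KK p x b) atTop (𝓝 0) := by
  have he : Tendsto (fun x : ℝ => Real.exp (-x)) atTop (𝓝 0) := Real.tendsto_exp_neg_atTop_nhds_zero
  have h1 : Tendsto (fun x : ℝ => Complex.exp (-(x : ℂ) + (b : ℂ) * Complex.I)) atTop (𝓝 0) := by
    rw [tendsto_zero_iff_norm_tendsto_zero]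
    refine he.congr fun x => ?_
    rw [Complex.norm_exp]
    simp
  have h2 : Tendsto (fun x : ℝ => Real.log ‖(1 : ℂ) + Complex.exp (-(x : ℂ) + (b : ℂ) * Complex.I)‖)
      atTop (𝓝 0) := by
    have h3 := (h1.const_add (1 : ℂ)).norm
    rw [add_zero, norm_one] at h3
    have h4 := (Real.continuousAt_log (one_ne_zero)).tendsto.comp h3
    rw [Real.log_one] at h4
    exact h4
  have h5 : Tendsto (fun x : ℝ => ∑ j ∈ Finset.Icc 1 (p - 1),
      (-1 : ℝ) ^ j * Real.exp (-(j * x)) * Real.cos (j * b) / j) atTop (𝓝 0) := by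
    have h6 : Tendsto (fun x : ℝ => ∑ j ∈ Finset.Icc 1 (p - 1),
        (-1 : ℝ) ^ j * Real.exp (-(j * x)) * Real.cos (j * b) / j) atTop
        (𝓝 (∑ j ∈ Finset.Icc 1 (p - 1), 0)) := by
      apply tendsto_finsetSum
      intro j hj
      have hj1 : 1 ≤ j := (Finset.mem_Icc.1 hj).1
      have h7 : Tendsto (fun x : ℝ => Real.exp (-(j * x))) atTop (𝓝 0) := by
        have h8 := he.pow j
        rw [zero_pow (by omega)] at h8
        refine h8.congr fun x => ?_
        rw [← Real.exp_nat_mul]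
        congr 1; ring
      have h9 := ((h7.const_mul ((-1 : ℝ) ^ j)).mul_const (Real.cos (j * b))).div_const (j : ℝ)
      simpa using h9
    simpa using h6
  have := h2.add h5
  rw [add_zero] at this
  exact this

theorem kt_eq_int {p : ℕ} (hp : 1 ≤ p) (x : ℝ) (j : ℤ) : kt p x j = Real.sin (th p j) *
    ∫ t in (0 : ℝ)..(Real.exp (-x)), t ^ p / (1 + 2 * t * Real.cos (th p j) + t ^ 2) := by
  set f : ℝ → ℝ := fun t => t ^ p / (1 + 2 * t * Real.cos (th p j) + t ^ 2) with hf
  have hc : Continuous f := pb7_cont hp j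
  set D : ℝ → ℝ := fun y => kt p y j - Real.sin (th p j) * ∫ t in (0 : ℝ)..(Real.exp (-y)), f t
    with hD
  have hder : ∀ y, HasDerivAt D 0 y := by
    intro y
    have h1 : HasDerivAt (fun y => kt p y j) (sg p * sj j * (FA p y (th p j)).re) y :=
      (KK_x hp (pb7_wz_ne hp y j)).const_mul (sg p * sj j)
    have h2 : HasDerivAt (fun z => ∫ t in (0 : ℝ)..z, f t) (f (Real.exp (-y))) (Real.exp (-y)) :=
      intervalIntegral.integral_hasDerivAt_right (hc.intervalIntegrable _ _)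
        (hc.stronglyMeasurableAtFilter _ _) hc.continuousAt
    have h3 : HasDerivAt (fun y : ℝ => Real.exp (-y)) (Real.exp (-y) * (-1)) y :=
      (hasDerivAt_neg y).exp
    have h4 := (h2.comp y h3).const_mul (Real.sin (th p j))
    have h5 := h1.sub h4
    refine h5.congr_deriv ?_
    rw [pb7_FA hp]
    simp only [hf]
    ring
  have hconst : ∀ y, D y = D x := by
    intro y
    exact is_const_of_deriv_eq_zero (fun y => (hder y).differentiableAt) (fun y => (hder y).deriv)
      y x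
  have hlim : Tendsto D atTop (𝓝 0) := by
    have h1 : Tendsto (fun y => kt p y j) atTop (𝓝 0) := by
      have := (pb7_KK_lim p (th p j)).const_mul (sg p * sj j)
      rw [mul_zero] at this
      exact this
    have h2 : Tendsto (fun y : ℝ => ∫ t in (0 : ℝ)..(Real.exp (-y)), f t) atTop (𝓝 0) := by
      have h3 : ContinuousAt (fun z : ℝ => ∫ t in (0 : ℝ)..z, f t) 0 :=
        (intervalIntegral.continuous_primitive (fun a b => hc.intervalIntegrable a b) 0).continuousAt
      have h4 := h3.tendsto.comp Real.tendsto_exp_neg_atTop_nhds_zero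
      simpa [Function.comp_def] using h4
    have h3 := h1.sub (h2.const_mul (Real.sin (th p j)))
    rw [mul_zero, sub_zero] at h3
    exact h3
  have h0 : D x = 0 := by
    have h1 : Tendsto D atTop (𝓝 (D x)) := by
      have : D = fun _ => D x := funext hconst
      rw [this]
      exact tendsto_const_nhds
    exact tendsto_nhds_unique h1 hlim
  simp only [hD] at h0
  linarith

theorem pb7_th_mem {p : ℕ} (hp : 1 ≤ p) {j : ℤ} (h0 : 0 ≤ j) (h1 : j < p) :
    0 < th p j ∧ th p j < Real.pi := by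
  have hpi := Real.pi_pos
  have hp' : (0 : ℝ) < p := by positivity
  have hj : (0 : ℝ) ≤ j := by exact_mod_cast h0
  have hj1 : (j : ℝ) + 1 ≤ p := by exact_mod_cast h1
  unfold th
  constructor
  · positivity
  · rw [div_lt_iff₀ (by positivity)]
    nlinarith

theorem pb7_sin_pos {p : ℕ} (hp : 1 ≤ p) {j : ℤ} (h0 : 0 ≤ j) (h1 : j < p) :
    0 < Real.sin (th p j) :=
  Real.sin_pos_of_pos_of_lt_pi (pb7_th_mem hp h0 h1).1 (pb7_th_mem hp h0 h1).2

theorem kt_nonneg {p : ℕ} (hp : 1 ≤ p) (x : ℝ) {j : ℤ} (h0 : 0 ≤ j) (h1 : j < p) :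
    0 ≤ kt p x j := by
  rw [kt_eq_int hp]
  refine mul_nonneg (pb7_sin_pos hp h0 h1).le ?_
  apply intervalIntegral.integral_nonneg (Real.exp_pos _).le
  intro t ht
  exact div_nonneg (pow_nonneg ht.1 _) (pb7_den_pos hp j t).le

theorem kt_top {p : ℕ} (hp : 2 ≤ p) : ∃ c : ℝ, 0 < c ∧ ∀ x : ℝ, c * ww p x ≤ kt p x (p - 1) := by
  have hp1 : 1 ≤ p := by omega
  have hs := pb7_sin_pos hp1 (j := (p : ℤ) - 1) (by omega) (by omega)
  have hp' : (0 : ℝ) < p := by positivity
  refine ⟨Real.sin (th p (p - 1)) * (1 / (4 * ((p : ℝ) + 1))), by positivity, fun x => ?_⟩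
  rw [kt_eq_int hp1, mul_assoc]
  refine mul_le_mul_of_nonneg_left ?_ hs.le
  set z := Real.exp (-x) with hz
  have hz0 : 0 < z := Real.exp_pos _
  set M := max 1 z with hM
  have hM1 : 1 ≤ M := le_max_left _ _
  have hMz : z ≤ M := le_max_right _ _
  -- comparison with a power
  have hcmp : (∫ t in (0 : ℝ)..z, t ^ p / (4 * M ^ 2)) ≤
      ∫ t in (0 : ℝ)..z, t ^ p / (1 + 2 * t * Real.cos (th p (p - 1)) + t ^ 2) := by
    apply intervalIntegral.integral_mono_on hz0.le
      (Continuous.intervalIntegrable (by fun_prop) _ _)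
      ((pb7_cont hp1 _).intervalIntegrable _ _)
    intro t ht
    have hc := Real.cos_le_one (th p (p - 1))
    have hd := pb7_den_pos hp1 ((p : ℤ) - 1) t
    unfold pb7_den at hd
    apply div_le_div_of_nonneg_left (pow_nonneg ht.1 _) hd
    have h1 : t ≤ M := ht.2.trans hMz
    have h0 := ht.1
    nlinarith [mul_nonneg h0 (sub_nonneg.2 hc)]
  refine le_trans ?_ hcmp
  rw [intervalIntegral.integral_div, integral_pow]
  have h2 : ww p x ≤ z ^ (p + 1) / M ^ 2 := by
    unfold ww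
    rw [le_div_iff₀ (by positivity)]
    rcases le_total z 1 with h | h
    · have hM' : M = 1 := max_eq_left h
      rw [hM', one_pow, mul_one]
      refine (min_le_left _ _).trans (le_of_eq ?_)
      rw [hz, ← Real.exp_nat_mul]
      congr 1; push_cast; ring
    · have hM' : M = z := max_eq_right h
      rw [hM']
      calc min (Real.exp (-(((p : ℝ) + 1) * x))) (Real.exp (-(((p : ℝ) - 1) * x))) * z ^ 2
          ≤ Real.exp (-(((p : ℝ) - 1) * x)) * z ^ 2 :=
            mul_le_mul_of_nonneg_right (min_le_right _ _) (by positivity)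
        _ = z ^ (p + 1) := by
            rw [hz, ← Real.exp_nat_mul, ← Real.exp_nat_mul, ← Real.exp_add]
            congr 1; push_cast; ring
  have h3 : (z ^ (p + 1) - 0 ^ (p + 1)) / ((p : ℝ) + 1) / (4 * M ^ 2) =
      1 / (4 * ((p : ℝ) + 1)) * (z ^ (p + 1) / M ^ 2) := by
    rw [zero_pow (by omega), sub_zero]
    field_simp
  rw [h3]
  exact mul_le_mul_of_nonneg_left h2 (by positivity)

/-! ### The sum -/

theorem pb7_sum_zero {p : ℕ} (hp : 1 ≤ p) (x : ℝ) : ∑ j ∈ JJ p, kt p x j = 0 := by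
  have h := sum_JJ_neg (p := p) (fun j => kt p x j)
  simp only [kt_neg hp, Finset.sum_neg_distrib] at h
  linarith

theorem pb7_split {a b c : ℤ} (h1 : a ≤ b) (h2 : b ≤ c) (f : ℤ → ℝ) :
    ∑ j ∈ Finset.Ico a c, f j = ∑ j ∈ Finset.Ico a b, f j + ∑ j ∈ Finset.Ico b c, f j := by
  rw [← Finset.Ico_union_Ico_eq_Ico h1 h2, Finset.sum_union]
  rw [Finset.disjoint_left]
  intro j hj hj'
  rw [Finset.mem_Ico] at hj hj'
  omega

theorem pb7_shift {p : ℕ} (hp : 1 ≤ p) (x : ℝ) {m : ℤ} (h1 : 1 ≤ m) (h2 : m < 2 * p) :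
    ∑ j ∈ JJ p, th p j * kt p x (j - m) =
      ∑ j ∈ JJ p, th p j * kt p x j - 2 * Real.pi * ∑ j ∈ Finset.Ico ((p : ℤ) - m) p, kt p x j := by
  have hp' : (p : ℝ) ≠ 0 := by positivity
  have hA : ∑ j ∈ Finset.Ico (-(p : ℤ)) (-p + m), th p j * kt p x (j - m) =
      ∑ i ∈ Finset.Ico ((p : ℤ) - m) p,
        (th p i + Real.pi * m / p - 2 * Real.pi) * kt p x i := by
    refine Finset.sum_nbij' (fun j => j - m + 2 * p) (fun i => i + m - 2 * p) ?_ ?_ ?_ ?_ ?_
    · intro j hj; rw [Finset.mem_Ico] at hj ⊢; omega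
    · intro j hj; rw [Finset.mem_Ico] at hj ⊢; omega
    · intro j _; ring
    · intro j _; ring
    · intro j _
      have e1 := kt_per hp x (j - m) 1
      rw [mul_one] at e1
      rw [e1]
      congr 1
      unfold th
      push_cast
      field_simp
      ring
  have hB : ∑ j ∈ Finset.Ico (-(p : ℤ) + m) p, th p j * kt p x (j - m) =
      ∑ i ∈ Finset.Ico (-(p : ℤ)) (p - m), (th p i + Real.pi * m / p) * kt p x i := by
    refine Finset.sum_nbij' (fun j => j - m) (fun i => i + m) ?_ ?_ ?_ ?_ ?_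
    · intro j hj; rw [Finset.mem_Ico] at hj ⊢; omega
    · intro j hj; rw [Finset.mem_Ico] at hj ⊢; omega
    · intro j _; ring
    · intro j _; ring
    · intro j _
      congr 1
      unfold th
      push_cast
      field_simp
      ring
  have hz := pb7_sum_zero hp x
  unfold JJ at hz ⊢
  rw [pb7_split (a := -(p : ℤ)) (b := -p + m) (c := p) (by omega) (by omega)
    (fun j => th p j * kt p x (j - m)), hA, hB]
  rw [pb7_split (a := -(p : ℤ)) (b := p - m) (c := p) (by omega) (by omega)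
    (fun j => th p j * kt p x j)]
  rw [pb7_split (a := -(p : ℤ)) (b := p - m) (c := p) (by omega) (by omega)] at hz
  simp only [add_mul, sub_mul, Finset.sum_add_distrib, Finset.sum_sub_distrib, ← Finset.mul_sum]
  linear_combination (Real.pi * m / p) * hz

theorem pb7_part {p : ℕ} (hp : 1 ≤ p) (x : ℝ) {m : ℤ} (h1 : 1 ≤ m) (h2 : m < 2 * p) :
    kt p x (p - 1) ≤ ∑ j ∈ Finset.Ico ((p : ℤ) - m) p, kt p x j := by
  have key : ∀ a : ℤ, 0 ≤ a → a < p → kt p x (p - 1) ≤ ∑ j ∈ Finset.Ico a (p : ℤ), kt p x j := by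
    intro a ha ha'
    apply Finset.single_le_sum (f := fun j => kt p x j) (a := (p : ℤ) - 1)
    · intro j hj
      rw [Finset.mem_Ico] at hj
      exact kt_nonneg hp x (by omega) hj.2
    · rw [Finset.mem_Ico]; omega
  rcases le_total m p with h | h
  · exact key _ (by omega) (by omega)
  · rw [pb7_split (a := (p : ℤ) - m) (b := m - p) (c := p) (by omega) (by omega)]
    have h3 : ∑ j ∈ Finset.Ico ((p : ℤ) - m) (m - p), kt p x j = 0 := by
      have h4 : ∑ j ∈ Finset.Ico ((p : ℤ) - m) (m - p), kt p x j =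
          ∑ j ∈ Finset.Ico ((p : ℤ) - m) (m - p), kt p x (-1 - j) := by
        refine Finset.sum_nbij' (fun j => -1 - j) (fun j => -1 - j) ?_ ?_ ?_ ?_ ?_
        · intro j hj; rw [Finset.mem_Ico] at hj ⊢; omega
        · intro j hj; rw [Finset.mem_Ico] at hj ⊢; omega
        · intro j _; ring
        · intro j _; ring
        · intro j _; congr 1; ring
      simp only [kt_neg hp, Finset.sum_neg_distrib] at h4
      linarith
    rw [h3, zero_add]
    exact key _ (by omega) (by omega)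

/-- the gain of the extremal shifts -/
theorem kt_sum {p : ℕ} (hp : 2 ≤ p) : ∃ c : ℝ, 0 < c ∧ ∀ η : ℝ, 0 < η → η ≤ 1 / 4 → ∀ x : ℝ,
    ∀ m : ℤ, ¬ ((2 * p : ℤ) ∣ m) →
      c * η * ww p x ≤ ∑ j ∈ JJ p, tL p η j * (kt p x j - kt p x (j - m)) := by
  have hp1 : 1 ≤ p := by omega
  have hp' : (0 : ℝ) < p := by positivity
  have hp2 : (2 : ℝ) ≤ p := by exact_mod_cast hp
  have hpi := Real.pi_pos
  obtain ⟨c₁, hc₁, h⟩ := kt_top hp
  refine ⟨2 * Real.pi / p * c₁, by positivity, fun η hη0 hη x m hm => ?_⟩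
  -- reduction of the index
  set m' := m % (2 * p) with hm'
  have hpos : (0 : ℤ) < 2 * p := by omega
  have hm0 : 1 ≤ m' := by
    have h1 := Int.emod_nonneg m hpos.ne'
    have h2 : m' ≠ 0 := fun h0 => hm (Int.dvd_of_emod_eq_zero h0)
    omega
  have hm1 : m' < 2 * p := Int.emod_lt_of_pos m hpos
  have hper : ∀ j : ℤ, kt p x (j - m) = kt p x (j - m') := by
    intro j
    have e : j - m' = (j - m) + 2 * p * (m / (2 * p)) := by
      have := Int.emod_add_mul_ediv m (2 * p)
      rw [← hm'] at this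
      linarith
    rw [e, kt_per hp1]
  have hρ : 0 < rh p η := by unfold rh; linarith
  have hρ' : rh p η ≤ p := by unfold rh; linarith
  have hsum : ∑ j ∈ JJ p, tL p η j * (kt p x j - kt p x (j - m)) =
      η / rh p η * (2 * Real.pi * ∑ j ∈ Finset.Ico ((p : ℤ) - m') p, kt p x j) := by
    have e : ∀ j : ℤ, tL p η j * (kt p x j - kt p x (j - m)) =
        η / rh p η * (th p j * kt p x j - th p j * kt p x (j - m')) := by
      intro j
      rw [hper]
      unfold tL
      field_simp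
    rw [Finset.sum_congr rfl fun j _ => e j, ← Finset.mul_sum, Finset.sum_sub_distrib,
      pb7_shift hp1 x hm0 hm1]
    ring
  rw [hsum]
  have h5 := pb7_part hp1 x hm0 hm1
  have h6 := h x
  have hw : 0 ≤ ww p x := le_min (Real.exp_pos _).le (Real.exp_pos _).le
  have h7 : c₁ * ww p x ≤ ∑ j ∈ Finset.Ico ((p : ℤ) - m') p, kt p x j := h6.trans h5
  have h8 : η / p ≤ η / rh p η := div_le_div_of_nonneg_left hη0.le hρ hρ'
  calc 2 * Real.pi / p * c₁ * η * ww p x = η / p * (2 * Real.pi * (c₁ * ww p x)) := by ring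
    _ ≤ η / rh p η * (2 * Real.pi * (c₁ * ww p x)) :=
        mul_le_mul_of_nonneg_right h8 (by positivity)
    _ ≤ _ := by
        apply mul_le_mul_of_nonneg_left _ (by positivity)
        exact mul_le_mul_of_nonneg_left h7 (by positivity)

end Pool.Agent.PfB
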