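import Pool.Agent.PfB.Ker
import Pool.Agent.PfB.Kt
import Pool.Agent.PfB.Bk

/-! MP_f2c8f8_an, project PfB, row PB-9 -/

set_option autoImplicit false

open MeasureTheory Filter
open scoped ComplexConjugate Topology

noncomputable section

namespace Pool.Agent.PfB

theorem pb9_two_p_th {p : ℕ} (hp : 1 ≤ p) (j : ℤ) : 2 * (p : ℝ) * th p j = Real.pi + j * (2 * Real.pi) := by
  unfold th
  have : (p : ℝ) ≠ 0 := by positivity
  field_simp
  ring

theorem pb9_sin_refl {p : ℕ} (hp : 1 ≤ p) (j : ℤ) {k : ℕ} (hk : k ≤ 2 * p) :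
    Real.sin (((2 * p - k : ℕ) : ℝ) * th p j) = Real.sin (k * th p j) := by
  have h1 : ((2 * p - k : ℕ) : ℝ) * th p j = Real.pi - k * th p j + j * (2 * Real.pi) := by
    rw [Nat.cast_sub hk]
    push_cast
    rw [sub_mul, pb9_two_p_th hp]
    ring
  rw [h1, Real.sin_add_int_mul_two_pi, Real.sin_pi_sub]

/-- `z e^{iθ}` to the power `2 p` -/
theorem pb9_pow {p : ℕ} (hp : 1 ≤ p) (x : ℝ) (j : ℤ) :
    wz x (th p j) ^ (2 * p) = -((Real.exp (-x) ^ (2 * p) : ℝ) : ℂ) := by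
  unfold wz
  rw [Even.neg_pow (even_two_mul p), Complex.exp_add, mul_pow]
  have h1 : Complex.exp ((th p j : ℂ) * Complex.I) ^ (2 * p) = -1 := by
    rw [← Complex.exp_nat_mul]
    have h2 : (((2 * p : ℕ) : ℂ)) * ((th p j : ℂ) * Complex.I)
        = Real.pi * Complex.I + j * (2 * Real.pi * Complex.I) := by
      have h3 := pb9_two_p_th hp j
      have h4 : ((2 * (p : ℝ) * th p j : ℝ) : ℂ) = ((Real.pi + j * (2 * Real.pi) : ℝ) : ℂ) := by
        rw [h3]
      push_cast at h4 ⊢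
      calc 2 * (p : ℂ) * ((th p j : ℂ) * Complex.I) = (2 * (p : ℂ) * (th p j : ℂ)) * Complex.I := by
            ring
        _ = _ := by rw [h4]; ring
    rw [h2, Complex.exp_add, Complex.exp_pi_mul_I, Complex.exp_int_mul_two_pi_mul_I, mul_one]
  rw [h1]
  push_cast
  ring

theorem pb9_exp_p {p : ℕ} (hp : 1 ≤ p) (j : ℤ) :
    Complex.exp ((th p j : ℂ) * Complex.I) ^ p = (-1 : ℂ) ^ j * Complex.I := by
  rw [← Complex.exp_nat_mul]
  have hp0 : (p : ℂ) ≠ 0 := by
    have : p ≠ 0 := by omega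
    exact_mod_cast this
  have h2 : (p : ℂ) * ((th p j : ℂ) * Complex.I)
      = Real.pi / 2 * Complex.I + j * (Real.pi * Complex.I) := by
    unfold th
    push_cast
    field_simp
    ring
  rw [h2, Complex.exp_add, Complex.exp_pi_div_two_mul_I, Complex.exp_int_mul, Complex.exp_pi_mul_I,
    mul_comm]

theorem pb9_sj_ne (j : ℤ) : sj j * sj j = 1 := by
  unfold sj
  rw [← zpow_add₀ (by norm_num), ← two_mul, zpow_mul]
  norm_num

/-- the derivative of `kt` in closed form -/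
theorem pb9_FA {p : ℕ} (hp : 1 ≤ p) (x : ℝ) (j : ℤ) (hw : wz x (th p j) ≠ 1) :
    sg p * sj j * (FA p x (th p j)).re
      = Real.exp (-(p * x)) * ((1 - wz x (th p j))⁻¹).im := by
  have hw1 : 1 - wz x (th p j) ≠ 0 := sub_ne_zero.2 (Ne.symm hw)
  have h1 : wz x (th p j) ^ p = ((sg p * sj j * Real.exp (-(p * x)) : ℝ) : ℂ) * (-Complex.I) := by
    unfold wz
    rw [neg_pow, Complex.exp_add, mul_pow, pb9_exp_p hp]
    have h2 : Complex.exp (-(x : ℂ)) ^ p = ((Real.exp (-(p * x)) : ℝ) : ℂ) := by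
      rw [← Complex.exp_nat_mul]
      push_cast
      congr 1
      ring
    rw [h2]
    unfold sg sj
    push_cast
    ring
  unfold FA
  rw [h1, div_eq_mul_inv]
  have h6 : (((sg p * sj j * Real.exp (-(p * x)) : ℝ) : ℂ) * (-Complex.I) *
      (1 - wz x (th p j))⁻¹).re = sg p * sj j * Real.exp (-(p * x)) *
        (-Complex.I * (1 - wz x (th p j))⁻¹).re := by
    rw [mul_assoc, Complex.re_ofReal_mul]
  rw [h6]
  have h3 : (-Complex.I * (1 - wz x (th p j))⁻¹).re = ((1 - wz x (th p j))⁻¹).im := by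
    simp [Complex.mul_re]
  rw [h3]
  have h4 : sg p * sg p = 1 := by
    unfold sg
    rw [← pow_add, ← two_mul, pow_mul]
    norm_num
  have h5 := pb9_sj_ne j
  calc sg p * sj j * (sg p * sj j * Real.exp (-(p * x)) * ((1 - wz x (th p j))⁻¹).im)
      = (sg p * sg p) * (sj j * sj j) * (Real.exp (-(p * x)) * ((1 - wz x (th p j))⁻¹).im) := by ring
    _ = _ := by rw [h4, h5]; ring

theorem pb9_wz_pow_im (x b : ℝ) (k : ℕ) :
    (wz x b ^ k).im = (-1 : ℝ) ^ k * Real.exp (-x) ^ k * Real.sin (k * b) := by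
  unfold wz
  rw [neg_pow, ← Complex.exp_nat_mul]
  have h1 : (k : ℂ) * (-(x : ℂ) + (b : ℂ) * Complex.I)
      = ((-(k * x) : ℝ) : ℂ) + ((k * b : ℝ) : ℂ) * Complex.I := by
    push_cast
    ring
  rw [h1, Complex.exp_add, ← Complex.ofReal_exp]
  have h2 : ((-1 : ℂ) ^ k * (((Real.exp (-(k * x)) : ℝ) : ℂ) * Complex.exp (((k * b : ℝ) : ℂ) * Complex.I)))
      = (((-1 : ℝ) ^ k * Real.exp (-(k * x)) : ℝ) : ℂ) * Complex.exp (((k * b : ℝ) : ℂ) * Complex.I) := by
    push_cast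
    ring
  rw [h2, Complex.im_ofReal_mul, Complex.exp_ofReal_mul_I_im, ← Real.exp_nat_mul]
  congr 3
  ring

theorem pb9_inv_im {p : ℕ} (hp : 1 ≤ p) (x : ℝ) (j : ℤ) (hw : wz x (th p j) ≠ 1) :
    ((1 - wz x (th p j))⁻¹).im = -∑ k ∈ Finset.Icc 1 p, (-1 : ℝ) ^ (k + 1) *
      (cf0 p k * Real.cosh (((p : ℝ) - k) * x) / Real.cosh (p * x)) * Real.sin (k * th p j) := by
  set w := wz x (th p j) with hwdef
  set z := Real.exp (-x) with hz
  have hz0 : 0 < z := Real.exp_pos _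
  have hw1 : 1 - w ≠ 0 := sub_ne_zero.2 (Ne.symm hw)
  have hden : (0 : ℝ) < 1 + z ^ (2 * p) := by positivity
  have h1 : (1 - w)⁻¹ = (((1 + z ^ (2 * p))⁻¹ : ℝ) : ℂ) * ∑ k ∈ Finset.range (2 * p), w ^ k := by
    have h2 := geom_sum_mul_neg w (2 * p)
    rw [pb9_pow hp x j] at h2
    have h3 : ((1 + z ^ (2 * p) : ℝ) : ℂ) ≠ 0 := by exact_mod_cast hden.ne'
    have h4 : (1 : ℂ) - -((z ^ (2 * p) : ℝ) : ℂ) = ((1 + z ^ (2 * p) : ℝ) : ℂ) := by
      push_cast
      ring
    rw [h4] at h2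
    rw [Complex.ofReal_inv]
    field_simp
    rw [← h2]
    ring
  rw [h1, Complex.im_ofReal_mul, Complex.im_sum]
  set g : ℕ → ℝ := fun k => (-1 : ℝ) ^ k * z ^ k * Real.sin (k * th p j) with hg
  have h5 : ∑ k ∈ Finset.range (2 * p), (w ^ k).im = ∑ k ∈ Finset.range (2 * p), g k :=
    Finset.sum_congr rfl fun k _ => pb9_wz_pow_im x (th p j) k
  rw [h5]
  have h6 : ∑ k ∈ Finset.range (2 * p), g k
      = ∑ k ∈ Finset.Ico 1 p, (g k + g (2 * p - k)) + g p := by
    have e1 : ∑ k ∈ Finset.range (2 * p), g k = g 0 + ∑ k ∈ Finset.Ico 1 (2 * p), g k := by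
      rw [Finset.range_eq_Ico, Finset.sum_eq_sum_Ico_succ_bot (by omega : 0 < 2 * p)]
    have e2 : ∑ k ∈ Finset.Ico 1 (2 * p), g k
        = ∑ k ∈ Finset.Ico 1 p, g k + ∑ k ∈ Finset.Ico p (2 * p), g k :=
      (Finset.sum_Ico_consecutive g hp (by omega)).symm
    have e3 : ∑ k ∈ Finset.Ico p (2 * p), g k = g p + ∑ k ∈ Finset.Ico (p + 1) (2 * p), g k :=
      Finset.sum_eq_sum_Ico_succ_bot (by omega) g
    have e4 := Finset.sum_Ico_reflect g 1 (m := p) (n := 2 * p) (by omega)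
    have e5 : 2 * p + 1 - p = p + 1 := by omega
    rw [e5, Nat.add_sub_cancel] at e4
    have e6 : g 0 = 0 := by simp [hg]
    rw [e1, e2, e3, ← e4, e6, Finset.sum_add_distrib]
    ring
  rw [h6]
  have h7 : ∑ k ∈ Finset.Icc 1 p, (-1 : ℝ) ^ (k + 1) *
      (cf0 p k * Real.cosh (((p : ℝ) - k) * x) / Real.cosh (p * x)) * Real.sin (k * th p j)
      = ∑ k ∈ Finset.Ico 1 p, (-1 : ℝ) ^ (k + 1) *
      (cf0 p k * Real.cosh (((p : ℝ) - k) * x) / Real.cosh (p * x)) * Real.sin (k * th p j)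
      + (-1 : ℝ) ^ (p + 1) *
      (cf0 p p * Real.cosh (((p : ℝ) - p) * x) / Real.cosh (p * x)) * Real.sin (p * th p j) := by
    rw [← Finset.sum_Ico_succ_top (f := fun k : ℕ => (-1 : ℝ) ^ (k + 1) *
      (cf0 p k * Real.cosh (((p : ℝ) - k) * x) / Real.cosh (p * x)) * Real.sin (k * th p j)) hp]
    rfl
  rw [h7, neg_add, mul_add, Finset.mul_sum, ← Finset.sum_neg_distrib]
  have hzp : ∀ m : ℕ, z ^ m = Real.exp (-(m * x)) := by
    intro m
    rw [hz, ← Real.exp_nat_mul]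
    congr 1
    ring
  have hcosh : 2 * Real.cosh (p * x) * z ^ p = 1 + z ^ (2 * p) := by
    rw [Real.cosh_eq, hzp, hzp]
    have e1 : 2 * ((Real.exp (p * x) + Real.exp (-(p * x))) / 2) * Real.exp (-(p * x))
        = Real.exp (p * x) * Real.exp (-(p * x)) + Real.exp (-(p * x)) * Real.exp (-(p * x)) := by
      ring
    rw [e1, ← Real.exp_add, ← Real.exp_add, add_neg_cancel, Real.exp_zero]
    congr 2
    push_cast
    ring
  have hcoshp : 0 < Real.cosh (p * x) := Real.cosh_pos _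
  congr 1
  · refine Finset.sum_congr rfl fun k hk => ?_
    rw [Finset.mem_Ico] at hk
    have hc : cf0 p k = 1 := by
      unfold cf0
      rw [if_neg (by omega)]
    rw [hc, one_mul]
    have e0 : g (2 * p - k) = (-1 : ℝ) ^ k * z ^ (2 * p - k) * Real.sin (k * th p j) := by
      rw [hg]
      simp only
      rw [pb9_sin_refl hp j (by omega : k ≤ 2 * p)]
      congr 2
      have : 2 * p = k + (2 * p - k) := by omega
      have h8 : (-1 : ℝ) ^ (2 * p) = (-1) ^ k * (-1) ^ (2 * p - k) := by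
        rw [← pow_add, ← this]
      have h9 : (-1 : ℝ) ^ (2 * p) = 1 := by
        rw [pow_mul]
        norm_num
      have h10 : (-1 : ℝ) ^ k * (-1) ^ k = 1 := by
        rw [← pow_add, ← two_mul, pow_mul]
        norm_num
      calc (-1 : ℝ) ^ (2 * p - k) = ((-1 : ℝ) ^ k * (-1) ^ k) * (-1) ^ (2 * p - k) := by
            rw [h10, one_mul]
        _ = (-1 : ℝ) ^ k * ((-1) ^ k * (-1) ^ (2 * p - k)) := by ring
        _ = (-1 : ℝ) ^ k := by rw [← h8, h9, mul_one]
    have e1 : 2 * Real.cosh (((p : ℝ) - k) * x) * z ^ p = z ^ k + z ^ (2 * p - k) := by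
      rw [Real.cosh_eq, hzp, hzp, hzp]
      have e2 : 2 * ((Real.exp (((p : ℝ) - k) * x) + Real.exp (-(((p : ℝ) - k) * x))) / 2)
          * Real.exp (-(p * x)) = Real.exp (((p : ℝ) - k) * x) * Real.exp (-(p * x))
          + Real.exp (-(((p : ℝ) - k) * x)) * Real.exp (-(p * x)) := by
        ring
      rw [e2, ← Real.exp_add, ← Real.exp_add, Nat.cast_sub (by omega : k ≤ 2 * p)]
      congr 2
      · ring
      · push_cast
        ring
    rw [e0]
    rw [← hcosh]
    have e3 : (2 * Real.cosh (p * x) * z ^ p)⁻¹ * (g k + (-1 : ℝ) ^ k * z ^ (2 * p - k)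
        * Real.sin (k * th p j)) = (2 * Real.cosh (p * x) * z ^ p)⁻¹ *
          ((z ^ k + z ^ (2 * p - k)) * ((-1 : ℝ) ^ k * Real.sin (k * th p j))) := by
      rw [hg]
      ring
    rw [e3, ← e1, pow_succ]
    field_simp
  · have hc : cf0 p p = 1 / 2 := by
      unfold cf0
      rw [if_pos rfl]
    rw [hc, sub_self, zero_mul, Real.cosh_zero, ← hcosh, hg, pow_succ]
    field_simp

theorem pb9_ne {p : ℕ} (hp : 1 ≤ p) (x : ℝ) (j : ℤ) : wz x (th p j) ≠ 1 := by
  apply wz_ne_one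
  right
  have h1 := cos_grid hp j (y := 0) (by rw [abs_zero]; positivity)
  rw [add_zero] at h1
  have hp0 : (0 : ℝ) < p := by exact_mod_cast hp
  have h2 : 0 < Real.sin (Real.pi / (8 * p)) := by
    apply Real.sin_pos_of_pos_of_lt_pi
    · positivity
    · rw [div_lt_iff₀ (by positivity)]
      have : (1 : ℝ) ≤ p := by exact_mod_cast hp
      nlinarith [Real.pi_pos]
  exact abs_pos.1 (lt_of_lt_of_le h2 h1)

theorem pb9_exp_tendsto {k : ℕ} (hk : 1 ≤ k) :
    Tendsto (fun x : ℝ => Real.exp (-(k * x))) atTop (𝓝 0) := by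
  have hk0 : (0 : ℝ) < k := by exact_mod_cast hk
  have h1 : Tendsto (fun x : ℝ => (k : ℝ) * x) atTop atTop := tendsto_id.const_mul_atTop hk0
  exact Real.tendsto_exp_neg_atTop_nhds_zero.comp h1

theorem pb9_KK_tendsto (p : ℕ) (b : ℝ) : Tendsto (fun x => KK p x b) atTop (𝓝 0) := by
  have h1 : Tendsto (fun x : ℝ => Complex.exp (-(x : ℂ) + (b : ℂ) * Complex.I)) atTop (𝓝 0) := by
    rw [tendsto_zero_iff_norm_tendsto_zero]
    have h2 : (fun x : ℝ => ‖Complex.exp (-(x : ℂ) + (b : ℂ) * Complex.I)‖)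
        = fun x : ℝ => Real.exp (-x) := by
      funext x
      rw [Complex.norm_exp]
      simp
    rw [h2]
    exact Real.tendsto_exp_neg_atTop_nhds_zero
  have h3 : Tendsto (fun x : ℝ => Real.log ‖(1 : ℂ) + Complex.exp (-(x : ℂ) + (b : ℂ) * Complex.I)‖)
      atTop (𝓝 0) := by
    have h4 : Tendsto (fun x : ℝ => ‖(1 : ℂ) + Complex.exp (-(x : ℂ) + (b : ℂ) * Complex.I)‖)
        atTop (𝓝 1) := by
      have := (h1.const_add 1).norm
      simpa using this
    have h5 := (Real.continuousAt_log one_ne_zero).tendsto.comp h4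
    rw [Real.log_one] at h5
    exact h5
  have h6 : Tendsto (fun x : ℝ => ∑ j ∈ Finset.Icc 1 (p - 1),
      (-1 : ℝ) ^ j * Real.exp (-(j * x)) * Real.cos (j * b) / j) atTop (𝓝 0) := by
    have h7 : (0 : ℝ) = ∑ j ∈ Finset.Icc 1 (p - 1), (0 : ℝ) := by simp
    rw [h7]
    refine tendsto_finsetSum _ fun j hj => ?_
    rw [Finset.mem_Icc] at hj
    have h8 := pb9_exp_tendsto hj.1
    have h9 := ((h8.const_mul ((-1 : ℝ) ^ j)).mul_const (Real.cos (j * b))).div_const (j : ℝ)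
    simpa using h9
  have h10 := h3.add h6
  rw [add_zero] at h10
  exact h10

theorem kt_eq {p : ℕ} (hp : 2 ≤ p) (x : ℝ) (j : ℤ) : kt p x j =
    ∑ k ∈ Finset.Icc 1 p, (-1 : ℝ) ^ (k + 1) * bk p k x * Real.sin (k * th p j) := by
  have hp1 : 1 ≤ p := by omega
  set F : ℝ → ℝ := fun x => kt p x j -
    ∑ k ∈ Finset.Icc 1 p, (-1 : ℝ) ^ (k + 1) * bk p k x * Real.sin (k * th p j) with hF
  have hder : ∀ x, HasDerivAt F 0 x := by
    intro x
    have hw := pb9_ne hp1 x j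
    have h1 : HasDerivAt (fun x => kt p x j) (sg p * sj j * (FA p x (th p j)).re) x :=
      (KK_x hp1 hw).const_mul (sg p * sj j)
    have h2 : HasDerivAt (fun x => ∑ k ∈ Finset.Icc 1 p,
        (-1 : ℝ) ^ (k + 1) * bk p k x * Real.sin (k * th p j))
        (∑ k ∈ Finset.Icc 1 p, (-1 : ℝ) ^ (k + 1) *
          (-(cf0 p k * Real.exp (-((p : ℝ) * x)) * Real.cosh (((p : ℝ) - k) * x) /
            Real.cosh (p * x))) * Real.sin (k * th p j)) x := by
      refine HasDerivAt.fun_sum fun k hk => ?_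
      rw [Finset.mem_Icc] at hk
      exact ((bk_deriv hp hk.1 hk.2 x).const_mul _).mul_const _
    have h3 := h1.sub h2
    have h4 : sg p * sj j * (FA p x (th p j)).re - ∑ k ∈ Finset.Icc 1 p, (-1 : ℝ) ^ (k + 1) *
          (-(cf0 p k * Real.exp (-((p : ℝ) * x)) * Real.cosh (((p : ℝ) - k) * x) /
            Real.cosh (p * x))) * Real.sin (k * th p j) = 0 := by
      rw [pb9_FA hp1 x j hw, pb9_inv_im hp1 x j hw, mul_neg, Finset.mul_sum, sub_eq_zero,
        ← Finset.sum_neg_distrib]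
      refine Finset.sum_congr rfl fun k _ => ?_
      ring
    rw [h4] at h3
    exact h3
  have hconst : ∀ y, F y = F x := fun y =>
    is_const_of_deriv_eq_zero (fun z => (hder z).differentiableAt) (fun z => (hder z).deriv) y x
  have hlim : Tendsto F atTop (𝓝 0) := by
    have h1 : Tendsto (fun x => kt p x j) atTop (𝓝 0) := by
      have := (pb9_KK_tendsto p (th p j)).const_mul (sg p * sj j)
      rw [mul_zero] at this
      exact this
    have h2 : Tendsto (fun x => ∑ k ∈ Finset.Icc 1 p,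
        (-1 : ℝ) ^ (k + 1) * bk p k x * Real.sin (k * th p j)) atTop (𝓝 0) := by
      have h7 : (0 : ℝ) = ∑ k ∈ Finset.Icc 1 p, (0 : ℝ) := by simp
      rw [h7]
      refine tendsto_finsetSum _ fun k hk => ?_
      rw [Finset.mem_Icc] at hk
      have h9 := ((bk_tendsto hp hk.1 hk.2).const_mul ((-1 : ℝ) ^ (k + 1))).mul_const
        (Real.sin (k * th p j))
      simpa using h9
    have h3 := h1.sub h2
    rw [sub_zero] at h3
    exact h3
  have h0 : F x = 0 := by
    have h1 : F = fun _ => F x := funext hconst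
    rw [h1] at hlim
    exact tendsto_nhds_unique tendsto_const_nhds hlim
  exact sub_eq_zero.1 h0

end Pool.Agent.PfB
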