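import Pool.Agent.PfB.Kt
import Pool.Agent.PfB.KtB

/-! MP_f2c8f8_an, project PfB, row PB-24 -/

set_option autoImplicit false

open MeasureTheory Filter
open scoped ComplexConjugate Topology

noncomputable section

namespace Pool.Agent.PfB

/-- discrete Fourier coefficients of the shifts -/
def TT (p : ℕ) (τ : ℤ → ℝ) (k : ℕ) : ℂ :=
  ∑ j ∈ JJ p, (τ j : ℂ) * Complex.exp ((k : ℂ) * (th p j : ℂ) * Complex.I)

/-- real parts of the rotated coefficients -/
def cc (p : ℕ) (τ : ℤ → ℝ) (k : ℕ) (m : ℤ) : ℝ :=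
  (-1) ^ (k + 1) * ∑ j ∈ JJ p, τ j * Real.sin (k * th p j - k * Real.pi * m / p)

theorem cc_le (p : ℕ) (τ : ℤ → ℝ) (k : ℕ) (m : ℤ) : cc p τ k m ≤ ‖TT p τ k‖ := by
  have h1 : (Complex.exp (((-(k * Real.pi * m / p) : ℝ) : ℂ) * Complex.I) * TT p τ k).im =
      ∑ j ∈ JJ p, τ j * Real.sin (k * th p j - k * Real.pi * m / p) := by
    rw [TT, Finset.mul_sum, Complex.im_sum]
    refine Finset.sum_congr rfl fun j _ => ?_
    have h2 : Complex.exp (((-(k * Real.pi * m / p) : ℝ) : ℂ) * Complex.I) *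
        ((τ j : ℂ) * Complex.exp ((k : ℂ) * (th p j : ℂ) * Complex.I)) =
        (τ j : ℂ) * Complex.exp (((k * th p j - k * Real.pi * m / p : ℝ) : ℂ) * Complex.I) := by
      rw [mul_left_comm, ← Complex.exp_add]
      congr 2
      push_cast
      ring
    rw [h2, Complex.im_ofReal_mul, Complex.exp_ofReal_mul_I_im]
  have h3 : |∑ j ∈ JJ p, τ j * Real.sin (k * th p j - k * Real.pi * m / p)| ≤ ‖TT p τ k‖ := by
    rw [← h1]
    refine (Complex.abs_im_le_norm _).trans ?_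
    rw [norm_mul, Complex.norm_exp_ofReal_mul_I, one_mul]
  rw [cc]
  refine le_trans ?_ h3
  refine (le_abs_self _).trans ?_
  rw [abs_mul, abs_pow, abs_neg, abs_one, one_pow, one_mul]

/-- shift of a sum over a period -/
theorem pb24_shift {M : Type*} [AddCommMonoid M] {p : ℕ} (f : ℤ → M)
    (h : f p = f (-(p : ℤ))) : ∑ j ∈ JJ p, f (j + 1) = ∑ j ∈ JJ p, f j := by
  rcases Nat.eq_zero_or_pos p with h0 | hp
  · subst h0
    simp [JJ]
  have h1 : ∑ j ∈ JJ p, f (j + 1) = ∑ j ∈ Finset.Ico (-(p : ℤ) + 1) ((p : ℤ) + 1), f j := by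
    rw [JJ, Finset.sum_Ico_add']
  have h2 : Finset.Ico (-(p : ℤ) + 1) ((p : ℤ) + 1) =
      insert (p : ℤ) (Finset.Ico (-(p : ℤ) + 1) (p : ℤ)) := by
    ext j
    simp only [Finset.mem_insert, Finset.mem_Ico]
    omega
  have h3 : Finset.Ico (-(p : ℤ)) (p : ℤ) =
      insert (-(p : ℤ)) (Finset.Ico (-(p : ℤ) + 1) (p : ℤ)) := by
    ext j
    simp only [Finset.mem_insert, Finset.mem_Ico]
    omega
  rw [h1, h2, JJ, h3, Finset.sum_insert (by simp), Finset.sum_insert (by simp), h]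

/-- exponential sums over the grid -/
theorem pb24_exp {p : ℕ} (hp : 1 ≤ p) (n : ℤ) (hn : ¬ (2 * p : ℤ) ∣ n) :
    ∑ j ∈ JJ p, Complex.exp ((n : ℂ) * (th p j : ℂ) * Complex.I) = 0 := by
  have hp0 : (p : ℂ) ≠ 0 := by exact_mod_cast (by omega : p ≠ 0)
  set z : ℂ := Complex.exp (Real.pi * n / p * Complex.I) with hz
  have hmul : ∀ j : ℤ, Complex.exp ((n : ℂ) * (th p (j + 1) : ℂ) * Complex.I) =
      z * Complex.exp ((n : ℂ) * (th p j : ℂ) * Complex.I) := by
    intro j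
    rw [hz, ← Complex.exp_add]
    congr 1
    rw [th, th]
    push_cast
    field_simp
    ring
  have hper : Complex.exp ((n : ℂ) * (th p (p : ℤ) : ℂ) * Complex.I) =
      Complex.exp ((n : ℂ) * (th p (-(p : ℤ)) : ℂ) * Complex.I) := by
    rw [Complex.exp_eq_exp_iff_exists_int]
    refine ⟨n, ?_⟩
    rw [th, th]
    push_cast
    field_simp
    ring
  have hsum := pb24_shift (p := p)
    (fun j : ℤ => Complex.exp ((n : ℂ) * (th p j : ℂ) * Complex.I)) hper
  simp only [hmul] at hsum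
  rw [← Finset.mul_sum] at hsum
  have hz1 : z ≠ 1 := by
    intro h
    rw [hz, Complex.exp_eq_one_iff] at h
    obtain ⟨l, hl⟩ := h
    apply hn
    refine ⟨l, ?_⟩
    have h1 : (Real.pi : ℂ) * n / p = l * (2 * Real.pi) := by
      have h2 : (Real.pi : ℂ) * n / p * Complex.I = (l * (2 * Real.pi)) * Complex.I := by
        rw [hl]; ring
      exact mul_right_cancel₀ Complex.I_ne_zero h2
    have hpi : (Real.pi : ℂ) ≠ 0 := by exact_mod_cast Real.pi_ne_zero
    have h3 : (n : ℂ) = 2 * p * l := by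
      field_simp at h1
      linear_combination h1
    exact_mod_cast h3
  have h4 : (z - 1) * ∑ j ∈ JJ p, Complex.exp ((n : ℂ) * (th p j : ℂ) * Complex.I) = 0 := by
    rw [sub_mul, one_mul, hsum, sub_self]
  exact (mul_eq_zero.1 h4).resolve_left (sub_ne_zero.2 hz1)

theorem pb24_cos {p : ℕ} (hp : 1 ≤ p) (n : ℤ) (hn : ¬ (2 * p : ℤ) ∣ n) :
    ∑ j ∈ JJ p, Real.cos (n * th p j) = 0 := by
  have h1 := congrArg Complex.re (pb24_exp hp n hn)
  rw [Complex.re_sum, Complex.zero_re] at h1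
  rw [← h1]
  refine Finset.sum_congr rfl fun j _ => ?_
  have h2 : (n : ℂ) * (th p j : ℂ) * Complex.I = ((n * th p j : ℝ) : ℂ) * Complex.I := by
    push_cast; ring
  rw [h2, Complex.exp_ofReal_mul_I_re]

/-- orthogonality of the sines -/
theorem pb24_sin {p : ℕ} (hp : 1 ≤ p) {k l : ℕ} (hk : k ∈ Finset.Icc 1 p)
    (hl : l ∈ Finset.Icc 1 p) :
    ∑ j ∈ JJ p, Real.sin (k * th p j) * Real.sin (l * th p j) =
      if k = l then (if k = p then 2 * (p : ℝ) else p) else 0 := by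
  have hp0 : (p : ℝ) ≠ 0 := by exact_mod_cast (by omega : p ≠ 0)
  rw [Finset.mem_Icc] at hk hl
  have h1 : ∀ j, Real.sin (k * th p j) * Real.sin (l * th p j) =
      (Real.cos (((k : ℤ) - l : ℤ) * th p j) - Real.cos (((k : ℤ) + l : ℤ) * th p j)) / 2 := by
    intro j
    push_cast
    rw [sub_mul, add_mul, Real.cos_sub, Real.cos_add]
    ring
  rw [Finset.sum_congr rfl fun j _ => h1 j, ← Finset.sum_div, Finset.sum_sub_distrib]
  have hA : ∑ j ∈ JJ p, Real.cos (((k : ℤ) - l : ℤ) * th p j) = if k = l then 2 * (p : ℝ) else 0 := by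
    by_cases h : k = l
    · rw [if_pos h, h]
      simp [card_JJ]
    · rw [if_neg h]
      refine pb24_cos hp _ ?_
      rintro ⟨c, hc⟩
      have hc0 : c = 0 := by
        by_contra hne
        rcases lt_or_gt_of_ne hne with h2 | h2
        · nlinarith
        · nlinarith
      rw [hc0] at hc
      omega
  have hB : ∑ j ∈ JJ p, Real.cos (((k : ℤ) + l : ℤ) * th p j) =
      if k = p ∧ l = p then -(2 * (p : ℝ)) else 0 := by
    by_cases h : k = p ∧ l = p
    · rw [if_pos h, h.1, h.2]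
      have h2 : ∀ j : ℤ, Real.cos (((p : ℤ) + p : ℤ) * th p j) = -1 := by
        intro j
        have h3 : (((p : ℤ) + p : ℤ) : ℝ) * th p j = Real.pi + j * (2 * Real.pi) := by
          rw [th]
          push_cast
          field_simp
          ring
        rw [h3, Real.cos_add_int_mul_two_pi, Real.cos_pi]
      rw [Finset.sum_congr rfl fun j _ => h2 j, Finset.sum_const, card_JJ]
      simp
    · rw [if_neg h]
      refine pb24_cos hp _ ?_
      rintro ⟨c, hc⟩
      have hc1 : c = 1 := by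
        have h4 : 0 < c := by
          by_contra hne
          push Not at hne
          nlinarith
        have h5 : c < 2 := by
          by_contra hne
          push Not at hne
          nlinarith
        omega
      rw [hc1] at hc
      omega
  rw [hA, hB]
  by_cases h : k = l
  · subst h
    by_cases h2 : k = p
    · simp [h2]
    · simp [h2]
  · have h2 : ¬ (k = p ∧ l = p) := fun h3 => h (h3.1.trans h3.2.symm)
    simp [h, h2]

theorem pb24_split {p : ℕ} (hp : 1 ≤ p) (f : ℕ → ℝ) :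
    ∑ k ∈ Finset.Icc 1 p, f k = ∑ k ∈ Finset.Icc 1 (p - 1), f k + f p := by
  obtain ⟨q, rfl⟩ : ∃ q, p = q + 1 := ⟨p - 1, by omega⟩
  rw [Nat.add_sub_cancel, Finset.sum_Icc_succ_top (by omega)]

/-- geometric sums over the exponents -/
theorem pb24_geom {p : ℕ} (hp : 1 ≤ p) {i j : ℤ} (hi : i ∈ JJ p) (hj : j ∈ JJ p) :
    ∑ k ∈ Finset.range (2 * p), Complex.exp ((k : ℂ) * (th p i : ℂ) * Complex.I) *
      conj (Complex.exp ((k : ℂ) * (th p j : ℂ) * Complex.I)) =
      if i = j then 2 * (p : ℂ) else 0 := by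
  have hp0 : (p : ℂ) ≠ 0 := by exact_mod_cast (by omega : p ≠ 0)
  rw [JJ, Finset.mem_Ico] at hi hj
  set z : ℂ := Complex.exp (Real.pi * (i - j) / p * Complex.I) with hz
  have h1 : ∀ k : ℕ, Complex.exp ((k : ℂ) * (th p i : ℂ) * Complex.I) *
      conj (Complex.exp ((k : ℂ) * (th p j : ℂ) * Complex.I)) = z ^ k := by
    intro k
    rw [← Complex.exp_conj, ← Complex.exp_add, hz, ← Complex.exp_nat_mul]
    congr 1
    simp only [map_mul, Complex.conj_ofReal, Complex.conj_I, map_natCast]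
    rw [th, th]
    push_cast
    field_simp
    ring
  rw [Finset.sum_congr rfl fun k _ => h1 k]
  by_cases h : i = j
  · rw [if_pos h]
    have h2 : z = 1 := by rw [hz, h]; simp
    rw [h2]
    simp
  · rw [if_neg h]
    have hz1 : z ≠ 1 := by
      intro h0
      rw [hz, Complex.exp_eq_one_iff] at h0
      obtain ⟨l, hl⟩ := h0
      have h3 : (Real.pi : ℂ) * (i - j) / p = l * (2 * Real.pi) := by
        have h2 : (Real.pi : ℂ) * (i - j) / p * Complex.I = (l * (2 * Real.pi)) * Complex.I := by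
          rw [hl]; ring
        exact mul_right_cancel₀ Complex.I_ne_zero h2
      have hpi : (Real.pi : ℂ) ≠ 0 := by exact_mod_cast Real.pi_ne_zero
      have h4 : (i : ℂ) - j = 2 * p * l := by
        field_simp at h3
        linear_combination h3
      have h5 : i - j = 2 * p * l := by exact_mod_cast h4
      have hl0 : l = 0 := by
        by_contra hne
        rcases lt_or_gt_of_ne hne with h6 | h6
        · nlinarith
        · nlinarith
      rw [hl0] at h5
      omega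
    have hzp : z ^ (2 * p) = 1 := by
      rw [hz, ← Complex.exp_nat_mul, Complex.exp_eq_one_iff]
      refine ⟨i - j, ?_⟩
      push_cast
      field_simp
    rw [geom_sum_eq hz1, hzp, sub_self, zero_div]

/-- Parseval's identity -/
theorem pb24_pars {p : ℕ} (hp : 1 ≤ p) (τ : ℤ → ℝ) :
    ∑ k ∈ Finset.range (2 * p), ‖TT p τ k‖ ^ 2 = 2 * p * ∑ j ∈ JJ p, τ j ^ 2 := by
  have h1 : ∀ k : ℕ, ((‖TT p τ k‖ ^ 2 : ℝ) : ℂ) = ∑ i ∈ JJ p, ∑ j ∈ JJ p, (τ i : ℂ) * τ j *
      (Complex.exp ((k : ℂ) * (th p i : ℂ) * Complex.I) *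
        conj (Complex.exp ((k : ℂ) * (th p j : ℂ) * Complex.I))) := by
    intro k
    rw [Complex.ofReal_pow, ← Complex.mul_conj', TT, map_sum, Finset.sum_mul_sum]
    refine Finset.sum_congr rfl fun i _ => Finset.sum_congr rfl fun j _ => ?_
    rw [map_mul, Complex.conj_ofReal]
    ring
  have h2 : ((∑ k ∈ Finset.range (2 * p), ‖TT p τ k‖ ^ 2 : ℝ) : ℂ) =
      ((2 * p * ∑ j ∈ JJ p, τ j ^ 2 : ℝ) : ℂ) := by
    rw [Complex.ofReal_sum, Finset.sum_congr rfl fun k _ => h1 k, Finset.sum_comm]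
    push_cast
    rw [Finset.mul_sum]
    refine Finset.sum_congr rfl fun i hi => ?_
    rw [Finset.sum_comm]
    have h3 : ∀ j ∈ JJ p, ∑ k ∈ Finset.range (2 * p), (τ i : ℂ) * τ j *
        (Complex.exp ((k : ℂ) * (th p i : ℂ) * Complex.I) *
          conj (Complex.exp ((k : ℂ) * (th p j : ℂ) * Complex.I))) =
        if i = j then 2 * (p : ℂ) * (τ i : ℂ) ^ 2 else 0 := by
      intro j hj
      rw [← Finset.mul_sum, pb24_geom hp hi hj]
      by_cases h : i = j
      · rw [if_pos h, if_pos h, h]; ring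
      · rw [if_neg h, if_neg h, mul_zero]
    rw [Finset.sum_congr rfl h3, Finset.sum_ite_eq, if_pos hi]
  exact_mod_cast h2

theorem pb24_refl {p : ℕ} (hp : 1 ≤ p) (τ : ℤ → ℝ) {k l : ℕ} (h : k + l = 2 * p) :
    ‖TT p τ k‖ = ‖TT p τ l‖ := by
  have hp0 : (p : ℂ) ≠ 0 := by exact_mod_cast (by omega : p ≠ 0)
  have h1 : TT p τ k = -conj (TT p τ l) := by
    rw [TT, TT, map_sum, ← Finset.sum_neg_distrib]
    refine Finset.sum_congr rfl fun j _ => ?_
    rw [map_mul, Complex.conj_ofReal, ← Complex.exp_conj]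
    simp only [map_mul, Complex.conj_ofReal, Complex.conj_I, map_natCast]
    have hk : (k : ℂ) = 2 * p - l := by
      have : (k : ℂ) + l = 2 * p := by exact_mod_cast h
      linear_combination this
    have h2 : (k : ℂ) * (th p j : ℂ) * Complex.I = (l : ℂ) * (th p j : ℂ) * -Complex.I +
        (Real.pi * Complex.I + j * (2 * Real.pi * Complex.I)) := by
      rw [hk, th]
      push_cast
      field_simp
      ring
    rw [h2, Complex.exp_add, Complex.exp_add, Complex.exp_pi_mul_I, Complex.exp_int_mul_two_pi_mul_I]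
    ring
  rw [h1, norm_neg, RCLike.norm_conj]

theorem TT_sq {p : ℕ} (hp : 1 ≤ p) (τ : ℤ → ℝ) :
    ∑ k ∈ Finset.Icc 1 (p - 1), ‖TT p τ k‖ ^ 2 + ‖TT p τ p‖ ^ 2 / 2 ≤
      p * ∑ j ∈ JJ p, τ j ^ 2 := by
  have h0 := pb24_pars hp τ
  obtain ⟨q, rfl⟩ : ∃ q, p = q + 1 := ⟨p - 1, by omega⟩
  rw [Nat.add_sub_cancel]
  set f : ℕ → ℝ := fun k => ‖TT (q + 1) τ k‖ ^ 2 with hf
  have h1 : ∑ k ∈ Finset.Icc 1 q, f k = ∑ k ∈ Finset.range q, f (k + 1) := by
    rw [← Finset.Ico_add_one_right_eq_Icc, Finset.sum_Ico_eq_sum_range]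
    refine Finset.sum_congr (by rw [Nat.add_sub_cancel]) fun k _ => by rw [add_comm]
  have h2 : ∑ k ∈ Finset.range (2 * (q + 1)), f k =
      f 0 + 2 * ∑ k ∈ Finset.range q, f (k + 1) + f (q + 1) := by
    rw [two_mul (q + 1), Finset.sum_range_add, Finset.sum_range_succ' (fun k => f k) q,
      Finset.sum_range_succ' (fun k => f (q + 1 + k)) q]
    have h3 : ∑ k ∈ Finset.range q, f (q + 1 + (k + 1)) = ∑ k ∈ Finset.range q, f (k + 1) := by
      rw [← Finset.sum_range_reflect (fun k => f (k + 1)) q]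
      refine Finset.sum_congr rfl fun k hk => ?_
      rw [Finset.mem_range] at hk
      rw [hf]
      dsimp only
      rw [pb24_refl hp τ (k := q + 1 + (k + 1)) (l := q - 1 - k + 1) (by omega)]
    rw [h3, add_zero]
    ring
  rw [h1]
  have h4 : 0 ≤ f 0 := by positivity
  have h5 : ‖TT (q + 1) τ (q + 1)‖ ^ 2 = f (q + 1) := rfl
  rw [h5]
  change ∑ k ∈ Finset.range (2 * (q + 1)), f k = _ at h0
  rw [h2] at h0
  linarith

theorem r_sq {p : ℕ} (hp : 1 ≤ p) (β : ℕ → ℝ) :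
    ∑ j ∈ JJ p, (∑ k ∈ Finset.Icc 1 p, (-1 : ℝ) ^ (k + 1) * β k * Real.sin (k * th p j)) ^ 2 =
      p * (∑ k ∈ Finset.Icc 1 (p - 1), β k ^ 2 + 2 * β p ^ 2) := by
  have h1 : ∀ j, (∑ k ∈ Finset.Icc 1 p, (-1 : ℝ) ^ (k + 1) * β k * Real.sin (k * th p j)) ^ 2 =
      ∑ k ∈ Finset.Icc 1 p, ∑ l ∈ Finset.Icc 1 p,
        ((-1 : ℝ) ^ (k + 1) * β k * ((-1 : ℝ) ^ (l + 1) * β l)) *
          (Real.sin (k * th p j) * Real.sin (l * th p j)) := by
    intro j
    rw [sq, Finset.sum_mul_sum]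
    refine Finset.sum_congr rfl fun k _ => Finset.sum_congr rfl fun l _ => ?_
    ring
  rw [Finset.sum_congr rfl fun j _ => h1 j, Finset.sum_comm]
  have h2 : ∀ k ∈ Finset.Icc 1 p, ∑ j ∈ JJ p, ∑ l ∈ Finset.Icc 1 p,
      ((-1 : ℝ) ^ (k + 1) * β k * ((-1 : ℝ) ^ (l + 1) * β l)) *
        (Real.sin (k * th p j) * Real.sin (l * th p j)) =
      β k ^ 2 * (if k = p then 2 * (p : ℝ) else p) := by
    intro k hk
    rw [Finset.sum_comm]
    have h3 : ∀ l ∈ Finset.Icc 1 p, ∑ j ∈ JJ p,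
        ((-1 : ℝ) ^ (k + 1) * β k * ((-1 : ℝ) ^ (l + 1) * β l)) *
          (Real.sin (k * th p j) * Real.sin (l * th p j)) =
        if k = l then β k ^ 2 * (if k = p then 2 * (p : ℝ) else p) else 0 := by
      intro l hl
      rw [← Finset.mul_sum, pb24_sin hp hk hl]
      by_cases h : k = l
      · subst h
        rw [if_pos rfl, if_pos rfl]
        have h4 : ((-1 : ℝ) ^ (k + 1)) * ((-1 : ℝ) ^ (k + 1)) = 1 := by
          rw [← mul_pow]; norm_num
        linear_combination (β k ^ 2 * (if k = p then 2 * (p : ℝ) else p)) * h4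
      · rw [if_neg h, if_neg h, mul_zero]
    rw [Finset.sum_congr rfl h3, Finset.sum_ite_eq, if_pos hk]
  rw [Finset.sum_congr rfl h2, pb24_split hp, if_pos rfl]
  have h5 : ∑ k ∈ Finset.Icc 1 (p - 1), β k ^ 2 * (if k = p then 2 * (p : ℝ) else p) =
      p * ∑ k ∈ Finset.Icc 1 (p - 1), β k ^ 2 := by
    rw [Finset.mul_sum]
    refine Finset.sum_congr rfl fun k hk => ?_
    rw [Finset.mem_Icc] at hk
    rw [if_neg (by omega)]
    ring
  rw [h5]
  ring

theorem pb24_th_sub {p : ℕ} (hp : 1 ≤ p) (k : ℕ) (j m : ℤ) :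
    k * th p j - k * Real.pi * m / p = k * th p (j - m) := by
  have hp0 : (p : ℝ) ≠ 0 := by exact_mod_cast (by omega : p ≠ 0)
  rw [th, th]
  push_cast
  field_simp
  ring

theorem pb24_sin_per {p : ℕ} (hp : 1 ≤ p) (k : ℕ) (j n : ℤ) :
    Real.sin (k * th p (j + 2 * p * n)) = Real.sin (k * th p j) := by
  have hp0 : (p : ℝ) ≠ 0 := by exact_mod_cast (by omega : p ≠ 0)
  have h1 : k * th p (j + 2 * p * n) = k * th p j + ((k * n : ℤ) : ℝ) * (2 * Real.pi) := by
    rw [th, th]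
    push_cast
    field_simp
    ring
  rw [h1, Real.sin_add_int_mul_two_pi]

theorem pb24_cc {p : ℕ} (hp : 1 ≤ p) (τ : ℤ → ℝ) (k : ℕ) (m : ℤ) :
    cc p τ k m = (-1) ^ (k + 1) * ∑ j ∈ JJ p, τ j * Real.sin (k * th p (j - m)) := by
  rw [cc]
  congr 1
  refine Finset.sum_congr rfl fun j _ => ?_
  rw [pb24_th_sub hp]

/-- sums against the shifted coefficients -/
theorem cc_sum {p : ℕ} (hp : 1 ≤ p) {τ : ℤ → ℝ} (hτ : ∀ j n : ℤ, τ (j + 2 * p * n) = τ j)
    (β : ℕ → ℝ) (m : ℤ) :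
    ∑ k ∈ Finset.Icc 1 p, β k * cc p τ k m =
      ∑ j ∈ JJ p, τ (j + m) * ∑ k ∈ Finset.Icc 1 p,
        (-1 : ℝ) ^ (k + 1) * β k * Real.sin (k * th p j) := by
  have h1 : ∀ k, cc p τ k m = (-1) ^ (k + 1) * ∑ j ∈ JJ p, τ (j + m) * Real.sin (k * th p j) := by
    intro k
    rw [pb24_cc hp]
    congr 1
    have h2 := sum_JJ_shift (p := p) (f := fun j => τ j * Real.sin (k * th p (j - m))) ?_ m
    · rw [← h2]
      refine Finset.sum_congr rfl fun j _ => ?_
      rw [add_sub_cancel_right]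
    · intro j n
      rw [hτ, show j + 2 * p * n - m = (j - m) + 2 * p * n by ring, pb24_sin_per hp]
  simp only [h1, Finset.mul_sum]
  rw [Finset.sum_comm]
  refine Finset.sum_congr rfl fun j _ => Finset.sum_congr rfl fun k _ => ?_
  ring

theorem kt_cc {p : ℕ} (hp : 2 ≤ p) (τ : ℤ → ℝ) (x : ℝ) (m : ℤ) :
    ∑ j ∈ JJ p, τ j * kt p x (j - m) = ∑ k ∈ Finset.Icc 1 p, bk p k x * cc p τ k m := by
  simp only [kt_eq hp, pb24_cc (show 1 ≤ p by omega), Finset.mul_sum]
  rw [Finset.sum_comm]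
  refine Finset.sum_congr rfl fun j _ => Finset.sum_congr rfl fun k _ => ?_
  ring

theorem cc_per {p : ℕ} (hp : 1 ≤ p) (τ : ℤ → ℝ) (k : ℕ) (m n : ℤ) :
    cc p τ k (m + 2 * p * n) = cc p τ k m := by
  rw [pb24_cc hp, pb24_cc hp]
  congr 1
  refine Finset.sum_congr rfl fun j _ => ?_
  rw [show j - (m + 2 * p * n) = (j - m) + 2 * p * (-n) by ring, pb24_sin_per hp]

/-- the mean of the rotated coefficients vanishes -/
theorem cc_mean {p : ℕ} (hp : 1 ≤ p) (τ : ℤ → ℝ) {k : ℕ} (hk : 1 ≤ k) (hkp : k ≤ p) :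
    ∑ m ∈ JJ p, cc p τ k m = 0 := by
  simp only [pb24_cc hp]
  rw [← Finset.mul_sum, Finset.sum_comm]
  have h1 : ∀ j ∈ JJ p, ∑ m ∈ JJ p, τ j * Real.sin (k * th p (j - m)) = 0 := by
    intro j _
    rw [← Finset.mul_sum]
    have h2 : ∑ m ∈ JJ p, Real.sin (k * th p (j - m)) = 0 := by
      have h3 := sum_JJ_neg (p := p) (fun m => Real.sin (k * th p (m + (j + 1))))
      have h4 := sum_JJ_shift (p := p) (f := fun m => Real.sin (k * th p m))
        (fun i n => pb24_sin_per hp k i n) (j + 1)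
      have h5 : ∀ m : ℤ, j - m = -1 - m + (j + 1) := fun m => by ring
      simp only [h5]
      rw [h3, h4]
      have h6 := congrArg Complex.im (pb24_exp hp (k : ℤ) (by
        intro hd
        have := Int.le_of_dvd (by omega) hd
        omega))
      rw [Complex.im_sum, Complex.zero_im] at h6
      rw [← h6]
      refine Finset.sum_congr rfl fun m _ => ?_
      have h7 : ((k : ℤ) : ℂ) * (th p m : ℂ) * Complex.I = ((k * th p m : ℝ) : ℂ) * Complex.I := by
        push_cast; ring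
      rw [h7, Complex.exp_ofReal_mul_I_im]
    rw [h2, mul_zero]
  rw [Finset.sum_eq_zero h1, mul_zero]

end Pool.Agent.PfB
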