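import Pool.Agent.PfB.Pm1
import Pool.Agent.PfB.Pars
import Pool.Agent.PfB.Bk
import Pool.Agent.PfB.Conf
import Pool.Agent.PfB.Mass

/-! MP_f2c8f8_an, project PfB, row PB-25 -/

set_option autoImplicit false

open MeasureTheory Filter
open scoped ComplexConjugate Topology

noncomputable section

namespace Pool.Agent.PfB

/-- the majorant of the contribution of one mass -/
def pb25_G (p : ℕ) (τ : ℤ → ℝ) (Ξ : ℝ) (x : ℝ) : ℝ :=
  ∑ k ∈ Finset.Icc 1 p, ‖TT p τ k‖ * bk p k x - Ξ / 2 * bk p p x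

/-- its second derivative -/
def pb25_g (p : ℕ) (τ : ℤ → ℝ) (Ξ : ℝ) (x : ℝ) : ℝ :=
  ∑ k ∈ Finset.Icc 1 p, ‖TT p τ k‖ * bkd p k x - Ξ / 2 * bkd p p x

theorem pb25_card {p : ℕ} : ((JJ p).card : ℝ) = 2 * p := by
  rw [JJ, Int.card_Ico]
  have : ((p : ℤ) - -(p : ℤ)).toNat = 2 * p := by omega
  rw [this]
  push_cast
  ring

theorem pb25_Xi {p : ℕ} (hp : 2 ≤ p) (τ : ℤ → ℝ) {Ξ : ℝ}
    (hΞ : ∀ m : ℤ, Ξ ≤ ∑ k ∈ Finset.Icc 1 p, (‖TT p τ k‖ - cc p τ k m)) :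
    Ξ ≤ ∑ k ∈ Finset.Icc 1 p, ‖TT p τ k‖ := by
  have h1 : ∑ m ∈ JJ p, Ξ ≤ ∑ m ∈ JJ p, ∑ k ∈ Finset.Icc 1 p, (‖TT p τ k‖ - cc p τ k m) :=
    Finset.sum_le_sum fun m _ => hΞ m
  rw [Finset.sum_comm] at h1
  have h2 : ∀ k ∈ Finset.Icc 1 p, ∑ m ∈ JJ p, (‖TT p τ k‖ - cc p τ k m) =
      (2 * p : ℝ) * ‖TT p τ k‖ := by
    intro k hk
    have hk' := Finset.mem_Icc.1 hk
    rw [Finset.sum_sub_distrib, cc_mean (by omega) τ hk'.1 hk'.2, Finset.sum_const, nsmul_eq_mul,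
      pb25_card, sub_zero]
  rw [Finset.sum_congr rfl h2, Finset.sum_const, nsmul_eq_mul, pb25_card, ← Finset.mul_sum] at h1
  have hp0 : (0 : ℝ) < 2 * p := by
    have : (0 : ℝ) < p := by exact_mod_cast (by omega : 0 < p)
    linarith
  exact le_of_mul_le_mul_left h1 hp0

theorem pb25_G_nonneg {p : ℕ} (hp : 2 ≤ p) (τ : ℤ → ℝ) {Ξ : ℝ} (hΞ0 : 0 ≤ Ξ)
    (hΞ : ∀ m : ℤ, Ξ ≤ ∑ k ∈ Finset.Icc 1 p, (‖TT p τ k‖ - cc p τ k m)) (x : ℝ) :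
    0 ≤ pb25_G p τ Ξ x := by
  have h1 := pb25_Xi hp τ hΞ
  have hb : 0 ≤ bk p p x := bk_nonneg (by omega) le_rfl x
  have h2 : (∑ k ∈ Finset.Icc 1 p, ‖TT p τ k‖) * bk p p x ≤
      ∑ k ∈ Finset.Icc 1 p, ‖TT p τ k‖ * bk p k x := by
    rw [Finset.sum_mul]
    refine Finset.sum_le_sum fun k hk => ?_
    have hk' := Finset.mem_Icc.1 hk
    exact mul_le_mul_of_nonneg_left (bk_ge hp hk'.1 hk'.2 x) (norm_nonneg _)
  have h3 : Ξ * bk p p x ≤ (∑ k ∈ Finset.Icc 1 p, ‖TT p τ k‖) * bk p p x :=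
    mul_le_mul_of_nonneg_right h1 hb
  have h4 : 0 ≤ Ξ * bk p p x := mul_nonneg hΞ0 hb
  rw [pb25_G]
  linarith

theorem pb25_g_nonneg {p : ℕ} (hp : 2 ≤ p) (τ : ℤ → ℝ) {Ξ : ℝ}
    (hΞ : ∀ m : ℤ, Ξ ≤ ∑ k ∈ Finset.Icc 1 p, (‖TT p τ k‖ - cc p τ k m)) (x : ℝ) :
    0 ≤ pb25_g p τ Ξ x := by
  have h1 := pb25_Xi hp τ hΞ
  have hb : 0 ≤ bkd p p x := bkd_nonneg (by omega) le_rfl x
  have h2 : (∑ k ∈ Finset.Icc 1 p, ‖TT p τ k‖) * (bkd p p x / 2) ≤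
      ∑ k ∈ Finset.Icc 1 p, ‖TT p τ k‖ * bkd p k x := by
    rw [Finset.sum_mul]
    refine Finset.sum_le_sum fun k hk => ?_
    have hk' := Finset.mem_Icc.1 hk
    exact mul_le_mul_of_nonneg_left (bkd_half hk'.1 hk'.2 x) (norm_nonneg _)
  have h3 : Ξ * (bkd p p x / 2) ≤ (∑ k ∈ Finset.Icc 1 p, ‖TT p τ k‖) * (bkd p p x / 2) :=
    mul_le_mul_of_nonneg_right h1 (by linarith)
  rw [pb25_g]
  linarith

theorem pb25_g_meas (p : ℕ) (τ : ℤ → ℝ) (Ξ : ℝ) : Measurable (pb25_g p τ Ξ) := by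
  have h : Continuous (pb25_g p τ Ξ) := by
    unfold pb25_g
    exact (continuous_finsetSum _ fun k _ => continuous_const.mul (bkd_cont p k)).sub
      (continuous_const.mul (bkd_cont p p))
  exact h.measurable

theorem pb25_bkd_bd {p : ℕ} (hp : 2 ≤ p) : ∃ C : ℝ, 0 < C ∧ ∀ k : ℕ, 1 ≤ k → k ≤ p → ∀ x : ℝ,
    |bkd p k x| ≤ C * vv p x := by
  obtain ⟨C, hC, h⟩ := bkd_le hp
  refine ⟨C, hC, fun k hk hkp x => ?_⟩
  rw [abs_of_nonneg (bkd_nonneg hk hkp x)]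
  exact (h k hk hkp x).trans (mul_le_mul_of_nonneg_left (ww_le_vv p x) hC.le)

theorem pb25_g_bd {p : ℕ} (hp : 2 ≤ p) (τ : ℤ → ℝ) {Ξ : ℝ} (hΞ0 : 0 ≤ Ξ)
    (hΞ : ∀ m : ℤ, Ξ ≤ ∑ k ∈ Finset.Icc 1 p, (‖TT p τ k‖ - cc p τ k m)) :
    ∃ B : ℝ, ∀ y, |pb25_g p τ Ξ y| ≤ B * vv p y := by
  obtain ⟨C, hC, h⟩ := pb25_bkd_bd hp
  refine ⟨(∑ k ∈ Finset.Icc 1 p, ‖TT p τ k‖) * C, fun y => ?_⟩
  rw [abs_of_nonneg (pb25_g_nonneg hp τ hΞ y), pb25_g]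
  have h1 : ∑ k ∈ Finset.Icc 1 p, ‖TT p τ k‖ * bkd p k y ≤
      (∑ k ∈ Finset.Icc 1 p, ‖TT p τ k‖) * C * vv p y := by
    rw [mul_assoc, Finset.sum_mul]
    refine Finset.sum_le_sum fun k hk => ?_
    have hk' := Finset.mem_Icc.1 hk
    exact mul_le_mul_of_nonneg_left ((le_abs_self _).trans (h k hk'.1 hk'.2 y)) (norm_nonneg _)
  have h2 : 0 ≤ Ξ / 2 * bkd p p y :=
    mul_nonneg (by linarith) (bkd_nonneg (by omega) le_rfl y)
  linarith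

theorem pb25_Tt {p : ℕ} (hp : 2 ≤ p) (τ : ℤ → ℝ) (Ξ : ℝ) (x : ℝ) :
    Tt (pb25_g p τ Ξ) x = pb25_G p τ Ξ x := by
  obtain ⟨C, hC, h⟩ := pb25_bkd_bd hp
  have hint : ∀ k ∈ Finset.Icc 1 p, IntegrableOn (fun y : ℝ => (y - x) * bkd p k y)
      (Set.Ioi x) := by
    intro k hk
    have hk' := Finset.mem_Icc.1 hk
    exact Tt_int hp (bkd_cont p k).measurable (h k hk'.1 hk'.2) x
  have hpI : p ∈ Finset.Icc 1 p := Finset.mem_Icc.2 ⟨by omega, le_rfl⟩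
  rw [Tt, pb25_G]
  have h1 : ∀ y : ℝ, (y - x) * pb25_g p τ Ξ y =
      ∑ k ∈ Finset.Icc 1 p, ‖TT p τ k‖ * ((y - x) * bkd p k y) -
        Ξ / 2 * ((y - x) * bkd p p y) := by
    intro y
    rw [pb25_g, mul_sub, Finset.mul_sum]
    congr 1
    · exact Finset.sum_congr rfl fun k _ => by ring
    · ring
  simp_rw [h1]
  rw [integral_sub, integral_finsetSum, integral_const_mul]
  · congr 1
    refine Finset.sum_congr rfl fun k hk => ?_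
    rw [integral_const_mul]
    rfl
  · intro k hk
    exact (hint k hk).const_mul _
  · exact integrable_finsetSum _ fun k hk => (hint k hk).const_mul _
  · exact (hint p hpI).const_mul _

theorem pb25_II {p : ℕ} (hp : 2 ≤ p) {η : ℝ} (h0 : 0 < η) (h1 : η ≤ 1 / 4) (τ : ℤ → ℝ) {Ξ : ℝ}
    (hΞ0 : 0 ≤ Ξ)
    (hΞ : ∀ m : ℤ, Ξ ≤ ∑ k ∈ Finset.Icc 1 p, (‖TT p τ k‖ - cc p τ k m)) :
    II (rh p η) (Tt (pb25_g p τ Ξ)) =
      ∑ k ∈ Finset.Icc 1 p, II (rh p η) (bk p k) * ‖TT p τ k‖ -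
          II (rh p η) (bk p p) / 2 * Ξ := by
  obtain ⟨C, hC, h⟩ := pb25_bkd_bd hp
  obtain ⟨B, hB⟩ := pb25_g_bd hp τ hΞ0 hΞ
  have hint : ∀ k ∈ Finset.Icc 1 p, Integrable (fun y : ℝ => Real.exp (rh p η * y) *
      bkd p k y) := by
    intro k hk
    have hk' := Finset.mem_Icc.1 hk
    exact exp_k_int hp h0 h1 (bkd_cont p k).measurable (h k hk'.1 hk'.2)
  have hval : ∀ k ∈ Finset.Icc 1 p, II (rh p η) (bk p k) =
      ∫ y : ℝ, Real.exp (rh p η * y) * bkd p k y := by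
    intro k hk
    have hk' := Finset.mem_Icc.1 hk
    exact (II_T hp h0 h1 (bkd_cont p k).measurable (h k hk'.1 hk'.2)).2
  have hpI : p ∈ Finset.Icc 1 p := Finset.mem_Icc.2 ⟨by omega, le_rfl⟩
  rw [(II_T hp h0 h1 (pb25_g_meas p τ Ξ) hB).2]
  have h2 : ∀ y : ℝ, Real.exp (rh p η * y) * pb25_g p τ Ξ y =
      ∑ k ∈ Finset.Icc 1 p, ‖TT p τ k‖ * (Real.exp (rh p η * y) * bkd p k y) -
        Ξ / 2 * (Real.exp (rh p η * y) * bkd p p y) := by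
    intro y
    rw [pb25_g, mul_sub, Finset.mul_sum]
    congr 1
    · exact Finset.sum_congr rfl fun k _ => by ring
    · ring
  simp_rw [h2]
  rw [integral_sub, integral_finsetSum, integral_const_mul]
  · rw [hval p hpI]
    congr 1
    · refine Finset.sum_congr rfl fun k hk => ?_
      rw [integral_const_mul, hval k hk, mul_comm]
    · ring
  · intro k hk
    exact (hint k hk).const_mul _
  · exact integrable_finsetSum _ fun k hk => (hint k hk).const_mul _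
  · exact (hint p hpI).const_mul _

theorem pb25_kt {p : ℕ} (hp : 2 ≤ p) (τ : ℤ → ℝ) {Ξ : ℝ} (hΞ0 : 0 ≤ Ξ)
    (hΞ : ∀ m : ℤ, Ξ ≤ ∑ k ∈ Finset.Icc 1 p, (‖TT p τ k‖ - cc p τ k m)) (x : ℝ) (m : ℤ) :
    ∑ j ∈ JJ p, τ j * kt p x (j - m) ≤ pb25_G p τ Ξ x := by
  rw [kt_cc hp, pb25_G]
  have hb : 0 ≤ bk p p x := bk_nonneg (by omega) le_rfl x
  have h1 : bk p p x * ∑ k ∈ Finset.Icc 1 p, (‖TT p τ k‖ - cc p τ k m) ≤
      ∑ k ∈ Finset.Icc 1 p, bk p k x * (‖TT p τ k‖ - cc p τ k m) := by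
    rw [Finset.mul_sum]
    refine Finset.sum_le_sum fun k hk => ?_
    have hk' := Finset.mem_Icc.1 hk
    exact mul_le_mul_of_nonneg_right (bk_ge hp hk'.1 hk'.2 x) (by linarith [cc_le p τ k m])
  have h2 : bk p p x * Ξ ≤ bk p p x * ∑ k ∈ Finset.Icc 1 p, (‖TT p τ k‖ - cc p τ k m) :=
    mul_le_mul_of_nonneg_left (hΞ m) hb
  have h3 : ∑ k ∈ Finset.Icc 1 p, bk p k x * (‖TT p τ k‖ - cc p τ k m) =
      ∑ k ∈ Finset.Icc 1 p, ‖TT p τ k‖ * bk p k x - ∑ k ∈ Finset.Icc 1 p, bk p k x *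
        cc p τ k m := by
    rw [← Finset.sum_sub_distrib]
    exact Finset.sum_congr rfl fun k _ => by ring
  have h4 : 0 ≤ bk p p x * Ξ := mul_nonneg hb hΞ0
  linarith

theorem pb25_ell {p : ℕ} (hp : 2 ≤ p) {C0 η : ℝ} (τ : ℤ → ℝ)
    (hτ : ∀ j ∈ JJ p, |τ j| ≤ C0 * η) : 0 ≤ ell p τ ∧ Real.pi * ell p τ ≤
      (p : ℝ) ^ 2 * (C0 * η) ^ 2 := by
  have hp0 : (0 : ℝ) < p := by exact_mod_cast (by omega : 0 < p)
  have hpi := Real.pi_pos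
  constructor
  · rw [ell]
    refine mul_nonneg (by positivity) (Finset.sum_nonneg fun j _ => ?_)
    linarith [Real.cos_le_one (p * τ j)]
  · have h1 : ∑ j ∈ JJ p, (1 - Real.cos (p * τ j)) ≤ ∑ j ∈ JJ p, (p : ℝ) ^ 2 * (C0 * η) ^ 2 / 2 := by
      refine Finset.sum_le_sum fun j hj => ?_
      have h2 := Real.one_sub_sq_div_two_le_cos (x := p * τ j)
      have h3 : (τ j) ^ 2 ≤ (C0 * η) ^ 2 := by
        have := hτ j hj
        rw [← sq_abs (τ j)]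
        exact pow_le_pow_left₀ (abs_nonneg _) this 2
      have h4 : ((p : ℝ) * τ j) ^ 2 ≤ (p : ℝ) ^ 2 * (C0 * η) ^ 2 := by
        rw [mul_pow]
        exact mul_le_mul_of_nonneg_left h3 (by positivity)
      linarith
    rw [Finset.sum_const, nsmul_eq_mul, pb25_card] at h1
    have h5 : Real.pi * ell p τ = (p : ℝ)⁻¹ * ∑ j ∈ JJ p, (1 - Real.cos (p * τ j)) := by
      rw [ell]
      field_simp
    rw [h5]
    have h6 : (p : ℝ)⁻¹ * ∑ j ∈ JJ p, (1 - Real.cos (p * τ j)) ≤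
        (p : ℝ)⁻¹ * (2 * p * ((p : ℝ) ^ 2 * (C0 * η) ^ 2 / 2)) :=
      mul_le_mul_of_nonneg_left h1 (by positivity)
    refine h6.trans (le_of_eq ?_)
    field_simp

/-- the far regime -/
theorem r2 {p : ℕ} (hp : 2 ≤ p) {C0 : ℝ} (hC0 : 0 < C0) {ς : ℝ} (hς : 0 < ς) :
    ∃ η1 : ℝ, 0 < η1 ∧ ∀ η : ℝ, 0 < η → η < η1 → ∀ c : Cfg (rh p η), ∀ τ : ℤ → ℝ,
      (∀ j ∈ JJ p, |τ j| ≤ C0 * η) → ∀ Ξ : ℝ, 0 ≤ Ξ →
      (∀ m : ℤ, Ξ ≤ ∑ k ∈ Finset.Icc 1 p, (‖TT p τ k‖ - cc p τ k m)) →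
      c.Lam p η τ ≤ mn p η - Z0 p η / p * ell p τ - c.DD p / 2 +
        Real.pi⁻¹ * (∑ k ∈ Finset.Icc 1 p, II (rh p η) (bk p k) * ‖TT p τ k‖ -
          II (rh p η) (bk p p) / 2 * Ξ) + ς * η := by
  have hp0 : (0 : ℝ) < p := by exact_mod_cast (by omega : 0 < p)
  have hpi := Real.pi_pos
  obtain ⟨C1, hC1, hpm⟩ := pm1 hp hC0
  obtain ⟨Cw, hCw, hSw⟩ := S_ww hp
  obtain ⟨Ct, hCt, hSt⟩ := S_tail hp
  -- choice of `X`
  obtain ⟨X, hX1, hX⟩ : ∃ X : ℝ, 1 ≤ X ∧ C1 * Ct * Real.exp (-(X / 4)) ≤ Real.pi * ς / 2 := by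
    have h1 : Tendsto (fun X : ℝ => C1 * Ct * Real.exp (-(X / 4))) atTop (𝓝 (C1 * Ct * 0)) := by
      refine Tendsto.const_mul _ ?_
      exact Real.tendsto_exp_neg_atTop_nhds_zero.comp (tendsto_id.atTop_div_const (by norm_num))
    rw [mul_zero] at h1
    have h2 : ∀ᶠ X : ℝ in atTop, C1 * Ct * Real.exp (-(X / 4)) < Real.pi * ς / 2 :=
      h1.eventually (gt_mem_nhds (by positivity))
    obtain ⟨X, hX⟩ := (h2.and (eventually_ge_atTop (1 : ℝ))).exists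
    exact ⟨X, hX.2, hX.1.le⟩
  obtain ⟨CX, η1, hCX, hη1, hpm⟩ := hpm X hX1
  refine ⟨min (min η1 (1 / 4)) (min (1 / (2 * p * C0)) (Real.pi * ς / (2 * CX * Cw))),
    by positivity, ?_⟩
  intro η hη0 hη c τ hτ Ξ hΞ0 hΞ
  have hηa : η < η1 := lt_of_lt_of_le hη ((min_le_left _ _).trans (min_le_left _ _))
  have hηb : η ≤ 1 / 4 := (lt_of_lt_of_le hη ((min_le_left _ _).trans (min_le_right _ _))).le
  have hηc : η ≤ 1 / (2 * p * C0) :=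
    (lt_of_lt_of_le hη ((min_le_right _ _).trans (min_le_left _ _))).le
  have hηd : η ≤ Real.pi * ς / (2 * CX * Cw) :=
    (lt_of_lt_of_le hη ((min_le_right _ _).trans (min_le_right _ _))).le
  -- the sum over the masses
  have hmass : ∀ i, c.m i * (c.e i * QQ p τ (c.x i) (c.a i)) ≤
      c.m i * pb25_G p τ Ξ (c.x i) +
      (4 * p : ℝ)⁻¹ * (c.m i * (Real.exp (-(p * |c.x i|)) * c.d p i)) +
      CX * η ^ 2 * (c.m i * ww p (c.x i)) +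
      C1 * η * (if c.x i < -X then c.m i * ww p (c.x i) else 0) := by
    intro i
    have h1 := hpm η hη0 hηa τ hτ (c.x i) (c.a i) (c.e i) (pb25_G p τ Ξ (c.x i)) (c.x0 i) (c.e1 i)
      (pb25_G_nonneg hp τ hΞ0 hΞ _) (fun m => pb25_kt hp τ hΞ0 hΞ _ m)
    have h2 := mul_le_mul_of_nonneg_left h1 (c.m0 i)
    refine h2.trans (le_of_eq ?_)
    rw [Cfg.d]
    split_ifs with hx
    · ring
    · ring
  have hsum := Finset.sum_le_sum fun i (_ : i ∈ Finset.univ) => hmass i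
  rw [Finset.sum_add_distrib, Finset.sum_add_distrib, Finset.sum_add_distrib, ← Finset.mul_sum,
    ← Finset.mul_sum, ← Finset.mul_sum] at hsum
  have hG : ∑ i, c.m i * pb25_G p τ Ξ (c.x i) ≤
      ∑ k ∈ Finset.Icc 1 p, II (rh p η) (bk p k) * ‖TT p τ k‖ -
          II (rh p η) (bk p p) / 2 * Ξ := by
    obtain ⟨B, hB⟩ := pb25_g_bd hp τ hΞ0 hΞ
    have h1 := S_T_le hp hη0 hηb c (pb25_g_meas p τ Ξ) hB (pb25_g_nonneg hp τ hΞ)
    rw [pb25_II hp hη0 hηb τ hΞ0 hΞ] at h1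
    simpa only [pb25_Tt hp] using h1
  have hDa : (4 * p : ℝ)⁻¹ * ∑ i, c.m i * (Real.exp (-(p * |c.x i|)) * c.d p i) =
      Real.pi / 4 * c.Da p := by
    rw [Cfg.Da]
    field_simp
  have hw := hSw η hη0 hηb c
  have ht := hSt η hη0 hηb c X (by linarith)
  -- error terms
  have herr : CX * η ^ 2 * ∑ i, c.m i * ww p (c.x i) +
      C1 * η * ∑ i, (if c.x i < -X then c.m i * ww p (c.x i) else 0) ≤ Real.pi * (ς * η) := by
    have h1 : CX * η ^ 2 * ∑ i, c.m i * ww p (c.x i) ≤ CX * η ^ 2 * Cw :=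
      mul_le_mul_of_nonneg_left hw (by positivity)
    have h2 : C1 * η * ∑ i, (if c.x i < -X then c.m i * ww p (c.x i) else 0) ≤
        C1 * η * (Ct * Real.exp (-(X / 4))) := mul_le_mul_of_nonneg_left ht (by positivity)
    have h3 : CX * η ^ 2 * Cw ≤ Real.pi * ς / 2 * η := by
      have h4 : η * (2 * CX * Cw) ≤ Real.pi * ς := by
        rwa [le_div_iff₀ (by positivity)] at hηd
      have h5 := mul_le_mul_of_nonneg_right h4 hη0.le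
      nlinarith
    have h6 : C1 * η * (Ct * Real.exp (-(X / 4))) ≤ Real.pi * ς / 2 * η := by
      have h7 := mul_le_mul_of_nonneg_right hX hη0.le
      nlinarith
    nlinarith
  have hell := pb25_ell hp τ hτ
  have hDr := Dr_nonneg (p := p) c
  have hDa0 := Da_nonneg (p := p) c
  have hDD : c.DD p = c.Dr p + c.Da p := rfl
  have hAc := Ac_ge hp hη0 hηb c
  have hAe : Z0 p η / p * ell p τ - c.DD p / 4 ≤ c.Ac p * ell p τ := by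
    have h1 := mul_le_mul_of_nonneg_right hAc hell.1
    have h2 : (p : ℝ) ^ 2 * (C0 * η) ^ 2 ≤ 1 / 4 := by
      have h3 : (p : ℝ) * (C0 * η) ≤ 1 / 2 := by
        rw [le_div_iff₀ (by positivity)] at hηc
        nlinarith
      have h4 : 0 ≤ (p : ℝ) * (C0 * η) := by positivity
      nlinarith
    have h5 : Real.pi * ell p τ * c.DD p ≤ 1 / 4 * c.DD p :=
      mul_le_mul_of_nonneg_right (hell.2.trans h2) (by linarith)
    nlinarith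
  have htot : Real.pi⁻¹ * ∑ i, c.m i * (c.e i * QQ p τ (c.x i) (c.a i)) ≤
      Real.pi⁻¹ * (∑ k ∈ Finset.Icc 1 p, II (rh p η) (bk p k) * ‖TT p τ k‖ -
          II (rh p η) (bk p p) / 2 * Ξ) + c.Da p / 4 + ς * η := by
    have h1 : ∑ i, c.m i * (c.e i * QQ p τ (c.x i) (c.a i)) ≤
        (∑ k ∈ Finset.Icc 1 p, II (rh p η) (bk p k) * ‖TT p τ k‖ -
          II (rh p η) (bk p p) / 2 * Ξ) + Real.pi / 4 * c.Da p + Real.pi * (ς * η) := by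
      linarith
    have h2 := mul_le_mul_of_nonneg_left h1 (inv_nonneg.2 hpi.le)
    refine h2.trans (le_of_eq ?_)
    field_simp
  rw [Cfg.Lam]
  linarith

end Pool.Agent.PfB
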