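import Pool.Agent.PfB.IK
import Pool.Agent.PfB.Mass

/-! MP_f2c8f8_an, project PfB, row PB-15 -/

set_option autoImplicit false

open MeasureTheory Filter
open scoped ComplexConjugate Topology

noncomputable section

namespace Pool.Agent.PfB

/-- telescoping over an interval of integers -/
theorem pb15_tel (f : ℤ → ℝ) (a : ℤ) (n : ℕ) :
    ∑ j ∈ Finset.Ico a (a + n), (f (j + 1) - f j) = f (a + n) - f a := by
  induction n with
  | zero => simp
  | succ n ih =>
    have h : Finset.Ico a (a + ((n + 1 : ℕ) : ℤ)) =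
        insert (a + (n : ℤ)) (Finset.Ico a (a + n)) := by
      ext j
      simp only [Finset.mem_Ico, Finset.mem_insert]
      push_cast
      omega
    rw [h, Finset.sum_insert (by simp), ih]
    have e : a + ((n + 1 : ℕ) : ℤ) = a + (n : ℤ) + 1 := by push_cast; ring
    rw [e]
    ring

theorem cos_sum {p : ℕ} (hp : 1 ≤ p) {η : ℝ} (h0 : 0 < η) (h1 : η ≤ 1 / 4) :
    ∑ j ∈ JJ p, Real.cos (η * th p j) = Real.sin (Real.pi * η) * mn p η := by
  have hp1 : (1 : ℝ) ≤ p := by exact_mod_cast hp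
  have hp' : (0 : ℝ) < p := by linarith
  have hpi := Real.pi_pos
  set s : ℝ := Real.sin (Real.pi * η / (2 * p)) with hs
  have hs0 : 0 < s := by
    apply Real.sin_pos_of_pos_of_lt_pi
    · positivity
    · rw [div_lt_iff₀ (by positivity)]
      nlinarith
  have key : ∀ j : ℤ, 2 * s * Real.cos (η * th p j) =
      Real.sin (Real.pi * η / p * ((j + 1 : ℤ) : ℝ)) - Real.sin (Real.pi * η / p * (j : ℝ)) := by
    intro j
    have e1 : Real.pi * η / p * ((j + 1 : ℤ) : ℝ) = η * th p j + Real.pi * η / (2 * p) := by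
      unfold th
      push_cast
      field_simp
      ring
    have e2 : Real.pi * η / p * (j : ℝ) = η * th p j - Real.pi * η / (2 * p) := by
      unfold th
      field_simp
      ring
    rw [e1, e2, Real.sin_add, Real.sin_sub]
    ring
  have h2 : 2 * s * ∑ j ∈ JJ p, Real.cos (η * th p j) = 2 * Real.sin (Real.pi * η) := by
    rw [Finset.mul_sum, Finset.sum_congr rfl (fun j _ => key j)]
    have hJ : JJ p = Finset.Ico (-(p : ℤ)) (-(p : ℤ) + ((2 * p : ℕ) : ℤ)) := by
      unfold JJ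
      congr 1
      push_cast
      ring
    rw [hJ, pb15_tel (fun j => Real.sin (Real.pi * η / p * (j : ℝ))) (-(p : ℤ)) (2 * p)]
    have e3 : Real.pi * η / p * ((-(p : ℤ) + ((2 * p : ℕ) : ℤ) : ℤ) : ℝ) = Real.pi * η := by
      push_cast
      field_simp
      ring
    have e4 : Real.pi * η / p * ((-(p : ℤ) : ℤ) : ℝ) = -(Real.pi * η) := by
      push_cast
      field_simp
    simp only [e3, e4, Real.sin_neg]
    ring
  unfold mn
  rw [mul_one_div, eq_div_iff hs0.ne']
  linarith

/-- the bound of the kernel near a grid point -/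
theorem pb15_bd {p : ℕ} (hp : 2 ≤ p) : ∃ C : ℝ, 0 < C ∧ ∀ (j : ℤ) (x t : ℝ),
    |t| ≤ Real.pi / (8 * p) → |KK p x (th p j + t)| ≤ C * vv p x := by
  have hp' : (0 : ℝ) < p := by
    have : 0 < p := by omega
    exact_mod_cast this
  have hpi := Real.pi_pos
  have hc : 0 < Real.sin (Real.pi / (8 * p)) := by
    apply Real.sin_pos_of_pos_of_lt_pi (by positivity)
    rw [div_lt_iff₀ (by positivity)]
    have : (2 : ℝ) ≤ p := by exact_mod_cast hp
    nlinarith
  obtain ⟨C, hC, h⟩ := FB_bd hp hc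
  refine ⟨C, hC, fun j x t ht => (h x (th p j + t) (Or.inr ?_)).2.2⟩
  apply cos_grid (by omega) j
  refine ht.trans ?_
  apply div_le_div_of_nonneg_left hpi.le (by positivity)
  nlinarith

theorem pb15_mem {τ t : ℝ} (h : t ∈ Set.uIoc 0 τ) : |t| ≤ |τ| := by
  rcases Set.mem_uIoc.mp h with h | h
  · rw [abs_of_pos h.1, abs_of_pos (h.1.trans_le h.2)]
    exact h.2
  · rw [abs_of_nonpos h.2, abs_of_neg (h.1.trans_le h.2)]
    linarith [h.1]

theorem pb15_mem' {τ t : ℝ} (h : t ∈ Set.uIcc 0 τ) : |t| ≤ |τ| := by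
  rcases Set.mem_uIcc.mp h with h | h
  · rw [abs_of_nonneg h.1, abs_of_nonneg (h.1.trans h.2)]
    exact h.2
  · rw [abs_of_nonpos h.2, abs_of_nonpos (h.1.trans h.2)]
    linarith [h.1]

/-- Fubini -/
theorem pb15_fub {p : ℕ} (hp : 2 ≤ p) {η : ℝ} (h0 : 0 < η) (h1 : η ≤ 1 / 4) (j : ℤ) {τ : ℝ}
    (hτ : |τ| ≤ Real.pi / (8 * p)) :
    Integrable (fun x : ℝ => rh p η ^ 2 * Real.exp (rh p η * x) *
      ∫ t in (0 : ℝ)..τ, KK p x (th p j + t)) ∧
    II (rh p η) (fun x => ∫ t in (0 : ℝ)..τ, KK p x (th p j + t)) =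
      ∫ t in (0 : ℝ)..τ, II (rh p η) (fun x => KK p x (th p j + t)) := by
  obtain ⟨C, hC, hb⟩ := pb15_bd hp
  set F : ℝ → ℝ → ℝ := fun x t => rh p η ^ 2 * Real.exp (rh p η * x) * KK p x (th p j + t) with hF
  have hFm : Measurable (Function.uncurry F) := by
    have hK : Measurable (fun z : ℝ × ℝ => KK p z.1 (th p j + z.2)) :=
      (KK_meas p).comp (measurable_fst.prodMk (measurable_const.add measurable_snd))
    have hE : Measurable (fun z : ℝ × ℝ => rh p η ^ 2 * Real.exp (rh p η * z.1)) := by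
      fun_prop
    exact hE.mul hK
  have hfin : IsFiniteMeasure (volume.restrict (Set.uIoc (0 : ℝ) τ)) := by
    show IsFiniteMeasure (volume.restrict (Set.Ioc (min 0 τ) (max 0 τ)))
    infer_instance
  have hg : Integrable (fun z : ℝ × ℝ =>
      (rh p η ^ 2 * C) * (Real.exp (rh p η * z.1) * vv p z.1))
      ((volume : Measure ℝ).prod (volume.restrict (Set.uIoc 0 τ))) := by
    have h := ((vv_int hp h0 h1).const_mul (rh p η ^ 2 * C)).comp_fst
      (volume.restrict (Set.uIoc (0 : ℝ) τ))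
    exact h
  have hFi : Integrable (Function.uncurry F)
      ((volume : Measure ℝ).prod (volume.restrict (Set.uIoc 0 τ))) := by
    refine hg.mono' hFm.aestronglyMeasurable ?_
    have hae : ∀ᵐ z ∂((volume : Measure ℝ).prod (volume.restrict (Set.uIoc 0 τ))),
        z.2 ∈ Set.uIoc 0 τ := by
      have e : (volume : Measure ℝ).prod (volume.restrict (Set.uIoc 0 τ)) =
          ((volume : Measure ℝ).prod volume).restrict (Set.univ ×ˢ Set.uIoc 0 τ) := by
        rw [← Measure.prod_restrict, Measure.restrict_univ]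
      rw [e]
      filter_upwards [ae_restrict_mem (MeasurableSet.univ.prod measurableSet_uIoc)] with z hz
      exact hz.2
    filter_upwards [hae] with z hz
    have hz' : |z.2| ≤ Real.pi / (8 * p) := by
      refine le_trans ?_ hτ
      exact pb15_mem hz
    have h3 := hb j z.1 z.2 hz'
    simp only [Function.uncurry, hF, Real.norm_eq_abs, abs_mul, abs_pow, sq_abs, Real.abs_exp]
    calc rh p η ^ 2 * Real.exp (rh p η * z.1) * |KK p z.1 (th p j + z.2)|
        ≤ rh p η ^ 2 * Real.exp (rh p η * z.1) * (C * vv p z.1) := by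
          apply mul_le_mul_of_nonneg_left h3
          positivity
      _ = _ := by ring
  have e1 : ∀ x : ℝ, rh p η ^ 2 * Real.exp (rh p η * x) * ∫ t in (0 : ℝ)..τ, KK p x (th p j + t) =
      (if 0 ≤ τ then 1 else -1 : ℝ) * ∫ t in Set.uIoc 0 τ, F x t := by
    intro x
    rw [← intervalIntegral.integral_const_mul, intervalIntegral.intervalIntegral_eq_integral_uIoc,
      smul_eq_mul]
  constructor
  · simp only [e1]
    exact (hFi.integral_prod_left).const_mul _
  · unfold II
    simp only [e1]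
    rw [integral_const_mul, integral_integral_swap hFi,
      intervalIntegral.intervalIntegral_eq_integral_uIoc, smul_eq_mul]

theorem pb15_sg (p : ℕ) : sg p * sg p = 1 := by
  unfold sg
  rw [← mul_pow]
  norm_num

theorem pb15_cos (j : ℤ) (y : ℝ) :
    sj j * Real.cos (Real.pi * (2 * j + 1) / 2 + y) = -Real.sin y := by
  unfold sj
  have e : Real.pi * (2 * j + 1) / 2 + y = (y + Real.pi / 2) + (j : ℝ) * Real.pi := by ring
  rw [e, Real.cos_add_int_mul_pi, Real.cos_add_pi_div_two, ← mul_assoc]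
  rcases Int.even_or_odd j with h | h
  · rw [h.neg_one_zpow]
    ring
  · rw [h.neg_one_zpow]
    ring

/-- the shifted grid points are in `(-π, π)` -/
theorem pb15_lt {p : ℕ} (hp : 1 ≤ p) {j : ℤ} (hj : j ∈ JJ p) {t : ℝ}
    (ht : |t| ≤ Real.pi / (8 * p)) : |th p j + t| < Real.pi := by
  have hp1 : (1 : ℝ) ≤ p := by exact_mod_cast hp
  have hp' : (0 : ℝ) < p := by linarith
  have hpi := Real.pi_pos
  unfold JJ at hj
  rw [Finset.mem_Ico] at hj
  have h1 : (-(p : ℝ)) ≤ j := by exact_mod_cast hj.1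
  have h2 : (j : ℝ) + 1 ≤ p := by exact_mod_cast hj.2
  have hpp : 0 < Real.pi / (8 * p) := by positivity
  have e : th p j = Real.pi / (8 * p) * (4 * (2 * j + 1)) := by
    unfold th
    field_simp
    ring
  have e2 : Real.pi = Real.pi / (8 * p) * (8 * p) := by
    field_simp
  obtain ⟨h3, h4⟩ := abs_le.mp ht
  rw [abs_lt]
  constructor
  · rw [e]
    nlinarith
  · rw [e]
    nlinarith

/-- one summand -/
theorem pb15_one {p : ℕ} (hp : 2 ≤ p) {η : ℝ} (h0 : 0 < η) (h1 : η ≤ 1 / 4) {j : ℤ}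
    (hj : j ∈ JJ p) {τ : ℝ} (hτ : |τ| ≤ Real.pi / (8 * p)) :
    II (rh p η) (fun x => ∫ t in (0 : ℝ)..τ, sg p * sj j * KK p x (th p j + t)) =
      Real.pi / Real.sin (Real.pi * η) *
        (Real.cos (rh p η * (τ - tL p η j)) - Real.cos (η * th p j)) := by
  have hp2 : (2 : ℝ) ≤ p := by exact_mod_cast hp
  have hρ : 0 < rh p η := by
    show 0 < (p : ℝ) - η
    linarith
  have e1 : II (rh p η) (fun x => ∫ t in (0 : ℝ)..τ, sg p * sj j * KK p x (th p j + t)) =
      sg p * sj j * II (rh p η) (fun x => ∫ t in (0 : ℝ)..τ, KK p x (th p j + t)) := by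
    unfold II
    rw [← integral_const_mul]
    congr 1
    funext x
    simp only [intervalIntegral.integral_const_mul]
    ring
  have e2 : ∫ t in (0 : ℝ)..τ, II (rh p η) (fun x => KK p x (th p j + t)) =
      ∫ t in (0 : ℝ)..τ, sg p * (Real.pi * rh p η / Real.sin (Real.pi * η)) *
        Real.cos (rh p η * (th p j + t)) := by
    apply intervalIntegral.integral_congr
    intro t ht
    exact II_KK hp h0 h1 (pb15_lt (by omega) hj ((pb15_mem' ht).trans hτ))
  have e3 : ∀ t : ℝ, sg p * sj j * (sg p * (Real.pi * rh p η / Real.sin (Real.pi * η)) *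
        Real.cos (rh p η * (th p j + t))) =
      (Real.pi / Real.sin (Real.pi * η)) * (-Real.sin (rh p η * (t - tL p η j)) * rh p η) := by
    intro t
    have e4 : rh p η * (th p j + t) = Real.pi * (2 * j + 1) / 2 + rh p η * (t - tL p η j) := by
      have : rh p η * tL p η j = η * th p j := by
        unfold tL
        field_simp
      have h5 : (p : ℝ) * th p j = Real.pi * (2 * j + 1) / 2 := by
        unfold th
        field_simp
      calc rh p η * (th p j + t) = (p : ℝ) * th p j - η * th p j + rh p η * t := by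
            show ((p : ℝ) - η) * _ = _
            simp only [rh]
            ring
        _ = _ := by
            rw [h5, ← this]
            ring
    have h6 := pb15_cos j (rh p η * (t - tL p η j))
    rw [← e4] at h6
    have h7 := pb15_sg p
    calc _ = (sg p * sg p) * (Real.pi * rh p η / Real.sin (Real.pi * η)) *
          (sj j * Real.cos (rh p η * (th p j + t))) := by ring
      _ = _ := by
        rw [h6, h7]
        ring
  rw [e1, (pb15_fub hp h0 h1 j hτ).2, e2, ← intervalIntegral.integral_const_mul]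
  simp only [e3]
  rw [intervalIntegral.integral_const_mul]
  congr 1
  have hd : ∀ t ∈ Set.uIcc (0 : ℝ) τ, HasDerivAt (fun t => Real.cos (rh p η * (t - tL p η j)))
      (-Real.sin (rh p η * (t - tL p η j)) * rh p η) t := by
    intro t _
    have h8 : HasDerivAt (fun t : ℝ => rh p η * (t - tL p η j)) (rh p η) t := by
      simpa using ((hasDerivAt_id t).sub_const (tL p η j)).const_mul (rh p η)
    exact h8.cos
  rw [intervalIntegral.integral_eq_sub_of_hasDerivAt hd]
  · congr 1
    have : rh p η * (0 - tL p η j) = -(η * th p j) := by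
      unfold tL
      field_simp
      ring
    rw [this, Real.cos_neg]
  · apply Continuous.intervalIntegrable
    fun_prop

theorem RR_int {p : ℕ} (hp : 2 ≤ p) {η : ℝ} (h0 : 0 < η) (h1 : η ≤ 1 / 4) {τ : ℤ → ℝ}
    (hτ : ∀ j ∈ JJ p, |τ j| ≤ Real.pi / (8 * p)) :
    Integrable (fun x : ℝ => rh p η ^ 2 * Real.exp (rh p η * x) * RR p τ x) := by
  have e : (fun x : ℝ => rh p η ^ 2 * Real.exp (rh p η * x) * RR p τ x) = fun x =>
      ∑ j ∈ JJ p, (sg p * sj j) * (rh p η ^ 2 * Real.exp (rh p η * x) *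
        ∫ t in (0 : ℝ)..τ j, KK p x (th p j + t)) := by
    funext x
    unfold RR
    rw [Finset.mul_sum]
    apply Finset.sum_congr rfl
    intro j _
    rw [intervalIntegral.integral_const_mul]
    ring
  rw [e]
  apply integrable_finsetSum
  intro j hj
  exact (pb15_fub hp h0 h1 j (hτ j hj)).1.const_mul _

theorem pb15_II {p : ℕ} (hp : 2 ≤ p) {η : ℝ} (h0 : 0 < η) (h1 : η ≤ 1 / 4) {τ : ℤ → ℝ}
    (hτ : ∀ j ∈ JJ p, |τ j| ≤ Real.pi / (8 * p)) :
    II (rh p η) (RR p τ) = ∑ j ∈ JJ p,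
      II (rh p η) (fun x => ∫ t in (0 : ℝ)..τ j, sg p * sj j * KK p x (th p j + t)) := by
  unfold II
  rw [← integral_finsetSum]
  · congr 1
    funext x
    unfold RR
    rw [Finset.mul_sum]
  · intro j hj
    have e : (fun x : ℝ => rh p η ^ 2 * Real.exp (rh p η * x) *
        ∫ t in (0 : ℝ)..τ j, sg p * sj j * KK p x (th p j + t)) = fun x =>
        (sg p * sj j) * (rh p η ^ 2 * Real.exp (rh p η * x) *
        ∫ t in (0 : ℝ)..τ j, KK p x (th p j + t)) := by
      funext x
      rw [intervalIntegral.integral_const_mul]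
      ring
    rw [e]
    exact (pb15_fub hp h0 h1 j (hτ j hj)).1.const_mul _

theorem pb15_sin {η : ℝ} (h0 : 0 < η) (h1 : η ≤ 1 / 4) : 0 < Real.sin (Real.pi * η) := by
  have hpi := Real.pi_pos
  apply Real.sin_pos_of_pos_of_lt_pi (by positivity)
  nlinarith

theorem W_eq {p : ℕ} (hp : 2 ≤ p) {η : ℝ} (h0 : 0 < η) (h1 : η ≤ 1 / 4) {τ : ℤ → ℝ}
    (hτ : ∀ j ∈ JJ p, |τ j| ≤ Real.pi / (8 * p)) :
    mn p η + Real.pi⁻¹ * II (rh p η) (RR p τ) = WW p η τ := by
  have hs := pb15_sin h0 h1
  have hpi := Real.pi_pos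
  rw [pb15_II hp h0 h1 hτ, Finset.sum_congr rfl (fun j hj => pb15_one hp h0 h1 hj (hτ j hj)),
    ← Finset.mul_sum, Finset.sum_sub_distrib, cos_sum (by omega) h0 h1]
  unfold WW
  field_simp
  ring

/-- continuity near a grid point -/
theorem pb15_cont {p : ℕ} (hp : 1 ≤ p) (x : ℝ) (j : ℤ) {τ : ℝ} (hτ : |τ| ≤ Real.pi / (8 * p)) :
    ContinuousOn (fun t => KK p x (th p j + t)) (Set.uIcc 0 τ) := by
  have hp1 : (1 : ℝ) ≤ p := by exact_mod_cast hp
  have hp' : (0 : ℝ) < p := by linarith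
  have hpi := Real.pi_pos
  intro t ht
  have h1 : |t| ≤ Real.pi / (4 * p) := by
    refine ((pb15_mem' ht).trans hτ).trans ?_
    apply div_le_div_of_nonneg_left hpi.le (by positivity)
    nlinarith
  have hc : 0 < Real.sin (Real.pi / (8 * p)) := by
    apply Real.sin_pos_of_pos_of_lt_pi (by positivity)
    rw [div_lt_iff₀ (by positivity)]
    nlinarith
  have h2 := cos_grid hp j h1
  have h3 : Real.cos ((th p j + t) / 2) ≠ 0 := by
    intro h
    rw [h, abs_zero] at h2
    linarith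
  have h4 : wz x (th p j + t) ≠ 1 := wz_ne_one (Or.inr h3)
  have h5 : ContinuousAt (fun b => KK p x b) (th p j + t) := (KK_b hp h4).continuousAt
  have h6 : ContinuousAt (fun t : ℝ => th p j + t) t := by fun_prop
  exact (ContinuousAt.comp (f := fun t : ℝ => th p j + t) (g := fun b => KK p x b) h5
    h6).continuousWithinAt

theorem RR_eq {p : ℕ} (hp : 1 ≤ p) (τ : ℤ → ℝ) (x : ℝ) (hτ : ∀ j ∈ JJ p, |τ j| ≤ Real.pi / (8 * p)) :
    RR p τ x = QQ p τ x 0 - Real.pi / p * Real.exp (-(p * |x|)) * ell p τ := by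
  have hp1 : (1 : ℝ) ≤ p := by exact_mod_cast hp
  have hp' : (0 : ℝ) < p := by linarith
  have hpi := Real.pi_pos
  unfold RR QQ ell
  have key : ∀ j ∈ JJ p, ∫ t in (0 : ℝ)..τ j, sg p * sj j * KK p x (th p j + t) =
      (∫ t in (0 : ℝ)..τ j, kj p x j (t - 0)) -
        (p : ℝ)⁻¹ * Real.exp (-(p * |x|)) * ((1 - Real.cos (p * τ j)) / p) := by
    intro j hj
    have hs : ∫ t in (0 : ℝ)..τ j, Real.sin (p * t) = (1 - Real.cos (p * τ j)) / p := by
      rw [intervalIntegral.integral_comp_mul_left (fun y => Real.sin y) hp'.ne', integral_sin]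
      simp
      field_simp
    have e : ∀ t : ℝ, kj p x j (t - 0) = sg p * sj j * KK p x (th p j + t) +
        (p : ℝ)⁻¹ * Real.exp (-(p * |x|)) * Real.sin (p * t) := by
      intro t
      rw [kj_eq hp, sub_zero]
      ring
    simp only [e]
    rw [intervalIntegral.integral_add, intervalIntegral.integral_const_mul
      ((p : ℝ)⁻¹ * Real.exp (-(p * |x|))), hs]
    · ring
    · exact (((pb15_cont hp x j (hτ j hj)).const_smul (sg p * sj j))).intervalIntegrable
    · apply Continuous.intervalIntegrable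
      fun_prop
  rw [Finset.sum_congr rfl key, Finset.sum_sub_distrib, ← Finset.mul_sum, ← Finset.sum_div]
  field_simp

theorem WQ_eq {p : ℕ} (hp : 2 ≤ p) {η : ℝ} (h0 : 0 < η) (h1 : η ≤ 1 / 4) {τ : ℤ → ℝ}
    (hτ : ∀ j ∈ JJ p, |τ j| ≤ Real.pi / (8 * p)) :
    Integrable (fun x : ℝ => rh p η ^ 2 * Real.exp (rh p η * x) * QQ p τ x 0) ∧
    mn p η - Z0 p η / p * ell p τ + Real.pi⁻¹ * II (rh p η) (fun x => QQ p τ x 0) = WW p η τ := by
  have hp2 : (2 : ℝ) ≤ p := by exact_mod_cast hp
  have hp' : (0 : ℝ) < p := by linarith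
  have hpi := Real.pi_pos
  obtain ⟨hZi, hZ⟩ := II_Z0 hp h0 h1
  have hR := RR_int hp h0 h1 hτ
  have e : (fun x : ℝ => rh p η ^ 2 * Real.exp (rh p η * x) * QQ p τ x 0) = fun x =>
      rh p η ^ 2 * Real.exp (rh p η * x) * RR p τ x + (Real.pi / p * ell p τ) *
        (rh p η ^ 2 * Real.exp (rh p η * x) * Real.exp (-(p * |x|))) := by
    funext x
    rw [RR_eq (by omega) τ x hτ]
    ring
  have hI : Integrable (fun x : ℝ => rh p η ^ 2 * Real.exp (rh p η * x) * QQ p τ x 0) := by
    rw [e]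
    exact hR.add (hZi.const_mul _)
  refine ⟨hI, ?_⟩
  have e2 : II (rh p η) (fun x => QQ p τ x 0) =
      II (rh p η) (RR p τ) + (Real.pi / p * ell p τ) * Z0 p η := by
    rw [← hZ]
    unfold II
    rw [e, integral_add hR (hZi.const_mul _), integral_const_mul]
  rw [← W_eq hp h0 h1 hτ, e2]
  field_simp
  ring

theorem W_le {p : ℕ} (hp : 2 ≤ p) : ∃ c : ℝ, 0 < c ∧ ∀ η : ℝ, 0 < η → η ≤ 1 / 4 → ∀ τ : ℤ → ℝ,
    (∀ j ∈ JJ p, |τ j| ≤ Real.pi / (8 * p)) →
      WW p η τ ≤ 2 * p / Real.sin (Real.pi * η) -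
        c / η * ∑ j ∈ JJ p, (τ j - tL p η j) ^ 2 := by
  have hp2 : (2 : ℝ) ≤ p := by exact_mod_cast hp
  have hp' : (0 : ℝ) < p := by linarith
  have hpi := Real.pi_pos
  refine ⟨2 / Real.pi ^ 3, by positivity, fun η h0 h1 τ hτ => ?_⟩
  have hs := pb15_sin h0 h1
  have hs1 : Real.sin (Real.pi * η) ≤ Real.pi * η := Real.sin_le (by positivity)
  have hρ : 1 ≤ rh p η := by
    show 1 ≤ (p : ℝ) - η
    linarith
  have key : ∀ j ∈ JJ p, (Real.sin (Real.pi * η))⁻¹ * Real.cos (rh p η * (τ j - tL p η j)) ≤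
      (Real.sin (Real.pi * η))⁻¹ - 2 / Real.pi ^ 3 / η * (τ j - tL p η j) ^ 2 := by
    intro j hj
    have hL : rh p η * tL p η j = η * th p j := by
      unfold tL
      field_simp
    have h2 : |rh p η * (τ j - tL p η j)| ≤ Real.pi := by
      have h3 : |rh p η * τ j| ≤ Real.pi / 8 := by
        rw [abs_mul, abs_of_pos (by linarith : 0 < rh p η)]
        calc rh p η * |τ j| ≤ p * (Real.pi / (8 * p)) := by
              apply mul_le_mul _ (hτ j hj) (abs_nonneg _) hp'.le
              show (p : ℝ) - η ≤ p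
              linarith
          _ = _ := by field_simp
      have h4 : |η * th p j| ≤ Real.pi / 4 := by
        have h5 := pb15_lt (by omega) hj (t := 0) (by simp; positivity)
        rw [add_zero] at h5
        rw [abs_mul, abs_of_pos h0]
        calc η * |th p j| ≤ 1 / 4 * Real.pi := by
              apply mul_le_mul h1 h5.le (abs_nonneg _) (by norm_num)
          _ = _ := by ring
      rw [mul_sub, hL]
      calc |rh p η * τ j - η * th p j| ≤ |rh p η * τ j| + |η * th p j| := abs_sub _ _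
        _ ≤ Real.pi := by linarith
    have h6 := Real.cos_le_one_sub_mul_cos_sq h2
    have h7 : Real.cos (rh p η * (τ j - tL p η j)) ≤
        1 - 2 / Real.pi ^ 2 * (τ j - tL p η j) ^ 2 := by
      refine h6.trans ?_
      have : (τ j - tL p η j) ^ 2 ≤ (rh p η * (τ j - tL p η j)) ^ 2 := by
        rw [mul_pow]
        have : 1 ≤ rh p η ^ 2 := by nlinarith
        nlinarith [sq_nonneg (τ j - tL p η j)]
      have h8 : 0 ≤ 2 / Real.pi ^ 2 := by positivity
      nlinarith
    have h9 : 1 / (Real.pi * η) ≤ (Real.sin (Real.pi * η))⁻¹ := by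
      rw [one_div]
      exact inv_anti₀ hs hs1
    calc (Real.sin (Real.pi * η))⁻¹ * Real.cos (rh p η * (τ j - tL p η j))
        ≤ (Real.sin (Real.pi * η))⁻¹ * (1 - 2 / Real.pi ^ 2 * (τ j - tL p η j) ^ 2) := by
          apply mul_le_mul_of_nonneg_left h7
          positivity
      _ = (Real.sin (Real.pi * η))⁻¹ -
          (Real.sin (Real.pi * η))⁻¹ * (2 / Real.pi ^ 2 * (τ j - tL p η j) ^ 2) := by ring
      _ ≤ (Real.sin (Real.pi * η))⁻¹ -
          1 / (Real.pi * η) * (2 / Real.pi ^ 2 * (τ j - tL p η j) ^ 2) := by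
          have : 0 ≤ 2 / Real.pi ^ 2 * (τ j - tL p η j) ^ 2 := by positivity
          nlinarith
      _ = _ := by
          field_simp
  unfold WW
  rw [Finset.mul_sum]
  refine (Finset.sum_le_sum key).trans ?_
  rw [Finset.sum_sub_distrib, Finset.sum_const, card_JJ, ← Finset.mul_sum, nsmul_eq_mul]
  push_cast
  rw [div_eq_mul_inv (2 * (p : ℝ))]

end Pool.Agent.PfB
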