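import Pool.Agent.PfB.Ker

/-! MP_f2c8f8_an, project PfB, row PB-2 -/

set_option autoImplicit false

open MeasureTheory Filter
open scoped ComplexConjugate Topology

noncomputable section

namespace Pool.Agent.PfB

theorem pb2_low {c : ℝ} (hc : 0 < c) : ∃ c' : ℝ, 0 < c' ∧ ∀ x b : ℝ,
    (1 ≤ |x| ∨ c ≤ |Real.cos (b / 2)|) → c' * (1 + Real.exp (-x)) ≤ ‖1 - wz x b‖ := by
  refine ⟨min c (1 / 4), lt_min hc (by norm_num), fun x b h => ?_⟩
  have hr : 0 < Real.exp (-x) := Real.exp_pos _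
  rcases h with h | h
  · have h1 : 1 / 4 * (1 + Real.exp (-x)) ≤ |1 - Real.exp (-x)| := by
      rcases le_abs.mp h with h2 | h2
      · have h3 : Real.exp (-x) ≤ Real.exp (-1) := Real.exp_le_exp.mpr (by linarith)
        have h4 := Real.exp_neg_one_lt_d9
        rw [abs_of_pos (by linarith)]
        linarith
      · have h3 : Real.exp 1 ≤ Real.exp (-x) := Real.exp_le_exp.mpr h2
        have h4 := Real.exp_one_gt_d9
        rw [abs_of_neg (by linarith)]
        linarith
    refine le_trans ?_ (h1.trans (norm_one_sub_wz_ge' x b))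
    exact mul_le_mul_of_nonneg_right (min_le_right _ _) (by linarith)
  · refine le_trans ?_ (norm_one_sub_wz_ge x b)
    rw [mul_comm]
    exact mul_le_mul_of_nonneg_left ((min_le_left _ _).trans h) (by linarith)

theorem pb2_exp (n : ℕ) (x : ℝ) : Real.exp (-((n : ℝ) * x)) = Real.exp (-x) ^ n := by
  rw [← Real.exp_nat_mul]
  congr 1
  ring

theorem pb2_exp' {n : ℕ} (hn : 1 ≤ n) (x : ℝ) :
    Real.exp (-(((n : ℝ) - 1) * x)) = Real.exp (-x) ^ (n - 1) := by
  rw [← pb2_exp, Nat.cast_sub hn, Nat.cast_one]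

theorem pb2_vv {p : ℕ} (hp : 1 ≤ p) (x : ℝ) :
    vv p x = min (Real.exp (-x) ^ p) (Real.exp (-x) ^ (p - 1)) := by
  rw [vv, pb2_exp, pb2_exp' hp]

theorem pb2_FA {p : ℕ} (hp : 1 ≤ p) {c : ℝ} (hc : 0 < c) {x b : ℝ}
    (h : c * (1 + Real.exp (-x)) ≤ ‖1 - wz x b‖) : ‖FA p x b‖ ≤ c⁻¹ * vv p x := by
  have hr : 0 < Real.exp (-x) := Real.exp_pos _
  obtain ⟨q, rfl⟩ := Nat.exists_eq_add_of_le' hp
  rw [pb2_vv hp, Nat.add_sub_cancel, FA, norm_div, norm_pow, norm_wz]
  set r := Real.exp (-x) with hrdef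
  have hpos : 0 < c * (1 + r) := by positivity
  have h1 : r ^ (q + 1) / ‖1 - wz x b‖ ≤ r ^ (q + 1) / (c * (1 + r)) :=
    div_le_div_of_nonneg_left (by positivity) hpos h
  refine h1.trans ?_
  rw [mul_min_of_nonneg _ _ (inv_nonneg.mpr hc.le)]
  refine le_min ?_ ?_
  · rw [div_le_iff₀ hpos]
    have : c⁻¹ * r ^ (q + 1) * (c * (1 + r)) = r ^ (q + 1) * (1 + r) := by
      field_simp
    rw [this]
    have := pow_pos hr (q + 1)
    nlinarith
  · rw [div_le_iff₀ hpos]
    have : c⁻¹ * r ^ q * (c * (1 + r)) = r ^ q * (1 + r) := by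
      field_simp
    rw [this, pow_succ]
    have := pow_pos hr q
    nlinarith

theorem pb2_FB {p : ℕ} (hp : 1 ≤ p) {c : ℝ} (hc : 0 < c) {x b : ℝ}
    (h : c * (1 + Real.exp (-x)) ≤ ‖1 - wz x b‖) :
    ‖FB p x b‖ ≤ (p * c⁻¹ + c⁻¹ ^ 2) * vv p x := by
  have hr : 0 < Real.exp (-x) := Real.exp_pos _
  have hFA := pb2_FA hp hc h
  have hpos : 0 < c * (1 + Real.exp (-x)) := by positivity
  have hn : 0 < ‖1 - wz x b‖ := lt_of_lt_of_le hpos h
  have hne : (1 : ℂ) - wz x b ≠ 0 := norm_pos_iff.mp hn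
  have hsplit : FB p x b = (p : ℂ) * FA p x b + wz x b ^ (p + 1) / (1 - wz x b) ^ 2 := by
    rw [FB, FA]
    field_simp
  rw [hsplit, add_mul]
  refine (norm_add_le _ _).trans (add_le_add ?_ ?_)
  · rw [norm_mul, Complex.norm_natCast, mul_assoc]
    exact mul_le_mul_of_nonneg_left hFA (Nat.cast_nonneg p)
  · obtain ⟨q, rfl⟩ := Nat.exists_eq_add_of_le' hp
    rw [pb2_vv hp, Nat.add_sub_cancel, norm_div, norm_pow, norm_pow, norm_wz]
    set r := Real.exp (-x) with hrdef
    have h1 : r ^ (q + 1 + 1) / ‖1 - wz x b‖ ^ 2 ≤ r ^ (q + 1 + 1) / (c * (1 + r)) ^ 2 := by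
      refine div_le_div_of_nonneg_left (by positivity) (by positivity) ?_
      exact pow_le_pow_left₀ hpos.le h 2
    refine h1.trans ?_
    rw [mul_min_of_nonneg _ _ (by positivity : (0 : ℝ) ≤ c⁻¹ ^ 2)]
    refine le_min ?_ ?_
    · rw [div_le_iff₀ (by positivity)]
      have : c⁻¹ ^ 2 * r ^ (q + 1) * (c * (1 + r)) ^ 2 = r ^ (q + 1) * (1 + r) ^ 2 := by
        field_simp
      rw [this, pow_succ r (q + 1)]
      have := pow_pos hr (q + 1)
      nlinarith [mul_pos this hr, mul_pos (mul_pos this hr) hr]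
    · rw [div_le_iff₀ (by positivity)]
      have : c⁻¹ ^ 2 * r ^ q * (c * (1 + r)) ^ 2 = r ^ q * (1 + r) ^ 2 := by
        field_simp
      rw [this, pow_succ r (q + 1), pow_succ r q]
      have := pow_pos hr q
      nlinarith [mul_pos this hr, mul_pos (mul_pos this hr) hr]

theorem pb2_decay {F F' : ℝ → ℝ} {M x : ℝ} {p : ℕ} (hp : 1 ≤ p) (hM : 0 ≤ M)
    (hF : ∀ t, x ≤ t → HasDerivAt F (F' t) t)
    (hb : ∀ t, x ≤ t → |F' t| ≤ M * Real.exp (-(p * t))) (hlim : Tendsto F atTop (𝓝 0)) :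
    |F x| ≤ M * Real.exp (-(p * x)) := by
  have hp1 : (1 : ℝ) ≤ p := by exact_mod_cast hp
  have hE : ∀ t : ℝ, HasDerivAt (fun t : ℝ => M * Real.exp (-(p * t)))
      (M * (Real.exp (-(p * t)) * (-(p * 1)))) t := by
    intro t
    exact ((((hasDerivAt_id t).const_mul (p : ℝ)).neg).exp).const_mul M
  have hElim : Tendsto (fun t : ℝ => M * Real.exp (-(p * t))) atTop (𝓝 0) := by
    have h1 : Tendsto (fun t : ℝ => Real.exp (-(p * t))) atTop (𝓝 0) := by
      refine Real.tendsto_exp_neg_atTop_nhds_zero.comp ?_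
      exact Tendsto.const_mul_atTop (by linarith) tendsto_id
    simpa using h1.const_mul M
  have key : ∀ G G' : ℝ → ℝ, (∀ t, x ≤ t → HasDerivAt G (G' t) t) →
      (∀ t, x ≤ t → |G' t| ≤ M * Real.exp (-(p * t))) → Tendsto G atTop (𝓝 0) →
      G x ≤ M * Real.exp (-(p * x)) := by
    intro G G' hG hG' hGl
    have hanti : AntitoneOn (fun t => M * Real.exp (-(p * t)) - G t) (Set.Ici x) := by
      refine antitoneOn_of_hasDerivWithinAt_nonpos (convex_Ici x)
        (f' := fun t => M * (Real.exp (-(p * t)) * (-(p * 1))) - G' t) ?_ ?_ ?_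
      · intro t ht
        exact ((hE t).sub (hG t ht)).continuousAt.continuousWithinAt
      · intro t ht
        have ht' : x ≤ t := interior_subset ht
        exact ((hE t).sub (hG t ht')).hasDerivWithinAt
      · intro t ht
        have ht' : x ≤ t := interior_subset ht
        have h1 := neg_abs_le (G' t)
        have h2 := hG' t ht'
        have h3 : 0 < Real.exp (-(p * t)) := Real.exp_pos _
        have h4 : M * Real.exp (-(p * t)) ≤ p * (M * Real.exp (-(p * t))) :=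
          le_mul_of_one_le_left (by positivity) hp1
        nlinarith
    have hl : Tendsto (fun t => M * Real.exp (-(p * t)) - G t) atTop (𝓝 0) := by
      simpa using hElim.sub hGl
    have h0 : 0 ≤ M * Real.exp (-(p * x)) - G x := by
      refine le_of_tendsto hl ?_
      filter_upwards [eventually_ge_atTop x] with t ht
      exact hanti Set.self_mem_Ici ht ht
    linarith
  rw [abs_le]
  constructor
  · have h2 := key (fun t => -F t) (fun t => -F' t) (fun t ht => (hF t ht).neg)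
      (fun t ht => by rw [abs_neg]; exact hb t ht) (by simpa using hlim.neg)
    linarith
  · exact key F F' hF hb hlim

theorem pb2_lim (p : ℕ) (b : ℝ) : Tendsto (fun x => KK p x b) atTop (𝓝 0) := by
  have h1 : Tendsto (fun x : ℝ => Complex.exp (-(x : ℂ) + (b : ℂ) * Complex.I)) atTop (𝓝 0) := by
    rw [tendsto_zero_iff_norm_tendsto_zero]
    have : (fun x : ℝ => ‖Complex.exp (-(x : ℂ) + (b : ℂ) * Complex.I)‖) =
        fun x => Real.exp (-x) := by
      funext x
      rw [Complex.norm_exp]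
      simp
    rw [this]
    exact Real.tendsto_exp_neg_atTop_nhds_zero
  have h2 : Tendsto (fun x : ℝ =>
      Real.log ‖(1 : ℂ) + Complex.exp (-(x : ℂ) + (b : ℂ) * Complex.I)‖) atTop (𝓝 0) := by
    have h3 : Tendsto (fun x : ℝ => ‖(1 : ℂ) + Complex.exp (-(x : ℂ) + (b : ℂ) * Complex.I)‖)
        atTop (𝓝 1) := by
      have := (h1.const_add (1 : ℂ)).norm
      simpa using this
    have h4 := h3.log one_ne_zero
    rwa [Real.log_one] at h4
  have h5 : Tendsto (fun x : ℝ => ∑ j ∈ Finset.Icc 1 (p - 1),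
      (-1 : ℝ) ^ j * Real.exp (-(j * x)) * Real.cos (j * b) / j) atTop (𝓝 0) := by
    have h6 : ∀ j ∈ Finset.Icc 1 (p - 1), Tendsto (fun x : ℝ =>
        (-1 : ℝ) ^ j * Real.exp (-(j * x)) * Real.cos (j * b) / j) atTop (𝓝 0) := by
      intro j hj
      rw [Finset.mem_Icc] at hj
      have hj0 : (0 : ℝ) < j := by exact_mod_cast hj.1
      have h7 : Tendsto (fun t : ℝ => Real.exp (-(j * t))) atTop (𝓝 0) := by
        refine Real.tendsto_exp_neg_atTop_nhds_zero.comp ?_
        exact Tendsto.const_mul_atTop hj0 tendsto_id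
      have h8 := ((h7.const_mul ((-1 : ℝ) ^ j)).mul_const (Real.cos (j * b))).div_const (j : ℝ)
      simpa using h8
    have := tendsto_finsetSum _ h6
    simpa using this
  have h9 := h2.add h5
  rw [add_zero] at h9
  exact h9

theorem pb2_KK_pos {p : ℕ} (hp : 1 ≤ p) {c : ℝ} (hc : 0 < c) {x b : ℝ} (hx : 0 ≤ x)
    (h : ∀ t, x ≤ t → c * (1 + Real.exp (-t)) ≤ ‖1 - wz t b‖) :
    |KK p x b| ≤ c⁻¹ * Real.exp (-(p * x)) := by
  refine pb2_decay (F := fun x => KK p x b) (F' := fun t => (FA p t b).re) hp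
    (inv_nonneg.mpr hc.le) ?_ ?_ (pb2_lim p b)
  · intro t ht
    refine KK_x hp ?_
    intro h1
    have h2 := h t ht
    rw [h1, sub_self, norm_zero] at h2
    have : 0 < c * (1 + Real.exp (-t)) := by positivity
    linarith
  · intro t ht
    refine (Complex.abs_re_le_norm _).trans ((pb2_FA hp hc (h t ht)).trans ?_)
    exact mul_le_mul_of_nonneg_left (min_le_left _ _) (inv_nonneg.mpr hc.le)

theorem pb2_vv_pos {p : ℕ} {x : ℝ} (hx : 0 ≤ x) : vv p x = Real.exp (-(p * x)) := by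
  rw [vv, min_eq_left]
  rw [Real.exp_le_exp]
  nlinarith

theorem pb2_vv_neg {p : ℕ} {x : ℝ} (hx : x ≤ 0) : vv p x = Real.exp (-(((p : ℝ) - 1) * x)) := by
  rw [vv, min_eq_right]
  rw [Real.exp_le_exp]
  nlinarith

theorem pb2_ww_pos {p : ℕ} {x : ℝ} (hx : 0 ≤ x) :
    ww p x = Real.exp (-(((p : ℝ) + 1) * x)) := by
  rw [ww, min_eq_left]
  rw [Real.exp_le_exp]
  nlinarith

theorem pb2_ww_neg {p : ℕ} {x : ℝ} (hx : x ≤ 0) : ww p x = Real.exp (-(((p : ℝ) - 1) * x)) := by
  rw [ww, min_eq_right]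
  rw [Real.exp_le_exp]
  nlinarith

theorem pb2_KK {p : ℕ} (hp : 2 ≤ p) {c : ℝ} (hc : 0 < c) : ∃ C : ℝ, 0 < C ∧ ∀ x b : ℝ,
    (1 ≤ |x| ∨ c ≤ |Real.cos (b / 2)|) → |KK p x b| ≤ C * vv p x := by
  obtain ⟨c', hc', hlow⟩ := pb2_low hc
  have hp1 : 1 ≤ p := by omega
  have hp2 : (2 : ℝ) ≤ p := by exact_mod_cast hp
  have hpos : ∀ x b : ℝ, 0 ≤ x → (1 ≤ |x| ∨ c ≤ |Real.cos (b / 2)|) →
      |KK p x b| ≤ c'⁻¹ * Real.exp (-(p * x)) := by
    intro x b hx h
    refine pb2_KK_pos hp1 hc' hx ?_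
    intro t ht
    refine hlow t b ?_
    rcases h with h | h
    · left
      rw [abs_of_nonneg hx] at h
      rw [abs_of_nonneg (hx.trans ht)]
      linarith
    · exact Or.inr h
  refine ⟨c'⁻¹ + 1 + p, by positivity, fun x b h => ?_⟩
  rcases le_total 0 x with hx | hx
  · rw [pb2_vv_pos hx]
    refine (hpos x b hx h).trans ?_
    have := Real.exp_pos (-(p * x))
    nlinarith
  · rw [pb2_vv_neg hx]
    obtain ⟨y, rfl⟩ : ∃ y, x = -y := ⟨-x, by ring⟩
    have hy : 0 ≤ y := by linarith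
    rw [abs_neg] at h
    have h1 := hpos y b hy h
    have hE : Real.exp (-(((p : ℝ) - 1) * -y)) = Real.exp (((p : ℝ) - 1) * y) := by
      congr 1
      ring
    rw [hE]
    set E := Real.exp (((p : ℝ) - 1) * y) with hEdef
    have hE1 : 1 ≤ E := by
      rw [hEdef]
      refine Real.one_le_exp ?_
      nlinarith
    have hEy : y ≤ E := by
      have h2 : y + 1 ≤ Real.exp y := Real.add_one_le_exp y
      have h3 : Real.exp y ≤ E := by
        rw [hEdef, Real.exp_le_exp]
        nlinarith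
      linarith
    have h4 : Real.exp (-(p * y)) ≤ E := by
      refine le_trans ?_ hE1
      rw [Real.exp_le_one_iff]
      nlinarith
    have h5 : |∑ j ∈ Finset.Icc 1 (p - 1), (-1 : ℝ) ^ j * (2 * Real.sinh (j * y) / j) *
        Real.cos (j * b)| ≤ p * E := by
      refine (Finset.abs_sum_le_sum_abs _ _).trans ?_
      have h6 : ∀ j ∈ Finset.Icc 1 (p - 1), |(-1 : ℝ) ^ j * (2 * Real.sinh (j * y) / j) *
          Real.cos (j * b)| ≤ E := by
        intro j hj
        rw [Finset.mem_Icc] at hj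
        have hj1 : (1 : ℝ) ≤ j := by exact_mod_cast hj.1
        have hjp : (j : ℝ) ≤ p - 1 := by
          have : j + 1 ≤ p := by omega
          have : ((j + 1 : ℕ) : ℝ) ≤ p := by exact_mod_cast this
          push_cast at this
          linarith
        have hs0 : 0 ≤ Real.sinh (j * y) := Real.sinh_nonneg_iff.mpr (by positivity)
        have hs : 2 * Real.sinh (j * y) ≤ E := by
          rw [Real.sinh_eq]
          have h7 : Real.exp (j * y) ≤ E := by
            rw [hEdef, Real.exp_le_exp]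
            nlinarith
          have h8 := Real.exp_pos (-(j * y))
          linarith
        rw [abs_mul, abs_mul, abs_pow, abs_neg, abs_one, one_pow, one_mul]
        have h9 : |2 * Real.sinh (j * y) / j| ≤ E := by
          rw [abs_of_nonneg (by positivity)]
          rw [div_le_iff₀ (by linarith)]
          nlinarith
        calc |2 * Real.sinh (j * y) / j| * |Real.cos (j * b)| ≤ E * 1 :=
              mul_le_mul h9 (Real.abs_cos_le_one _) (abs_nonneg _) (by linarith)
          _ = E := mul_one E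
      refine (Finset.sum_le_sum h6).trans ?_
      rw [Finset.sum_const, nsmul_eq_mul, Nat.card_Icc]
      refine mul_le_mul_of_nonneg_right ?_ (by linarith)
      have : p - 1 + 1 - 1 ≤ p := by omega
      exact_mod_cast this
    rw [KK_refl]
    refine (abs_add_le _ _).trans ((add_le_add_left (abs_add_le _ _) _).trans ?_)
    rw [abs_of_nonneg hy]
    have hci : 0 < c'⁻¹ := inv_pos.mpr hc'
    have h10 : c'⁻¹ * Real.exp (-(p * y)) ≤ c'⁻¹ * E := mul_le_mul_of_nonneg_left h4 hci.le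
    linarith

theorem pb2_KP_eq {p : ℕ} (hp : 1 ≤ p) {x : ℝ} (hx : 0 ≤ x) (b : ℝ) :
    KP p x b = KK (p + 1) x b := by
  rw [KP, KK, KK, Nat.add_sub_cancel, abs_of_nonneg hx]
  obtain ⟨q, rfl⟩ := Nat.exists_eq_add_of_le' hp
  rw [Finset.sum_Icc_succ_top (by omega : 1 ≤ q + 1), Nat.add_sub_cancel, sg]
  ring

theorem pb2_ne {c x b : ℝ} (hc : 0 < c) (h : 1 ≤ |x| ∨ c ≤ |Real.cos (b / 2)|) :
    wz x b ≠ 1 := by
  refine wz_ne_one ?_
  rcases h with h | h
  · left
    rintro rfl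
    rw [abs_zero] at h
    linarith
  · right
    intro h0
    rw [h0, abs_zero] at h
    linarith

theorem pb2_der {p : ℕ} (hp : 2 ≤ p) {c : ℝ} (hc : 0 < c) : ∃ C : ℝ, 0 < C ∧ ∀ x : ℝ,
    ∃ D1 D2 : ℝ → ℝ, ∀ b, (1 ≤ |x| ∨ c ≤ |Real.cos (b / 2)|) →
      HasDerivAt (KP p x) (D1 b) b ∧ HasDerivAt D1 (D2 b) b ∧ |D1 b| ≤ C * ww p x ∧
        |D2 b| ≤ C * ww p x := by
  obtain ⟨c', hc', hlow⟩ := pb2_low hc
  have hp1 : 1 ≤ p := by omega
  have hci : 0 < c'⁻¹ := inv_pos.mpr hc'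
  have hp2 : (2 : ℝ) ≤ p := by exact_mod_cast hp
  set C : ℝ := (p + 1 : ℕ) * c'⁻¹ + c'⁻¹ ^ 2 + p with hC
  have hCA : c'⁻¹ + 1 ≤ C := by
    rw [hC]
    push_cast
    nlinarith [sq_nonneg (c'⁻¹)]
  have hCB : (p : ℝ) * c'⁻¹ + c'⁻¹ ^ 2 + p ≤ C := by
    rw [hC]
    push_cast
    nlinarith
  refine ⟨C, by rw [hC]; positivity, fun x => ?_⟩
  rcases le_or_gt 0 x with hx | hx
  · refine ⟨fun b => (FA (p + 1) x b).im, fun b => (FB (p + 1) x b).re, fun b h => ?_⟩
    have hne := pb2_ne hc h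
    have hw : vv (p + 1) x = ww p x := by
      rw [pb2_vv_pos hx, pb2_ww_pos hx]
      push_cast
      rfl
    have hw0 : 0 < ww p x := by
      rw [pb2_ww_pos hx]
      exact Real.exp_pos _
    refine ⟨?_, FA_b (by omega) hne, ?_, ?_⟩
    · have h1 := KK_b (p := p + 1) (by omega) hne
      have h2 : KP p x = fun b => KK (p + 1) x b := by
        funext b
        exact pb2_KP_eq hp1 hx b
      rw [h2]
      exact h1
    · refine (Complex.abs_im_le_norm _).trans ((pb2_FA (by omega) hc' (hlow x b h)).trans ?_)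
      rw [hw]
      exact mul_le_mul_of_nonneg_right (by linarith) hw0.le
    · refine (Complex.abs_re_le_norm _).trans ((pb2_FB (by omega) hc' (hlow x b h)).trans ?_)
      rw [hw]
      exact mul_le_mul_of_nonneg_right (by rw [hC]; linarith) hw0.le
  · refine ⟨fun b => (FA p x b).im + sg p * Real.exp (-(p * |x|)) * Real.sin (p * b),
      fun b => (FB p x b).re + sg p * Real.exp (-(p * |x|)) * (Real.cos (p * b) * p),
      fun b h => ?_⟩
    have hne := pb2_ne hc h
    have hw : vv p x = ww p x := by rw [pb2_vv_neg hx.le, pb2_ww_neg hx.le]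
    have hw1 : 1 ≤ ww p x := by
      rw [pb2_ww_neg hx.le]
      refine Real.one_le_exp ?_
      nlinarith
    have hsg : |sg p| = 1 := by rw [sg, abs_pow, abs_neg, abs_one, one_pow]
    have he : Real.exp (-(p * |x|)) ≤ 1 := by
      rw [Real.exp_le_one_iff]
      have := abs_nonneg x
      nlinarith
    have he0 := Real.exp_pos (-(p * |x|))
    refine ⟨?_, ?_, ?_, ?_⟩
    · have h1 := KK_b hp1 hne
      have h2 : HasDerivAt (fun b : ℝ => sg p / p * Real.exp (-(p * |x|)) * Real.cos (p * b))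
          (sg p / p * Real.exp (-(p * |x|)) * (-Real.sin (p * b) * (p * 1))) b := by
        exact (((hasDerivAt_id b).const_mul (p : ℝ)).cos).const_mul _
      have h3 := h1.sub h2
      refine h3.congr_deriv ?_
      field_simp
      ring
    · have h1 := FA_b hp1 hne
      have h2 : HasDerivAt (fun b : ℝ => sg p * Real.exp (-(p * |x|)) * Real.sin (p * b))
          (sg p * Real.exp (-(p * |x|)) * (Real.cos (p * b) * (p * 1))) b := by
        exact (((hasDerivAt_id b).const_mul (p : ℝ)).sin).const_mul _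
      have h3 := h1.add h2
      refine h3.congr_deriv ?_
      ring
    · refine (abs_add_le _ _).trans ?_
      have h1 := (Complex.abs_im_le_norm _).trans (pb2_FA hp1 hc' (hlow x b h))
      rw [hw] at h1
      have h2 : |sg p * Real.exp (-(p * |x|)) * Real.sin (p * b)| ≤ 1 := by
        rw [abs_mul, abs_mul, hsg, one_mul, abs_of_pos he0]
        exact mul_le_one₀ he (abs_nonneg _) (Real.abs_sin_le_one _)
      have h3 : (c'⁻¹ + 1) * ww p x ≤ C * ww p x :=
        mul_le_mul_of_nonneg_right hCA (by linarith)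
      linarith
    · refine (abs_add_le _ _).trans ?_
      have h1 := (Complex.abs_re_le_norm _).trans (pb2_FB hp1 hc' (hlow x b h))
      rw [hw] at h1
      have h2 : |sg p * Real.exp (-(p * |x|)) * (Real.cos (p * b) * p)| ≤ p := by
        rw [abs_mul, abs_mul, abs_mul, hsg, one_mul, abs_of_pos he0, Nat.abs_cast]
        have h4 : Real.exp (-(p * |x|)) * |Real.cos (p * b)| ≤ 1 :=
          mul_le_one₀ he (abs_nonneg _) (Real.abs_cos_le_one _)
        nlinarith
      have h3 : ((p : ℝ) * c'⁻¹ + c'⁻¹ ^ 2 + p) * ww p x ≤ C * ww p x :=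
        mul_le_mul_of_nonneg_right hCB (by linarith)
      have h5 : (p : ℝ) ≤ p * ww p x := le_mul_of_one_le_right (by linarith) hw1
      linarith

theorem pb2_ww_nonneg (p : ℕ) (x : ℝ) : 0 ≤ ww p x :=
  le_min (Real.exp_pos _).le (Real.exp_pos _).le

theorem KP_bd {p : ℕ} (hp : 2 ≤ p) {c : ℝ} (hc : 0 < c) : ∃ C : ℝ, 0 < C ∧ ∀ x b : ℝ,
    (1 ≤ |x| ∨ c ≤ |Real.cos (b / 2)|) → |KP p x b| ≤ C * ww p x := by
  obtain ⟨C1, hC1, h1⟩ := pb2_KK hp hc
  obtain ⟨C2, hC2, h2⟩ := pb2_KK (p := p + 1) (by omega) hc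
  have hp2 : (2 : ℝ) ≤ p := by exact_mod_cast hp
  refine ⟨C1 + C2 + 1, by positivity, fun x b h => ?_⟩
  rcases le_total 0 x with hx | hx
  · have h3 := h2 x b h
    have hw : vv (p + 1) x = ww p x := by
      rw [pb2_vv_pos hx, pb2_ww_pos hx]
      push_cast
      rfl
    rw [pb2_KP_eq (by omega) hx]
    rw [hw] at h3
    have := pb2_ww_nonneg p x
    nlinarith
  · have h3 := h1 x b h
    have hw : vv p x = ww p x := by rw [pb2_vv_neg hx, pb2_ww_neg hx]
    have hw1 : 1 ≤ ww p x := by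
      rw [pb2_ww_neg hx]
      refine Real.one_le_exp ?_
      nlinarith
    rw [hw] at h3
    have hsg : |sg p| = 1 := by rw [sg, abs_pow, abs_neg, abs_one, one_pow]
    have he : Real.exp (-(p * |x|)) ≤ 1 := by
      rw [Real.exp_le_one_iff]
      have := abs_nonneg x
      nlinarith
    have he0 := Real.exp_pos (-(p * |x|))
    have h4 : |sg p / p * Real.exp (-(p * |x|)) * Real.cos (p * b)| ≤ 1 := by
      rw [abs_mul, abs_mul, abs_div, hsg, abs_of_pos he0, Nat.abs_cast]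
      have h5 : (1 : ℝ) / p ≤ 1 := by
        rw [div_le_one (by linarith)]
        linarith
      have h6 : 1 / (p : ℝ) * Real.exp (-(p * |x|)) ≤ 1 := mul_le_one₀ h5 he0.le he
      exact mul_le_one₀ h6 (abs_nonneg _) (Real.abs_cos_le_one _)
    rw [KP]
    refine (abs_sub _ _).trans ?_
    nlinarith

theorem KP_lip {p : ℕ} (hp : 2 ≤ p) {c : ℝ} (hc : 0 < c) : ∃ C : ℝ, 0 < C ∧ ∀ x b b' : ℝ,
    (1 ≤ |x| ∨ ∀ s ∈ Set.uIcc b b', c ≤ |Real.cos (s / 2)|) →
      |KP p x b - KP p x b'| ≤ C * ww p x * |b - b'| := by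
  obtain ⟨C, hC, h⟩ := pb2_der hp hc
  refine ⟨C, hC, fun x b b' hx => ?_⟩
  obtain ⟨D1, D2, hD⟩ := h x
  have hreg : ∀ s ∈ Set.uIcc b b', (1 ≤ |x| ∨ c ≤ |Real.cos (s / 2)|) := by
    intro s hs
    rcases hx with hx | hx
    · exact Or.inl hx
    · exact Or.inr (hx s hs)
  have := (convex_uIcc b b').norm_image_sub_le_of_norm_hasDerivWithin_le
    (f := KP p x) (f' := D1) (C := C * ww p x)
    (fun s hs => (hD s (hreg s hs)).1.hasDerivWithinAt)
    (fun s hs => by
      rw [Real.norm_eq_abs]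
      exact (hD s (hreg s hs)).2.2.1) Set.right_mem_uIcc Set.left_mem_uIcc
  rwa [Real.norm_eq_abs, Real.norm_eq_abs] at this

theorem KP_sec {p : ℕ} (hp : 2 ≤ p) {c : ℝ} (hc : 0 < c) : ∃ C : ℝ, 0 < C ∧ ∀ x b h : ℝ,
    (1 ≤ |x| ∨ ∀ s : ℝ, |s - b| ≤ |h| → c ≤ |Real.cos (s / 2)|) →
      |KP p x (b + h) + KP p x (b - h) - 2 * KP p x b| ≤ C * ww p x * h ^ 2 := by
  obtain ⟨C, hC, hder⟩ := pb2_der hp hc
  refine ⟨2 * C, by positivity, fun x b h hx => ?_⟩
  obtain ⟨D1, D2, hD⟩ := hder x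
  have hreg : ∀ s, |s - b| ≤ |h| → (1 ≤ |x| ∨ c ≤ |Real.cos (s / 2)|) := by
    intro s hs
    rcases hx with hx | hx
    · exact Or.inl hx
    · exact Or.inr (hx s hs)
  have hw := pb2_ww_nonneg p x
  -- first derivative is Lipschitz
  have hlip : ∀ t, |t| ≤ |h| → |D1 (b + t) - D1 (b - t)| ≤ C * ww p x * |2 * t| := by
    intro t ht
    have hmem : ∀ s ∈ Set.uIcc (b - t) (b + t), |s - b| ≤ |h| := by
      intro s hs
      rw [Set.mem_uIcc] at hs
      rw [abs_le]
      have h1 := abs_le.mp ht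
      rcases hs with hs | hs
      · constructor <;> linarith [le_abs_self t, neg_abs_le t, hs.1, hs.2]
      · constructor <;> linarith [le_abs_self t, neg_abs_le t, hs.1, hs.2]
    have := (convex_uIcc (b - t) (b + t)).norm_image_sub_le_of_norm_hasDerivWithin_le
      (f := D1) (f' := D2) (C := C * ww p x)
      (fun s hs => (hD s (hreg s (hmem s hs))).2.1.hasDerivWithinAt)
      (fun s hs => by
        rw [Real.norm_eq_abs]
        exact (hD s (hreg s (hmem s hs))).2.2.2) Set.left_mem_uIcc Set.right_mem_uIcc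
    rw [Real.norm_eq_abs, Real.norm_eq_abs] at this
    have h2 : b + t - (b - t) = 2 * t := by ring
    rwa [h2] at this
  have hfin := (convex_uIcc (0 : ℝ) h).norm_image_sub_le_of_norm_hasDerivWithin_le
    (f := fun t => KP p x (b + t) + KP p x (b - t) - 2 * KP p x b)
    (f' := fun t => D1 (b + t) - D1 (b - t)) (C := C * ww p x * (2 * |h|)) (x := 0) (y := h)
    ?_ ?_ Set.left_mem_uIcc Set.right_mem_uIcc
  · simp only [add_zero, sub_zero, Real.norm_eq_abs] at hfin
    have h3 : KP p x b + KP p x b - 2 * KP p x b = 0 := by ring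
    rw [h3, sub_zero] at hfin
    refine hfin.trans (le_of_eq ?_)
    rw [← sq_abs h]
    ring
  · intro t ht
    have ht' : |t| ≤ |h| := by
      have := Set.abs_sub_left_of_mem_uIcc ht
      simpa using this
    have h1 : |b + t - b| ≤ |h| := by
      have : b + t - b = t := by ring
      rwa [this]
    have h2 : |b - t - b| ≤ |h| := by
      have : b - t - b = -t := by ring
      rwa [this, abs_neg]
    have d1 := (hD (b + t) (hreg _ h1)).1
    have d2 := (hD (b - t) (hreg _ h2)).1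
    have e1 : HasDerivAt (fun t => KP p x (b + t)) (D1 (b + t)) t := d1.comp_const_add b t
    have e2 : HasDerivAt (fun t => KP p x (b - t)) (-D1 (b - t)) t := d2.comp_const_sub b t
    have e3 := (e1.add e2).sub_const (2 * KP p x b)
    refine (e3.congr_deriv ?_).hasDerivWithinAt
    ring
  · intro t ht
    have ht' : |t| ≤ |h| := by
      have := Set.abs_sub_left_of_mem_uIcc ht
      simpa using this
    rw [Real.norm_eq_abs]
    refine (hlip t ht').trans ?_
    rw [abs_mul, abs_of_pos (by norm_num : (0 : ℝ) < 2)]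
    exact mul_le_mul_of_nonneg_left (by linarith) (by positivity)

theorem FB_bd {p : ℕ} (hp : 2 ≤ p) {c : ℝ} (hc : 0 < c) : ∃ C : ℝ, 0 < C ∧ ∀ x b : ℝ,
    (1 ≤ |x| ∨ c ≤ |Real.cos (b / 2)|) → ‖FB p x b‖ ≤ C * vv p x ∧ ‖FA p x b‖ ≤ C * vv p x ∧
      |KK p x b| ≤ C * vv p x := by
  obtain ⟨C1, hC1, h1⟩ := pb2_KK hp hc
  obtain ⟨c', hc', hlow⟩ := pb2_low hc
  have hci : 0 < c'⁻¹ := inv_pos.mpr hc'
  have hp1 : (1 : ℕ) ≤ p := by omega
  have hv : ∀ x, 0 ≤ vv p x := fun x => le_min (Real.exp_pos _).le (Real.exp_pos _).le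
  refine ⟨(p * c'⁻¹ + c'⁻¹ ^ 2) + c'⁻¹ + C1, by positivity, fun x b h => ⟨?_, ?_, ?_⟩⟩
  · refine (pb2_FB hp1 hc' (hlow x b h)).trans (mul_le_mul_of_nonneg_right ?_ (hv x))
    linarith
  · refine (pb2_FA hp1 hc' (hlow x b h)).trans (mul_le_mul_of_nonneg_right ?_ (hv x))
    have : (0 : ℝ) ≤ p * c'⁻¹ + c'⁻¹ ^ 2 := by positivity
    linarith
  · refine (h1 x b h).trans (mul_le_mul_of_nonneg_right ?_ (hv x))
    have : (0 : ℝ) ≤ p * c'⁻¹ + c'⁻¹ ^ 2 := by positivity
    linarith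

end Pool.Agent.PfB
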