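import Pool.Agent.PfB.Ker
import Pool.Agent.PfB.KBd

/-! MP_f2c8f8_an, project PfB, row PB-3 -/

set_option autoImplicit false

open MeasureTheory Filter
open scoped ComplexConjugate Topology

noncomputable section

namespace Pool.Agent.PfB

/-- a bound of the trigonometric part for small `x` -/
def pb3_A (p : ℕ) : ℝ := ∑ j ∈ Finset.Icc 1 (p - 1), Real.exp j + 1

theorem pb3_A_pos (p : ℕ) : 0 < pb3_A p := by
  have : 0 ≤ ∑ j ∈ Finset.Icc 1 (p - 1), Real.exp (j : ℝ) :=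
    Finset.sum_nonneg fun _ _ => (Real.exp_pos _).le
  rw [pb3_A]
  linarith

theorem pb3_ww_pos (p : ℕ) (x : ℝ) : 0 < ww p x := lt_min (Real.exp_pos _) (Real.exp_pos _)

theorem pb3_ww_ge {p : ℕ} {x : ℝ} (hx : |x| ≤ 1) :
    Real.exp (-((p : ℝ) + 1)) ≤ ww p x := by
  have hx2 := (abs_le.mp hx).2
  have hx1 := (abs_le.mp hx).1
  have hp : (0 : ℝ) ≤ p := Nat.cast_nonneg p
  refine le_min (Real.exp_le_exp.mpr ?_) (Real.exp_le_exp.mpr ?_)
  · nlinarith
  · nlinarith

theorem pb3_exp_mul_ww {p : ℕ} {x : ℝ} (hx : |x| ≤ 1) :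
    1 ≤ Real.exp ((p : ℝ) + 1) * ww p x := by
  have h := mul_le_mul_of_nonneg_left (pb3_ww_ge (p := p) hx) (Real.exp_pos ((p : ℝ) + 1)).le
  rwa [← Real.exp_add, add_neg_cancel, Real.exp_zero] at h

/-- `KP` is the logarithm up to a bounded term -/
theorem pb3_split {p : ℕ} (hp : 2 ≤ p) {x : ℝ} (hx : |x| ≤ 1) (b : ℝ) :
    |KP p x b - Real.log ‖1 - wz x b‖| ≤ pb3_A p := by
  have h0 : (1 : ℂ) + Complex.exp (-(x : ℂ) + (b : ℂ) * Complex.I) = 1 - wz x b := by
    rw [wz, sub_neg_eq_add]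
  have h1 : KP p x b - Real.log ‖1 - wz x b‖ =
      ∑ j ∈ Finset.Icc 1 (p - 1), (-1 : ℝ) ^ j * Real.exp (-(j * x)) * Real.cos (j * b) / j -
        sg p / p * Real.exp (-(p * |x|)) * Real.cos (p * b) := by
    rw [KP, KK, h0]
    ring
  rw [h1]
  refine (abs_sub _ _).trans ?_
  rw [pb3_A]
  apply add_le_add
  · refine (Finset.abs_sum_le_sum_abs _ _).trans (Finset.sum_le_sum fun j hj => ?_)
    have hj1 : (1 : ℝ) ≤ j := by exact_mod_cast (Finset.mem_Icc.mp hj).1
    rw [abs_div, abs_mul, abs_mul, abs_pow, abs_neg, abs_one, one_pow, one_mul,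
      abs_of_pos (Real.exp_pos _), abs_of_pos (by linarith : (0 : ℝ) < j)]
    have h2 : Real.exp (-(j * x)) ≤ Real.exp j := by
      apply Real.exp_le_exp.mpr
      have := (abs_le.mp hx).1
      nlinarith
    have h3 : |Real.cos (j * b)| ≤ 1 := Real.abs_cos_le_one _
    rw [div_le_iff₀ (by linarith)]
    have h4 : Real.exp (-(j * x)) * |Real.cos (j * b)| ≤ Real.exp j * 1 :=
      mul_le_mul h2 h3 (abs_nonneg _) (Real.exp_pos _).le
    nlinarith [Real.exp_pos (j : ℝ)]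
  · have hsg : |sg p| = 1 := by
      rw [sg, abs_pow, abs_neg, abs_one, one_pow]
    have hp1 : (1 : ℝ) ≤ p := by exact_mod_cast (by omega : 1 ≤ p)
    rw [abs_mul, abs_mul, abs_div, hsg, abs_of_pos (Real.exp_pos _),
      abs_of_pos (by linarith : (0 : ℝ) < p)]
    have h2 : Real.exp (-(p * |x|)) ≤ 1 := by
      rw [Real.exp_le_one_iff]
      have := abs_nonneg x
      nlinarith
    have h3 : |Real.cos (p * b)| ≤ 1 := Real.abs_cos_le_one _
    have h4 : (1 : ℝ) / p ≤ 1 := by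
      rw [div_le_one (by linarith)]
      exact hp1
    calc 1 / (p : ℝ) * Real.exp (-(p * |x|)) * |Real.cos (p * b)|
        ≤ 1 * 1 * 1 := by
          apply mul_le_mul _ h3 (abs_nonneg _) (by norm_num)
          exact mul_le_mul h4 h2 (Real.exp_pos _).le (by norm_num)
      _ = 1 := by norm_num

theorem pb3_norm_le {x : ℝ} (hx : |x| ≤ 1) (b : ℝ) : ‖1 - wz x b‖ ≤ 4 := by
  have h1 : ‖1 - wz x b‖ ≤ 1 + Real.exp (-x) := by
    refine (norm_sub_le _ _).trans ?_
    rw [norm_one, norm_wz]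
  have h2 : Real.exp (-x) ≤ Real.exp 1 := by
    apply Real.exp_le_exp.mpr
    have := (abs_le.mp hx).1
    linarith
  have h3 := Real.exp_one_lt_d9
  linarith

theorem pb3_log_le {x : ℝ} (hx : |x| ≤ 1) (b : ℝ) : Real.log ‖1 - wz x b‖ ≤ 4 :=
  (Real.log_le_self (norm_nonneg _)).trans (pb3_norm_le hx b)

theorem KP_le {p : ℕ} (hp : 2 ≤ p) : ∃ C : ℝ, 0 < C ∧ ∀ x b : ℝ, KP p x b ≤ C * ww p x := by
  obtain ⟨C, hC, h⟩ := KP_bd hp (c := 1) one_pos
  have hA := pb3_A_pos p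
  have hE := Real.exp_pos ((p : ℝ) + 1)
  refine ⟨C + (4 + pb3_A p) * Real.exp ((p : ℝ) + 1), by positivity, fun x b => ?_⟩
  have hw := pb3_ww_pos p x
  rcases le_or_gt 1 |x| with hx | hx
  · have h1 := (le_abs_self _).trans (h x b (Or.inl hx))
    have h2 : 0 ≤ (4 + pb3_A p) * Real.exp ((p : ℝ) + 1) * ww p x := by positivity
    rw [add_mul]
    linarith
  · have h1 := (abs_le.mp (pb3_split hp hx.le b)).2
    have h2 := pb3_log_le hx.le b
    have h3 := pb3_exp_mul_ww (p := p) hx.le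
    have h4 : (4 + pb3_A p) * 1 ≤ (4 + pb3_A p) * (Real.exp ((p : ℝ) + 1) * ww p x) :=
      mul_le_mul_of_nonneg_left h3 (by linarith)
    have h5 : 0 ≤ C * ww p x := by positivity
    rw [add_mul, mul_assoc]
    linarith

/-- `log ^ 2` near zero -/
theorem pb3_log_sq {t : ℝ} (ht : 0 < t) (ht1 : t ≤ 1) :
    Real.log t ^ 2 ≤ 16 * t ^ (-(1 / 2) : ℝ) := by
  have h1 : -Real.log t / 4 ≤ t ^ (-(1 / 4) : ℝ) := by
    have h2 := Real.log_le_self (Real.rpow_nonneg ht.le (-(1 / 4)))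
    rw [Real.log_rpow ht] at h2
    linarith
  have h3 : Real.log t ≤ 0 := Real.log_nonpos ht.le ht1
  have h4 : 0 ≤ t ^ (-(1 / 4) : ℝ) := Real.rpow_nonneg ht.le _
  have h5 : (t ^ (-(1 / 4) : ℝ)) ^ 2 = t ^ (-(1 / 2) : ℝ) := by
    rw [← Real.rpow_natCast, ← Real.rpow_mul ht.le]
    norm_num
  rw [← h5]
  nlinarith

/-- the bound of the square on the half period, in the distance from `π` -/
theorem pb3_sq_le {p : ℕ} (hp : 2 ≤ p) {x : ℝ} (hx : |x| ≤ 1) {y : ℝ} (hy0 : 0 < y)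
    (hy : y ≤ Real.pi) :
    KP p x (Real.pi - y) ^ 2 ≤
      (2 * pb3_A p ^ 2 + 32) + 64 * y ^ (-(1 / 2) : ℝ) := by
  have h1 := pb3_split hp hx (Real.pi - y)
  set L := Real.log ‖1 - wz x (Real.pi - y)‖ with hL
  have h2 : KP p x (Real.pi - y) ^ 2 ≤ 2 * pb3_A p ^ 2 + 2 * L ^ 2 := by
    have h3 : (KP p x (Real.pi - y) - L) ^ 2 ≤ pb3_A p ^ 2 :=
      sq_le_sq' (by linarith [(abs_le.mp h1).1]) (abs_le.mp h1).2
    nlinarith [sq_nonneg (KP p x (Real.pi - y) - 2 * L)]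
  have hr : 0 ≤ y ^ (-(1 / 2) : ℝ) := Real.rpow_nonneg hy0.le _
  have h4 : L ^ 2 ≤ 16 + 32 * y ^ (-(1 / 2) : ℝ) := by
    have hsin : y / Real.pi ≤ ‖1 - wz x (Real.pi - y)‖ := by
      have h5 := norm_one_sub_wz_ge x (Real.pi - y)
      have h6 : Real.cos ((Real.pi - y) / 2) = Real.sin (y / 2) := by
        rw [show (Real.pi - y) / 2 = Real.pi / 2 - y / 2 by ring, Real.cos_pi_div_two_sub]
      have h7 : y / Real.pi ≤ Real.sin (y / 2) := by
        have := Real.mul_le_sin (x := y / 2) (by linarith) (by linarith)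
        have h8 : 2 / Real.pi * (y / 2) = y / Real.pi := by ring
        rwa [h8] at this
      have h9 : 0 ≤ y / Real.pi := by positivity
      rw [h6, abs_of_nonneg (h9.trans h7)] at h5
      have h10 := Real.exp_pos (-x)
      nlinarith
    have hpos : 0 < y / Real.pi := by positivity
    have hpos' := hpos.trans_le hsin
    rcases le_or_gt ‖1 - wz x (Real.pi - y)‖ 1 with h | h
    · have h5 := pb3_log_sq hpos' h
      have h6 : ‖1 - wz x (Real.pi - y)‖ ^ (-(1 / 2) : ℝ) ≤ (y / Real.pi) ^ (-(1 / 2) : ℝ) :=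
        Real.rpow_le_rpow_of_nonpos hpos hsin (by norm_num)
      have h7 : (y / Real.pi) ^ (-(1 / 2) : ℝ) ≤ 2 * y ^ (-(1 / 2) : ℝ) := by
        rw [Real.div_rpow hy0.le Real.pi_pos.le, div_eq_mul_inv, mul_comm]
        apply mul_le_mul_of_nonneg_right _ hr
        rw [← Real.rpow_neg Real.pi_pos.le, neg_neg, ← Real.sqrt_eq_rpow]
        rw [show (2 : ℝ) = Real.sqrt 4 by
          rw [show (4 : ℝ) = 2 ^ 2 by norm_num, Real.sqrt_sq (by norm_num)]]
        exact Real.sqrt_le_sqrt Real.pi_le_four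
      rw [← hL] at h5
      nlinarith
    · have h5 : 0 ≤ L := Real.log_nonneg h.le
      have h6 : L ≤ 4 := pb3_log_le hx _
      nlinarith
  linarith

theorem pb3_half {p : ℕ} (hp : 2 ≤ p) {x : ℝ} (hx : |x| ≤ 1) (hx0 : x ≠ 0) :
    ∫ b in (0 : ℝ)..Real.pi, KP p x b ^ 2 ≤
      (2 * pb3_A p ^ 2 + 32) * Real.pi + 64 * 4 := by
  have hpi := Real.pi_pos
  have hcont : Continuous fun b => KP p x b ^ 2 := (KP_cont hx0).pow 2
  have h1 : ∫ b in (0 : ℝ)..Real.pi, KP p x b ^ 2 =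
      ∫ y in (0 : ℝ)..Real.pi, KP p x (Real.pi - y) ^ 2 := by
    have := intervalIntegral.integral_comp_sub_left (a := 0) (b := Real.pi)
      (fun b => KP p x b ^ 2) Real.pi
    rw [this, sub_self, sub_zero]
  have hint : IntervalIntegrable (fun y : ℝ => y ^ (-(1 / 2) : ℝ)) volume 0 Real.pi :=
    intervalIntegral.intervalIntegrable_rpow' (by norm_num)
  have h2 : ∫ y in (0 : ℝ)..Real.pi, KP p x (Real.pi - y) ^ 2 ≤
      ∫ y in (0 : ℝ)..Real.pi, ((2 * pb3_A p ^ 2 + 32) + 64 * y ^ (-(1 / 2) : ℝ)) := by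
    apply intervalIntegral.integral_mono_on_of_le_Ioo hpi.le
    · exact (hcont.comp (continuous_const.sub continuous_id)).intervalIntegrable _ _
    · exact (intervalIntegrable_const).add (hint.const_mul _)
    · intro y hy
      exact pb3_sq_le hp hx hy.1 hy.2.le
  have h3 : ∫ y in (0 : ℝ)..Real.pi, ((2 * pb3_A p ^ 2 + 32) + 64 * y ^ (-(1 / 2) : ℝ)) =
      (2 * pb3_A p ^ 2 + 32) * Real.pi + 64 * (2 * Real.sqrt Real.pi) := by
    rw [intervalIntegral.integral_add intervalIntegrable_const (hint.const_mul _),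
      intervalIntegral.integral_const, intervalIntegral.integral_const_mul,
      integral_rpow (Or.inl (by norm_num))]
    rw [sub_zero, smul_eq_mul, show (-(1 / 2) : ℝ) + 1 = 1 / 2 by norm_num,
      Real.zero_rpow (by norm_num), ← Real.sqrt_eq_rpow]
    ring
  have h4 : Real.sqrt Real.pi ≤ 2 := by
    rw [show (2 : ℝ) = Real.sqrt 4 by
      rw [show (4 : ℝ) = 2 ^ 2 by norm_num, Real.sqrt_sq (by norm_num)]]
    exact Real.sqrt_le_sqrt Real.pi_le_four
  rw [h1]
  linarith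

theorem pb3_period (p : ℕ) (x s : ℝ) :
    ∫ b in s..(s + 2 * Real.pi), KP p x b ^ 2 = ∫ b in (-Real.pi)..Real.pi, KP p x b ^ 2 := by
  have hper : Function.Periodic (fun b => KP p x b ^ 2) (2 * Real.pi) := by
    intro b
    have := KP_per p x b 1
    simp only [Int.cast_one, mul_one] at this
    simp only [this]
  have h := hper.intervalIntegral_add_eq s (-Real.pi)
  rw [h]
  congr 1
  ring

theorem pb3_even {p : ℕ} {x : ℝ} (hx0 : x ≠ 0) :
    ∫ b in (-Real.pi)..Real.pi, KP p x b ^ 2 = 2 * ∫ b in (0 : ℝ)..Real.pi, KP p x b ^ 2 := by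
  have hcont : Continuous fun b => KP p x b ^ 2 := (KP_cont hx0).pow 2
  rw [← intervalIntegral.integral_add_adjacent_intervals
    (hcont.intervalIntegrable (-Real.pi) 0) (hcont.intervalIntegrable 0 Real.pi)]
  have h1 : ∫ b in (-Real.pi)..0, KP p x b ^ 2 = ∫ b in (0 : ℝ)..Real.pi, KP p x b ^ 2 := by
    have h2 := intervalIntegral.integral_comp_neg (a := -Real.pi) (b := 0)
      (fun b => KP p x b ^ 2)
    rw [neg_zero, neg_neg] at h2
    rw [← h2]
    apply intervalIntegral.integral_congr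
    intro b _
    simp only [KP_neg]
  rw [h1]
  ring

theorem KP_sq {p : ℕ} (hp : 2 ≤ p) : ∃ C : ℝ, 0 < C ∧ ∀ x s : ℝ, x ≠ 0 →
    ∫ b in s..(s + 2 * Real.pi), KP p x b ^ 2 ≤ (C * ww p x) ^ 2 := by
  obtain ⟨C, hC, h⟩ := KP_bd hp (c := 1) one_pos
  have hA := pb3_A_pos p
  have hE := Real.exp_pos ((p : ℝ) + 1)
  have hpi := Real.pi_pos
  set M : ℝ := 2 * ((2 * pb3_A p ^ 2 + 32) * Real.pi + 64 * 4) with hM
  have hM0 : 1 ≤ M := by
    have : 0 ≤ (2 * pb3_A p ^ 2 + 32) * Real.pi := by positivity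
    rw [hM]
    linarith
  refine ⟨3 * C + M * Real.exp ((p : ℝ) + 1), by positivity, fun x s hx0 => ?_⟩
  have hw := pb3_ww_pos p x
  have hcont : Continuous fun b => KP p x b ^ 2 := (KP_cont hx0).pow 2
  rcases le_or_gt 1 |x| with hx | hx
  · have h1 : ∫ b in s..(s + 2 * Real.pi), KP p x b ^ 2 ≤
        ∫ _ in s..(s + 2 * Real.pi), (C * ww p x) ^ 2 := by
      apply intervalIntegral.integral_mono_on (by linarith) (hcont.intervalIntegrable _ _)
        intervalIntegrable_const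
      intro b _
      have := h x b (Or.inl hx)
      exact sq_le_sq' (by linarith [(abs_le.mp this).1]) (abs_le.mp this).2
    refine h1.trans ?_
    rw [intervalIntegral.integral_const, smul_eq_mul, add_sub_cancel_left]
    have h2 : 0 ≤ C * ww p x := by positivity
    have h3 : 3 * (C * ww p x) ≤ (3 * C + M * Real.exp ((p : ℝ) + 1)) * ww p x := by
      have : 0 ≤ M * Real.exp ((p : ℝ) + 1) * ww p x := by positivity
      rw [add_mul]
      linarith
    have h4 := Real.pi_le_four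
    calc 2 * Real.pi * (C * ww p x) ^ 2 ≤ 9 * (C * ww p x) ^ 2 := by
          have h5 : 2 * Real.pi ≤ 9 := by linarith
          exact mul_le_mul_of_nonneg_right h5 (sq_nonneg _)
      _ = (3 * (C * ww p x)) ^ 2 := by ring
      _ ≤ _ := pow_le_pow_left₀ (by positivity) h3 2
  · rw [pb3_period, pb3_even hx0]
    have h1 := pb3_half hp hx.le hx0
    have h2 := pb3_exp_mul_ww (p := p) hx.le
    have h3 : M ≤ (3 * C + M * Real.exp ((p : ℝ) + 1)) * ww p x := by
      have h4 : M * 1 ≤ M * (Real.exp ((p : ℝ) + 1) * ww p x) :=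
        mul_le_mul_of_nonneg_left h2 (by linarith)
      have h5 : 0 ≤ 3 * C * ww p x := by positivity
      rw [add_mul, mul_assoc M]
      linarith
    calc 2 * ∫ b in (0 : ℝ)..Real.pi, KP p x b ^ 2 ≤ M := by
          rw [hM]
          linarith
      _ ≤ M ^ 2 := by nlinarith
      _ ≤ _ := pow_le_pow_left₀ (by linarith) h3 2

end Pool.Agent.PfB
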