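import Pool.Agent.PfB.Ker
import Pool.Agent.PfB.KBd
import Pool.Agent.PfB.KL2

/-! MP_f2c8f8_an, project PfB, row PB-20 -/

set_option autoImplicit false
set_option maxHeartbeats 400000

open MeasureTheory Filter
open scoped ComplexConjugate Topology

noncomputable section

namespace Pool.Agent.PfB

theorem pb20_sj_or (m : ℤ) : sj m = 1 ∨ sj m = -1 := by
  rcases Int.even_or_odd m with h | h
  · left
    rw [sj, h.neg_one_zpow]
  · right
    rw [sj, h.neg_one_zpow]

theorem pb20_sj_sq (m : ℤ) : sj m * sj m = 1 := by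
  rcases pb20_sj_or m with h | h <;> rw [h] <;> norm_num

theorem pb20_sg_or (p : ℕ) : sg p = 1 ∨ sg p = -1 := neg_one_pow_eq_or ℝ (p + 1)

theorem pb20_ww_nonneg (p : ℕ) (x : ℝ) : 0 ≤ ww p x :=
  le_min (Real.exp_pos _).le (Real.exp_pos _).le

theorem pb20_abs (p : ℕ) (j : ℤ) (y : ℝ) : |sg p * sj j * y| = |y| := by
  rcases pb20_sg_or p with h | h <;> rcases pb20_sj_or j with h' | h' <;> rw [h, h'] <;>
    norm_num

/-- masses at a small angle from the grid -/
theorem near_or {p : ℕ} (hp : 1 ≤ p) {α : ℝ} (h0 : 0 < α) (h1 : α ≤ Real.pi / (8 * p)) (a : ℝ)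
    {e : ℝ} (he : e = 1 ∨ e = -1) :
    (∃ m : ℤ, |a - Real.pi * m / p| ≤ α ∧ e = sj m) ∨
      1 - Real.cos (p * α) ≤ 1 - e * Real.cos (p * a) := by
  have hpi := Real.pi_pos
  have hp0 : (0 : ℝ) < p := by exact_mod_cast hp
  have hpa : (p : ℝ) * α ≤ Real.pi / 8 := by
    have h := mul_le_mul_of_nonneg_left h1 hp0.le
    have e1 : (p : ℝ) * (Real.pi / (8 * p)) = Real.pi / 8 := by field_simp
    rw [e1] at h
    exact h
  have hpa0 : 0 < (p : ℝ) * α := mul_pos hp0 h0
  set m : ℤ := round ((p : ℝ) * a / Real.pi) with hm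
  set y : ℝ := (p : ℝ) * a - m * Real.pi with hy
  have hy1 : |y| ≤ Real.pi / 2 := by
    have h := abs_sub_round ((p : ℝ) * a / Real.pi)
    rw [← hm] at h
    have e1 : y = ((p : ℝ) * a / Real.pi - m) * Real.pi := by
      rw [hy]
      field_simp
    rw [e1, abs_mul, abs_of_pos hpi]
    have h2 := mul_le_mul_of_nonneg_right h hpi.le
    linarith
  have hcos : Real.cos y = sj m * Real.cos (p * a) := by
    rw [hy, Real.cos_sub_int_mul_pi, sj]
  have hcos' : Real.cos (p * a) = sj m * Real.cos y := by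
    rw [hcos, ← mul_assoc, pb20_sj_sq, one_mul]
  have hcy : 0 ≤ Real.cos y := by
    rw [← Real.cos_abs]
    exact Real.cos_nonneg_of_mem_Icc ⟨by linarith [abs_nonneg y], hy1⟩
  have hca : 0 ≤ Real.cos (p * α) :=
    Real.cos_nonneg_of_mem_Icc ⟨by linarith, by linarith⟩
  by_cases hem : e = sj m
  · by_cases hya : |y| ≤ p * α
    · left
      refine ⟨m, ?_, hem⟩
      have e1 : a - Real.pi * m / p = y / p := by
        rw [hy]
        field_simp
      rw [e1, abs_div, abs_of_pos hp0, div_le_iff₀ hp0]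
      linarith
    · right
      have h2 : e * Real.cos (p * a) = Real.cos y := by
        rw [hcos', hem, ← mul_assoc, pb20_sj_sq, one_mul]
      have h3 : Real.cos |y| ≤ Real.cos (p * α) :=
        Real.cos_le_cos_of_nonneg_of_le_pi hpa0.le (by linarith) (not_le.1 hya).le
      rw [Real.cos_abs] at h3
      rw [h2]
      linarith
  · right
    have h2 : e = -sj m := by
      rcases he with h | h <;> rcases pb20_sj_or m with h' | h' <;> rw [h, h'] at hem ⊢ <;>
        first | (exact absurd rfl hem) | norm_num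
    have h3 : e * Real.cos (p * a) = -Real.cos y := by
      rw [hcos', h2, ← mul_assoc, neg_mul, pb20_sj_sq]
      ring
    rw [h3]
    linarith

/-- masses far from the circle or close to the grid -/
def gd (p : ℕ) (x a e : ℝ) : Prop :=
  1 ≤ |x| ∨ ∃ m : ℤ, |a - Real.pi * m / p| ≤ Real.pi / (8 * p) ∧ e = sj m

theorem gd_or {p : ℕ} (hp : 1 ≤ p) (x a : ℝ) {e : ℝ} (he : e = 1 ∨ e = -1) :
    gd p x a e ∨ (|x| < 1 ∧ 1 - Real.cos (Real.pi / 8) ≤ 1 - e * Real.cos (p * a)) := by
  have hp0 : (0 : ℝ) < p := by exact_mod_cast hp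
  by_cases hx : 1 ≤ |x|
  · exact Or.inl (Or.inl hx)
  · rcases near_or hp (α := Real.pi / (8 * p)) (div_pos Real.pi_pos (by positivity)) le_rfl a he
      with h | h
    · exact Or.inl (Or.inr h)
    · right
      refine ⟨not_le.1 hx, ?_⟩
      have e1 : (p : ℝ) * (Real.pi / (8 * p)) = Real.pi / 8 := by field_simp
      rw [e1] at h
      exact h

/-- the one-sided bound -/
theorem pb20_side {p : ℕ} (hp : 2 ≤ p) : ∃ C : ℝ, 0 < C ∧ ∀ (x : ℝ) (j : ℤ) (t : ℝ),
    -(Real.pi / (4 * p)) ≤ t → t ≤ 5 * Real.pi / (8 * p) → kj p x j t ≤ C * ww p x := by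
  have hpi := Real.pi_pos
  have hp0 : (0 : ℝ) < p := by
    have : 0 < p := by omega
    exact_mod_cast this
  have hp2 : (2 : ℝ) ≤ p := by exact_mod_cast hp
  have hc : 0 < Real.sin (Real.pi / (8 * p)) := by
    apply Real.sin_pos_of_pos_of_lt_pi (by positivity)
    rw [div_lt_iff₀ (by positivity)]
    nlinarith
  obtain ⟨C0, hC0, H0⟩ := KP_bd hp hc
  obtain ⟨C1, hC1, H1⟩ := KP_le hp
  refine ⟨C0 + C1, by linarith, ?_⟩
  intro x j t ht1 ht2
  have hw := pb20_ww_nonneg p x
  -- reduction to a period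
  obtain ⟨n, i, hi, hj⟩ : ∃ n i : ℤ, (-(p : ℤ) ≤ i ∧ i ≤ p - 1) ∧ j = i + 2 * p * n := by
    have hpz : (0 : ℤ) < 2 * p := by
      have : 0 < p := by omega
      exact_mod_cast (by omega : 0 < 2 * p)
    refine ⟨(j + p) / (2 * p), (j + p) % (2 * p) - p, ⟨?_, ?_⟩, ?_⟩
    · have := Int.emod_nonneg (j + p) hpz.ne'
      linarith
    · have := Int.emod_lt_of_pos (j + p) hpz
      linarith
    · have := Int.emod_add_mul_ediv (j + p) (2 * p)
      linarith
  rw [hj, kj_per (by omega) x i n t]
  rcases eq_or_lt_of_le hi.2 with h | h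
  · -- the last arc
    have hs : sg p * sj i = 1 := by
      have h1 : sj i = (-1 : ℝ) ^ (p - 1) := by
        rw [sj, h]
        have h2 : ((p : ℤ) - 1) = ((p - 1 : ℕ) : ℤ) := by
          have : 1 ≤ p := by omega
          push_cast [this]
          ring
        rw [h2, zpow_natCast]
      rw [h1, sg, ← pow_add]
      have h3 : p + 1 + (p - 1) = 2 * p := by omega
      rw [h3, pow_mul]
      norm_num
    rw [kj, hs, one_mul]
    have := H1 x (th p i + t)
    nlinarith
  · have hb : Real.sin (Real.pi / (8 * p)) ≤ |Real.cos ((th p i + t) / 2)| := by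
      set b : ℝ := th p i + t with hb
      have hi1 : (-(p : ℝ)) ≤ i := by exact_mod_cast hi.1
      have hi2 : (i : ℝ) ≤ p - 2 := by
        have : i ≤ (p : ℤ) - 2 := by linarith [Int.lt_iff_add_one_le.1 h]
        exact_mod_cast this
      set u : ℝ := Real.pi / (8 * p) with hu
      have hu0 : 0 < u := by positivity
      have hpu : Real.pi = 8 * p * u := by
        rw [hu]
        field_simp
      have e1 : Real.pi / (4 * p) = 2 * u := by
        rw [hu]
        field_simp
        norm_num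
      have e2 : 5 * Real.pi / (8 * p) = 5 * u := by
        rw [hu]
        field_simp
      have e3 : th p i = 4 * (2 * i + 1) * u := by
        rw [th, hu]
        field_simp
        ring
      rw [e1] at ht1
      rw [e2] at ht2
      have hb1 : -(Real.pi - 2 * u) ≤ b := by
        rw [hb, e3, hpu]
        nlinarith
      have hb2 : b ≤ Real.pi - 2 * u := by
        rw [hb, e3, hpu]
        nlinarith
      have hb3 : |b / 2| ≤ Real.pi / 2 - u := by
        rw [abs_le]
        constructor <;> linarith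
      have hu1 : u ≤ Real.pi / 2 := by
        rw [hpu]
        nlinarith
      have h4 : Real.cos (Real.pi / 2 - u) ≤ Real.cos |b / 2| :=
        Real.cos_le_cos_of_nonneg_of_le_pi (abs_nonneg _) (by linarith) hb3
      rw [Real.cos_pi_div_two_sub, Real.cos_abs] at h4
      exact h4.trans (le_abs_self _)
    have h5 := H0 x (th p i + t) (Or.inr hb)
    have h6 : kj p x i t ≤ |KP p x (th p i + t)| := by
      rw [kj, ← pb20_abs p i (KP p x (th p i + t))]
      exact le_abs_self _
    nlinarith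

/-- the values near the grid -/
theorem kj_near {p : ℕ} (hp : 2 ≤ p) : ∃ C : ℝ, 0 < C ∧ ∀ (x : ℝ) (j : ℤ),
    (∀ t : ℝ, |t| ≤ Real.pi / (4 * p) → |kj p x j t| ≤ C * ww p x) ∧
    (∀ t t' : ℝ, |t| ≤ Real.pi / (4 * p) → |t'| ≤ Real.pi / (4 * p) →
      |kj p x j t - kj p x j t'| ≤ C * ww p x * |t - t'|) ∧
    (∀ t h : ℝ, |t| + |h| ≤ Real.pi / (4 * p) →
      |kj p x j (t + h) + kj p x j (t - h) - 2 * kj p x j t| ≤ C * ww p x * h ^ 2) ∧
    (∀ t : ℝ, -(Real.pi / (4 * p)) ≤ t → t ≤ 5 * Real.pi / (8 * p) →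
      kj p x j t ≤ C * ww p x ∧ -kj p x j (-t) ≤ C * ww p x) := by
  have hpi := Real.pi_pos
  have hp1 : 1 ≤ p := by omega
  have hp0 : (0 : ℝ) < p := by exact_mod_cast hp1
  have hp2 : (2 : ℝ) ≤ p := by exact_mod_cast hp
  have hc : 0 < Real.sin (Real.pi / (8 * p)) := by
    apply Real.sin_pos_of_pos_of_lt_pi (by positivity)
    rw [div_lt_iff₀ (by positivity)]
    nlinarith
  obtain ⟨C0, hC0, H0⟩ := KP_bd hp hc
  obtain ⟨C1, hC1, H1⟩ := KP_lip hp hc
  obtain ⟨C2, hC2, H2⟩ := KP_sec hp hc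
  obtain ⟨C3, hC3, H3⟩ := pb20_side hp
  refine ⟨C0 + C1 + C2 + C3, by linarith, ?_⟩
  intro x j
  have hw := pb20_ww_nonneg p x
  refine ⟨?_, ?_, ?_, ?_⟩
  · intro t ht
    have h1 := H0 x (th p j + t) (Or.inr (cos_grid hp1 j ht))
    rw [kj, pb20_abs]
    nlinarith
  · intro t t' ht ht'
    have h1 := H1 x (th p j + t) (th p j + t') (Or.inr (by
      intro s hs
      have h2 : |s - th p j| ≤ Real.pi / (4 * p) := by
        rw [abs_le] at ht ht' ⊢
        rw [Set.mem_uIcc] at hs
        constructor <;> rcases hs with hs | hs <;> linarith [hs.1, hs.2, ht.1, ht.2, ht'.1, ht'.2]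
      have h3 := cos_grid hp1 j h2
      rw [add_sub_cancel] at h3
      exact h3))
    have e1 : kj p x j t - kj p x j t' =
        sg p * sj j * (KP p x (th p j + t) - KP p x (th p j + t')) := by
      rw [kj, kj]
      ring
    rw [e1, pb20_abs]
    have e2 : th p j + t - (th p j + t') = t - t' := by ring
    rw [e2] at h1
    have h4 : 0 ≤ ww p x * |t - t'| := mul_nonneg hw (abs_nonneg _)
    nlinarith
  · intro t h hth
    have h1 := H2 x (th p j + t) h (Or.inr (by
      intro s hs
      have h2 : |s - th p j| ≤ Real.pi / (4 * p) := by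
        have h3 : |s - th p j| ≤ |s - (th p j + t)| + |t| := by
          have e3 : s - th p j = (s - (th p j + t)) + t := by ring
          rw [e3]
          exact abs_add_le _ _
        linarith
      have h3 := cos_grid hp1 j h2
      rw [add_sub_cancel] at h3
      exact h3))
    have e1 : kj p x j (t + h) + kj p x j (t - h) - 2 * kj p x j t =
        sg p * sj j * (KP p x (th p j + t + h) + KP p x (th p j + t - h) -
          2 * KP p x (th p j + t)) := by
      rw [kj, kj, kj, ← add_assoc, ← add_sub_assoc]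
      ring
    rw [e1, pb20_abs]
    have h4 : 0 ≤ ww p x * h ^ 2 := mul_nonneg hw (sq_nonneg _)
    nlinarith
  · intro t ht1 ht2
    constructor
    · have h1 := H3 x j t ht1 ht2
      nlinarith
    · have h1 := H3 x (-1 - j) t ht1 ht2
      have h2 := kj_neg hp1 x j (-t)
      rw [neg_neg] at h2
      rw [h2] at h1
      nlinarith

theorem gd_bd {p : ℕ} (hp : 2 ≤ p) : ∃ C : ℝ, 0 < C ∧ ∀ x a e : ℝ, (e = 1 ∨ e = -1) →
    gd p x a e → ∀ j : ℤ,
    (∀ t : ℝ, |t| ≤ Real.pi / (8 * p) → |e * kj p x j (t - a)| ≤ C * ww p x) ∧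
    (∀ t t' : ℝ, |t| ≤ Real.pi / (8 * p) → |t'| ≤ Real.pi / (8 * p) →
      |e * kj p x j (t - a) - e * kj p x j (t' - a)| ≤ C * ww p x * |t - t'|) ∧
    (∀ t : ℝ, 0 ≤ t → t ≤ Real.pi / (2 * p) →
      e * kj p x j (t - a) ≤ C * ww p x ∧ -(e * kj p x j (-t - a)) ≤ C * ww p x) := by
  have hpi := Real.pi_pos
  have hp1 : 1 ≤ p := by omega
  have hp0 : (0 : ℝ) < p := by exact_mod_cast hp1
  obtain ⟨C0, hC0, H0⟩ := KP_bd hp one_pos
  obtain ⟨C1, hC1, H1⟩ := KP_lip hp one_pos
  obtain ⟨C2, hC2, H2⟩ := kj_near hp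
  refine ⟨C0 + C1 + C2, by linarith, ?_⟩
  intro x a e he hg j
  have hw := pb20_ww_nonneg p x
  rcases hg with hx | ⟨m, hm, hem⟩
  · have hab : ∀ b : ℝ, |e * kj p x j b| ≤ (C0 + C1 + C2) * ww p x := by
      intro b
      have h1 := H0 x (th p j + b) (Or.inl hx)
      have h2 : |e * kj p x j b| = |KP p x (th p j + b)| := by
        rw [kj, abs_mul, pb20_abs]
        rcases he with h | h <;> rw [h] <;> norm_num
      rw [h2]
      nlinarith
    refine ⟨fun t _ => hab _, ?_, fun t _ _ => ⟨(le_abs_self _).trans (hab _),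
      (neg_le_abs _).trans (hab _)⟩⟩
    intro t t' _ _
    have h1 := H1 x (th p j + (t - a)) (th p j + (t' - a)) (Or.inl hx)
    have e1 : |e * kj p x j (t - a) - e * kj p x j (t' - a)| =
        |KP p x (th p j + (t - a)) - KP p x (th p j + (t' - a))| := by
      rw [← mul_sub, abs_mul, kj, kj, ← mul_sub, pb20_abs]
      rcases he with h | h <;> rw [h] <;> norm_num
    rw [e1]
    have e2 : th p j + (t - a) - (th p j + (t' - a)) = t - t' := by ring
    rw [e2] at h1
    have h4 : 0 ≤ ww p x * |t - t'| := mul_nonneg hw (abs_nonneg _)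
    nlinarith
  · set a' : ℝ := a - Real.pi * m / p with ha'
    have key : ∀ t : ℝ, e * kj p x j (t - a) = kj p x (j - m) (t - a') := by
      intro t
      have e1 : t - a = (t - a') - Real.pi * m / p := by
        rw [ha']
        ring
      rw [e1, kj_shift hp1 x j m (t - a'), hem, ← mul_assoc, pb20_sj_sq, one_mul]
    have e8 : Real.pi / (4 * p) = 2 * (Real.pi / (8 * p)) := by
      field_simp
      norm_num
    have e5 : 5 * Real.pi / (8 * p) = 5 * (Real.pi / (8 * p)) := by
      field_simp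
    have e4 : Real.pi / (2 * p) = 4 * (Real.pi / (8 * p)) := by
      field_simp
      norm_num
    obtain ⟨G1, G2, -, G4⟩ := H2 x (j - m)
    rw [e8, e5] at G4
    rw [e8] at G1 G2
    have hu0 : 0 < Real.pi / (8 * p) := by positivity
    have hsub : ∀ t : ℝ, |t| ≤ Real.pi / (8 * p) → |t - a'| ≤ 2 * (Real.pi / (8 * p)) := by
      intro t ht
      have := abs_sub t a'
      linarith
    refine ⟨?_, ?_, ?_⟩
    · intro t ht
      rw [key]
      have h1 := G1 (t - a') (hsub t ht)
      nlinarith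
    · intro t t' ht ht'
      rw [key, key]
      have h1 := G2 (t - a') (t' - a') (hsub t ht) (hsub t' ht')
      have e2 : t - a' - (t' - a') = t - t' := by ring
      rw [e2] at h1
      have h4 : 0 ≤ ww p x * |t - t'| := mul_nonneg hw (abs_nonneg _)
      nlinarith
    · intro t ht0 ht1
      rw [e4] at ht1
      have ha1 := (abs_le.1 hm).1
      have ha2 := (abs_le.1 hm).2
      rw [key, key]
      constructor
      · have h1 := (G4 (t - a') (by linarith) (by linarith)).1
        nlinarith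
      · have h1 := (G4 (t + a') (by linarith) (by linarith)).2
        have e2 : -(t + a') = -t - a' := by ring
        rw [e2] at h1
        nlinarith

end Pool.Agent.PfB
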