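import Pool.Agent.PfB.WEq
import Pool.Agent.PfB.KtB
import Pool.Agent.PfB.Near

/-! MP_f2c8f8_an, project PfB, row PB-16 -/

set_option autoImplicit false

open MeasureTheory Filter
open scoped ComplexConjugate Topology

noncomputable section

namespace Pool.Agent.PfB

theorem ell_le (p : ℕ) (τ : ℤ → ℝ) (hp : 1 ≤ p) : 0 ≤ ell p τ ∧
    ell p τ ≤ p / (2 * Real.pi) * ∑ j ∈ JJ p, τ j ^ 2 := by
  have hp0 : (0 : ℝ) < p := by exact_mod_cast hp
  have hpi := Real.pi_pos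
  constructor
  · unfold ell
    refine mul_nonneg (by positivity) (Finset.sum_nonneg fun j _ => ?_)
    linarith [Real.cos_le_one (p * τ j)]
  · unfold ell
    have h : ∑ j ∈ JJ p, (1 - Real.cos (p * τ j)) ≤ (p : ℝ) ^ 2 / 2 * ∑ j ∈ JJ p, τ j ^ 2 := by
      rw [Finset.mul_sum]
      refine Finset.sum_le_sum fun j _ => ?_
      have := Real.one_sub_sq_div_two_le_cos (x := p * τ j)
      nlinarith [this]
    calc (Real.pi * p)⁻¹ * ∑ j ∈ JJ p, (1 - Real.cos (p * τ j))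
        ≤ (Real.pi * p)⁻¹ * ((p : ℝ) ^ 2 / 2 * ∑ j ∈ JJ p, τ j ^ 2) :=
          mul_le_mul_of_nonneg_left h (by positivity)
      _ = p / (2 * Real.pi) * ∑ j ∈ JJ p, τ j ^ 2 := by
          field_simp

theorem pb16_cos (u : ℝ) : u ^ 2 / 2 - u ^ 4 / 2 ≤ 1 - Real.cos u := by
  rcases le_or_gt |u| 1 with h | h
  · have h1 := Real.cos_bound h
    have h2 := (abs_le.1 h1).2
    have h3 : |u| ^ 4 = u ^ 4 := by
      rw [← abs_pow]; exact abs_of_nonneg (by positivity)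
    rw [h3] at h2
    have h4 : 0 ≤ u ^ 4 := by positivity
    nlinarith
  · have h1 : 1 ≤ u ^ 2 := by
      have := sq_abs u
      nlinarith
    have h2 := Real.cos_le_one u
    nlinarith [sq_nonneg (u ^ 2)]

theorem ell_ge {p : ℕ} (hp : 1 ≤ p) (τ : ℤ → ℝ) {B : ℝ} (hτ : ∀ j ∈ JJ p, |τ j| ≤ B) :
    p / (2 * Real.pi) * ∑ j ∈ JJ p, τ j ^ 2 - (p : ℝ) ^ 4 * B ^ 4 ≤ ell p τ := by
  have hp0 : (0 : ℝ) < p := by exact_mod_cast hp
  have hpi := Real.pi_pos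
  have h : (p : ℝ) ^ 2 / 2 * ∑ j ∈ JJ p, τ j ^ 2 - ((p : ℝ) ^ 4 * B ^ 4 / 2) * (2 * p) ≤
      ∑ j ∈ JJ p, (1 - Real.cos (p * τ j)) := by
    have h1 : ∑ j ∈ JJ p, ((p : ℝ) ^ 2 / 2 * τ j ^ 2 - (p : ℝ) ^ 4 * B ^ 4 / 2) ≤
        ∑ j ∈ JJ p, (1 - Real.cos (p * τ j)) := by
      refine Finset.sum_le_sum fun j hj => ?_
      have h2 := pb16_cos (p * τ j)
      have h3 : τ j ^ 4 ≤ B ^ 4 := by
        have : |τ j| ^ 4 ≤ B ^ 4 := pow_le_pow_left₀ (abs_nonneg _) (hτ j hj) 4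
        rwa [← abs_pow, abs_of_nonneg (by positivity)] at this
      have h4 : (p : ℝ) ^ 4 * τ j ^ 4 ≤ (p : ℝ) ^ 4 * B ^ 4 :=
        mul_le_mul_of_nonneg_left h3 (by positivity)
      nlinarith
    rw [Finset.sum_sub_distrib, ← Finset.mul_sum, Finset.sum_const, card_JJ, nsmul_eq_mul] at h1
    push_cast at h1
    linarith
  unfold ell
  have h5 : (Real.pi * p)⁻¹ * ((p : ℝ) ^ 2 / 2 * ∑ j ∈ JJ p, τ j ^ 2 -
      ((p : ℝ) ^ 4 * B ^ 4 / 2) * (2 * p)) ≤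
      (Real.pi * p)⁻¹ * ∑ j ∈ JJ p, (1 - Real.cos (p * τ j)) :=
    mul_le_mul_of_nonneg_left h (by positivity)
  have h6 : (Real.pi * p)⁻¹ * ((p : ℝ) ^ 2 / 2 * ∑ j ∈ JJ p, τ j ^ 2 -
      ((p : ℝ) ^ 4 * B ^ 4 / 2) * (2 * p)) =
      p / (2 * Real.pi) * ∑ j ∈ JJ p, τ j ^ 2 - (p : ℝ) ^ 4 * B ^ 4 * Real.pi⁻¹ := by
    field_simp
  have h7 : (p : ℝ) ^ 4 * B ^ 4 * Real.pi⁻¹ ≤ (p : ℝ) ^ 4 * B ^ 4 := by
    have : Real.pi⁻¹ ≤ 1 := by
      apply inv_le_one_of_one_le₀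
      linarith [Real.pi_gt_three]
    have h8 : 0 ≤ (p : ℝ) ^ 4 * B ^ 4 := by positivity
    nlinarith
  linarith

theorem pb16_ww_cont (p : ℕ) : Continuous (ww p) := by
  unfold ww
  fun_prop

/-- integrability of the coefficients -/
theorem pb16_bk_int {p : ℕ} (hp : 2 ≤ p) {η : ℝ} (h0 : 0 < η) (h1 : η ≤ 1 / 4) {k : ℕ}
    (hk : 1 ≤ k) (hkp : k ≤ p) :
    Integrable (fun x : ℝ => rh p η ^ 2 * Real.exp (rh p η * x) * bk p k x) := by
  obtain ⟨C2, hC2, hw⟩ := II_ww hp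
  obtain ⟨C3, hC3, hb⟩ := bk_le hp
  have hc : Continuous (bk p k) :=
    continuous_iff_continuousAt.2 fun x => (bk_deriv hp hk hkp x).continuousAt
  refine Integrable.mono' ((hw η h0 h1).2.const_mul C3) (by fun_prop) ?_
  refine Eventually.of_forall fun x => ?_
  have e1 : 0 ≤ bk p k x := bk_nonneg hk hkp x
  have e2 : 0 ≤ rh p η ^ 2 * Real.exp (rh p η * x) := by positivity
  rw [Real.norm_of_nonneg (mul_nonneg e2 e1)]
  have := mul_le_mul_of_nonneg_left (hb k hk hkp x) e2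
  linarith

theorem pb16_kt {p : ℕ} (hp : 2 ≤ p) {η : ℝ} (h0 : 0 < η) (h1 : η ≤ 1 / 4) (j : ℤ) :
    Integrable (fun x : ℝ => rh p η ^ 2 * Real.exp (rh p η * x) * kt p x j) ∧
    II (rh p η) (fun x => kt p x j) = ∑ k ∈ Finset.Icc 1 p,
          (-1 : ℝ) ^ (k + 1) * II (rh p η) (bk p k) * Real.sin (k * th p j) := by
  have e : (fun x : ℝ => rh p η ^ 2 * Real.exp (rh p η * x) * kt p x j) = fun x =>
      ∑ k ∈ Finset.Icc 1 p, ((-1 : ℝ) ^ (k + 1) * Real.sin (k * th p j)) *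
        (rh p η ^ 2 * Real.exp (rh p η * x) * bk p k x) := by
    funext x
    rw [kt_eq hp, Finset.mul_sum]
    refine Finset.sum_congr rfl fun k _ => ?_
    ring
  have hi : ∀ k ∈ Finset.Icc 1 p, Integrable (fun x : ℝ =>
      ((-1 : ℝ) ^ (k + 1) * Real.sin (k * th p j)) *
        (rh p η ^ 2 * Real.exp (rh p η * x) * bk p k x)) := by
    intro k hk
    rw [Finset.mem_Icc] at hk
    exact (pb16_bk_int hp h0 h1 hk.1 hk.2).const_mul _
  constructor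
  · rw [e]
    exact integrable_finsetSum _ hi
  · unfold II
    rw [e, integral_finsetSum _ hi]
    refine Finset.sum_congr rfl fun k _ => ?_
    rw [integral_const_mul]
    ring

/-- first order expansion of `QQ` -/
theorem pb16_QQ {p : ℕ} (hp : 2 ≤ p) : ∃ C : ℝ, 0 < C ∧ ∀ (τ : ℤ → ℝ),
    (∀ j ∈ JJ p, |τ j| ≤ Real.pi / (8 * p)) → ∀ x : ℝ,
    |QQ p τ x 0 - ∑ j ∈ JJ p, τ j * kt p x j| ≤ C * (∑ j ∈ JJ p, τ j ^ 2) * ww p x := by
  obtain ⟨C, hC, hn⟩ := kj_near hp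
  refine ⟨C, hC, fun τ hτ x => ?_⟩
  have hpi := Real.pi_pos
  have hp0 : (0 : ℝ) < p := by
    have : 0 < p := by omega
    exact_mod_cast this
  have hw : 0 < ww p x := ww_pos p x
  have hle : Real.pi / (8 * p) ≤ Real.pi / (4 * p) := by
    apply div_le_div_of_nonneg_left hpi.le (by positivity) (by nlinarith)
  unfold QQ
  rw [← Finset.sum_sub_distrib]
  refine (Finset.abs_sum_le_sum_abs _ _).trans ?_
  rw [Finset.mul_sum, Finset.sum_mul]
  refine Finset.sum_le_sum fun j hj => ?_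
  obtain ⟨-, hl, -, -⟩ := hn x j
  have hτj := (hτ j hj).trans hle
  have hmem : ∀ t ∈ Set.uIcc 0 (τ j), |t| ≤ |τ j| := by
    intro t ht
    rcases le_total 0 (τ j) with h | h
    · rw [Set.uIcc_of_le h] at ht
      rw [abs_of_nonneg ht.1, abs_of_nonneg h]; exact ht.2
    · rw [Set.uIcc_of_ge h] at ht
      rw [abs_of_nonpos ht.2, abs_of_nonpos h]; linarith [ht.1]
  have hcont : ContinuousOn (fun t => kj p x j t) (Set.uIcc 0 (τ j)) := by
    have : LipschitzOnWith (Real.toNNReal (C * ww p x)) (fun t => kj p x j t)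
        (Set.uIcc 0 (τ j)) := by
      apply LipschitzOnWith.of_dist_le_mul
      intro s hs t ht
      rw [Real.dist_eq, Real.dist_eq, Real.coe_toNNReal _ (by positivity)]
      exact hl s t ((hmem s hs).trans hτj) ((hmem t ht).trans hτj)
    exact this.continuousOn
  have hint : IntervalIntegrable (fun t => kj p x j t) volume 0 (τ j) :=
    hcont.intervalIntegrable
  have e1 : (∫ t in (0 : ℝ)..τ j, kj p x j (t - 0)) - τ j * kt p x j =
      ∫ t in (0 : ℝ)..τ j, (kj p x j t - kj p x j 0) := by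
    rw [intervalIntegral.integral_sub hint intervalIntegrable_const,
      intervalIntegral.integral_const, kj_zero (by omega)]
    simp
  rw [e1]
  have e2 := intervalIntegral.norm_integral_le_of_norm_le_const (a := 0) (b := τ j)
    (f := fun t => kj p x j t - kj p x j 0) (C := C * ww p x * |τ j|) (by
      intro t ht
      have ht' : |t| ≤ |τ j| := hmem t (Set.uIoc_subset_uIcc ht)
      rw [Real.norm_eq_abs]
      refine (hl t 0 (ht'.trans hτj) (by rw [abs_zero]; positivity)).trans ?_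
      rw [sub_zero]
      exact mul_le_mul_of_nonneg_left ht' (by positivity))
  rw [Real.norm_eq_abs, sub_zero] at e2
  refine e2.trans (le_of_eq ?_)
  rw [mul_assoc, ← sq, sq_abs]
  ring

/-- quadratic expansion of `WW` -/
theorem W_quad {p : ℕ} (hp : 2 ≤ p) {C0 : ℝ} (hC0 : 0 < C0) : ∃ C η1 : ℝ, 0 < C ∧ 0 < η1 ∧
    ∀ η : ℝ, 0 < η → η < η1 → η ≤ 1 / 4 → ∀ τ : ℤ → ℝ, (∀ j ∈ JJ p, |τ j| ≤ C0 * η) →
      |WW p η τ - (mn p η - Z0 p η / (2 * Real.pi) * ∑ j ∈ JJ p, τ j ^ 2 +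
        Real.pi⁻¹ * ∑ j ∈ JJ p, τ j * ∑ k ∈ Finset.Icc 1 p,
          (-1 : ℝ) ^ (k + 1) * II (rh p η) (bk p k) * Real.sin (k * th p j))| ≤ C * η ^ 2 := by
  obtain ⟨C1, hC1, hQ⟩ := pb16_QQ hp
  obtain ⟨C2, hC2, hw⟩ := II_ww hp
  have hpi := Real.pi_pos
  have hp0 : (0 : ℝ) < p := by
    have : 0 < p := by omega
    exact_mod_cast this
  refine ⟨(p : ℝ) ^ 5 * C0 ^ 4 + Real.pi⁻¹ * (C1 * (2 * p * C0 ^ 2) * C2),
    Real.pi / (8 * p * C0), by positivity, by positivity, fun η h0 h1 h2 τ hτ => ?_⟩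
  have hτ' : ∀ j ∈ JJ p, |τ j| ≤ Real.pi / (8 * p) := by
    intro j hj
    refine (hτ j hj).trans ?_
    rw [lt_div_iff₀ (by positivity)] at h1
    rw [le_div_iff₀ (by positivity)]
    nlinarith
  obtain ⟨hQi, hWQ⟩ := WQ_eq hp h0 h2 hτ'
  have hsq : ∑ j ∈ JJ p, τ j ^ 2 ≤ 2 * p * C0 ^ 2 * η ^ 2 := by
    have : ∑ j ∈ JJ p, τ j ^ 2 ≤ ∑ j ∈ JJ p, (C0 * η) ^ 2 := by
      refine Finset.sum_le_sum fun j hj => ?_
      have := hτ j hj
      rw [← sq_abs (τ j)]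
      exact pow_le_pow_left₀ (abs_nonneg _) this 2
    rw [Finset.sum_const, card_JJ, nsmul_eq_mul] at this
    push_cast at this
    linarith
  have hsq0 : 0 ≤ ∑ j ∈ JJ p, τ j ^ 2 := Finset.sum_nonneg fun j _ => sq_nonneg _
  -- the linear part
  have hlin : |II (rh p η) (fun x => QQ p τ x 0) - ∑ j ∈ JJ p, τ j * ∑ k ∈ Finset.Icc 1 p,
          (-1 : ℝ) ^ (k + 1) * II (rh p η) (bk p k) * Real.sin (k * th p j)| ≤
      C1 * (2 * p * C0 ^ 2) * C2 * η ^ 2 := by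
    have e1 : ∑ j ∈ JJ p, τ j * ∑ k ∈ Finset.Icc 1 p,
          (-1 : ℝ) ^ (k + 1) * II (rh p η) (bk p k) * Real.sin (k * th p j) =
        ∫ x : ℝ, ∑ j ∈ JJ p, τ j * (rh p η ^ 2 * Real.exp (rh p η * x) * kt p x j) := by
      rw [integral_finsetSum _ fun j _ => (pb16_kt hp h0 h2 j).1.const_mul _]
      refine Finset.sum_congr rfl fun j _ => ?_
      rw [integral_const_mul, ← (pb16_kt hp h0 h2 j).2]
      rfl
    rw [e1]
    unfold II
    rw [← integral_sub hQi (integrable_finsetSum _ fun j _ =>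
      (pb16_kt hp h0 h2 j).1.const_mul _)]
    have e2 : |∫ x : ℝ, (rh p η ^ 2 * Real.exp (rh p η * x) * QQ p τ x 0 -
        ∑ j ∈ JJ p, τ j * (rh p η ^ 2 * Real.exp (rh p η * x) * kt p x j))| ≤
        ∫ x : ℝ, (C1 * (∑ j ∈ JJ p, τ j ^ 2)) *
          (rh p η ^ 2 * Real.exp (rh p η * x) * ww p x) := by
      rw [← Real.norm_eq_abs]
      refine norm_integral_le_of_norm_le ((hw η h0 h2).2.const_mul _)
        (Eventually.of_forall fun x => ?_)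
      have e3 : rh p η ^ 2 * Real.exp (rh p η * x) * QQ p τ x 0 -
        ∑ j ∈ JJ p, τ j * (rh p η ^ 2 * Real.exp (rh p η * x) * kt p x j) =
          rh p η ^ 2 * Real.exp (rh p η * x) * (QQ p τ x 0 - ∑ j ∈ JJ p, τ j * kt p x j) := by
        rw [mul_sub, Finset.mul_sum]
        congr 1
        refine Finset.sum_congr rfl fun j _ => ?_
        ring
      have e4 : 0 ≤ rh p η ^ 2 * Real.exp (rh p η * x) := by positivity
      rw [e3, Real.norm_eq_abs, abs_mul, abs_of_nonneg e4]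
      have := mul_le_mul_of_nonneg_left (hQ τ hτ' x) e4
      linarith
    refine e2.trans ?_
    rw [integral_const_mul]
    have e5 : ∫ x : ℝ, rh p η ^ 2 * Real.exp (rh p η * x) * ww p x ≤ C2 := (hw η h0 h2).1
    have e6 : 0 ≤ C1 * (∑ j ∈ JJ p, τ j ^ 2) := by positivity
    calc C1 * (∑ j ∈ JJ p, τ j ^ 2) * (∫ x : ℝ, rh p η ^ 2 * Real.exp (rh p η * x) * ww p x)
        ≤ C1 * (∑ j ∈ JJ p, τ j ^ 2) * C2 := mul_le_mul_of_nonneg_left e5 e6
      _ ≤ C1 * (2 * p * C0 ^ 2 * η ^ 2) * C2 := by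
          gcongr
      _ = C1 * (2 * p * C0 ^ 2) * C2 * η ^ 2 := by ring
  -- the quadratic part
  have hl1 := (ell_le p τ (by omega)).2
  have hl2 := ell_ge (p := p) (by omega) τ hτ
  have hZ := Z0_bd hp h0 h2
  have hZ0 : 0 ≤ Z0 p η := le_trans (by positivity) hZ.1
  have hquad : |Z0 p η / p * (p / (2 * Real.pi) * ∑ j ∈ JJ p, τ j ^ 2 - ell p τ)| ≤
      (p : ℝ) ^ 5 * C0 ^ 4 * η ^ 2 := by
    rw [abs_of_nonneg (mul_nonneg (by positivity) (by linarith))]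
    have e1 : p / (2 * Real.pi) * ∑ j ∈ JJ p, τ j ^ 2 - ell p τ ≤ (p : ℝ) ^ 4 * (C0 * η) ^ 4 := by
      linarith
    calc Z0 p η / p * (p / (2 * Real.pi) * ∑ j ∈ JJ p, τ j ^ 2 - ell p τ)
        ≤ Z0 p η / p * ((p : ℝ) ^ 4 * (C0 * η) ^ 4) := mul_le_mul_of_nonneg_left e1 (by positivity)
      _ ≤ ((p : ℝ) ^ 2 / η) / p * ((p : ℝ) ^ 4 * (C0 * η) ^ 4) := by
          gcongr
          exact hZ.2
      _ = (p : ℝ) ^ 5 * C0 ^ 4 * η ^ 2 * η := by
          field_simp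
      _ ≤ (p : ℝ) ^ 5 * C0 ^ 4 * η ^ 2 * 1 := by
          gcongr
          linarith
      _ = (p : ℝ) ^ 5 * C0 ^ 4 * η ^ 2 := by ring
  have hfin : WW p η τ - (mn p η - Z0 p η / (2 * Real.pi) * ∑ j ∈ JJ p, τ j ^ 2 +
        Real.pi⁻¹ * ∑ j ∈ JJ p, τ j * ∑ k ∈ Finset.Icc 1 p,
          (-1 : ℝ) ^ (k + 1) * II (rh p η) (bk p k) * Real.sin (k * th p j)) =
      Z0 p η / p * (p / (2 * Real.pi) * ∑ j ∈ JJ p, τ j ^ 2 - ell p τ) +
      Real.pi⁻¹ * (II (rh p η) (fun x => QQ p τ x 0) - ∑ j ∈ JJ p, τ j * ∑ k ∈ Finset.Icc 1 p,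
          (-1 : ℝ) ^ (k + 1) * II (rh p η) (bk p k) * Real.sin (k * th p j)) := by
    rw [← hWQ]
    have : Z0 p η / p * (p / (2 * Real.pi) * ∑ j ∈ JJ p, τ j ^ 2) =
        Z0 p η / (2 * Real.pi) * ∑ j ∈ JJ p, τ j ^ 2 := by
      field_simp
    rw [mul_sub (Z0 p η / p), this]
    ring
  rw [hfin]
  refine (abs_add_le _ _).trans ?_
  rw [abs_mul (Real.pi⁻¹), abs_of_pos (inv_pos.2 hpi)]
  have := mul_le_mul_of_nonneg_left hlin (inv_pos.2 hpi).le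
  linarith

end Pool.Agent.PfB
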