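import Pool.Agent.PfB.Ker
import Pool.Agent.PfB.Pars
import Pool.Agent.PfB.WQ
import Pool.Agent.PfB.WEq
import Pool.Agent.PfB.Bk
import Pool.Agent.PfB.Mass

/-! MP_f2c8f8_an, project PfB, row PB-26 -/

set_option autoImplicit false

open MeasureTheory Filter
open scoped ComplexConjugate Topology

noncomputable section

namespace Pool.Agent.PfB

/-- completing the square -/
theorem pb26_sq {a : ℝ} (ha : 0 < a) (b t : ℝ) : b * t - a * t ^ 2 ≤ b ^ 2 / (4 * a) := by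
  rw [le_div_iff₀ (by positivity)]
  nlinarith [sq_nonneg (2 * a * t - b)]

theorem pb26_Icc {p : ℕ} (hp : 1 ≤ p) (f : ℕ → ℝ) :
    ∑ k ∈ Finset.Icc 1 p, f k = ∑ k ∈ Finset.Icc 1 (p - 1), f k + f p := by
  obtain ⟨q, rfl⟩ : ∃ q, p = q + 1 := ⟨p - 1, by omega⟩
  rw [Finset.sum_Icc_succ_top (by omega)]
  rfl

/-- the maximum over the moduli -/
theorem pb26_max {p : ℕ} (hp : 1 ≤ p) {Z : ℝ} (hZ : 0 < Z) (β T : ℕ → ℝ) {S : ℝ}
    (hS : ∑ k ∈ Finset.Icc 1 (p - 1), T k ^ 2 + T p ^ 2 / 2 ≤ p * S) :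
    Real.pi⁻¹ * ∑ k ∈ Finset.Icc 1 p, β k * T k - Z / (2 * Real.pi) * S ≤
      1 / (2 * Real.pi * Z) * (p * (∑ k ∈ Finset.Icc 1 (p - 1), β k ^ 2 + 2 * β p ^ 2)) := by
  have hπ := Real.pi_pos
  have hp0 : (0 : ℝ) < p := by exact_mod_cast (by omega : 0 < p)
  have h1 : Z / (2 * Real.pi * p) * (∑ k ∈ Finset.Icc 1 (p - 1), T k ^ 2 + T p ^ 2 / 2) ≤
      Z / (2 * Real.pi) * S := by
    have h2 := mul_le_mul_of_nonneg_left hS (by positivity : 0 ≤ Z / (2 * Real.pi * p))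
    have h3 : Z / (2 * Real.pi * p) * (p * S) = Z / (2 * Real.pi) * S := by
      field_simp
    linarith
  have h4 : ∀ k ∈ Finset.Icc 1 (p - 1), Real.pi⁻¹ * (β k * T k) -
      Z / (2 * Real.pi * p) * T k ^ 2 ≤ 1 / (2 * Real.pi * Z) * (p * β k ^ 2) := by
    intro k _
    have h5 := pb26_sq (by positivity : 0 < Z / (2 * Real.pi * p)) (Real.pi⁻¹ * β k) (T k)
    have h6 : (Real.pi⁻¹ * β k) ^ 2 / (4 * (Z / (2 * Real.pi * p))) =
        1 / (2 * Real.pi * Z) * (p * β k ^ 2) := by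
      field_simp
      ring
    rw [h6] at h5
    linarith
  have h7 : Real.pi⁻¹ * (β p * T p) - Z / (2 * Real.pi * p) * (T p ^ 2 / 2) ≤
      1 / (2 * Real.pi * Z) * (p * (2 * β p ^ 2)) := by
    have h5 := pb26_sq (by positivity : 0 < Z / (4 * Real.pi * p)) (Real.pi⁻¹ * β p) (T p)
    have h6 : (Real.pi⁻¹ * β p) ^ 2 / (4 * (Z / (4 * Real.pi * p))) =
        1 / (2 * Real.pi * Z) * (p * (2 * β p ^ 2)) := by
      field_simp
    rw [h6] at h5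
    have h8 : Z / (2 * Real.pi * p) * (T p ^ 2 / 2) = Z / (4 * Real.pi * p) * T p ^ 2 := by
      field_simp
      ring
    rw [h8]
    linarith
  have h9 := Finset.sum_le_sum h4
  rw [Finset.sum_sub_distrib, ← Finset.mul_sum, ← Finset.mul_sum, ← Finset.mul_sum,
    ← Finset.mul_sum] at h9
  rw [pb26_Icc hp]
  have h10 : 1 / (2 * Real.pi * Z) * (p * (∑ k ∈ Finset.Icc 1 (p - 1), β k ^ 2 + 2 * β p ^ 2)) =
      1 / (2 * Real.pi * Z) * (p * ∑ k ∈ Finset.Icc 1 (p - 1), β k ^ 2) +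
        1 / (2 * Real.pi * Z) * (p * (2 * β p ^ 2)) := by ring
  rw [h10]
  linarith [h1, h7, h9]

/-- the value at the optimal shifts -/
theorem pb26_V {p : ℕ} (hp : 2 ≤ p) : ∃ C η1 : ℝ, 0 < C ∧ 0 < η1 ∧ ∀ η : ℝ, 0 < η → η < η1 →
    η ≤ 1 / 4 →
      mn p η + 1 / (2 * Real.pi * Z0 p η) * (p * (∑ k ∈ Finset.Icc 1 (p - 1),
        II (rh p η) (bk p k) ^ 2 + 2 * II (rh p η) (bk p p) ^ 2)) ≤
      2 * p / Real.sin (Real.pi * η) + C * η ^ 2 := by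
  obtain ⟨cb, Cb, hcb, hCb, hβ⟩ := beta_bd hp
  obtain ⟨cW, hcW, hW⟩ := W_le hp
  obtain ⟨C1, η1, hC1, hη1, hq⟩ := W_quad hp (by positivity : 0 < 2 * Cb)
  have hπ := Real.pi_pos
  have hp0 : (0 : ℝ) < p := by exact_mod_cast (by omega : 0 < p)
  refine ⟨C1, min η1 (Real.pi / (8 * p) / (2 * Cb)), hC1, by positivity, ?_⟩
  intro η h0 hlt h1
  have hlt1 : η < η1 := lt_of_lt_of_le hlt (min_le_left _ _)
  have hlt2 : η < Real.pi / (8 * p) / (2 * Cb) := lt_of_lt_of_le hlt (min_le_right _ _)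
  rw [lt_div_iff₀ (by positivity)] at hlt2
  obtain ⟨hZ1, hZ2⟩ := Z0_bd hp h0 h1
  have hZ : 0 < Z0 p η := lt_of_lt_of_le (by positivity) hZ1
  obtain ⟨β, hβd⟩ : ∃ β : ℕ → ℝ, β = fun k => II (rh p η) (bk p k) := ⟨_, rfl⟩
  have hβ1 : ∀ k : ℕ, 1 ≤ k → k ≤ p → |β k| ≤ Cb := by
    intro k hk hkp
    have h2 := (hβ η h0 h1).2 k hk hkp
    have h3 : 0 ≤ II (rh p η) (bk p k) := by
      refine integral_nonneg fun x => ?_
      exact mul_nonneg (by positivity) (bk_nonneg hk hkp x)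
    rw [hβd]
    show |II (rh p η) (bk p k)| ≤ Cb
    rw [abs_of_nonneg h3]
    exact h2
  obtain ⟨r, hr⟩ : ∃ r : ℤ → ℝ, r = fun j => ∑ k ∈ Finset.Icc 1 p,
    (-1 : ℝ) ^ (k + 1) * β k * Real.sin (k * th p j) := ⟨_, rfl⟩
  have hrb : ∀ j, |r j| ≤ p * Cb := by
    intro j
    rw [hr]
    refine (Finset.abs_sum_le_sum_abs _ _).trans ?_
    have h2 : ∀ k ∈ Finset.Icc 1 p, |(-1 : ℝ) ^ (k + 1) * β k * Real.sin (k * th p j)| ≤ Cb := by
      intro k hk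
      rw [Finset.mem_Icc] at hk
      rw [abs_mul, abs_mul, abs_pow, abs_neg, abs_one, one_pow, one_mul]
      calc |β k| * |Real.sin (k * th p j)| ≤ Cb * 1 :=
            mul_le_mul (hβ1 k hk.1 hk.2) (Real.abs_sin_le_one _) (abs_nonneg _) hCb.le
        _ = Cb := mul_one _
    refine (Finset.sum_le_sum h2).trans ?_
    simp
  have hτ0 : ∀ j ∈ JJ p, |r j / Z0 p η| ≤ 2 * Cb * η := by
    intro j _
    rw [abs_div, abs_of_pos hZ, div_le_iff₀ hZ]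
    have h2 : (p : ℝ) * Cb = 2 * Cb * η * (p / (2 * η)) := by field_simp
    calc |r j| ≤ p * Cb := hrb j
      _ = 2 * Cb * η * (p / (2 * η)) := h2
      _ ≤ 2 * Cb * η * Z0 p η := mul_le_mul_of_nonneg_left hZ1 (by positivity)
  have h2 := hq η h0 hlt1 h1 (fun j => r j / Z0 p η) hτ0
  have h3 := hW η h0 h1 (fun j => r j / Z0 p η) (fun j hj => (hτ0 j hj).trans (by linarith))
  have h4 : 0 ≤ cW / η * ∑ j ∈ JJ p, (r j / Z0 p η - tL p η j) ^ 2 :=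
    mul_nonneg (by positivity) (Finset.sum_nonneg fun j _ => sq_nonneg _)
  have h5 : ∑ j ∈ JJ p, (r j / Z0 p η) ^ 2 = (∑ j ∈ JJ p, r j ^ 2) / Z0 p η ^ 2 := by
    rw [Finset.sum_div]
    exact Finset.sum_congr rfl fun j _ => div_pow _ _ _
  have h6 : ∑ j ∈ JJ p, r j / Z0 p η * ∑ k ∈ Finset.Icc 1 p,
      (-1 : ℝ) ^ (k + 1) * II (rh p η) (bk p k) * Real.sin (k * th p j) =
      (∑ j ∈ JJ p, r j ^ 2) / Z0 p η := by
    rw [Finset.sum_div]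
    refine Finset.sum_congr rfl fun j _ => ?_
    have h7 : ∑ k ∈ Finset.Icc 1 p,
      (-1 : ℝ) ^ (k + 1) * II (rh p η) (bk p k) * Real.sin (k * th p j) = r j := by
      rw [hr, hβd]
    rw [h7]
    ring
  have h8 : ∑ j ∈ JJ p, r j ^ 2 = p * (∑ k ∈ Finset.Icc 1 (p - 1), β k ^ 2 + 2 * β p ^ 2) := by
    rw [hr]
    exact r_sq (by omega) β
  rw [h5, h6] at h2
  have h9 := (abs_le.mp h2).1
  have h10 : mn p η - Z0 p η / (2 * Real.pi) * ((∑ j ∈ JJ p, r j ^ 2) / Z0 p η ^ 2) +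
      Real.pi⁻¹ * ((∑ j ∈ JJ p, r j ^ 2) / Z0 p η) =
      mn p η + 1 / (2 * Real.pi * Z0 p η) * ∑ j ∈ JJ p, r j ^ 2 := by
    field_simp
    ring
  rw [h10, h8, hβd] at h9
  linarith

/-- a minimiser over the rotations -/
theorem pb26_min {p : ℕ} (hp : 1 ≤ p) (g : ℤ → ℝ) (hg : ∀ m n : ℤ, g (m + 2 * p * n) = g m) :
    ∃ m₀ : ℤ, ∀ m, g m₀ ≤ g m := by
  have hne : (JJ p).Nonempty := by
    refine ⟨0, ?_⟩
    rw [JJ, Finset.mem_Ico]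
    omega
  obtain ⟨m₀, _, hm₀⟩ := Finset.exists_min_image (JJ p) g hne
  refine ⟨m₀, fun m => ?_⟩
  have h1 : (0 : ℤ) < 2 * p := by omega
  have h2 := Int.emod_nonneg (m + p) h1.ne'
  have h3 := Int.emod_lt_of_pos (m + p) h1
  have h4 := Int.emod_add_mul_ediv (m + p) (2 * p)
  have h5 : (m + p) % (2 * p) - p ∈ JJ p := by
    rw [JJ, Finset.mem_Ico]
    omega
  have h6 : m = ((m + p) % (2 * p) - p) + 2 * p * ((m + p) / (2 * p)) := by linarith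
  rw [h6, hg]
  exact hm₀ _ h5

/-- closeness of the shifts to the extremal shifts -/
theorem r3 {p : ℕ} (hp : 2 ≤ p) {C0 : ℝ} (hC0 : 0 < C0) : ∃ C : ℝ, 0 < C ∧ ∀ ς : ℝ, 0 < ς →
    ς ≤ 1 → ∃ η1 : ℝ, 0 < η1 ∧ ∀ η : ℝ, 0 < η → η < η1 → ∀ τ : ℤ → ℝ,
      (∀ j n : ℤ, τ (j + 2 * p * n) = τ j) → (∀ j, |τ j| ≤ C0 * η) → ∀ L D : ℝ, 0 ≤ D →
      (∀ Ξ : ℝ, 0 ≤ Ξ → (∀ m : ℤ, Ξ ≤ ∑ k ∈ Finset.Icc 1 p, (‖TT p τ k‖ - cc p τ k m)) →
        L ≤ mn p η - Z0 p η / p * ell p τ - D / 2 +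
          Real.pi⁻¹ * (∑ k ∈ Finset.Icc 1 p, II (rh p η) (bk p k) * ‖TT p τ k‖ -
            II (rh p η) (bk p p) / 2 * Ξ) + ς * η) →
      L + D / 8 ≤ 2 * p / Real.sin (Real.pi * η) ∨
        ∃ m : ℤ, ∑ j ∈ JJ p, (τ (j + m) - tL p η j) ^ 2 ≤ C * ς * η ^ 2 := by
  obtain ⟨cb, Cb, hcb, hCb, hβ⟩ := beta_bd hp
  obtain ⟨cW, hcW, hW⟩ := W_le hp
  obtain ⟨C1, η1, hC1, hη1, hV⟩ := pb26_V hp
  obtain ⟨C2, η2, hC2, hη2, hq⟩ := W_quad hp hC0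
  have hπ := Real.pi_pos
  have hp0 : (0 : ℝ) < p := by exact_mod_cast (by omega : 0 < p)
  have hp1 : 1 ≤ p := by omega
  obtain ⟨C4, hC4⟩ : ∃ C4 : ℝ, C4 = (p : ℝ) ^ 5 * C0 ^ 4 := ⟨_, rfl⟩
  have hC40 : 0 < C4 := by rw [hC4]; positivity
  refine ⟨(4 * Cb / cb + 2) / cW, by positivity, fun ς hς hς1 => ?_⟩
  refine ⟨min (min η1 η2) (min (1 / 4) (min (Real.pi / (8 * p) / C0) (ς / (C1 + C2 + C4)))),
    by positivity, ?_⟩
  intro η h0 hlt τ hper hτ L D hD hyp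
  have hl1 : η < η1 := hlt.trans_le ((min_le_left _ _).trans (min_le_left _ _))
  have hl2 : η < η2 := hlt.trans_le ((min_le_left _ _).trans (min_le_right _ _))
  have hl3 : η < 1 / 4 := hlt.trans_le ((min_le_right _ _).trans (min_le_left _ _))
  have hl4 : η < Real.pi / (8 * p) / C0 :=
    hlt.trans_le ((min_le_right _ _).trans ((min_le_right _ _).trans (min_le_left _ _)))
  have hl5 : η < ς / (C1 + C2 + C4) :=
    hlt.trans_le ((min_le_right _ _).trans ((min_le_right _ _).trans (min_le_right _ _)))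
  rw [lt_div_iff₀ hC0] at hl4
  rw [lt_div_iff₀ (by positivity)] at hl5
  have hη4 : η ≤ 1 / 4 := hl3.le
  obtain ⟨hZ1, hZ2⟩ := Z0_bd hp h0 hη4
  have hZ : 0 < Z0 p η := lt_of_lt_of_le (by positivity) hZ1
  obtain ⟨β, hβd⟩ : ∃ β : ℕ → ℝ, β = fun k => II (rh p η) (bk p k) := ⟨_, rfl⟩
  have hβk : ∀ k, II (rh p η) (bk p k) = β k := fun k => by rw [hβd]
  have hβp : cb ≤ β p := by rw [← hβk]; exact (hβ η h0 hη4).1
  have hβC : ∀ k : ℕ, 1 ≤ k → k ≤ p → β k ≤ Cb := fun k hk hkp => by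
    rw [← hβk]; exact (hβ η h0 hη4).2 k hk hkp
  have hβ0 : ∀ k : ℕ, 1 ≤ k → k ≤ p → 0 ≤ β k := fun k hk hkp => by
    rw [← hβk]
    refine integral_nonneg fun x => ?_
    exact mul_nonneg (by positivity) (bk_nonneg hk hkp x)
  have hVη := hV η h0 hl1 hη4
  simp only [hβk] at hVη hyp
  -- the minimiser
  obtain ⟨m₀, hm₀⟩ := pb26_min hp1
    (fun m => ∑ k ∈ Finset.Icc 1 p, (‖TT p τ k‖ - cc p τ k m)) (fun m n => by
      refine Finset.sum_congr rfl fun k _ => ?_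
      rw [cc_per hp1])
  obtain ⟨Ξ, hΞ⟩ : ∃ Ξ : ℝ, Ξ = ∑ k ∈ Finset.Icc 1 p, (‖TT p τ k‖ - cc p τ k m₀) := ⟨_, rfl⟩
  have hΞ0 : 0 ≤ Ξ := by
    rw [hΞ]
    exact Finset.sum_nonneg fun k _ => sub_nonneg.mpr (cc_le p τ k m₀)
  have hL := hyp Ξ hΞ0 (fun m => by rw [hΞ]; exact hm₀ m)
  by_cases hcase : L + D / 8 ≤ 2 * p / Real.sin (Real.pi * η)
  · exact Or.inl hcase
  right
  refine ⟨m₀, ?_⟩
  push Not at hcase
  -- the loss
  obtain ⟨S, hS⟩ : ∃ S : ℝ, S = ∑ j ∈ JJ p, τ j ^ 2 := ⟨_, rfl⟩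
  have hell : p / (2 * Real.pi) * S - (p : ℝ) ^ 4 * (C0 * η) ^ 4 ≤ ell p τ := by
    rw [hS]
    exact ell_ge hp1 τ (fun j _ => hτ j)
  have hloss : Z0 p η / (2 * Real.pi) * S - C4 * η ^ 3 ≤ Z0 p η / p * ell p τ := by
    have h1 := mul_le_mul_of_nonneg_left hell (by positivity : 0 ≤ Z0 p η / p)
    have h2 : Z0 p η / p * (p / (2 * Real.pi) * S - (p : ℝ) ^ 4 * (C0 * η) ^ 4) =
        Z0 p η / (2 * Real.pi) * S - Z0 p η * ((p : ℝ) ^ 3 * C0 ^ 4 * η ^ 4) := by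
      field_simp
    have h3 : Z0 p η * ((p : ℝ) ^ 3 * C0 ^ 4 * η ^ 4) ≤ C4 * η ^ 3 := by
      have h4 := mul_le_mul_of_nonneg_right hZ2
        (by positivity : 0 ≤ (p : ℝ) ^ 3 * C0 ^ 4 * η ^ 4)
      have h5 : (p : ℝ) ^ 2 / η * ((p : ℝ) ^ 3 * C0 ^ 4 * η ^ 4) = C4 * η ^ 3 := by
        rw [hC4]
        field_simp
      linarith
    linarith
  have hmain : 2 * p / Real.sin (Real.pi * η) < mn p η - Z0 p η / (2 * Real.pi) * S +
      Real.pi⁻¹ * (∑ k ∈ Finset.Icc 1 p, β k * ‖TT p τ k‖ - β p / 2 * Ξ) +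
      C4 * η ^ 3 + ς * η := by
    linarith
  -- the bound of `Ξ`
  have hmax := pb26_max hp1 hZ β (fun k => ‖TT p τ k‖) (S := S) (by rw [hS]; exact TT_sq hp1 τ)
  have hη3 : C4 * η ^ 3 ≤ C4 * η ^ 2 := by
    exact mul_le_mul_of_nonneg_left (pow_le_pow_of_le_one h0.le (by linarith) (by norm_num))
      hC40.le
  have hsm : (C1 + C2 + C4) * η ^ 2 ≤ ς * η := by
    calc (C1 + C2 + C4) * η ^ 2 = (η * (C1 + C2 + C4)) * η := by ring
      _ ≤ ς * η := mul_le_mul_of_nonneg_right hl5.le h0.le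
  have hC1η := mul_pos hC1 (pow_pos h0 2)
  have hC2η := mul_pos hC2 (pow_pos h0 2)
  have hΞ1 : β p * Ξ ≤ 4 * Real.pi * ς * η := by
    have h1 : Real.pi⁻¹ * (β p / 2 * Ξ) < C1 * η ^ 2 + C4 * η ^ 2 + ς * η := by
      rw [mul_sub] at hmain
      linarith
    have h2 : Real.pi⁻¹ * (β p / 2 * Ξ) ≤ 2 * ς * η := by
      linarith
    have h3 := mul_le_mul_of_nonneg_left h2 (by positivity : 0 ≤ 2 * Real.pi)
    have h4 : 2 * Real.pi * (Real.pi⁻¹ * (β p / 2 * Ξ)) = β p * Ξ := by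
      field_simp
    linarith
  have hΞ2 : Ξ ≤ 4 * Real.pi * ς * η / cb := by
    rw [le_div_iff₀ hcb]
    calc Ξ * cb ≤ Ξ * β p := mul_le_mul_of_nonneg_left hβp hΞ0
      _ = β p * Ξ := mul_comm _ _
      _ ≤ _ := hΞ1
  -- sums against `r`
  have hsum1 : ∑ k ∈ Finset.Icc 1 p, β k * ‖TT p τ k‖ ≤
      ∑ k ∈ Finset.Icc 1 p, β k * cc p τ k m₀ + Cb * Ξ := by
    rw [hΞ, Finset.mul_sum, ← Finset.sum_add_distrib]
    refine Finset.sum_le_sum fun k hk => ?_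
    rw [Finset.mem_Icc] at hk
    have h1 := mul_le_mul_of_nonneg_right (hβC k hk.1 hk.2)
      (sub_nonneg.mpr (cc_le p τ k m₀))
    linarith
  rw [cc_sum hp1 hper β m₀] at hsum1
  have hS' : ∑ j ∈ JJ p, τ (j + m₀) ^ 2 = S := by
    rw [hS]
    exact sum_JJ_shift (f := fun j => τ j ^ 2) (fun j n => by rw [hper]) m₀
  have hq' := hq η h0 hl2 hη4 (fun j => τ (j + m₀)) (fun j _ => hτ _)
  simp only [hβk] at hq'
  rw [hS'] at hq'
  have hW' := hW η h0 hη4 (fun j => τ (j + m₀)) (fun j _ => (hτ _).trans (by linarith))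
  have hq1 := (abs_le.mp hq').1
  have hfin : cW / η * ∑ j ∈ JJ p, (τ (j + m₀) - tL p η j) ^ 2 ≤
      (4 * Cb / cb + 2) * ς * η := by
    have h1 : 0 ≤ Real.pi⁻¹ * (β p / 2 * Ξ) := by
      have := hβ0 p hp1 le_rfl
      positivity
    have h2 := mul_le_mul_of_nonneg_left hsum1 (by positivity : 0 ≤ Real.pi⁻¹)
    have h3 : Real.pi⁻¹ * (Cb * Ξ) ≤ 4 * Cb / cb * ς * η := by
      have h4 := mul_le_mul_of_nonneg_left hΞ2 (by positivity : 0 ≤ Real.pi⁻¹ * Cb)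
      have h5 : Real.pi⁻¹ * Cb * (4 * Real.pi * ς * η / cb) = 4 * Cb / cb * ς * η := by
        field_simp
      linarith
    rw [mul_add] at h2
    rw [mul_sub] at hmain
    have h6 : C2 * η ^ 2 + C4 * η ^ 2 ≤ ς * η := by
      linarith
    linarith
  have h7 : ∑ j ∈ JJ p, (τ (j + m₀) - tL p η j) ^ 2 =
      η / cW * (cW / η * ∑ j ∈ JJ p, (τ (j + m₀) - tL p η j) ^ 2) := by
    field_simp
  rw [h7]
  calc η / cW * (cW / η * ∑ j ∈ JJ p, (τ (j + m₀) - tL p η j) ^ 2) ≤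
        η / cW * ((4 * Cb / cb + 2) * ς * η) :=
        mul_le_mul_of_nonneg_left hfin (by positivity)
    _ = (4 * Cb / cb + 2) / cW * ς * η ^ 2 := by
      field_simp

end Pool.Agent.PfB
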