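import Pool.Agent.PfB.Ker

/-! MP_f2c8f8_an, project PfB, row PB-27 -/

set_option autoImplicit false

open MeasureTheory Filter
open scoped ComplexConjugate Topology

noncomputable section

namespace Pool.Agent.PfB

/-- Fourier coefficients of the difference of the test functions -/
def qn (p : ℕ) (τ : ℤ → ℝ) (n : ℕ) : ℂ :=
  ∑ i ∈ JJ p, ((sg p * sj i : ℝ) : ℂ) *
    ∫ t in (0 : ℝ)..τ i, Complex.exp ((n : ℂ) * ((th p i + t : ℝ) : ℂ) * Complex.I)

theorem pb27_sg (p : ℕ) : sg p * sg p = 1 := by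
  unfold sg
  rw [← mul_pow]
  norm_num

theorem pb27_abs_sg (p : ℕ) : |sg p| = 1 := by
  unfold sg
  rw [abs_pow, abs_neg, abs_one, one_pow]

theorem pb27_abs_sj (i : ℤ) : |sj i| = 1 := by
  unfold sj
  rw [abs_zpow, abs_neg, abs_one, one_zpow]

theorem pb27_norm_ss (p : ℕ) (i : ℤ) : ‖((sg p * sj i : ℝ) : ℂ)‖ = 1 := by
  rw [Complex.norm_real, Real.norm_eq_abs, abs_mul, pb27_abs_sg, pb27_abs_sj, one_mul]

theorem pb27_cont (n : ℕ) (u : ℝ) :
    Continuous (fun t : ℝ => Complex.exp ((n : ℂ) * ((u + t : ℝ) : ℂ) * Complex.I)) := by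
  fun_prop

theorem pb27_norm_exp (n : ℕ) (u : ℝ) :
    ‖Complex.exp ((n : ℂ) * ((u : ℝ) : ℂ) * Complex.I)‖ = 1 := by
  have h : (n : ℂ) * ((u : ℝ) : ℂ) * Complex.I = (((n : ℝ) * u : ℝ) : ℂ) * Complex.I := by
    push_cast; ring
  rw [h, Complex.norm_exp_ofReal_mul_I]

theorem qn_lip (p : ℕ) (τ σ : ℤ → ℝ) (n : ℕ) :
    ‖qn p τ n - qn p σ n‖ ≤ ∑ j ∈ JJ p, |τ j - σ j| := by
  unfold qn
  rw [← Finset.sum_sub_distrib]
  refine (norm_sum_le _ _).trans (Finset.sum_le_sum fun i _ => ?_)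
  rw [← mul_sub, norm_mul, pb27_norm_ss, one_mul]
  have hc := pb27_cont n (th p i)
  rw [intervalIntegral.integral_interval_sub_left (hc.intervalIntegrable _ _)
    (hc.intervalIntegrable _ _)]
  refine (intervalIntegral.norm_integral_le_of_norm_le_const (C := 1) fun t _ => ?_).trans ?_
  · rw [pb27_norm_exp]
  · rw [one_mul]

/-! ### the sign of the indices -/

theorem pb27_sj_neg (i : ℤ) : sj (-1 - i) = -sj i := by
  unfold sj
  rcases Int.even_or_odd i with h | h
  · have h2 : Odd (-1 - i) := by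
      rcases h with ⟨k, hk⟩
      exact ⟨-1 - k, by omega⟩
    rw [h2.neg_one_zpow, h.neg_one_zpow]
  · have h2 : Even (-1 - i) := by
      rcases h with ⟨k, hk⟩
      exact ⟨-1 - k, by omega⟩
    rw [h2.neg_one_zpow, h.neg_one_zpow, neg_neg]

theorem pb27_th_neg (p : ℕ) (i : ℤ) : th p (-1 - i) = -th p i := by
  unfold th
  push_cast
  ring

/-- a sum over a period of an odd-signed function -/
theorem pb27_sum_half {p : ℕ} (g : ℤ → ℂ) :
    ∑ i ∈ JJ p, g i = ∑ i ∈ Finset.range p, (g i + g (-1 - i)) := by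
  have h1 : JJ p = Finset.image (fun i : ℕ => ((i : ℤ))) (Finset.range p) ∪
      Finset.image (fun i : ℕ => (-1 - (i : ℤ))) (Finset.range p) := by
    ext x
    simp only [JJ, Finset.mem_Ico, Finset.mem_union, Finset.mem_image, Finset.mem_range]
    constructor
    · rintro ⟨hx1, hx2⟩
      rcases le_or_gt 0 x with h | h
      · left
        exact ⟨x.toNat, by omega, by omega⟩
      · right
        exact ⟨(-1 - x).toNat, by omega, by omega⟩
    · rintro (⟨i, hi, rfl⟩ | ⟨i, hi, rfl⟩) <;> omega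
  have h2 : Disjoint (Finset.image (fun i : ℕ => ((i : ℤ))) (Finset.range p))
      (Finset.image (fun i : ℕ => (-1 - (i : ℤ))) (Finset.range p)) := by
    rw [Finset.disjoint_left]
    intro x hx hx'
    simp only [Finset.mem_image, Finset.mem_range] at hx hx'
    obtain ⟨i, _, rfl⟩ := hx
    obtain ⟨j, _, hj⟩ := hx'
    omega
  rw [h1, Finset.sum_union h2, Finset.sum_image, Finset.sum_image, ← Finset.sum_add_distrib]
  · intro i _ j _ h
    simpa using h
  · intro i _ j _ h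
    simpa using h

theorem pb27_sj_nat (i : ℕ) : sj (i : ℤ) = (-1) ^ i := by
  unfold sj
  exact zpow_natCast _ _

/-- `cos a ∑ (-1)^i sin ((2i+1) a)` -/
theorem pb27_sin_sum (p : ℕ) (a : ℝ) :
    2 * Real.cos a * ∑ i ∈ Finset.range p, (-1 : ℝ) ^ i * Real.sin ((2 * i + 1) * a) =
      (-1) ^ (p + 1) * Real.sin (2 * p * a) := by
  induction p with
  | zero => simp
  | succ p ih =>
    rw [Finset.sum_range_succ, mul_add, ih]
    have h1 : 2 * Real.cos a * ((-1 : ℝ) ^ p * Real.sin ((2 * p + 1) * a)) =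
        (-1) ^ p * (Real.sin (2 * p * a) + Real.sin (2 * ((p : ℝ) + 1) * a)) := by
      have h2 : (2 * (p : ℝ) + 1) * a = 2 * p * a + a := by ring
      have h3 : 2 * ((p : ℝ) + 1) * a = (2 * p * a + a) + a := by ring
      have h4 : 2 * (p : ℝ) * a = (2 * p * a + a) - a := by ring
      have h5 : Real.sin (2 * (p : ℝ) * a) =
          Real.sin (2 * p * a + a) * Real.cos a - Real.cos (2 * p * a + a) * Real.sin a := by
        conv_lhs => rw [h4]
        exact Real.sin_sub _ _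
      rw [h2, h3, Real.sin_add (2 * (p : ℝ) * a + a) a, h5]
      ring
    rw [h1]
    push_cast
    ring

/-- the exponential integral -/
theorem pb27_int {j : ℕ} (hj : 1 ≤ j) (u v : ℝ) :
    ∫ t in (0 : ℝ)..v, Complex.exp ((j : ℂ) * ((u + t : ℝ) : ℂ) * Complex.I) =
      (Complex.exp ((j : ℂ) * ((u + v : ℝ) : ℂ) * Complex.I) -
        Complex.exp ((j : ℂ) * (u : ℂ) * Complex.I)) / ((j : ℂ) * Complex.I) := by
  have hj0 : ((j : ℂ) * Complex.I) ≠ 0 :=
    mul_ne_zero (by exact_mod_cast (by omega : j ≠ 0)) Complex.I_ne_zero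
  have h1 : ∀ t : ℝ, Complex.exp ((j : ℂ) * ((u + t : ℝ) : ℂ) * Complex.I) =
      Complex.exp ((j : ℂ) * (u : ℂ) * Complex.I) * Complex.exp (((j : ℂ) * Complex.I) * t) := by
    intro t
    rw [← Complex.exp_add]
    congr 1
    push_cast
    ring
  simp_rw [h1]
  rw [intervalIntegral.integral_const_mul, integral_exp_mul_complex hj0]
  simp only [Complex.ofReal_zero, mul_zero, Complex.exp_zero]
  ring

theorem pb27_sin_zero {p : ℕ} (hp : 2 ≤ p) {j : ℕ} (hj : 1 ≤ j) (hjp : j < p) :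
    ∑ i ∈ Finset.range p, (-1 : ℝ) ^ i * Real.sin (j * th p i) = 0 := by
  have hp0 : (0 : ℝ) < p := by exact_mod_cast (by omega : 0 < p)
  have h1 := pb27_sin_sum p (Real.pi * j / (2 * p))
  have h2 : Real.sin (2 * p * (Real.pi * j / (2 * p))) = 0 := by
    have : 2 * (p : ℝ) * (Real.pi * j / (2 * p)) = j * Real.pi := by field_simp
    rw [this]
    exact Real.sin_nat_mul_pi j
  have h3 : Real.cos (Real.pi * j / (2 * p)) ≠ 0 := by
    have hjp' : (j : ℝ) < p := by exact_mod_cast hjp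
    refine (Real.cos_pos_of_mem_Ioo ⟨?_, ?_⟩).ne'
    · have : 0 ≤ Real.pi * j / (2 * p) := by positivity
      linarith [Real.pi_pos]
    · rw [div_lt_div_iff₀ (by positivity) (by norm_num)]
      nlinarith [Real.pi_pos]
  rw [h2, mul_zero] at h1
  have h4 : ∀ i : ℕ, Real.sin (j * th p i) = Real.sin ((2 * i + 1) * (Real.pi * j / (2 * p))) := by
    intro i
    congr 1
    unfold th
    push_cast
    ring
  simp_rw [h4]
  rcases mul_eq_zero.mp h1 with h | h
  · rcases mul_eq_zero.mp h with h | h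
    · norm_num at h
    · exact absurd h h3
  · exact h

/-- signed exponential sums over a period -/
theorem pb27_exp_sum (p : ℕ) (c : ℝ) (u : ℤ → ℝ) (hu : ∀ i, u (-1 - i) = -u i) :
    ∑ i ∈ JJ p, ((sg p * sj i : ℝ) : ℂ) * Complex.exp ((c : ℂ) * (u i : ℂ) * Complex.I) =
      2 * Complex.I * (sg p * ∑ i ∈ Finset.range p, (-1 : ℝ) ^ i * Real.sin (c * u i) : ℝ) := by
  rw [pb27_sum_half]
  push_cast
  rw [Finset.mul_sum, Finset.mul_sum]
  refine Finset.sum_congr rfl fun i _ => ?_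
  rw [pb27_sj_neg, hu, pb27_sj_nat]
  push_cast
  have h1 : Complex.exp ((c : ℂ) * (-(u i : ℂ)) * Complex.I) =
      Complex.exp (-((c : ℂ) * (u i : ℂ)) * Complex.I) := by
    congr 1; ring
  rw [h1, Complex.exp_mul_I, Complex.exp_mul_I, Complex.cos_neg, Complex.sin_neg]
  ring

theorem pb27_qL {p : ℕ} (hp : 2 ≤ p) {η : ℝ} (h0 : 0 < η) (h1 : η ≤ 1 / 4) {j : ℕ} (hj : 1 ≤ j)
    (hjp : j < p) : qn p (tL p η) j =
      (((-1) ^ j * (Real.sin (Real.pi * j * η / rh p η) /
        (j * Real.cos (Real.pi * j / (2 * rh p η)))) : ℝ) : ℂ) := by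
  have hp2 : (2 : ℝ) ≤ p := by exact_mod_cast hp
  have hρ : 0 < rh p η := by unfold rh; linarith
  have hj0 : (0 : ℝ) < j := by exact_mod_cast (by omega : 0 < j)
  have hjp' : (j : ℝ) + 1 ≤ p := by exact_mod_cast hjp
  have hcos : 0 < Real.cos (Real.pi * j / (2 * rh p η)) := by
    refine Real.cos_pos_of_mem_Ioo ⟨?_, ?_⟩
    · have : 0 ≤ Real.pi * j / (2 * rh p η) := by positivity
      linarith [Real.pi_pos]
    · rw [div_lt_div_iff₀ (by positivity) (by norm_num)]
      have : (j : ℝ) < rh p η := by unfold rh; linarith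
      nlinarith [Real.pi_pos]
  have hth : ∀ i : ℤ, th p i + tL p η i = Real.pi * (2 * i + 1) / (2 * rh p η) := by
    intro i
    have hp0 : (p : ℝ) ≠ 0 := by linarith
    unfold tL th
    have hρ' : rh p η ≠ 0 := hρ.ne'
    have : (p : ℝ) = rh p η + η := by unfold rh; ring
    field_simp
    rw [this]
    ring
  have hq : qn p (tL p η) j = (∑ i ∈ JJ p, ((sg p * sj i : ℝ) : ℂ) *
      (Complex.exp (((j : ℝ) : ℂ) * ((Real.pi * (2 * i + 1) / (2 * rh p η) : ℝ) : ℂ) * Complex.I) -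
        Complex.exp (((j : ℝ) : ℂ) * ((th p i : ℝ) : ℂ) * Complex.I))) / ((j : ℂ) * Complex.I) := by
    unfold qn
    rw [Finset.sum_div]
    refine Finset.sum_congr rfl fun i _ => ?_
    rw [pb27_int hj, hth, mul_div_assoc]
    push_cast
    ring
  have hS1 := pb27_exp_sum p (j : ℝ) (fun i => Real.pi * (2 * i + 1) / (2 * rh p η)) (by
    intro i
    push_cast
    ring)
  have hS2 := pb27_exp_sum p (j : ℝ) (fun i => th p i) (fun i => pb27_th_neg p i)
  have hS3 := pb27_sin_zero hp hj hjp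
  simp only [Int.cast_natCast] at hS1 hS2
  rw [hS3, mul_zero, Complex.ofReal_zero, mul_zero] at hS2
  rw [hq, Finset.sum_congr rfl (fun i _ => mul_sub _ _ _), Finset.sum_sub_distrib, hS2,
    sub_zero, hS1]
  have hsum := pb27_sin_sum p (Real.pi * j / (2 * rh p η))
  have h5 : ∀ i : ℕ, Real.sin ((j : ℝ) * (Real.pi * (2 * i + 1) / (2 * rh p η))) =
      Real.sin ((2 * i + 1) * (Real.pi * j / (2 * rh p η))) := by
    intro i
    congr 1
    ring
  simp_rw [h5]
  have h6 : Real.sin (2 * p * (Real.pi * j / (2 * rh p η))) =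
      (-1) ^ j * Real.sin (Real.pi * j * η / rh p η) := by
    have h7 : 2 * (p : ℝ) * (Real.pi * j / (2 * rh p η)) =
        Real.pi * j * η / rh p η + j * Real.pi := by
      have hρ' : rh p η ≠ 0 := hρ.ne'
      have : (p : ℝ) = rh p η + η := by unfold rh; ring
      field_simp
      rw [this]
      ring
    rw [h7, Real.sin_add_nat_mul_pi]
  rw [h6] at hsum
  set S := ∑ i ∈ Finset.range p, (-1 : ℝ) ^ i * Real.sin ((2 * i + 1) * (Real.pi * j / (2 * rh p η)))
    with hS
  have hSval : sg p * S = (-1) ^ j * Real.sin (Real.pi * j * η / rh p η) /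
      (2 * Real.cos (Real.pi * j / (2 * rh p η))) := by
    rw [eq_div_iff (by positivity)]
    have h8 : sg p * S * (2 * Real.cos (Real.pi * j / (2 * rh p η))) =
        sg p * (2 * Real.cos (Real.pi * j / (2 * rh p η)) * S) := by ring
    rw [h8, hsum]
    have h9 := pb27_sg p
    unfold sg at h9 ⊢
    linear_combination ((-1) ^ j * Real.sin (Real.pi * j * η / rh p η)) * h9
  rw [hSval]
  have hjc : (j : ℂ) ≠ 0 := by exact_mod_cast hj0.ne'
  have hcc : ((Real.cos (Real.pi * j / (2 * rh p η)) : ℝ) : ℂ) ≠ 0 := by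
    exact_mod_cast hcos.ne'
  rw [div_eq_iff (mul_ne_zero hjc Complex.I_ne_zero)]
  rw [Complex.ofReal_div, Complex.ofReal_mul ((-1 : ℝ) ^ j), Complex.ofReal_mul ((-1 : ℝ) ^ j),
    Complex.ofReal_mul 2, Complex.ofReal_div, Complex.ofReal_mul (j : ℝ)]
  simp only [Complex.ofReal_ofNat, Complex.ofReal_natCast]
  field_simp

theorem qL_ge {p : ℕ} (hp : 2 ≤ p) {η : ℝ} (h0 : 0 < η) (h1 : η ≤ 1 / 4) {j : ℕ} (hj : 1 ≤ j)
    (hjp : j < p) : (qn p (tL p η) j).im = 0 ∧ 2 * η / p ≤ (-1) ^ j * (qn p (tL p η) j).re := by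
  rw [pb27_qL hp h0 h1 hj hjp]
  refine ⟨Complex.ofReal_im _, ?_⟩
  rw [Complex.ofReal_re, ← mul_assoc, ← mul_pow, neg_mul_neg, one_mul, one_pow, one_mul]
  have hp2 : (2 : ℝ) ≤ p := by exact_mod_cast hp
  have hρ : 0 < rh p η := by unfold rh; linarith
  have hj0 : (0 : ℝ) < j := by exact_mod_cast (by omega : 0 < j)
  have hjp' : (j : ℝ) + 1 ≤ p := by exact_mod_cast hjp
  have hjρ : (j : ℝ) < rh p η := by unfold rh; linarith
  have hcos : 0 < Real.cos (Real.pi * j / (2 * rh p η)) := by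
    refine Real.cos_pos_of_mem_Ioo ⟨?_, ?_⟩
    · have : 0 ≤ Real.pi * j / (2 * rh p η) := by positivity
      linarith [Real.pi_pos]
    · rw [div_lt_div_iff₀ (by positivity) (by norm_num)]
      nlinarith [Real.pi_pos]
  have hx0 : 0 ≤ Real.pi * j * η / rh p η := by positivity
  have hx1 : Real.pi * j * η / rh p η ≤ Real.pi / 2 := by
    rw [div_le_div_iff₀ hρ (by norm_num)]
    nlinarith [Real.pi_pos, mul_pos Real.pi_pos hj0, mul_pos Real.pi_pos hρ]
  have hsin := Real.mul_le_sin hx0 hx1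
  have h2 : 2 / Real.pi * (Real.pi * j * η / rh p η) = 2 * η * j / rh p η := by
    have := Real.pi_pos.ne'
    field_simp
  rw [h2] at hsin
  have h3 : 2 * η / p ≤ 2 * η / rh p η := by
    refine div_le_div_of_nonneg_left (by positivity) hρ ?_
    unfold rh; linarith
  refine h3.trans ?_
  rw [le_div_iff₀ (by positivity)]
  have h4 : 2 * η / rh p η * (j * Real.cos (Real.pi * j / (2 * rh p η))) ≤
      2 * η * j / rh p η := by
    have h5 : 2 * η / rh p η * (j * Real.cos (Real.pi * j / (2 * rh p η))) =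
        (2 * η * j / rh p η) * Real.cos (Real.pi * j / (2 * rh p η)) := by ring
    rw [h5]
    exact mul_le_of_le_one_right (by positivity) (Real.cos_le_one _)
  linarith

theorem pb27_alt (p : ℕ) : ∑ i ∈ Finset.range p, (-1 : ℝ) ^ i * (2 * i + 1) =
    (-1) ^ (p + 1) * p := by
  induction p with
  | zero => simp
  | succ p ih =>
    rw [Finset.sum_range_succ, ih]
    push_cast
    ring

theorem q0_ge {p : ℕ} (hp : 2 ≤ p) {η : ℝ} (h0 : 0 < η) (h1 : η ≤ 1 / 4) :
    (qn p (tL p η) 0).im = 0 ∧ 2 * η / p ≤ (qn p (tL p η) 0).re := by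
  have hp2 : (2 : ℝ) ≤ p := by exact_mod_cast hp
  have hρ : 0 < rh p η := by unfold rh; linarith
  have hq : qn p (tL p η) 0 = ((Real.pi * η / rh p η : ℝ) : ℂ) := by
    unfold qn
    have h2 : ∀ i ∈ JJ p, ((sg p * sj i : ℝ) : ℂ) *
        ∫ t in (0 : ℝ)..tL p η i,
          Complex.exp (((0 : ℕ) : ℂ) * ((th p i + t : ℝ) : ℂ) * Complex.I) =
        ((sg p * sj i * tL p η i : ℝ) : ℂ) := by
      intro i _
      simp
    rw [Finset.sum_congr rfl h2, pb27_sum_half]
    have h3 : ∀ i ∈ Finset.range p, (((sg p * sj (i : ℤ) * tL p η (i : ℤ) : ℝ) : ℂ) +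
        ((sg p * sj (-1 - (i : ℤ)) * tL p η (-1 - (i : ℤ)) : ℝ) : ℂ)) =
        ((sg p * (Real.pi * η / (p * rh p η)) * ((-1) ^ i * (2 * (i : ℝ) + 1)) : ℝ) : ℂ) := by
      intro i _
      rw [← Complex.ofReal_add]
      congr 1
      rw [pb27_sj_neg, pb27_sj_nat]
      unfold tL
      rw [pb27_th_neg]
      unfold th
      push_cast
      field_simp
      ring
    rw [Finset.sum_congr rfl h3, ← Complex.ofReal_sum, ← Finset.mul_sum, pb27_alt]
    congr 1
    have h4 := pb27_sg p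
    have h5 : (p : ℝ) ≠ 0 := by linarith
    have h6 : sg p * (Real.pi * η / (p * rh p η)) * ((-1) ^ (p + 1) * p) =
        (sg p * sg p) * (Real.pi * η / rh p η) := by
      unfold sg
      field_simp
    rw [h6, h4, one_mul]
  rw [hq]
  refine ⟨Complex.ofReal_im _, ?_⟩
  rw [Complex.ofReal_re]
  have h3 : 2 * η / p ≤ 2 * η / rh p η := by
    refine div_le_div_of_nonneg_left (by positivity) hρ ?_
    unfold rh; linarith
  refine h3.trans ?_
  rw [div_le_div_iff_of_pos_right hρ]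
  nlinarith [Real.pi_gt_three]

/-! ### reflection -/

/-- the real integrals of the cosines -/
theorem pb27_re_int (n : ℕ) (u v a : ℝ) :
    ∫ t in (0 : ℝ)..v, Real.cos (n * (u + (t - a))) =
      ((∫ t in (0 : ℝ)..v, Complex.exp ((n : ℂ) * ((u + t : ℝ) : ℂ) * Complex.I)) *
        Complex.exp (-((n : ℂ) * (a : ℂ) * Complex.I))).re := by
  rw [← intervalIntegral.integral_mul_const]
  have hc : Continuous (fun t : ℝ => Complex.exp ((n : ℂ) * ((u + t : ℝ) : ℂ) * Complex.I) *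
      Complex.exp (-((n : ℂ) * (a : ℂ) * Complex.I))) := by fun_prop
  have h1 := Complex.reCLM.intervalIntegral_comp_comm (hc.intervalIntegrable (μ := volume) 0 v)
  rw [Complex.reCLM_apply] at h1
  rw [← h1]
  refine intervalIntegral.integral_congr fun t _ => ?_
  simp only [Complex.reCLM_apply]
  rw [← Complex.exp_add]
  have h2 : (n : ℂ) * ((u + t : ℝ) : ℂ) * Complex.I + -((n : ℂ) * (a : ℂ) * Complex.I) =
      (((n : ℝ) * (u + (t - a)) : ℝ) : ℂ) * Complex.I := by
    push_cast; ring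
  rw [h2, Complex.exp_ofReal_mul_I_re]

/-- the reflection for one index -/
theorem pb27_one (p : ℕ) (τ : ℤ → ℝ) (i : ℤ) {y : ℝ} (a : ℝ) (K : ℝ → ℝ → ℝ)
    (hK : Continuous (K y)) (hr : ∀ b, K (-y) b = K y b + y +
      ∑ j ∈ Finset.Icc 1 (p - 1), (-1 : ℝ) ^ j * (2 * Real.sinh (j * y) / j) * Real.cos (j * b)) :
    ∫ t in (0 : ℝ)..τ i, sg p * sj i * K (-y) (th p i + (t - a)) =
      (∫ t in (0 : ℝ)..τ i, sg p * sj i * K y (th p i + (t - a))) +
        y * (((sg p * sj i : ℝ) : ℂ) *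
          ∫ t in (0 : ℝ)..τ i, Complex.exp (((0 : ℕ) : ℂ) * ((th p i + t : ℝ) : ℂ) *
            Complex.I)).re +
        ∑ j ∈ Finset.Icc 1 (p - 1), 2 * Real.sinh (j * y) / j *
          ((-1) ^ j * ((((sg p * sj i : ℝ) : ℂ) *
            ∫ t in (0 : ℝ)..τ i, Complex.exp ((j : ℂ) * ((th p i + t : ℝ) : ℂ) * Complex.I)) *
              Complex.exp (-((j : ℂ) * (a : ℂ) * Complex.I))).re) := by
  have hc1 : Continuous (fun t : ℝ => sg p * sj i * K y (th p i + (t - a))) := by
    refine continuous_const.mul (hK.comp ?_)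
    fun_prop
  have hcj : ∀ j : ℕ, Continuous (fun t : ℝ => sg p * sj i *
      ((-1 : ℝ) ^ j * (2 * Real.sinh (j * y) / j) * Real.cos (j * (th p i + (t - a))))) := by
    intro j
    fun_prop
  have h1 : ∀ t : ℝ, sg p * sj i * K (-y) (th p i + (t - a)) =
      (sg p * sj i * K y (th p i + (t - a)) + sg p * sj i * y) +
        ∑ j ∈ Finset.Icc 1 (p - 1), sg p * sj i *
          ((-1 : ℝ) ^ j * (2 * Real.sinh (j * y) / j) * Real.cos (j * (th p i + (t - a)))) := by
    intro t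
    rw [hr, ← Finset.mul_sum]
    ring
  have hcs : Continuous (fun t : ℝ => ∑ j ∈ Finset.Icc 1 (p - 1), sg p * sj i *
      ((-1 : ℝ) ^ j * (2 * Real.sinh (j * y) / j) * Real.cos (j * (th p i + (t - a))))) :=
    continuous_finsetSum _ fun j _ => hcj j
  have hc2 : Continuous (fun t : ℝ => sg p * sj i * K y (th p i + (t - a)) + sg p * sj i * y) :=
    hc1.add continuous_const
  simp_rw [h1]
  rw [intervalIntegral.integral_add (hc2.intervalIntegrable _ _) (hcs.intervalIntegrable _ _),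
    intervalIntegral.integral_add (hc1.intervalIntegrable _ _)
      (continuous_const.intervalIntegrable _ _),
    intervalIntegral.integral_finsetSum fun j _ => (hcj j).intervalIntegrable _ _]
  congr 1
  · congr 1
    simp only [intervalIntegral.integral_const, Nat.cast_zero, zero_mul, Complex.exp_zero,
      sub_zero, smul_eq_mul, Complex.real_smul, mul_one]
    rw [← Complex.ofReal_mul, Complex.ofReal_re]
    ring
  · refine Finset.sum_congr rfl fun j _ => ?_
    have h2 : ∀ t : ℝ, sg p * sj i *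
        ((-1 : ℝ) ^ j * (2 * Real.sinh (j * y) / j) * Real.cos (j * (th p i + (t - a)))) =
        (sg p * sj i * ((-1 : ℝ) ^ j * (2 * Real.sinh (j * y) / j))) *
          Real.cos (j * (th p i + (t - a))) := fun t => by ring
    simp_rw [h2]
    rw [intervalIntegral.integral_const_mul, pb27_re_int, mul_assoc (((sg p * sj i : ℝ) : ℂ)),
      Complex.re_ofReal_mul]
    ring

theorem QQ_refl {p : ℕ} (hp : 2 ≤ p) (τ : ℤ → ℝ) {y : ℝ} (hy : y ≠ 0) (a : ℝ) :
    QQ p τ (-y) a = QQ p τ y a + y * (qn p τ 0).re +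
      ∑ j ∈ Finset.Icc 1 (p - 1), 2 * Real.sinh (j * y) / j *
        ((-1) ^ j * (qn p τ j * Complex.exp (-((j : ℂ) * (a : ℂ) * Complex.I))).re) := by
  have hr : ∀ b, KP p (-y) b = KP p y b + y +
      ∑ j ∈ Finset.Icc 1 (p - 1), (-1 : ℝ) ^ j * (2 * Real.sinh (j * y) / j) *
        Real.cos (j * b) := by
    intro b
    unfold KP
    rw [KK_refl, abs_neg]
    ring
  unfold QQ kj
  rw [Finset.sum_congr rfl fun i _ => pb27_one p τ i a (KP p) (KP_cont hy) hr]
  rw [Finset.sum_add_distrib, Finset.sum_add_distrib]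
  congr 1
  · congr 1
    unfold qn
    rw [Complex.re_sum, Finset.mul_sum]
  · rw [Finset.sum_comm]
    refine Finset.sum_congr rfl fun j _ => ?_
    unfold qn
    rw [← Finset.mul_sum, ← Finset.mul_sum, ← Complex.re_sum, ← Finset.sum_mul]

theorem RR_refl {p : ℕ} (hp : 2 ≤ p) (τ : ℤ → ℝ) (hτ : ∀ j ∈ JJ p, |τ j| ≤ Real.pi / (8 * p)) (y : ℝ) :
    RR p τ (-y) = RR p τ y + y * (qn p τ 0).re +
      ∑ j ∈ Finset.Icc 1 (p - 1), 2 * Real.sinh (j * y) / j * ((-1) ^ j * (qn p τ j).re) := by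
  rcases eq_or_ne y 0 with rfl | hy
  · simp
  · have h1 : ∀ x : ℝ, RR p τ x =
        ∑ i ∈ JJ p, ∫ t in (0 : ℝ)..τ i, sg p * sj i * KK p x (th p i + (t - 0)) := by
      intro x
      simp only [sub_zero]
      rfl
    rw [h1, h1, Finset.sum_congr rfl fun i _ =>
      pb27_one p τ i 0 (KK p) (KK_cont hy) (fun b => KK_refl p y b)]
    rw [Finset.sum_add_distrib, Finset.sum_add_distrib]
    congr 1
    · congr 1
      unfold qn
      rw [Complex.re_sum, Finset.mul_sum]
    · rw [Finset.sum_comm]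
      refine Finset.sum_congr rfl fun j _ => ?_
      unfold qn
      rw [← Finset.mul_sum, ← Finset.mul_sum, ← Complex.re_sum, ← Finset.sum_mul]
      simp

theorem tL_bd {p : ℕ} (hp : 2 ≤ p) {η : ℝ} (h0 : 0 < η) (h1 : η ≤ 1 / 4) {j : ℤ} (hj : j ∈ JJ p) :
    |tL p η j| ≤ 2 * η := by
  have hp2 : (2 : ℝ) ≤ p := by exact_mod_cast hp
  have hρ : 0 < rh p η := by unfold rh; linarith
  have hρ' : 7 / 4 ≤ rh p η := by unfold rh; linarith
  simp only [JJ, Finset.mem_Ico] at hj
  have hj1 : -(p : ℝ) ≤ j := by exact_mod_cast hj.1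
  have hj2 : (j : ℝ) + 1 ≤ p := by exact_mod_cast hj.2
  have hth : |th p j| ≤ Real.pi := by
    unfold th
    rw [abs_div, abs_mul, abs_of_pos Real.pi_pos, abs_of_pos (by positivity : (0 : ℝ) < 2 * p),
      div_le_iff₀ (by positivity)]
    refine mul_le_mul_of_nonneg_left ?_ Real.pi_pos.le
    rw [abs_le]
    constructor <;> linarith
  unfold tL
  rw [abs_div, abs_mul, abs_of_pos h0, abs_of_pos hρ, div_le_iff₀ hρ]
  have h2 : η * |th p j| ≤ η * Real.pi := mul_le_mul_of_nonneg_left hth h0.le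
  nlinarith [Real.pi_lt_d2]

/-- evenness for the extremal shifts -/
theorem QQ_tL_even {p : ℕ} (hp : 2 ≤ p) (η x a : ℝ) (hx : x ≠ 0) :
    QQ p (tL p η) x (-a) = QQ p (tL p η) x a := by
  unfold QQ
  rw [← sum_JJ_neg]
  refine Finset.sum_congr rfl fun j _ => ?_
  have h1 : tL p η (-1 - j) = -tL p η j := by
    unfold tL
    rw [pb27_th_neg]
    ring
  rw [h1]
  have h2 := intervalIntegral.integral_comp_neg (a := 0) (b := tL p η j)
    (fun t => kj p x (-1 - j) (t - -a))
  rw [neg_zero] at h2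
  rw [intervalIntegral.integral_symm, ← h2, ← intervalIntegral.integral_neg]
  refine intervalIntegral.integral_congr fun t _ => ?_
  change -kj p x (-1 - j) (-t - -a) = kj p x j (t - a)
  have h3 : -t - -a = -(t - a) := by ring
  rw [h3, kj_neg (by omega), neg_neg]

end Pool.Agent.PfB
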