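import Pool.Agent.PfB.Near
import Pool.Agent.PfB.KL2
import Pool.Agent.PfB.Mass
import Pool.Agent.PfB.Qn

/-! MP_f2c8f8_an, project PfB, row PB-30 -/

set_option autoImplicit false

open MeasureTheory Filter
open scoped ComplexConjugate Topology

noncomputable section

namespace Pool.Agent.PfB

/-! ### trigonometry -/

theorem pb30_sin_nat (n : ℕ) (x : ℝ) : |Real.sin (n * x)| ≤ n * |Real.sin x| := by
  induction n with
  | zero => simp
  | succ n ih =>
    have h : ((n + 1 : ℕ) : ℝ) * x = n * x + x := by push_cast; ring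
    rw [h, Real.sin_add]
    calc |Real.sin (n * x) * Real.cos x + Real.cos (n * x) * Real.sin x|
        ≤ |Real.sin (n * x) * Real.cos x| + |Real.cos (n * x) * Real.sin x| := abs_add_le _ _
      _ = |Real.sin (n * x)| * |Real.cos x| + |Real.cos (n * x)| * |Real.sin x| := by
          rw [abs_mul, abs_mul]
      _ ≤ n * |Real.sin x| * 1 + 1 * |Real.sin x| := by
          refine add_le_add (mul_le_mul ih (Real.abs_cos_le_one _) (abs_nonneg _) ?_)
            (mul_le_mul_of_nonneg_right (Real.abs_cos_le_one _) (abs_nonneg _))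
          positivity
      _ = ((n + 1 : ℕ) : ℝ) * |Real.sin x| := by push_cast; ring

/-- the case `e = 1` -/
theorem pb30_trig_pos (p : ℕ) {a : ℝ} (ha : |a| ≤ Real.pi) :
    a ^ 2 ≤ Real.pi ^ 2 * ((1 - Real.cos (p * a)) + (1 - Real.cos (((p : ℝ) - 1) * a))) := by
  have hpi := Real.pi_pos
  have h1 : 1 - Real.cos (p * a) = 2 * Real.sin (p * a / 2) ^ 2 := by
    have := Real.cos_sq' (p * a / 2)
    have h2 := Real.cos_sq (p * a / 2)
    rw [show 2 * (p * a / 2) = p * a by ring] at h2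
    linarith
  have h2 : 1 - Real.cos (((p : ℝ) - 1) * a) = 2 * Real.sin (((p : ℝ) - 1) * a / 2) ^ 2 := by
    have := Real.cos_sq' (((p : ℝ) - 1) * a / 2)
    have h2 := Real.cos_sq (((p : ℝ) - 1) * a / 2)
    rw [show 2 * (((p : ℝ) - 1) * a / 2) = ((p : ℝ) - 1) * a by ring] at h2
    linarith
  have h3 : Real.sin (a / 2) = Real.sin (p * a / 2) * Real.cos (((p : ℝ) - 1) * a / 2) -
      Real.cos (p * a / 2) * Real.sin (((p : ℝ) - 1) * a / 2) := by
    rw [← Real.sin_sub]; congr 1; ring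
  have h4 : |Real.sin (a / 2)| ≤ |Real.sin (p * a / 2)| + |Real.sin (((p : ℝ) - 1) * a / 2)| := by
    rw [h3]
    refine (abs_sub _ _).trans ?_
    rw [abs_mul, abs_mul]
    refine add_le_add (mul_le_of_le_one_right (abs_nonneg _) (Real.abs_cos_le_one _))
      (mul_le_of_le_one_left (abs_nonneg _) (Real.abs_cos_le_one _))
  have h5 : 2 / Real.pi * |a / 2| ≤ |Real.sin (a / 2)| := by
    refine Real.mul_abs_le_abs_sin ?_
    rw [abs_div, abs_two]; linarith
  have h6 : |a| ≤ Real.pi * |Real.sin (a / 2)| := by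
    rw [abs_div, abs_two] at h5
    have : 2 / Real.pi * (|a| / 2) = |a| / Real.pi := by ring
    rw [this, div_le_iff₀ hpi] at h5
    linarith
  rw [h1, h2]
  set s := |Real.sin (p * a / 2)| with hs
  set t := |Real.sin (((p : ℝ) - 1) * a / 2)| with ht
  have hs2 : Real.sin (p * a / 2) ^ 2 = s ^ 2 := by rw [hs, sq_abs]
  have ht2 : Real.sin (((p : ℝ) - 1) * a / 2) ^ 2 = t ^ 2 := by rw [ht, sq_abs]
  rw [hs2, ht2]
  have hs0 : 0 ≤ s := abs_nonneg _
  have ht0 : 0 ≤ t := abs_nonneg _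
  have h7 : |a| ≤ Real.pi * (s + t) := h6.trans (mul_le_mul_of_nonneg_left h4 hpi.le)
  have h8 : a ^ 2 ≤ (Real.pi * (s + t)) ^ 2 := by
    rw [← sq_abs a]
    exact pow_le_pow_left₀ (abs_nonneg _) h7 2
  refine h8.trans ?_
  rw [mul_pow]
  refine mul_le_mul_of_nonneg_left ?_ (by positivity)
  nlinarith [sq_nonneg (s - t)]

/-- the case `e = -1` -/
theorem pb30_trig_neg (p : ℕ) (a : ℝ) :
    1 ≤ ((p : ℝ) ^ 2 + 1) * ((1 + Real.cos (p * a)) + (1 + Real.cos (((p : ℝ) - 1) * a))) := by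
  have h1 : 1 + Real.cos (p * a) = 2 * Real.cos (p * a / 2) ^ 2 := by
    have h2 := Real.cos_sq (p * a / 2)
    rw [show 2 * (p * a / 2) = p * a by ring] at h2
    linarith
  have h2 : 1 + Real.cos (((p : ℝ) - 1) * a) = 2 * Real.cos (((p : ℝ) - 1) * a / 2) ^ 2 := by
    have h2 := Real.cos_sq (((p : ℝ) - 1) * a / 2)
    rw [show 2 * (((p : ℝ) - 1) * a / 2) = ((p : ℝ) - 1) * a by ring] at h2
    linarith
  have h3 : Real.sin (a / 2) = Real.sin (p * a / 2) * Real.cos (((p : ℝ) - 1) * a / 2) -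
      Real.cos (p * a / 2) * Real.sin (((p : ℝ) - 1) * a / 2) := by
    rw [← Real.sin_sub]; congr 1; ring
  have h4 : |Real.sin (a / 2)| ≤ |Real.cos (((p : ℝ) - 1) * a / 2)| + |Real.cos (p * a / 2)| := by
    rw [h3]
    refine (abs_sub _ _).trans ?_
    rw [abs_mul, abs_mul]
    refine add_le_add (mul_le_of_le_one_left (abs_nonneg _) (Real.abs_sin_le_one _))
      (mul_le_of_le_one_right (abs_nonneg _) (Real.abs_sin_le_one _))
  have h5 : |Real.sin (p * a / 2)| ≤ p * |Real.sin (a / 2)| := by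
    have := pb30_sin_nat p (a / 2)
    rwa [show (p : ℝ) * (a / 2) = p * a / 2 by ring] at this
  have h6 := Real.sin_sq_add_cos_sq (p * a / 2)
  rw [h1, h2]
  set s := |Real.cos (p * a / 2)| with hs
  set t := |Real.cos (((p : ℝ) - 1) * a / 2)| with ht
  have hs2 : Real.cos (p * a / 2) ^ 2 = s ^ 2 := by rw [hs, sq_abs]
  have ht2 : Real.cos (((p : ℝ) - 1) * a / 2) ^ 2 = t ^ 2 := by rw [ht, sq_abs]
  rw [hs2] at h6
  rw [hs2, ht2]
  have hs0 : 0 ≤ s := abs_nonneg _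
  have ht0 : 0 ≤ t := abs_nonneg _
  have hp0 : (0 : ℝ) ≤ p := Nat.cast_nonneg _
  have h7 : |Real.sin (p * a / 2)| ≤ p * (t + s) := h5.trans (mul_le_mul_of_nonneg_left h4 hp0)
  have h8 : Real.sin (p * a / 2) ^ 2 ≤ (p * (t + s)) ^ 2 := by
    rw [← sq_abs (Real.sin (p * a / 2))]
    exact pow_le_pow_left₀ (abs_nonneg _) h7 2
  have h9 : ((p : ℝ) * (t + s)) ^ 2 ≤ (p : ℝ) ^ 2 * (2 * s ^ 2 + 2 * t ^ 2) := by
    rw [mul_pow]
    refine mul_le_mul_of_nonneg_left ?_ (by positivity)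
    nlinarith [sq_nonneg (s - t)]
  nlinarith [sq_nonneg s, sq_nonneg t]

/-! ### signs -/

theorem pb30_sg (p : ℕ) (j : ℤ) : |sg p * sj j| = 1 := by
  rw [abs_mul, sg, sj, abs_pow, abs_zpow, abs_neg, abs_one, one_pow, one_zpow, one_mul]

theorem pb30_kj_lin (p : ℕ) (x : ℝ) (j : ℤ) (b b' : ℝ) :
    kj p x j b - kj p x j b' =
      sg p * sj j * (KP p x (th p j + b) - KP p x (th p j + b')) := by
  unfold kj; ring

/-- bounds of the kernel far from the circle -/
theorem pb30_kj {p : ℕ} (hp : 2 ≤ p) : ∃ C : ℝ, 0 < C ∧ ∀ x : ℝ, 1 ≤ |x| → ∀ j : ℤ,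
    (∀ b, |kj p x j b| ≤ C * ww p x) ∧
    (∀ b b', |kj p x j b - kj p x j b'| ≤ C * ww p x * |b - b'|) ∧
    (∀ b h, |kj p x j (b + h) + kj p x j (b - h) - 2 * kj p x j b| ≤ C * ww p x * h ^ 2) := by
  obtain ⟨C1, hC1, h1⟩ := KP_bd hp (c := 1) one_pos
  obtain ⟨C2, hC2, h2⟩ := KP_lip hp (c := 1) one_pos
  obtain ⟨C3, hC3, h3⟩ := KP_sec hp (c := 1) one_pos
  have hm1 : C1 ≤ max C1 (max C2 C3) := le_max_left _ _
  have hm2 : C2 ≤ max C1 (max C2 C3) := (le_max_left _ _).trans (le_max_right _ _)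
  have hm3 : C3 ≤ max C1 (max C2 C3) := (le_max_right _ _).trans (le_max_right _ _)
  refine ⟨max C1 (max C2 C3), lt_of_lt_of_le hC1 hm1, fun x hx j => ⟨fun b => ?_, fun b b' => ?_,
    fun b h => ?_⟩⟩
  · have hw := (ww_pos p x).le
    unfold kj
    rw [abs_mul, pb30_sg, one_mul]
    exact (h1 x _ (Or.inl hx)).trans (mul_le_mul_of_nonneg_right hm1 hw)
  · have hw := (ww_pos p x).le
    rw [pb30_kj_lin, abs_mul, pb30_sg, one_mul]
    refine (h2 x _ _ (Or.inl hx)).trans ?_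
    rw [show th p j + b - (th p j + b') = b - b' by ring]
    exact mul_le_mul_of_nonneg_right (mul_le_mul_of_nonneg_right hm2 hw) (abs_nonneg _)
  · have hw := (ww_pos p x).le
    have e1 : kj p x j (b + h) + kj p x j (b - h) - 2 * kj p x j b = sg p * sj j *
        (KP p x (th p j + b + h) + KP p x (th p j + b - h) - 2 * KP p x (th p j + b)) := by
      unfold kj
      rw [show th p j + (b + h) = th p j + b + h by ring,
        show th p j + (b - h) = th p j + b - h by ring]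
      ring
    rw [e1, abs_mul, pb30_sg, one_mul]
    refine (h3 x _ _ (Or.inl hx)).trans ?_
    exact mul_le_mul_of_nonneg_right (mul_le_mul_of_nonneg_right hm3 hw) (sq_nonneg _)

theorem pb30_cont {p : ℕ} {x : ℝ} (hx : x ≠ 0) (j : ℤ) : Continuous (kj p x j) := by
  have h := KP_cont (p := p) hx
  unfold kj
  exact continuous_const.mul (h.comp (continuous_const.add continuous_id))

theorem pb30_int {p : ℕ} {x : ℝ} (hx : x ≠ 0) (j : ℤ) (a u v : ℝ) :
    IntervalIntegrable (fun t => kj p x j (t - a)) volume u v :=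
  ((pb30_cont hx j).comp (continuous_id.sub continuous_const)).intervalIntegrable _ _

theorem pb30_per (p : ℕ) (τ : ℤ → ℝ) (x a : ℝ) (n : ℤ) :
    QQ p τ x (a - 2 * Real.pi * n) = QQ p τ x a := by
  unfold QQ
  refine Finset.sum_congr rfl fun j _ => ?_
  congr 1
  funext t
  unfold kj
  rw [show th p j + (t - (a - 2 * Real.pi * n)) = th p j + (t - a) + 2 * Real.pi * n by ring,
    KP_per]

theorem pb30_QQ_abs {p : ℕ} (τ : ℤ → ℝ) {x a B : ℝ}
    (hB : ∀ (j : ℤ) (b : ℝ), |kj p x j b| ≤ B) : |QQ p τ x a| ≤ B * ∑ j ∈ JJ p, |τ j| := by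
  unfold QQ
  rw [Finset.mul_sum]
  refine (Finset.abs_sum_le_sum_abs _ _).trans (Finset.sum_le_sum fun j _ => ?_)
  have h := intervalIntegral.norm_integral_le_of_norm_le_const (a := 0) (b := τ j)
    (f := fun t => kj p x j (t - a)) (C := B) (fun t _ => by
      rw [Real.norm_eq_abs]; exact hB j _)
  rw [Real.norm_eq_abs, sub_zero] at h
  exact h

/-- the difference of two families of shifts -/
theorem pb30_diff {p : ℕ} (τ σ : ℤ → ℝ) {x a L : ℝ} (hx : x ≠ 0)
    (hL : ∀ (j : ℤ) (b b' : ℝ), |kj p x j b - kj p x j b'| ≤ L * |b - b'|) :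
    |(QQ p τ x a - QQ p σ x a) - (QQ p τ x 0 - QQ p σ x 0)| ≤
      L * |a| * ∑ j ∈ JJ p, |τ j - σ j| := by
  have e : (QQ p τ x a - QQ p σ x a) - (QQ p τ x 0 - QQ p σ x 0) =
      ∑ j ∈ JJ p, ∫ t in (σ j)..(τ j), (kj p x j (t - a) - kj p x j (t - 0)) := by
    unfold QQ
    rw [← Finset.sum_sub_distrib, ← Finset.sum_sub_distrib, ← Finset.sum_sub_distrib]
    refine Finset.sum_congr rfl fun j _ => ?_
    rw [intervalIntegral.integral_interval_sub_left (pb30_int hx j a 0 (τ j))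
      (pb30_int hx j a 0 (σ j)), intervalIntegral.integral_interval_sub_left
      (pb30_int hx j 0 0 (τ j)) (pb30_int hx j 0 0 (σ j)),
      intervalIntegral.integral_sub (pb30_int hx j a _ _) (pb30_int hx j 0 _ _)]
  rw [e, Finset.mul_sum]
  refine (Finset.abs_sum_le_sum_abs _ _).trans (Finset.sum_le_sum fun j _ => ?_)
  have h := intervalIntegral.norm_integral_le_of_norm_le_const (a := σ j) (b := τ j)
    (f := fun t => kj p x j (t - a) - kj p x j (t - 0)) (C := L * |a|) (fun t _ => by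
      rw [Real.norm_eq_abs]
      refine (hL j _ _).trans (le_of_eq ?_)
      rw [show t - a - (t - 0) = -a by ring, abs_neg])
  rw [Real.norm_eq_abs] at h
  exact h

/-- the second difference in `a` -/
theorem pb30_second {p : ℕ} (σ : ℤ → ℝ) {x a S : ℝ} (hx : x ≠ 0)
    (hS : ∀ (j : ℤ) (b h : ℝ), |kj p x j (b + h) + kj p x j (b - h) - 2 * kj p x j b| ≤ S * h ^ 2) :
    |QQ p σ x a + QQ p σ x (-a) - 2 * QQ p σ x 0| ≤ S * a ^ 2 * ∑ j ∈ JJ p, |σ j| := by
  have e : QQ p σ x a + QQ p σ x (-a) - 2 * QQ p σ x 0 =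
      ∑ j ∈ JJ p, ∫ t in (0 : ℝ)..(σ j), (kj p x j (t - a) + kj p x j (t - -a) -
        2 * kj p x j (t - 0)) := by
    unfold QQ
    rw [Finset.mul_sum, ← Finset.sum_add_distrib, ← Finset.sum_sub_distrib]
    refine Finset.sum_congr rfl fun j _ => ?_
    rw [intervalIntegral.integral_sub ((pb30_int hx j a _ _).add (pb30_int hx j (-a) _ _))
      ((pb30_int hx j 0 _ _).const_mul 2), intervalIntegral.integral_add (pb30_int hx j a _ _)
      (pb30_int hx j (-a) _ _), intervalIntegral.integral_const_mul]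
  rw [e, Finset.mul_sum]
  refine (Finset.abs_sum_le_sum_abs _ _).trans (Finset.sum_le_sum fun j _ => ?_)
  have h := intervalIntegral.norm_integral_le_of_norm_le_const (a := 0) (b := σ j)
    (f := fun t => kj p x j (t - a) + kj p x j (t - -a) - 2 * kj p x j (t - 0)) (C := S * a ^ 2)
    (fun t _ => by
      rw [Real.norm_eq_abs]
      have h1 := hS j t a
      rw [show t - -a = t + a by ring, sub_zero]
      rwa [add_comm (kj p x j (t - a))])
  rw [Real.norm_eq_abs, sub_zero] at h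
  exact h

theorem pb30_red (a : ℝ) : ∃ n : ℤ, |a - 2 * Real.pi * n| ≤ Real.pi := by
  have hpi := Real.pi_pos
  refine ⟨round (a / (2 * Real.pi)), ?_⟩
  have h := abs_sub_round (a / (2 * Real.pi))
  have e : a - 2 * Real.pi * round (a / (2 * Real.pi)) =
      2 * Real.pi * (a / (2 * Real.pi) - round (a / (2 * Real.pi))) := by
    rw [mul_sub, mul_div_cancel₀ _ (by positivity)]
  rw [e, abs_mul, abs_of_pos (by positivity : (0 : ℝ) < 2 * Real.pi)]
  nlinarith

/-! ### the bracket -/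

theorem pb30_bracket {p : ℕ} (hp : 2 ≤ p) : ∃ C : ℝ, 0 < C ∧ ∀ η : ℝ, 0 < η → η ≤ 1 / 4 →
    ∀ τ : ℤ → ℝ, (∀ j ∈ JJ p, |τ j - tL p η j| ≤ η) → ∀ y a e : ℝ, 1 ≤ y → (e = 1 ∨ e = -1) →
      e * QQ p τ y a - QQ p τ y 0 ≤ C * ww p y * (η * ((1 - e * Real.cos (p * a)) +
        (1 - e * Real.cos (((p : ℝ) - 1) * a))) + (∑ j ∈ JJ p, |τ j - tL p η j|) ^ 2 / η) := by
  obtain ⟨C, hC, hk⟩ := pb30_kj hp
  have hp0 : (0 : ℝ) < p := by exact_mod_cast (by omega : 0 < p)
  have hpi := Real.pi_pos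
  refine ⟨C * ((2 * p + 1) * Real.pi ^ 2 + 12 * p * ((p : ℝ) ^ 2 + 1) + 1), by positivity, ?_⟩
  intro η h0 h1 τ hτ y a e hy he
  have hyx : 1 ≤ |y| := by rw [abs_of_nonneg (by linarith)]; exact hy
  have hy0 : y ≠ 0 := by intro h; rw [h] at hy; linarith
  have hw := ww_pos p y
  set δ := ∑ j ∈ JJ p, |τ j - tL p η j| with hδ
  have hδ0 : 0 ≤ δ := Finset.sum_nonneg fun _ _ => abs_nonneg _
  have hsumL : ∑ j ∈ JJ p, |tL p η j| ≤ 4 * p * η := by
    refine (Finset.sum_le_sum fun j hj => tL_bd hp h0 h1 hj).trans (le_of_eq ?_)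
    rw [Finset.sum_const, card_JJ, nsmul_eq_mul]; push_cast; ring
  have hsumt : ∑ j ∈ JJ p, |τ j| ≤ 6 * p * η := by
    have : ∀ j ∈ JJ p, |τ j| ≤ 3 * η := by
      intro j hj
      have e1 : τ j = (τ j - tL p η j) + tL p η j := by ring
      rw [e1]
      refine (abs_add_le _ _).trans ?_
      have := hτ j hj
      have := tL_bd hp h0 h1 hj
      linarith
    refine (Finset.sum_le_sum this).trans (le_of_eq ?_)
    rw [Finset.sum_const, card_JJ, nsmul_eq_mul]; push_cast; ring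
  have hδη : 0 ≤ δ ^ 2 / η := by positivity
  rcases he with rfl | rfl
  · -- `e = 1`
    obtain ⟨n, hn⟩ := pb30_red a
    set b := a - 2 * Real.pi * n with hb
    have hq : QQ p τ y a = QQ p τ y b := (pb30_per p τ y a n).symm
    have hc1 : Real.cos (p * a) = Real.cos (p * b) := by
      have e1 : (p : ℝ) * b = p * a - ((p : ℤ) * n : ℤ) * (2 * Real.pi) := by
        rw [hb]; push_cast; ring
      rw [e1, Real.cos_sub_int_mul_two_pi]
    have hc2 : Real.cos (((p : ℝ) - 1) * a) = Real.cos (((p : ℝ) - 1) * b) := by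
      have e1 : ((p : ℝ) - 1) * b = ((p : ℝ) - 1) * a - (((p : ℤ) - 1) * n : ℤ) * (2 * Real.pi) := by
        rw [hb]; push_cast; ring
      rw [e1, Real.cos_sub_int_mul_two_pi]
    have ht := pb30_trig_pos p hn
    have hd1 := pb30_diff (p := p) τ (tL p η) (x := y) (a := b) (L := C * ww p y) hy0
      (fun j b b' => (hk y hyx j).2.1 b b')
    have hd2 := pb30_second (p := p) (tL p η) (x := y) (a := b) (S := C * ww p y) hy0
      (fun j b h => (hk y hyx j).2.2 b h)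
    rw [QQ_tL_even hp η y b hy0] at hd2
    rw [← hδ] at hd1
    have h2 := (abs_le.1 hd1).2
    have h3 := (abs_le.1 hd2).2
    have h4 : C * ww p y * b ^ 2 * ∑ j ∈ JJ p, |tL p η j| ≤ C * ww p y * b ^ 2 * (4 * p * η) :=
      mul_le_mul_of_nonneg_left hsumL (by positivity)
    have h5 : C * ww p y * |b| * δ ≤ C * ww p y * ((η * b ^ 2 + δ ^ 2 / η) / 2) := by
      rw [mul_assoc]
      refine mul_le_mul_of_nonneg_left ?_ (by positivity)
      have h6 : 0 ≤ (η * |b| - δ) ^ 2 / η := by positivity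
      have h7 : (η * |b| - δ) ^ 2 / η = η * b ^ 2 + δ ^ 2 / η - 2 * (|b| * δ) := by
        rw [← sq_abs b]; field_simp; ring
      rw [h7] at h6
      linarith
    rw [one_mul, one_mul, one_mul, hq, hc1, hc2]
    set d := (1 - Real.cos (p * b)) + (1 - Real.cos (((p : ℝ) - 1) * b)) with hd
    have hd0 : 0 ≤ d := by
      have := Real.cos_le_one (p * b)
      have := Real.cos_le_one (((p : ℝ) - 1) * b)
      rw [hd]; linarith
    have h8 : QQ p τ y b - QQ p τ y 0 ≤ C * ww p y * ((2 * p + 1) * (η * b ^ 2) + δ ^ 2 / η) := by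
      have : C * ww p y * ((2 * p + 1) * (η * b ^ 2) + δ ^ 2 / η) =
        (C * ww p y * b ^ 2 * (4 * p * η)) / 2 + C * ww p y * ((η * b ^ 2 + δ ^ 2 / η) / 2) +
          C * ww p y * ((η * b ^ 2 + δ ^ 2 / η) / 2) := by ring
      rw [this]
      have h9 : 0 ≤ C * ww p y * ((η * b ^ 2 + δ ^ 2 / η) / 2) := by positivity
      linarith
    refine h8.trans ?_
    have h10 : (2 * p + 1) * (η * b ^ 2) + δ ^ 2 / η ≤
        ((2 * p + 1) * Real.pi ^ 2 + 12 * p * ((p : ℝ) ^ 2 + 1) + 1) * (η * d + δ ^ 2 / η) := by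
      have h11 : (2 * p + 1) * (η * b ^ 2) ≤ (2 * p + 1) * (η * (Real.pi ^ 2 * d)) := by gcongr
      have h12 : 0 ≤ 12 * p * ((p : ℝ) ^ 2 + 1) * (η * d + δ ^ 2 / η) := by positivity
      have h13 : 0 ≤ (2 * p + 1) * Real.pi ^ 2 * (δ ^ 2 / η) := by positivity
      have h14 : 0 ≤ η * d := by positivity
      nlinarith
    calc C * ww p y * ((2 * p + 1) * (η * b ^ 2) + δ ^ 2 / η)
        ≤ C * ww p y * (((2 * p + 1) * Real.pi ^ 2 + 12 * p * ((p : ℝ) ^ 2 + 1) + 1) *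
          (η * d + δ ^ 2 / η)) := mul_le_mul_of_nonneg_left h10 (by positivity)
      _ = _ := by ring
  · -- `e = -1`
    have hB : ∀ (j : ℤ) (b : ℝ), |kj p y j b| ≤ C * ww p y := fun j b => (hk y hyx j).1 b
    have h2 := abs_le.1 (pb30_QQ_abs (p := p) τ (a := a) hB)
    have h3 := abs_le.1 (pb30_QQ_abs (p := p) τ (a := 0) hB)
    have h4 : C * ww p y * ∑ j ∈ JJ p, |τ j| ≤ C * ww p y * (6 * p * η) :=
      mul_le_mul_of_nonneg_left hsumt (by positivity)
    have ht := pb30_trig_neg p a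
    have e1 : (1 - -1 * Real.cos (p * a)) + (1 - -1 * Real.cos (((p : ℝ) - 1) * a)) =
        (1 + Real.cos (p * a)) + (1 + Real.cos (((p : ℝ) - 1) * a)) := by ring
    rw [e1]
    set d := (1 + Real.cos (p * a)) + (1 + Real.cos (((p : ℝ) - 1) * a)) with hd
    have hd0 : 0 ≤ d := by
      have := Real.neg_one_le_cos (p * a)
      have := Real.neg_one_le_cos (((p : ℝ) - 1) * a)
      rw [hd]; linarith
    have h5 : -1 * QQ p τ y a - QQ p τ y 0 ≤ C * ww p y * (12 * p * η) := by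
      have : C * ww p y * (12 * p * η) = C * ww p y * (6 * p * η) + C * ww p y * (6 * p * η) := by
        ring
      rw [this]
      linarith [h2.1, h3.1]
    refine h5.trans ?_
    have h10 : 12 * p * η ≤
        ((2 * p + 1) * Real.pi ^ 2 + 12 * p * ((p : ℝ) ^ 2 + 1) + 1) * (η * d + δ ^ 2 / η) := by
      have h11 : 12 * p * η * 1 ≤ 12 * p * η * (((p : ℝ) ^ 2 + 1) * d) := by gcongr
      have h12 : 0 ≤ ((2 * p + 1) * Real.pi ^ 2 + 1) * (η * d + δ ^ 2 / η) := by positivity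
      have h13 : 0 ≤ 12 * p * ((p : ℝ) ^ 2 + 1) * (δ ^ 2 / η) := by positivity
      nlinarith
    calc C * ww p y * (12 * p * η)
        ≤ C * ww p y * (((2 * p + 1) * Real.pi ^ 2 + 12 * p * ((p : ℝ) ^ 2 + 1) + 1) *
          (η * d + δ ^ 2 / η)) := mul_le_mul_of_nonneg_left h10 (by positivity)
      _ = _ := by ring

/-! ### the growth part -/

/-- one harmonic -/
theorem pb30_term {q qL : ℂ} {s η κ δ θ e : ℝ} (hs : s = 1 ∨ s = -1) (hη : 0 < κ)
    (hq : ‖q - qL‖ ≤ δ) (him : qL.im = 0) (hre : 2 * κ ≤ s * qL.re) (he : e = 1 ∨ e = -1)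
    (hη' : η = κ) :
    κ * (1 - e * Real.cos θ) - δ ^ 2 / (2 * η) ≤
      s * q.re - e * (s * (q * Complex.exp (-((θ : ℂ) * Complex.I))).re) := by
  subst hη'
  have hre1 : (Complex.exp (-((θ : ℂ) * Complex.I))).re = Real.cos θ := by
    rw [show -((θ : ℂ) * Complex.I) = ((-θ : ℝ) : ℂ) * Complex.I by push_cast; ring,
      Complex.exp_ofReal_mul_I_re, Real.cos_neg]
  have him1 : (Complex.exp (-((θ : ℂ) * Complex.I))).im = -Real.sin θ := by
    rw [show -((θ : ℂ) * Complex.I) = ((-θ : ℝ) : ℂ) * Complex.I by push_cast; ring,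
      Complex.exp_ofReal_mul_I_im, Real.sin_neg]
  rw [Complex.mul_re, hre1, him1]
  have hn : (q.re - qL.re) ^ 2 + q.im ^ 2 ≤ δ ^ 2 := by
    have h1 : ‖q - qL‖ ^ 2 = (q.re - qL.re) ^ 2 + q.im ^ 2 := by
      rw [← Complex.normSq_eq_norm_sq, Complex.normSq_apply, Complex.sub_re, Complex.sub_im, him]
      ring
    rw [← h1]
    exact pow_le_pow_left₀ (norm_nonneg _) hq 2
  have he2 : e ^ 2 = 1 := by rcases he with rfl | rfl <;> norm_num
  have hs2 : s ^ 2 = 1 := by rcases hs with rfl | rfl <;> norm_num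
  have hcs := Real.sin_sq_add_cos_sq θ
  set u := s * (q.re - qL.re) with hu
  set v := s * q.im with hv
  set A := 1 - e * Real.cos θ with hA
  set B := e * Real.sin θ with hB
  have hAB : A ^ 2 + B ^ 2 = 2 * A := by
    have : A ^ 2 + B ^ 2 = 1 - 2 * (e * Real.cos θ) + e ^ 2 * (Real.sin θ ^ 2 + Real.cos θ ^ 2) := by
      rw [hA, hB]; ring
    rw [this, he2, hcs, hA]; ring
  have huv : u ^ 2 + v ^ 2 ≤ δ ^ 2 := by
    have : u ^ 2 + v ^ 2 = s ^ 2 * ((q.re - qL.re) ^ 2 + q.im ^ 2) := by rw [hu, hv]; ring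
    rw [this, hs2, one_mul]; exact hn
  have hA0 : 0 ≤ A := by
    have h1 := Real.cos_le_one θ
    have h2 := Real.neg_one_le_cos θ
    rcases he with rfl | rfl <;> · rw [hA]; linarith
  have e1 : s * q.re - e * (s * (q.re * Real.cos θ - q.im * -Real.sin θ)) =
      s * qL.re * A + (u * A - v * B) := by
    rw [hu, hv, hA, hB]; ring
  rw [e1]
  have h2 : 2 * η * A ≤ s * qL.re * A := mul_le_mul_of_nonneg_right hre hA0
  have h3 : -(η * A) - δ ^ 2 / (2 * η) ≤ u * A - v * B := by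
    have h4 : 0 ≤ ((η * A + u) ^ 2 + (η * B - v) ^ 2) / (2 * η) := by positivity
    have h5 : ((η * A + u) ^ 2 + (η * B - v) ^ 2) / (2 * η) =
        η * (A ^ 2 + B ^ 2) / 2 + (u ^ 2 + v ^ 2) / (2 * η) + (u * A - v * B) := by
      field_simp; ring
    rw [h5, hAB] at h4
    have h6 : (u ^ 2 + v ^ 2) / (2 * η) ≤ δ ^ 2 / (2 * η) := by gcongr
    linarith
  linarith

/-- a mass in the near regime, `x < -X` -/
theorem nrb {p : ℕ} (hp : 2 ≤ p) : ∃ c1 C X η1 : ℝ, 0 < c1 ∧ 0 < C ∧ 1 ≤ X ∧ 0 < η1 ∧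
    ∀ η : ℝ, 0 < η → η < η1 → ∀ τ : ℤ → ℝ, (∀ j ∈ JJ p, |τ j - tL p η j| ≤ c1 * η) →
      ∀ x a e : ℝ, x < -X → (e = 1 ∨ e = -1) →
      e * QQ p τ x a - QQ p τ x 0 ≤
        (4 * p : ℝ)⁻¹ * (Real.exp (-(p * |x|)) * (1 - e * Real.cos (p * a))) +
          C * (∑ j ∈ JJ p, |τ j - tL p η j|) ^ 2 / η * ww p x := by
  obtain ⟨C4, hC4, hbr⟩ := pb30_bracket hp
  have hp0 : (0 : ℝ) < p := by exact_mod_cast (by omega : 0 < p)
  have hp2 : (2 : ℝ) ≤ p := by exact_mod_cast hp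
  refine ⟨1 / (p : ℝ) ^ 2, C4 + (p : ℝ) ^ 2, max 1 (p * C4), min (1 / 4) (1 / (4 * p * C4)),
    by positivity, by positivity, le_max_left _ _, by positivity, ?_⟩
  intro η h0 h1 τ hτ x a e hx he
  have hη4 : η ≤ 1 / 4 := (h1.le).trans (min_le_left _ _)
  have hηC : C4 * η ≤ (4 * p : ℝ)⁻¹ := by
    have h2 : η ≤ 1 / (4 * p * C4) := (h1.le).trans (min_le_right _ _)
    have h3 := mul_le_mul_of_nonneg_left h2 hC4.le
    refine h3.trans (le_of_eq ?_)
    field_simp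
  obtain ⟨y, rfl⟩ : ∃ y, x = -y := ⟨-x, by ring⟩
  have hyX : max 1 (p * C4) < y := by linarith
  have hy1 : 1 ≤ y := (le_max_left _ _).trans hyX.le
  have hyC : p * C4 ≤ y := (le_max_right _ _).trans hyX.le
  have hy0 : y ≠ 0 := by intro h; rw [h] at hy1; linarith
  have hc1 : (1 : ℝ) / (p : ℝ) ^ 2 ≤ 1 := by
    rw [div_le_one (by positivity)]; nlinarith
  have hτ1 : ∀ j ∈ JJ p, |τ j - tL p η j| ≤ η := fun j hj =>
    (hτ j hj).trans (mul_le_of_le_one_left h0.le hc1)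
  have hb := hbr η h0 hη4 τ hτ1 y a e hy1 he
  set δ := ∑ j ∈ JJ p, |τ j - tL p η j| with hδ
  have hδ0 : 0 ≤ δ := Finset.sum_nonneg fun _ _ => abs_nonneg _
  have hδ1 : δ ≤ 2 * η / p := by
    have h2 : δ ≤ ∑ j ∈ JJ p, 1 / (p : ℝ) ^ 2 * η := Finset.sum_le_sum hτ
    rw [Finset.sum_const, card_JJ, nsmul_eq_mul] at h2
    refine h2.trans (le_of_eq ?_)
    push_cast
    field_simp
  have hww : ww p (-y) = Real.exp (((p : ℝ) - 1) * y) := by
    rw [ww_of_nonpos p (by linarith)]; congr 1; ring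
  have hwy : ww p y = Real.exp (-(((p : ℝ) + 1) * y)) := ww_of_nonneg p (by linarith)
  -- the growth part
  set κ := η / p with hκ
  have hκ0 : 0 < κ := by positivity
  have hterm : ∀ j ∈ Finset.Icc 1 (p - 1),
      κ * (1 - e * Real.cos (j * a)) - δ ^ 2 / (2 * κ) ≤
        (-1) ^ j * (qn p τ j).re -
          e * ((-1) ^ j * (qn p τ j * Complex.exp (-((j : ℂ) * (a : ℂ) * Complex.I))).re) := by
    intro j hj
    rw [Finset.mem_Icc] at hj
    obtain ⟨him, hre⟩ := qL_ge hp h0 hη4 (j := j) hj.1 (by omega)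
    have h3 := pb30_term (q := qn p τ j) (qL := qn p (tL p η) j) (s := (-1) ^ j) (η := κ) (κ := κ)
      (δ := δ) (θ := j * a) (e := e) (neg_one_pow_eq_or ℝ j) hκ0 (qn_lip p τ (tL p η) j) him
      (by rw [hκ]; refine le_trans (le_of_eq ?_) hre; ring) he rfl
    have e3 : (((j * a : ℝ) : ℂ)) = (j : ℂ) * (a : ℂ) := by push_cast; ring
    rw [e3] at h3
    exact h3
  have hsh : ∀ j ∈ Finset.Icc 1 (p - 1), 0 ≤ 2 * Real.sinh (j * y) / j ∧
      2 * Real.sinh (j * y) / j ≤ Real.exp (((p : ℝ) - 1) * y) := by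
    intro j hj
    rw [Finset.mem_Icc] at hj
    have hj1 : (1 : ℝ) ≤ j := by exact_mod_cast hj.1
    have hj2 : (j : ℝ) ≤ (p : ℝ) - 1 := by
      have : j + 1 ≤ p := by omega
      have : ((j + 1 : ℕ) : ℝ) ≤ p := by exact_mod_cast this
      push_cast at this; linarith
    have hjy : 0 ≤ (j : ℝ) * y := by positivity
    constructor
    · have := Real.sinh_nonneg_iff.2 hjy
      positivity
    · have h4 : 2 * Real.sinh (j * y) ≤ Real.exp (j * y) := by
        rw [Real.sinh_eq]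
        have := Real.exp_pos (-(j * y))
        linarith
      have h5 : Real.exp (j * y) ≤ Real.exp (((p : ℝ) - 1) * y) := by
        refine Real.exp_le_exp.2 (mul_le_mul_of_nonneg_right hj2 (by linarith))
      rw [div_le_iff₀ (by linarith)]
      have := Real.exp_pos (((p : ℝ) - 1) * y)
      nlinarith
  have hd0 : ∀ θ : ℝ, 0 ≤ 1 - e * Real.cos θ := by
    intro θ
    have h1 := Real.cos_le_one θ
    have h2 := Real.neg_one_le_cos θ
    rcases he with rfl | rfl <;> linarith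
  have hsum : 2 * y * (κ * (1 - e * Real.cos (((p : ℝ) - 1) * a))) -
      (p : ℝ) * (Real.exp (((p : ℝ) - 1) * y) * (δ ^ 2 / (2 * κ))) ≤
      ∑ j ∈ Finset.Icc 1 (p - 1), 2 * Real.sinh (j * y) / j * ((-1) ^ j * (qn p τ j).re -
          e * ((-1) ^ j * (qn p τ j * Complex.exp (-((j : ℂ) * (a : ℂ) * Complex.I))).re)) := by
    have h2 : ∑ j ∈ Finset.Icc 1 (p - 1), (2 * Real.sinh (j * y) / j *
        (κ * (1 - e * Real.cos (j * a))) - Real.exp (((p : ℝ) - 1) * y) * (δ ^ 2 / (2 * κ))) ≤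
      ∑ j ∈ Finset.Icc 1 (p - 1), 2 * Real.sinh (j * y) / j * ((-1) ^ j * (qn p τ j).re -
          e * ((-1) ^ j * (qn p τ j * Complex.exp (-((j : ℂ) * (a : ℂ) * Complex.I))).re)) := by
      refine Finset.sum_le_sum fun j hj => ?_
      have h3 := mul_le_mul_of_nonneg_left (hterm j hj) (hsh j hj).1
      have h4 : 2 * Real.sinh (j * y) / j * (δ ^ 2 / (2 * κ)) ≤
          Real.exp (((p : ℝ) - 1) * y) * (δ ^ 2 / (2 * κ)) :=
        mul_le_mul_of_nonneg_right (hsh j hj).2 (by positivity)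
      rw [mul_sub] at h3
      linarith
    refine le_trans ?_ h2
    rw [Finset.sum_sub_distrib, Finset.sum_const, nsmul_eq_mul]
    have hmem : p - 1 ∈ Finset.Icc 1 (p - 1) := Finset.mem_Icc.2 ⟨by omega, le_rfl⟩
    have h5 : 2 * Real.sinh (((p - 1 : ℕ) : ℝ) * y) / ((p - 1 : ℕ) : ℝ) *
        (κ * (1 - e * Real.cos (((p - 1 : ℕ) : ℝ) * a))) ≤
        ∑ j ∈ Finset.Icc 1 (p - 1), 2 * Real.sinh (j * y) / j *
          (κ * (1 - e * Real.cos (j * a))) := by
      refine Finset.single_le_sum (f := fun j : ℕ => 2 * Real.sinh (j * y) / j *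
          (κ * (1 - e * Real.cos (j * a)))) (fun j hj => ?_) hmem
      exact mul_nonneg (hsh j hj).1 (mul_nonneg hκ0.le (hd0 _))
    have hpc : ((p - 1 : ℕ) : ℝ) = (p : ℝ) - 1 := by
      rw [Nat.cast_sub (by omega)]; simp
    rw [hpc] at h5
    have h6 : 2 * y ≤ 2 * Real.sinh (((p : ℝ) - 1) * y) / ((p : ℝ) - 1) := by
      rw [le_div_iff₀ (by linarith)]
      have := Real.self_le_sinh_iff.2 (show 0 ≤ ((p : ℝ) - 1) * y by nlinarith)
      nlinarith
    have h7 := mul_le_mul_of_nonneg_right h6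
      (mul_nonneg hκ0.le (hd0 (((p : ℝ) - 1) * a)))
    have h8 : ((Finset.Icc 1 (p - 1)).card : ℝ) *
        (Real.exp (((p : ℝ) - 1) * y) * (δ ^ 2 / (2 * κ))) ≤
        (p : ℝ) * (Real.exp (((p : ℝ) - 1) * y) * (δ ^ 2 / (2 * κ))) := by
      refine mul_le_mul_of_nonneg_right ?_ (by positivity)
      rw [Nat.card_Icc]
      exact_mod_cast (by omega : p - 1 + 1 - 1 ≤ p)
    linarith
  -- the constant harmonic
  have hq0 : 0 ≤ y * (qn p τ 0).re * (1 - e) := by
    obtain ⟨him, hre⟩ := q0_ge hp h0 hη4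
    have h2 := (Complex.abs_re_le_norm _).trans (qn_lip p τ (tL p η) 0)
    rw [Complex.sub_re] at h2
    have h3 := (abs_le.1 h2).1
    have h4 : 0 ≤ (qn p τ 0).re := by linarith
    have h5 : 0 ≤ 1 - e := by rcases he with rfl | rfl <;> norm_num
    positivity
  -- assembly
  have hr1 := QQ_refl hp τ hy0 a
  have hr0 := QQ_refl hp τ hy0 0
  have hmain : e * QQ p τ (-y) a - QQ p τ (-y) 0 =
      (e * QQ p τ y a - QQ p τ y 0) - y * (qn p τ 0).re * (1 - e) -
        ∑ j ∈ Finset.Icc 1 (p - 1), 2 * Real.sinh (j * y) / j * ((-1) ^ j * (qn p τ j).re -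
          e * ((-1) ^ j * (qn p τ j * Complex.exp (-((j : ℂ) * (a : ℂ) * Complex.I))).re)) := by
    have e0 : ∑ j ∈ Finset.Icc 1 (p - 1), 2 * Real.sinh (j * y) / j *
        ((-1) ^ j * (qn p τ j * Complex.exp (-((j : ℂ) * ((0 : ℝ) : ℂ) * Complex.I))).re) =
        ∑ j ∈ Finset.Icc 1 (p - 1), 2 * Real.sinh (j * y) / j * ((-1) ^ j * (qn p τ j).re) := by
      refine Finset.sum_congr rfl fun j _ => ?_
      simp
    rw [e0] at hr0
    have e1 : ∑ j ∈ Finset.Icc 1 (p - 1), 2 * Real.sinh (j * y) / j * ((-1) ^ j * (qn p τ j).re -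
          e * ((-1) ^ j * (qn p τ j * Complex.exp (-((j : ℂ) * (a : ℂ) * Complex.I))).re)) =
        ∑ j ∈ Finset.Icc 1 (p - 1), 2 * Real.sinh (j * y) / j * ((-1) ^ j * (qn p τ j).re) -
        e * ∑ j ∈ Finset.Icc 1 (p - 1), 2 * Real.sinh (j * y) / j *
          ((-1) ^ j * (qn p τ j * Complex.exp (-((j : ℂ) * (a : ℂ) * Complex.I))).re) := by
      rw [Finset.mul_sum, ← Finset.sum_sub_distrib]
      refine Finset.sum_congr rfl fun j _ => ?_
      ring
    rw [e1, hr1, hr0]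
    ring
  rw [hmain, hww, abs_neg, abs_of_nonneg (by linarith : 0 ≤ y)]
  rw [hwy] at hb
  set dp := 1 - e * Real.cos (p * a) with hdp
  set dq := 1 - e * Real.cos (((p : ℝ) - 1) * a) with hdq
  have hdp0 : 0 ≤ dp := hd0 _
  have hdq0 : 0 ≤ dq := hd0 _
  set E1 := Real.exp (-(((p : ℝ) + 1) * y)) with hE1
  set E2 := Real.exp (((p : ℝ) - 1) * y) with hE2
  have hE1p : 0 < E1 := Real.exp_pos _
  have hE11 : E1 ≤ 1 := by
    rw [hE1, Real.exp_le_one_iff]
    nlinarith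
  have hE21 : 1 ≤ E2 := by
    rw [hE2]; refine Real.one_le_exp ?_
    nlinarith
  have hEp : E1 ≤ Real.exp (-(p * y)) := by
    rw [hE1]; refine Real.exp_le_exp.2 ?_
    nlinarith
  have t1 : C4 * E1 * (η * dp) ≤ (4 * p : ℝ)⁻¹ * (Real.exp (-(p * y)) * dp) := by
    calc C4 * E1 * (η * dp) = (C4 * η) * (E1 * dp) := by ring
      _ ≤ (4 * p : ℝ)⁻¹ * (Real.exp (-(p * y)) * dp) := by gcongr
  have t2 : C4 * E1 * (η * dq) ≤ 2 * y * (κ * dq) := by
    have h2 : C4 * E1 ≤ 2 * y / p := by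
      rw [le_div_iff₀ hp0]
      nlinarith
    calc C4 * E1 * (η * dq) ≤ 2 * y / p * (η * dq) := by gcongr
      _ = 2 * y * (κ * dq) := by rw [hκ]; ring
  have hδη : 0 ≤ δ ^ 2 / η := by positivity
  have t3 : C4 * E1 * (δ ^ 2 / η) ≤ C4 * (δ ^ 2 / η) * E2 := by
    have : E1 ≤ E2 := hE11.trans hE21
    calc C4 * E1 * (δ ^ 2 / η) ≤ C4 * E2 * (δ ^ 2 / η) := by gcongr
      _ = _ := by ring
  have t4 : (p : ℝ) * (E2 * (δ ^ 2 / (2 * κ))) ≤ (p : ℝ) ^ 2 * (δ ^ 2 / η) * E2 := by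
    have h2 : δ ^ 2 / (2 * κ) = (p : ℝ) / 2 * (δ ^ 2 / η) := by rw [hκ]; field_simp
    rw [h2]
    have h3 : 0 ≤ (p : ℝ) ^ 2 * (δ ^ 2 / η) * E2 := by positivity
    nlinarith
  have hb' : C4 * E1 * (η * (dp + dq) + δ ^ 2 / η) =
      C4 * E1 * (η * dp) + C4 * E1 * (η * dq) + C4 * E1 * (δ ^ 2 / η) := by ring
  rw [hb'] at hb
  have hfin : (C4 + (p : ℝ) ^ 2) * δ ^ 2 / η * E2 =
      C4 * (δ ^ 2 / η) * E2 + (p : ℝ) ^ 2 * (δ ^ 2 / η) * E2 := by ring
  rw [hfin]
  linarith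

end Pool.Agent.PfB
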