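import Pool.Agent.PfB.Ker
import Pool.Agent.PfB.KBd
import Pool.Agent.PfB.Qn
import Pool.Agent.PfB.Conf
import Pool.Agent.PfB.Mass
import Pool.Agent.PfB.WEq

/-! MP_f2c8f8_an, project PfB, row PB-28 -/

set_option autoImplicit false

open MeasureTheory Filter
open scoped ComplexConjugate Topology

noncomputable section

namespace Pool.Agent.PfB

/-- second derivative of `RR` -/
def RRd (p : ℕ) (τ : ℤ → ℝ) (x : ℝ) : ℝ :=
  ∑ j ∈ JJ p, ∫ t in (0 : ℝ)..τ j, sg p * sj j * -(FB p x (th p j + t)).re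

/-! ### measurability -/

theorem pb28_wz_cont : Continuous (fun q : ℝ × ℝ => wz q.1 q.2) := by
  unfold wz
  fun_prop

theorem pb28_FB_meas (p : ℕ) : Measurable (fun q : ℝ × ℝ => (FB p q.1 q.2).re) := by
  have h : Measurable (fun q : ℝ × ℝ => wz q.1 q.2) := pb28_wz_cont.measurable
  have h1 : Measurable (fun q : ℝ × ℝ => (1 : ℂ) - wz q.1 q.2) := measurable_const.sub h
  have h2 : Measurable (fun q : ℝ × ℝ => FB p q.1 q.2) := by
    unfold FB
    exact (((measurable_const.mul (h.pow_const p)).mul h1).add (h.pow_const (p + 1))).div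
      (h1.pow_const 2)
  exact Complex.measurable_re.comp h2

theorem pb28_g_meas (p : ℕ) (a c : ℝ) :
    Measurable (fun q : ℝ × ℝ => a * -(FB p q.1 (c + q.2)).re) := by
  have h : Measurable (fun q : ℝ × ℝ => ((q.1, c + q.2) : ℝ × ℝ)) := by fun_prop
  have h1 := (pb28_FB_meas p).comp h
  have h2 := h1.neg
  have h3 := h2.const_mul a
  exact h3

theorem pb28_meas1 (p : ℕ) (b : ℝ) : Measurable (fun y : ℝ => -(FB p y b).re) := by
  have h : Measurable (fun y : ℝ => ((y, b) : ℝ × ℝ)) := measurable_id.prodMk measurable_const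
  exact ((pb28_FB_meas p).comp h).neg

theorem pb28_meas2 (p : ℕ) (a c τ : ℝ) :
    Measurable (fun x : ℝ => ∫ t in (0 : ℝ)..τ, a * -(FB p x (c + t)).re) := by
  simp only [intervalIntegral.intervalIntegral_eq_integral_uIoc, smul_eq_mul]
  have h1 := ((pb28_g_meas p a c).stronglyMeasurable.integral_prod_right'
    (ν := volume.restrict (Set.uIoc 0 τ))).measurable
  exact h1.const_mul _

theorem RRd_meas (p : ℕ) (τ : ℤ → ℝ) (hτ : ∀ j ∈ JJ p, |τ j| ≤ Real.pi / (8 * p)) :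
    Measurable (RRd p τ) := by
  unfold RRd
  exact Finset.measurable_fun_sum _ fun j _ => pb28_meas2 p (sg p * sj j) (th p j) (τ j)

/-! ### bounds -/

theorem pb28_abs (p : ℕ) (j : ℤ) : |sg p * sj j| = 1 := by
  unfold sg sj
  rw [abs_mul, abs_pow, abs_zpow, abs_neg, abs_one, one_pow, one_zpow, one_mul]

theorem pb28_sin {p : ℕ} (hp : 2 ≤ p) : 0 < Real.sin (Real.pi / (8 * p)) := by
  have hp' : (2 : ℝ) ≤ p := by exact_mod_cast hp
  apply Real.sin_pos_of_pos_of_lt_pi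
  · positivity
  · rw [div_lt_iff₀ (by positivity)]
    nlinarith [Real.pi_pos]

theorem pb28_uIoc {s t : ℝ} (h : t ∈ Set.uIoc 0 s) : |t| ≤ |s| := by
  rcases Set.mem_uIoc.1 h with ⟨h1, h2⟩ | ⟨h1, h2⟩
  · rw [abs_of_pos h1, abs_of_pos (h1.trans_le h2)]
    exact h2
  · rw [abs_of_nonpos h2, abs_of_neg (h1.trans_le h2)]
    linarith

theorem pb28_grid {p : ℕ} (hp : 2 ≤ p) {j : ℤ} {s t : ℝ} (hs : |s| ≤ Real.pi / (8 * p))
    (h : t ∈ Set.uIoc 0 s) :
    Real.sin (Real.pi / (8 * p)) ≤ |Real.cos ((th p j + t) / 2)| := by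
  have hp' : (2 : ℝ) ≤ p := by exact_mod_cast hp
  apply cos_grid (by omega)
  refine (pb28_uIoc h).trans (hs.trans ?_)
  apply div_le_div_of_nonneg_left Real.pi_pos.le (by positivity)
  linarith

theorem pb28_int_bd {C v a s : ℝ} {g : ℝ → ℝ} (ha : |a| = 1)
    (h : ∀ t ∈ Set.uIoc 0 s, |g t| ≤ C * v) :
    |∫ t in (0 : ℝ)..s, a * -(g t)| ≤ C * |s| * v := by
  have h1 : ‖∫ t in (0 : ℝ)..s, a * -(g t)‖ ≤ C * v * |s - 0| := by
    apply intervalIntegral.norm_integral_le_of_norm_le_const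
    intro t ht
    rw [Real.norm_eq_abs, abs_mul, ha, one_mul, abs_neg]
    exact h t ht
  rw [Real.norm_eq_abs, sub_zero] at h1
  calc _ ≤ _ := h1
    _ = _ := by ring

theorem RRd_bd {p : ℕ} (hp : 2 ≤ p) : ∃ C : ℝ, 0 < C ∧ ∀ τ : ℤ → ℝ,
    (∀ j ∈ JJ p, |τ j| ≤ Real.pi / (8 * p)) → ∀ x,
      |RRd p τ x| ≤ C * (∑ j ∈ JJ p, |τ j|) * vv p x := by
  obtain ⟨C, hC, h⟩ := FB_bd hp (pb28_sin hp)
  refine ⟨C, hC, fun τ hτ x => ?_⟩
  unfold RRd
  rw [Finset.mul_sum, Finset.sum_mul]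
  refine (Finset.abs_sum_le_sum_abs _ _).trans (Finset.sum_le_sum fun j hj => ?_)
  refine pb28_int_bd (pb28_abs p j) fun t ht => ?_
  exact (Complex.abs_re_le_norm _).trans (h x (th p j + t) (Or.inr (pb28_grid hp (hτ j hj) ht))).1

theorem pb28_vv_nonneg (p : ℕ) (x : ℝ) : 0 ≤ vv p x := by
  unfold vv
  exact le_min (Real.exp_pos _).le (Real.exp_pos _).le

theorem pb28_vv_meas (p : ℕ) : Measurable (vv p) := by
  unfold vv
  fun_prop

/-! ### the transform of one kernel -/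

theorem pb28_tend {p : ℕ} (hp : 2 ≤ p) {C : ℝ} (hC : 0 < C) {g k : ℝ → ℝ} (x : ℝ)
    (hg : ∀ y, |g y| ≤ C * vv p y) (hk : ∀ y, |k y| ≤ C * vv p y) :
    Tendsto (fun y => (y - x) * g y - k y) atTop (𝓝 0) := by
  have hp' : (2 : ℝ) ≤ p := by exact_mod_cast hp
  have h0 : Tendsto (fun y : ℝ => C * (y ^ 1 * Real.exp (-y)) +
      C * (|x| + 1) * (y ^ 0 * Real.exp (-y))) atTop (𝓝 (C * 0 + C * (|x| + 1) * 0)) :=
    ((Real.tendsto_pow_mul_exp_neg_atTop_nhds_zero 1).const_mul C).add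
      ((Real.tendsto_pow_mul_exp_neg_atTop_nhds_zero 0).const_mul _)
  rw [mul_zero, mul_zero, add_zero] at h0
  apply squeeze_zero_norm' _ h0
  filter_upwards [eventually_ge_atTop (0 : ℝ)] with y hy
  have hv : vv p y ≤ Real.exp (-y) := by
    unfold vv
    refine (min_le_left _ _).trans (Real.exp_le_exp.2 ?_)
    nlinarith
  have h1 := (hg y).trans (mul_le_mul_of_nonneg_left hv hC.le)
  have h2 := (hk y).trans (mul_le_mul_of_nonneg_left hv hC.le)
  have h3 : |y - x| ≤ y + |x| := by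
    rw [abs_le]
    constructor
    · have := le_abs_self x
      linarith [neg_abs_le x, abs_nonneg x]
    · linarith [neg_abs_le x]
  rw [Real.norm_eq_abs]
  calc |(y - x) * g y - k y| ≤ |(y - x) * g y| + |k y| := abs_sub _ _
    _ = |y - x| * |g y| + |k y| := by rw [abs_mul]
    _ ≤ (y + |x|) * (C * Real.exp (-y)) + C * Real.exp (-y) := by
        gcongr
    _ = _ := by ring

theorem pb28_KK_T {p : ℕ} (hp : 2 ≤ p) {b c : ℝ} (hc : 0 < c) (hb : c ≤ |Real.cos (b / 2)|)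
    (x : ℝ) : ∫ y in Set.Ioi x, (y - x) * -(FB p y b).re = KK p x b := by
  obtain ⟨C, hC, h⟩ := FB_bd hp hc
  have hcos : Real.cos (b / 2) ≠ 0 := by
    intro h0
    rw [h0, abs_zero] at hb
    linarith
  have hw : ∀ y, wz y b ≠ 1 := fun y => wz_ne_one (Or.inr hcos)
  have hd : ∀ y ∈ Set.Ici x, HasDerivAt (fun y => (y - x) * (FA p y b).re - KK p y b)
      ((y - x) * -(FB p y b).re) y := by
    intro y _
    have h1 := (((hasDerivAt_id y).sub_const x).mul (FA_x (by omega : 1 ≤ p) (hw y))).sub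
      (KK_x (by omega : 1 ≤ p) (hw y))
    refine h1.congr_deriv ?_
    simp only [id]
    ring
  have hi : IntegrableOn (fun y : ℝ => (y - x) * -(FB p y b).re) (Set.Ioi x) :=
    Tt_int hp (pb28_meas1 p b) (B := C) (fun y => by
      rw [abs_neg]
      exact (Complex.abs_re_le_norm _).trans (h y b (Or.inr hb)).1) x
  have ht : Tendsto (fun y => (y - x) * (FA p y b).re - KK p y b) atTop (𝓝 0) :=
    pb28_tend hp hC x (fun y => (Complex.abs_re_le_norm _).trans (h y b (Or.inr hb)).2.1)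
      (fun y => (h y b (Or.inr hb)).2.2)
  rw [integral_Ioi_of_hasDerivAt_of_tendsto' hd hi ht]
  ring

/-! ### Fubini -/

theorem pb28_swap {x s : ℝ} {G : ℝ → ℝ → ℝ} {v : ℝ → ℝ} (hG : Measurable (Function.uncurry G))
    (hv : IntegrableOn (fun y : ℝ => (y - x) * v y) (Set.Ioi x))
    (hb : ∀ y, ∀ t ∈ Set.uIoc 0 s, |G y t| ≤ v y) :
    ∫ y in Set.Ioi x, (y - x) * ∫ t in (0 : ℝ)..s, G y t =
      ∫ t in (0 : ℝ)..s, ∫ y in Set.Ioi x, (y - x) * G y t := by
  simp only [intervalIntegral.intervalIntegral_eq_integral_uIoc, smul_eq_mul]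
  haveI : IsFiniteMeasure (volume.restrict (Set.uIoc (0 : ℝ) s)) :=
    ⟨by rw [Measure.restrict_apply_univ, Set.uIoc, Real.volume_Ioc]; exact ENNReal.ofReal_lt_top⟩
  have hI : Integrable (Function.uncurry fun y t => (y - x) * G y t)
      ((volume.restrict (Set.Ioi x)).prod (volume.restrict (Set.uIoc 0 s))) := by
    have h1 : Integrable (fun z : ℝ × ℝ => ((z.1 - x) * v z.1) * (1 : ℝ))
        ((volume.restrict (Set.Ioi x)).prod (volume.restrict (Set.uIoc 0 s))) := by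
      apply Integrable.mul_prod (f := fun y : ℝ => (y - x) * v y) (g := fun _ : ℝ => (1 : ℝ)) hv
      exact integrable_const _
    refine h1.mono' ?_ ?_
    · exact ((measurable_fst.sub_const x).mul hG).aestronglyMeasurable
    · rw [Measure.prod_restrict]
      refine (ae_restrict_iff' (measurableSet_Ioi.prod measurableSet_uIoc)).2 (ae_of_all _ ?_)
      rintro ⟨y, t⟩ ⟨hy, ht⟩
      have hy' : 0 < y - x := sub_pos.2 hy
      simp only [Function.uncurry, Real.norm_eq_abs, mul_one]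
      rw [abs_mul, abs_of_pos hy']
      exact mul_le_mul_of_nonneg_left (hb y t ht) hy'.le
  have h2 := integral_integral_swap hI
  have h3 : ∀ y, (y - x) * ((if (0 : ℝ) ≤ s then (1 : ℝ) else -1) * ∫ t in Set.uIoc 0 s, G y t) =
      (if (0 : ℝ) ≤ s then (1 : ℝ) else -1) * ∫ t in Set.uIoc 0 s, (y - x) * G y t := by
    intro y
    rw [integral_const_mul]
    ring
  simp only [h3]
  rw [integral_const_mul, h2]

theorem pb28_j {p : ℕ} (hp : 2 ≤ p) {C : ℝ} (hC : 0 < C) {j : ℤ}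
    (h : ∀ x b : ℝ, (1 ≤ |x| ∨ Real.sin (Real.pi / (8 * p)) ≤ |Real.cos (b / 2)|) →
      ‖FB p x b‖ ≤ C * vv p x) {s : ℝ} (hs : |s| ≤ Real.pi / (8 * p)) (x : ℝ) :
    ∫ y in Set.Ioi x, (y - x) * ∫ t in (0 : ℝ)..s, sg p * sj j * -(FB p y (th p j + t)).re =
      ∫ t in (0 : ℝ)..s, sg p * sj j * KK p x (th p j + t) := by
  have hv : IntegrableOn (fun y : ℝ => (y - x) * (C * vv p y)) (Set.Ioi x) :=
    Tt_int hp ((pb28_vv_meas p).const_mul C) (B := C) (fun y => by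
      rw [abs_of_nonneg (mul_nonneg hC.le (pb28_vv_nonneg p y))]) x
  rw [pb28_swap (G := fun y t => sg p * sj j * -(FB p y (th p j + t)).re)
    (v := fun y => C * vv p y) (pb28_g_meas p _ _) hv]
  · apply intervalIntegral.integral_congr_ae
    refine ae_of_all _ fun t ht => ?_
    have h1 := pb28_KK_T hp (pb28_sin hp) (pb28_grid hp (j := j) hs ht) x
    have h2 : ∀ y, (y - x) * (sg p * sj j * -(FB p y (th p j + t)).re) =
        sg p * sj j * ((y - x) * -(FB p y (th p j + t)).re) := fun y => by ring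
    simp only [h2]
    rw [integral_const_mul, h1]
  · intro y t ht
    rw [abs_mul, pb28_abs, one_mul, abs_neg]
    exact (Complex.abs_re_le_norm _).trans (h y (th p j + t) (Or.inr (pb28_grid hp hs ht)))

theorem RR_T {p : ℕ} (hp : 2 ≤ p) {τ : ℤ → ℝ} (hτ : ∀ j ∈ JJ p, |τ j| ≤ Real.pi / (8 * p)) (x : ℝ) :
    RR p τ x = Tt (RRd p τ) x := by
  obtain ⟨C, hC, h⟩ := FB_bd hp (pb28_sin hp)
  unfold RR Tt RRd
  simp only [Finset.mul_sum]
  rw [integral_finset_sum]
  · refine Finset.sum_congr rfl fun j hj => ?_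
    rw [pb28_j hp hC (fun x b hb => (h x b hb).1) (hτ j hj) x]
  · intro j hj
    refine Tt_int hp (pb28_meas2 p (sg p * sj j) (th p j) (τ j)) (B := C * |τ j|) (fun y => ?_) x
    refine pb28_int_bd (pb28_abs p j) fun t ht => ?_
    exact (Complex.abs_re_le_norm _).trans
      (h y (th p j + t) (Or.inr (pb28_grid hp (hτ j hj) ht))).1

/-! ### reflection -/

theorem pb28_FA_refl {p : ℕ} (hp : 1 ≤ p) {b : ℝ} (hb : Real.cos (b / 2) ≠ 0) (y : ℝ) :
    -(FA p (-y) b).re = (FA p y b).re + 1 +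
      ∑ j ∈ Finset.Icc 1 (p - 1), (-1 : ℝ) ^ j * (2 * Real.cosh (j * y)) * Real.cos (j * b) := by
  have h1 : HasDerivAt (fun y => KK p (-y) b) (-(FA p (-y) b).re) y := by
    have h := HasDerivAt.comp y (h₂ := fun x => KK p x b)
      (KK_x hp (wz_ne_one (x := -y) (Or.inr hb))) (hasDerivAt_neg y)
    exact h.congr_deriv (by ring)
  have h2 : HasDerivAt (fun y => KK p y b + y +
      ∑ j ∈ Finset.Icc 1 (p - 1), (-1 : ℝ) ^ j * (2 * Real.sinh (j * y) / j) * Real.cos (j * b))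
      ((FA p y b).re + 1 +
      ∑ j ∈ Finset.Icc 1 (p - 1), (-1 : ℝ) ^ j * (2 * Real.cosh (j * y)) * Real.cos (j * b)) y := by
    refine ((KK_x hp (wz_ne_one (x := y) (Or.inr hb))).add (hasDerivAt_id y)).add ?_
    refine HasDerivAt.fun_sum fun j hj => ?_
    have hj0 : (j : ℝ) ≠ 0 := by
      have := (Finset.mem_Icc.1 hj).1
      positivity
    have h3 : HasDerivAt (fun y : ℝ => Real.sinh (j * y)) (Real.cosh (j * y) * j) y := by
      have h4 : HasDerivAt (fun y : ℝ => (j : ℝ) * y) (j : ℝ) y := by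
        simpa using (hasDerivAt_id y).const_mul (j : ℝ)
      exact h4.sinh
    have h5 := (((h3.const_mul 2).div_const (j : ℝ)).const_mul ((-1 : ℝ) ^ j)).mul_const
      (Real.cos (j * b))
    refine h5.congr_deriv ?_
    field_simp
  have h6 : (fun y => KK p (-y) b) = fun y => KK p y b + y +
      ∑ j ∈ Finset.Icc 1 (p - 1), (-1 : ℝ) ^ j * (2 * Real.sinh (j * y) / j) *
        Real.cos (j * b) := by
    funext y
    exact KK_refl p y b
  rw [h6] at h1
  exact h1.unique h2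

theorem pb28_FB_refl {p : ℕ} (hp : 1 ≤ p) {b : ℝ} (hb : Real.cos (b / 2) ≠ 0) (y : ℝ) :
    -(FB p (-y) b).re = -(FB p y b).re +
      ∑ j ∈ Finset.Icc 1 (p - 1), (-1 : ℝ) ^ j * (2 * j * Real.sinh (j * y)) * Real.cos (j * b) := by
  have h1 : HasDerivAt (fun y => -(FA p (-y) b).re) (-(FB p (-y) b).re) y := by
    have h := (HasDerivAt.comp y (h₂ := fun x => (FA p x b).re)
      (FA_x hp (wz_ne_one (x := -y) (Or.inr hb))) (hasDerivAt_neg y)).neg
    exact h.congr_deriv (by ring)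
  have h2 : HasDerivAt (fun y => (FA p y b).re + 1 +
      ∑ j ∈ Finset.Icc 1 (p - 1), (-1 : ℝ) ^ j * (2 * Real.cosh (j * y)) * Real.cos (j * b))
      (-(FB p y b).re +
      ∑ j ∈ Finset.Icc 1 (p - 1), (-1 : ℝ) ^ j * (2 * j * Real.sinh (j * y)) *
        Real.cos (j * b)) y := by
    refine ((FA_x hp (wz_ne_one (x := y) (Or.inr hb))).add_const 1).add ?_
    refine HasDerivAt.fun_sum fun j hj => ?_
    have h3 : HasDerivAt (fun y : ℝ => Real.cosh (j * y)) (Real.sinh (j * y) * j) y := by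
      have h4 : HasDerivAt (fun y : ℝ => (j : ℝ) * y) (j : ℝ) y := by
        simpa using (hasDerivAt_id y).const_mul (j : ℝ)
      exact h4.cosh
    have h5 := ((h3.const_mul 2).const_mul ((-1 : ℝ) ^ j)).mul_const (Real.cos (j * b))
    refine h5.congr_deriv ?_
    ring
  have h6 : (fun y => -(FA p (-y) b).re) = fun y => (FA p y b).re + 1 +
      ∑ j ∈ Finset.Icc 1 (p - 1), (-1 : ℝ) ^ j * (2 * Real.cosh (j * y)) * Real.cos (j * b) := by
    funext y
    exact pb28_FA_refl hp hb y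
  rw [h6] at h1
  exact h1.unique h2

theorem pb28_qn_re (p : ℕ) (τ : ℤ → ℝ) (k : ℕ) :
    (qn p τ k).re = ∑ i ∈ JJ p, sg p * sj i * ∫ t in (0 : ℝ)..τ i, Real.cos (k * (th p i + t)) := by
  unfold qn
  rw [Complex.re_sum]
  refine Finset.sum_congr rfl fun i _ => ?_
  rw [Complex.re_ofReal_mul]
  congr 1
  have hc : IntervalIntegrable
      (fun t : ℝ => Complex.exp ((k : ℂ) * ((th p i + t : ℝ) : ℂ) * Complex.I)) volume 0 (τ i) := by
    apply Continuous.intervalIntegrable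
    fun_prop
  have h1 := Complex.reCLM.intervalIntegral_comp_comm hc
  simp only [Complex.reCLM_apply] at h1
  rw [← h1]
  refine intervalIntegral.integral_congr fun t _ => ?_
  have h2 : ((k : ℂ) * ((th p i + t : ℝ) : ℂ) * Complex.I) =
      (((k : ℝ) * (th p i + t) : ℝ) : ℂ) * Complex.I := by
    push_cast
    ring
  simp only [h2]
  exact Complex.exp_ofReal_mul_I_re _

theorem pb28_RRd_refl {p : ℕ} (hp : 2 ≤ p) {τ : ℤ → ℝ}
    (hτ : ∀ j ∈ JJ p, |τ j| ≤ Real.pi / (8 * p)) (y : ℝ) :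
    RRd p τ (-y) = RRd p τ y +
      ∑ k ∈ Finset.Icc 1 (p - 1), 2 * k * Real.sinh (k * y) * ((-1) ^ k * (qn p τ k).re) := by
  obtain ⟨C, hC, h⟩ := FB_bd hp (pb28_sin hp)
  have hint : ∀ j ∈ JJ p, ∀ x : ℝ, IntervalIntegrable
      (fun t : ℝ => sg p * sj j * -(FB p x (th p j + t)).re) volume 0 (τ j) := by
    intro j hj x
    rw [intervalIntegrable_iff]
    refine Measure.integrableOn_of_bounded (M := C * vv p x) (by simp) ?_ ?_
    · have hm : Measurable (fun t : ℝ => ((x, t) : ℝ × ℝ)) :=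
        measurable_const.prodMk measurable_id
      exact ((pb28_g_meas p (sg p * sj j) (th p j)).comp hm).aestronglyMeasurable
    · refine (ae_restrict_iff' measurableSet_uIoc).2 (ae_of_all _ fun t ht => ?_)
      rw [Real.norm_eq_abs, abs_mul, pb28_abs, one_mul, abs_neg]
      exact (Complex.abs_re_le_norm _).trans
        (h x (th p j + t) (Or.inr (pb28_grid hp (hτ j hj) ht))).1
  have hj : ∀ j ∈ JJ p, ∫ t in (0 : ℝ)..τ j, sg p * sj j * -(FB p (-y) (th p j + t)).re =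
      (∫ t in (0 : ℝ)..τ j, sg p * sj j * -(FB p y (th p j + t)).re) +
        ∑ k ∈ Finset.Icc 1 (p - 1), 2 * k * Real.sinh (k * y) * ((-1) ^ k *
          (sg p * sj j * ∫ t in (0 : ℝ)..τ j, Real.cos (k * (th p j + t)))) := by
    intro j hj
    have hcc : ∀ k : ℕ, IntervalIntegrable
        (fun t : ℝ => (2 * k * Real.sinh (k * y) * (-1) ^ k * (sg p * sj j)) *
          Real.cos (k * (th p j + t))) volume 0 (τ j) := fun k => by
      apply Continuous.intervalIntegrable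
      fun_prop
    have h1 : ∫ t in (0 : ℝ)..τ j, sg p * sj j * -(FB p (-y) (th p j + t)).re =
        ∫ t in (0 : ℝ)..τ j, (sg p * sj j * -(FB p y (th p j + t)).re +
          ∑ k ∈ Finset.Icc 1 (p - 1), (2 * k * Real.sinh (k * y) * (-1) ^ k * (sg p * sj j)) *
            Real.cos (k * (th p j + t))) := by
      apply intervalIntegral.integral_congr_ae
      refine ae_of_all _ fun t ht => ?_
      have hcos : Real.cos ((th p j + t) / 2) ≠ 0 := by
        intro h0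
        have h2 := pb28_grid hp (j := j) (hτ j hj) ht
        rw [h0, abs_zero] at h2
        linarith [pb28_sin hp]
      rw [pb28_FB_refl (by omega : 1 ≤ p) hcos y, mul_add, Finset.mul_sum]
      congr 1
      refine Finset.sum_congr rfl fun k _ => ?_
      ring
    have hsum : IntervalIntegrable (fun t : ℝ => ∑ k ∈ Finset.Icc 1 (p - 1),
        (2 * k * Real.sinh (k * y) * (-1) ^ k * (sg p * sj j)) *
          Real.cos (k * (th p j + t))) volume 0 (τ j) := by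
      apply Continuous.intervalIntegrable
      fun_prop
    rw [h1, intervalIntegral.integral_add (hint j hj y) hsum,
      intervalIntegral.integral_finset_sum fun k _ => hcc k]
    congr 1
    refine Finset.sum_congr rfl fun k _ => ?_
    rw [intervalIntegral.integral_const_mul]
    ring
  unfold RRd
  rw [Finset.sum_congr rfl hj, Finset.sum_add_distrib, Finset.sum_comm]
  congr 1
  refine Finset.sum_congr rfl fun k _ => ?_
  rw [pb28_qn_re, Finset.mul_sum, Finset.mul_sum]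

/-! ### the lower bound -/

theorem pb28_tsum {p : ℕ} (hp : 2 ≤ p) {η c1 : ℝ} (h0 : 0 < η) (h1 : η ≤ 1 / 4) {τ : ℤ → ℝ}
    (h : ∀ j ∈ JJ p, |τ j - tL p η j| ≤ c1 * η) :
    ∑ j ∈ JJ p, |τ j| ≤ 2 * p * ((2 + c1) * η) := by
  have h2 : ∑ j ∈ JJ p, |τ j| ≤ ∑ j ∈ JJ p, (2 + c1) * η := by
    refine Finset.sum_le_sum fun j hj => ?_
    have h3 := h j hj
    have h4 := tL_bd hp h0 h1 hj
    have h5 : |τ j| ≤ |τ j - tL p η j| + |tL p η j| := by
      have := abs_add_le (τ j - tL p η j) (tL p η j)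
      simpa using this
    linarith
  rw [Finset.sum_const, card_JJ, nsmul_eq_mul] at h2
  push_cast at h2
  exact h2

theorem pb28_dsum {p : ℕ} {η c1 : ℝ} {τ : ℤ → ℝ}
    (h : ∀ j ∈ JJ p, |τ j - tL p η j| ≤ c1 * η) :
    ∑ j ∈ JJ p, |τ j - tL p η j| ≤ 2 * p * (c1 * η) := by
  have h2 : ∑ j ∈ JJ p, |τ j - tL p η j| ≤ ∑ j ∈ JJ p, c1 * η :=
    Finset.sum_le_sum fun j hj => h j hj
  rw [Finset.sum_const, card_JJ, nsmul_eq_mul] at h2
  push_cast at h2
  exact h2

theorem pb28_vv_of_nonneg (p : ℕ) {x : ℝ} (hx : 0 ≤ x) : vv p x = Real.exp (-(p * |x|)) := by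
  unfold vv
  rw [abs_of_nonneg hx]
  apply min_eq_left
  apply Real.exp_le_exp.2
  nlinarith

theorem RRd_ge {p : ℕ} (hp : 2 ≤ p) : ∃ c1 C : ℝ, 0 < c1 ∧ 0 < C ∧ ∀ η : ℝ, 0 < η → η ≤ 1 / 4 →
    ∀ τ : ℤ → ℝ, (∀ j ∈ JJ p, |τ j| ≤ Real.pi / (8 * p)) → (∀ j ∈ JJ p, |τ j - tL p η j| ≤ c1 * η) →
      ∀ x, -(C * η * Real.exp (-(p * |x|))) ≤ RRd p τ x := by
  obtain ⟨C0, hC0, hb⟩ := RRd_bd hp
  have hp' : (2 : ℝ) ≤ p := by exact_mod_cast hp
  refine ⟨1 / (p : ℝ) ^ 2, C0 * (2 * p * (2 + 1 / (p : ℝ) ^ 2)), by positivity, by positivity,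
    fun η h0 h1 τ hτ hd => ?_⟩
  have hpos : ∀ x : ℝ, 0 ≤ x → -(C0 * (2 * p * (2 + 1 / (p : ℝ) ^ 2)) * η *
      Real.exp (-(p * |x|))) ≤ RRd p τ x := by
    intro x hx
    have h2 := hb τ hτ x
    have h3 := pb28_tsum hp h0 h1 hd
    rw [pb28_vv_of_nonneg p hx] at h2
    have h4 : C0 * (∑ j ∈ JJ p, |τ j|) * Real.exp (-(p * |x|)) ≤
        C0 * (2 * p * ((2 + 1 / (p : ℝ) ^ 2) * η)) * Real.exp (-(p * |x|)) := by
      gcongr
    have h5 := neg_le_of_abs_le h2
    have h6 : C0 * (2 * p * ((2 + 1 / (p : ℝ) ^ 2) * η)) * Real.exp (-(p * |x|)) =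
        C0 * (2 * p * (2 + 1 / (p : ℝ) ^ 2)) * η * Real.exp (-(p * |x|)) := by ring
    linarith
  intro x
  rcases le_or_gt 0 x with hx | hx
  · exact hpos x hx
  · have hy : 0 ≤ -x := by linarith
    have h2 := pb28_RRd_refl hp hτ (-x)
    rw [neg_neg] at h2
    have h3 := hpos (-x) hy
    rw [abs_neg] at h3
    have h4 : 0 ≤ ∑ k ∈ Finset.Icc 1 (p - 1),
        2 * (k : ℝ) * Real.sinh (k * -x) * ((-1) ^ k * (qn p τ k).re) := by
      refine Finset.sum_nonneg fun k hk => ?_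
      have hk1 := (Finset.mem_Icc.1 hk).1
      have hk2 := (Finset.mem_Icc.1 hk).2
      have h5 : 0 ≤ Real.sinh (k * -x) := Real.sinh_nonneg_iff.2 (by positivity)
      have h6 := (qL_ge hp h0 h1 hk1 (by omega : k < p)).2
      have h7 := (qn_lip p τ (tL p η) k).trans (pb28_dsum hd)
      have h8 : |(-1 : ℝ) ^ k * (qn p τ k).re - (-1) ^ k * (qn p (tL p η) k).re| ≤
          ‖qn p τ k - qn p (tL p η) k‖ := by
        rw [← mul_sub, ← Complex.sub_re, abs_mul, abs_pow, abs_neg, abs_one, one_pow, one_mul]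
        exact Complex.abs_re_le_norm _
      have h9 := neg_le_of_abs_le (h8.trans h7)
      have h10 : 2 * p * (1 / (p : ℝ) ^ 2 * η) = 2 * η / p := by
        field_simp
      have h11 : 0 ≤ (-1 : ℝ) ^ k * (qn p τ k).re := by linarith
      positivity
    linarith

theorem S_RR {p : ℕ} (hp : 2 ≤ p) : ∃ c1 C : ℝ, 0 < c1 ∧ 0 < C ∧ ∀ η : ℝ, 0 < η → η ≤ 1 / 4 →
    ∀ τ : ℤ → ℝ, (∀ j ∈ JJ p, |τ j| ≤ Real.pi / (8 * p)) → (∀ j ∈ JJ p, |τ j - tL p η j| ≤ c1 * η) →
      ∀ c : Cfg (rh p η), ∑ i, c.m i * RR p τ (c.x i) ≤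
        II (rh p η) (RR p τ) + C * η * c.Dr p := by
  obtain ⟨c1, C, hc1, hC, h⟩ := RRd_ge hp
  obtain ⟨C0, hC0, hb⟩ := RRd_bd hp
  have hp' : (2 : ℝ) ≤ p := by exact_mod_cast hp
  refine ⟨c1, C * (Real.pi / p), hc1, by positivity, fun η h0 h1 τ hτ hd c => ?_⟩
  have hR : RR p τ = Tt (RRd p τ) := funext fun x => RR_T hp hτ x
  have h2 := S_T hp h0 h1 c (RRd_meas p τ hτ) (hb τ hτ)
  obtain ⟨hi, h3⟩ := Dr_ge hp h0 h1 c
  have h4 : -(C * η * ∫ y : ℝ, c.ee y * Real.exp (-(p * |y|))) ≤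
      ∫ y : ℝ, c.ee y * RRd p τ y := by
    rw [← integral_const_mul, ← integral_neg]
    refine integral_mono (hi.const_mul _).neg
      (ee_k_int hp h0 h1 c (RRd_meas p τ hτ) (hb τ hτ)) fun y => ?_
    have h5 := mul_le_mul_of_nonneg_left (h η h0 h1 τ hτ hd y) (ee_nonneg c y)
    simp only
    calc -(C * η * (c.ee y * Real.exp (-(p * |y|)))) =
        c.ee y * -(C * η * Real.exp (-(p * |y|))) := by ring
      _ ≤ _ := h5
  have h6 : C * η * ∫ y : ℝ, c.ee y * Real.exp (-(p * |y|)) ≤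
      C * η * (Real.pi / p * c.Dr p) :=
    mul_le_mul_of_nonneg_left h3 (by positivity)
  rw [hR, h2]
  have h7 : C * η * (Real.pi / p * c.Dr p) = C * (Real.pi / p) * η * c.Dr p := by ring
  linarith

end Pool.Agent.PfB
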