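import Pool.Agent.PfB.Nra
import Pool.Agent.PfB.Nrb
import Pool.Agent.PfB.Rdd
import Pool.Agent.PfB.WEq
import Pool.Agent.PfB.WQ
import Pool.Agent.PfB.Mass
import Pool.Agent.PfB.Qn

/-! MP_f2c8f8_an, project PfB, row PB-31 -/

set_option autoImplicit false

open MeasureTheory Filter
open scoped ComplexConjugate Topology

noncomputable section

namespace Pool.Agent.PfB

theorem pb31_card (p : ℕ) : (JJ p).card = 2 * p := by
  unfold JJ
  rw [Int.card_Ico]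
  omega

theorem pb31_sq (p : ℕ) (f : ℤ → ℝ) :
    (∑ j ∈ JJ p, |f j|) ^ 2 ≤ 2 * p * ∑ j ∈ JJ p, f j ^ 2 := by
  have h := sq_sum_le_card_mul_sum_sq (s := JJ p) (f := fun j => |f j|)
  rw [pb31_card] at h
  simp only [sq_abs] at h
  push_cast at h
  exact h

/-- the value in terms of `RR` -/
theorem pb31_Lam {p : ℕ} (hp : 1 ≤ p) {η : ℝ} (c : Cfg (rh p η)) (τ : ℤ → ℝ)
    (hτ : ∀ j ∈ JJ p, |τ j| ≤ Real.pi / (8 * p)) :
    c.Lam p η τ = mn p η - c.DD p + Real.pi * c.Da p * ell p τ +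
      Real.pi⁻¹ * ∑ i, c.m i * RR p τ (c.x i) +
      Real.pi⁻¹ * ∑ i, c.m i * (c.e i * QQ p τ (c.x i) (c.a i) - QQ p τ (c.x i) 0) := by
  have h1 : ∑ i, c.m i * RR p τ (c.x i) = ∑ i, c.m i * QQ p τ (c.x i) 0 -
      Real.pi / p * ell p τ * ∑ i, c.m i * Real.exp (-(p * |c.x i|)) := by
    rw [Finset.mul_sum, ← Finset.sum_sub_distrib]
    refine Finset.sum_congr rfl fun i _ => ?_
    rw [RR_eq hp τ (c.x i) hτ]
    ring
  have h2 : ∑ i, c.m i * (c.e i * QQ p τ (c.x i) (c.a i) - QQ p τ (c.x i) 0) =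
      ∑ i, c.m i * (c.e i * QQ p τ (c.x i) (c.a i)) - ∑ i, c.m i * QQ p τ (c.x i) 0 := by
    rw [← Finset.sum_sub_distrib]
    refine Finset.sum_congr rfl fun i _ => ?_
    ring
  have hp0 : (p : ℝ) ≠ 0 := by
    have : (0 : ℝ) < p := by exact_mod_cast hp
    exact this.ne'
  have hpi := Real.pi_ne_zero
  unfold Cfg.Lam
  rw [h1, h2, Ac_eq hp c]
  field_simp
  ring

theorem pb31_Da {p : ℕ} (hp : 1 ≤ p) {ρ : ℝ} (c : Cfg ρ) :
    ∑ i, c.m i * ((4 * p : ℝ)⁻¹ * (Real.exp (-(p * |c.x i|)) * (1 - c.e i * Real.cos (p * c.a i)))) =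
      Real.pi / 4 * c.Da p := by
  have hp0 : (p : ℝ) ≠ 0 := by
    have : (0 : ℝ) < p := by exact_mod_cast hp
    exact this.ne'
  have hpi := Real.pi_ne_zero
  unfold Cfg.Da Cfg.d
  have : ∑ i, c.m i * ((4 * p : ℝ)⁻¹ *
      (Real.exp (-(p * |c.x i|)) * (1 - c.e i * Real.cos (p * c.a i)))) =
      (4 * p : ℝ)⁻¹ * ∑ i, c.m i * (Real.exp (-(p * |c.x i|)) * (1 - c.e i * Real.cos (p * c.a i))) := by
    rw [Finset.mul_sum]
    refine Finset.sum_congr rfl fun i _ => ?_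
    ring
  rw [this]
  field_simp

/-- the near regime -/
theorem r4 {p : ℕ} (hp : 2 ≤ p) : ∃ c1 η1 : ℝ, 0 < c1 ∧ 0 < η1 ∧ ∀ η : ℝ, 0 < η → η < η1 →
    ∀ c : Cfg (rh p η), ∀ τ : ℤ → ℝ, (∀ j ∈ JJ p, |τ j - tL p η j| ≤ c1 * η) →
      c.Lam p η τ ≤ 2 * p / Real.sin (Real.pi * η) - c.DD p / 2 := by
  obtain ⟨ca, hca, hA⟩ := nra hp
  obtain ⟨cb, Cb, Xb, ηb, hcb, hCb, hXb, hηb, hB⟩ := nrb hp
  obtain ⟨cs, Cs, hcs, hCs, hS⟩ := S_RR hp
  obtain ⟨cw, hcw, hW⟩ := W_le hp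
  obtain ⟨Cw, hCw, hSw⟩ := S_ww hp
  obtain ⟨Ct, hCt, hSt⟩ := S_tail hp
  have hp0 : (0 : ℝ) < p := by positivity
  have hp2 : (2 : ℝ) ≤ p := by exact_mod_cast hp
  have hpi := Real.pi_pos
  -- the choice of `X`
  obtain ⟨X, hX1, hX2⟩ : ∃ X : ℝ, Xb ≤ X ∧
      2 * p * (Cb * (Ct * Real.exp (-(X / 4)))) ≤ Real.pi * (cw / 2) := by
    have hlim : Tendsto (fun X : ℝ => 2 * p * (Cb * (Ct * Real.exp (-(X / 4))))) atTop (𝓝 0) := by
      have h1 : Tendsto (fun X : ℝ => Real.exp (-(X / 4))) atTop (𝓝 0) :=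
        Real.tendsto_exp_neg_atTop_nhds_zero.comp (tendsto_id.atTop_div_const (by norm_num))
      have h2 := ((h1.const_mul Ct).const_mul Cb).const_mul (2 * (p : ℝ))
      simpa using h2
    have h3 := (hlim.eventually (ge_mem_nhds (show (0 : ℝ) < Real.pi * (cw / 2) by positivity))).and
      (eventually_ge_atTop Xb)
    obtain ⟨X, hX⟩ := h3.exists
    exact ⟨X, hX.2, hX.1⟩
  have hX0 : 1 ≤ X := hXb.trans hX1
  obtain ⟨CX, ηa, hCX, hηa, hA⟩ := hA X hX0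
  obtain ⟨c1, hc1⟩ : ∃ c1 : ℝ, c1 = min (min ca cb) (min cs 1) := ⟨_, rfl⟩
  have hc1a : c1 ≤ ca := by rw [hc1]; exact (min_le_left _ _).trans (min_le_left _ _)
  have hc1b : c1 ≤ cb := by rw [hc1]; exact (min_le_left _ _).trans (min_le_right _ _)
  have hc1s : c1 ≤ cs := by rw [hc1]; exact (min_le_right _ _).trans (min_le_left _ _)
  have hc11 : c1 ≤ 1 := by rw [hc1]; exact (min_le_right _ _).trans (min_le_right _ _)
  have hc10 : 0 < c1 := by rw [hc1]; exact lt_min (lt_min hca hcb) (lt_min hcs one_pos)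
  obtain ⟨η1, hη1⟩ : ∃ η1 : ℝ, η1 = min (min ηa ηb) (min (min (1 / 4) (Real.pi / (24 * p)))
      (min (Real.pi / (2 * Cs)) (min (Real.pi * cw / (4 * p * (CX * Cw))) (1 / (36 * p ^ 2))))) :=
    ⟨_, rfl⟩
  have e1 : η1 ≤ ηa := by rw [hη1]; exact (min_le_left _ _).trans (min_le_left _ _)
  have e2 : η1 ≤ ηb := by rw [hη1]; exact (min_le_left _ _).trans (min_le_right _ _)
  have e3 : η1 ≤ 1 / 4 := by
    rw [hη1]; exact (min_le_right _ _).trans ((min_le_left _ _).trans (min_le_left _ _))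
  have e4 : η1 ≤ Real.pi / (24 * p) := by
    rw [hη1]; exact (min_le_right _ _).trans ((min_le_left _ _).trans (min_le_right _ _))
  have e5 : η1 ≤ Real.pi / (2 * Cs) := by
    rw [hη1]; exact (min_le_right _ _).trans ((min_le_right _ _).trans (min_le_left _ _))
  have e6 : η1 ≤ Real.pi * cw / (4 * p * (CX * Cw)) := by
    rw [hη1]
    exact (min_le_right _ _).trans ((min_le_right _ _).trans ((min_le_right _ _).trans
      (min_le_left _ _)))
  have e7 : η1 ≤ 1 / (36 * p ^ 2) := by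
    rw [hη1]
    exact (min_le_right _ _).trans ((min_le_right _ _).trans ((min_le_right _ _).trans
      (min_le_right _ _)))
  have hη10 : 0 < η1 := by
    rw [hη1]
    refine lt_min (lt_min hηa hηb) (lt_min (lt_min (by norm_num) (by positivity))
      (lt_min (by positivity) (lt_min (by positivity) (by positivity))))
  refine ⟨c1, η1, hc10, hη10, ?_⟩
  intro η h0 h1 c τ hτL
  have h14 : η ≤ 1 / 4 := h1.le.trans e3
  have hτ3 : ∀ j ∈ JJ p, |τ j| ≤ 3 * η := by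
    intro j hj
    have h2 := tL_bd hp h0 h14 hj
    have h3 := hτL j hj
    have h4 : |τ j| ≤ |τ j - tL p η j| + |tL p η j| := by
      have := abs_add_le (τ j - tL p η j) (tL p η j)
      simpa using this
    nlinarith
  have hτ8 : ∀ j ∈ JJ p, |τ j| ≤ Real.pi / (8 * p) := by
    intro j hj
    refine (hτ3 j hj).trans ?_
    have : η ≤ Real.pi / (24 * p) := h1.le.trans e4
    calc 3 * η ≤ 3 * (Real.pi / (24 * p)) := by linarith
      _ = Real.pi / (8 * p) := by field_simp; ring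
  have hle : ∀ b : ℝ, c1 ≤ b → ∀ j ∈ JJ p, |τ j - tL p η j| ≤ b * η := fun b hb j hj =>
    (hτL j hj).trans (by gcongr)
  obtain ⟨S2, hS2⟩ : ∃ S2 : ℝ, S2 = ∑ j ∈ JJ p, (τ j - tL p η j) ^ 2 := ⟨_, rfl⟩
  obtain ⟨σ, hσ⟩ : ∃ σ : ℝ, σ = ∑ j ∈ JJ p, |τ j - tL p η j| := ⟨_, rfl⟩
  have hS20 : 0 ≤ S2 := by rw [hS2]; exact Finset.sum_nonneg fun j _ => sq_nonneg _
  have hσ2 : σ ^ 2 ≤ 2 * p * S2 := by
    rw [hσ, hS2]; exact pb31_sq p fun j => τ j - tL p η j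
  -- `ell`
  have hell : ell p τ ≤ 1 / (4 * Real.pi) := by
    refine (ell_le p τ (by omega)).2.trans ?_
    have g1 : ∑ j ∈ JJ p, τ j ^ 2 ≤ 2 * p * (3 * η) ^ 2 := by
      calc ∑ j ∈ JJ p, τ j ^ 2 ≤ ∑ _j ∈ JJ p, (3 * η) ^ 2 := by
            refine Finset.sum_le_sum fun j hj => ?_
            rw [← sq_abs]
            exact pow_le_pow_left₀ (abs_nonneg _) (hτ3 j hj) 2
        _ = 2 * p * (3 * η) ^ 2 := by
            rw [Finset.sum_const, pb31_card, nsmul_eq_mul]; push_cast; ring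
    have g2 : η ≤ 1 / (36 * p ^ 2) := h1.le.trans e7
    have g3 : η ^ 2 ≤ η := by nlinarith
    have g4 : (p : ℝ) ^ 2 * η ^ 2 ≤ 1 / 36 := by
      calc (p : ℝ) ^ 2 * η ^ 2 ≤ (p : ℝ) ^ 2 * (1 / (36 * p ^ 2)) := by gcongr; linarith
        _ = 1 / 36 := by field_simp
    calc p / (2 * Real.pi) * ∑ j ∈ JJ p, τ j ^ 2
        ≤ p / (2 * Real.pi) * (2 * p * (3 * η) ^ 2) := by gcongr
      _ = 9 * ((p : ℝ) ^ 2 * η ^ 2) / Real.pi := by field_simp; ring
      _ ≤ 9 * (1 / 36) / Real.pi := by gcongr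
      _ = 1 / (4 * Real.pi) := by field_simp; ring
  have hell0 := (ell_le p τ (by omega)).1
  have hDa := Da_nonneg (p := p) c
  have hDr := Dr_nonneg (p := p) c
  -- the masses
  have hmass : ∑ i, c.m i * (c.e i * QQ p τ (c.x i) (c.a i) - QQ p τ (c.x i) 0) ≤
      Real.pi / 4 * c.Da p + CX * σ ^ 2 * Cw + Cb * σ ^ 2 / η * (Ct * Real.exp (-(X / 4))) := by
    have g1 : ∑ i, c.m i * (c.e i * QQ p τ (c.x i) (c.a i) - QQ p τ (c.x i) 0) ≤
        ∑ i, (c.m i * ((4 * p : ℝ)⁻¹ *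
          (Real.exp (-(p * |c.x i|)) * (1 - c.e i * Real.cos (p * c.a i)))) +
          CX * σ ^ 2 * (c.m i * ww p (c.x i)) +
          Cb * σ ^ 2 / η * (if c.x i < -X then c.m i * ww p (c.x i) else 0)) := by
      refine Finset.sum_le_sum fun i _ => ?_
      have hm := c.m0 i
      have hw := ww_pos p (c.x i)
      by_cases hx : c.x i < -X
      · rw [if_pos hx]
        have g2 := hB η h0 (h1.trans_le e2) τ (hle cb hc1b) (c.x i) (c.a i) (c.e i)
          (by linarith) (c.e1 i)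
        rw [← hσ] at g2
        have g3 := mul_le_mul_of_nonneg_left g2 hm
        have g4 : 0 ≤ CX * σ ^ 2 * (c.m i * ww p (c.x i)) := by positivity
        linarith
      · rw [if_neg hx]
        have g2 := hA η h0 (h1.trans_le e1) τ (hle ca hc1a) (c.x i) (c.a i) (c.e i)
          (c.x0 i) (by linarith) (c.e1 i)
        rw [← hσ] at g2
        have g3 := mul_le_mul_of_nonneg_left g2 hm
        linarith
    refine g1.trans ?_
    rw [Finset.sum_add_distrib, Finset.sum_add_distrib, ← Finset.mul_sum, ← Finset.mul_sum,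
      pb31_Da (by omega)]
    have g5 := hSw η h0 h14 c
    have g6 := hSt η h0 h14 c X (by linarith)
    gcongr
  have hRR := hS η h0 h14 τ hτ8 (hle cs hc1s) c
  have hWeq := W_eq hp h0 h14 hτ8
  have hWle := hW η h0 h14 τ hτ8
  rw [← hS2] at hWle
  rw [pb31_Lam (by omega) c τ hτ8]
  have k1 : Real.pi⁻¹ * ∑ i, c.m i * RR p τ (c.x i) ≤
      Real.pi⁻¹ * II (rh p η) (RR p τ) + c.Dr p / 2 := by
    calc Real.pi⁻¹ * ∑ i, c.m i * RR p τ (c.x i)
        ≤ Real.pi⁻¹ * (II (rh p η) (RR p τ) + Cs * η * c.Dr p) := by gcongr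
      _ = Real.pi⁻¹ * II (rh p η) (RR p τ) + (Real.pi⁻¹ * (Cs * η)) * c.Dr p := by ring
      _ ≤ Real.pi⁻¹ * II (rh p η) (RR p τ) + (Real.pi⁻¹ * (Cs * (Real.pi / (2 * Cs)))) * c.Dr p := by
          gcongr
          exact h1.le.trans e5
      _ = Real.pi⁻¹ * II (rh p η) (RR p τ) + c.Dr p / 2 := by field_simp
  have k2 : Real.pi * c.Da p * ell p τ ≤ c.Da p / 4 := by
    calc Real.pi * c.Da p * ell p τ ≤ Real.pi * c.Da p * (1 / (4 * Real.pi)) := by gcongr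
      _ = c.Da p / 4 := by field_simp
  have k3 : Real.pi⁻¹ * (CX * σ ^ 2 * Cw) ≤ cw / 2 / η * S2 := by
    have g1 : CX * Cw * (4 * p) * η ≤ Real.pi * cw := by
      calc CX * Cw * (4 * p) * η ≤ CX * Cw * (4 * p) * (Real.pi * cw / (4 * p * (CX * Cw))) := by
            gcongr
            exact h1.le.trans e6
        _ = Real.pi * cw := by field_simp
    have g2 : Real.pi⁻¹ * (CX * σ ^ 2 * Cw) ≤ Real.pi⁻¹ * (CX * (2 * p * S2) * Cw) := by gcongr
    refine g2.trans ?_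
    rw [show Real.pi⁻¹ * (CX * (2 * p * S2) * Cw) = (CX * Cw * (4 * p) * η) * (S2 / (2 * Real.pi * η))
      by field_simp; ring]
    calc (CX * Cw * (4 * p) * η) * (S2 / (2 * Real.pi * η))
        ≤ (Real.pi * cw) * (S2 / (2 * Real.pi * η)) := by gcongr
      _ = cw / 2 / η * S2 := by field_simp
  have k4 : Real.pi⁻¹ * (Cb * σ ^ 2 / η * (Ct * Real.exp (-(X / 4)))) ≤ cw / 2 / η * S2 := by
    have g2 : Real.pi⁻¹ * (Cb * σ ^ 2 / η * (Ct * Real.exp (-(X / 4)))) ≤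
        Real.pi⁻¹ * (Cb * (2 * p * S2) / η * (Ct * Real.exp (-(X / 4)))) := by gcongr
    refine g2.trans ?_
    rw [show Real.pi⁻¹ * (Cb * (2 * p * S2) / η * (Ct * Real.exp (-(X / 4)))) =
      (2 * p * (Cb * (Ct * Real.exp (-(X / 4))))) * (S2 / (Real.pi * η)) by field_simp]
    calc (2 * p * (Cb * (Ct * Real.exp (-(X / 4))))) * (S2 / (Real.pi * η))
        ≤ (Real.pi * (cw / 2)) * (S2 / (Real.pi * η)) := by gcongr
      _ = cw / 2 / η * S2 := by field_simp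
  have k5 : Real.pi⁻¹ * ∑ i, c.m i * (c.e i * QQ p τ (c.x i) (c.a i) - QQ p τ (c.x i) 0) ≤
      c.Da p / 4 + cw / η * S2 := by
    have g1 := mul_le_mul_of_nonneg_left hmass (inv_pos.2 hpi).le
    have g2 : Real.pi⁻¹ * (Real.pi / 4 * c.Da p + CX * σ ^ 2 * Cw +
        Cb * σ ^ 2 / η * (Ct * Real.exp (-(X / 4)))) = c.Da p / 4 + Real.pi⁻¹ * (CX * σ ^ 2 * Cw) +
        Real.pi⁻¹ * (Cb * σ ^ 2 / η * (Ct * Real.exp (-(X / 4)))) := by
      field_simp
    have g3 : cw / 2 / η * S2 + cw / 2 / η * S2 = cw / η * S2 := by ring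
    linarith
  have k6 : c.DD p = c.Dr p + c.Da p := rfl
  rw [k6]
  linarith

end Pool.Agent.PfB
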