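import Pool.Agent.PfB.Ker
import Pool.Agent.PfB.Arc
import Pool.Agent.PfB.Phd
import Pool.Agent.PfB.Phz
import Pool.Agent.PfB.Main1
import Pool.Agent.PfB.Mass

/-! MP_f2c8f8_an, project PfB, row PB-19 -/

set_option autoImplicit false

open MeasureTheory Filter
open scoped ComplexConjugate Topology

noncomputable section

namespace Pool.Agent.PfB

theorem u_cont {ρ : ℝ} (p : ℕ) (c : Cfg ρ) : Continuous (c.u p) := by
  unfold Cfg.u
  refine continuous_finsetSum _ fun i _ => ?_
  exact continuous_const.mul ((KK_cont (c.x0 i)).comp (continuous_id.sub continuous_const))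

/-- the potential on the arcs -/
theorem fj_eq {p : ℕ} (hp : 1 ≤ p) {ρ : ℝ} (c : Cfg ρ) (j : ℤ) (t : ℝ) :
    sg p * sj j * c.u p (th p j + t) = -(c.Ac p * Real.sin (p * t)) +
      c.As p * Real.cos (p * t) + ∑ i, c.m i * (c.e i * kj p (c.x i) j (t - c.a i)) := by
  unfold Cfg.u Cfg.Ac Cfg.As
  rw [Finset.mul_sum, Finset.mul_sum, Finset.mul_sum, Finset.sum_mul, Finset.sum_mul,
    ← Finset.sum_neg_distrib, ← Finset.sum_add_distrib, ← Finset.sum_add_distrib]
  refine Finset.sum_congr rfl fun i _ => ?_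
  have h := kj_eq hp (c.x i) j (t - c.a i)
  have h2 : th p j + t - c.a i = th p j + (t - c.a i) := by ring
  have h3 : Real.sin (p * (t - c.a i)) =
      Real.sin (p * t) * Real.cos (p * c.a i) - Real.cos (p * t) * Real.sin (p * c.a i) := by
    rw [mul_sub, Real.sin_sub]
  have h4 : sg p * sj j * (c.m i * c.e i * KK p (c.x i) (th p j + t - c.a i)) =
      c.m i * c.e i * (sg p * sj j * KK p (c.x i) (th p j + (t - c.a i))) := by
    rw [h2]; ring
  rw [h4, h, h3]
  ring

/-- `ar` of a finite sum -/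
theorem pb19_ar_sum {p : ℕ} {ι : Type} (s : Finset ι) (c : ι → ℝ) (f : ι → ℝ → ℝ)
    (hf : ∀ i ∈ s, Continuous (f i)) :
    ar p (fun t => ∑ i ∈ s, c i * f i t) = ∑ i ∈ s, c i * ar p (f i) := by
  unfold ar
  have h : ∀ a b : ℝ, ∫ t in a..b, (∑ i ∈ s, c i * f i t) = ∑ i ∈ s, c i * ∫ t in a..b, f i t := by
    intro a b
    have e := intervalIntegral.integral_finsetSum (μ := volume) (a := a) (b := b) (s := s)
      (f := fun i t => c i * f i t)
      (fun i hi => ((continuous_const.mul (hf i hi)).intervalIntegrable a b))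
    rw [e]
    refine Finset.sum_congr rfl fun i _ => ?_
    rw [intervalIntegral.integral_const_mul]
  rw [h, h, ← Finset.sum_sub_distrib]
  refine Finset.sum_congr rfl fun i _ => ?_
  ring

/-- the pairing of the potential is the sum of the pairings of the kernels -/
theorem pb19_pair (p : ℕ) {ρ : ℝ} (c : Cfg ρ) :
    (2 * Real.pi)⁻¹ * ∑ j ∈ JJ p, ar p (fun t => sg p * sj j * c.u p (th p j + t)) =
      ∑ i, c.m i * (c.e i * Ph p (c.x i) (c.a i)) := by
  have h1 : ∀ j : ℤ, ar p (fun t => sg p * sj j * c.u p (th p j + t)) =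
      ∑ i, (c.m i * c.e i) *
        ar p (fun t => sg p * sj j * KK p (c.x i) (th p j + t - c.a i)) := by
    intro j
    rw [← pb19_ar_sum]
    · congr 1
      funext t
      unfold Cfg.u
      rw [Finset.mul_sum]
      refine Finset.sum_congr rfl fun i _ => ?_
      ring
    · intro i _
      exact continuous_const.mul ((KK_cont (c.x0 i)).comp
        ((continuous_const.add continuous_id).sub continuous_const))
  simp_rw [h1]
  rw [Finset.sum_comm, Finset.mul_sum]
  refine Finset.sum_congr rfl fun i _ => ?_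
  unfold Ph
  rw [← Finset.mul_sum]
  ring

/-- the pairing with the sign of `cos (p θ)` -/
theorem sgn_pair {p : ℕ} (hp : 2 ≤ p) {η : ℝ} (h0 : 0 < η) (h1 : η ≤ 1 / 4) (c : Cfg (rh p η)) :
    (2 * Real.pi)⁻¹ * ∑ j ∈ JJ p, ar p (fun t => sg p * sj j * c.u p (th p j + t)) + c.N 0 ≤
      mn p η - c.DD p := by
  have hp1 : 1 ≤ p := by omega
  rw [pb19_pair]
  have h2 := S_Psi hp h0 h1 c
  have h3 : mn p η - c.DD p = ∑ i, (c.m i * Psi p (c.x i) -
      (Real.pi * p)⁻¹ * (c.m i * (Real.exp (-(p * |c.x i|)) * c.d p i))) := by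
    rw [Finset.sum_sub_distrib, h2, ← Finset.mul_sum]
    unfold Cfg.DD Cfg.Da
    ring
  have h4 : c.N 0 = ∑ i, c.m i * max 0 (-c.x i) := by
    unfold Cfg.N
    refine Finset.sum_congr rfl fun i _ => ?_
    rw [zero_sub]
  rw [h3, h4, ← Finset.sum_add_distrib]
  refine Finset.sum_le_sum fun i _ => ?_
  have h5 := Ph_ge hp1 (c.x0 i) (c.a i) (c.e1 i)
  have h6 := Ph_zero hp1 (c.x0 i)
  have h7 : c.e i * Ph p (c.x i) (c.a i) + max 0 (-c.x i) ≤ Psi p (c.x i) -
      (Real.pi * p)⁻¹ * (Real.exp (-(p * |c.x i|)) * c.d p i) := by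
    unfold Cfg.d
    linarith
  have h8 := mul_le_mul_of_nonneg_left h7 (c.m0 i)
  calc c.m i * (c.e i * Ph p (c.x i) (c.a i)) + c.m i * max 0 (-c.x i)
      = c.m i * (c.e i * Ph p (c.x i) (c.a i) + max 0 (-c.x i)) := by ring
    _ ≤ _ := h8
    _ = _ := by ring

end Pool.Agent.PfB
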