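import Pool.Agent.PfB.Ker
import Pool.Agent.PfB.Sgn

/-! MP_f2c8f8_an, project PfB, row PB-32 -/

set_option autoImplicit false

open MeasureTheory Filter
open scoped ComplexConjugate Topology

noncomputable section

namespace Pool.Agent.PfB

theorem pb32_sj_sq (m : ℤ) : sj m * sj m = 1 := by
  unfold sj
  rw [← mul_zpow]
  norm_num

theorem pb32_sj_neg (m : ℤ) : sj (-m) = sj m := by
  have h := pb32_sj_sq m
  have h2 : sj (-m) * sj m = 1 := by
    unfold sj
    rw [← zpow_add₀ (by norm_num : (-1 : ℝ) ≠ 0)]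
    simp
  have h3 : sj m ≠ 0 := by
    intro h0
    rw [h0] at h
    norm_num at h
  exact mul_right_cancel₀ h3 (h2.trans h.symm)

theorem pb32_sj_pm (m : ℤ) : sj m = 1 ∨ sj m = -1 := by
  have h := pb32_sj_sq m
  have h2 : (sj m - 1) * (sj m + 1) = 0 := by linarith
  rcases mul_eq_zero.1 h2 with h3 | h3
  · left
    linarith
  · right
    linarith

theorem pb32_cos {p : ℕ} (hp : 1 ≤ p) (a : ℝ) (m : ℤ) :
    Real.cos (p * (a - Real.pi * m / p)) = sj m * Real.cos (p * a) := by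
  have hp0 : (p : ℝ) ≠ 0 := by
    have : (1 : ℝ) ≤ p := by exact_mod_cast hp
    linarith
  have h1 : (p : ℝ) * (a - Real.pi * m / p) = p * a - m * Real.pi := by
    field_simp
  rw [h1, Real.cos_sub_int_mul_pi]
  rfl

/-- rotation by an angle -/
def pb32_rot {ρ : ℝ} (c : Cfg ρ) (β : ℝ) : Cfg ρ where
  n := c.n
  x := c.x
  a := fun i => c.a i - β
  e := c.e
  m := c.m
  m0 := c.m0
  e1 := c.e1
  x0 := c.x0
  hN := c.hN

theorem pb32_u {ρ : ℝ} (p : ℕ) (c : Cfg ρ) (β t : ℝ) :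
    (pb32_rot c β).u p t = c.u p (t + β) := by
  unfold Cfg.u
  refine Finset.sum_congr rfl fun i _ => ?_
  show c.m i * c.e i * KK p (c.x i) (t - (c.a i - β)) = _
  congr 2
  ring

theorem pb32_u_per {ρ : ℝ} (p : ℕ) (c : Cfg ρ) (t : ℝ) :
    c.u p (t + 2 * Real.pi) = c.u p t := by
  unfold Cfg.u
  refine Finset.sum_congr rfl fun i _ => ?_
  have h := KK_per p (c.x i) (t - c.a i) 1
  rw [← h]
  congr 2
  push_cast
  ring

theorem pb32_FF {ρ : ℝ} (p : ℕ) (c : Cfg ρ) (β : ℝ) : (pb32_rot c β).FF p = c.FF p := by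
  unfold Cfg.FF
  have h1 : (∫ t in (-Real.pi)..Real.pi, |(pb32_rot c β).u p t|) =
      ∫ t in (-Real.pi)..Real.pi, |c.u p t| := by
    have h2 : (∫ t in (-Real.pi)..Real.pi, |(pb32_rot c β).u p t|) =
        ∫ t in (-Real.pi)..Real.pi, (fun s => |c.u p s|) (t + β) := by
      refine intervalIntegral.integral_congr fun t _ => ?_
      simp only [pb32_u]
    rw [h2, intervalIntegral.integral_comp_add_right (fun s => |c.u p s|) β]
    have hper : Function.Periodic (fun s => |c.u p s|) (2 * Real.pi) := by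
      intro s
      simp only [pb32_u_per]
    have h3 := hper.intervalIntegral_add_eq (-Real.pi + β) (-Real.pi)
    have e1 : -Real.pi + β + 2 * Real.pi = Real.pi + β := by ring
    have e2 : -Real.pi + 2 * Real.pi = Real.pi := by ring
    rw [e1, e2] at h3
    exact h3
  rw [h1]
  rfl

theorem pb32_Ac {ρ : ℝ} (p : ℕ) (c : Cfg ρ) (β : ℝ) :
    (pb32_rot c β).Ac p = Real.cos (p * β) * c.Ac p + Real.sin (p * β) * c.As p := by
  unfold Cfg.Ac Cfg.As
  show (p : ℝ)⁻¹ * ∑ i, c.m i * (c.e i * Real.exp (-(p * |c.x i|)) *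
    Real.cos (p * (c.a i - β))) = _
  have h : ∀ i, c.m i * (c.e i * Real.exp (-(p * |c.x i|)) * Real.cos (p * (c.a i - β))) =
      Real.cos (p * β) * (c.m i * (c.e i * Real.exp (-(p * |c.x i|)) * Real.cos (p * c.a i))) +
      Real.sin (p * β) * (c.m i * (c.e i * Real.exp (-(p * |c.x i|)) * Real.sin (p * c.a i))) := by
    intro i
    rw [mul_sub, Real.cos_sub]
    ring
  rw [Finset.sum_congr rfl fun i _ => h i, Finset.sum_add_distrib, ← Finset.mul_sum,
    ← Finset.mul_sum]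
  ring

theorem pb32_As {ρ : ℝ} (p : ℕ) (c : Cfg ρ) (β : ℝ) :
    (pb32_rot c β).As p = Real.cos (p * β) * c.As p - Real.sin (p * β) * c.Ac p := by
  unfold Cfg.Ac Cfg.As
  show (p : ℝ)⁻¹ * ∑ i, c.m i * (c.e i * Real.exp (-(p * |c.x i|)) *
    Real.sin (p * (c.a i - β))) = _
  have h : ∀ i, c.m i * (c.e i * Real.exp (-(p * |c.x i|)) * Real.sin (p * (c.a i - β))) =
      Real.cos (p * β) * (c.m i * (c.e i * Real.exp (-(p * |c.x i|)) * Real.sin (p * c.a i))) -
      Real.sin (p * β) * (c.m i * (c.e i * Real.exp (-(p * |c.x i|)) * Real.cos (p * c.a i))) := by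
    intro i
    rw [mul_sub, Real.sin_sub]
    ring
  rw [Finset.sum_congr rfl fun i _ => h i, Finset.sum_sub_distrib, ← Finset.mul_sum,
    ← Finset.mul_sum]
  ring

theorem Cfg.exists_nor {p : ℕ} (hp : 1 ≤ p) {ρ : ℝ} (c : Cfg ρ) :
    ∃ c' : Cfg ρ, c'.Nor p ∧ c'.FF p = c.FF p := by
  have hp0 : (p : ℝ) ≠ 0 := by
    have : (1 : ℝ) ≤ p := by exact_mod_cast hp
    linarith
  set z : ℂ := ⟨c.Ac p, c.As p⟩ with hz
  set β : ℝ := z.arg / p with hβ
  have hpb : (p : ℝ) * β = z.arg := by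
    rw [hβ]
    field_simp
  have h1 : ‖z‖ * Real.cos z.arg = c.Ac p := Complex.norm_mul_cos_arg z
  have h2 : ‖z‖ * Real.sin z.arg = c.As p := Complex.norm_mul_sin_arg z
  refine ⟨pb32_rot c β, ⟨?_, ?_⟩, pb32_FF p c β⟩
  · rw [pb32_As, hpb, ← h1, ← h2]
    ring
  · rw [pb32_Ac, hpb, ← h1, ← h2]
    have h3 : Real.cos z.arg * (‖z‖ * Real.cos z.arg) + Real.sin z.arg * (‖z‖ * Real.sin z.arg) =
        ‖z‖ := by
      have := Real.sin_sq_add_cos_sq z.arg
      linear_combination ‖z‖ * this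
    rw [h3]
    exact norm_nonneg z

/-- rotation by a multiple of `π / p`, with the sign -/
def pb32_rt {ρ : ℝ} (p : ℕ) (c : Cfg ρ) (m : ℤ) : Cfg ρ where
  n := c.n
  x := c.x
  a := fun i => c.a i - Real.pi * m / p
  e := fun i => c.e i * sj m
  m := c.m
  m0 := c.m0
  e1 := by
    intro i
    rcases c.e1 i with h | h <;> rcases pb32_sj_pm m with h' | h' <;> simp [h, h']
  x0 := c.x0
  hN := c.hN

theorem pb32_ec {ρ : ℝ} {p : ℕ} (hp : 1 ≤ p) (c : Cfg ρ) (m : ℤ) (i : Fin c.n) :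
    (c.e i * sj m) * Real.cos (p * (c.a i - Real.pi * m / p)) =
      c.e i * Real.cos (p * c.a i) := by
  rw [pb32_cos hp]
  have := pb32_sj_sq m
  linear_combination (c.e i * Real.cos (p * c.a i)) * this

theorem pb32_DD {ρ : ℝ} {p : ℕ} (hp : 1 ≤ p) (c : Cfg ρ) (m : ℤ) :
    (pb32_rt p c m).DD p = c.DD p := by
  have h1 : (pb32_rt p c m).Dr p = c.Dr p := rfl
  have h2 : (pb32_rt p c m).Da p = c.Da p := by
    unfold Cfg.Da
    congr 1
    refine Finset.sum_congr rfl fun i _ => ?_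
    show c.m i * (Real.exp (-(p * |c.x i|)) *
      (1 - (c.e i * sj m) * Real.cos (p * (c.a i - Real.pi * m / p)))) =
      c.m i * (Real.exp (-(p * |c.x i|)) * (1 - c.e i * Real.cos (p * c.a i)))
    rw [pb32_ec hp]
  unfold Cfg.DD
  rw [h1, h2]

theorem pb32_Ac' {ρ : ℝ} {p : ℕ} (hp : 1 ≤ p) (c : Cfg ρ) (m : ℤ) :
    (pb32_rt p c m).Ac p = c.Ac p := by
  unfold Cfg.Ac
  congr 1
  refine Finset.sum_congr rfl fun i _ => ?_
  show c.m i * ((c.e i * sj m) * Real.exp (-(p * |c.x i|)) *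
    Real.cos (p * (c.a i - Real.pi * m / p))) =
    c.m i * (c.e i * Real.exp (-(p * |c.x i|)) * Real.cos (p * c.a i))
  have h := pb32_ec hp c m i
  linear_combination (c.m i * Real.exp (-(p * |c.x i|))) * h

theorem pb32_ell {p : ℕ} (τ : ℤ → ℝ) (hτ : ∀ j n : ℤ, τ (j + 2 * p * n) = τ j) (m : ℤ) :
    ell p (fun j => τ (j + m)) = ell p τ := by
  unfold ell
  congr 1
  refine sum_JJ_shift (f := fun j => 1 - Real.cos (p * τ j)) (fun j n => ?_) m
  simp only [hτ]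

theorem pb32_QQ {p : ℕ} (hp : 1 ≤ p) (τ : ℤ → ℝ) (hτ : ∀ j n : ℤ, τ (j + 2 * p * n) = τ j)
    (m : ℤ) (x a : ℝ) :
    QQ p (fun j => τ (j + m)) x (a - Real.pi * m / p) = sj m * QQ p τ x a := by
  unfold QQ
  have h1 : ∀ (j : ℤ) (t : ℝ), kj p x j (t - (a - Real.pi * m / p)) =
      sj m * kj p x (j + m) (t - a) := by
    intro j t
    have h := kj_shift hp x j (-m) (t - a)
    rw [pb32_sj_neg, sub_neg_eq_add] at h
    rw [← h]
    congr 1
    push_cast
    ring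
  have h2 : ∀ j : ℤ, (∫ t in (0 : ℝ)..τ (j + m), kj p x j (t - (a - Real.pi * m / p))) =
      sj m * ∫ t in (0 : ℝ)..τ (j + m), kj p x (j + m) (t - a) := by
    intro j
    rw [← intervalIntegral.integral_const_mul]
    refine intervalIntegral.integral_congr fun t _ => ?_
    exact h1 j t
  rw [Finset.sum_congr rfl fun j _ => h2 j, ← Finset.mul_sum]
  congr 1
  refine sum_JJ_shift (f := fun j => ∫ t in (0 : ℝ)..τ j, kj p x j (t - a)) (fun j n => ?_) m
  simp only [hτ, kj_per hp]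

/-- rotation by a multiple of `π / p` -/
theorem Cfg.exists_rot {p : ℕ} (hp : 1 ≤ p) {ρ : ℝ} (c : Cfg ρ) (m : ℤ) :
    ∃ c' : Cfg ρ, c'.DD p = c.DD p ∧ ∀ (η : ℝ) (τ : ℤ → ℝ), (∀ j n : ℤ, τ (j + 2 * p * n) = τ j) →
      c'.Lam p η (fun j => τ (j + m)) = c.Lam p η τ := by
  refine ⟨pb32_rt p c m, pb32_DD hp c m, fun η τ hτ => ?_⟩
  unfold Cfg.Lam
  rw [pb32_DD hp, pb32_Ac' hp, pb32_ell τ hτ]
  congr 2
  refine Finset.sum_congr rfl fun i _ => ?_
  show c.m i * ((c.e i * sj m) * QQ p (fun j => τ (j + m)) (c.x i)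
    (c.a i - Real.pi * m / p)) = c.m i * (c.e i * QQ p τ (c.x i) (c.a i))
  rw [pb32_QQ hp τ hτ]
  have := pb32_sj_sq m
  linear_combination (c.m i * c.e i * QQ p τ (c.x i) (c.a i)) * this

end Pool.Agent.PfB
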