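import Pool.Agent.PfB.R0
import Pool.Agent.PfB.R2
import Pool.Agent.PfB.R3
import Pool.Agent.PfB.R4
import Pool.Agent.PfB.Rot
import Pool.Agent.PfB.Main1

/-! MP_f2c8f8_an, project PfB, row PB-33 -/

set_option autoImplicit false

open MeasureTheory Filter
open scoped ComplexConjugate Topology

noncomputable section

namespace Pool.Agent.PfB

/-- the one-circle theorem -/
theorem one_circle {p : ℕ} (hp : 2 ≤ p) : ∃ η0 : ℝ, 0 < η0 ∧ η0 ≤ 1 / 4 ∧ ∀ η : ℝ, 0 < η →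
    η < η0 → ∀ c : Cfg (rh p η), c.FF p ≤ 2 * p / Real.sin (Real.pi * η) := by
  have hp1 : 1 ≤ p := le_trans one_le_two hp
  obtain ⟨c1, η4, hc1, hη4, h4⟩ := r4 hp
  obtain ⟨C0, η1, hC0, hη1, h0⟩ := r0 hp
  obtain ⟨C, hC, h3⟩ := r3 hp hC0
  have hς : 0 < min 1 (c1 ^ 2 / C) := lt_min one_pos (by positivity)
  obtain ⟨η3, hη3, h3⟩ := h3 (min 1 (c1 ^ 2 / C)) hς (min_le_left _ _)
  obtain ⟨η2, hη2, h2⟩ := r2 hp hC0 hς
  refine ⟨min (1 / 4) (min (min η1 η2) (min η3 η4)), ?_, min_le_left _ _, fun η hη hlt c => ?_⟩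
  · exact lt_min (by norm_num) (lt_min (lt_min hη1 hη2) (lt_min hη3 hη4))
  have e0 : η ≤ 1 / 4 := (hlt.trans_le (min_le_left _ _)).le
  have e1 : η < η1 :=
    hlt.trans_le ((min_le_right _ _).trans ((min_le_left _ _).trans (min_le_left _ _)))
  have e2 : η < η2 :=
    hlt.trans_le ((min_le_right _ _).trans ((min_le_left _ _).trans (min_le_right _ _)))
  have e3 : η < η3 :=
    hlt.trans_le ((min_le_right _ _).trans ((min_le_right _ _).trans (min_le_left _ _)))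
  have e4 : η < η4 :=
    hlt.trans_le ((min_le_right _ _).trans ((min_le_right _ _).trans (min_le_right _ _)))
  obtain ⟨c', hnor, hFF⟩ := c.exists_nor hp1
  rw [← hFF]
  have hD : 0 ≤ c'.DD p := add_nonneg (Dr_nonneg c') (Da_nonneg c')
  rcases h0 η hη e1 c' hnor with h | ⟨τ, hper, hτ, hF⟩
  · exact h.trans (mn_le hp1 hη e0)
  rcases h3 η hη e3 τ hper hτ (c'.Lam p η τ) (c'.DD p) hD
    (fun Ξ hΞ hm => h2 η hη e2 c' τ (fun j _ => hτ j) Ξ hΞ hm) with h | ⟨m, hm⟩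
  · exact hF.trans h
  obtain ⟨c'', hDD, hLam⟩ := c'.exists_rot hp1 m
  have hcl : ∀ j ∈ JJ p, |τ (j + m) - tL p η j| ≤ c1 * η := by
    intro j hj
    have h5 : (τ (j + m) - tL p η j) ^ 2 ≤ ∑ j ∈ JJ p, (τ (j + m) - tL p η j) ^ 2 :=
      Finset.single_le_sum (f := fun j => (τ (j + m) - tL p η j) ^ 2)
        (fun i _ => sq_nonneg _) hj
    have h6 : C * min 1 (c1 ^ 2 / C) ≤ c1 ^ 2 := by
      calc C * min 1 (c1 ^ 2 / C) ≤ C * (c1 ^ 2 / C) :=
            mul_le_mul_of_nonneg_left (min_le_right _ _) hC.le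
        _ = c1 ^ 2 := by field_simp
    have h7 : (τ (j + m) - tL p η j) ^ 2 ≤ (c1 * η) ^ 2 := by
      refine (h5.trans hm).trans ?_
      rw [mul_pow]
      exact mul_le_mul_of_nonneg_right h6 (sq_nonneg _)
    exact abs_le_of_sq_le_sq h7 (by positivity)
  have h8 := h4 η hη e4 c'' (fun j => τ (j + m)) hcl
  rw [hLam η τ hper, hDD] at h8
  linarith

end Pool.Agent.PfB
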