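import Pool.Agent.PfB.CoreX
import Pool.Agent.PfB.One
import Pool.Agent.PfB.Mean
import Pool.Agent.PfA.Lower

/-! MP_f2c8f8_an, project PfB, row PB-40 -/

set_option autoImplicit false

open MeasureTheory Filter
open scoped ComplexConjugate Topology

noncomputable section

namespace Pool.Agent.PfB

open Pool.Agent.PfA Pool.Agent.H9.Pf ValueDistribution

theorem pb40_sin (p : ℕ) (η : ℝ) (h0 : 0 < η) (h1 : η ≤ 1 / 4) :
    |Real.sin (Real.pi * ((p : ℝ) - η))| = Real.sin (Real.pi * η) := by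
  have hpi := Real.pi_pos
  have hpos : 0 < Real.sin (Real.pi * η) :=
    Real.sin_pos_of_pos_of_lt_pi (by positivity) (by nlinarith)
  have h2 : Real.pi * ((p : ℝ) - η) = (p : ℝ) * Real.pi - Real.pi * η := by ring
  rw [h2, Real.sin_sub, Real.sin_nat_mul_pi, zero_mul, zero_sub, abs_neg, abs_mul,
    Real.cos_nat_mul_pi, abs_pow, abs_neg, abs_one, one_pow, one_mul, abs_of_pos hpos]

theorem lower_exact {p : ℕ} (hp : 2 ≤ p) : ∃ η0 : ℝ, 0 < η0 ∧ η0 ≤ 1 / 4 ∧ ∀ t : ℝ,
    (p : ℝ) - η0 < t → t < p → ∀ f : ℂ → ℂ, Meromorphic f → ∀ a b : WithTop ℂ, a ≠ b →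
    lowerOrder f ≤ (t : EReal) → (t : EReal) ≤ order f →
    ((|Real.sin (Real.pi * t)| / p : ℝ) : EReal) ≤
      limsup (fun r : ℝ => (((logCounting f a r + logCounting f b r) /
        characteristic f ⊤ r : ℝ) : EReal)) atTop := by
  obtain ⟨η0, hη0, hη1, hone⟩ := one_circle hp
  refine ⟨η0, hη0, hη1, ?_⟩
  intro t ht1 ht2 f hf a b hab hlow hord
  obtain ⟨η, hη⟩ : ∃ η : ℝ, η = (p : ℝ) - t := ⟨_, rfl⟩
  have h0 : 0 < η := by linarith
  have h1 : η < η0 := by linarith
  have h14 : η ≤ 1 / 4 := by linarith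
  have hrh : rh p η = t := by
    show (p : ℝ) - η = t
    linarith
  have hp2 : (2 : ℝ) ≤ p := by exact_mod_cast hp
  have hp0 : (0 : ℝ) < p := by linarith
  have ht0 : 0 < t := by linarith
  have hpi := Real.pi_pos
  have hs : 0 < Real.sin (Real.pi * η) :=
    Real.sin_pos_of_pos_of_lt_pi (by positivity) (by nlinarith)
  have hsin : |Real.sin (Real.pi * t)| = Real.sin (Real.pi * η) := by
    have h2 : t = (p : ℝ) - η := by linarith
    rw [h2]
    exact pb40_sin p η h0 h14
  have hord0 : 0 < order f := lt_of_lt_of_le (by exact_mod_cast ht0) hord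
  have hne := order_ne_top_of_order hf hord0
  obtain ⟨E, C, hcore⟩ := pf22_core hf hne hab
  obtain ⟨M, -, hM⟩ := mean_NS hf hne a b
  have key : ∀ κ : ℝ, 0 < κ → κ * (p / Real.sin (Real.pi * η)) < 1 → (κ : EReal) ≤
      limsup (fun r : ℝ => (((logCounting f a r + logCounting f b r) /
        characteristic f ⊤ r : ℝ) : EReal)) atTop := by
    intro κ hκ hκ2
    refine le_limsup_of_frequently_le ?_
    rw [frequently_atTop]
    intro X
    obtain ⟨r, hr, hT, hN⟩ := core_exact hcore ⟨M, hM⟩ hp h0 h14 (hone η h0 h1)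
      (fun s h0 h1 M X => big_of_order hord h0 (by rw [hrh] at h1; exact h1) M X)
      (fun s h1 ε hε X => small_of_lowerOrder ht0 hlow (by rw [hrh] at h1; exact h1) hε X)
      hκ hκ2 X
    refine ⟨r, hr, ?_⟩
    have : κ ≤ (logCounting f a r + logCounting f b r) / characteristic f ⊤ r := by
      rw [le_div_iff₀ hT]
      exact hN.le
    exact_mod_cast this
  rw [hsin]
  refine le_of_forall_lt fun c hc => ?_
  obtain ⟨x, hcx, hx⟩ := EReal.lt_iff_exists_real_btwn.1 hc
  have hx' : x < Real.sin (Real.pi * η) / p := by exact_mod_cast hx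
  obtain ⟨κ, h2, h3⟩ := exists_between
    (max_lt hx' (by positivity : (0 : ℝ) < Real.sin (Real.pi * η) / p))
  have h4 : κ * (p / Real.sin (Real.pi * η)) < 1 := by
    rw [lt_div_iff₀ hp0] at h3
    rw [← mul_div_assoc, div_lt_one hs]
    exact h3
  have h5 : x < κ := (le_max_left _ _).trans_lt h2
  have h6 : 0 < κ := (le_max_right _ _).trans_lt h2
  exact hcx.trans_le ((by exact_mod_cast h5.le : (x : EReal) ≤ κ).trans (key κ h6 h4))

end Pool.Agent.PfB
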