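import Pool.Agent.PfB.LD3
import Pool.Agent.PfB.LowX
import Pool.Agent.PfA.Order

/-! MP_f2c8f8_an, project PfB, row PB-46 -/

set_option autoImplicit false

open MeasureTheory Filter
open scoped ComplexConjugate Topology

noncomputable section

namespace Pool.Agent.PfB

open Pool.Agent.PfA Pool.Agent.H9.Pf ValueDistribution

/-- the order bounds the characteristic -/
theorem pb46_le {f : ℂ → ℂ} {σ : ℝ} (hσ : order f < (σ : EReal)) :
    ∀ᶠ r : ℝ in atTop, characteristic f ⊤ r ≤ r ^ σ := by
  have hev := eventually_lt_of_limsup_lt hσ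
  filter_upwards [hev, eventually_ge_atTop 2] with r h1 h2
  have h3 : Real.log (characteristic f ⊤ r) / Real.log r < σ := by exact_mod_cast h1
  rw [div_lt_iff₀ (Real.log_pos (by linarith))] at h3
  rcases (characteristic_nonneg (f := f) (a := ⊤) (by linarith : 1 ≤ r)).eq_or_lt with h4 | h4
  · rw [← h4]; positivity
  · rw [← Real.log_rpow (by linarith)] at h3
    exact ((Real.log_lt_log_iff h4 (by positivity)).1 h3).le

/-- a bound of the characteristic bounds the order -/
theorem pb46_order_le {f : ℂ → ℂ} {σ M : ℝ} (hσ : 0 < σ)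
    (h : ∀ᶠ r : ℝ in atTop, characteristic f ⊤ r ≤ M * r ^ σ) : order f ≤ (σ : EReal) := by
  obtain ⟨X, hX⟩ := eventually_atTop.1 h
  apply limsup_le_real
  intro ε hε
  refine pf8_le hσ (le_max_right M 1) (X := max X 1) ?_ (fun x hx => characteristic_nonneg hx) hε
  intro x hx
  have hx1 : 1 ≤ x := (le_max_right _ _).trans hx
  refine (hX x ((le_max_left _ _).trans hx)).trans ?_
  gcongr
  exact le_max_left _ _

/-- `log r ≤ r ^ σ` -/
theorem pb46_log_le {σ : ℝ} (hσ : 0 < σ) (C : ℝ) : ∀ᶠ r : ℝ in atTop, Real.log r + C ≤ 2 * r ^ σ := by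
  have h1 := (isLittleO_log_rpow_atTop hσ).bound one_pos
  have h2 := (tendsto_rpow_atTop hσ).eventually_ge_atTop C
  filter_upwards [h1, h2, eventually_ge_atTop 1] with r h3 h4 h5
  rw [one_mul, Real.norm_of_nonneg (Real.log_nonneg h5), Real.norm_of_nonneg (by positivity)] at h3
  linarith

theorem pb46_ne_deriv {f : ℂ → ℂ} (hf : Differentiable ℂ f) {ρ : ℝ} (hρ : 0 < ρ)
    (ho : order f = (ρ : EReal)) : ∃ z, deriv f z ≠ 0 := by
  by_contra hcon
  push Not at hcon
  have h0 : deriv f = fun _ => (0 : ℂ) := funext hcon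
  obtain ⟨C, hC⟩ := T_le_deriv hf
  have h1 : ∀ r : ℝ, characteristic (deriv f) ⊤ r = 0 := by
    intro r
    rw [h0]
    simp [characteristic]
  have h2 : order f ≤ ((ρ / 2 : ℝ) : EReal) := by
    apply pb46_order_le (half_pos hρ) (M := 2)
    filter_upwards [pb46_log_le (half_pos hρ) C, eventually_ge_atTop 1] with r h3 h4
    have := hC r h4
    rw [h1, mul_zero, zero_add] at this
    linarith
  rw [ho] at h2
  have h3 : ρ ≤ ρ / 2 := by exact_mod_cast h2
  linarith

theorem pb46_ne {f : ℂ → ℂ} (hf : Differentiable ℂ f) {ρ : ℝ} (hρ : 0 < ρ)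
    (ho : order f = (ρ : EReal)) : ∃ z, f z ≠ 0 := by
  obtain ⟨z, hz⟩ := pb46_ne_deriv hf hρ ho
  by_contra hcon
  push Not at hcon
  apply hz
  have h0 : f = fun _ => (0 : ℂ) := funext hcon
  rw [h0]
  simp

theorem order_deriv {f : ℂ → ℂ} (hf : Differentiable ℂ f) {ρ : ℝ} (hρ : 0 < ρ)
    (ho : order f = (ρ : EReal)) : order (deriv f) = (ρ : EReal) := by
  have hne := pb46_ne hf hρ ho
  apply le_antisymm
  · rw [← EReal.le_of_forall_lt_iff_le]
    intro z hz
    have hz' : ρ < z := by exact_mod_cast hz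
    have hσ := pb46_le (f := f) (σ := z) (by rw [ho]; exact hz)
    obtain ⟨C, hC⟩ := T_deriv_le hf hne hσ
    have hl := (isLittleO_log_rpow_atTop (hρ.trans hz')).bound one_pos
    apply pb46_order_le (hρ.trans hz') (M := 1 + |C|)
    filter_upwards [hσ, hC, hl, eventually_ge_atTop 1] with r h1 h2 h3 h4
    rw [one_mul, Real.norm_of_nonneg (Real.log_nonneg h4), Real.norm_of_nonneg (by positivity)] at h3
    have h5 : C * Real.log r ≤ |C| * r ^ z := by
      have := Real.log_nonneg h4
      calc C * Real.log r ≤ |C| * Real.log r := by gcongr; exact le_abs_self C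
        _ ≤ |C| * r ^ z := by gcongr
    linarith
  · by_contra hcon
    rw [not_le] at hcon
    obtain ⟨σ, h1, h2⟩ := EReal.lt_iff_exists_real_btwn.1 hcon
    have h2' : σ < ρ := by exact_mod_cast h2
    set σ' := max σ (ρ / 2) with hσ'
    have h3 : 0 < σ' := (half_pos hρ).trans_le (le_max_right _ _)
    have h4 : σ' < ρ := max_lt h2' (by linarith)
    have h5 : order (deriv f) < (σ' : EReal) :=
      h1.trans_le (by exact_mod_cast le_max_left σ (ρ / 2))
    obtain ⟨C, hC⟩ := T_le_deriv hf
    have h6 := pb46_le h5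
    have h7 : ∀ᶠ r : ℝ in atTop, characteristic (deriv f) ⊤ (2 * r) ≤ (2 * r) ^ σ' :=
      (tendsto_id.const_mul_atTop two_pos).eventually h6
    have h8 : order f ≤ (σ' : EReal) := by
      apply pb46_order_le h3 (M := 4 * 2 ^ σ' + 2)
      filter_upwards [h7, pb46_log_le h3 C, eventually_ge_atTop 1] with r h9 h10 h11
      have h12 := hC r h11
      rw [Real.mul_rpow two_pos.le (by linarith)] at h9
      linarith
    rw [ho] at h8
    have h9 : ρ ≤ σ' := by exact_mod_cast h8
    linarith

/-- polynomial growth on a sequence of circles -/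
theorem pb46_iter {f : ℂ → ℂ} (hf : Differentiable ℂ f) {K : ℝ}
    (h : ∃ᶠ r : ℝ in atTop, characteristic f ⊤ r ≤ K * Real.log r) {n : ℕ} (hn : 4 * K < n) :
    iteratedDeriv n f 0 = 0 := by
  by_contra hne
  have hpos : 0 < ‖iteratedDeriv n f 0‖ := norm_pos_iff.2 hne
  have hlim : Tendsto (fun r : ℝ => r ^ ((n : ℝ) - 4 * K)) atTop atTop :=
    tendsto_rpow_atTop (by linarith)
  set A : ℝ := n.factorial * 2 ^ n with hA
  have hev := hlim.eventually_gt_atTop (A / ‖iteratedDeriv n f 0‖)
  obtain ⟨r, h1, h2, h3⟩ := (h.and_eventually (hev.and (eventually_ge_atTop 2))).exists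
  have hr0 : 0 < r := by linarith
  have hlr : 0 < Real.log r := Real.log_pos (by linarith)
  have h4 : ∀ z ∈ Metric.sphere (0 : ℂ) (r / 2), ‖f z‖ ≤ r ^ (4 * K) := by
    intro z hz
    have hz1 : ‖z‖ = r / 2 := by simpa using hz
    have hz0 : z ≠ 0 := by
      intro h0; rw [h0, norm_zero] at hz1; linarith
    have h5 := growth hf hz0
    rw [hz1, show 2 * (r / 2) = r by ring, ← T_eq hf] at h5
    have h6 : ‖f z‖ ≤ Real.exp (4 * K * Real.log r) := by
      apply le_exp_of_posLog (norm_nonneg _)
      linarith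
    rwa [mul_comm, ← Real.rpow_def_of_pos hr0] at h6
  have h5 := Complex.norm_iteratedDeriv_le_of_forall_mem_sphere_norm_le n (half_pos hr0)
    (hf.diffContOnCl (s := Metric.ball 0 (r / 2))) h4
  rw [div_lt_iff₀ hpos] at h2
  have h6 : (n.factorial : ℝ) * r ^ (4 * K) / (r / 2) ^ n = A / r ^ ((n : ℝ) - 4 * K) := by
    rw [Real.rpow_sub hr0, Real.rpow_natCast, hA, div_pow]
    field_simp
  rw [h6, le_div_iff₀ (by positivity)] at h5
  linarith

/-- the characteristic of an entire function of positive order grows faster than the logarithm -/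
theorem pb46_log {f : ℂ → ℂ} (hf : Differentiable ℂ f) {ρ : ℝ} (hρ : 0 < ρ)
    (ho : order f = (ρ : EReal)) (K : ℝ) :
    ∀ᶠ r : ℝ in atTop, K * Real.log r ≤ characteristic f ⊤ r := by
  by_contra hcon
  rw [Filter.not_eventually] at hcon
  have hfr : ∃ᶠ r : ℝ in atTop, characteristic f ⊤ r ≤ max K 0 * Real.log r := by
    refine (hcon.and_eventually (eventually_ge_atTop 1)).mono ?_
    rintro r ⟨h1, h2⟩
    have h3 := Real.log_nonneg h2
    refine (not_le.1 h1).le.trans ?_
    gcongr
    exact le_max_left _ _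
  obtain ⟨d, hd⟩ := exists_nat_gt (4 * max K 0)
  have h0 : ∀ n : ℕ, d ≤ n → iteratedDeriv n f 0 = 0 := by
    intro n hn
    apply pb46_iter hf hfr
    have : (d : ℝ) ≤ n := by exact_mod_cast hn
    linarith
  set M : ℝ := ∑ n ∈ Finset.range d, ‖(n.factorial : ℂ)⁻¹ • iteratedDeriv n f 0‖ with hM
  have hM0 : 0 ≤ M := Finset.sum_nonneg fun _ _ => norm_nonneg _
  have hb : ∀ z : ℂ, 1 ≤ ‖z‖ → ‖f z‖ ≤ M * ‖z‖ ^ d := by
    intro z hz
    have h1 := Complex.hasSum_taylorSeries_of_entire hf 0 z
    have h2 : HasSum (fun n => (n.factorial : ℂ)⁻¹ • (z - 0) ^ n • iteratedDeriv n f 0)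
        (∑ n ∈ Finset.range d, (n.factorial : ℂ)⁻¹ • (z - 0) ^ n • iteratedDeriv n f 0) := by
      apply hasSum_sum_of_ne_finset_zero
      intro n hn
      rw [h0 n (by simpa using hn), smul_zero, smul_zero]
    rw [h1.unique h2, hM, Finset.sum_mul]
    refine (norm_sum_le _ _).trans (Finset.sum_le_sum fun n hn => ?_)
    rw [sub_zero, smul_comm, norm_smul, norm_pow, mul_comm]
    gcongr
    exact (Finset.mem_range.1 hn).le
  have hT : ∀ r : ℝ, 1 ≤ r → characteristic f ⊤ r ≤ d * Real.log r + Real.log (max M 1) := by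
    intro r hr
    rw [T_eq hf, T]
    have hr0 : 0 < r := by linarith
    apply Real.circleAverage_mono_on_of_le_circle
    · exact (continuous_posLog_norm hf.continuous).continuousOn.circleIntegrable'
    · intro z hz
      have hz1 : ‖z‖ = r := by
        rw [abs_of_pos hr0] at hz; simpa using hz
      have h1 := hb z (by rw [hz1]; exact hr)
      rw [hz1] at h1
      have h2 : ‖f z‖ ≤ max M 1 * r ^ d := h1.trans (by gcongr; exact le_max_left _ _)
      have h3 : 1 ≤ max M 1 * r ^ d := by
        have h4 : 1 ≤ r ^ d := one_le_pow₀ hr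
        have h5 : 1 ≤ max M 1 := le_max_right _ _
        nlinarith
      calc Real.posLog ‖f z‖ ≤ Real.posLog (max M 1 * r ^ d) :=
            Real.monotoneOn_posLog (norm_nonneg _) (zero_le_one.trans h3) h2
        _ = Real.log (max M 1 * r ^ d) := Real.posLog_eq_log (by
            rw [abs_of_nonneg (by linarith)]; exact h3)
        _ = d * Real.log r + Real.log (max M 1) := by
            rw [Real.log_mul (by positivity) (by positivity), Real.log_pow]
            ring
  have h2 : order f ≤ ((ρ / 2 : ℝ) : EReal) := by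
    have hl := (isLittleO_log_rpow_atTop (half_pos hρ)).bound one_pos
    apply pb46_order_le (half_pos hρ) (M := d + 2)
    filter_upwards [pb46_log_le (half_pos hρ) (Real.log (max M 1)), hl, eventually_ge_atTop 1]
      with r h3 h5 h4
    rw [one_mul, Real.norm_of_nonneg (Real.log_nonneg h4), Real.norm_of_nonneg (by positivity)] at h5
    have h6 := hT r h4
    have h7 : (d : ℝ) * Real.log r ≤ d * r ^ (ρ / 2) := by gcongr
    have h8 := Real.log_nonneg h4
    linarith
  rw [ho] at h2
  have h3 : ρ ≤ ρ / 2 := by exact_mod_cast h2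
  linarith

/-- the sum of the deficiencies of finitely many finite values -/
theorem pb46_sum {f : ℂ → ℂ} (hf : Differentiable ℂ f) {ρ : ℝ} (hρ : 0 < ρ)
    (ho : order f = (ρ : EReal)) {s : ℝ} (hs0 : 0 ≤ s) (hs1 : s ≤ 1)
    (hs : (s : EReal) ≤ limsup (fun r : ℝ => ((logCounting (deriv f) (0 : ℂ) r /
      characteristic (deriv f) ⊤ r : ℝ) : EReal)) atTop)
    (S : Finset ℂ) (L : ℂ → ℝ)
    (hL : ∀ a ∈ S, limsup (fun r : ℝ => ((logCounting f (a : WithTop ℂ) r /
      characteristic f ⊤ r : ℝ) : EReal)) atTop = (L a : EReal)) :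
    ∑ a ∈ S, (1 - L a) ≤ 1 - s := by
  have hne := pb46_ne hf hρ ho
  have hne' := pb46_ne_deriv hf hρ ho
  have hσ := pb46_le (f := f) (σ := ρ + 1) (by rw [ho]; exact_mod_cast lt_add_one ρ)
  obtain ⟨C1, hC1⟩ := T_deriv_le hf hne hσ
  obtain ⟨C2, hC2⟩ := sum_prox hf hne' hσ S
  have hTt : Tendsto (characteristic f ⊤) atTop atTop := by
    rw [T_eq' hf]
    exact T_tendsto hf (by rw [ho]; exact_mod_cast hρ)
  have key : ∀ ε : ℝ, 0 < ε → ε ≤ 1 → ∑ a ∈ S, (1 - L a) ≤ (1 - s) + ε * (S.card + 4) := by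
    intro ε hε hε1
    have e1 : ∀ᶠ r : ℝ in atTop, ∀ a ∈ S, logCounting f (a : WithTop ℂ) r /
        characteristic f ⊤ r < L a + ε := by
      rw [Finset.eventually_all]
      intro a ha
      have h1 : limsup (fun r : ℝ => ((logCounting f (a : WithTop ℂ) r /
          characteristic f ⊤ r : ℝ) : EReal)) atTop < ((L a + ε : ℝ) : EReal) := by
        rw [hL a ha]
        exact_mod_cast (by linarith : L a < L a + ε)
      filter_upwards [eventually_lt_of_limsup_lt h1] with r hr
      exact_mod_cast hr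
    have e2 : ∃ᶠ r : ℝ in atTop, s - ε < logCounting (deriv f) (0 : ℂ) r /
        characteristic (deriv f) ⊤ r := by
      have h1 : ((s - ε : ℝ) : EReal) < limsup (fun r : ℝ => ((logCounting (deriv f) (0 : ℂ) r /
          characteristic (deriv f) ⊤ r : ℝ) : EReal)) atTop :=
        lt_of_lt_of_le (by exact_mod_cast (by linarith : s - ε < s)) hs
      refine (frequently_lt_of_lt_limsup (by isBoundedDefault) h1).mono fun r hr => ?_
      exact_mod_cast hr
    have e3 := pb46_log hf hρ ho (|C1| / ε)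
    have e4 := pb46_log hf hρ ho (|C2| / ε)
    obtain ⟨r, h1, h2, h3, h4, h5, h6, h7, h8⟩ := (e2.and_eventually (e1.and (hC1.and (hC2.and
      (e3.and (e4.and ((hTt.eventually_gt_atTop 0).and (eventually_ge_atTop 1)))))))).exists
    set T := characteristic f ⊤ r with hT
    set T' := characteristic (deriv f) ⊤ r with hT'
    have hT'0 : 0 ≤ T' := characteristic_nonneg h8
    have hN0 : 0 ≤ logCounting (deriv f) (0 : ℂ) r := logCounting_nonneg h8
    have hl := Real.log_nonneg h8
    have g1 : C1 * Real.log r ≤ ε * T := by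
      have : |C1| * Real.log r ≤ ε * T := by
        calc |C1| * Real.log r = ε * (|C1| / ε * Real.log r) := by field_simp
          _ ≤ ε * T := by gcongr
      exact (mul_le_mul_of_nonneg_right (le_abs_self C1) hl).trans this
    have g2 : C2 * Real.log r ≤ ε * T := by
      have : |C2| * Real.log r ≤ ε * T := by
        calc |C2| * Real.log r = ε * (|C2| / ε * Real.log r) := by field_simp
          _ ≤ ε * T := by gcongr
      exact (mul_le_mul_of_nonneg_right (le_abs_self C2) hl).trans this
    have g3 : T' - logCounting (deriv f) (0 : ℂ) r ≤ (1 - s + ε) * T' := by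
      rcases hT'0.eq_or_lt with h | h
      · rw [← h]; linarith
      · rw [lt_div_iff₀ h] at h1
        linarith
    have g4 : ∑ a ∈ S, (1 - L a - ε) * T ≤ ∑ a ∈ S, (T - logCounting f (a : WithTop ℂ) r) := by
      refine Finset.sum_le_sum fun a ha => ?_
      have := h2 a ha
      rw [div_lt_iff₀ h7] at this
      linarith
    have g5 : ∑ a ∈ S, (1 - L a - ε) * T = (∑ a ∈ S, (1 - L a) - S.card * ε) * T := by
      rw [← Finset.sum_mul, Finset.sum_sub_distrib, Finset.sum_const, nsmul_eq_mul]
    have g6 : (1 - s + ε) * T' ≤ (1 - s + ε) * (T + ε * T) := by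
      apply mul_le_mul_of_nonneg_left _ (by linarith)
      linarith
    have g7 : (∑ a ∈ S, (1 - L a) - S.card * ε) * T ≤ ((1 - s + ε) * (1 + ε) + ε) * T := by
      rw [← g5]
      calc _ ≤ _ := g4
        _ ≤ _ := h4
        _ ≤ _ := by linarith
    have g8 := le_of_mul_le_mul_right g7 h7
    nlinarith
  apply le_of_forall_pos_le_add
  intro δ hδ
  set ε := min 1 (δ / (S.card + 4)) with hε
  have hc : (0 : ℝ) < S.card + 4 := by positivity
  have h1 : 0 < ε := lt_min one_pos (div_pos hδ hc)
  have h2 : ε * (S.card + 4) ≤ δ := by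
    rw [← le_div_iff₀ hc]
    exact min_le_right _ _
  have := key ε h1 (min_le_left _ _)
  linarith

theorem K_ge_exact {p : ℕ} (hp : 2 ≤ p) : ∃ η0 : ℝ, 0 < η0 ∧ η0 ≤ 1 / 4 ∧ ∀ ρ : ℝ,
    (p : ℝ) - η0 < ρ → ρ < p → ((|Real.sin (Real.pi * ρ)| / p : ℝ) : EReal) ≤ K ρ := by
  obtain ⟨η0, h0, h1, h2⟩ := lower_exact hp
  refine ⟨η0, h0, h1, fun ρ h3 h4 => ?_⟩
  have hp2 : (2 : ℝ) ≤ p := by exact_mod_cast hp
  have hρ : 0 < ρ := by linarith
  set s := |Real.sin (Real.pi * ρ)| / p with hs
  have hs0 : 0 ≤ s := by positivity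
  have hs1 : s ≤ 1 := by
    rw [hs, div_le_one (by linarith)]
    exact (Real.abs_sin_le_one _).trans (by linarith)
  rw [K]
  refine le_iInf fun F => ?_
  obtain ⟨f, hf, ho⟩ := F
  have hf1 : Differentiable ℂ (deriv f) := fun z => (hf.analyticAt z).deriv.differentiableAt
  have ho1 := order_deriv hf hρ ho
  have hlow : lowerOrder (deriv f) ≤ (ρ : EReal) := by
    rw [← ho1]
    exact liminf_le_limsup
  have h5 := h2 ρ h3 h4 (deriv f) (fun z => (hf1.analyticAt z).meromorphicAt) ((0 : ℂ) : WithTop ℂ) ⊤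
    WithTop.coe_ne_top hlow ho1.ge
  rw [logCounting_top_eq hf1] at h5
  simp only [Pi.zero_apply, add_zero] at h5
  have hsum : ∀ F : Finset (WithTop ℂ), ∑ a ∈ F, (deficiency f a).toENNReal ≤
      ENNReal.ofReal (2 - s) := by
    intro F
    classical
    set S : Finset ℂ := F.preimage (fun z : ℂ => (z : WithTop ℂ))
      (WithTop.coe_injective.injOn) with hS
    set S' : Finset ℂ := S.filter (fun a => 0 < deficiency f (a : WithTop ℂ)) with hS'
    have hF : F ⊆ insert ⊤ (S.image (fun z : ℂ => (z : WithTop ℂ))) := by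
      intro a ha
      rcases eq_or_ne a ⊤ with h | h
      · rw [h]; exact Finset.mem_insert_self _ _
      · obtain ⟨b, rfl⟩ := WithTop.ne_top_iff_exists.1 h
        apply Finset.mem_insert_of_mem
        rw [Finset.mem_image]
        exact ⟨b, by rw [hS, Finset.mem_preimage]; exact ha, rfl⟩
    have hdtop : deficiency f ⊤ = 1 := by
      rw [deficiency, logCounting_top_eq hf]
      simp
    have hlim0 : ∀ a : WithTop ℂ, 0 ≤ limsup (fun r : ℝ => ((logCounting f a r /
        characteristic f ⊤ r : ℝ) : EReal)) atTop := by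
      intro a
      refine le_limsup_of_frequently_le ?_ (by isBoundedDefault)
      apply Eventually.frequently
      filter_upwards [eventually_ge_atTop 1] with r hr
      have : 0 ≤ logCounting f a r / characteristic f ⊤ r :=
        div_nonneg (logCounting_nonneg hr) (characteristic_nonneg hr)
      exact_mod_cast this
    set L : ℂ → ℝ := fun a => (limsup (fun r : ℝ => ((logCounting f (a : WithTop ℂ) r /
        characteristic f ⊤ r : ℝ) : EReal)) atTop).toReal with hLd
    have hL : ∀ a ∈ S', limsup (fun r : ℝ => ((logCounting f (a : WithTop ℂ) r /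
        characteristic f ⊤ r : ℝ) : EReal)) atTop = (L a : EReal) := by
      intro a ha
      have ha1 := (Finset.mem_filter.1 ha).2
      rw [hLd, EReal.coe_toReal]
      · intro htop
        rw [deficiency, htop] at ha1
        simp at ha1
      · intro hbot
        have := hlim0 (a : WithTop ℂ)
        rw [hbot] at this
        simp at this
    have hdef : ∀ a ∈ S', deficiency f (a : WithTop ℂ) = ((1 - L a : ℝ) : EReal) := by
      intro a ha
      rw [deficiency, hL a ha]
      norm_cast
    have h6 := pb46_sum hf hρ ho hs0 hs1 h5 S' L hL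
    have hpos : ∀ a ∈ S', 0 ≤ 1 - L a := by
      intro a ha
      have ha1 := (Finset.mem_filter.1 ha).2
      rw [hdef a ha] at ha1
      have : 0 < 1 - L a := by exact_mod_cast ha1
      exact this.le
    have h7 : ∑ a ∈ S, (deficiency f (a : WithTop ℂ)).toENNReal ≤ ENNReal.ofReal (1 - s) := by
      have h8 : ∑ a ∈ S', (deficiency f (a : WithTop ℂ)).toENNReal =
          ∑ a ∈ S, (deficiency f (a : WithTop ℂ)).toENNReal := by
        rw [hS']
        apply Finset.sum_filter_of_ne
        intro a _ ha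
        by_contra hcon
        exact ha (EReal.toENNReal_of_nonpos (not_lt.1 hcon))
      rw [← h8]
      calc ∑ a ∈ S', (deficiency f (a : WithTop ℂ)).toENNReal
          = ∑ a ∈ S', ENNReal.ofReal (1 - L a) := by
            refine Finset.sum_congr rfl fun a ha => ?_
            rw [hdef a ha, EReal.toENNReal_of_ne_top (EReal.coe_ne_top _), EReal.toReal_coe]
        _ = ENNReal.ofReal (∑ a ∈ S', (1 - L a)) := (ENNReal.ofReal_sum_of_nonneg hpos).symm
        _ ≤ ENNReal.ofReal (1 - s) := ENNReal.ofReal_le_ofReal h6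
    calc ∑ a ∈ F, (deficiency f a).toENNReal
        ≤ ∑ a ∈ insert ⊤ (S.image (fun z : ℂ => (z : WithTop ℂ))), (deficiency f a).toENNReal :=
          Finset.sum_le_sum_of_subset hF
      _ = (deficiency f ⊤).toENNReal + ∑ a ∈ S, (deficiency f (a : WithTop ℂ)).toENNReal := by
          rw [Finset.sum_insert, Finset.sum_image (fun a _ b _ h => WithTop.coe_injective h)]
          intro h
          obtain ⟨b, -, hb⟩ := Finset.mem_image.1 h
          exact WithTop.coe_ne_top hb
      _ ≤ 1 + ENNReal.ofReal (1 - s) := by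
          rw [hdtop]
          gcongr
          rw [EReal.toENNReal_of_ne_top (by exact EReal.coe_ne_top 1)]
          simp
      _ = ENNReal.ofReal (2 - s) := by
          rw [← ENNReal.ofReal_one, ← ENNReal.ofReal_add zero_le_one (by linarith)]
          congr 1
          ring
  have hD : deficiencySum f ≤ ((2 - s : ℝ) : EReal) := by
    rw [deficiencySum, ENNReal.tsum_eq_iSup_sum]
    have h8 : (⨆ F : Finset (WithTop ℂ), ∑ a ∈ F, (deficiency f a).toENNReal) ≤
        ENNReal.ofReal (2 - s) := iSup_le hsum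
    have h9 : ((ENNReal.ofReal (2 - s) : ENNReal) : EReal) = ((2 - s : ℝ) : EReal) := by
      rw [EReal.coe_ennreal_ofReal, max_eq_left (by linarith)]
    rw [← h9]
    exact_mod_cast h8
  have h10 : (2 : EReal) - ((2 - s : ℝ) : EReal) ≤ 2 - deficiencySum f := EReal.sub_le_sub le_rfl hD
  refine le_trans (le_of_eq ?_) h10
  have : (2 : EReal) = ((2 : ℝ) : EReal) := rfl
  rw [this, ← EReal.coe_sub]
  congr 1
  ring

end Pool.Agent.PfB
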