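import Pool.Agent.PfB.UUx
import Pool.Agent.PfA.Upper

/-! MP_f2c8f8_an, project PfB, row PB-42 -/

set_option autoImplicit false

open MeasureTheory Filter
open scoped ComplexConjugate Topology

noncomputable section

namespace Pool.Agent.PfB

open Pool.Agent.PfA Pool.Agent.H9.Pf ValueDistribution

/-- the logarithm of the modulus of the product -/
def pb42_u (ρ : ℝ) (z : ℂ) : ℝ := Real.log ‖PP ρ z‖

/-- the coefficients up to signs -/
def pb42_S (ρ : ℝ) (n : ℕ) (r : ℝ) : ℝ := ∑' k : ℕ, kap ⌊ρ⌋₊ n (r / aa ρ k)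

theorem pb42_fc0 (u : ℂ → ℝ) (r : ℝ) :
    fc u r 0 = ((Real.circleAverage u 0 r : ℝ) : ℂ) := by
  unfold fc Real.circleAverage
  simp only [pow_zero, mul_one]
  rw [intervalIntegral.integral_ofReal]
  simp

theorem pb42_int {ρ : ℝ} (hρ : 1 < ρ) (hn : NonInt ρ) (r : ℝ) :
    CircleIntegrable (pb42_u ρ) 0 r :=
  MeromorphicOn.circleIntegrable_log_norm fun z _ =>
    ((PP_differentiable hρ hn).analyticAt z).meromorphicAt

theorem pb42_fc {ρ : ℝ} (hρ : 1 < ρ) (hn : NonInt ρ) {r : ℝ} (hr : 0 < r)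
    (hreg : r ∉ Set.range (aa ρ)) (n : ℕ) :
    fc (pb42_u ρ) r n = (((-1) ^ n * pb42_S ρ n r : ℝ) : ℂ) := by
  have h1 := fc_PP hρ hn hr (fun k hk => hreg ⟨k, hk⟩) n
  have h2 := h1.tsum_eq
  rw [tsum_mul_left, ← Complex.ofReal_tsum] at h2
  show fc (fun z => Real.log ‖PP ρ z‖) r n = _
  rw [← h2]
  unfold pb42_S
  push_cast
  rfl

theorem pb42_avg {ρ : ℝ} (hρ : 1 < ρ) (hn : NonInt ρ) {r : ℝ} (hr : 0 < r)
    (hreg : r ∉ Set.range (aa ρ)) : Real.circleAverage (pb42_u ρ) 0 r = pb42_S ρ 0 r := by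
  have h1 := pb42_fc hρ hn hr hreg 0
  rw [pb42_fc0, pow_zero, one_mul] at h1
  exact_mod_cast h1

theorem pb42_T {ρ : ℝ} (hρ : 1 < ρ) (hn : NonInt ρ) (r : ℝ) :
    characteristic (PP ρ) ⊤ r =
      (Real.circleAverage (pb42_u ρ) 0 r + UU (pb42_u ρ) r) / 2 := by
  have hd := PP_differentiable hρ hn
  rw [Pool.Agent.H9.Pf.T_eq hd]
  unfold Pool.Agent.H9.Pf.T UU
  have h1 : (fun w => Real.posLog ‖PP ρ w‖) =
      fun w => (2 : ℝ)⁻¹ • (pb42_u ρ w + |pb42_u ρ w|) := by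
    funext w
    unfold pb42_u
    rw [smul_eq_mul, Real.half_mul_log_add_log_abs]
  have hi := pb42_int hρ hn r
  have hi2 : CircleIntegrable (fun w => |pb42_u ρ w|) 0 r := hi.abs
  rw [h1, Real.circleAverage_fun_smul, Real.circleAverage_fun_add hi hi2, smul_eq_mul]
  ring

/-- the pairing with real coefficients -/
def pb42_Q (M : ℕ) (b : ℕ → ℂ) (c : ℕ → ℝ) : ℝ :=
  c 0 * (b 0).re + 2 * ∑ n ∈ Finset.Icc 1 M, c n * (b n).re

theorem pb42_pr {u : ℂ → ℝ} {r : ℝ} {M : ℕ} {b : ℕ → ℂ} {c : ℕ → ℝ}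
    (h : ∀ n, fc u r n = ((c n : ℝ) : ℂ)) : pr u r M b = pb42_Q M b c := by
  unfold pr pb42_Q
  simp only [h, Complex.re_ofReal_mul, Complex.conj_re]

theorem pb42_lim {ρ : ℝ} (hρ : 1 < ρ) (hn : NonInt ρ) (M : ℕ) (b : ℕ → ℂ) :
    Tendsto (fun r : ℝ => (r ^ ρ)⁻¹ * pb42_Q M b (fun n => (-1) ^ n * pb42_S ρ n r)) atTop
      (𝓝 (pb42_Q M b (fun n => (-1) ^ n * (ρ / (ρ ^ 2 - (n : ℝ) ^ 2))))) := by
  have h1 : ∀ n : ℕ, Tendsto (fun r : ℝ => (-1) ^ n * ((r ^ ρ)⁻¹ * pb42_S ρ n r)) atTop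
      (𝓝 ((-1) ^ n * (ρ / (ρ ^ 2 - (n : ℝ) ^ 2)))) := fun n =>
    (kap_tendsto hρ hn n).const_mul _
  have h2 : Tendsto (fun r : ℝ => pb42_Q M b
      (fun n => (-1) ^ n * ((r ^ ρ)⁻¹ * pb42_S ρ n r))) atTop
      (𝓝 (pb42_Q M b (fun n => (-1) ^ n * (ρ / (ρ ^ 2 - (n : ℝ) ^ 2))))) := by
    unfold pb42_Q
    refine ((h1 0).mul_const _).add (Tendsto.const_mul _ ?_)
    exact tendsto_finsetSum _ fun n _ => (h1 n).mul_const _
  refine h2.congr fun r => ?_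
  unfold pb42_Q
  rw [mul_add, Finset.mul_sum, Finset.mul_sum, Finset.mul_sum]
  congr 1
  · ring
  · refine Finset.sum_congr rfl fun n _ => ?_
    ring

theorem pb42_dense (ρ : ℝ) : Dense (Set.range (aa ρ))ᶜ :=
  (Set.countable_range _).dense_compl ℝ

theorem pb42_up {F g : ℝ → ℝ} {E : Set ℝ} (hE : Dense Eᶜ)
    (hF : MonotoneOn F (Set.Ioi 0)) (hg : Continuous g)
    (h : ∀ᶠ r : ℝ in atTop, r ∉ E → g r ≤ F r) : ∀ᶠ r : ℝ in atTop, g r ≤ F r := by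
  obtain ⟨R, hR⟩ := eventually_atTop.mp h
  filter_upwards [eventually_gt_atTop (max R 1)] with r hr
  have hcl : IsClosed {x : ℝ | g x ≤ F r} := isClosed_le hg continuous_const
  have hsub : Set.Ioo (max R 1) r ∩ Eᶜ ⊆ {x : ℝ | g x ≤ F r} := by
    rintro x ⟨hx, hx'⟩
    have h6 : 0 < x := by
      have := le_max_right R 1
      linarith [hx.1]
    have h7 : g x ≤ F x := hR x ((le_max_left R 1).trans hx.1.le) hx'
    have h8 : F x ≤ F r := hF h6 (h6.trans hx.2) hx.2.le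
    exact h7.trans h8
  have h7 : closure (Set.Ioo (max R 1) r) ⊆ {x : ℝ | g x ≤ F r} := by
    refine closure_minimal ?_ hcl
    exact (hE.open_subset_closure_inter isOpen_Ioo).trans (closure_minimal hsub hcl)
  rw [closure_Ioo hr.ne] at h7
  exact h7 ⟨hr.le, le_refl r⟩

theorem pb42_e1 {ρ : ℝ} (hρ : ρ ≠ 0) : ρ / (ρ ^ 2 - ((0 : ℕ) : ℝ) ^ 2) = 1 / ρ := by
  rw [Nat.cast_zero, zero_pow two_ne_zero, sub_zero]
  field_simp

theorem pb42_e2 {P ρ s : ℝ} (hρ : ρ ≠ 0) (hs : s ≠ 0) :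
    (2 * P - s) / (ρ * s) = 2 * (P / (ρ * s)) - 1 / ρ := by
  field_simp

theorem pb42_sn {ρ : ℝ} (hn : NonInt ρ) : 0 < sn ρ := abs_pos.mpr (by
  intro h
  obtain ⟨n, hn'⟩ := Real.sin_eq_zero_iff.mp h
  refine hn n ?_
  have h1 : Real.pi * ((n : ℝ) - ρ) = 0 := by linarith
  rcases mul_eq_zero.mp h1 with h2 | h2
  · exact absurd h2 Real.pi_pos.ne'
  · linarith)

theorem pb42_arith {κ ρ ε A L U q : ℝ} (hq : 0 < q) (h2 : 2 * κ - 1 / ρ - ε ≤ L)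
    (h3 : q * (L - ε / 2) < U) (h4 : q * (1 / ρ - ε / 2) < A) :
    (κ - ε) * q ≤ (A + U) / 2 := by
  have h8 : q * (2 * κ - 1 / ρ - ε - ε / 2) ≤ q * (L - ε / 2) :=
    mul_le_mul_of_nonneg_left (by linarith) hq.le
  have e3 : (κ - ε) * q = (q * (1 / ρ - ε / 2) +
      q * (2 * κ - 1 / ρ - ε - ε / 2)) / 2 := by ring
  rw [e3]
  linarith

theorem pb42_nonInt {p : ℕ} {ρ : ℝ} (h0 : (p : ℝ) - 1 / 2 < ρ) (h1 : ρ < p) : NonInt ρ := by
  intro n hn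
  have h2 : (n : ℝ) < (p : ℤ) := by push_cast; linarith
  have h3 : ((p : ℤ) : ℝ) - 1 < n := by push_cast; linarith
  have h4 : n < (p : ℤ) := by exact_mod_cast h2
  have h5 : (p : ℤ) - 1 < n := by exact_mod_cast h3
  omega

theorem pb42_reg {p : ℕ} (hp : 2 ≤ p) {ρ : ℝ} (h0 : (p : ℝ) - 1 / 2 < ρ) (h1 : ρ < p) {ε : ℝ}
    (hε : 0 < ε) :
    ∀ᶠ r : ℝ in atTop, r ∉ Set.range (aa ρ) →
      ((p : ℝ) / (ρ * sn ρ) - ε) * r ^ ρ ≤ characteristic (PP ρ) ⊤ r := by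
  have hp2 : (2 : ℝ) ≤ p := by exact_mod_cast hp
  have hρ : 1 < ρ := by linarith
  have hn : NonInt ρ := pb42_nonInt h0 h1
  have hρ0 : ρ ≠ 0 := by linarith
  have hs : sn ρ ≠ 0 := (pb42_sn hn).ne'
  obtain ⟨M, b, hb, h1'⟩ := duality one_pos (hh_circleIntegrable (ρ := ρ) 1) hε
  have h2 := UU_hh_exact hp h0 h1
  rw [pb42_pr (fc_hh hρ hn)] at h1'
  rw [pb42_e2 hρ0 hs] at h2
  have hL := pb42_lim hρ hn M b
  set L : ℝ := pb42_Q M b (fun n => (-1) ^ n * (ρ / (ρ ^ 2 - (n : ℝ) ^ 2))) with hLdef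
  have h3 := hL.eventually_const_lt (show L - ε / 2 < L from sub_lt_self _ (by linarith))
  have hK := kap_tendsto hρ hn 0
  rw [pb42_e1 hρ0] at hK
  have h4 := hK.eventually_const_lt
    (show 1 / ρ - ε / 2 < 1 / ρ from sub_lt_self _ (by linarith))
  filter_upwards [h3, h4, eventually_gt_atTop 0] with r h3 h4 hr hreg
  have hr' : 0 < r ^ ρ := Real.rpow_pos_of_pos hr ρ
  rw [pb42_T hρ hn, pb42_avg hρ hn hr hreg]
  have h6 := pr_le hr (pb42_int hρ hn r) hb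
  rw [pb42_pr (pb42_fc hρ hn hr hreg)] at h6
  rw [lt_inv_mul_iff₀ hr'] at h3 h4
  exact pb42_arith hr' (by linarith) (h3.trans_le h6) h4

theorem T_PP_exact {p : ℕ} (hp : 2 ≤ p) {ρ : ℝ} (h0 : (p : ℝ) - 1 / 2 < ρ) (h1 : ρ < p) {ε : ℝ}
    (hε : 0 < ε) : ∀ᶠ r : ℝ in atTop,
      ((p : ℝ) / (ρ * sn ρ) - ε) * r ^ ρ ≤ characteristic (PP ρ) ⊤ r := by
  have hp2 : (2 : ℝ) ≤ p := by exact_mod_cast hp
  have hρ : 1 < ρ := by linarith
  have hn : NonInt ρ := pb42_nonInt h0 h1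
  have hρ0 : 0 ≤ ρ := by linarith
  have hm : Meromorphic (PP ρ) := fun z =>
    ((PP_differentiable hρ hn).analyticAt z).meromorphicAt
  have hcont : Continuous fun x : ℝ => ((p : ℝ) / (ρ * sn ρ) - ε) * x ^ ρ :=
    continuous_const.mul (Real.continuous_rpow_const hρ0)
  exact pb42_up (pb42_dense ρ) (characteristic_monotoneOn hm) hcont (pb42_reg hp h0 h1 hε)

theorem pb42_def_zero {p : ℕ} (hp : 2 ≤ p) {ρ : ℝ} (h0 : (p : ℝ) - 1 / 2 < ρ) (h1 : ρ < p) :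
    ((1 - sn ρ / p : ℝ) : EReal) ≤ deficiency (PP ρ) (0 : ℂ) := by
  have hp2 : (2 : ℝ) ≤ p := by exact_mod_cast hp
  have hp0 : (0 : ℝ) < p := by linarith
  have hρ : 1 < ρ := by linarith
  have hn : NonInt ρ := pb42_nonInt h0 h1
  have hs := pf31_sn_pos hn
  have hρ0 : 0 < ρ := by linarith
  have h : limsup (fun r : ℝ => ((logCounting (PP ρ) ((0 : ℂ) : WithTop ℂ) r /
      characteristic (PP ρ) ⊤ r : ℝ) : EReal)) atTop ≤ ((sn ρ / p : ℝ) : EReal) := by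
    apply limsup_le_real
    intro ε hε
    have hlim : Tendsto (fun d : ℝ => (1 / ρ + d) - (sn ρ / p + ε) * ((p : ℝ) / (ρ * sn ρ) - d))
        (𝓝[>] 0) (𝓝 ((1 / ρ + 0) - (sn ρ / p + ε) * ((p : ℝ) / (ρ * sn ρ) - 0))) := by
      apply Tendsto.mono_left _ nhdsWithin_le_nhds
      exact (by fun_prop : Continuous fun d : ℝ =>
        (1 / ρ + d) - (sn ρ / p + ε) * ((p : ℝ) / (ρ * sn ρ) - d)).tendsto 0
    have hneg : (1 / ρ + 0) - (sn ρ / p + ε) * ((p : ℝ) / (ρ * sn ρ) - 0) < 0 := by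
      have e : (1 / ρ + 0) - (sn ρ / p + ε) * ((p : ℝ) / (ρ * sn ρ) - 0) = - (ε * ((p : ℝ) / (ρ * sn ρ))) := by
        field_simp; ring
      rw [e]
      have : 0 < ε * ((p : ℝ) / (ρ * sn ρ)) := by positivity
      linarith
    have hd : ∀ᶠ d : ℝ in 𝓝[>] 0, d < (p : ℝ) / (ρ * sn ρ) := by
      apply nhdsWithin_le_nhds
      exact eventually_lt_nhds (by positivity)
    obtain ⟨d, hd1, hd2, hd3⟩ := ((hlim.eventually_lt_const hneg).and
      (hd.and self_mem_nhdsWithin)).exists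
    have hd3 : 0 < d := hd3
    filter_upwards [T_PP_exact hp h0 h1 hd3, N_PP hρ hn hd3, eventually_gt_atTop 0] with r g1 h2 h3
    have hr : 0 < r ^ ρ := Real.rpow_pos_of_pos h3 _
    have hT : 0 < characteristic (PP ρ) ⊤ r :=
      lt_of_lt_of_le (mul_pos (by linarith) hr) g1
    rw [div_le_iff₀ hT]
    have h2' : logCounting (PP ρ) ((0 : ℂ) : WithTop ℂ) r ≤ (1 / ρ + d) * r ^ ρ := h2
    refine h2'.trans (le_trans ?_ (mul_le_mul_of_nonneg_left g1 (by positivity)))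
    nlinarith
  unfold deficiency
  have h1 : ((1 - sn ρ / p : ℝ) : EReal) = 1 - ((sn ρ / p : ℝ) : EReal) := by
    push_cast; rfl
  rw [h1]
  exact EReal.sub_le_sub le_rfl h

theorem K_le_exact {p : ℕ} (hp : 2 ≤ p) {ρ : ℝ} (h0 : (p : ℝ) - 1 / 2 < ρ) (h1 : ρ < p) :
    K ρ ≤ ((|Real.sin (Real.pi * ρ)| / p : ℝ) : EReal) := by
  change K ρ ≤ ((sn ρ / p : ℝ) : EReal)
  have hp2 : (2 : ℝ) ≤ p := by exact_mod_cast hp
  have hp0 : (0 : ℝ) < p := by linarith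
  have hρ : 1 < ρ := by linarith
  have hn : NonInt ρ := pb42_nonInt h0 h1
  have hs := pf31_sn_pos hn
  have hρ0 : 0 < ρ := by linarith
  have hq1 : sn ρ / p ≤ 1 := by
    rw [div_le_one hp0]
    have := pf31_sn_le ρ
    linarith
  have hK : K ρ ≤ 2 - deficiencySum (PP ρ) :=
    iInf_le (fun f : {f : ℂ → ℂ // Differentiable ℂ f ∧ order f = (ρ : EReal)} =>
      (2 - deficiencySum f.1)) ⟨PP ρ, PP_differentiable hρ hn, order_PP hρ hn⟩
  have hz := pb42_def_zero hp h0 h1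
  have ht := pf31_def_top hρ hn
  have hnn : (0 : EReal) ≤ ((1 - sn ρ / p : ℝ) : EReal) := by
    exact_mod_cast (by linarith : (0 : ℝ) ≤ 1 - sn ρ / p)
  have hsum : (deficiency (PP ρ) ⊤).toENNReal + (deficiency (PP ρ) (0 : ℂ)).toENNReal ≤
      ∑' a : WithTop ℂ, (deficiency (PP ρ) a).toENNReal := by
    have h := ENNReal.sum_le_tsum (f := fun a : WithTop ℂ => (deficiency (PP ρ) a).toENNReal)
      {⊤, ((0 : ℂ) : WithTop ℂ)}
    rwa [Finset.sum_pair (by simp)] at h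
  have hdS : ((2 - sn ρ / p : ℝ) : EReal) ≤ deficiencySum (PP ρ) := by
    unfold deficiencySum
    refine le_trans ?_ (EReal.coe_ennreal_le_coe_ennreal_iff.2 hsum)
    rw [EReal.coe_ennreal_add, EReal.coe_toENNReal (hnn.trans hz), ht]
    rw [EReal.coe_toENNReal (by norm_num)]
    refine le_trans ?_ (add_le_add_right hz 1)
    have : ((2 - sn ρ / p : ℝ) : EReal) = ((1 + (1 - sn ρ / p) : ℝ) : EReal) := by
      congr 1; ring
    rw [this]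
    push_cast
    exact le_rfl
  refine hK.trans ((EReal.sub_le_sub le_rfl hdS).trans ?_)
  have : (2 : EReal) - ((2 - sn ρ / p : ℝ) : EReal) = ((2 - (2 - sn ρ / p) : ℝ) : EReal) := by
    push_cast; rfl
  rw [this]
  apply le_of_eq
  congr 1
  ring

end Pool.Agent.PfB
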