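import Pool.Agent.PfB.LowX
import Pool.Agent.PfB.Upx
import Pool.Agent.PfB.Kge

/-! MP_f2c8f8_an, project PfB: final theorems -/

set_option autoImplicit false

open Filter ValueDistribution Pool.Agent.H9.Pf
open scoped Topology

noncomputable section

namespace Pool.Agent.PfB

theorem final {p : ℕ} (hp : 2 ≤ p) : ∃ δ : ℝ, 0 < δ ∧ δ ≤ 1 / 4 ∧ ∀ ρ : ℝ,
    (p : ℝ) - δ < ρ → ρ < p →
    K ρ = ((|Real.sin (Real.pi * ρ)| / p : ℝ) : EReal) ∧
    ∀ f : ℂ → ℂ, Meromorphic f → lowerOrder f ≤ (ρ : EReal) → (ρ : EReal) ≤ order f →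
      ∀ a b : WithTop ℂ, a ≠ b →
        K ρ ≤ limsup (fun r : ℝ => (((logCounting f a r + logCounting f b r) /
          characteristic f ⊤ r : ℝ) : EReal)) atTop := by
  obtain ⟨η0, h0, h0', h⟩ := lower_exact hp
  obtain ⟨η1, h1, h1', h'⟩ := K_ge_exact hp
  refine ⟨min η0 η1, lt_min h0 h1, (min_le_left _ _).trans h0', fun ρ hρ hρ2 => ?_⟩
  have e0 : (p : ℝ) - η0 < ρ := by linarith [min_le_left η0 η1]
  have e1 : (p : ℝ) - η1 < ρ := by linarith [min_le_right η0 η1]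
  have hK := K_le_exact hp (by linarith : (p : ℝ) - 1 / 2 < ρ) hρ2
  refine ⟨le_antisymm hK (h' ρ e1 hρ2), fun f hf hl ho a b hab => hK.trans ?_⟩
  exact h ρ e0 hρ2 f hf a b hab hl ho

theorem pb_sin_lt {p : ℕ} {t ρ : ℝ} (h1 : (p : ℝ) - 1 / 4 ≤ t) (h2 : t < ρ) (h3 : ρ < p) :
    |Real.sin (Real.pi * ρ)| < |Real.sin (Real.pi * t)| := by
  have key : ∀ x : ℝ, |Real.sin (Real.pi * x)| = |Real.sin (Real.pi * (p - x))| := by
    intro x
    have : Real.pi * (p - x) = p * Real.pi - Real.pi * x := by ring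
    rw [this, Real.sin_nat_mul_pi_sub, abs_neg, abs_mul, abs_pow, abs_neg, abs_one, one_pow,
      one_mul]
  rw [key ρ, key t]
  have hpi := Real.pi_pos
  have a1 : 0 < Real.sin (Real.pi * (p - ρ)) :=
    Real.sin_pos_of_pos_of_lt_pi (by nlinarith) (by nlinarith)
  have a2 : Real.sin (Real.pi * (p - ρ)) < Real.sin (Real.pi * (p - t)) :=
    Real.sin_lt_sin_of_lt_of_le_pi_div_two (by nlinarith) (by nlinarith) (by nlinarith)
  rw [abs_of_pos a1, abs_of_pos (a1.trans a2)]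
  exact a2

theorem final2 {p : ℕ} (hp : 2 ≤ p) : ∃ δ : ℝ, 0 < δ ∧ ∀ ρ : ℝ,
    (p : ℝ) - δ < ρ → ρ < p →
    ∀ f : ℂ → ℂ, Meromorphic f → order f = (ρ : EReal) → ∀ a b : WithTop ℂ, a ≠ b →
      limsup (fun r : ℝ => (((logCounting f a r + logCounting f b r) /
          characteristic f ⊤ r : ℝ) : EReal)) atTop = K ρ →
      lowerOrder f = (ρ : EReal) := by
  obtain ⟨δ, hδ, hδ', h⟩ := final hp
  refine ⟨δ, hδ, fun ρ hρ hρ2 f hf ho a b hab hlim => ?_⟩
  have hlo : lowerOrder f ≤ (ρ : EReal) := by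
    rw [← ho]
    exact liminf_le_limsup
  by_contra hne
  have hlt : lowerOrder f < (ρ : EReal) := lt_of_le_of_ne hlo hne
  obtain ⟨y, hy1, hy2⟩ := EReal.lt_iff_exists_real_btwn.1 hlt
  have hy2' : y < ρ := by exact_mod_cast hy2
  set t : ℝ := max y ((ρ + (p - δ)) / 2) with ht
  have t1 : (p : ℝ) - δ < t := lt_of_lt_of_le (by linarith) (le_max_right _ _)
  have t2 : t < ρ := max_lt hy2' (by linarith)
  have t3 : lowerOrder f ≤ (t : EReal) :=
    hy1.le.trans (by exact_mod_cast le_max_left _ _)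
  have hρK := (h ρ hρ hρ2).1
  obtain ⟨hK, hf'⟩ := h t t1 (t2.trans hρ2)
  have h1 := hf' f hf t3 (by rw [ho]; exact_mod_cast t2.le) a b hab
  rw [hlim, hK, hρK] at h1
  have h2 : |Real.sin (Real.pi * t)| / p ≤ |Real.sin (Real.pi * ρ)| / p := by exact_mod_cast h1
  have hp0 : (0 : ℝ) < p := by exact_mod_cast (by omega : 0 < p)
  have h3 := pb_sin_lt (by linarith : (p : ℝ) - 1 / 4 ≤ t) t2 hρ2
  rw [div_le_div_iff_of_pos_right hp0] at h2
  linarith

end Pool.Agent.PfB
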