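import Pool.Agent.PfB.Ker
import Pool.Agent.PfB.KBd
import Pool.Agent.PfB.Conf
import Pool.Agent.PfB.Jint

/-! MP_f2c8f8_an, project PfB, row PB-14 -/

set_option autoImplicit false

open MeasureTheory Filter
open scoped ComplexConjugate Topology

noncomputable section

namespace Pool.Agent.PfB

theorem pb14_cos {θ : ℝ} (hθ : |θ| < Real.pi) : 0 < Real.cos (θ / 2) := by
  have h := abs_lt.mp hθ
  apply Real.cos_pos_of_mem_Ioo
  constructor <;> linarith [h.1, h.2]

theorem pb14_ne {θ : ℝ} (hθ : |θ| < Real.pi) (x : ℝ) : wz x θ ≠ 1 :=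
  wz_ne_one (Or.inr (pb14_cos hθ).ne')

theorem pb14_meas (p : ℕ) (θ : ℝ) : Measurable (fun x : ℝ => KK p x θ) :=
  (KK_meas p).comp (measurable_id.prodMk measurable_const)

theorem pb14_wz_cont (θ : ℝ) : Continuous (fun x : ℝ => wz x θ) := by
  unfold wz
  fun_prop

theorem pb14_FA_cont (p : ℕ) {θ : ℝ} (hθ : |θ| < Real.pi) :
    Continuous (fun x : ℝ => FA p x θ) := by
  unfold FA
  apply Continuous.div
  · exact (pb14_wz_cont θ).pow p
  · exact continuous_const.sub (pb14_wz_cont θ)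
  · intro x hx
    exact pb14_ne hθ x (sub_eq_zero.mp hx).symm

theorem pb14_bd {p : ℕ} (hp : 2 ≤ p) {θ : ℝ} (hθ : |θ| < Real.pi) :
    ∃ C : ℝ, 0 < C ∧ ∀ x : ℝ, ‖FA p x θ‖ ≤ C * vv p x ∧ |KK p x θ| ≤ C * vv p x := by
  obtain ⟨C, hC, h⟩ := FB_bd hp (pb14_cos hθ)
  refine ⟨C, hC, fun x => ?_⟩
  have := h x θ (Or.inr (le_abs_self _))
  exact ⟨this.2.1, this.2.2⟩

theorem II_KK_int {p : ℕ} (hp : 2 ≤ p) {η θ : ℝ} (h0 : 0 < η) (h1 : η ≤ 1 / 4)
    (hθ : |θ| < Real.pi) :
    Integrable (fun x : ℝ => rh p η ^ 2 * Real.exp (rh p η * x) * KK p x θ) := by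
  obtain ⟨C, hC, h⟩ := pb14_bd hp hθ
  have := (exp_k_int hp h0 h1 (pb14_meas p θ) (fun x => (h x).2)).const_mul (rh p η ^ 2)
  refine this.congr (Filter.Eventually.of_forall fun x => ?_)
  simp only
  ring

/-- the complex kernel under the substitution `x = - y` -/
theorem pb14_FA (p : ℕ) (η θ y : ℝ) :
    (Real.exp (rh p η * (-y)) : ℂ) * FA p (-y) θ =
      ((-1 : ℂ) ^ p * Complex.exp ((p : ℂ) * θ * Complex.I)) *
        ((Real.exp (η * y) : ℂ) / (1 + Complex.exp ((y : ℂ) + (θ : ℂ) * Complex.I))) := by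
  unfold FA wz
  have e1 : (1 : ℂ) - -Complex.exp (-((-y : ℝ) : ℂ) + (θ : ℂ) * Complex.I) =
      1 + Complex.exp ((y : ℂ) + (θ : ℂ) * Complex.I) := by
    push_cast
    rw [sub_neg_eq_add, neg_neg]
  rw [e1, neg_pow, ← Complex.exp_nat_mul]
  rw [mul_div_assoc', mul_div_assoc']
  congr 1
  have e2 : (Real.exp (rh p η * (-y)) : ℂ) = Complex.exp (((rh p η * (-y) : ℝ)) : ℂ) := by
    rw [Complex.ofReal_exp]
  have e3 : (Real.exp (η * y) : ℂ) = Complex.exp ((η * y : ℝ) : ℂ) := by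
    rw [Complex.ofReal_exp]
  rw [e2, e3]
  rw [mul_assoc ((-1 : ℂ) ^ p), ← Complex.exp_add, mul_left_comm, ← Complex.exp_add]
  congr 2
  simp only [rh]
  push_cast
  ring

theorem pb14_integral {p : ℕ} {η θ : ℝ} (h0 : 0 < η) (h1 : η ≤ 1 / 4)
    (hθ : |θ| < Real.pi) :
    ∫ x : ℝ, (Real.exp (rh p η * x) : ℂ) * FA p x θ =
      (((-1 : ℝ) ^ p * (Real.pi / Real.sin (Real.pi * η)) : ℝ) : ℂ) *
        Complex.exp (((rh p η * θ : ℝ) : ℂ) * Complex.I) := by
  have e := integral_neg_eq_self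
    (fun x : ℝ => (Real.exp (rh p η * x) : ℂ) * FA p x θ) volume
  rw [← e]
  have e2 : (fun y : ℝ => (Real.exp (rh p η * (-y)) : ℂ) * FA p (-y) θ) = fun y : ℝ =>
      ((-1 : ℂ) ^ p * Complex.exp ((p : ℂ) * θ * Complex.I)) *
        ((Real.exp (η * y) : ℂ) / (1 + Complex.exp ((y : ℂ) + (θ : ℂ) * Complex.I))) := by
    funext y
    exact pb14_FA p η θ y
  have e3 : ∫ y : ℝ, (Real.exp (rh p η * (-y)) : ℂ) * FA p (-y) θ =
      ((-1 : ℂ) ^ p * Complex.exp ((p : ℂ) * θ * Complex.I)) *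
        (((Real.pi / Real.sin (Real.pi * η) : ℝ) : ℂ) *
          Complex.exp (-(η * θ * Complex.I))) := by
    rw [e2, integral_const_mul, J_integral h0 (by linarith) hθ]
  rw [e3]
  have e4 : Complex.exp (((rh p η * θ : ℝ) : ℂ) * Complex.I) =
      Complex.exp ((p : ℂ) * θ * Complex.I) * Complex.exp (-(η * θ * Complex.I)) := by
    rw [← Complex.exp_add]
    congr 1
    simp only [rh]
    push_cast
    ring
  rw [e4]
  push_cast
  ring

theorem pb14_FA_int {p : ℕ} (hp : 2 ≤ p) {η θ : ℝ} (h0 : 0 < η) (h1 : η ≤ 1 / 4)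
    (hθ : |θ| < Real.pi) :
    Integrable (fun x : ℝ => (Real.exp (rh p η * x) : ℂ) * FA p x θ) := by
  obtain ⟨C, hC, h⟩ := pb14_bd hp hθ
  have hi := exp_k_int hp h0 h1 (k := fun x => ‖FA p x θ‖)
    ((pb14_FA_cont p hθ).norm.measurable) (B := C)
    (fun x => by rw [abs_of_nonneg (norm_nonneg _)]; exact (h x).1)
  refine hi.mono' ?_ (Filter.Eventually.of_forall fun x => ?_)
  · apply Continuous.aestronglyMeasurable
    apply Continuous.mul
    · exact Complex.continuous_ofReal.comp (Real.continuous_exp.comp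
        (continuous_const.mul continuous_id))
    · exact pb14_FA_cont p hθ
  · rw [norm_mul, Complex.norm_real, Real.norm_eq_abs, Real.abs_exp]

theorem pb14_re {p : ℕ} (hp : 2 ≤ p) {η θ : ℝ} (h0 : 0 < η) (h1 : η ≤ 1 / 4)
    (hθ : |θ| < Real.pi) :
    ∫ x : ℝ, Real.exp (rh p η * x) * (FA p x θ).re =
      (-1 : ℝ) ^ p * (Real.pi / Real.sin (Real.pi * η)) * Real.cos (rh p η * θ) := by
  have hi := pb14_FA_int hp h0 h1 hθ
  have e1 : ∫ x : ℝ, Real.exp (rh p η * x) * (FA p x θ).re =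
      (∫ x : ℝ, (Real.exp (rh p η * x) : ℂ) * FA p x θ).re := by
    have := integral_re hi
    rw [← RCLike.re_eq_complex_re, ← this]
    apply integral_congr_ae
    refine Filter.Eventually.of_forall fun x => ?_
    simp only [RCLike.re_eq_complex_re]
    rw [Complex.re_ofReal_mul]
  rw [e1, pb14_integral h0 h1 hθ, Complex.re_ofReal_mul, Complex.exp_ofReal_mul_I_re]

theorem II_KK {p : ℕ} (hp : 2 ≤ p) {η θ : ℝ} (h0 : 0 < η) (h1 : η ≤ 1 / 4)
    (hθ : |θ| < Real.pi) : II (rh p η) (fun x => KK p x θ) =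
      sg p * (Real.pi * rh p η / Real.sin (Real.pi * η)) * Real.cos (rh p η * θ) := by
  obtain ⟨C, hC, h⟩ := pb14_bd hp hθ
  have hu : ∀ x : ℝ, HasDerivAt (fun x => KK p x θ) ((FA p x θ).re) x := fun x =>
    KK_x (by omega) (pb14_ne hθ x)
  have hv : ∀ x : ℝ, HasDerivAt (fun x => rh p η * Real.exp (rh p η * x))
      (rh p η ^ 2 * Real.exp (rh p η * x)) x := by
    intro x
    have h2 : HasDerivAt (fun x : ℝ => rh p η * x) (rh p η) x := by
      simpa using (hasDerivAt_id x).const_mul (rh p η)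
    have h3 := (h2.exp).const_mul (rh p η)
    have h4 : rh p η * (Real.exp (rh p η * x) * rh p η) = rh p η ^ 2 * Real.exp (rh p η * x) := by
      ring
    rw [h4] at h3
    exact h3
  have i1 : Integrable (fun x : ℝ => KK p x θ * (rh p η ^ 2 * Real.exp (rh p η * x))) :=
    (II_KK_int hp h0 h1 hθ).congr (Filter.Eventually.of_forall fun x => by simp only; ring)
  have hre : ∀ x, |(FA p x θ).re| ≤ C * vv p x := fun x =>
    (Complex.abs_re_le_norm _).trans (h x).1
  have hm : Measurable (fun x : ℝ => (FA p x θ).re) :=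
    (Complex.continuous_re.comp (pb14_FA_cont p hθ)).measurable
  have i2 : Integrable (fun x : ℝ => (FA p x θ).re * (rh p η * Real.exp (rh p η * x))) :=
    ((exp_k_int hp h0 h1 hm hre).const_mul (rh p η)).congr
      (Filter.Eventually.of_forall fun x => by simp only; ring)
  have i3 : Integrable (fun x : ℝ => KK p x θ * (rh p η * Real.exp (rh p η * x))) :=
    ((exp_k_int hp h0 h1 (pb14_meas p θ) (fun x => (h x).2)).const_mul (rh p η)).congr
      (Filter.Eventually.of_forall fun x => by simp only; ring)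
  have key := integral_mul_deriv_eq_deriv_mul_of_integrable (fun x _ => hu x) (fun x _ => hv x) i1 i2 i3
  have e1 : II (rh p η) (fun x => KK p x θ) =
      ∫ x : ℝ, KK p x θ * (rh p η ^ 2 * Real.exp (rh p η * x)) := by
    unfold II
    apply integral_congr_ae
    refine Filter.Eventually.of_forall fun x => ?_
    simp only
    ring
  have e2 : ∫ x : ℝ, (FA p x θ).re * (rh p η * Real.exp (rh p η * x)) =
      rh p η * ∫ x : ℝ, Real.exp (rh p η * x) * (FA p x θ).re := by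
    rw [← integral_const_mul]
    apply integral_congr_ae
    refine Filter.Eventually.of_forall fun x => ?_
    simp only
    ring
  rw [e1, key, e2, pb14_re hp h0 h1 hθ]
  unfold sg
  rw [pow_succ]
  ring

end Pool.Agent.PfB
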