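import Pool.Agent.PfB.Defs

/-! MP_f2c8f8_an, project PfB, row PB-1 -/

set_option autoImplicit false

open MeasureTheory Filter
open scoped ComplexConjugate Topology

noncomputable section

namespace Pool.Agent.PfB

/-- `- exp (-x + i b)` -/
def wz (x b : ℝ) : ℂ := -Complex.exp (-(x : ℂ) + (b : ℂ) * Complex.I)

/-- `w ^ p / (1 - w)` -/
def FA (p : ℕ) (x b : ℝ) : ℂ := wz x b ^ p / (1 - wz x b)

/-- `w` times the derivative of `w ^ p / (1 - w)` -/
def FB (p : ℕ) (x b : ℝ) : ℂ :=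
  ((p : ℂ) * wz x b ^ p * (1 - wz x b) + wz x b ^ (p + 1)) / (1 - wz x b) ^ 2

theorem norm_wz (x b : ℝ) : ‖wz x b‖ = Real.exp (-x) := by
  rw [wz, norm_neg, Complex.norm_exp]
  congr 1
  simp

theorem norm_one_sub_wz_ge (x b : ℝ) :
    (1 + Real.exp (-x)) * |Real.cos (b / 2)| ≤ ‖1 - wz x b‖ := by
  have hw : (1 : ℂ) - wz x b = ((1 + Real.exp (-x) * Real.cos b : ℝ) : ℂ) +
      ((Real.exp (-x) * Real.sin b : ℝ) : ℂ) * Complex.I := by
    rw [wz, Complex.exp_add, Complex.exp_mul_I]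
    push_cast
    ring
  have hsq : ‖(1 : ℂ) - wz x b‖ ^ 2 = 1 + 2 * Real.exp (-x) * Real.cos b + Real.exp (-x) ^ 2 := by
    rw [hw, Complex.sq_norm, Complex.normSq_add_mul_I]
    have := Real.sin_sq_add_cos_sq b
    linear_combination (Real.exp (-x)) ^ 2 * this
  refine le_of_sq_le_sq ?_ (norm_nonneg _)
  rw [mul_pow, sq_abs, hsq, Real.cos_sq]
  have h2 : 2 * (b / 2) = b := by ring
  rw [h2]
  have hc : 0 ≤ 1 - Real.cos b := by linarith [Real.cos_le_one b]
  nlinarith [mul_nonneg (sq_nonneg (1 - Real.exp (-x))) hc]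

theorem norm_one_sub_wz_ge' (x b : ℝ) : |1 - Real.exp (-x)| ≤ ‖1 - wz x b‖ := by
  have h := abs_norm_sub_norm_le (1 : ℂ) (wz x b)
  rwa [norm_one, norm_wz] at h

theorem wz_ne_one {x b : ℝ} (h : x ≠ 0 ∨ Real.cos (b / 2) ≠ 0) : wz x b ≠ 1 := by
  intro h1
  rcases h with h | h
  · have h2 := norm_wz x b
    rw [h1, norm_one] at h2
    have h3 : -x = 0 := by
      rw [← Real.exp_eq_one_iff]
      exact h2.symm
    exact h (neg_eq_zero.mp h3)
  · have h2 := norm_one_sub_wz_ge x b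
    rw [h1, sub_self, norm_zero] at h2
    have h3 : 0 < (1 + Real.exp (-x)) * |Real.cos (b / 2)| :=
      mul_pos (by positivity) (abs_pos.mpr h)
    linarith

theorem cos_grid {p : ℕ} (hp : 1 ≤ p) (j : ℤ) {y : ℝ} (hy : |y| ≤ Real.pi / (4 * p)) :
    Real.sin (Real.pi / (8 * p)) ≤ |Real.cos ((th p j + y) / 2)| := by
  have hp0 : (0 : ℝ) < p := by exact_mod_cast hp
  have hpi := Real.pi_pos
  set t : ℝ := (th p j + y) / 2 with ht
  obtain ⟨m, hm⟩ : ∃ m : ℤ, |t - Real.pi / 2 - m * Real.pi| ≤ Real.pi / 2 := by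
    refine ⟨round ((t - Real.pi / 2) / Real.pi), ?_⟩
    have h := abs_sub_round ((t - Real.pi / 2) / Real.pi)
    have h2 : t - Real.pi / 2 - (round ((t - Real.pi / 2) / Real.pi) : ℝ) * Real.pi =
        ((t - Real.pi / 2) / Real.pi - round ((t - Real.pi / 2) / Real.pi)) * Real.pi := by
      field_simp
    rw [h2, abs_mul, abs_of_pos hpi]
    nlinarith
  have hcos : |Real.cos t| = |Real.sin (t - Real.pi / 2 - m * Real.pi)| := by
    rw [Real.sin_sub_int_mul_pi, abs_mul, abs_zpow, abs_neg, abs_one, one_zpow, one_mul,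
      Real.sin_sub_pi_div_two, abs_neg]
  rw [hcos, Real.abs_sin_eq_sin_abs_of_abs_le_pi (hm.trans (by linarith))]
  have hlow : Real.pi / (8 * p) ≤ |t - Real.pi / 2 - m * Real.pi| := by
    have he : t - Real.pi / 2 - m * Real.pi =
        Real.pi / (4 * p) * ((2 * j + 1 - 2 * p - 4 * p * m : ℤ) : ℝ) + y / 2 := by
      rw [ht, th]
      push_cast
      field_simp
      ring
    have hN : (1 : ℝ) ≤ |((2 * j + 1 - 2 * p - 4 * p * m : ℤ) : ℝ)| := by
      have h1 : (2 * j + 1 - 2 * (p : ℤ) - 4 * p * m : ℤ) ≠ 0 := by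
        intro h0
        have h5 : 4 * (p : ℤ) * m = 2 * (2 * (p * m)) := by ring
        rw [h5] at h0
        omega
      have h2 := Int.one_le_abs h1
      exact_mod_cast h2
    have hq : 0 < Real.pi / (4 * p) := by positivity
    have h3 : |Real.pi / (4 * p) * ((2 * j + 1 - 2 * p - 4 * p * m : ℤ) : ℝ)| -
        |y / 2| ≤ |t - Real.pi / 2 - m * Real.pi| := by
      rw [he]
      have := abs_sub_abs_le_abs_sub (Real.pi / (4 * p) *
        ((2 * j + 1 - 2 * p - 4 * p * m : ℤ) : ℝ)) (-(y / 2))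
      rwa [abs_neg, sub_neg_eq_add] at this
    rw [abs_mul, abs_of_pos hq, abs_div, abs_of_pos (by norm_num : (0 : ℝ) < 2)] at h3
    have h4 : Real.pi / (4 * p) ≤ Real.pi / (4 * p) *
        |((2 * j + 1 - 2 * p - 4 * p * m : ℤ) : ℝ)| := le_mul_of_one_le_right hq.le hN
    have h5 : Real.pi / (8 * p) = Real.pi / (4 * p) - (Real.pi / (4 * p)) / 2 := by
      field_simp
      ring
    linarith
  refine Real.sin_le_sin_of_le_of_le_pi_div_two ?_ hm hlow
  have : 0 < Real.pi / (8 * p) := by positivity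
  linarith

theorem KK_neg (p : ℕ) (x b : ℝ) : KK p x (-b) = KK p x b := by
  have h1 : (1 : ℂ) + Complex.exp (-(x : ℂ) + ((-b : ℝ) : ℂ) * Complex.I) =
      conj ((1 : ℂ) + Complex.exp (-(x : ℂ) + (b : ℂ) * Complex.I)) := by
    rw [map_add, map_one, ← Complex.exp_conj]
    simp
  rw [KK, KK, h1, RCLike.norm_conj]
  congr 1
  refine Finset.sum_congr rfl fun j _ => ?_
  rw [mul_neg, Real.cos_neg]

theorem KK_per (p : ℕ) (x b : ℝ) (n : ℤ) : KK p x (b + 2 * Real.pi * n) = KK p x b := by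
  have h1 : Complex.exp (-(x : ℂ) + ((b + 2 * Real.pi * n : ℝ) : ℂ) * Complex.I) =
      Complex.exp (-(x : ℂ) + (b : ℂ) * Complex.I) := by
    have : -(x : ℂ) + ((b + 2 * Real.pi * n : ℝ) : ℂ) * Complex.I =
        (-(x : ℂ) + (b : ℂ) * Complex.I) + n * (2 * Real.pi * Complex.I) := by
      push_cast
      ring
    rw [this]
    exact Complex.exp_periodic.int_mul n _
  rw [KK, KK, h1]
  congr 1
  refine Finset.sum_congr rfl fun j _ => ?_
  have h2 : (j : ℝ) * (b + 2 * Real.pi * n) = j * b + ((j * n : ℤ) : ℝ) * (2 * Real.pi) := by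
    push_cast
    ring
  rw [h2, Real.cos_add_int_mul_two_pi]

theorem KP_neg (p : ℕ) (x b : ℝ) : KP p x (-b) = KP p x b := by
  rw [KP, KP, KK_neg, mul_neg, Real.cos_neg]

theorem KP_per (p : ℕ) (x b : ℝ) (n : ℤ) : KP p x (b + 2 * Real.pi * n) = KP p x b := by
  have h2 : (p : ℝ) * (b + 2 * Real.pi * n) = p * b + ((p * n : ℤ) : ℝ) * (2 * Real.pi) := by
    push_cast
    ring
  rw [KP, KP, KK_per, h2, Real.cos_add_int_mul_two_pi]

theorem KK_refl (p : ℕ) (y b : ℝ) : KK p (-y) b = KK p y b + y +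
    ∑ j ∈ Finset.Icc 1 (p - 1), (-1 : ℝ) ^ j * (2 * Real.sinh (j * y) / j) * Real.cos (j * b) := by
  have h1 : Real.log ‖(1 : ℂ) + Complex.exp (-((-y : ℝ) : ℂ) + (b : ℂ) * Complex.I)‖ =
      Real.log ‖(1 : ℂ) + Complex.exp (-(y : ℂ) + (b : ℂ) * Complex.I)‖ + y := by
    have e1 : (1 : ℂ) + Complex.exp (-((-y : ℝ) : ℂ) + (b : ℂ) * Complex.I) =
        Complex.exp ((y : ℂ) + (b : ℂ) * Complex.I) *
          conj ((1 : ℂ) + Complex.exp (-(y : ℂ) + (b : ℂ) * Complex.I)) := by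
      have e0 : conj ((1 : ℂ) + Complex.exp (-(y : ℂ) + (b : ℂ) * Complex.I)) =
          1 + Complex.exp (-(y : ℂ) - (b : ℂ) * Complex.I) := by
        rw [map_add, map_one, ← Complex.exp_conj]
        simp [sub_eq_add_neg]
      rw [e0, mul_add, mul_one, ← Complex.exp_add]
      have e2 : (y : ℂ) + (b : ℂ) * Complex.I + (-(y : ℂ) - (b : ℂ) * Complex.I) = 0 := by ring
      rw [e2, Complex.exp_zero, add_comm]
      push_cast
      rw [neg_neg]
    have e3 : ‖Complex.exp ((y : ℂ) + (b : ℂ) * Complex.I)‖ = Real.exp y := by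
      rw [Complex.norm_exp]
      simp
    rw [e1, norm_mul, RCLike.norm_conj, e3]
    by_cases h0 : ‖(1 : ℂ) + Complex.exp (-(y : ℂ) + (b : ℂ) * Complex.I)‖ = 0
    · have hy : y = 0 := by
        rw [norm_eq_zero] at h0
        have h3 : Complex.exp (-(y : ℂ) + (b : ℂ) * Complex.I) = -1 := by
          linear_combination h0
        have h4 : ‖Complex.exp (-(y : ℂ) + (b : ℂ) * Complex.I)‖ = Real.exp (-y) := by
          rw [Complex.norm_exp]
          simp
        rw [h3, norm_neg, norm_one] at h4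
        have h5 : -y = 0 := by
          rw [← Real.exp_eq_one_iff]
          exact h4.symm
        linarith
      rw [h0, mul_zero, Real.log_zero, hy, add_zero]
    · rw [Real.log_mul (Real.exp_pos y).ne' h0, Real.log_exp, add_comm]
  rw [KK, KK, h1]
  have h2 : ∀ j ∈ Finset.Icc 1 (p - 1), (-1 : ℝ) ^ j * Real.exp (-(j * -y)) * Real.cos (j * b) / j =
      (-1 : ℝ) ^ j * Real.exp (-(j * y)) * Real.cos (j * b) / j +
      (-1 : ℝ) ^ j * (2 * Real.sinh (j * y) / j) * Real.cos (j * b) := by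
    intro j _
    rw [Real.sinh_eq, mul_neg, neg_neg]
    ring
  rw [Finset.sum_congr rfl h2, Finset.sum_add_distrib]
  ring

theorem pb1_re {g : ℝ → ℂ} {g' : ℂ} {b : ℝ} (hg : HasDerivAt g g' b) :
    HasDerivAt (fun b => (g b).re) g'.re b :=
  (Complex.reCLM.hasFDerivAt).comp_hasDerivAt b hg

theorem pb1_im {g : ℝ → ℂ} {g' : ℂ} {b : ℝ} (hg : HasDerivAt g g' b) :
    HasDerivAt (fun b => (g b).im) g'.im b :=
  (Complex.imCLM.hasFDerivAt).comp_hasDerivAt b hg

theorem pb1_log_norm {g : ℝ → ℂ} {g' : ℂ} {b : ℝ} (hg : HasDerivAt g g' b) (h : g b ≠ 0) :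
    HasDerivAt (fun b => Real.log ‖g b‖) (g' / g b).re b := by
  have hre := pb1_re hg
  have him := pb1_im hg
  have hn : HasDerivAt (fun b => Complex.normSq (g b))
      (g'.re * (g b).re + (g b).re * g'.re + (g'.im * (g b).im + (g b).im * g'.im)) b := by
    have := (hre.mul hre).add (him.mul him)
    exact this
  have hpos : Complex.normSq (g b) ≠ 0 := by
    rwa [Ne, Complex.normSq_eq_zero]
  have hl := (hn.log hpos).const_mul (1 / 2 : ℝ)
  have hfun : (fun b => Real.log ‖g b‖) = fun b => 1 / 2 * Real.log (Complex.normSq (g b)) := by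
    funext c
    rw [Complex.normSq_eq_norm_sq, Real.log_pow]
    push_cast
    ring
  rw [hfun]
  refine hl.congr_deriv ?_
  rw [Complex.div_re]
  field_simp
  ring

theorem pb1_wz_b (x b : ℝ) : HasDerivAt (fun b => wz x b) (Complex.I * wz x b) b := by
  have h1 : HasDerivAt (fun b : ℝ => -(x : ℂ) + (b : ℂ) * Complex.I) (1 * Complex.I) b := by
    have := (Complex.ofRealCLM.hasDerivAt (x := b)).mul_const Complex.I
    exact (this.const_add (-(x : ℂ)))
  have h2 := h1.cexp.neg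
  refine h2.congr_deriv ?_
  simp only [wz]
  ring

theorem pb1_wz_x (x b : ℝ) : HasDerivAt (fun x => wz x b) (-wz x b) x := by
  have h1 : HasDerivAt (fun x : ℝ => -(x : ℂ) + (b : ℂ) * Complex.I) (-1) x := by
    have := (Complex.ofRealCLM.hasDerivAt (x := x)).neg
    exact (this.add_const ((b : ℂ) * Complex.I))
  have h2 := h1.cexp.neg
  refine h2.congr_deriv ?_
  simp only [wz]
  ring

theorem pb1_re_pow (x b : ℝ) (j : ℕ) :
    (wz x b ^ j).re = (-1 : ℝ) ^ j * Real.exp (-(j * x)) * Real.cos (j * b) := by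
  have h : wz x b ^ j = ((((-1 : ℝ) ^ j * Real.exp (-(j * x)) : ℝ)) : ℂ) *
      Complex.exp (((j * b : ℝ) : ℂ) * Complex.I) := by
    rw [wz, neg_pow, ← Complex.exp_nat_mul]
    have : (j : ℂ) * (-(x : ℂ) + (b : ℂ) * Complex.I) =
        ((-(j * x) : ℝ) : ℂ) + ((j * b : ℝ) : ℂ) * Complex.I := by
      push_cast
      ring
    rw [this, Complex.exp_add]
    push_cast
    ring
  rw [h, Complex.re_ofReal_mul, Complex.exp_ofReal_mul_I_re]

theorem pb1_KK (p : ℕ) (x b : ℝ) : KK p x b = Real.log ‖(1 : ℂ) - wz x b‖ +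
    ∑ j ∈ Finset.Icc 1 (p - 1), (wz x b ^ j).re / j := by
  have h1 : (1 : ℂ) - wz x b = 1 + Complex.exp (-(x : ℂ) + (b : ℂ) * Complex.I) := by
    rw [wz, sub_neg_eq_add]
  rw [KK, h1]
  congr 1
  refine Finset.sum_congr rfl fun j _ => ?_
  rw [pb1_re_pow]

theorem pb1_geom' (q : ℕ) {w : ℂ} (h : w ≠ 1) :
    w / (1 - w) - ∑ j ∈ Finset.Icc 1 q, w ^ j = w ^ (q + 1) / (1 - w) := by
  have h1 : (1 : ℂ) - w ≠ 0 := sub_ne_zero.mpr (Ne.symm h)
  induction q with
  | zero => simp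
  | succ q ih =>
    rw [Finset.sum_Icc_succ_top (by omega), ← sub_sub, ih]
    field_simp
    ring

theorem pb1_geom {p : ℕ} (hp : 1 ≤ p) {w : ℂ} (h : w ≠ 1) :
    w / (1 - w) - ∑ j ∈ Finset.Icc 1 (p - 1), w ^ j = w ^ p / (1 - w) := by
  have := pb1_geom' (p - 1) h
  rwa [Nat.sub_add_cancel hp] at this

theorem pb1_wz_ne {x b : ℝ} (h : wz x b ≠ 1) : (1 : ℂ) - wz x b ≠ 0 :=
  sub_ne_zero.mpr (Ne.symm h)

/-- derivative of the kernel along a curve with `w' = c w` -/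
theorem pb1_KK_deriv {p : ℕ} (hp : 1 ≤ p) {W : ℝ → ℂ} {c : ℂ} {t : ℝ}
    (hW : HasDerivAt W (c * W t) t) (h : W t ≠ 1) :
    HasDerivAt (fun t => Real.log ‖(1 : ℂ) - W t‖ +
      ∑ j ∈ Finset.Icc 1 (p - 1), (W t ^ j).re / j) (-(c * (W t ^ p / (1 - W t)))).re t := by
  have hne : (1 : ℂ) - W t ≠ 0 := sub_ne_zero.mpr (Ne.symm h)
  have h1 := pb1_log_norm (hW.const_sub (1 : ℂ)) hne
  have h2 : ∀ j ∈ Finset.Icc 1 (p - 1), HasDerivAt (fun t => (W t ^ j).re / j)
      (c * W t ^ j).re t := by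
    intro j hj
    rw [Finset.mem_Icc] at hj
    have hj0 : (j : ℝ) ≠ 0 := by
      have : 0 < j := hj.1
      positivity
    have hd := (pb1_re (hW.pow j)).div_const (j : ℝ)
    refine hd.congr_deriv ?_
    have e1 : (j : ℂ) * W t ^ (j - 1) * (c * W t) = ((j : ℝ) : ℂ) * (c * W t ^ j) := by
      obtain ⟨i, rfl⟩ := Nat.exists_eq_add_of_le hj.1
      rw [Nat.add_sub_cancel_left, pow_add, pow_one]
      push_cast
      ring
    rw [e1, Complex.re_ofReal_mul, mul_div_cancel_left₀ _ hj0]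
  refine (h1.add (HasDerivAt.fun_sum h2)).congr_deriv ?_
  rw [← Complex.re_sum, ← Complex.add_re, ← pb1_geom hp h, ← Finset.mul_sum]
  congr 1
  field_simp
  ring

theorem KK_b {p : ℕ} (hp : 1 ≤ p) {x b : ℝ} (h : wz x b ≠ 1) :
    HasDerivAt (fun b => KK p x b) (FA p x b).im b := by
  have hfun : (fun b => KK p x b) = fun b => Real.log ‖(1 : ℂ) - wz x b‖ +
      ∑ j ∈ Finset.Icc 1 (p - 1), (wz x b ^ j).re / j := by
    funext b
    exact pb1_KK p x b
  rw [hfun]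
  refine (pb1_KK_deriv hp (pb1_wz_b x b) h).congr_deriv ?_
  rw [FA, Complex.neg_re, Complex.I_mul_re, neg_neg]

theorem KK_x {p : ℕ} (hp : 1 ≤ p) {x b : ℝ} (h : wz x b ≠ 1) :
    HasDerivAt (fun x => KK p x b) (FA p x b).re x := by
  have hfun : (fun x => KK p x b) = fun x => Real.log ‖(1 : ℂ) - wz x b‖ +
      ∑ j ∈ Finset.Icc 1 (p - 1), (wz x b ^ j).re / j := by
    funext x
    exact pb1_KK p x b
  rw [hfun]
  have hx : HasDerivAt (fun x => wz x b) (-1 * wz x b) x := by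
    rw [neg_one_mul]
    exact pb1_wz_x x b
  refine (pb1_KK_deriv hp hx h).congr_deriv ?_
  rw [FA, neg_one_mul, neg_neg]

theorem pb1_FA_deriv {p : ℕ} (hp : 1 ≤ p) {W : ℝ → ℂ} {c : ℂ} {t : ℝ}
    (hW : HasDerivAt W (c * W t) t) (h : W t ≠ 1) :
    HasDerivAt (fun t => W t ^ p / (1 - W t))
      (c * (((p : ℂ) * W t ^ p * (1 - W t) + W t ^ (p + 1)) / (1 - W t) ^ 2)) t := by
  have hne : (1 : ℂ) - W t ≠ 0 := sub_ne_zero.mpr (Ne.symm h)
  refine ((hW.pow p).div (hW.const_sub (1 : ℂ)) hne).congr_deriv ?_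
  obtain ⟨i, rfl⟩ := Nat.exists_eq_add_of_le hp
  rw [Nat.add_sub_cancel_left]
  simp only [Pi.pow_apply]
  push_cast
  field_simp
  ring

theorem FA_b {p : ℕ} (hp : 1 ≤ p) {x b : ℝ} (h : wz x b ≠ 1) :
    HasDerivAt (fun b => (FA p x b).im) (FB p x b).re b := by
  refine (pb1_im (pb1_FA_deriv hp (pb1_wz_b x b) h)).congr_deriv ?_
  rw [FB, Complex.I_mul_im]

theorem FA_x {p : ℕ} (hp : 1 ≤ p) {x b : ℝ} (h : wz x b ≠ 1) :
    HasDerivAt (fun x => (FA p x b).re) (-(FB p x b).re) x := by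
  have hx : HasDerivAt (fun x => wz x b) (-1 * wz x b) x := by
    rw [neg_one_mul]
    exact pb1_wz_x x b
  refine (pb1_re (pb1_FA_deriv hp hx h)).congr_deriv ?_
  rw [FB, neg_one_mul, Complex.neg_re]

theorem pb1_contAt {p : ℕ} {x b : ℝ} (h : wz x b ≠ 1) :
    ContinuousAt (fun q : ℝ × ℝ => KK p q.1 q.2) (x, b) := by
  have hfun : (fun q : ℝ × ℝ => KK p q.1 q.2) = fun q : ℝ × ℝ =>
      Real.log ‖(1 : ℂ) + Complex.exp (-(q.1 : ℂ) + (q.2 : ℂ) * Complex.I)‖ +
      ∑ j ∈ Finset.Icc 1 (p - 1), (-1 : ℝ) ^ j * Real.exp (-(j * q.1)) * Real.cos (j * q.2) / j := by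
    funext q
    rfl
  rw [hfun]
  have h1 : ContinuousAt (fun q : ℝ × ℝ =>
      Real.log ‖(1 : ℂ) + Complex.exp (-(q.1 : ℂ) + (q.2 : ℂ) * Complex.I)‖) (x, b) := by
    refine ContinuousAt.log (by fun_prop) ?_
    rw [norm_ne_zero_iff]
    have := pb1_wz_ne h
    rwa [wz, sub_neg_eq_add] at this
  refine h1.add ?_
  have h2 : Continuous (fun q : ℝ × ℝ => ∑ j ∈ Finset.Icc 1 (p - 1),
      (-1 : ℝ) ^ j * Real.exp (-(j * q.1)) * Real.cos (j * q.2) / j) := by
    fun_prop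
  exact h2.continuousAt

theorem KK_cont {p : ℕ} {x : ℝ} (hx : x ≠ 0) : Continuous (KK p x) := by
  rw [continuous_iff_continuousAt]
  intro b
  have h1 := pb1_contAt (p := p) (x := x) (b := b) (wz_ne_one (Or.inl hx))
  exact h1.comp (f := fun b : ℝ => (x, b)) (by fun_prop)

theorem KP_cont {p : ℕ} {x : ℝ} (hx : x ≠ 0) : Continuous (KP p x) := by
  have h1 := KK_cont (p := p) hx
  have h2 : Continuous (fun b => KK p x b - sg p / p * Real.exp (-(p * |x|)) * Real.cos (p * b)) := by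
    fun_prop
  exact h2

theorem KK_contAt {p : ℕ} {x b : ℝ} (h : wz x b ≠ 1) :
    ContinuousAt (fun q : ℝ × ℝ => KK p q.1 q.2) (x, b) := pb1_contAt h

theorem KK_meas (p : ℕ) : Measurable (fun q : ℝ × ℝ => KK p q.1 q.2) := by
  have h2 : Measurable (fun q : ℝ × ℝ =>
      Real.log ‖(1 : ℂ) + Complex.exp (-(q.1 : ℂ) + (q.2 : ℂ) * Complex.I)‖ +
      ∑ j ∈ Finset.Icc 1 (p - 1), (-1 : ℝ) ^ j * Real.exp (-(j * q.1)) * Real.cos (j * q.2) / j) := by
    refine Measurable.add ?_ ?_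
    · refine Real.measurable_log.comp ?_
      exact Continuous.measurable (by fun_prop)
    · exact Continuous.measurable (by fun_prop)
  exact h2

theorem pb1_sg_sq (p : ℕ) : sg p * sg p = 1 := by
  rw [sg, ← pow_add, ← two_mul, pow_mul]
  norm_num

theorem pb1_sj_sq (j : ℤ) : sj j * sj j = 1 := by
  rw [sj, ← mul_zpow]
  norm_num

theorem pb1_sj_add (i j : ℤ) : sj (i + j) = sj i * sj j := by
  rw [sj, sj, sj, zpow_add₀ (by norm_num)]

theorem pb1_sj_two (i : ℤ) : sj (2 * i) = 1 := by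
  rw [sj, zpow_mul]
  norm_num

theorem pb1_cos_th {p : ℕ} (hp : 1 ≤ p) (j : ℤ) (b : ℝ) :
    Real.cos (p * (th p j + b)) = -(sj j * Real.sin (p * b)) := by
  have hp0 : (p : ℝ) ≠ 0 := by
    have : 0 < p := hp
    positivity
  have h1 : (p : ℝ) * (th p j + b) = (p * b + Real.pi / 2) + (j : ℝ) * Real.pi := by
    rw [th]
    field_simp
    ring
  rw [h1, Real.cos_add_int_mul_pi, Real.cos_add_pi_div_two, sj]
  ring

/-- the kernel at a grid point -/
theorem kj_eq {p : ℕ} (hp : 1 ≤ p) (x : ℝ) (j : ℤ) (b : ℝ) :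
    sg p * sj j * KK p x (th p j + b) =
      kj p x j b - (p : ℝ)⁻¹ * Real.exp (-(p * |x|)) * Real.sin (p * b) := by
  have h1 := pb1_cos_th hp j b
  have h2 := pb1_sg_sq p
  have h3 := pb1_sj_sq j
  rw [kj, KP, h1]
  linear_combination (-((p : ℝ)⁻¹ * Real.exp (-(p * |x|)) * Real.sin (p * b) * sj j * sj j)) * h2 -
    ((p : ℝ)⁻¹ * Real.exp (-(p * |x|)) * Real.sin (p * b)) * h3

theorem kj_zero {p : ℕ} (hp : 1 ≤ p) (x : ℝ) (j : ℤ) : kj p x j 0 = kt p x j := by
  have h := kj_eq hp x j 0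
  rw [mul_zero, Real.sin_zero, mul_zero, sub_zero, add_zero] at h
  rw [← h, kt]

/-- shift of the index -/
theorem kj_shift {p : ℕ} (hp : 1 ≤ p) (x : ℝ) (j m : ℤ) (b : ℝ) :
    kj p x j (b - Real.pi * m / p) = sj m * kj p x (j - m) b := by
  have hp0 : (p : ℝ) ≠ 0 := by
    have : 0 < p := hp
    positivity
  have h1 : th p j + (b - Real.pi * m / p) = th p (j - m) + b := by
    rw [th, th]
    push_cast
    field_simp
    ring
  have h2 : sj j = sj m * sj (j - m) := by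
    rw [← pb1_sj_add]
    congr 1
    ring
  rw [kj, kj, h1, h2]
  ring

theorem kj_per {p : ℕ} (hp : 1 ≤ p) (x : ℝ) (j n : ℤ) (b : ℝ) :
    kj p x (j + 2 * p * n) b = kj p x j b := by
  have hp0 : (p : ℝ) ≠ 0 := by
    have : 0 < p := hp
    positivity
  have h1 : th p (j + 2 * p * n) + b = (th p j + b) + 2 * Real.pi * n := by
    rw [th, th]
    push_cast
    field_simp
    ring
  have h2 : sj (j + 2 * p * n) = sj j := by
    rw [pb1_sj_add, mul_assoc, pb1_sj_two, mul_one]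
  rw [kj, kj, h1, h2, KP_per]

theorem kj_neg {p : ℕ} (hp : 1 ≤ p) (x : ℝ) (j : ℤ) (b : ℝ) :
    kj p x (-1 - j) (-b) = -kj p x j b := by
  have hp0 : (p : ℝ) ≠ 0 := by
    have : 0 < p := hp
    positivity
  have h1 : th p (-1 - j) + -b = -(th p j + b) := by
    rw [th, th]
    push_cast
    field_simp
    ring
  have h2 : sj (-1 - j) = -sj j := by
    have h3 : (-1 - j : ℤ) = j + (2 * (-j) + -1) := by ring
    have h4 : sj (-1) = -1 := by
      rw [sj]
      norm_num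
    rw [h3, pb1_sj_add, pb1_sj_add, pb1_sj_two, h4]
    ring
  rw [kj, kj, h1, h2, KP_neg]
  ring

theorem pb1_shift_one {p : ℕ} {f : ℤ → ℝ} (hf : ∀ j n : ℤ, f (j + 2 * p * n) = f j) :
    ∑ j ∈ JJ p, f (j + 1) = ∑ j ∈ JJ p, f j := by
  rw [JJ, Finset.sum_Ico_add' f _ _ 1]
  rcases Nat.eq_zero_or_pos p with h0 | h0
  · subst h0
    simp
  · have h1 : Finset.Ico (-(p : ℤ) + 1) ((p : ℤ) + 1) =
        insert (p : ℤ) (Finset.Ico (-(p : ℤ) + 1) p) := by
      ext j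
      rw [Finset.mem_insert, Finset.mem_Ico, Finset.mem_Ico]
      omega
    have h2 : Finset.Ico (-(p : ℤ)) (p : ℤ) =
        insert (-(p : ℤ)) (Finset.Ico (-(p : ℤ) + 1) p) := by
      ext j
      rw [Finset.mem_insert, Finset.mem_Ico, Finset.mem_Ico]
      omega
    rw [h1, h2, Finset.sum_insert (by simp), Finset.sum_insert (by simp)]
    congr 1
    have h3 := hf (-(p : ℤ)) 1
    rw [← h3]
    congr 1
    ring

/-- sums over a period -/
theorem sum_JJ_shift {p : ℕ} {f : ℤ → ℝ} (hf : ∀ j n : ℤ, f (j + 2 * p * n) = f j) (m : ℤ) :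
    ∑ j ∈ JJ p, f (j + m) = ∑ j ∈ JJ p, f j := by
  have hstep : ∀ k : ℤ, ∑ j ∈ JJ p, f (j + (k + 1)) = ∑ j ∈ JJ p, f (j + k) := by
    intro k
    have hg : ∀ j n : ℤ, (fun j => f (j + k)) (j + 2 * p * n) = (fun j => f (j + k)) j := by
      intro j n
      have : j + 2 * (p : ℤ) * n + k = (j + k) + 2 * p * n := by ring
      simp only [this, hf]
    have h1 := pb1_shift_one (p := p) (f := fun j => f (j + k)) hg
    rw [← h1]
    refine Finset.sum_congr rfl fun j _ => ?_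
    congr 1
    ring
  induction m with
  | zero => simp
  | succ n ih => rw [hstep, ih]
  | pred n ih =>
    have h2 := hstep (-(n : ℤ) - 1)
    rw [sub_add_cancel] at h2
    rw [← h2, ih]

theorem sum_JJ_neg {p : ℕ} (f : ℤ → ℝ) : ∑ j ∈ JJ p, f (-1 - j) = ∑ j ∈ JJ p, f j := by
  refine Finset.sum_nbij' (fun j => -1 - j) (fun j => -1 - j) ?_ ?_ ?_ ?_ ?_
  · intro j hj
    rw [JJ, Finset.mem_Ico] at hj ⊢
    omega
  · intro j hj
    rw [JJ, Finset.mem_Ico] at hj ⊢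
    omega
  · intro j _
    ring
  · intro j _
    ring
  · intro j _
    rfl

theorem card_JJ (p : ℕ) : (JJ p).card = 2 * p := by
  rw [JJ, Int.card_Ico]
  omega

end Pool.Agent.PfB
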