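import Pool.Agent.PfB.Defs

/-!
# MP_f2c8f8_an, project PfB, row PB-43

The mean of `|z - a| ^ (-1/2)` on a circle, and the logarithmic derivative of a zero-free function.
-/

set_option autoImplicit false

open MeasureTheory Filter
open scoped ComplexConjugate Topology

noncomputable section

namespace Pool.Agent.PfB

open Pool.Agent.H9.Pf ValueDistribution

private def pb43_g (t : ℝ) : ℝ := |Real.sin t| ^ (-(1 / 2) : ℝ)

private theorem pb43_periodic : Function.Periodic pb43_g Real.pi := by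
  intro t
  unfold pb43_g
  rw [Real.sin_add_pi, abs_neg]

private theorem pb43_meas : Measurable pb43_g := by
  unfold pb43_g
  fun_prop

private theorem pb43_int1 : IntervalIntegrable pb43_g volume 0 (Real.pi / 2) := by
  have hpi : 0 < Real.pi / 2 := by positivity
  have h1 : IntervalIntegrable (fun t : ℝ => (2 / Real.pi) ^ (-(1 / 2) : ℝ) * t ^ (-(1 / 2) : ℝ))
      volume 0 (Real.pi / 2) :=
    (intervalIntegral.intervalIntegrable_rpow' (by norm_num)).const_mul _
  refine h1.mono_fun' pb43_meas.aestronglyMeasurable ?_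
  rw [Set.uIoc_of_le hpi.le]
  refine (ae_restrict_iff' measurableSet_Ioc).2 (Eventually.of_forall ?_)
  intro t ht
  have h2 := Real.mul_le_sin ht.1.le ht.2
  have h3 : 0 < 2 / Real.pi * t := mul_pos (by positivity) ht.1
  have h4 : 0 < Real.sin t := lt_of_lt_of_le h3 h2
  have h5 : ‖pb43_g t‖ = Real.sin t ^ (-(1 / 2) : ℝ) := by
    unfold pb43_g
    rw [abs_of_pos h4, Real.norm_of_nonneg (Real.rpow_nonneg h4.le _)]
  change ‖pb43_g t‖ ≤ (2 / Real.pi) ^ (-(1 / 2) : ℝ) * t ^ (-(1 / 2) : ℝ)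
  rw [h5, ← Real.mul_rpow (by positivity) ht.1.le]
  exact Real.rpow_le_rpow_of_nonpos h3 h2 (by norm_num)

private theorem pb43_int (a b : ℝ) : IntervalIntegrable pb43_g volume a b := by
  have h1 := pb43_int1
  have h2 : IntervalIntegrable pb43_g volume (Real.pi / 2) Real.pi := by
    have h3 := (pb43_int1.comp_sub_left Real.pi).symm
    rw [sub_zero, show Real.pi - Real.pi / 2 = Real.pi / 2 by ring] at h3
    have h4 : (fun x => pb43_g (Real.pi - x)) = pb43_g := by
      funext x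
      unfold pb43_g
      rw [Real.sin_pi_sub]
    rwa [h4] at h3
  have h3 := h1.trans h2
  have h4 : IntervalIntegrable pb43_g volume 0 (0 + Real.pi) := by rwa [zero_add]
  exact pb43_periodic.intervalIntegrable Real.pi_ne_zero h4 a b

private theorem pb43_dist (r : ℝ) (hr : 0 < r) (a : ℂ) (t : ℝ) :
    r * |Real.sin (t - a.arg)| ≤ ‖circleMap 0 r t - a‖ := by
  have h1 : (circleMap 0 r t - a) * Complex.exp (-(a.arg : ℂ) * Complex.I) =
      (r : ℂ) * Complex.exp (((t - a.arg : ℝ) : ℂ) * Complex.I) - (‖a‖ : ℂ) := by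
    have h2 : a * Complex.exp (-(a.arg : ℂ) * Complex.I) = (‖a‖ : ℂ) := by
      nth_rewrite 1 [← Complex.norm_mul_exp_arg_mul_I a]
      rw [mul_assoc, ← Complex.exp_add, neg_mul, add_neg_cancel, Complex.exp_zero, mul_one]
    rw [sub_mul, h2, circleMap_zero, mul_assoc, ← Complex.exp_add]
    congr 3
    push_cast
    ring
  have h3 : ‖circleMap 0 r t - a‖ =
      ‖(r : ℂ) * Complex.exp (((t - a.arg : ℝ) : ℂ) * Complex.I) - (‖a‖ : ℂ)‖ := by
    rw [← h1, norm_mul]
    have h4 : ‖Complex.exp (-(a.arg : ℂ) * Complex.I)‖ = 1 := by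
      have := Complex.norm_exp_ofReal_mul_I (-a.arg)
      push_cast at this
      exact this
    rw [h4, mul_one]
  rw [h3]
  refine le_trans ?_ (Complex.abs_im_le_norm _)
  rw [Complex.sub_im, Complex.ofReal_im, sub_zero, Complex.im_ofReal_mul,
    Complex.exp_ofReal_mul_I_im, abs_mul, abs_of_pos hr]

private theorem pb43_ae (α : ℝ) : ∀ᵐ t : ℝ, Real.sin (t - α) ≠ 0 := by
  have hc : {t : ℝ | Real.sin (t - α) = 0}.Countable := by
    refine (Set.countable_range (fun n : ℤ => (n : ℝ) * Real.pi + α)).mono ?_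
    intro t ht
    obtain ⟨n, hn⟩ := Real.sin_eq_zero_iff.1 ht
    exact ⟨n, by simp only; linarith⟩
  exact hc.ae_notMem volume

private theorem pb43_bound (r : ℝ) (hr : 0 < r) (a : ℂ) : ∀ᵐ t : ℝ,
    ‖circleMap 0 r t - a‖ ^ (-(1 / 2) : ℝ) ≤ r ^ (-(1 / 2) : ℝ) * pb43_g (t - a.arg) := by
  filter_upwards [pb43_ae a.arg] with t ht
  have h1 : 0 < |Real.sin (t - a.arg)| := abs_pos.2 ht
  unfold pb43_g
  rw [← Real.mul_rpow hr.le (abs_nonneg _)]
  exact Real.rpow_le_rpow_of_nonpos (mul_pos hr h1) (pb43_dist r hr a t) (by norm_num)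

/-- mean of `|z - a| ^ (-1/2)` on a circle -/
theorem mean_sqrt : ∃ C : ℝ, 0 < C ∧ ∀ (r : ℝ) (a : ℂ), 0 < r →
    CircleIntegrable (fun z => ‖z - a‖ ^ (-(1 / 2) : ℝ)) 0 r ∧
      Real.circleAverage (fun z => ‖z - a‖ ^ (-(1 / 2) : ℝ)) 0 r ≤ C * r ^ (-(1 / 2) : ℝ) := by
  have hpi : (0 : ℝ) ≤ 2 * Real.pi := by positivity
  have hg0 : ∀ t, 0 ≤ pb43_g t := fun t => Real.rpow_nonneg (abs_nonneg _) _
  have hI0 : 0 ≤ ∫ t in (0 : ℝ)..(2 * Real.pi), pb43_g t :=
    intervalIntegral.integral_nonneg hpi fun t _ => hg0 t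
  refine ⟨(2 * Real.pi)⁻¹ * (∫ t in (0 : ℝ)..(2 * Real.pi), pb43_g t) + 1, by positivity, ?_⟩
  intro r a hr
  have hint : IntervalIntegrable (fun t => r ^ (-(1 / 2) : ℝ) * pb43_g (t - a.arg)) volume 0
      (2 * Real.pi) := by
    have h1 := (pb43_int (0 - a.arg) (2 * Real.pi - a.arg)).comp_sub_right a.arg
    rw [sub_add_cancel, sub_add_cancel] at h1
    exact h1.const_mul _
  have hmeas : Measurable fun t : ℝ => ‖circleMap 0 r t - a‖ ^ (-(1 / 2) : ℝ) := by
    fun_prop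
  have hci : CircleIntegrable (fun z => ‖z - a‖ ^ (-(1 / 2) : ℝ)) 0 r := by
    refine hint.mono_fun' hmeas.aestronglyMeasurable ?_
    refine ae_restrict_of_ae ?_
    filter_upwards [pb43_bound r hr a] with t ht
    rw [Real.norm_of_nonneg (Real.rpow_nonneg (norm_nonneg _) _)]
    exact ht
  refine ⟨hci, ?_⟩
  rw [Real.circleAverage_def, smul_eq_mul]
  have h1 : ∫ t in (0 : ℝ)..(2 * Real.pi), ‖circleMap 0 r t - a‖ ^ (-(1 / 2) : ℝ) ≤
      ∫ t in (0 : ℝ)..(2 * Real.pi), r ^ (-(1 / 2) : ℝ) * pb43_g (t - a.arg) :=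
    intervalIntegral.integral_mono_ae hpi hci hint (pb43_bound r hr a)
  have h2 : ∫ t in (0 : ℝ)..(2 * Real.pi), r ^ (-(1 / 2) : ℝ) * pb43_g (t - a.arg) =
      r ^ (-(1 / 2) : ℝ) * ∫ t in (0 : ℝ)..(2 * Real.pi), pb43_g t := by
    rw [intervalIntegral.integral_const_mul,
      intervalIntegral.integral_comp_sub_right (fun t => pb43_g t) a.arg]
    congr 1
    have h3 : Function.Periodic pb43_g (2 * Real.pi) := by
      have := pb43_periodic.nsmul 2
      simpa [two_mul] using this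
    have h4 := h3.intervalIntegral_add_eq (0 - a.arg) 0
    rw [zero_add] at h4
    rw [← h4]
    congr 1
    ring
  have hr0 : 0 ≤ r ^ (-(1 / 2) : ℝ) := Real.rpow_nonneg hr.le _
  calc (2 * Real.pi)⁻¹ * ∫ t in (0 : ℝ)..(2 * Real.pi), ‖circleMap 0 r t - a‖ ^ (-(1 / 2) : ℝ)
      ≤ (2 * Real.pi)⁻¹ * (r ^ (-(1 / 2) : ℝ) * ∫ t in (0 : ℝ)..(2 * Real.pi), pb43_g t) := by
        apply mul_le_mul_of_nonneg_left _ (by positivity)
        rw [← h2]
        exact h1
    _ ≤ ((2 * Real.pi)⁻¹ * (∫ t in (0 : ℝ)..(2 * Real.pi), pb43_g t) + 1) *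
        r ^ (-(1 / 2) : ℝ) := by nlinarith

private theorem pb43_deriv {h : ℂ → ℂ} {R : ℝ} (hR : 0 < R)
    (ha : AnalyticOnNhd ℂ h (Metric.closedBall 0 R))
    (hne : ∀ z ∈ Metric.closedBall (0 : ℂ) R, h z ≠ 0) {z : ℂ} (hz : z ∈ Metric.ball (0 : ℂ) R) :
    deriv h z / h z = Real.circleAverage
      (fun ζ => (2 * ζ / (ζ - z) ^ 2) • ((Real.log ‖h ζ‖ : ℝ) : ℂ)) 0 R := by
  set u : ℂ → ℝ := fun ζ => Real.log ‖h ζ‖ with hu
  have hharm : InnerProductSpace.HarmonicOnNhd u (Metric.closedBall 0 R) := fun w hw =>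
    (ha w hw).harmonicAt_log_norm (hne w hw)
  have hucont : ContinuousOn u (Metric.sphere 0 R) := by
    intro w hw
    have hw' := Metric.sphere_subset_closedBall hw
    exact ((ha w hw').continuousAt.norm.log (norm_ne_zero_iff.2 (hne w hw'))).continuousWithinAt
  have hint : CircleIntegrable u 0 R := hucont.circleIntegrable hR.le
  have hintC : CircleIntegrable (fun ζ => (u ζ : ℂ)) 0 R :=
    (Complex.continuous_ofReal.comp_continuousOn hucont).circleIntegrable hR.le
  set F : ℂ → ℂ := fun w => Real.circleAverage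
    (fun ζ => herglotzRieszKernel 0 w ζ • (u ζ : ℂ)) 0 R with hF
  have hFd : ∀ w ∈ Metric.ball (0 : ℂ) R, HasDerivAt F (Real.circleAverage
      (fun ζ => (2 * ζ / (ζ - w) ^ 2) • (u ζ : ℂ)) 0 R) w := fun w hw =>
    hasDerivAt_circleAverage_herglotzRieszKernel_smul hintC hw
  have hFre : ∀ w ∈ Metric.ball (0 : ℂ) R, (F w).re = u w := by
    intro w hw
    rw [hF]
    simp only
    rw [re_circleAverage_herglotzRieszKernel_smul hint hw]
    exact hharm.circleAverage_re_herglotzRieszKernel_smul hw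
  set G : ℂ → ℂ := fun w => h w * Complex.exp (-F w) with hG
  have hGn : ∀ w ∈ Metric.ball (0 : ℂ) R, ‖G w‖ = 1 := by
    intro w hw
    have h0 : 0 < ‖h w‖ := norm_pos_iff.2 (hne w (Metric.ball_subset_closedBall hw))
    rw [hG]
    simp only
    rw [norm_mul, Complex.norm_exp, Complex.neg_re, hFre w hw, hu]
    simp only
    rw [Real.exp_neg, Real.exp_log h0, mul_inv_cancel₀ h0.ne']
  have hGd : ∀ w ∈ Metric.ball (0 : ℂ) R, HasDerivAt G
      (deriv h w * Complex.exp (-F w) + h w * (Complex.exp (-F w) *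
        -Real.circleAverage (fun ζ => (2 * ζ / (ζ - w) ^ 2) • (u ζ : ℂ)) 0 R)) w := by
    intro w hw
    exact ((ha w (Metric.ball_subset_closedBall hw)).differentiableAt.hasDerivAt).mul
      ((hFd w hw).neg.cexp)
  have hnhds : Metric.ball (0 : ℂ) R ∈ 𝓝 z := Metric.isOpen_ball.mem_nhds hz
  have hloc : IsLocalMax (norm ∘ G) z := by
    filter_upwards [hnhds] with w hw
    simp only [Function.comp_apply]
    rw [hGn w hw, hGn z hz]
  have hev : ∀ᶠ w in 𝓝 z, DifferentiableAt ℂ G w := by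
    filter_upwards [hnhds] with w hw
    exact (hGd w hw).differentiableAt
  have hconst := Complex.eventually_eq_of_isLocalMax_norm hev hloc
  have hderiv0 : deriv G z = 0 := by
    have h1 : G =ᶠ[𝓝 z] fun _ => G z := hconst
    rw [h1.deriv_eq, deriv_const]
  rw [(hGd z hz).deriv] at hderiv0
  have he : Complex.exp (-F z) ≠ 0 := Complex.exp_ne_zero _
  have hz0 : h z ≠ 0 := hne z (Metric.ball_subset_closedBall hz)
  rw [div_eq_iff hz0]
  have h2 : Complex.exp (-F z) * (deriv h z -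
      Real.circleAverage (fun ζ => (2 * ζ / (ζ - z) ^ 2) • (u ζ : ℂ)) 0 R * h z) = 0 := by
    linear_combination hderiv0
  have h3 := (mul_eq_zero.1 h2).resolve_left he
  exact sub_eq_zero.1 h3

/-- logarithmic derivative of a zero-free function, bounded by the mean of `|log |h||` -/
theorem log_deriv_free : ∃ C : ℝ, 0 < C ∧ ∀ (h : ℂ → ℂ) (R : ℝ), 0 < R →
    AnalyticOnNhd ℂ h (Metric.closedBall 0 (2 * R)) →
    (∀ z ∈ Metric.closedBall (0 : ℂ) (2 * R), h z ≠ 0) → ∀ z : ℂ, ‖z‖ ≤ R →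
      ‖deriv h z / h z‖ ≤ C / R * Real.circleAverage (fun z => |Real.log ‖h z‖|) 0 (2 * R) := by
  refine ⟨4, by norm_num, ?_⟩
  intro h R hR ha hne z hz
  have hR2 : 0 < 2 * R := by linarith
  have hzb : z ∈ Metric.ball (0 : ℂ) (2 * R) := by
    rw [mem_ball_zero_iff]
    linarith
  rw [pb43_deriv hR2 ha hne hzb, Real.circleAverage_def, Real.circleAverage_def, norm_smul,
    smul_eq_mul]
  have hpi : (0 : ℝ) ≤ 2 * Real.pi := by positivity
  have hcont : ContinuousOn (fun ζ => |Real.log ‖h ζ‖|) (Metric.sphere 0 (2 * R)) := by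
    intro w hw
    have hw' := Metric.sphere_subset_closedBall hw
    exact ((ha w hw').continuousAt.norm.log
      (norm_ne_zero_iff.2 (hne w hw'))).abs.continuousWithinAt
  have hint : CircleIntegrable (fun ζ => |Real.log ‖h ζ‖|) 0 (2 * R) :=
    hcont.circleIntegrable hR2.le
  have h1 : ‖∫ t in (0 : ℝ)..(2 * Real.pi), (2 * circleMap 0 (2 * R) t /
      (circleMap 0 (2 * R) t - z) ^ 2) • ((Real.log ‖h (circleMap 0 (2 * R) t)‖ : ℝ) : ℂ)‖ ≤
      ∫ t in (0 : ℝ)..(2 * Real.pi), 4 / R * |Real.log ‖h (circleMap 0 (2 * R) t)‖| := by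
    refine intervalIntegral.norm_integral_le_of_norm_le hpi ?_ (hint.const_mul _)
    refine Eventually.of_forall fun t _ => ?_
    rw [norm_smul, Complex.norm_real, Real.norm_eq_abs]
    apply mul_le_mul_of_nonneg_right _ (abs_nonneg _)
    have h2 : R ≤ ‖circleMap 0 (2 * R) t - z‖ := by
      have h3 := norm_sub_norm_le (circleMap 0 (2 * R) t) z
      rw [norm_circleMap_zero, abs_of_pos hR2] at h3
      linarith
    rw [norm_div, norm_mul, norm_pow, norm_circleMap_zero, abs_of_pos hR2]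
    have h4 : ‖(2 : ℂ)‖ = 2 := by norm_num
    rw [h4, div_le_div_iff₀ (pow_pos (lt_of_lt_of_le hR h2) 2) hR]
    nlinarith
  have h5 : ‖(2 * Real.pi)⁻¹‖ = (2 * Real.pi)⁻¹ := by
    rw [Real.norm_of_nonneg (by positivity)]
  rw [h5]
  rw [intervalIntegral.integral_const_mul] at h1
  calc (2 * Real.pi)⁻¹ * _ ≤ (2 * Real.pi)⁻¹ *
      (4 / R * ∫ t in (0 : ℝ)..(2 * Real.pi), |Real.log ‖h (circleMap 0 (2 * R) t)‖|) :=
        mul_le_mul_of_nonneg_left h1 (by positivity)
    _ = _ := by ring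

end Pool.Agent.PfB
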