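import Pool.Agent.PfB.LD1
import Pool.Agent.H9.Pf.Value

/-! MP_f2c8f8_an, project PfB, row PB-44 -/

set_option autoImplicit false

open MeasureTheory Filter
open scoped ComplexConjugate Topology

noncomputable section

namespace Pool.Agent.PfB

open Pool.Agent.H9.Pf ValueDistribution

/-- logarithmic derivative of a factored function -/
theorem pb44_logDeriv {f E : ℂ → ℂ} (hE : Differentiable ℂ E) {Z : Finset ℂ} {d : ℂ → ℕ}
    (heq : ∀ z, f z = (∏ a ∈ Z, (z - a) ^ (d a)) * E z) {z : ℂ} (hz : f z ≠ 0) :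
    deriv f z / f z = ∑ a ∈ Z, (d a : ℂ) / (z - a) + deriv E z / E z := by
  have hfe : f = fun z => (∏ a ∈ Z, (z - a) ^ (d a)) * E z := funext heq
  rw [heq z] at hz
  have hP : (∏ a ∈ Z, (z - a) ^ (d a)) ≠ 0 := left_ne_zero_of_mul hz
  have hEz : E z ≠ 0 := right_ne_zero_of_mul hz
  rw [← logDeriv_apply, hfe, logDeriv_mul z hP hEz (by fun_prop) (hE z), logDeriv_apply E]
  congr 1
  rw [logDeriv_prod (fun a ha => Finset.prod_ne_zero_iff.1 hP a ha) (fun a _ => by fun_prop)]
  apply Finset.sum_congr rfl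
  intro a _
  rw [logDeriv_fun_pow (by fun_prop), logDeriv_apply]
  simp [div_eq_mul_inv]

/-- a sum with denominators, bounded by a square -/
theorem pb44_sum_le {Z : Finset ℂ} {d : ℂ → ℕ} (z : ℂ) :
    ‖∑ a ∈ Z, (d a : ℂ) / (z - a)‖ ≤ (∑ a ∈ Z, (d a : ℝ) * ‖z - a‖ ^ (-(1 / 2) : ℝ)) ^ 2 := by
  set x : ℂ → ℝ := fun a => (d a : ℝ) * ‖z - a‖ ^ (-(1 / 2) : ℝ) with hx
  have hx0 : ∀ a, 0 ≤ x a := fun a => by rw [hx]; positivity
  have h1 : ∀ a, ‖(d a : ℂ) / (z - a)‖ ≤ x a * x a := by
    intro a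
    have e : x a * x a = ((d a : ℝ) * d a) * ‖z - a‖⁻¹ := by
      have : ‖z - a‖ ^ (-(1 / 2) : ℝ) * ‖z - a‖ ^ (-(1 / 2) : ℝ) = ‖z - a‖⁻¹ := by
        rcases eq_or_ne (z - a) 0 with h | h
        · rw [h, norm_zero, Real.zero_rpow (by norm_num)]; simp
        · have hp : 0 < ‖z - a‖ := norm_pos_iff.2 h
          rw [← Real.rpow_add hp, show (-(1 / 2) + -(1 / 2) : ℝ) = -1 by norm_num,
            Real.rpow_neg_one]
      rw [hx]
      simp only
      rw [← this]; ring
    rw [e, norm_div, Complex.norm_natCast, div_eq_mul_inv]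
    have h2 : (d a : ℝ) ≤ (d a : ℝ) * d a := by exact_mod_cast Nat.le_mul_self (d a)
    gcongr
  calc ‖∑ a ∈ Z, (d a : ℂ) / (z - a)‖ ≤ ∑ a ∈ Z, ‖(d a : ℂ) / (z - a)‖ := norm_sum_le _ _
    _ ≤ ∑ a ∈ Z, x a * x a := Finset.sum_le_sum (fun a _ => h1 a)
    _ ≤ ∑ a ∈ Z, x a * ∑ b ∈ Z, x b := by
        apply Finset.sum_le_sum
        intro a ha
        exact mul_le_mul_of_nonneg_left (Finset.single_le_sum (fun b _ => hx0 b) ha) (hx0 a)
    _ = (∑ a ∈ Z, x a) ^ 2 := by rw [← Finset.sum_mul, sq]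

/-- tangent line of the logarithm -/
theorem pb44_tangent {g m : ℝ} (hg : 0 ≤ g) (hm : 0 ≤ m) :
    Real.posLog g ≤ Real.log (1 + m) + (g - m) / (1 + m) := by
  have h1 : Real.posLog g ≤ Real.log (1 + g) := by
    rw [Real.posLog_eq_log_max_one hg]
    apply Real.log_le_log (by positivity)
    exact max_le (by linarith) (by linarith)
  have h2 := Real.log_le_sub_one_of_pos (x := (1 + g) / (1 + m)) (by positivity)
  rw [Real.log_div (by positivity) (by positivity)] at h2
  have h3 : (1 + g) / (1 + m) - 1 = (g - m) / (1 + m) := by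
    field_simp
    ring
  linarith

theorem pb44_ci {g : ℂ → ℝ} {r : ℝ} (h : CircleIntegrable g 0 r) (c : ℝ) :
    CircleIntegrable (fun z => c * g z) 0 r :=
  IntervalIntegrable.const_mul h c

theorem pb44_ca (g : ℂ → ℝ) (r c : ℝ) :
    Real.circleAverage (fun z => c * g z) 0 r = c * Real.circleAverage g 0 r :=
  Real.circleAverage_fun_smul (a := c) (f := g) (c := 0) (R := r)

/-- the estimate at radius `r` -/
theorem pb44_step {C1 C2 : ℝ} (hC1 : 0 < C1) (hC2 : 0 < C2)
    (h1 : ∀ (r : ℝ) (a : ℂ), 0 < r →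
      CircleIntegrable (fun z => ‖z - a‖ ^ (-(1 / 2) : ℝ)) 0 r ∧
      Real.circleAverage (fun z => ‖z - a‖ ^ (-(1 / 2) : ℝ)) 0 r ≤ C1 * r ^ (-(1 / 2) : ℝ))
    (h2 : ∀ (h : ℂ → ℂ) (R : ℝ), 0 < R →
      AnalyticOnNhd ℂ h (Metric.closedBall 0 (2 * R)) →
      (∀ z ∈ Metric.closedBall (0 : ℂ) (2 * R), h z ≠ 0) → ∀ z : ℂ, ‖z‖ ≤ R →
      ‖deriv h z / h z‖ ≤ C2 / R * Real.circleAverage (fun z => |Real.log ‖h z‖|) 0 (2 * R))
    {f : ℂ → ℂ} (hf : Differentiable ℂ f) (h0 : f 0 ≠ 0) {r B L : ℝ} (hr : 1 ≤ r) (hB : 0 ≤ B)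
    (hL : |Real.log ‖f 0‖| ≤ L) (hM : ∀ z : ℂ, ‖z‖ = 6 * r → ‖f z‖ ≤ Real.exp B) :
    Real.circleAverage (fun z => Real.posLog ‖deriv f z / f z‖) 0 r ≤
      2 * Real.log (1 + C1 * (2 * (B + L))) + Real.log (1 + C2 * (6 * B + 5 * L)) +
        Real.log 2 := by
  classical
  have hne : ∃ z, f z ≠ 0 := ⟨0, h0⟩
  have hr0 : 0 < r := by linarith
  have hL0 : 0 ≤ L := (abs_nonneg _).trans hL
  set Z : Finset ℂ := (finite_zeros hf hne (2 * r)).toFinset with hZ
  have hZmem : ∀ a, a ∈ Z ↔ ‖a‖ ≤ 2 * r ∧ f a = 0 := by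
    intro a; rw [hZ, Set.Finite.mem_toFinset]; rfl
  obtain ⟨E, hE, hEZ, hEeq⟩ := factor hf hne Z
  have hEne : ∀ z : ℂ, ‖z‖ ≤ 2 * r → E z ≠ 0 := by
    intro z hz hEz
    have : f z = 0 := by rw [hEeq z, hEz, mul_zero]
    exact hEZ z ((hZmem z).2 ⟨hz, this⟩) hEz
  -- the number of zeros
  set n : ℝ := ∑ a ∈ Z, (D f a : ℝ) with hn
  have hn0 : 0 ≤ n := Finset.sum_nonneg (fun a _ => Nat.cast_nonneg _)
  have hnle : n ≤ 2 * (B + L) := by
    have h3 := count_le hf h0 (r := 2 * r) (M := Real.exp B) (by linarith)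
      (fun z hz => hM z (by rw [hz]; ring)) (Z := Z) (fun a ha => ((hZmem a).1 ha).1)
    rw [Real.log_exp, ← hn] at h3
    have h4 := Real.log_two_gt_d9
    have h5 := neg_abs_le (Real.log ‖f 0‖)
    nlinarith
  -- the bound for E
  have hEB : ∀ z : ℂ, ‖z‖ ≤ 6 * r → ‖E z‖ ≤ Real.exp B := by
    intro z hz
    have h6 : 6 * r ≠ 0 := by positivity
    refine Complex.norm_le_of_forall_mem_frontier_norm_le (U := Metric.ball 0 (6 * r))
      Metric.isBounded_ball hE.diffContOnCl ?_ ?_
    · intro w hw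
      rw [frontier_ball _ h6, mem_sphere_zero_iff_norm] at hw
      refine le_trans ?_ (hM w hw)
      rw [hEeq w, norm_mul]
      apply le_mul_of_one_le_left (norm_nonneg _)
      rw [norm_prod]
      refine Finset.one_le_prod (fun a ha => ?_)
      rw [norm_pow]
      apply one_le_pow₀
      have h7 := ((hZmem a).1 ha).1
      have h8 := norm_sub_norm_le w a
      linarith
    · rw [closure_ball _ h6]
      simpa using hz
  have hElog : ∀ z : ℂ, ‖z‖ ≤ 2 * r → Real.log ‖E z‖ ≤ B := by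
    intro z hz
    have h3 := hEB z (by linarith)
    rw [← Real.log_exp B]
    exact Real.log_le_log (norm_pos_iff.2 (hEne z hz)) h3
  -- the mean of `|log |E||`
  have hmean : Real.circleAverage (fun z => |Real.log ‖E z‖|) 0 (2 * r) ≤
      2 * B + L + n * Real.log (2 * r) := by
    have h2r : |2 * r| = 2 * r := abs_of_pos (by linarith)
    have han : AnalyticOnNhd ℂ E (Metric.closedBall 0 |2 * r|) := fun w _ => hE.analyticAt w
    have hav : Real.circleAverage (fun z => Real.log ‖E z‖) 0 (2 * r) = Real.log ‖E 0‖ :=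
      AnalyticOnNhd.circleAverage_log_norm_of_ne_zero han (fun u hu => hEne u (by
        rw [h2r] at hu; simpa using hu))
    have hci : CircleIntegrable (fun z => Real.log ‖E z‖) 0 (2 * r) :=
      MeromorphicOn.circleIntegrable_log_norm
        (han.mono Metric.sphere_subset_closedBall).meromorphicOn
    have h3 : Real.circleAverage (fun z => |Real.log ‖E z‖|) 0 (2 * r) ≤
        Real.circleAverage (fun z => 2 * B - Real.log ‖E z‖) 0 (2 * r) := by
      apply Real.circleAverage_mono hci.abs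
      · exact (circleIntegrable_const _ _ _).sub hci
      · intro z hz
        rw [h2r, mem_sphere_zero_iff_norm] at hz
        have h4 := hElog z hz.le
        change |Real.log ‖E z‖| ≤ 2 * B - Real.log ‖E z‖
        rcases abs_cases (Real.log ‖E z‖) with h5 | h5 <;> linarith [h5.1]
    rw [Real.circleAverage_fun_sub (circleIntegrable_const _ _ _) hci, hav,
      Real.circleAverage_const] at h3
    have h4 : Real.log ‖f 0‖ ≤ n * Real.log (2 * r) + Real.log ‖E 0‖ := by
      have hE0 : 0 < ‖E 0‖ := norm_pos_iff.2 (hEne 0 (by rw [norm_zero]; positivity))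
      have h5 : ‖f 0‖ ≤ (2 * r) ^ (∑ a ∈ Z, D f a) * ‖E 0‖ := by
        rw [hEeq 0, norm_mul, norm_prod, ← Finset.prod_pow_eq_pow_sum]
        apply mul_le_mul_of_nonneg_right _ hE0.le
        apply Finset.prod_le_prod (fun a _ => norm_nonneg _)
        intro a ha
        rw [norm_pow]
        apply pow_le_pow_left₀ (norm_nonneg _)
        rw [zero_sub, norm_neg]
        exact ((hZmem a).1 ha).1
      have h6 := Real.log_le_log (norm_pos_iff.2 h0) h5
      rw [Real.log_mul (by positivity) hE0.ne', Real.log_pow] at h6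
      rw [hn]
      push_cast at h6
      exact h6
    have h5 := neg_abs_le (Real.log ‖f 0‖)
    linarith
  -- the bound for E'/E
  set e : ℝ := C2 * (6 * B + 5 * L) with he
  have he0 : 0 ≤ e := by positivity
  have hEe : ∀ z : ℂ, ‖z‖ ≤ r → ‖deriv E z / E z‖ ≤ e := by
    intro z hz
    refine (h2 E r hr0 (fun w _ => hE.analyticAt w) (fun w hw => hEne w (by simpa using hw))
      z hz).trans ?_
    have h3 : Real.log (2 * r) ≤ 2 * r := Real.log_le_self (by positivity)
    have h4 : n * Real.log (2 * r) ≤ (2 * (B + L)) * (2 * r) :=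
      mul_le_mul hnle h3 (Real.log_nonneg (by linarith)) (by positivity)
    calc C2 / r * Real.circleAverage (fun z => |Real.log ‖E z‖|) 0 (2 * r)
        ≤ C2 / r * ((6 * B + 5 * L) * r) := by
          apply mul_le_mul_of_nonneg_left _ (by positivity)
          nlinarith
      _ = e := by rw [he]; field_simp
  -- pointwise bound
  set m : ℝ := C1 * (2 * (B + L)) with hm
  have hm0 : 0 ≤ m := by positivity
  set g : ℂ → ℝ := fun z => ∑ a ∈ Z, (D f a : ℝ) * ‖z - a‖ ^ (-(1 / 2) : ℝ) with hg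
  have hg0 : ∀ z, 0 ≤ g z := fun z => by rw [hg]; exact Finset.sum_nonneg (fun a _ => by positivity)
  have hpt : ∀ z : ℂ, ‖z‖ = r → Real.posLog ‖deriv f z / f z‖ ≤
      (2 * Real.log (1 + m) + Real.log (1 + e) + Real.log 2 - 2 / (1 + m) * m) +
        2 / (1 + m) * g z := by
    intro z hz
    have h3 := pb44_tangent (hg0 z) hm0
    have h4 : (2 * Real.log (1 + m) + Real.log (1 + e) + Real.log 2 - 2 / (1 + m) * m) +
        2 / (1 + m) * g z = Real.log 2 + 2 * (Real.log (1 + m) + (g z - m) / (1 + m)) +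
          Real.log (1 + e) := by
      field_simp
      ring
    rw [h4]
    have h5 : 0 ≤ Real.log (1 + e) := Real.log_nonneg (by linarith)
    have h6 : 0 ≤ Real.log 2 := Real.log_nonneg (by norm_num)
    have h7 : 0 ≤ Real.posLog (g z) := Real.posLog_nonneg
    by_cases hfz : f z = 0
    · rw [hfz, div_zero, norm_zero, Real.posLog_zero]
      linarith
    · rw [pb44_logDeriv hE hEeq hfz]
      refine (Real.posLog_norm_add_le _ _).trans ?_
      have h8 : Real.posLog ‖∑ a ∈ Z, (D f a : ℂ) / (z - a)‖ ≤ 2 * Real.posLog (g z) := by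
        refine (Real.posLog_le_posLog (norm_nonneg _) (pb44_sum_le z)).trans ?_
        rw [Real.posLog_pow]
        push_cast
        exact le_rfl
      have h9 : Real.posLog ‖deriv E z / E z‖ ≤ Real.log (1 + e) := by
        refine (Real.posLog_le_posLog (norm_nonneg _) (hEe z hz.le)).trans ?_
        rw [Real.posLog_eq_log_max_one he0]
        apply Real.log_le_log (by positivity)
        exact max_le (by linarith) (by linarith)
      linarith
  -- the mean
  have hgi : CircleIntegrable g 0 r := by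
    rw [hg]
    apply CircleIntegrable.fun_sum
    intro a _
    exact pb44_ci (h1 r a hr0).1 _
  have hga : Real.circleAverage g 0 r ≤ m := by
    rw [hg, Real.circleAverage_fun_sum (fun a _ => pb44_ci (h1 r a hr0).1 _)]
    have h3 : ∀ a ∈ Z, Real.circleAverage
        (fun z => (D f a : ℝ) * ‖z - a‖ ^ (-(1 / 2) : ℝ)) 0 r ≤ (D f a : ℝ) * C1 := by
      intro a _
      rw [pb44_ca]
      apply mul_le_mul_of_nonneg_left _ (Nat.cast_nonneg _)
      refine (h1 r a hr0).2.trans ?_
      have : r ^ (-(1 / 2) : ℝ) ≤ 1 := Real.rpow_le_one_of_one_le_of_nonpos hr (by norm_num)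
      nlinarith
    refine (Finset.sum_le_sum h3).trans ?_
    rw [← Finset.sum_mul, ← hn, hm, mul_comm]
    exact mul_le_mul_of_nonneg_left hnle hC1.le
  have hfm : MeromorphicOn (fun z => deriv f z / f z) (Metric.sphere 0 |r|) := fun z _ =>
    ((hf.analyticAt z).deriv.meromorphicAt).div (hf.analyticAt z).meromorphicAt
  have hfin : Real.circleAverage (fun z => Real.posLog ‖deriv f z / f z‖) 0 r ≤
      Real.circleAverage (fun z =>
        (2 * Real.log (1 + m) + Real.log (1 + e) + Real.log 2 - 2 / (1 + m) * m) +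
        2 / (1 + m) * g z) 0 r := by
    apply Real.circleAverage_mono
    · exact hfm.circleIntegrable_posLog_norm
    · exact (circleIntegrable_const _ _ _).add (pb44_ci hgi _)
    · intro z hz
      rw [abs_of_pos hr0, mem_sphere_zero_iff_norm] at hz
      exact hpt z hz
  rw [Real.circleAverage_fun_add (circleIntegrable_const _ _ _) (pb44_ci hgi _),
    Real.circleAverage_const, pb44_ca] at hfin
  have h11 : 2 / (1 + m) * Real.circleAverage g 0 r ≤ 2 / (1 + m) * m :=
    mul_le_mul_of_nonneg_left hga (by positivity)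
  linarith

/-- logarithms of powers -/
theorem pb44_log {K σ r : ℝ} (hK : 1 ≤ K) (hr : 1 ≤ Real.log r) (hr0 : 0 < r) :
    Real.log (K * r ^ σ) ≤ (Real.log K + σ) * Real.log r := by
  rw [Real.log_mul (by positivity) (by positivity), Real.log_rpow hr0]
  have := Real.log_nonneg hK
  nlinarith

/-- the case `f 0 ≠ 0` -/
theorem pb44_zero {f : ℂ → ℂ} (hf : Differentiable ℂ f) (h0 : f 0 ≠ 0) {σ : ℝ} (hσ0 : 0 ≤ σ)
    (hσ : ∀ᶠ r : ℝ in atTop, T f r ≤ r ^ σ) :
    ∃ C : ℝ, ∀ᶠ r : ℝ in atTop,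
      Real.circleAverage (fun z => Real.posLog ‖deriv f z / f z‖) 0 r ≤ C * Real.log r := by
  obtain ⟨C1, hC1, h1⟩ := mean_sqrt
  obtain ⟨C2, hC2, h2⟩ := log_deriv_free
  set L : ℝ := |Real.log ‖f 0‖| with hL
  have hL0 : 0 ≤ L := abs_nonneg _
  set b : ℝ := 4 * 12 ^ σ with hb
  have hb0 : 0 < b := by positivity
  set K1 : ℝ := 1 + C1 * (2 * (b + L)) with hK1
  set K2 : ℝ := 1 + C2 * (6 * b + 5 * L) with hK2
  have hK1' : 1 ≤ K1 := by have : 0 ≤ C1 * (2 * (b + L)) := by positivity
                           linarith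
  have hK2' : 1 ≤ K2 := by have : 0 ≤ C2 * (6 * b + 5 * L) := by positivity
                           linarith
  refine ⟨2 * (Real.log K1 + σ) + (Real.log K2 + σ) + Real.log 2, ?_⟩
  have ht : Tendsto (fun r : ℝ => 12 * r) atTop atTop :=
    tendsto_id.const_mul_atTop (by norm_num)
  filter_upwards [ht.eventually hσ, eventually_ge_atTop (Real.exp 1)] with r hT hre
  have hr1 : 1 ≤ r := (Real.one_le_exp (by norm_num)).trans hre
  have hr0 : 0 < r := by linarith
  have hlog : 1 ≤ Real.log r := by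
    rw [← Real.log_exp 1]
    exact Real.log_le_log (Real.exp_pos 1) hre
  have hrσ : 1 ≤ r ^ σ := Real.one_le_rpow hr1 hσ0
  have hB : 4 * (12 * r) ^ σ = b * r ^ σ := by
    rw [Real.mul_rpow (by norm_num) hr0.le, hb]; ring
  have hM : ∀ z : ℂ, ‖z‖ = 6 * r → ‖f z‖ ≤ Real.exp (b * r ^ σ) := by
    intro z hz
    have hz0 : z ≠ 0 := by
      intro h; rw [h, norm_zero] at hz; linarith
    apply le_exp_of_posLog (norm_nonneg _)
    refine (growth hf hz0).trans ?_
    rw [hz, ← hB, show 2 * (6 * r) = 12 * r by ring]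
    linarith
  have h3 := pb44_step hC1 hC2 h1 h2 hf h0 hr1 (B := b * r ^ σ) (by positivity) hL.ge hM
  have h4 : 1 + C1 * (2 * (b * r ^ σ + L)) ≤ K1 * r ^ σ := by
    have h5 : C1 * (2 * (b * r ^ σ + L)) ≤ C1 * (2 * (b + L)) * r ^ σ := by
      have : L ≤ L * r ^ σ := le_mul_of_one_le_right hL0 hrσ
      have h6 : C1 * (2 * (b + L)) * r ^ σ = C1 * (2 * (b * r ^ σ + L * r ^ σ)) := by ring
      rw [h6]
      gcongr
    rw [hK1, add_mul, one_mul]
    linarith
  have h5 : 1 + C2 * (6 * (b * r ^ σ) + 5 * L) ≤ K2 * r ^ σ := by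
    have h5 : C2 * (6 * (b * r ^ σ) + 5 * L) ≤ C2 * (6 * b + 5 * L) * r ^ σ := by
      have : L ≤ L * r ^ σ := le_mul_of_one_le_right hL0 hrσ
      have h6 : C2 * (6 * b + 5 * L) * r ^ σ = C2 * (6 * (b * r ^ σ) + 5 * (L * r ^ σ)) := by
        ring
      rw [h6]
      gcongr
    rw [hK2, add_mul, one_mul]
    linarith
  have h6 := (Real.log_le_log (by positivity) h4).trans (pb44_log hK1' hlog hr0)
  have h7 := (Real.log_le_log (by positivity) h5).trans (pb44_log hK2' hlog hr0)
  have h8 : Real.log 2 ≤ Real.log 2 * Real.log r :=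
    le_mul_of_one_le_right (Real.log_nonneg (by norm_num)) hlog
  linarith

/-- the lemma on the logarithmic derivative, entire functions of finite order -/
theorem log_deriv {f : ℂ → ℂ} (hf : Differentiable ℂ f) (hne : ∃ z, f z ≠ 0) {σ : ℝ}
    (hσ : ∀ᶠ r : ℝ in atTop, characteristic f ⊤ r ≤ r ^ σ) :
    ∃ C : ℝ, ∀ᶠ r : ℝ in atTop,
      Real.circleAverage (fun z => Real.posLog ‖deriv f z / f z‖) 0 r ≤ C * Real.log r := by
  obtain ⟨E, hE, hE0, hEeq⟩ := factor_one hf hne 0
  set m : ℕ := D f 0 with hm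
  have hEeq' : ∀ z, f z = (∏ a ∈ ({0} : Finset ℂ), (z - a) ^ (D f a)) * E z := by
    intro z
    rw [Finset.prod_singleton]
    exact hEeq z
  have hT : ∀ᶠ r : ℝ in atTop, T E r ≤ r ^ (max σ 0) := by
    filter_upwards [hσ, eventually_ge_atTop 1] with r h1 h2
    rw [T_eq hf] at h1
    have h3 : r ^ σ ≤ r ^ (max σ 0) := Real.rpow_le_rpow_of_exponent_le h2 (le_max_left _ _)
    refine le_trans ?_ (h1.trans h3)
    apply Real.circleAverage_mono
    · exact (continuous_posLog_norm hE.continuous).continuousOn.circleIntegrable'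
    · exact (continuous_posLog_norm hf.continuous).continuousOn.circleIntegrable'
    · intro z hz
      rw [abs_of_pos (by linarith), mem_sphere_zero_iff_norm] at hz
      apply Real.posLog_le_posLog (norm_nonneg _)
      rw [hEeq z, norm_mul, norm_pow, sub_zero]
      exact le_mul_of_one_le_left (norm_nonneg _) (one_le_pow₀ (by rw [hz]; exact h2))
  obtain ⟨C, hC⟩ := pb44_zero hE hE0 (le_max_right σ 0) hT
  refine ⟨C + Real.log 2, ?_⟩
  filter_upwards [hC, eventually_ge_atTop (Real.exp 1), eventually_ge_atTop (m : ℝ)]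
    with r h1 hre hrm
  have hr1 : 1 ≤ r := (Real.one_le_exp (by norm_num)).trans hre
  have hr0 : 0 < r := by linarith
  have hlog : 1 ≤ Real.log r := by
    rw [← Real.log_exp 1]
    exact Real.log_le_log (Real.exp_pos 1) hre
  have hEi : CircleIntegrable (fun z => Real.posLog ‖deriv E z / E z‖) 0 r := by
    have hfm : MeromorphicOn (fun z => deriv E z / E z) (Metric.sphere 0 |r|) := fun z _ =>
      ((hE.analyticAt z).deriv.meromorphicAt).div (hE.analyticAt z).meromorphicAt
    exact hfm.circleIntegrable_posLog_norm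
  have h2 : Real.circleAverage (fun z => Real.posLog ‖deriv f z / f z‖) 0 r ≤
      Real.circleAverage (fun z => Real.log 2 + Real.posLog ‖deriv E z / E z‖) 0 r := by
    apply Real.circleAverage_mono
    · have hfm : MeromorphicOn (fun z => deriv f z / f z) (Metric.sphere 0 |r|) := fun z _ =>
        ((hf.analyticAt z).deriv.meromorphicAt).div (hf.analyticAt z).meromorphicAt
      exact hfm.circleIntegrable_posLog_norm
    · exact (circleIntegrable_const _ _ _).add hEi
    · intro z hz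
      rw [abs_of_pos hr0, mem_sphere_zero_iff_norm] at hz
      have h6 : 0 ≤ Real.log 2 := Real.log_nonneg (by norm_num)
      have h7 : 0 ≤ Real.posLog ‖deriv E z / E z‖ := Real.posLog_nonneg
      by_cases hfz : f z = 0
      · rw [hfz, div_zero, norm_zero, Real.posLog_zero]
        linarith
      · rw [pb44_logDeriv hE hEeq' hfz]
        refine (Real.posLog_norm_add_le _ _).trans ?_
        have h8 : Real.posLog ‖∑ a ∈ ({0} : Finset ℂ), (D f a : ℂ) / (z - a)‖ = 0 := by
          rw [Finset.sum_singleton, sub_zero, Real.posLog_eq_zero_iff, norm_div, hz,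
            Complex.norm_natCast, ← hm, abs_of_nonneg (by positivity)]
          exact div_le_one_of_le₀ hrm hr0.le
        linarith
  rw [Real.circleAverage_fun_add (circleIntegrable_const _ _ _) hEi,
    Real.circleAverage_const] at h2
  have h8 : Real.log 2 ≤ Real.log 2 * Real.log r :=
    le_mul_of_one_le_right (Real.log_nonneg (by norm_num)) hlog
  linarith

end Pool.Agent.PfB
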