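import Pool.Agent.PfB.LD2

/-! MP_f2c8f8_an, project PfB, row PB-45 -/

set_option autoImplicit false

open MeasureTheory Filter
open scoped ComplexConjugate Topology

noncomputable section

namespace Pool.Agent.PfB

open Pool.Agent.H9.Pf ValueDistribution

theorem pb45_sep (S : Finset ℂ) : ∃ δ : ℝ, 0 < δ ∧ ∀ a ∈ S, ∀ b ∈ S, a ≠ b → δ ≤ ‖a - b‖ := by
  classical
  by_cases h : S.offDiag.Nonempty
  · obtain ⟨p, hp, hmin⟩ := Finset.exists_min_image S.offDiag (fun p => ‖p.1 - p.2‖) h
    refine ⟨‖p.1 - p.2‖, ?_, fun a ha b hb hab => ?_⟩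
    · rw [norm_pos_iff, sub_ne_zero]
      exact (Finset.mem_offDiag.1 hp).2.2
    · exact hmin (a, b) (Finset.mem_offDiag.2 ⟨ha, hb, hab⟩)
  · refine ⟨1, one_pos, fun a ha b hb hab => ?_⟩
    exact absurd ⟨(a, b), Finset.mem_offDiag.2 ⟨ha, hb, hab⟩⟩ h

theorem pb45_point (S : Finset ℂ) : ∃ C : ℝ, 0 ≤ C ∧ ∀ w : ℂ,
    ∑ a ∈ S, Real.posLog ‖w - a‖⁻¹ ≤ Real.posLog ‖∑ a ∈ S, (w - a)⁻¹‖ + C := by
  classical
  obtain ⟨δ, hδ, hsep⟩ := pb45_sep S
  rcases S.eq_empty_or_nonempty with h0 | hne
  · refine ⟨0, le_rfl, fun w => ?_⟩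
    rw [h0]
    simp
  have hm : 1 ≤ (S.card : ℝ) := by exact_mod_cast Finset.card_pos.2 hne
  set m : ℝ := (S.card : ℝ) with hmdef
  set η : ℝ := δ / (2 * m) with hη
  have hη0 : 0 < η := by positivity
  have hηδ : η ≤ δ / 2 := by
    rw [hη]
    apply div_le_div_of_nonneg_left hδ.le (by norm_num) (by linarith)
  have hterm : ∀ w a : ℂ, η ≤ ‖w - a‖ → Real.posLog ‖w - a‖⁻¹ ≤ Real.posLog η⁻¹ := by
    intro w a h
    apply Real.posLog_le_posLog (by positivity)
    exact inv_anti₀ hη0 h
  refine ⟨Real.log m + m * Real.posLog η⁻¹, ?_, fun w => ?_⟩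
  · have h1 := Real.log_nonneg hm
    have h2 : 0 ≤ Real.posLog η⁻¹ := Real.posLog_nonneg
    positivity
  by_cases hw : ∃ a₀ ∈ S, ‖w - a₀‖ < η
  · obtain ⟨a₀, ha₀, hw0⟩ := hw
    have hother : ∀ b ∈ S.erase a₀, δ / 2 ≤ ‖w - b‖ := by
      intro b hb
      have h1 := hsep a₀ ha₀ b (Finset.mem_of_mem_erase hb) (Finset.ne_of_mem_erase hb).symm
      have h2 : ‖a₀ - b‖ ≤ ‖w - b‖ + ‖w - a₀‖ := by
        have : a₀ - b = (w - b) - (w - a₀) := by ring
        rw [this]
        exact norm_sub_le _ _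
      linarith
    have hcard : ((S.erase a₀).card : ℝ) = m - 1 := by
      rw [Finset.card_erase_of_mem ha₀, Nat.cast_sub (Finset.card_pos.2 hne)]
      simp [hmdef]
    have h1 : ∑ b ∈ S.erase a₀, Real.posLog ‖w - b‖⁻¹ ≤ (m - 1) * Real.posLog η⁻¹ := by
      rw [← hcard, ← nsmul_eq_mul]
      exact Finset.sum_le_card_nsmul _ _ _ fun b hb => hterm w b (hηδ.trans (hother b hb))
    have h2 : Real.posLog ‖w - a₀‖⁻¹ ≤ Real.posLog ‖∑ a ∈ S, (w - a)⁻¹‖ + Real.log m := by
      rcases eq_or_ne w a₀ with h | h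
      · rw [h, sub_self, norm_zero, inv_zero, Real.posLog_zero]
        have h3 : 0 ≤ Real.posLog ‖∑ a ∈ S, (a₀ - a)⁻¹‖ := Real.posLog_nonneg
        have h4 := Real.log_nonneg hm
        linarith
      · have hx : 0 < ‖w - a₀‖ := norm_pos_iff.2 (sub_ne_zero.2 h)
        set x : ℝ := ‖w - a₀‖⁻¹ with hxdef
        have hx1 : η⁻¹ ≤ x := inv_anti₀ hx hw0.le
        have h3 : ‖∑ b ∈ S.erase a₀, (w - b)⁻¹‖ ≤ (m - 1) * (2 / δ) := by
          refine (norm_sum_le _ _).trans ?_
          rw [← hcard, ← nsmul_eq_mul]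
          refine Finset.sum_le_card_nsmul _ _ _ fun b hb => ?_
          rw [norm_inv]
          have := inv_anti₀ (by positivity) (hother b hb)
          rwa [inv_div] at this
        have h4 : (m - 1) * (2 / δ) ≤ (m - 1) / m * x := by
          have h5 : η⁻¹ = m * (2 / δ) := by
            rw [hη, inv_div]
            ring
          rw [h5] at hx1
          have h6 : (m - 1) / m * (m * (2 / δ)) ≤ (m - 1) / m * x := by
            apply mul_le_mul_of_nonneg_left hx1
            apply div_nonneg <;> linarith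
          have h7 : (m - 1) / m * (m * (2 / δ)) = (m - 1) * (2 / δ) := by
            have : m ≠ 0 := by positivity
            field_simp
          linarith
        have h5 : x ≤ ‖∑ a ∈ S, (w - a)⁻¹‖ + ‖∑ b ∈ S.erase a₀, (w - b)⁻¹‖ := by
          rw [← Finset.add_sum_erase S _ ha₀]
          have h6 : x = ‖((w - a₀)⁻¹ + ∑ b ∈ S.erase a₀, (w - b)⁻¹)
              - ∑ b ∈ S.erase a₀, (w - b)⁻¹‖ := by
            rw [add_sub_cancel_right, norm_inv]
          rw [h6]
          exact norm_sub_le _ _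
        have h6 : x ≤ m * ‖∑ a ∈ S, (w - a)⁻¹‖ := by
          have h7 : x - (m - 1) / m * x ≤ ‖∑ a ∈ S, (w - a)⁻¹‖ := by linarith
          have h8 : x - (m - 1) / m * x = x / m := by
            have : m ≠ 0 := by positivity
            field_simp
            ring
          rw [h8, div_le_iff₀ (by positivity)] at h7
          linarith
        have h7 := Real.posLog_le_posLog (by positivity) h6
        have h8 : Real.posLog (m * ‖∑ a ∈ S, (w - a)⁻¹‖) ≤
            Real.log m + Real.posLog ‖∑ a ∈ S, (w - a)⁻¹‖ := Real.posLog_nat_mul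
        linarith
    rw [← Finset.add_sum_erase S _ ha₀]
    have h3 : 0 ≤ Real.posLog η⁻¹ := Real.posLog_nonneg
    nlinarith
  · push Not at hw
    have h1 : ∑ a ∈ S, Real.posLog ‖w - a‖⁻¹ ≤ m * Real.posLog η⁻¹ := by
      rw [hmdef, ← nsmul_eq_mul]
      exact Finset.sum_le_card_nsmul _ _ _ fun a ha => hterm w a (hw a ha)
    have h2 : 0 ≤ Real.posLog ‖∑ a ∈ S, (w - a)⁻¹‖ := Real.posLog_nonneg
    have h3 := Real.log_nonneg hm
    linarith

theorem pb45_dd {f : ℂ → ℂ} (hf : Differentiable ℂ f) : Differentiable ℂ (deriv f) := by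
  have := hf.contDiff (n := 2)
  exact this.differentiable_deriv_two

theorem pb45_cod {f : ℂ → ℂ} (hf : Differentiable ℂ f) (hne : ∃ z, f z ≠ 0) :
    ∀ᶠ z in codiscrete ℂ, f z ≠ 0 := by
  obtain ⟨x, hx⟩ := hne
  have h1 := AnalyticOnNhd.preimage_zero_mem_codiscrete (fun z _ => hf.analyticAt z) hx
  filter_upwards [h1] with z hz
  exact hz

theorem T_deriv_le {f : ℂ → ℂ} (hf : Differentiable ℂ f) (hne : ∃ z, f z ≠ 0) {σ : ℝ}
    (hσ : ∀ᶠ r : ℝ in atTop, characteristic f ⊤ r ≤ r ^ σ) :
    ∃ C : ℝ, ∀ᶠ r : ℝ in atTop,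
      characteristic (deriv f) ⊤ r ≤ characteristic f ⊤ r + C * Real.log r := by
  obtain ⟨C, hC⟩ := log_deriv hf hne hσ
  refine ⟨C, ?_⟩
  filter_upwards [hC, eventually_gt_atTop 1] with r h1 hr
  have hr0 : r ≠ 0 := by linarith
  have hm : Meromorphic f := fun z => (hf.analyticAt z).meromorphicAt
  have hd := pb45_dd hf
  have hdm : Meromorphic (deriv f) := fun z => (hd.analyticAt z).meromorphicAt
  have hcod : deriv f =ᶠ[codiscrete ℂ] (deriv f / f) * f := by
    filter_upwards [pb45_cod hf hne] with z hz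
    rw [Pi.mul_apply, Pi.div_apply, div_mul_cancel₀ _ hz]
  have e1 : characteristic (deriv f) ⊤ r = proximity (deriv f) ⊤ r := by
    rw [characteristic, logCounting_top_eq hd, add_zero]
  have e2 : characteristic f ⊤ r = proximity f ⊤ r := by
    rw [characteristic, logCounting_top_eq hf, add_zero]
  rw [e1, e2, proximity_congr_codiscrete hcod hr0]
  have h2 := proximity_mul_top_le (hdm.div hm) hm r
  have h3 : proximity (deriv f / f) ⊤ r =
      Real.circleAverage (fun z => Real.posLog ‖deriv f z / f z‖) 0 r := by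
    rw [proximity_top]
    rfl
  rw [Pi.add_apply, h3] at h2
  linarith

theorem T_le_deriv {f : ℂ → ℂ} (hf : Differentiable ℂ f) :
    ∃ C : ℝ, ∀ r : ℝ, 1 ≤ r →
      characteristic f ⊤ r ≤ 4 * characteristic (deriv f) ⊤ (2 * r) + Real.log r + C := by
  have hd : Differentiable ℂ (deriv f) := pb45_dd hf
  refine ⟨Real.log 2 + Real.posLog ‖f 0‖, fun r hr => ?_⟩
  rw [T_eq hf, T_eq hd]
  have hr0 : 0 < r := by linarith
  set t := T (deriv f) (2 * r) with ht
  have ht0 : 0 ≤ t := T_nonneg _ _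
  have hM : ∀ w ∈ Metric.closedBall (0 : ℂ) r, ‖deriv f w‖ ≤ Real.exp (4 * t) := by
    intro w hw
    rw [mem_closedBall_zero_iff] at hw
    apply le_exp_of_posLog (norm_nonneg _)
    rcases eq_or_ne w 0 with h0 | h0
    · rw [h0]
      have h1 := posLog_le_circleAverage hd 0 (s := 2 * r) (by positivity)
      have h2 : Real.circleAverage (fun w => Real.posLog ‖deriv f w‖) 0 (2 * r) = t := rfl
      rw [h2] at h1
      linarith
    · refine (growth hd h0).trans ?_
      have h1 : 0 < ‖w‖ := norm_pos_iff.2 h0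
      have h2 := T_mono hd (a := 2 * ‖w‖) (b := 2 * r) (by positivity) (by linarith)
      linarith
  have hb : ∀ z ∈ Metric.sphere (0 : ℂ) |r|, Real.posLog ‖f z‖ ≤
      4 * t + Real.log r + (Real.log 2 + Real.posLog ‖f 0‖) := by
    intro z hz
    rw [mem_sphere_zero_iff_norm, abs_of_pos hr0] at hz
    have h1 : ‖f z - f 0‖ ≤ Real.exp (4 * t) * ‖z - 0‖ :=
      (convex_closedBall (0 : ℂ) r).norm_image_sub_le_of_norm_deriv_le
        (fun w _ => hf w) hM (by simp [hr0.le]) (by simp [hz])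
    rw [sub_zero, hz] at h1
    have h2 : Real.posLog ‖f z‖ ≤ Real.posLog ‖f z - f 0 + f 0‖ := by
      rw [sub_add_cancel]
    refine h2.trans ((Real.posLog_norm_add_le _ _).trans ?_)
    have h3 := Real.posLog_le_posLog (norm_nonneg _) h1
    have h4 : Real.posLog (Real.exp (4 * t) * r) = 4 * t + Real.log r := by
      rw [Real.posLog_apply, Real.log_mul (Real.exp_pos _).ne' hr0.ne', Real.log_exp]
      exact max_eq_right (by have := Real.log_nonneg hr; positivity)
    linarith
  exact Real.circleAverage_mono_on_of_le_circle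
    ((continuous_posLog_norm hf.continuous).continuousOn.circleIntegrable') hb

/-- one finite value: characteristic minus counting function -/
theorem pb45_one {f : ℂ → ℂ} (hf : Differentiable ℂ f) (a : ℂ) : ∃ K : ℝ, ∀ r : ℝ, r ≠ 0 →
    |characteristic f ⊤ r - logCounting f a r - proximity f a r| ≤ K := by
  obtain ⟨K, hK⟩ := N_prox hf a
  refine ⟨K, fun r hr => ?_⟩
  have h1 := hK r hr
  rw [T_eq hf]
  rw [← abs_neg]
  convert h1 using 2
  ring

/-- the sum of the proximity functions at finitely many finite values -/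
theorem sum_prox {f : ℂ → ℂ} (hf : Differentiable ℂ f) (hf' : ∃ z, deriv f z ≠ 0) {σ : ℝ}
    (hσ : ∀ᶠ r : ℝ in atTop, characteristic f ⊤ r ≤ r ^ σ) (S : Finset ℂ) :
    ∃ C : ℝ, ∀ᶠ r : ℝ in atTop, ∑ a ∈ S, (characteristic f ⊤ r - logCounting f a r) ≤
      characteristic (deriv f) ⊤ r - logCounting (deriv f) (0 : ℂ) r + C * Real.log r := by
  classical
  have hd := pb45_dd hf
  have hm : Meromorphic f := fun z => (hf.analyticAt z).meromorphicAt
  have hdm : Meromorphic (deriv f) := fun z => (hd.analyticAt z).meromorphicAt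
  -- the logarithmic derivatives
  have hLD : ∀ a : ℂ, ∃ C : ℝ, ∀ᶠ r : ℝ in atTop,
      proximity (deriv f / fun z => f z - a) ⊤ r ≤ C * Real.log r := by
    intro a
    have hg : Differentiable ℂ (fun z => f z - a) := hf.sub_const a
    have hgne : ∃ z, (fun z => f z - a) z ≠ 0 := by
      by_contra hcon
      push Not at hcon
      obtain ⟨z, hz⟩ := hf'
      apply hz
      have h1 : f = fun _ => a := by
        ext w
        exact sub_eq_zero.1 (hcon w)
      rw [h1]
      simp
    have hgσ : ∀ᶠ r : ℝ in atTop, characteristic (fun z => f z - a) ⊤ r ≤ r ^ (max σ 0 + 1) := by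
      have hlin : ∀ᶠ r : ℝ in atTop, 1 + (Real.posLog ‖a‖ + Real.log 2) ≤ r :=
        eventually_ge_atTop _
      filter_upwards [hσ, hlin, eventually_ge_atTop 1] with r h1 h2 h3
      have h4 := abs_characteristic_sub_characteristic_shift_le (a₀ := a) (r := r) hm
      have h5 := (abs_le.1 h4).1
      have h6 : r ^ σ ≤ r ^ (max σ 0) := Real.rpow_le_rpow_of_exponent_le h3 (le_max_left _ _)
      have h7 : 1 ≤ r ^ (max σ 0) := Real.one_le_rpow h3 (le_max_right _ _)
      rw [Real.rpow_add (by linarith), Real.rpow_one]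
      have h8 : 0 ≤ Real.posLog ‖a‖ + Real.log 2 :=
        add_nonneg Real.posLog_nonneg (Real.log_nonneg (by norm_num))
      nlinarith
    obtain ⟨C, hC⟩ := log_deriv hg hgne hgσ
    refine ⟨C, ?_⟩
    filter_upwards [hC] with r hr
    rw [proximity_top]
    have h1 : deriv (fun z => f z - a) = deriv f := by
      ext z
      rw [deriv_sub_const]
    rw [h1] at hr
    exact hr
  choose CL hCL using hLD
  obtain ⟨CP, hCP0, hCP⟩ := pb45_point S
  have hone : ∀ a : ℂ, ∃ K : ℝ, ∀ r : ℝ, r ≠ 0 →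
    |characteristic f ⊤ r - logCounting f a r - proximity f a r| ≤ K := pb45_one hf
  choose KK hKK using hone
  obtain ⟨K0, hK0⟩ := pb45_one hd 0
  refine ⟨∑ a ∈ S, CL a + (∑ a ∈ S, |KK a| + CP + Real.log S.card + |K0|), ?_⟩
  have hall : ∀ᶠ r : ℝ in atTop, ∀ a ∈ S,
      proximity (deriv f / fun z => f z - a) ⊤ r ≤ CL a * Real.log r :=
    (Filter.eventually_all_finset S).2 fun a _ => hCL a
  filter_upwards [hall, eventually_ge_atTop (Real.exp 1)] with r h1 hr
  have hr1 : 1 < r := lt_of_lt_of_le (Real.one_lt_exp_iff.2 one_pos) hr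
  have hr0 : r ≠ 0 := by linarith
  have hlog : 1 ≤ Real.log r := by
    rw [← Real.log_exp 1]
    exact Real.log_le_log (Real.exp_pos 1) hr
  set F : ℂ → ℂ := ∑ a ∈ S, (fun z => f z - a)⁻¹ with hF
  have hgm : ∀ a : ℂ, Meromorphic (fun z => f z - a) := fun a z =>
    ((hf.sub_const a).analyticAt z).meromorphicAt
  have hFm : Meromorphic F := Meromorphic.sum fun a _ => (hgm a).inv
  -- step 1
  have s1 : ∑ a ∈ S, proximity f a r ≤ proximity F ⊤ r + CP := by
    have hint : ∀ a ∈ S, CircleIntegrable (fun z => Real.posLog ‖f z - a‖⁻¹) 0 r := by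
      intro a _
      have h2 : CircleIntegrable (fun z => Real.posLog ‖(fun z => f z - a)⁻¹ z‖) 0 r :=
        (hgm a).inv.meromorphicOn.circleIntegrable_posLog_norm
      simpa only [Pi.inv_apply, norm_inv] using h2
    have hintF : CircleIntegrable (fun z => Real.posLog ‖F z‖) 0 r :=
      hFm.meromorphicOn.circleIntegrable_posLog_norm
    have e1 : ∑ a ∈ S, proximity f a r =
        Real.circleAverage (∑ a ∈ S, fun z => Real.posLog ‖f z - a‖⁻¹) 0 r := by
      rw [Real.circleAverage_sum hint]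
      refine Finset.sum_congr rfl fun a _ => ?_
      rw [proximity_coe]
    have e2 : proximity F ⊤ r + CP =
        Real.circleAverage ((fun z => Real.posLog ‖F z‖) + fun _ => CP) 0 r := by
      rw [Real.circleAverage_add hintF (circleIntegrable_const CP 0 r),
        Real.circleAverage_const, proximity_top]
    rw [e1, e2]
    apply Real.circleAverage_mono
    · exact CircleIntegrable.sum S hint
    · exact hintF.add (circleIntegrable_const CP 0 r)
    · intro z _
      rw [Finset.sum_apply]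
      have h2 := hCP (f z)
      have h3 : F z = ∑ a ∈ S, (f z - a)⁻¹ := by
        rw [hF, Finset.sum_apply]
        rfl
      change _ ≤ Real.posLog ‖F z‖ + CP
      rw [h3]
      exact h2
  -- step 2
  have s2 : proximity F ⊤ r ≤ proximity (deriv f * F) ⊤ r + proximity (deriv f) 0 r := by
    have hcod : F =ᶠ[codiscrete ℂ] (deriv f * F) * (deriv f)⁻¹ := by
      filter_upwards [pb45_cod hd hf'] with z hz
      rw [Pi.mul_apply, Pi.mul_apply, Pi.inv_apply]
      field_simp
    rw [proximity_congr_codiscrete hcod hr0]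
    have h2 := proximity_mul_top_le (hdm.mul hFm) hdm.inv r
    rw [Pi.add_apply, proximity_inv] at h2
    exact h2
  -- step 3
  have s3 : proximity (deriv f * F) ⊤ r ≤ ∑ a ∈ S, CL a * Real.log r + Real.log S.card := by
    have e1 : deriv f * F = ∑ a ∈ S, (deriv f / fun z => f z - a) := by
      rw [hF, Finset.mul_sum]
      exact Finset.sum_congr rfl fun a _ => (div_eq_mul_inv _ _).symm
    rw [e1]
    have h2 := proximity_sum_top_le S (fun a => deriv f / fun z => f z - a)
      (fun a _ => hdm.div (hgm a)) r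
    rw [Pi.add_apply, Finset.sum_apply] at h2
    refine h2.trans ?_
    have := Finset.sum_le_sum h1
    linarith
  have s4 : ∑ a ∈ S, (characteristic f ⊤ r - logCounting f a r) ≤
      ∑ a ∈ S, proximity f a r + ∑ a ∈ S, |KK a| := by
    rw [← Finset.sum_add_distrib]
    refine Finset.sum_le_sum fun a _ => ?_
    have h2 := (abs_le.1 (hKK a r hr0)).2
    have h3 := le_abs_self (KK a)
    linarith
  have s5 : proximity (deriv f) 0 r ≤
      characteristic (deriv f) ⊤ r - logCounting (deriv f) (0 : ℂ) r + |K0| := by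
    have h2 := (abs_le.1 (hK0 r hr0)).1
    have h3 := le_abs_self K0
    have h4 : proximity (deriv f) ((0 : ℂ) : WithTop ℂ) r = proximity (deriv f) 0 r := rfl
    rw [h4] at h2
    linarith
  have h6 : 0 ≤ Real.log S.card := by
    rcases Nat.eq_zero_or_pos S.card with h | h
    · rw [h]; simp
    · exact Real.log_nonneg (by exact_mod_cast h)
  have h7 : 0 ≤ ∑ a ∈ S, |KK a| := Finset.sum_nonneg fun a _ => abs_nonneg _
  have h8 := abs_nonneg K0
  rw [← Finset.sum_mul] at s3
  nlinarith

end Pool.Agent.PfB
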