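import Pool.Agent.PfB.Near
import Pool.Agent.PfB.KL2
import Pool.Agent.PfB.Mass
import Pool.Agent.PfB.Kt
import Pool.Agent.PfB.Qn

/-! MP_f2c8f8_an, project PfB, row PB-29 -/

set_option autoImplicit false

open MeasureTheory Filter
open scoped ComplexConjugate Topology

noncomputable section

namespace Pool.Agent.PfB

theorem pb29_kj_cont {p : ℕ} {x : ℝ} (hx : x ≠ 0) (j : ℤ) : Continuous (kj p x j) := by
  unfold kj
  exact continuous_const.mul ((KP_cont hx).comp (continuous_const.add continuous_id))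

theorem pb29_sgsj (p : ℕ) (j : ℤ) : |sg p * sj j| = 1 := by
  unfold sg sj
  rw [abs_mul, abs_pow, abs_zpow]; simp

theorem pb29_sjsj (j : ℤ) : sj j * sj j = 1 := by
  unfold sj
  rw [← mul_zpow]; simp

theorem pb29_kj_sq (p : ℕ) (x : ℝ) (j : ℤ) (b : ℝ) :
    kj p x j b ^ 2 = KP p x (th p j + b) ^ 2 := by
  unfold kj
  rw [mul_pow, ← sq_abs (sg p * sj j), pb29_sgsj, one_pow, one_mul]

/-- Cauchy–Schwarz on a short interval -/
theorem pb29_cs {p : ℕ} {C : ℝ} (hC : 0 < C) (h : ∀ x s : ℝ, x ≠ 0 →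
    ∫ b in s..(s + 2 * Real.pi), KP p x b ^ 2 ≤ (C * ww p x) ^ 2) {x : ℝ} (hx : x ≠ 0) (j : ℤ)
    (a : ℝ) {η τ : ℝ} (h0 : 0 < η) (h1 : η ≤ 1 / 3) (hτ : |τ| ≤ 3 * η) :
    |∫ t in (0 : ℝ)..τ, kj p x j (t - a)| ≤ 2 * C * ww p x * Real.sqrt η := by
  have hw := ww_pos p x
  have hsq : 0 < Real.sqrt η := Real.sqrt_pos.2 h0
  have hss : Real.sqrt η * Real.sqrt η = η := Real.mul_self_sqrt h0.le
  have hcw : 0 < C * ww p x := mul_pos hC hw
  obtain ⟨l, hl⟩ : ∃ l : ℝ, l = C * ww p x / Real.sqrt η := ⟨_, rfl⟩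
  have hlp : 0 < l := by rw [hl]; positivity
  have hcont : Continuous (fun t => kj p x j (t - a)) :=
    (pb29_kj_cont hx j).comp (continuous_id.sub continuous_const)
  have e1 : |∫ t in (0 : ℝ)..τ, kj p x j (t - a)| ≤ |(∫ t in (0 : ℝ)..τ, |kj p x j (t - a)|)| := by
    have := intervalIntegral.norm_integral_le_abs_integral_norm
      (f := fun t => kj p x j (t - a)) (a := 0) (b := τ) (μ := volume)
    simpa only [Real.norm_eq_abs] using this
  have e2 : |(∫ t in (0 : ℝ)..τ, |kj p x j (t - a)|)| =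
      ∫ t in Set.uIoc 0 τ, |kj p x j (t - a)| := by
    rw [intervalIntegral.abs_intervalIntegral_eq,
      abs_of_nonneg (setIntegral_nonneg measurableSet_uIoc fun t _ => abs_nonneg _)]
  have i1 : IntegrableOn (fun t => |kj p x j (t - a)|) (Set.uIoc 0 τ) :=
    hcont.abs.integrableOn_uIoc
  have i2 : IntegrableOn (fun t => kj p x j (t - a) ^ 2) (Set.uIoc 0 τ) :=
    (hcont.pow 2).integrableOn_uIoc
  have i3 : IntegrableOn (fun _ : ℝ => l / 2) (Set.uIoc 0 τ) :=
    (continuous_const (y := l / 2)).integrableOn_uIoc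
  have e3 : ∫ t in Set.uIoc 0 τ, |kj p x j (t - a)| ≤
      ∫ t in Set.uIoc 0 τ, (l / 2 + (2 * l)⁻¹ * kj p x j (t - a) ^ 2) := by
    apply setIntegral_mono_on i1 (i3.add (i2.const_mul _)) measurableSet_uIoc
    intro t _
    show |kj p x j (t - a)| ≤ l / 2 + (2 * l)⁻¹ * kj p x j (t - a) ^ 2
    have hk : |kj p x j (t - a)| ^ 2 = kj p x j (t - a) ^ 2 := sq_abs _
    rw [← hk]
    generalize |kj p x j (t - a)| = k
    have : l / 2 + (2 * l)⁻¹ * k ^ 2 - k = (2 * l)⁻¹ * (l - k) ^ 2 := by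
      field_simp; ring
    have h2 : 0 ≤ (2 * l)⁻¹ * (l - k) ^ 2 := by positivity
    linarith
  have e4 : ∫ t in Set.uIoc 0 τ, (l / 2 + (2 * l)⁻¹ * kj p x j (t - a) ^ 2) =
      l / 2 * |τ| + (2 * l)⁻¹ * ∫ t in Set.uIoc 0 τ, kj p x j (t - a) ^ 2 := by
    rw [integral_add i3 (i2.const_mul _), integral_const_mul, setIntegral_const]
    congr 1
    simp only [smul_eq_mul]
    rw [mul_comm]
    congr 1
    rw [Set.uIoc, Real.volume_real_Ioc]
    simp
    rcases le_total 0 τ with h | h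
    · rw [max_eq_right h, min_eq_left h, abs_of_nonneg h]; simp
    · rw [max_eq_left h, min_eq_right h, abs_of_nonpos h]; simp
  have hpi := Real.pi_gt_three
  have hτ1 : |τ| ≤ 1 := by linarith
  have hτ2 := abs_le.1 hτ1
  have e5 : ∫ t in Set.uIoc 0 τ, kj p x j (t - a) ^ 2 ≤ (C * ww p x) ^ 2 := by
    have s1 : Set.uIoc 0 τ ⊆ Set.Ioc (-1) (-1 + 2 * Real.pi) := by
      intro t ht
      rw [Set.uIoc, Set.mem_Ioc] at ht
      have g1 : -1 ≤ min 0 τ := le_min (by norm_num) hτ2.1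
      have g2 : max 0 τ ≤ 1 := max_le (by norm_num) hτ2.2
      constructor <;> linarith [ht.1, ht.2]
    have s2 : ∫ t in Set.uIoc 0 τ, kj p x j (t - a) ^ 2 ≤
        ∫ t in Set.Ioc (-1) (-1 + 2 * Real.pi), kj p x j (t - a) ^ 2 := by
      apply setIntegral_mono_set
      · have := (hcont.pow 2).integrableOn_Icc (a := -1) (b := -1 + 2 * Real.pi) (μ := volume)
        exact this.mono_set Set.Ioc_subset_Icc_self
      · exact Eventually.of_forall fun t => sq_nonneg _
      · exact s1.eventuallyLE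
    refine s2.trans ?_
    have s3 := h x (th p j - a + -1) hx
    rw [← intervalIntegral.integral_of_le (by linarith)]
    have s4 : ∫ t in (-1)..(-1 + 2 * Real.pi), kj p x j (t - a) ^ 2 =
        ∫ b in (th p j - a + -1)..(th p j - a + -1 + 2 * Real.pi), KP p x b ^ 2 := by
      have := intervalIntegral.integral_comp_add_left (a := -1) (b := -1 + 2 * Real.pi)
        (fun b => KP p x b ^ 2) (th p j - a)
      rw [show th p j - a + -1 + 2 * Real.pi = th p j - a + (-1 + 2 * Real.pi) by ring, ← this]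
      apply intervalIntegral.integral_congr
      intro t _
      simp only
      rw [pb29_kj_sq, show th p j + (t - a) = th p j - a + t by ring]
    rw [s4]
    exact s3
  have e6 : l / 2 * |τ| + (2 * l)⁻¹ * (C * ww p x) ^ 2 ≤ 2 * C * ww p x * Real.sqrt η := by
    have g1 : l / 2 * |τ| ≤ l / 2 * (3 * η) := by gcongr
    have g2 : l / 2 * (3 * η) = 3 / 2 * (C * ww p x) * Real.sqrt η := by
      rw [hl]
      nth_rewrite 2 [← hss]
      field_simp
    have g3 : (2 * l)⁻¹ * (C * ww p x) ^ 2 = 1 / 2 * (C * ww p x) * Real.sqrt η := by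
      rw [hl]; field_simp
    rw [g3]
    linarith [g1, g2]
  calc |∫ t in (0 : ℝ)..τ, kj p x j (t - a)|
      ≤ l / 2 * |τ| + (2 * l)⁻¹ * ∫ t in Set.uIoc 0 τ, kj p x j (t - a) ^ 2 := by
        rw [← e4]; exact e1.trans (e2.le.trans e3)
    _ ≤ l / 2 * |τ| + (2 * l)⁻¹ * (C * ww p x) ^ 2 := by gcongr
    _ ≤ _ := e6

/-- the weight against the `p`-th harmonic -/
theorem pb29_ww {p : ℕ} {X x : ℝ} (hX : 0 ≤ X) (hx : -X ≤ x) :
    Real.exp (-((2 * p) * X)) * ww p x ≤ Real.exp (-(p * |x|)) := by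
  have hp : (0 : ℝ) ≤ p := Nat.cast_nonneg p
  rcases le_total 0 x with h | h
  · rw [ww_of_nonneg p h, abs_of_nonneg h, ← Real.exp_add]
    apply Real.exp_le_exp.2
    nlinarith
  · rw [ww_of_nonpos p h, abs_of_nonpos h, ← Real.exp_add]
    apply Real.exp_le_exp.2
    nlinarith

/-- masses close to the grid -/
theorem pb29_QQ_grid {p : ℕ} (hp : 1 ≤ p) (τ : ℤ → ℝ) (x a : ℝ) (m : ℤ) :
    sj m * QQ p τ x a =
      ∑ j ∈ JJ p, ∫ t in (0 : ℝ)..τ j, kj p x (j - m) (t - (a - Real.pi * m / p)) := by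
  unfold QQ
  rw [Finset.mul_sum]
  refine Finset.sum_congr rfl fun j _ => ?_
  rw [← intervalIntegral.integral_const_mul]
  congr 1
  funext t
  have h := kj_shift hp x j m (t - (a - Real.pi * m / p))
  rw [show t - (a - Real.pi * m / p) - Real.pi * m / p = t - a by ring] at h
  rw [h, ← mul_assoc, pb29_sjsj, one_mul]

/-- Lipschitz bound under the integral -/
theorem pb29_int_lip {f : ℝ → ℝ} {s t B : ℝ} (h : ∀ y ∈ Set.uIcc s t, |f y| ≤ B) :
    |∫ y in s..t, f y| ≤ B * |t - s| := by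
  have := intervalIntegral.norm_integral_le_of_norm_le_const (f := f) (a := s) (b := t) (C := B)
    (fun y hy => by
      rw [Real.norm_eq_abs]
      exact h y (Set.uIoc_subset_uIcc hy))
  rwa [Real.norm_eq_abs] at this

theorem pb29_mem {y τ : ℝ} (h : y ∈ Set.uIcc 0 τ) : |y| ≤ |τ| := by
  rcases le_total 0 τ with h1 | h1
  · rw [Set.uIcc_of_le h1] at h
    rw [abs_of_nonneg h.1, abs_of_nonneg h1]; exact h.2
  · rw [Set.uIcc_of_ge h1] at h
    rw [abs_of_nonpos h.2, abs_of_nonpos h1]; linarith [h.1]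

theorem pb29_mem' {y s τ B : ℝ} (hs : |s| ≤ B) (hτ : |τ| ≤ B) (h : y ∈ Set.uIcc s τ) :
    |y| ≤ B := by
  have h1 := abs_le.1 hs
  have h2 := abs_le.1 hτ
  rw [Set.mem_uIcc] at h
  rw [abs_le]
  rcases h with h | h <;> constructor <;> linarith [h.1, h.2]

/-- one arc in the nonresonant case -/
theorem pb29_arc {p : ℕ} {C : ℝ} {x : ℝ} (hx : x ≠ 0) (j i : ℤ)
    (hl : ∀ (j : ℤ) (t t' : ℝ), |t| ≤ Real.pi / (4 * p) → |t'| ≤ Real.pi / (4 * p) →
      |kj p x j t - kj p x j t'| ≤ C * ww p x * |t - t'|) {τ b T α : ℝ} (hC : 0 ≤ C)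
    (hT : |τ| ≤ T) (hb : |b| ≤ α) (hTα : T + α ≤ Real.pi / (4 * p)) :
    (∫ t in (0 : ℝ)..τ, kj p x i (t - b)) - (∫ t in (0 : ℝ)..τ, kj p x j t) ≤
      τ * (kj p x i 0 - kj p x j 0) + C * ww p x * (2 * T + α) * T := by
  have hw := ww_pos p x
  have hT0 : 0 ≤ T := (abs_nonneg _).trans hT
  have hα0 : 0 ≤ α := (abs_nonneg _).trans hb
  have c1 : Continuous (fun t => kj p x i (t - b)) :=
    (pb29_kj_cont hx i).comp (continuous_id.sub continuous_const)
  have c2 : Continuous (kj p x j) := pb29_kj_cont hx j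
  have key : (∫ t in (0 : ℝ)..τ, kj p x i (t - b)) - (∫ t in (0 : ℝ)..τ, kj p x j t) -
      τ * (kj p x i 0 - kj p x j 0) =
      ∫ t in (0 : ℝ)..τ, ((kj p x i (t - b) - kj p x i 0) - (kj p x j t - kj p x j 0)) := by
    have k1 : Continuous (fun t => kj p x i (t - b) - kj p x i 0) := c1.sub continuous_const
    have k2 : Continuous (fun t => kj p x j t - kj p x j 0) := c2.sub continuous_const
    have r1 := intervalIntegral.integral_sub (k1.intervalIntegrable (μ := volume) 0 τ)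
      (k2.intervalIntegrable (μ := volume) 0 τ)
    have r2 := intervalIntegral.integral_sub (c1.intervalIntegrable (μ := volume) 0 τ)
      ((continuous_const (y := kj p x i 0)).intervalIntegrable (μ := volume) 0 τ)
    have r3 := intervalIntegral.integral_sub (c2.intervalIntegrable (μ := volume) 0 τ)
      ((continuous_const (y := kj p x j 0)).intervalIntegrable (μ := volume) 0 τ)
    rw [r1, r2, r3]
    simp only [intervalIntegral.integral_const, smul_eq_mul]
    ring
  have bd : |∫ t in (0 : ℝ)..τ, ((kj p x i (t - b) - kj p x i 0) -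
      (kj p x j t - kj p x j 0))| ≤ (C * ww p x * (2 * T + α)) * |τ - 0| := by
    apply pb29_int_lip
    intro t ht
    have ht1 : |t| ≤ T := (pb29_mem ht).trans hT
    have q1 : |t - b| ≤ T + α := (abs_sub _ _).trans (add_le_add ht1 hb)
    have z0 : |(0 : ℝ)| ≤ Real.pi / (4 * p) := by
      rw [abs_zero]; positivity
    have g1 := hl i (t - b) 0 (q1.trans hTα) z0
    have g2 := hl j t 0 (by linarith) z0
    rw [sub_zero] at g1 g2
    have h3 : C * ww p x * |t - b| ≤ C * ww p x * (T + α) := by gcongr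
    have h4 : C * ww p x * |t| ≤ C * ww p x * T := by gcongr
    calc _ ≤ |kj p x i (t - b) - kj p x i 0| + |kj p x j t - kj p x j 0| := abs_sub _ _
      _ ≤ C * ww p x * (T + α) + C * ww p x * T := by linarith
      _ = _ := by ring
  rw [sub_zero] at bd
  have bd2 : (C * ww p x * (2 * T + α)) * |τ| ≤ (C * ww p x * (2 * T + α)) * T := by gcongr
  have := (abs_le.1 bd).2
  linarith

/-- the resonant case, Lipschitz part -/
theorem pb29_dif {p : ℕ} {C : ℝ} {x : ℝ} (hx : x ≠ 0) (j : ℤ)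
    (hl : ∀ (j : ℤ) (t t' : ℝ), |t| ≤ Real.pi / (4 * p) → |t'| ≤ Real.pi / (4 * p) →
      |kj p x j t - kj p x j t'| ≤ C * ww p x * |t - t'|) {τ σ b T α : ℝ}
    (hT : |τ| ≤ T) (hσ : |σ| ≤ T) (hb : |b| ≤ α) (hTα : T + α ≤ Real.pi / (4 * p)) :
    ((∫ t in (0 : ℝ)..τ, kj p x j (t - b)) - (∫ t in (0 : ℝ)..τ, kj p x j t)) -
      ((∫ t in (0 : ℝ)..σ, kj p x j (t - b)) - (∫ t in (0 : ℝ)..σ, kj p x j t)) ≤
      C * ww p x * |b| * |τ - σ| := by
  have hw := ww_pos p x
  have hT0 : 0 ≤ T := (abs_nonneg _).trans hT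
  have hα0 : 0 ≤ α := (abs_nonneg _).trans hb
  have c1 : Continuous (fun t => kj p x j (t - b)) :=
    (pb29_kj_cont hx j).comp (continuous_id.sub continuous_const)
  have c2 : Continuous (kj p x j) := pb29_kj_cont hx j
  have r1 := intervalIntegral.integral_add_adjacent_intervals
    (c1.intervalIntegrable (μ := volume) 0 σ) (c1.intervalIntegrable (μ := volume) σ τ)
  have r2 := intervalIntegral.integral_add_adjacent_intervals
    (c2.intervalIntegrable (μ := volume) 0 σ) (c2.intervalIntegrable (μ := volume) σ τ)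
  have r3 := intervalIntegral.integral_sub (c1.intervalIntegrable (μ := volume) σ τ)
    (c2.intervalIntegrable (μ := volume) σ τ)
  have bd : |∫ t in σ..τ, (kj p x j (t - b) - kj p x j t)| ≤
      (C * ww p x * |b|) * |τ - σ| := by
    apply pb29_int_lip
    intro t ht
    have ht1 : |t| ≤ T := pb29_mem' hσ hT ht
    have q1 : |t - b| ≤ T + α := (abs_sub _ _).trans (add_le_add ht1 hb)
    have g1 := hl j (t - b) t (q1.trans hTα) (by linarith)
    rwa [show t - b - t = -b by ring, abs_neg] at g1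
  have := (abs_le.1 bd).2
  rw [r3] at this
  rw [← r1, ← r2]
  linarith

/-- the resonant case, second differences -/
theorem pb29_sec {p : ℕ} {C : ℝ} {x : ℝ} (hx : x ≠ 0) (j : ℤ)
    (hl : ∀ (j : ℤ) (t h : ℝ), |t| + |h| ≤ Real.pi / (4 * p) →
      |kj p x j (t + h) + kj p x j (t - h) - 2 * kj p x j t| ≤ C * ww p x * h ^ 2)
    {σ b T α : ℝ} (hC : 0 ≤ C)
    (hσ : |σ| ≤ T) (hb : |b| ≤ α) (hTα : T + α ≤ Real.pi / (4 * p)) :
    (∫ t in (0 : ℝ)..σ, kj p x j (t - b)) + (∫ t in (0 : ℝ)..σ, kj p x j (t - -b)) -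
      2 * (∫ t in (0 : ℝ)..σ, kj p x j t) ≤ C * ww p x * b ^ 2 * T := by
  have hw := ww_pos p x
  have hT0 : 0 ≤ T := (abs_nonneg _).trans hσ
  have c1 : Continuous (fun t => kj p x j (t - b)) :=
    (pb29_kj_cont hx j).comp (continuous_id.sub continuous_const)
  have c3 : Continuous (fun t => kj p x j (t - -b)) :=
    (pb29_kj_cont hx j).comp (continuous_id.sub continuous_const)
  have c2 : Continuous (kj p x j) := pb29_kj_cont hx j
  have c4 : Continuous (fun t => kj p x j (t - b) + kj p x j (t - -b)) := c1.add c3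
  have c5 : Continuous (fun t => 2 * kj p x j t) := continuous_const.mul c2
  have r1 := intervalIntegral.integral_sub (c4.intervalIntegrable (μ := volume) 0 σ)
    (c5.intervalIntegrable (μ := volume) 0 σ)
  have r2 := intervalIntegral.integral_add (c1.intervalIntegrable (μ := volume) 0 σ)
    (c3.intervalIntegrable (μ := volume) 0 σ)
  rw [r2, intervalIntegral.integral_const_mul] at r1
  have bd : |∫ t in (0 : ℝ)..σ, (kj p x j (t - b) + kj p x j (t - -b) - 2 * kj p x j t)| ≤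
      (C * ww p x * b ^ 2) * |σ - 0| := by
    apply pb29_int_lip
    intro t ht
    have ht1 : |t| ≤ T := (pb29_mem ht).trans hσ
    have g1 := hl j t b (by linarith)
    rw [show t - -b = t + b by ring]
    rwa [add_comm (kj p x j (t - b))]
  rw [r1, sub_zero] at bd
  have h1 := (abs_le.1 bd).2
  have h2 : (C * ww p x * b ^ 2) * |σ| ≤ (C * ww p x * b ^ 2) * T := by gcongr
  linarith

theorem pb29_cos {y : ℝ} (hy : |y| ≤ Real.pi) : 2 / Real.pi ^ 2 * y ^ 2 ≤ 1 - Real.cos y := by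
  have := Real.cos_le_one_sub_mul_cos_sq hy
  linarith

/-- a mass in the near regime, `x ≥ -X` -/
theorem nra {p : ℕ} (hp : 2 ≤ p) : ∃ c1 : ℝ, 0 < c1 ∧ ∀ X : ℝ, 1 ≤ X → ∃ CX η1 : ℝ, 0 < CX ∧
    0 < η1 ∧ ∀ η : ℝ, 0 < η → η < η1 → ∀ τ : ℤ → ℝ, (∀ j ∈ JJ p, |τ j - tL p η j| ≤ c1 * η) →
      ∀ x a e : ℝ, x ≠ 0 → -X ≤ x → (e = 1 ∨ e = -1) →
      e * QQ p τ x a - QQ p τ x 0 ≤
        (4 * p : ℝ)⁻¹ * (Real.exp (-(p * |x|)) * (1 - e * Real.cos (p * a))) +
          CX * (∑ j ∈ JJ p, |τ j - tL p η j|) ^ 2 * ww p x := by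
  have hp1 : 1 ≤ p := by omega
  have hp2 : (2 : ℝ) ≤ p := by exact_mod_cast hp
  have hp0 : (0 : ℝ) < p := by linarith
  have hpi := Real.pi_pos
  obtain ⟨C2, hC2, hsq⟩ := KP_sq hp
  obtain ⟨C, hC, hn⟩ := kj_near hp
  obtain ⟨c, hc, hk⟩ := kt_sum hp
  have hl : ∀ x : ℝ, ∀ (j : ℤ) (t t' : ℝ), |t| ≤ Real.pi / (4 * p) →
      |t'| ≤ Real.pi / (4 * p) → |kj p x j t - kj p x j t'| ≤ C * ww p x * |t - t'| :=
    fun x j => (hn x j).2.1
  have hs : ∀ x : ℝ, ∀ (j : ℤ) (t h : ℝ), |t| + |h| ≤ Real.pi / (4 * p) →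
      |kj p x j (t + h) + kj p x j (t - h) - 2 * kj p x j t| ≤ C * ww p x * h ^ 2 :=
    fun x j => (hn x j).2.2.1
  obtain ⟨c1, hc1⟩ : ∃ c1 : ℝ, c1 = min 1 (c / (12 * p * C)) := ⟨_, rfl⟩
  obtain ⟨α, hα⟩ : ∃ α : ℝ, α = min (Real.pi / (8 * p)) (c / (18 * p * C)) := ⟨_, rfl⟩
  have hc1p : 0 < c1 := by rw [hc1]; exact lt_min one_pos (by positivity)
  have hαp : 0 < α := by rw [hα]; exact lt_min (by positivity) (by positivity)
  have hc11 : c1 ≤ 1 := by rw [hc1]; exact min_le_left _ _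
  have hc12 : 12 * p * C * c1 ≤ c := by
    have : c1 ≤ c / (12 * p * C) := by rw [hc1]; exact min_le_right _ _
    rw [le_div_iff₀ (by positivity)] at this
    linarith
  have hα1 : α ≤ Real.pi / (8 * p) := by rw [hα]; exact min_le_left _ _
  have hα2 : 18 * p * C * α ≤ c := by
    have : α ≤ c / (18 * p * C) := by rw [hα]; exact min_le_right _ _
    rw [le_div_iff₀ (by positivity)] at this
    linarith
  obtain ⟨d0, hd0⟩ : ∃ d0 : ℝ, d0 = 1 - Real.cos (p * α) := ⟨_, rfl⟩
  have hpα : p * α ≤ Real.pi / 8 := by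
    calc (p : ℝ) * α ≤ p * (Real.pi / (8 * p)) := by gcongr
      _ = Real.pi / 8 := by field_simp
  have hd0p : 0 < d0 := by
    rw [hd0]
    have : Real.cos (p * α) < Real.cos 0 := by
      apply Real.cos_lt_cos_of_nonneg_of_le_pi le_rfl (by linarith) (by positivity)
    rw [Real.cos_zero] at this
    linarith
  refine ⟨c1, hc1p, fun X hX => ?_⟩
  obtain ⟨E, hE⟩ : ∃ E : ℝ, E = Real.exp (-((2 * p) * X)) := ⟨_, rfl⟩
  have hEp : 0 < E := by rw [hE]; exact Real.exp_pos _
  obtain ⟨κ, hκ⟩ : ∃ κ : ℝ, κ = E * p / (2 * Real.pi ^ 2) := ⟨_, rfl⟩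
  have hκp : 0 < κ := by rw [hκ]; positivity
  obtain ⟨q, hq⟩ : ∃ q : ℝ, q = E * d0 / (32 * p ^ 2 * C2) := ⟨_, rfl⟩
  have hqp : 0 < q := by rw [hq]; positivity
  refine ⟨C ^ 2 / (2 * κ), min (min (1 / 4) (Real.pi / (24 * p)))
    (min (c / (108 * p * C)) (min (q ^ 2) (κ / (6 * p * C)))), by positivity, by positivity, ?_⟩
  intro η h0 h1 τ hτ x a e hx hxX he
  have h11 : η ≤ 1 / 4 := h1.le.trans ((min_le_left _ _).trans (min_le_left _ _))
  have h12 : η ≤ Real.pi / (24 * p) := h1.le.trans ((min_le_left _ _).trans (min_le_right _ _))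
  have h13 : η ≤ c / (108 * p * C) := h1.le.trans ((min_le_right _ _).trans (min_le_left _ _))
  have h14 : η ≤ q ^ 2 :=
    h1.le.trans ((min_le_right _ _).trans ((min_le_right _ _).trans (min_le_left _ _)))
  have h15 : η ≤ κ / (6 * p * C) :=
    h1.le.trans ((min_le_right _ _).trans ((min_le_right _ _).trans (min_le_right _ _)))
  have h13' : 108 * p * C * η ≤ c := by
    rw [le_div_iff₀ (by positivity)] at h13
    linarith
  have h15' : 6 * p * C * η ≤ κ := by
    rw [le_div_iff₀ (by positivity)] at h15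
    linarith
  have h3η : 3 * η ≤ Real.pi / (8 * p) := by
    calc 3 * η ≤ 3 * (Real.pi / (24 * p)) := by gcongr
      _ = Real.pi / (8 * p) := by field_simp; norm_num
  have hsum : Real.pi / (8 * p) + Real.pi / (8 * p) = Real.pi / (4 * p) := by
    field_simp; norm_num
  have hTα : 3 * η + α ≤ Real.pi / (4 * p) := by linarith
  have hw := ww_pos p x
  have hEw : E * ww p x ≤ Real.exp (-(p * |x|)) := by
    rw [hE]; exact pb29_ww (by linarith) hxX
  have hcard : (((JJ p).card : ℕ) : ℝ) = 2 * p := by rw [card_JJ]; push_cast; ring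
  have hτL : ∀ j ∈ JJ p, |tL p η j| ≤ 3 * η := fun j hj =>
    (tL_bd hp h0 h11 hj).trans (by linarith)
  have hτ3 : ∀ j ∈ JJ p, |τ j| ≤ 3 * η := fun j hj => by
    have g1 := hτ j hj
    have g2 := tL_bd hp h0 h11 hj
    have g3 : |τ j| ≤ |τ j - tL p η j| + |tL p η j| := by
      have := abs_add_le (τ j - tL p η j) (tL p η j)
      rwa [sub_add_cancel] at this
    have g4 : c1 * η ≤ 1 * η := by gcongr
    linarith
  obtain ⟨δ, hδ⟩ : ∃ δ : ℝ, δ = ∑ j ∈ JJ p, |τ j - tL p η j| := ⟨_, rfl⟩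
  rw [← hδ]
  have hδ0 : 0 ≤ δ := by rw [hδ]; exact Finset.sum_nonneg fun j _ => abs_nonneg _
  have hrem : 0 ≤ C ^ 2 / (2 * κ) * δ ^ 2 * ww p x := by positivity
  rcases near_or hp1 hαp hα1 a he with ⟨m, ham, hem⟩ | hfar
  · obtain ⟨b, hb⟩ : ∃ b : ℝ, b = a - Real.pi * m / p := ⟨_, rfl⟩
    rw [← hb] at ham
    have hQ := pb29_QQ_grid hp1 τ x a m
    rw [← hem, ← hb] at hQ
    by_cases hm : (2 * p : ℤ) ∣ m
    · obtain ⟨n, hn2⟩ := hm
      have he1 : e = 1 := by
        rw [hem, hn2]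
        unfold sj
        rw [mul_assoc, zpow_mul]
        norm_num
      have hper : ∀ (i : ℤ) (t : ℝ), kj p x (i - m) t = kj p x i t := fun i t => by
        have := kj_per hp1 x (i - m) n t
        rw [← this, hn2]
        congr 1
        ring
      have hQb : ∀ σ : ℤ → ℝ, QQ p σ x b = ∑ j ∈ JJ p, ∫ t in (0 : ℝ)..σ j, kj p x j (t - b) :=
        fun σ => rfl
      have hQ0 : ∀ σ : ℤ → ℝ, QQ p σ x 0 = ∑ j ∈ JJ p, ∫ t in (0 : ℝ)..σ j, kj p x j t :=
        fun σ => by unfold QQ; simp only [sub_zero]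
      have hQa : e * QQ p τ x a = QQ p τ x b := by
        rw [hQ, hQb]
        simp only [hper]
      rw [hQa]
      have k1 : (QQ p τ x b - QQ p τ x 0) - (QQ p (tL p η) x b - QQ p (tL p η) x 0) ≤
          C * ww p x * |b| * δ := by
        rw [hQb, hQ0, hQb, hQ0, ← Finset.sum_sub_distrib, ← Finset.sum_sub_distrib,
          ← Finset.sum_sub_distrib, hδ, Finset.mul_sum]
        exact Finset.sum_le_sum fun j hj =>
          pb29_dif hx j (hl x) (hτ3 j hj) (hτL j hj) ham hTα
      have k2 : QQ p (tL p η) x b + QQ p (tL p η) x (-b) - 2 * QQ p (tL p η) x 0 ≤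
          2 * p * (C * ww p x * b ^ 2 * (3 * η)) := by
        rw [hQb, hQ0]
        have hm1 : QQ p (tL p η) x (-b) =
          ∑ j ∈ JJ p, ∫ t in (0 : ℝ)..tL p η j, kj p x j (t - -b) := rfl
        rw [hm1, ← Finset.sum_add_distrib, Finset.mul_sum, ← Finset.sum_sub_distrib, ← hcard,
          ← nsmul_eq_mul]
        exact Finset.sum_le_card_nsmul _ _ _ fun j hj =>
          pb29_sec hx j (hs x) hC.le (hτL j hj) ham hTα
      rw [QQ_tL_even hp η x b hx] at k2
      have k3 : Real.cos (p * a) = Real.cos (p * b) := by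
        have : (p : ℝ) * a = p * b + (p * n : ℤ) * (2 * Real.pi) := by
          rw [hb, hn2]
          push_cast
          field_simp
          ring
        rw [this, Real.cos_add_int_mul_two_pi]
      have hpb : |(p : ℝ) * b| ≤ Real.pi := by
        rw [abs_mul, abs_of_pos hp0]
        calc (p : ℝ) * |b| ≤ p * α := by gcongr
          _ ≤ Real.pi := by linarith
      have k4 := pb29_cos hpb
      rw [he1, one_mul, k3]
      have k5 : κ * ww p x * b ^ 2 ≤
          (4 * p : ℝ)⁻¹ * (Real.exp (-(p * |x|)) * (1 - Real.cos (p * b))) := by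
        have e1 : κ * ww p x * b ^ 2 =
            (4 * p : ℝ)⁻¹ * ((E * ww p x) * (2 / Real.pi ^ 2 * (p * b) ^ 2)) := by
          rw [hκ]; field_simp; ring
        rw [e1]
        gcongr
      have k6 : C * |b| * δ ≤ κ / 2 * b ^ 2 + C ^ 2 / (2 * κ) * δ ^ 2 := by
        have e1 : κ / 2 * |b| ^ 2 + C ^ 2 / (2 * κ) * δ ^ 2 - C * |b| * δ =
            (2 * κ)⁻¹ * (κ * |b| - C * δ) ^ 2 := by
          field_simp; ring
        have e2 : 0 ≤ (2 * κ)⁻¹ * (κ * |b| - C * δ) ^ 2 := by positivity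
        rw [sq_abs] at e1
        linarith
      have k7 : C * ww p x * |b| * δ ≤
          κ / 2 * ww p x * b ^ 2 + C ^ 2 / (2 * κ) * δ ^ 2 * ww p x := by
        have := mul_le_mul_of_nonneg_left k6 hw.le
        nlinarith [this]
      have k8 : p * (C * ww p x * b ^ 2 * (3 * η)) ≤ κ / 2 * ww p x * b ^ 2 := by
        have := mul_le_mul_of_nonneg_left h15' (show 0 ≤ ww p x * b ^ 2 / 2 by positivity)
        nlinarith [this]
      linarith
    · have hk1 := hk η h0 h11 x m hm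
      have k1 : e * QQ p τ x a - QQ p τ x 0 ≤
          ∑ j ∈ JJ p, (τ j * (kt p x (j - m) - kt p x j) +
            C * ww p x * (2 * (3 * η) + α) * (3 * η)) := by
        rw [hQ]
        unfold QQ
        rw [← Finset.sum_sub_distrib]
        refine Finset.sum_le_sum fun j hj => ?_
        have := pb29_arc hx j (j - m) (hl x) hC.le (hτ3 j hj) ham hTα
        rw [kj_zero hp1, kj_zero hp1] at this
        simpa only [sub_zero] using this
      have hkt : ∀ j : ℤ, |kt p x j| ≤ C * ww p x := fun j => by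
        have := (hn x j).1 0 (by rw [abs_zero]; positivity)
        rwa [kj_zero hp1] at this
      have k2 : ∑ j ∈ JJ p, τ j * (kt p x (j - m) - kt p x j) ≤
          -(c * η * ww p x) + 2 * (C * ww p x) * δ := by
        have e1 : ∑ j ∈ JJ p, τ j * (kt p x (j - m) - kt p x j) =
            -(∑ j ∈ JJ p, tL p η j * (kt p x j - kt p x (j - m))) +
              ∑ j ∈ JJ p, (τ j - tL p η j) * (kt p x (j - m) - kt p x j) := by
          rw [← Finset.sum_neg_distrib, ← Finset.sum_add_distrib]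
          refine Finset.sum_congr rfl fun j _ => ?_
          ring
        have e2 : ∑ j ∈ JJ p, (τ j - tL p η j) * (kt p x (j - m) - kt p x j) ≤
            2 * (C * ww p x) * δ := by
          rw [hδ, Finset.mul_sum]
          refine Finset.sum_le_sum fun j _ => ?_
          have a1 := abs_sub (kt p x (j - m)) (kt p x j)
          have a2 := hkt (j - m)
          have a3 := hkt j
          have a4 : |kt p x (j - m) - kt p x j| ≤ 2 * (C * ww p x) := by linarith
          calc (τ j - tL p η j) * (kt p x (j - m) - kt p x j)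
              ≤ |(τ j - tL p η j) * (kt p x (j - m) - kt p x j)| := le_abs_self _
            _ = |kt p x (j - m) - kt p x j| * |τ j - tL p η j| := by rw [abs_mul, mul_comm]
            _ ≤ _ := by gcongr
        rw [e1]
        linarith
      have k3 : δ ≤ 2 * p * (c1 * η) := by
        rw [hδ, ← hcard, ← nsmul_eq_mul]
        exact Finset.sum_le_card_nsmul _ _ _ fun j hj => hτ j hj
      rw [Finset.sum_add_distrib, Finset.sum_const, nsmul_eq_mul, hcard] at k1
      have k4 : e * QQ p τ x a - QQ p τ x 0 ≤ 0 := by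
        have g1 : 2 * (C * ww p x) * δ ≤ 2 * (C * ww p x) * (2 * p * (c1 * η)) := by gcongr
        have g2 : 2 * (C * ww p x) * (2 * p * (c1 * η)) = (12 * p * C * c1) * (η * ww p x) / 3 := by
          ring
        have g3 : 2 * p * (C * ww p x * (2 * (3 * η) + α) * (3 * η)) =
            (108 * p * C * η) * (η * ww p x) / 3 + (18 * p * C * α) * (η * ww p x) / 3 := by
          ring
        have hηw : 0 ≤ η * ww p x := by positivity
        have g4 := mul_le_mul_of_nonneg_right hc12 hηw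
        have g5 := mul_le_mul_of_nonneg_right h13' hηw
        have g6 := mul_le_mul_of_nonneg_right hα2 hηw
        linarith
      have k5 : 0 ≤ (4 * p : ℝ)⁻¹ * (Real.exp (-(p * |x|)) * (1 - e * Real.cos (p * a))) := by
        have : e * Real.cos (p * a) ≤ 1 := by
          rcases he with he | he
          · rw [he, one_mul]; exact Real.cos_le_one _
          · rw [he]; linarith [Real.neg_one_le_cos (p * a)]
        have h2 : 0 ≤ 1 - e * Real.cos (p * a) := by linarith
        positivity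
      linarith
  · rw [← hd0] at hfar
    have hsη : Real.sqrt η ≤ q := by
      rw [Real.sqrt_le_left hqp.le]
      exact h14
    have hQQ : ∀ a : ℝ, |QQ p τ x a| ≤ 2 * p * (2 * C2 * ww p x * Real.sqrt η) := fun a => by
      unfold QQ
      refine (Finset.abs_sum_le_sum_abs _ _).trans ?_
      rw [← hcard, ← nsmul_eq_mul]
      exact Finset.sum_le_card_nsmul _ _ _ fun j hj =>
        pb29_cs hC2 hsq hx j a h0 (by linarith) (hτ3 j hj)
    have k1 : e * QQ p τ x a ≤ 2 * p * (2 * C2 * ww p x * Real.sqrt η) := by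
      have := abs_le.1 (hQQ a)
      rcases he with he | he
      · rw [he, one_mul]; exact this.2
      · rw [he]; linarith [this.1]
    have k2 := (abs_le.1 (hQQ 0)).1
    have k3 : 4 * p * (2 * C2 * ww p x * Real.sqrt η) ≤ 4 * p * (2 * C2 * ww p x * q) := by
      gcongr
    have k4 : 4 * p * (2 * C2 * ww p x * q) = (4 * p : ℝ)⁻¹ * ((E * ww p x) * d0) := by
      rw [hq]; field_simp; ring
    have k5 : (4 * p : ℝ)⁻¹ * ((E * ww p x) * d0) ≤
        (4 * p : ℝ)⁻¹ * (Real.exp (-(p * |x|)) * (1 - e * Real.cos (p * a))) := by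
      gcongr
    linarith

end Pool.Agent.PfB
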