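import Pool.Agent.PfB.Near
import Pool.Agent.PfB.KL2
import Pool.Agent.PfB.Mass
import Pool.Agent.PfB.Kt

/-! MP_f2c8f8_an, project PfB, row PB-23 -/

set_option autoImplicit false

open MeasureTheory Filter
open scoped ComplexConjugate Topology

noncomputable section

namespace Pool.Agent.PfB

theorem pb23_sg (p : ℕ) : |sg p| = 1 := by
  unfold sg
  rw [abs_pow, abs_neg, abs_one, one_pow]

theorem pb23_sj (j : ℤ) : |sj j| = 1 := by
  unfold sj
  rw [abs_zpow, abs_neg, abs_one, one_zpow]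

theorem pb23_sj_sq (j : ℤ) : sj j * sj j = 1 := by
  have h := pb23_sj j
  rw [← abs_mul_abs_self, h]
  norm_num

theorem pb23_abs_kj (p : ℕ) (x : ℝ) (j : ℤ) (b : ℝ) : |kj p x j b| = |KP p x (th p j + b)| := by
  unfold kj
  rw [abs_mul, abs_mul, pb23_sg, pb23_sj, one_mul, one_mul]

theorem pb23_kj_cont {p : ℕ} {x : ℝ} (hx : x ≠ 0) (j : ℤ) : Continuous (kj p x j) := by
  have h := KP_cont (p := p) hx
  unfold kj
  fun_prop

theorem pb23_ww {p : ℕ} (hp : 1 ≤ p) {X x : ℝ} (hX : 0 ≤ X) (hx : -X ≤ x) :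
    ww p x ≤ Real.exp ((2 * (p : ℝ) - 1) * X) * Real.exp (-(p * |x|)) := by
  have hp' : (1 : ℝ) ≤ p := by exact_mod_cast hp
  rw [← Real.exp_add]
  rcases le_total 0 x with h | h
  · refine (min_le_left _ _).trans (Real.exp_le_exp.2 ?_)
    rw [abs_of_nonneg h]
    have h1 : 0 ≤ (2 * (p : ℝ) - 1) * X := mul_nonneg (by linarith) hX
    nlinarith
  · refine (min_le_right _ _).trans (Real.exp_le_exp.2 ?_)
    rw [abs_of_nonpos h]
    have h1 : (2 * (p : ℝ) - 1) * (-x) ≤ (2 * (p : ℝ) - 1) * X :=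
      mul_le_mul_of_nonneg_left (by linarith) (by linarith)
    nlinarith

/-- Cauchy-Schwarz -/
theorem pb23_cs {f : ℝ → ℝ} (hf : Continuous f) {K δ u v : ℝ} (hK : 0 < K) (hδ : 0 < δ)
    (huv : u ≤ v) (hv : v - u ≤ δ) (hv' : v ≤ u + 2 * Real.pi)
    (h : ∫ t in u..(u + 2 * Real.pi), f t ^ 2 ≤ K ^ 2) :
    |∫ t in u..v, f t| ≤ Real.sqrt δ * K := by
  have hs : 0 < Real.sqrt δ := Real.sqrt_pos.2 hδ
  have hss : Real.sqrt δ * Real.sqrt δ = δ := Real.mul_self_sqrt hδ.le
  have hf2 : Continuous fun t => f t ^ 2 := hf.pow 2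
  have h1 : ∫ t in u..v, f t ^ 2 ≤ K ^ 2 := by
    refine le_trans ?_ h
    rw [← intervalIntegral.integral_add_adjacent_intervals
      (hf2.intervalIntegrable u v) (hf2.intervalIntegrable v (u + 2 * Real.pi))]
    have : 0 ≤ ∫ t in v..(u + 2 * Real.pi), f t ^ 2 :=
      intervalIntegral.integral_nonneg hv' fun t _ => sq_nonneg _
    linarith
  have h2 : |∫ t in u..v, f t| ≤ ∫ t in u..v, (K / Real.sqrt δ / 2 +
      Real.sqrt δ / (2 * K) * f t ^ 2) := by
    refine (intervalIntegral.abs_integral_le_integral_abs huv).trans ?_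
    refine intervalIntegral.integral_mono_on huv (hf.abs.intervalIntegrable _ _)
      ((continuous_const.add (continuous_const.mul hf2)).intervalIntegrable _ _) fun t _ => ?_
    have h3 : K / Real.sqrt δ / 2 + Real.sqrt δ / (2 * K) * f t ^ 2 - |f t| =
        Real.sqrt δ / (2 * K) * (|f t| - K / Real.sqrt δ) ^ 2 := by
      rw [← sq_abs (f t)]
      field_simp
      ring
    have h4 : 0 ≤ Real.sqrt δ / (2 * K) * (|f t| - K / Real.sqrt δ) ^ 2 := by positivity
    linarith
  refine h2.trans ?_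
  have hc2 : Continuous fun t => Real.sqrt δ / (2 * K) * f t ^ 2 := continuous_const.mul hf2
  rw [intervalIntegral.integral_add (continuous_const.intervalIntegrable _ _)
    (hc2.intervalIntegrable _ _), intervalIntegral.integral_const,
    intervalIntegral.integral_const_mul, smul_eq_mul]
  have h5 : (v - u) * (K / Real.sqrt δ / 2) ≤ δ * (K / Real.sqrt δ / 2) :=
    mul_le_mul_of_nonneg_right hv (by positivity)
  have h6 : Real.sqrt δ / (2 * K) * ∫ t in u..v, f t ^ 2 ≤ Real.sqrt δ / (2 * K) * K ^ 2 :=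
    mul_le_mul_of_nonneg_left h1 (by positivity)
  have h7 : δ * (K / Real.sqrt δ / 2) = Real.sqrt δ * K / 2 := by
    have : δ / Real.sqrt δ = Real.sqrt δ := by
      rw [div_eq_iff hs.ne']
      exact hss.symm
    calc δ * (K / Real.sqrt δ / 2) = δ / Real.sqrt δ * K / 2 := by ring
      _ = _ := by rw [this]
  have h8 : Real.sqrt δ / (2 * K) * K ^ 2 = Real.sqrt δ * K / 2 := by
    field_simp
  rw [h7] at h5
  rw [h8] at h6
  linarith

theorem pb23_cs' {f : ℝ → ℝ} (hf : Continuous f) {K δ τ : ℝ} (hK : 0 < K) (hδ : 0 < δ)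
    (hτ : |τ| ≤ δ) (hτ' : |τ| ≤ 2 * Real.pi)
    (h : ∀ u : ℝ, ∫ t in u..(u + 2 * Real.pi), f t ^ 2 ≤ K ^ 2) :
    |∫ t in (0 : ℝ)..τ, f t| ≤ Real.sqrt δ * K := by
  rcases le_total 0 τ with h0 | h0
  · rw [abs_of_nonneg h0] at hτ hτ'
    exact pb23_cs hf hK hδ h0 (by linarith) (by linarith) (h 0)
  · rw [abs_of_nonpos h0] at hτ hτ'
    rw [intervalIntegral.integral_symm, abs_neg]
    exact pb23_cs hf hK hδ h0 (by linarith) (by linarith) (h τ)

theorem pb23_sum {p : ℕ} {F : ℤ → ℝ} {B : ℝ} (h : ∀ j ∈ JJ p, |F j| ≤ B) :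
    |∑ j ∈ JJ p, F j| ≤ 2 * p * B := by
  refine (Finset.abs_sum_le_sum_abs _ _).trans ?_
  refine (Finset.sum_le_card_nsmul _ _ _ h).trans ?_
  rw [card_JJ, nsmul_eq_mul]
  push_cast
  exact le_refl _

/-- a mass in the far regime -/
theorem pm1 {p : ℕ} (hp : 2 ≤ p) {C0 : ℝ} (hC0 : 0 < C0) : ∃ C : ℝ, 0 < C ∧ ∀ X : ℝ, 1 ≤ X →
    ∃ CX η1 : ℝ, 0 < CX ∧ 0 < η1 ∧ ∀ η : ℝ, 0 < η → η < η1 → ∀ τ : ℤ → ℝ,
      (∀ j ∈ JJ p, |τ j| ≤ C0 * η) → ∀ x a e G : ℝ, x ≠ 0 → (e = 1 ∨ e = -1) → 0 ≤ G →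
      (∀ m : ℤ, ∑ j ∈ JJ p, τ j * kt p x (j - m) ≤ G) →
      e * QQ p τ x a ≤ G + (4 * p : ℝ)⁻¹ * (Real.exp (-(p * |x|)) * (1 - e * Real.cos (p * a))) +
        CX * η ^ 2 * ww p x + (if x < -X then C * η * ww p x else 0) := by
  have hp1 : 1 ≤ p := by omega
  have hpr : (1 : ℝ) ≤ p := by exact_mod_cast hp1
  have hpp : (0 : ℝ) < p := by linarith
  have hpi := Real.pi_pos
  obtain ⟨C1, hC1, hb1⟩ := KP_bd hp (c := 1) one_pos
  obtain ⟨C2, hC2, hb2⟩ := KP_sq hp
  obtain ⟨C3, hC3, hb3⟩ := kj_near hp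
  refine ⟨2 * p * (C0 * C1), by positivity, fun X hX => ?_⟩
  set M : ℝ := Real.exp ((2 * (p : ℝ) - 1) * X) with hM
  have hMpos : 0 < M := Real.exp_pos _
  set κ : ℝ := p / (2 * Real.pi ^ 2) with hκ
  have hκpos : 0 < κ := by positivity
  set B : ℝ := 2 * p * (C0 * C3) with hB
  have hBpos : 0 < B := by positivity
  set d0 : ℝ := 1 - Real.cos (Real.pi / 8) with hd0
  have hd0pos : 0 < d0 := by
    have h1 : Real.cos (Real.pi / 8) < 1 := by
      have h2 := Real.cos_lt_cos_of_nonneg_of_le_pi (x := 0) (y := Real.pi / 8) le_rfl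
        (by linarith) (by linarith)
      rwa [Real.cos_zero] at h2
    linarith
  set s0 : ℝ := d0 / (8 * p ^ 2 * C2 * M) with hs0
  have hs0pos : 0 < s0 := by positivity
  refine ⟨B * C0 + B ^ 2 * M / (4 * κ), min (Real.pi / (8 * p * C0)) (s0 ^ 2 / C0), by positivity,
    lt_min (by positivity) (by positivity), ?_⟩
  intro η hη hη1 τ hτ x a e G hx he hG hGm
  have hη2 : C0 * η ≤ Real.pi / (8 * p) := by
    have h1 := (lt_min_iff.1 hη1).1.le
    rw [le_div_iff₀ (by positivity)] at h1 ⊢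
    linarith
  have hη3 : C0 * η ≤ s0 ^ 2 := by
    have h1 := (lt_min_iff.1 hη1).2.le
    rw [le_div_iff₀ hC0] at h1
    linarith
  have hW : 0 < ww p x := ww_pos p x
  have heabs : |e| = 1 := by rcases he with h | h <;> rw [h] <;> simp
  have hd : 0 ≤ 1 - e * Real.cos (p * a) := by
    have h1 : |e * Real.cos (p * a)| ≤ 1 := by
      rw [abs_mul, heabs, one_mul]
      exact Real.abs_cos_le_one _
    have := (abs_le.1 h1).2
    linarith
  have hE : 0 < Real.exp (-((p : ℝ) * |x|)) := Real.exp_pos _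
  set E : ℝ := Real.exp (-((p : ℝ) * |x|)) with hEdef
  have hterm : 0 ≤ (4 * p : ℝ)⁻¹ * (E * (1 - e * Real.cos (p * a))) := by positivity
  have hCX : 0 ≤ (B * C0 + B ^ 2 * M / (4 * κ)) * η ^ 2 * ww p x := by positivity
  have hcont : ∀ j : ℤ, Continuous fun t => kj p x j (t - a) := fun j =>
    (pb23_kj_cont hx j).comp (continuous_id.sub continuous_const)
  have hτη : ∀ j ∈ JJ p, |τ j| ≤ Real.pi / (8 * p) := fun j hj => (hτ j hj).trans hη2
  have h8p : Real.pi / (8 * p) ≤ 2 * Real.pi := by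
    rw [div_le_iff₀ (by positivity)]
    nlinarith
  by_cases hxX : x < -X
  · -- far to the left
    rw [if_pos hxX]
    have h1 : |QQ p τ x a| ≤ 2 * p * (C0 * η * (C1 * ww p x)) := by
      unfold QQ
      refine pb23_sum fun j hj => ?_
      have h2 := intervalIntegral.norm_integral_le_of_norm_le_const (a := 0) (b := τ j)
        (f := fun t => kj p x j (t - a)) (C := C1 * ww p x) (fun t _ => by
          rw [Real.norm_eq_abs, pb23_abs_kj]
          refine hb1 _ _ (Or.inl ?_)
          rw [abs_of_neg (by linarith)]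
          linarith)
      rw [Real.norm_eq_abs, sub_zero] at h2
      refine h2.trans ?_
      rw [mul_comm]
      exact mul_le_mul_of_nonneg_right (hτ j hj) (by positivity)
    have h2 : e * QQ p τ x a ≤ |QQ p τ x a| := by
      refine (le_abs_self _).trans ?_
      rw [abs_mul, heabs, one_mul]
    have h3 : 2 * (p : ℝ) * (C0 * η * (C1 * ww p x)) = 2 * p * (C0 * C1) * η * ww p x := by ring
    linarith
  rw [if_neg hxX, add_zero]
  push Not at hxX
  have hWM : ww p x ≤ M * E := pb23_ww hp1 (by linarith) hxX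
  rcases near_or hp1 (α := Real.pi / (8 * p)) (by positivity) le_rfl a he with ⟨m, hm, hem⟩ | hfar
  · -- near the grid
    set a' : ℝ := a - Real.pi * m / p with ha'
    have hkey : ∀ j : ℤ, ∀ t : ℝ, e * kj p x j (t - a) = kj p x (j - m) (t - a') := by
      intro j t
      have h1 : t - a = (t - a') - Real.pi * m / p := by rw [ha']; ring
      rw [h1, kj_shift hp1, hem, ← mul_assoc, pb23_sj_sq, one_mul]
    have hQ : e * QQ p τ x a = ∑ j ∈ JJ p, ∫ t in (0 : ℝ)..τ j, kj p x (j - m) (t - a') := by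
      unfold QQ
      rw [Finset.mul_sum]
      refine Finset.sum_congr rfl fun j _ => ?_
      rw [← intervalIntegral.integral_const_mul]
      simp_rw [hkey]
    have hQ2 : e * QQ p τ x a - ∑ j ∈ JJ p, τ j * kt p x (j - m) =
        ∑ j ∈ JJ p, ∫ t in (0 : ℝ)..τ j, (kj p x (j - m) (t - a') - kj p x (j - m) 0) := by
      rw [hQ, ← Finset.sum_sub_distrib]
      refine Finset.sum_congr rfl fun j _ => ?_
      have hc3 : Continuous fun t => kj p x (j - m) (t - a') :=
        (pb23_kj_cont hx (j - m)).comp (continuous_id.sub continuous_const)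
      rw [intervalIntegral.integral_sub (hc3.intervalIntegrable _ _)
        (continuous_const.intervalIntegrable _ _), intervalIntegral.integral_const, smul_eq_mul,
        sub_zero, kj_zero hp1]
    have hbd : |∑ j ∈ JJ p, ∫ t in (0 : ℝ)..τ j, (kj p x (j - m) (t - a') - kj p x (j - m) 0)| ≤
        2 * p * (C0 * η * (C3 * ww p x * (C0 * η + |a'|))) := by
      refine pb23_sum fun j hj => ?_
      have h2 := intervalIntegral.norm_integral_le_of_norm_le_const (a := 0) (b := τ j)
        (f := fun t => kj p x (j - m) (t - a') - kj p x (j - m) 0)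
        (C := C3 * ww p x * (C0 * η + |a'|)) (fun t ht => by
          have ht1 : |t| ≤ C0 * η := by
            have h3 := Set.uIoc_subset_uIcc ht
            rw [Set.mem_uIcc] at h3
            refine le_trans ?_ (hτ j hj)
            rcases h3 with ⟨h4, h5⟩ | ⟨h4, h5⟩
            · rw [abs_of_nonneg h4]
              exact h5.trans (le_abs_self _)
            · rw [abs_of_nonpos h5]
              exact (neg_le_neg h4).trans (neg_le_abs _)
          have ht2 : |t - a'| ≤ C0 * η + |a'| := (abs_sub _ _).trans (by linarith)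
          have h4p : Real.pi / (4 * p) = Real.pi / (8 * p) + Real.pi / (8 * p) := by
            field_simp
            ring
          have h6 := (hb3 x (j - m)).2.1 (t - a') 0 (by rw [h4p]; linarith)
            (by rw [abs_zero]; positivity)
          rw [Real.norm_eq_abs]
          refine h6.trans ?_
          rw [sub_zero]
          exact mul_le_mul_of_nonneg_left ht2 (by positivity))
      rw [Real.norm_eq_abs, sub_zero] at h2
      refine h2.trans ?_
      rw [mul_comm]
      exact mul_le_mul_of_nonneg_right (hτ j hj) (by positivity)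
    have hcosa : e * Real.cos (p * a) = Real.cos (p * a') := by
      have h1 : (p : ℝ) * a = p * a' + m * Real.pi := by
        rw [ha']
        field_simp
        ring
      rw [h1, Real.cos_add_int_mul_pi, hem]
      unfold sj
      rw [← mul_assoc]
      have h2 := pb23_sj_sq m
      unfold sj at h2
      rw [h2, one_mul]
    have hcos : 2 / Real.pi ^ 2 * (p * a') ^ 2 ≤ 1 - Real.cos (p * a') := by
      have h1 : |(p : ℝ) * a'| ≤ Real.pi := by
        rw [abs_mul, abs_of_pos hpp]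
        calc (p : ℝ) * |a'| ≤ p * (Real.pi / (8 * p)) := mul_le_mul_of_nonneg_left hm hpp.le
          _ = Real.pi / 8 := by field_simp
          _ ≤ Real.pi := by linarith
      have h2 := Real.cos_le_one_sub_mul_cos_sq h1
      linarith
    have hmain : κ * E * |a'| ^ 2 ≤ (4 * p : ℝ)⁻¹ * (E * (1 - e * Real.cos (p * a))) := by
      rw [hcosa]
      have h1 : (4 * p : ℝ)⁻¹ * (E * (2 / Real.pi ^ 2 * (p * a') ^ 2)) ≤
          (4 * p : ℝ)⁻¹ * (E * (1 - Real.cos (p * a'))) := by gcongr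
      refine le_trans (le_of_eq ?_) h1
      rw [hκ, sq_abs]
      field_simp
      ring
    have hyoung : B * η * ww p x * |a'| ≤ κ * E * |a'| ^ 2 +
        B ^ 2 * M / (4 * κ) * η ^ 2 * ww p x := by
      have h1 : ww p x * (κ / M * |a'| ^ 2) ≤ κ * E * |a'| ^ 2 := by
        have h2 : ww p x / M ≤ E := by
          rw [div_le_iff₀ hMpos]
          linarith
        calc ww p x * (κ / M * |a'| ^ 2) = κ * (ww p x / M) * |a'| ^ 2 := by
              field_simp
          _ ≤ κ * E * |a'| ^ 2 := by gcongr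
      have h3 : 0 ≤ ww p x * (κ / M * (|a'| - B * M * η / (2 * κ)) ^ 2) := by positivity
      have h4 : ww p x * (κ / M * (|a'| - B * M * η / (2 * κ)) ^ 2) =
          ww p x * (κ / M * |a'| ^ 2) - B * η * ww p x * |a'| +
            B ^ 2 * M / (4 * κ) * η ^ 2 * ww p x := by
        field_simp
        ring
      linarith
    have h5 := (abs_le.1 hbd).2
    rw [← hQ2] at h5
    have h6 := hGm m
    have h7 : 2 * (p : ℝ) * (C0 * η * (C3 * ww p x * (C0 * η + |a'|))) =
        B * C0 * η ^ 2 * ww p x + B * η * ww p x * |a'| := by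
      rw [hB]; ring
    have h8 : (B * C0 + B ^ 2 * M / (4 * κ)) * η ^ 2 * ww p x =
        B * C0 * η ^ 2 * ww p x + B ^ 2 * M / (4 * κ) * η ^ 2 * ww p x := by ring
    rw [h8]
    linarith
  · -- far from the grid
    have hfar' : d0 ≤ 1 - e * Real.cos (p * a) := by
      refine le_trans (le_of_eq ?_) hfar
      rw [hd0]
      congr 2
      field_simp
    have h1 : |QQ p τ x a| ≤ 2 * p * (Real.sqrt (C0 * η) * (C2 * ww p x)) := by
      unfold QQ
      refine pb23_sum fun j hj => ?_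
      refine pb23_cs' (hcont j) (by positivity) (by positivity) (hτ j hj)
        ((hτη j hj).trans h8p) fun u => ?_
      have h2 : ∀ t : ℝ, kj p x j (t - a) ^ 2 = KP p x (t + (th p j - a)) ^ 2 := by
        intro t
        rw [← sq_abs (kj p x j (t - a)), pb23_abs_kj, sq_abs]
        congr 2
        ring
      simp_rw [h2]
      rw [intervalIntegral.integral_comp_add_right (fun b => KP p x b ^ 2) (th p j - a)]
      have h3 := hb2 x (u + (th p j - a)) hx
      have h4 : u + 2 * Real.pi + (th p j - a) = u + (th p j - a) + 2 * Real.pi := by ring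
      rw [h4]
      exact h3
    have h2 : e * QQ p τ x a ≤ |QQ p τ x a| := by
      refine (le_abs_self _).trans ?_
      rw [abs_mul, heabs, one_mul]
    have h3 : Real.sqrt (C0 * η) ≤ s0 := by
      rw [Real.sqrt_le_left hs0pos.le]
      exact hη3
    have h4 : 2 * (p : ℝ) * (Real.sqrt (C0 * η) * (C2 * ww p x)) ≤
        2 * p * (s0 * (C2 * (M * E))) := by gcongr
    have h5 : 2 * (p : ℝ) * (s0 * (C2 * (M * E))) = (4 * p : ℝ)⁻¹ * (E * d0) := by
      rw [hs0]
      field_simp
      ring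
    have h6 : (4 * p : ℝ)⁻¹ * (E * d0) ≤ (4 * p : ℝ)⁻¹ * (E * (1 - e * Real.cos (p * a))) := by
      gcongr
    linarith

end Pool.Agent.PfB
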