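import Pool.Agent.PfB.Defs

/-! MP_f2c8f8_an, project PfB, row PB-17 -/

set_option autoImplicit false

open MeasureTheory Filter
open scoped ComplexConjugate Topology

noncomputable section

namespace Pool.Agent.PfB

theorem pb17_sin_sub {y y' : ℝ} (h1 : -(Real.pi / 8) ≤ y) (h2 : y ≤ y') (h3 : y' ≤ Real.pi / 8) :
    1 / 2 * (y' - y) ≤ Real.sin y' - Real.sin y := by
  have hpi := Real.pi_pos
  have hpi3 := Real.pi_gt_three
  have hpi4 := Real.pi_lt_d2
  rw [Real.sin_sub_sin]
  have h4 : 2 / Real.pi * ((y' - y) / 2) ≤ Real.sin ((y' - y) / 2) :=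
    Real.mul_le_sin (by linarith) (by linarith)
  have h5 : 1 - ((y' + y) / 2) ^ 2 / 2 ≤ Real.cos ((y' + y) / 2) :=
    Real.one_sub_sq_div_two_le_cos
  have h6 : ((y' + y) / 2) ^ 2 ≤ (Real.pi / 8) ^ 2 := by
    apply sq_le_sq'
    · linarith
    · linarith
  have h7 : (Real.pi / 8) ^ 2 ≤ 4 / 25 := by nlinarith
  have h8 : (23 : ℝ) / 25 ≤ Real.cos ((y' + y) / 2) := by linarith
  have h9 : (14 : ℝ) / 25 ≤ 2 / Real.pi * (23 / 25) := by
    rw [div_mul_eq_mul_div, le_div_iff₀ hpi]
    nlinarith
  have h10 : 0 ≤ (y' - y) / 2 := by linarith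
  have h11 : 0 ≤ 2 / Real.pi * ((y' - y) / 2) := by positivity
  calc 1 / 2 * (y' - y) ≤ 2 * (2 / Real.pi * ((y' - y) / 2)) * (23 / 25) := by
        have : 14 / 25 * (y' - y) ≤ 2 / Real.pi * (23 / 25) * (y' - y) :=
          mul_le_mul_of_nonneg_right h9 (by linarith)
        nlinarith
    _ ≤ 2 * Real.sin ((y' - y) / 2) * Real.cos ((y' + y) / 2) := by
        apply mul_le_mul
        · linarith
        · exact h8
        · norm_num
        · linarith

/-- one sign change -/
theorem zero_lemma : ∃ K : ℝ, 0 < K ∧ ∀ (p : ℕ) (v : ℝ → ℝ) (A B : ℝ), 1 ≤ p → 0 < B →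
    K * p * B ≤ A → (∀ t : ℝ, |t| ≤ Real.pi / (8 * p) → |v t| ≤ B) →
    (∀ t t' : ℝ, |t| ≤ Real.pi / (8 * p) → |t'| ≤ Real.pi / (8 * p) →
      |v t - v t'| ≤ B * |t - t'|) →
    (∀ t : ℝ, 0 ≤ t → t ≤ Real.pi / (2 * p) → v t ≤ B ∧ -v (-t) ≤ B) →
    ∃ τ : ℝ, |τ| ≤ K * B / A ∧ |τ| ≤ Real.pi / (8 * p) ∧ ∀ t : ℝ, |t| ≤ Real.pi / (2 * p) →
      (t ≤ τ → A / K * |t - τ| ≤ v t - A * Real.sin (p * t)) ∧
      (τ ≤ t → A / K * |t - τ| ≤ -(v t - A * Real.sin (p * t))) := by
  refine ⟨64, by norm_num, fun p v A B hp hB hA hv hL ho => ?_⟩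
  have hpi := Real.pi_pos
  have hpi3 := Real.pi_gt_three
  have hpi4 := Real.pi_lt_d2
  have hp1 : (1 : ℝ) ≤ p := by exact_mod_cast hp
  have hp0 : (0 : ℝ) < p := by linarith
  have hAB : 64 * B ≤ A := by nlinarith
  have hA0 : 0 < A := by linarith
  set a : ℝ := Real.pi / (8 * p) with ha
  have ha0 : 0 < a := by positivity
  have hpa : p * a = Real.pi / 8 := by rw [ha]; field_simp
  have ha1 : a ≤ 1 / 2 := by
    rw [ha, div_le_iff₀ (by positivity)]
    nlinarith
  have h4a : Real.pi / (2 * p) = 4 * a := by rw [ha]; field_simp; norm_num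
  -- slope
  have slope : ∀ t t' : ℝ, -a ≤ t → t ≤ t' → t' ≤ a →
      A / 4 * (t' - t) ≤ (v t - A * Real.sin (p * t)) - (v t' - A * Real.sin (p * t')) := by
    intro t t' h1 h2 h3
    have h4 : 1 / 2 * (p * t' - p * t) ≤ Real.sin (p * t') - Real.sin (p * t) := by
      apply pb17_sin_sub
      · rw [← hpa]; nlinarith
      · exact mul_le_mul_of_nonneg_left h2 hp0.le
      · rw [← hpa]; exact mul_le_mul_of_nonneg_left h3 hp0.le
    have h5 := hL t t' (abs_le.2 ⟨h1, by linarith⟩) (abs_le.2 ⟨by linarith, h3⟩)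
    rw [abs_sub_comm t t', abs_of_nonneg (by linarith : (0 : ℝ) ≤ t' - t)] at h5
    have h6 := (abs_le.1 h5).1
    have h7 : 1 / 2 * (t' - t) ≤ Real.sin (p * t') - Real.sin (p * t) := by
      have : t' - t ≤ p * t' - p * t := by nlinarith
      linarith
    have h8 : A * (1 / 2 * (t' - t)) ≤ A * (Real.sin (p * t') - Real.sin (p * t)) :=
      mul_le_mul_of_nonneg_left h7 hA0.le
    have h9 : B * (t' - t) ≤ A / 64 * (t' - t) :=
      mul_le_mul_of_nonneg_right (by linarith) (by linarith)
    have h10 : 0 ≤ A * (t' - t) := mul_nonneg hA0.le (by linarith)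
    nlinarith
  have hsin : ∀ t : ℝ, a ≤ t → t ≤ Real.pi / (2 * p) → 1 / 4 ≤ Real.sin (p * t) := by
    intro t h1 h2
    have h3 : Real.pi / 8 ≤ p * t := by rw [← hpa]; exact mul_le_mul_of_nonneg_left h1 hp0.le
    have h4 : p * t ≤ Real.pi / 2 := by
      have := mul_le_mul_of_nonneg_left h2 hp0.le
      have h5 : (p : ℝ) * (Real.pi / (2 * p)) = Real.pi / 2 := by field_simp
      rwa [h5] at this
    have h6 := Real.mul_le_sin (x := p * t) (by linarith) h4
    have h7 : (1 : ℝ) / 4 ≤ 2 / Real.pi * (p * t) := by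
      have h8 : 2 / Real.pi * (Real.pi / 8) = 1 / 4 := by field_simp; norm_num
      rw [← h8]
      exact mul_le_mul_of_nonneg_left h3 (by positivity)
    linarith
  -- the zero
  have hcont : ContinuousOn (fun t => -(v t - A * Real.sin (p * t))) (Set.Icc (-a) a) := by
    have hvc : ContinuousOn v (Set.Icc (-a) a) := by
      have : LipschitzOnWith (Real.toNNReal B) v (Set.Icc (-a) a) := by
        apply LipschitzOnWith.of_dist_le_mul
        intro x hx y hy
        rw [Real.dist_eq, Real.dist_eq, Real.coe_toNNReal _ hB.le]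
        exact hL x y (abs_le.2 hx) (abs_le.2 hy)
      exact this.continuousOn
    apply ContinuousOn.neg
    apply hvc.sub
    fun_prop
  have hle : -a ≤ a := by linarith
  have h0 : (0 : ℝ) ∈ Set.Icc (-(v (-a) - A * Real.sin (p * (-a))))
      (-(v a - A * Real.sin (p * a))) := by
    have h1 := (ho a ha0.le (by rw [h4a]; linarith))
    have h2 := hsin a le_rfl (by rw [h4a]; linarith)
    constructor
    · have h3 : Real.sin (p * (-a)) = -Real.sin (p * a) := by rw [mul_neg, Real.sin_neg]
      rw [h3]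
      nlinarith [h1.2]
    · nlinarith [h1.1]
  obtain ⟨τ, hτ, hτ0⟩ := intermediate_value_Icc hle hcont h0
  have hτ0' : v τ - A * Real.sin (p * τ) = 0 := by
    have : -(v τ - A * Real.sin (p * τ)) = 0 := hτ0
    linarith
  refine ⟨τ, ?_, abs_le.2 hτ, ?_⟩
  · have h1 : |A * Real.sin (p * τ)| ≤ B := by
      have : A * Real.sin (p * τ) = v τ := by linarith
      rw [this]
      exact hv τ (abs_le.2 hτ)
    rw [abs_mul, abs_of_pos hA0] at h1
    have h2 : 1 / 2 * |τ| ≤ |Real.sin (p * τ)| := by
      rcases le_total 0 τ with h | h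
      · have h3 := pb17_sin_sub (y := 0) (y' := p * τ) (by linarith) (by positivity)
          (by rw [← hpa]; exact mul_le_mul_of_nonneg_left hτ.2 hp0.le)
        rw [Real.sin_zero, sub_zero, sub_zero] at h3
        rw [abs_of_nonneg h]
        have h4 : τ ≤ p * τ := by nlinarith
        exact le_trans (by linarith) (le_abs_self _)
      · have h3 := pb17_sin_sub (y := p * τ) (y' := 0)
          (by rw [← hpa]; have := mul_le_mul_of_nonneg_left hτ.1 hp0.le; linarith)
          (mul_nonpos_of_nonneg_of_nonpos hp0.le h) (by linarith)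
        rw [Real.sin_zero, zero_sub, zero_sub] at h3
        rw [abs_of_nonpos h]
        have h4 : p * τ ≤ τ := by nlinarith
        exact le_trans (by linarith) (neg_le_abs _)
    rw [le_div_iff₀ hA0]
    nlinarith [abs_nonneg τ, abs_nonneg (Real.sin (p * τ))]
  · intro t ht
    rw [abs_le] at ht
    by_cases hta : |t| ≤ a
    · rw [abs_le] at hta
      constructor
      · intro h
        have h1 := slope t τ hta.1 h hτ.2
        rw [abs_sub_comm, abs_of_nonneg (by linarith : (0 : ℝ) ≤ τ - t)]
        nlinarith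
      · intro h
        have h1 := slope τ t hτ.1 h hta.2
        rw [abs_of_nonneg (by linarith : (0 : ℝ) ≤ t - τ)]
        nlinarith
    · rcases le_total 0 t with h | h
      · rw [abs_of_nonneg h, not_le] at hta
        constructor
        · intro h1
          exfalso
          linarith [hτ.2]
        · intro h1
          have h2 := hsin t hta.le ht.2
          have h3 := (ho t h ht.2).1
          have h4 : |t - τ| ≤ 5 * a := by
            rw [h4a] at ht
            rw [abs_le]
            constructor <;> linarith [hτ.1, hτ.2]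
          have h5 : |t - τ| ≤ 5 / 2 := by linarith
          have h6 : A / 64 * |t - τ| ≤ A / 64 * (5 / 2) :=
            mul_le_mul_of_nonneg_left h5 (by positivity)
          nlinarith
      · rw [abs_of_nonpos h, not_le] at hta
        constructor
        · intro h1
          have h2 := hsin (-t) hta.le (by linarith)
          rw [mul_neg, Real.sin_neg] at h2
          have h3 := (ho (-t) (by linarith) (by linarith)).2
          rw [neg_neg] at h3
          have h4 : |t - τ| ≤ 5 * a := by
            rw [h4a] at ht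
            rw [abs_le]
            constructor <;> linarith [hτ.1, hτ.2]
          have h5 : |t - τ| ≤ 5 / 2 := by linarith
          have h6 : A / 64 * |t - τ| ≤ A / 64 * (5 / 2) :=
            mul_le_mul_of_nonneg_left h5 (by positivity)
          nlinarith
        · intro h1
          exfalso
          linarith [hτ.1]

end Pool.Agent.PfB
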