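import Pool.Agent.PfB.R0a
import Pool.Agent.PfB.Zero
import Pool.Agent.PfB.Arc
import Pool.Agent.PfB.Near
import Pool.Agent.PfB.Sgn
import Pool.Agent.PfB.Mass

/-! MP_f2c8f8_an, project PfB, row PB-22 -/

set_option autoImplicit false

open MeasureTheory Filter
open scoped ComplexConjugate Topology

noncomputable section

namespace Pool.Agent.PfB

theorem pb22_sj_abs (j : ℤ) : |sj j| = 1 := by
  unfold sj
  rcases Int.even_or_odd j with h | h
  · rw [h.neg_one_zpow, abs_one]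
  · rw [h.neg_one_zpow, abs_neg, abs_one]

theorem pb22_sg_abs (p : ℕ) : |sg p| = 1 := by
  unfold sg
  rw [abs_pow, abs_neg, abs_one, one_pow]

theorem pb22_sgsj (p : ℕ) (j : ℤ) : (sg p * sj j) ^ 2 = 1 := by
  rw [← sq_abs, abs_mul, pb22_sg_abs, pb22_sj_abs]
  norm_num

/-- a part of the potential on an arc -/
def pb22_V {ρ : ℝ} (p : ℕ) (c : Cfg ρ) (S : Finset (Fin c.n)) (j : ℤ) (t : ℝ) : ℝ :=
  ∑ i ∈ S, c.m i * (c.e i * kj p (c.x i) j (t - c.a i))

theorem pb22_kj_cont {p : ℕ} {x : ℝ} (hx : x ≠ 0) (j : ℤ) : Continuous (kj p x j) := by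
  unfold kj
  exact continuous_const.mul ((KP_cont hx).comp (continuous_const.add continuous_id))

theorem pb22_V_cont {ρ : ℝ} (p : ℕ) (c : Cfg ρ) (S : Finset (Fin c.n)) (j : ℤ) :
    Continuous (pb22_V p c S j) := by
  unfold pb22_V
  refine continuous_finsetSum _ fun i _ => ?_
  exact continuous_const.mul (continuous_const.mul
    ((pb22_kj_cont (c.x0 i) j).comp (continuous_id.sub continuous_const)))

theorem pb22_sum_le {ρ : ℝ} {p : ℕ} (c : Cfg ρ) (S : Finset (Fin c.n)) {C Cw : ℝ} (hC : 0 ≤ C)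
    (hw : ∑ i, c.m i * ww p (c.x i) ≤ Cw) {f : Fin c.n → ℝ} {s : ℝ} (hs : 0 ≤ s)
    (hf : ∀ i ∈ S, f i ≤ C * ww p (c.x i) * s) :
    ∑ i ∈ S, c.m i * f i ≤ C * Cw * s := by
  calc ∑ i ∈ S, c.m i * f i ≤ ∑ i ∈ S, C * s * (c.m i * ww p (c.x i)) := by
        refine Finset.sum_le_sum fun i hi => ?_
        have := mul_le_mul_of_nonneg_left (hf i hi) (c.m0 i)
        nlinarith
    _ ≤ ∑ i, C * s * (c.m i * ww p (c.x i)) := by
        refine Finset.sum_le_univ_sum_of_nonneg fun i => ?_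
        exact mul_nonneg (mul_nonneg hC hs) (mul_nonneg (c.m0 i) (ww_pos p _).le)
    _ = C * s * ∑ i, c.m i * ww p (c.x i) := by rw [Finset.mul_sum]
    _ ≤ C * s * Cw := mul_le_mul_of_nonneg_left hw (mul_nonneg hC hs)
    _ = C * Cw * s := by ring

theorem pb22_good {p : ℕ} {ρ : ℝ} (c : Cfg ρ) (S : Finset (Fin c.n)) {C Cw : ℝ} (hC : 0 < C)
    (hg : ∀ x a e : ℝ, (e = 1 ∨ e = -1) → gd p x a e → ∀ j : ℤ,
      (∀ t : ℝ, |t| ≤ Real.pi / (8 * p) → |e * kj p x j (t - a)| ≤ C * ww p x) ∧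
      (∀ t t' : ℝ, |t| ≤ Real.pi / (8 * p) → |t'| ≤ Real.pi / (8 * p) →
        |e * kj p x j (t - a) - e * kj p x j (t' - a)| ≤ C * ww p x * |t - t'|) ∧
      (∀ t : ℝ, 0 ≤ t → t ≤ Real.pi / (2 * p) →
        e * kj p x j (t - a) ≤ C * ww p x ∧ -(e * kj p x j (-t - a)) ≤ C * ww p x))
    (hw : ∑ i, c.m i * ww p (c.x i) ≤ Cw) (hS : ∀ i ∈ S, gd p (c.x i) (c.a i) (c.e i)) (j : ℤ) :
    (∀ t : ℝ, |t| ≤ Real.pi / (8 * p) → |pb22_V p c S j t| ≤ C * Cw) ∧
    (∀ t t' : ℝ, |t| ≤ Real.pi / (8 * p) → |t'| ≤ Real.pi / (8 * p) →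
      |pb22_V p c S j t - pb22_V p c S j t'| ≤ C * Cw * |t - t'|) ∧
    (∀ t : ℝ, 0 ≤ t → t ≤ Real.pi / (2 * p) → pb22_V p c S j t ≤ C * Cw ∧
      -pb22_V p c S j (-t) ≤ C * Cw) := by
  refine ⟨fun t ht => ?_, fun t t' ht ht' => ?_, fun t ht ht' => ⟨?_, ?_⟩⟩
  · unfold pb22_V
    refine (Finset.abs_sum_le_sum_abs _ _).trans ?_
    have h := pb22_sum_le c S hC.le hw (f := fun i => |c.e i * kj p (c.x i) j (t - c.a i)|)
      zero_le_one (fun i hi => by
        rw [mul_one]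
        exact (hg _ _ _ (c.e1 i) (hS i hi) j).1 t ht)
    rw [mul_one] at h
    refine le_trans (Finset.sum_le_sum fun i _ => ?_) h
    rw [abs_mul, abs_of_nonneg (c.m0 i)]
  · unfold pb22_V
    rw [← Finset.sum_sub_distrib]
    refine (Finset.abs_sum_le_sum_abs _ _).trans ?_
    have h := pb22_sum_le c S hC.le hw
      (f := fun i => |c.e i * kj p (c.x i) j (t - c.a i) - c.e i * kj p (c.x i) j (t' - c.a i)|)
      (abs_nonneg (t - t')) (fun i hi => (hg _ _ _ (c.e1 i) (hS i hi) j).2.1 t t' ht ht')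
    refine le_trans (Finset.sum_le_sum fun i _ => ?_) h
    rw [← mul_sub, abs_mul, abs_of_nonneg (c.m0 i)]
  · unfold pb22_V
    have h := pb22_sum_le c S hC.le hw (f := fun i => c.e i * kj p (c.x i) j (t - c.a i))
      zero_le_one (fun i hi => by
        rw [mul_one]
        exact ((hg _ _ _ (c.e1 i) (hS i hi) j).2.2 t ht ht').1)
    rw [mul_one] at h
    exact h
  · unfold pb22_V
    have h := pb22_sum_le c S hC.le hw (f := fun i => -(c.e i * kj p (c.x i) j (-t - c.a i)))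
      zero_le_one (fun i hi => by
        rw [mul_one]
        exact ((hg _ _ _ (c.e1 i) (hS i hi) j).2.2 t ht ht').2)
    rw [mul_one] at h
    rw [← Finset.sum_neg_distrib]
    refine le_trans (le_of_eq (Finset.sum_congr rfl fun i _ => ?_)) h
    ring

theorem pb22_sq {p : ℕ} (hp : 1 ≤ p) {C : ℝ} (hsq : ∀ x s : ℝ, x ≠ 0 →
      ∫ b in s..(s + 2 * Real.pi), KP p x b ^ 2 ≤ (C * ww p x) ^ 2) {x : ℝ} (hx : x ≠ 0) (j : ℤ)
    (a : ℝ) : ∫ t in (-(Real.pi / (2 * p)))..(Real.pi / (2 * p)), kj p x j (t - a) ^ 2 ≤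
      (C * ww p x) ^ 2 := by
  have hp' : (1 : ℝ) ≤ p := by exact_mod_cast hp
  have hpi := Real.pi_pos
  have h2 : Real.pi / (2 * p) ≤ Real.pi := by
    rw [div_le_iff₀ (by positivity)]
    nlinarith
  have h0 : 0 < Real.pi / (2 * p) := by positivity
  have h1 : ∀ t, kj p x j (t - a) ^ 2 = KP p x (t + (th p j - a)) ^ 2 := by
    intro t
    unfold kj
    rw [mul_pow, pb22_sgsj, one_mul]
    congr 2
    ring
  simp_rw [h1]
  rw [intervalIntegral.integral_comp_add_right (fun t => KP p x t ^ 2)]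
  refine le_trans ?_ (hsq x (-(Real.pi / (2 * p)) + (th p j - a)) hx)
  refine intervalIntegral.integral_mono_interval le_rfl (by linarith) (by linarith)
    (Eventually.of_forall fun t => sq_nonneg _) ?_
  exact ((KP_cont hx).pow 2).intervalIntegrable _ _

theorem pb22_ww_le {p : ℕ} (hp : 1 ≤ p) {x : ℝ} (hx : |x| < 1) : ww p x ≤ Real.exp p := by
  have hp' : (1 : ℝ) ≤ p := by exact_mod_cast hp
  unfold ww
  refine (min_le_right _ _).trans (Real.exp_le_exp.2 ?_)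
  rw [abs_lt] at hx
  nlinarith [hx.1, hx.2]

theorem pb22_bad {p : ℕ} (hp : 1 ≤ p) {ρ : ℝ} {C : ℝ} (hC : 0 ≤ C) (hsq : ∀ x s : ℝ, x ≠ 0 →
      ∫ b in s..(s + 2 * Real.pi), KP p x b ^ 2 ≤ (C * ww p x) ^ 2) (c : Cfg ρ)
    (S : Finset (Fin c.n)) (hS : ∀ i ∈ S, |c.x i| < 1) (j : ℤ) :
    ∫ t in (-(Real.pi / (2 * p)))..(Real.pi / (2 * p)), pb22_V p c S j t ^ 2 ≤
      (C * Real.exp p * ∑ i ∈ S, c.m i) ^ 2 := by
  have hp' : (1 : ℝ) ≤ p := by exact_mod_cast hp
  have hpi := Real.pi_pos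
  have h0 : 0 < Real.pi / (2 * p) := by positivity
  have hS0 : 0 ≤ ∑ i ∈ S, c.m i := Finset.sum_nonneg fun i _ => c.m0 i
  have hpt : ∀ t, pb22_V p c S j t ^ 2 ≤
      (∑ i ∈ S, c.m i) * ∑ i ∈ S, c.m i * kj p (c.x i) j (t - c.a i) ^ 2 := by
    intro t
    unfold pb22_V
    refine Finset.sum_sq_le_sum_mul_sum_of_sq_le_mul S (fun i _ => c.m0 i)
      (fun i _ => mul_nonneg (c.m0 i) (sq_nonneg _)) (fun i _ => ?_)
    have he : c.e i ^ 2 = 1 := by
      rcases c.e1 i with h | h <;> rw [h] <;> norm_num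
    rw [mul_pow, mul_pow, he]
    exact le_of_eq (by ring)
  have hc1 : ∀ i, Continuous fun t => kj p (c.x i) j (t - c.a i) ^ 2 := fun i =>
    ((pb22_kj_cont (c.x0 i) j).comp (continuous_id.sub continuous_const)).pow 2
  have hc2 : Continuous fun t => (∑ i ∈ S, c.m i) * ∑ i ∈ S, c.m i *
      kj p (c.x i) j (t - c.a i) ^ 2 :=
    continuous_const.mul (continuous_finsetSum _ fun i _ => continuous_const.mul (hc1 i))
  calc ∫ t in (-(Real.pi / (2 * p)))..(Real.pi / (2 * p)), pb22_V p c S j t ^ 2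
      ≤ ∫ t in (-(Real.pi / (2 * p)))..(Real.pi / (2 * p)),
        (∑ i ∈ S, c.m i) * ∑ i ∈ S, c.m i * kj p (c.x i) j (t - c.a i) ^ 2 :=
        intervalIntegral.integral_mono_on (by linarith)
          (((pb22_V_cont p c S j).pow 2).intervalIntegrable _ _)
          (hc2.intervalIntegrable _ _) fun t _ => hpt t
    _ = (∑ i ∈ S, c.m i) * ∑ i ∈ S, c.m i *
        ∫ t in (-(Real.pi / (2 * p)))..(Real.pi / (2 * p)), kj p (c.x i) j (t - c.a i) ^ 2 := by
        rw [intervalIntegral.integral_const_mul, intervalIntegral.integral_finsetSum]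
        · simp_rw [intervalIntegral.integral_const_mul]
        · intro i _
          exact (continuous_const.mul (hc1 i)).intervalIntegrable _ _
    _ ≤ (∑ i ∈ S, c.m i) * ∑ i ∈ S, c.m i * (C * Real.exp p) ^ 2 := by
        refine mul_le_mul_of_nonneg_left (Finset.sum_le_sum fun i hi => ?_) hS0
        refine mul_le_mul_of_nonneg_left ?_ (c.m0 i)
        refine (pb22_sq hp hsq (c.x0 i) j (c.a i)).trans ?_
        have h1 : 0 ≤ C * ww p (c.x i) := mul_nonneg hC (ww_pos p _).le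
        exact pow_le_pow_left₀ h1 (mul_le_mul_of_nonneg_left (pb22_ww_le hp (hS i hi)) hC) 2
    _ = (C * Real.exp p * ∑ i ∈ S, c.m i) ^ 2 := by
        rw [← Finset.sum_mul]
        ring

theorem pb22_d0 : 0 < 1 - Real.cos (Real.pi / 8) := by
  have h : Real.cos (Real.pi / 8) < Real.cos 0 :=
    Real.cos_lt_cos_of_nonneg_of_le_pi_div_two le_rfl (by linarith [Real.pi_pos])
      (by linarith [Real.pi_pos])
  rw [Real.cos_zero] at h
  linarith

theorem pb22_Om {p : ℕ} (hp : 2 ≤ p) {ρ : ℝ} (c : Cfg ρ) (S : Finset (Fin c.n))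
    (hS : ∀ i ∈ S, |c.x i| < 1 ∧ 1 - Real.cos (Real.pi / 8) ≤ 1 - c.e i * Real.cos (p * c.a i)) :
    ∑ i ∈ S, c.m i ≤ Real.pi * p * Real.exp p / (1 - Real.cos (Real.pi / 8)) * c.DD p := by
  have hp' : (0 : ℝ) < p := by exact_mod_cast (by omega : 0 < p)
  have hpi := Real.pi_pos
  have hd0 := pb22_d0
  set d0 := 1 - Real.cos (Real.pi / 8) with hd0def
  have hd : ∀ i, 0 ≤ c.d p i := by
    intro i
    unfold Cfg.d
    have h1 := Real.neg_one_le_cos (p * c.a i)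
    have h2 := Real.cos_le_one (p * c.a i)
    rcases c.e1 i with h | h <;> rw [h] <;> linarith
  have h1 : ∑ i ∈ S, c.m i * (Real.exp (-p) * d0) ≤
      ∑ i, c.m i * (Real.exp (-(p * |c.x i|)) * c.d p i) := by
    refine le_trans (Finset.sum_le_sum fun i hi => ?_)
      (Finset.sum_le_univ_sum_of_nonneg (s := S) fun i => mul_nonneg (c.m0 i)
        (mul_nonneg (Real.exp_pos _).le (hd i)))
    refine mul_le_mul_of_nonneg_left ?_ (c.m0 i)
    refine mul_le_mul (Real.exp_le_exp.2 ?_) (hS i hi).2 hd0.le (Real.exp_pos _).le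
    have := (hS i hi).1
    nlinarith
  have h2 : c.Da p = (Real.pi * p)⁻¹ * ∑ i, c.m i * (Real.exp (-(p * |c.x i|)) * c.d p i) := rfl
  have h3 : ∑ i, c.m i * (Real.exp (-(p * |c.x i|)) * c.d p i) = Real.pi * p * c.Da p := by
    rw [h2, ← mul_assoc, mul_inv_cancel₀ (by positivity), one_mul]
  have h4 : c.Da p ≤ c.DD p := by
    unfold Cfg.DD
    linarith [Dr_nonneg (p := p) c]
  rw [← Finset.sum_mul, h3] at h1
  have h5 : (∑ i ∈ S, c.m i) * (Real.exp (-p) * d0) ≤ Real.pi * p * c.DD p :=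
    h1.trans (mul_le_mul_of_nonneg_left h4 (by positivity))
  have h6 : ∑ i ∈ S, c.m i = (∑ i ∈ S, c.m i) * (Real.exp (-p) * d0) * (Real.exp p / d0) := by
    have : Real.exp (-(p : ℝ)) * Real.exp p = 1 := by
      rw [← Real.exp_add]; simp
    field_simp
    linear_combination (-(∑ i ∈ S, c.m i)) * this
  rw [h6]
  refine (mul_le_mul_of_nonneg_right h5 (by positivity)).trans (le_of_eq ?_)
  ring

theorem pb22_small (p M K C1 : ℝ) : ∀ᶠ η : ℝ in 𝓝 (0 : ℝ),
    2 * p / Real.pi * (√(2 * √η) * M + K * √η * M ^ 2 * C1) < 1 / 8 := by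
  have hc : Continuous fun η : ℝ =>
      2 * p / Real.pi * (√(2 * √η) * M + K * √η * M ^ 2 * C1) := by fun_prop
  have h := hc.tendsto 0
  simp only [Real.sqrt_zero, mul_zero, zero_mul, add_zero] at h
  exact h.eventually (gt_mem_nhds (by norm_num))

/-- the error on one arc -/
theorem pb22_err {η A K M D C1 I : ℝ} (h0 : 0 < η) (hA : 1 / (4 * η) ≤ A) (hK : 0 < K)
    (hM : 0 ≤ M) (hD : 0 ≤ D) (hD1 : D ≤ C1) (hI0 : 0 ≤ I) (hI : I ≤ (M * D) ^ 2) :
    2 * (√(2 * √η) * √I + (4 * (A / K) * √η)⁻¹ * I) ≤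
      2 * (√(2 * √η) * M + K * √η * M ^ 2 * C1) * D := by
  have hs : 0 < √η := Real.sqrt_pos.2 h0
  have hss : √η * √η = η := Real.mul_self_sqrt h0.le
  have hA0 : 0 < A := lt_of_lt_of_le (by positivity) hA
  have h1 : √I ≤ M * D := by
    rw [← Real.sqrt_sq (mul_nonneg hM hD)]
    exact Real.sqrt_le_sqrt hI
  have h2 : (4 * (A / K) * √η)⁻¹ ≤ K * √η := by
    rw [inv_le_iff_one_le_mul₀ (by positivity)]
    rw [div_le_iff₀ (by positivity)] at hA
    have : K * √η * (4 * (A / K) * √η) = A * (4 * η) := by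
      field_simp
      nlinarith
    rw [this]
    exact hA
  have h3 : (M * D) ^ 2 ≤ M ^ 2 * C1 * D := by
    have : D * D ≤ C1 * D := mul_le_mul_of_nonneg_right hD1 hD
    have := mul_le_mul_of_nonneg_left this (sq_nonneg M)
    nlinarith
  have h4 : (4 * (A / K) * √η)⁻¹ * I ≤ K * √η * (M ^ 2 * C1 * D) :=
    mul_le_mul h2 (hI.trans h3) hI0 (by positivity)
  have h5 : √(2 * √η) * √I ≤ √(2 * √η) * (M * D) :=
    mul_le_mul_of_nonneg_left h1 (Real.sqrt_nonneg _)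
  nlinarith

theorem pb22_int_sin {p : ℕ} (hp : 1 ≤ p) (A τ : ℝ) :
    ∫ t in (0 : ℝ)..τ, -(A * Real.sin (p * t)) = -(A * ((1 - Real.cos (p * τ)) / p)) := by
  have hp' : (p : ℝ) ≠ 0 := by exact_mod_cast (by omega : p ≠ 0)
  rw [intervalIntegral.integral_neg, intervalIntegral.integral_const_mul,
    intervalIntegral.integral_comp_mul_left (fun t => Real.sin t) hp', integral_sin]
  simp only [mul_zero, Real.cos_zero, smul_eq_mul]
  field_simp

/-- the potential on an arc, split in two parts -/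
theorem pb22_split {p : ℕ} (hp : 1 ≤ p) {ρ : ℝ} (c : Cfg ρ) (hn : c.Nor p)
    (S : Finset (Fin c.n)) (j : ℤ) (t : ℝ) :
    sg p * sj j * c.u p (th p j + t) =
      (pb22_V p c S j t - c.Ac p * Real.sin (p * t)) + pb22_V p c Sᶜ j t := by
  rw [fj_eq hp, hn.s, ← Finset.sum_add_sum_compl S]
  unfold pb22_V
  ring

/-- the terms with the shifts -/
theorem pb22_Lam {p : ℕ} (hp : 1 ≤ p) {ρ : ℝ} (c : Cfg ρ) (hn : c.Nor p) (τ : ℤ → ℝ) :
    Real.pi⁻¹ * ∑ j ∈ JJ p, ∫ t in (0 : ℝ)..τ j, sg p * sj j * c.u p (th p j + t) =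
      -(c.Ac p * ell p τ) + Real.pi⁻¹ * ∑ i, c.m i * (c.e i * QQ p τ (c.x i) (c.a i)) := by
  have hp' : (p : ℝ) ≠ 0 := by exact_mod_cast (by omega : p ≠ 0)
  have h1 : ∀ j, ∫ t in (0 : ℝ)..τ j, sg p * sj j * c.u p (th p j + t) =
      -(c.Ac p * ((1 - Real.cos (p * τ j)) / p)) +
        ∑ i, c.m i * (c.e i * ∫ t in (0 : ℝ)..τ j, kj p (c.x i) j (t - c.a i)) := by
    intro j
    have h2 : ∀ t, sg p * sj j * c.u p (th p j + t) = -(c.Ac p * Real.sin (p * t)) +
        ∑ i, c.m i * (c.e i * kj p (c.x i) j (t - c.a i)) := by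
      intro t
      rw [fj_eq hp, hn.s, zero_mul, add_zero]
    have hc : ∀ i, Continuous fun t => c.m i * (c.e i * kj p (c.x i) j (t - c.a i)) := fun i =>
      continuous_const.mul (continuous_const.mul
        ((pb22_kj_cont (c.x0 i) j).comp (continuous_id.sub continuous_const)))
    simp_rw [h2]
    rw [intervalIntegral.integral_add (Continuous.intervalIntegrable (by fun_prop) _ _)
      ((continuous_finsetSum _ fun i _ => hc i).intervalIntegrable _ _), pb22_int_sin hp,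
      intervalIntegral.integral_finsetSum fun i _ => (hc i).intervalIntegrable _ _]
    simp_rw [intervalIntegral.integral_const_mul]
  simp_rw [h1]
  rw [Finset.sum_add_distrib, mul_add]
  congr 1
  · unfold ell
    rw [Finset.sum_neg_distrib, ← Finset.mul_sum, ← Finset.sum_div]
    field_simp
  · congr 1
    rw [Finset.sum_comm]
    refine Finset.sum_congr rfl fun i _ => ?_
    unfold QQ
    rw [Finset.mul_sum, Finset.mul_sum]

/-- reduction to test functions with `2p` sign changes -/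
theorem r0 {p : ℕ} (hp : 2 ≤ p) : ∃ C0 η1 : ℝ, 0 < C0 ∧ 0 < η1 ∧ ∀ η : ℝ, 0 < η → η < η1 →
    ∀ c : Cfg (rh p η), c.Nor p → c.FF p ≤ mn p η ∨
      ∃ τ : ℤ → ℝ, (∀ j n : ℤ, τ (j + 2 * p * n) = τ j) ∧ (∀ j, |τ j| ≤ C0 * η) ∧
        c.FF p ≤ c.Lam p η τ + c.DD p / 8 := by
  classical
  obtain ⟨C1, hC1, h1⟩ := r0a hp
  obtain ⟨Cg, hCg, h2⟩ := gd_bd hp
  obtain ⟨Cs, hCs, h3⟩ := KP_sq hp
  obtain ⟨Cw, hCw, h4⟩ := S_ww hp
  obtain ⟨K, hK, h5⟩ := zero_lemma
  have hp1 : 1 ≤ p := by omega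
  have hp' : (0 : ℝ) < p := by exact_mod_cast (by omega : 0 < p)
  have hpi := Real.pi_pos
  set B := Cg * Cw with hB
  have hB0 : 0 < B := by positivity
  set M := Cs * Real.exp p * (Real.pi * p * Real.exp p / (1 - Real.cos (Real.pi / 8))) with hM
  have hM0 : 0 ≤ M := by
    have := pb22_d0
    positivity
  obtain ⟨ε, hε, hsm⟩ := Metric.eventually_nhds_iff.1 (pb22_small p M K C1)
  refine ⟨4 * K * B, min ε (min (1 / 4) (min (1 / (4 * Real.pi * C1)) (1 / (4 * (K * p * B))))),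
    by positivity, by positivity, ?_⟩
  intro η h0 hη c hn
  rw [lt_min_iff, lt_min_iff, lt_min_iff] at hη
  obtain ⟨hη1, hη2, hη3, hη4⟩ := hη
  have hsm' := hsm (y := η) (by rw [Real.dist_eq, sub_zero, abs_of_pos h0]; exact hη1)
  rcases le_or_gt C1 (c.DD p) with hD | hD
  · left
    have := h1 η h0 hη2.le c hn
    linarith
  right
  have hDD0 : 0 ≤ c.DD p := by
    unfold Cfg.DD
    linarith [Dr_nonneg (p := p) c, Da_nonneg (p := p) c]
  -- the main coefficient is large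
  have hA : 1 / (4 * η) ≤ c.Ac p := by
    have hA1 := Ac_ge hp h0 hη2.le c
    have hA2 := (Z0_bd hp h0 hη2.le).1
    have hA3 : 1 / (2 * η) ≤ Z0 p η / p := by
      rw [le_div_iff₀ hp']
      calc 1 / (2 * η) * p = p / (2 * η) := by ring
        _ ≤ _ := hA2
    have hA4 : Real.pi * c.DD p ≤ 1 / (4 * η) := by
      rw [le_div_iff₀ (by positivity)]
      rw [lt_div_iff₀ (by positivity)] at hη3
      have : Real.pi * c.DD p * (4 * η) ≤ Real.pi * C1 * (4 * η) :=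
        mul_le_mul_of_nonneg_right (mul_le_mul_of_nonneg_left hD.le hpi.le) (by positivity)
      nlinarith
    have hA5 : 1 / (2 * η) = 1 / (4 * η) + 1 / (4 * η) := by
      field_simp
      norm_num
    linarith
  have hA0 : 0 < c.Ac p := lt_of_lt_of_le (by positivity) hA
  have hKB : K * p * B ≤ c.Ac p := by
    refine le_trans ?_ hA
    rw [le_div_iff₀ (by positivity)]
    rw [lt_div_iff₀ (by positivity)] at hη4
    nlinarith
  -- good and bad masses
  set S : Finset (Fin c.n) := Finset.univ.filter fun i => gd p (c.x i) (c.a i) (c.e i) with hS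
  have hSg : ∀ i ∈ S, gd p (c.x i) (c.a i) (c.e i) := fun i hi => (Finset.mem_filter.1 hi).2
  have hSb : ∀ i ∈ Sᶜ, |c.x i| < 1 ∧
      1 - Real.cos (Real.pi / 8) ≤ 1 - c.e i * Real.cos (p * c.a i) := by
    intro i hi
    rcases gd_or hp1 (c.x i) (c.a i) (c.e1 i) with h | h
    · exact absurd (Finset.mem_filter.2 ⟨Finset.mem_univ i, h⟩) (Finset.mem_compl.1 hi)
    · exact h
  have hgood := fun j => pb22_good c S hCg h2 (h4 η h0 hη2.le c) hSg j
  have hz : ∀ j : ℤ, ∃ τ : ℝ, |τ| ≤ K * B / c.Ac p ∧ |τ| ≤ Real.pi / (8 * p) ∧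
      ∀ t : ℝ, |t| ≤ Real.pi / (2 * p) →
      (t ≤ τ → c.Ac p / K * |t - τ| ≤ pb22_V p c S j t - c.Ac p * Real.sin (p * t)) ∧
      (τ ≤ t → c.Ac p / K * |t - τ| ≤ -(pb22_V p c S j t - c.Ac p * Real.sin (p * t))) :=
    fun j => h5 p (pb22_V p c S j) (c.Ac p) B hp1 hB0 hKB (hgood j).1 (hgood j).2.1 (hgood j).2.2
  choose σ hσ1 hσ2 hσ3 using hz
  obtain ⟨τ, hτ1, hτ2, hτ3⟩ := exists_per hp1 σ
  refine ⟨τ, hτ2, ?_, ?_⟩
  · intro j
    obtain ⟨i, _, hi⟩ := hτ3 j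
    rw [hi]
    refine (hσ1 i).trans ?_
    rw [div_le_iff₀ hA0]
    rw [div_le_iff₀ (by positivity)] at hA
    have : K * B * 1 ≤ K * B * (c.Ac p * (4 * η)) := mul_le_mul_of_nonneg_left hA (by positivity)
    nlinarith
  -- the bad masses
  have hOm := pb22_Om hp c Sᶜ hSb
  have hbad : ∀ j : ℤ, ∫ t in (-(Real.pi / (2 * p)))..(Real.pi / (2 * p)),
      pb22_V p c Sᶜ j t ^ 2 ≤ (M * c.DD p) ^ 2 := by
    intro j
    refine (pb22_bad hp1 hCs.le h3 c Sᶜ (fun i hi => (hSb i hi).1) j).trans ?_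
    have hS0 : 0 ≤ ∑ i ∈ Sᶜ, c.m i := Finset.sum_nonneg fun i _ => c.m0 i
    refine pow_le_pow_left₀ (by positivity) ?_ 2
    rw [hM, mul_assoc (Cs * Real.exp p)]
    exact mul_le_mul_of_nonneg_left hOm (by positivity)
  have hπp : Real.pi / (8 * p) ≤ Real.pi / (2 * p) :=
    div_le_div_of_nonneg_left hpi.le (by positivity) (by nlinarith)
  have hpos : -(Real.pi / (2 * p)) ≤ Real.pi / (2 * p) := by
    have : 0 < Real.pi / (2 * p) := by positivity
    linarith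
  have harc : ∀ j ∈ JJ p, ∫ t in (-(Real.pi / (2 * p)))..(Real.pi / (2 * p)),
      |c.u p (th p j + t)| ≤ ar p (fun t => sg p * sj j * c.u p (th p j + t)) +
        2 * (∫ t in (0 : ℝ)..τ j, sg p * sj j * c.u p (th p j + t)) +
        2 * (√(2 * √η) * M + K * √η * M ^ 2 * C1) * c.DD p := by
    intro j hj
    have habs : ∀ t, |c.u p (th p j + t)| =
        |(pb22_V p c S j t - c.Ac p * Real.sin (p * t)) + pb22_V p c Sᶜ j t| := by
      intro t
      rw [← pb22_split hp1 c hn S j t, abs_mul, abs_mul, pb22_sg_abs, pb22_sj_abs, one_mul,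
        one_mul]
    have hg : Continuous fun t => pb22_V p c S j t - c.Ac p * Real.sin (p * t) :=
      (pb22_V_cont p c S j).sub (by fun_prop)
    have h6 := arc_abs hp1 hg (pb22_V_cont p c Sᶜ j) (τ := τ j) (L := c.Ac p / K)
      (by rw [hτ1 j hj]; exact (hσ2 j).trans hπp) (by positivity)
      (by rw [hτ1 j hj]; exact hσ3 j) (r := √η) (Real.sqrt_pos.2 h0)
    have h7 := pb22_err (I := ∫ t in (-(Real.pi / (2 * p)))..(Real.pi / (2 * p)),
      pb22_V p c Sᶜ j t ^ 2) h0 hA hK hM0 hDD0 hD.le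
      (intervalIntegral.integral_nonneg hpos fun t _ => sq_nonneg _) (hbad j)
    simp_rw [habs, pb22_split hp1 c hn S j]
    linarith
  have hsum := arc_sum hp1 (f := fun t => |c.u p t|)
    ((u_cont p c).abs.intervalIntegrable _ _)
  have hFF : c.FF p ≤ ((2 * Real.pi)⁻¹ *
        ∑ j ∈ JJ p, ar p (fun t => sg p * sj j * c.u p (th p j + t)) + c.N 0) +
      Real.pi⁻¹ * (∑ j ∈ JJ p, ∫ t in (0 : ℝ)..τ j, sg p * sj j * c.u p (th p j + t)) +
      2 * p / Real.pi * (√(2 * √η) * M + K * √η * M ^ 2 * C1) * c.DD p := by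
    unfold Cfg.FF
    rw [hsum]
    have h8 := Finset.sum_le_sum harc
    rw [Finset.sum_add_distrib, Finset.sum_add_distrib, ← Finset.mul_sum, Finset.sum_const,
      card_JJ, nsmul_eq_mul] at h8
    have h9 := mul_le_mul_of_nonneg_left h8 (by positivity : 0 ≤ (2 * Real.pi)⁻¹)
    have h10 : (2 * Real.pi)⁻¹ * (∑ j ∈ JJ p, ar p (fun t => sg p * sj j * c.u p (th p j + t)) +
        2 * ∑ j ∈ JJ p, (∫ t in (0 : ℝ)..τ j, sg p * sj j * c.u p (th p j + t)) +
        ((2 * p : ℕ) : ℝ) * (2 * (√(2 * √η) * M + K * √η * M ^ 2 * C1) * c.DD p)) =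
        (2 * Real.pi)⁻¹ * ∑ j ∈ JJ p, ar p (fun t => sg p * sj j * c.u p (th p j + t)) +
        Real.pi⁻¹ * (∑ j ∈ JJ p, ∫ t in (0 : ℝ)..τ j, sg p * sj j * c.u p (th p j + t)) +
        2 * p / Real.pi * (√(2 * √η) * M + K * √η * M ^ 2 * C1) * c.DD p := by
      push_cast
      field_simp
    rw [h10] at h9
    linarith
  have hpair := sgn_pair hp h0 hη2.le c
  have hLam := pb22_Lam hp1 c hn τ
  have herr : 2 * p / Real.pi * (√(2 * √η) * M + K * √η * M ^ 2 * C1) * c.DD p ≤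
      1 / 8 * c.DD p := mul_le_mul_of_nonneg_right hsm'.le hDD0
  unfold Cfg.Lam
  linarith

end Pool.Agent.PfB
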