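import Pool.Agent.PfB.Sgn
import Pool.Agent.PfB.KL2

/-! MP_f2c8f8_an, project PfB, row PB-21 -/

set_option autoImplicit false

open MeasureTheory Filter
open scoped ComplexConjugate Topology

noncomputable section

namespace Pool.Agent.PfB

/-- `|sg p * sj j| = 1` -/
theorem pb21_sgj (p : ℕ) (j : ℤ) : |sg p * sj j| = 1 := by
  rw [abs_mul]
  unfold sg sj
  rw [abs_pow, abs_zpow]
  simp

/-- the kernel has bounded `L¹` mean -/
theorem pb21_L1 {p : ℕ} (hp : 2 ≤ p) : ∃ C : ℝ, 0 < C ∧ ∀ x a : ℝ, x ≠ 0 →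
    ∫ t in (-Real.pi)..Real.pi, |KP p x (t - a)| ≤ C * ww p x := by
  obtain ⟨C, hC, h⟩ := KP_sq hp
  refine ⟨C * ((1 + 2 * Real.pi) / 2), by have := Real.pi_pos; positivity, ?_⟩
  intro x a hx
  have hw := ww_pos p x
  have hCw : 0 < C * ww p x := mul_pos hC hw
  have hcont : Continuous (fun t : ℝ => KP p x (t - a)) :=
    (KP_cont hx).comp (continuous_id.sub continuous_const)
  have hpi := Real.pi_pos
  -- the square
  have hsq : ∫ t in (-Real.pi)..Real.pi, KP p x (t - a) ^ 2 ≤ (C * ww p x) ^ 2 := by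
    have e1 : ∫ t in (-Real.pi)..Real.pi, KP p x (t - a) ^ 2 =
        ∫ b in (-Real.pi - a)..(Real.pi - a), KP p x b ^ 2 :=
      intervalIntegral.integral_comp_sub_right (fun b => KP p x b ^ 2) a
    have e2 : Real.pi - a = (-Real.pi - a) + 2 * Real.pi := by ring
    rw [e1, e2]
    exact h x _ hx
  have hle : ∀ t ∈ Set.Icc (-Real.pi) Real.pi, |KP p x (t - a)| ≤
      (2 * (C * ww p x))⁻¹ * KP p x (t - a) ^ 2 + C * ww p x / 2 := by
    intro t _
    have h1 : 0 ≤ (|KP p x (t - a)| - C * ww p x) ^ 2 := sq_nonneg _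
    have h2 : |KP p x (t - a)| ^ 2 = KP p x (t - a) ^ 2 := sq_abs _
    rw [← h2]
    have h3 : (2 * (C * ww p x))⁻¹ * |KP p x (t - a)| ^ 2 + C * ww p x / 2 - |KP p x (t - a)| =
        (2 * (C * ww p x))⁻¹ * (|KP p x (t - a)| - C * ww p x) ^ 2 := by
      field_simp
      ring
    have h4 : 0 ≤ (2 * (C * ww p x))⁻¹ * (|KP p x (t - a)| - C * ww p x) ^ 2 := by positivity
    linarith
  calc ∫ t in (-Real.pi)..Real.pi, |KP p x (t - a)| ≤
      ∫ t in (-Real.pi)..Real.pi,
        ((2 * (C * ww p x))⁻¹ * KP p x (t - a) ^ 2 + C * ww p x / 2) := by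
        apply intervalIntegral.integral_mono_on (by linarith)
        · exact (hcont.abs).intervalIntegrable _ _
        · exact ((continuous_const.mul (hcont.pow 2)).add continuous_const).intervalIntegrable _ _
        · exact hle
    _ = (2 * (C * ww p x))⁻¹ * (∫ t in (-Real.pi)..Real.pi, KP p x (t - a) ^ 2) +
        2 * Real.pi * (C * ww p x / 2) := by
        rw [intervalIntegral.integral_add, intervalIntegral.integral_const_mul,
          intervalIntegral.integral_const]
        · rw [smul_eq_mul]; ring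
        · exact (continuous_const.mul (hcont.pow 2)).intervalIntegrable _ _
        · exact continuous_const.intervalIntegrable _ _
    _ ≤ (2 * (C * ww p x))⁻¹ * (C * ww p x) ^ 2 + 2 * Real.pi * (C * ww p x / 2) := by
        gcongr
    _ = C * ((1 + 2 * Real.pi) / 2) * ww p x := by
        field_simp

/-- the crude bound on one arc -/
theorem pb21_arc {p : ℕ} (hp : 1 ≤ p) {f V : ℝ → ℝ} (hf : Continuous f) (hV : Continuous V)
    {A : ℝ} (hA : 0 ≤ A) (h : ∀ t, |f t + A * Real.sin (p * t)| ≤ V t) :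
    (∫ t in (-(Real.pi / (2 * p)))..(Real.pi / (2 * p)), |f t|) ≤
      ar p f + 2 * ∫ t in (-(Real.pi / (2 * p)))..(Real.pi / (2 * p)), V t := by
  have hpi := Real.pi_pos
  have hp0 : (0 : ℝ) < p := by exact_mod_cast hp
  set α := Real.pi / (2 * p) with hα
  have hα0 : 0 < α := by positivity
  have hpα : (p : ℝ) * α ≤ Real.pi := by
    rw [hα]
    field_simp
    linarith
  have hII : ∀ (g : ℝ → ℝ) (_ : Continuous g) (a b : ℝ), IntervalIntegrable g volume a b :=
    fun g hg a b => hg.intervalIntegrable a b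
  have hV2 : Continuous (fun t => 2 * V t) := continuous_const.mul hV
  have hfn : Continuous (fun t => -f t) := hf.neg
  have hs1 : Continuous (fun t => f t + 2 * V t) := hf.add hV2
  have hs2 : Continuous (fun t => -f t + 2 * V t) := hfn.add hV2
  have s1 : (∫ t in (-α)..α, |f t|) = (∫ t in (-α)..0, |f t|) + ∫ t in (0 : ℝ)..α, |f t| :=
    (intervalIntegral.integral_add_adjacent_intervals (hII _ hf.abs _ _) (hII _ hf.abs _ _)).symm
  have s2 : (∫ t in (-α)..α, V t) = (∫ t in (-α)..0, V t) + ∫ t in (0 : ℝ)..α, V t :=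
    (intervalIntegral.integral_add_adjacent_intervals (hII _ hV _ _) (hII _ hV _ _)).symm
  have b1 : (∫ t in (-α)..0, |f t|) ≤ ∫ t in (-α)..0, (f t + 2 * V t) := by
    apply intervalIntegral.integral_mono_on (by linarith) (hII _ hf.abs _ _)
      (hII _ hs1 _ _)
    intro t ht
    have hs : Real.sin (p * t) ≤ 0 := by
      apply Real.sin_nonpos_of_nonpos_of_neg_pi_le
      · exact mul_nonpos_of_nonneg_of_nonpos hp0.le ht.2
      · have : -(p * α) ≤ p * t := by
          have := mul_le_mul_of_nonneg_left ht.1 hp0.le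
          linarith
        linarith
    have h3 := abs_le.mp (h t)
    have h4 : A * Real.sin (p * t) ≤ 0 := mul_nonpos_of_nonneg_of_nonpos hA hs
    rw [abs_le]
    constructor <;> linarith [h3.1, h3.2]
  have b2 : (∫ t in (0 : ℝ)..α, |f t|) ≤ ∫ t in (0 : ℝ)..α, (-f t + 2 * V t) := by
    apply intervalIntegral.integral_mono_on (by linarith) (hII _ hf.abs _ _)
      (hII _ hs2 _ _)
    intro t ht
    have hs : 0 ≤ Real.sin (p * t) := by
      apply Real.sin_nonneg_of_nonneg_of_le_pi
      · exact mul_nonneg hp0.le ht.1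
      · have := mul_le_mul_of_nonneg_left ht.2 hp0.le
        linarith
    have h3 := abs_le.mp (h t)
    have h4 : 0 ≤ A * Real.sin (p * t) := mul_nonneg hA hs
    rw [abs_le]
    constructor <;> linarith [h3.1, h3.2]
  have c1 : (∫ t in (-α)..0, (f t + 2 * V t)) = (∫ t in (-α)..0, f t) + 2 * ∫ t in (-α)..0, V t := by
    rw [intervalIntegral.integral_add (hII _ hf _ _) (hII _ hV2 _ _),
      intervalIntegral.integral_const_mul]
  have c2 : (∫ t in (0 : ℝ)..α, (-f t + 2 * V t)) =
      -(∫ t in (0 : ℝ)..α, f t) + 2 * ∫ t in (0 : ℝ)..α, V t := by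
    rw [intervalIntegral.integral_add (hII _ hfn _ _) (hII _ hV2 _ _),
      intervalIntegral.integral_const_mul, intervalIntegral.integral_neg]
  have hd : ar p f = (∫ t in (-α)..0, f t) - ∫ t in (0 : ℝ)..α, f t := rfl
  rw [s1, s2, hd]
  linarith

/-- the crude bound -/
theorem r0a {p : ℕ} (hp : 2 ≤ p) : ∃ C : ℝ, 0 < C ∧ ∀ η : ℝ, 0 < η → η ≤ 1 / 4 →
    ∀ c : Cfg (rh p η), c.Nor p → c.FF p ≤ mn p η - c.DD p + C := by
  obtain ⟨C1, hC1, h1⟩ := pb21_L1 hp
  obtain ⟨C2, hC2, h2⟩ := S_ww hp
  have hpi := Real.pi_pos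
  refine ⟨(2 * Real.pi)⁻¹ * (2 * (C1 * C2)), by positivity, ?_⟩
  intro η h0 hη c hc
  have hp1 : 1 ≤ p := by omega
  have hu : Continuous (c.u p) := u_cont p c
  -- the sum of the kernels
  set V : ℝ → ℝ := fun t => ∑ i, c.m i * |KP p (c.x i) (t - c.a i)| with hV
  have hVc : Continuous V := by
    rw [hV]
    refine continuous_finsetSum _ fun i _ => continuous_const.mul ?_
    exact ((KP_cont (c.x0 i)).comp (continuous_id.sub continuous_const)).abs
  have hVint : ∫ t in (-Real.pi)..Real.pi, V t ≤ C1 * C2 := by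
    rw [hV, intervalIntegral.integral_finsetSum]
    · calc ∑ i, ∫ t in (-Real.pi)..Real.pi, c.m i * |KP p (c.x i) (t - c.a i)| ≤
          ∑ i, C1 * (c.m i * ww p (c.x i)) := by
            refine Finset.sum_le_sum fun i _ => ?_
            rw [intervalIntegral.integral_const_mul]
            have := mul_le_mul_of_nonneg_left (h1 (c.x i) (c.a i) (c.x0 i)) (c.m0 i)
            linarith
        _ = C1 * ∑ i, c.m i * ww p (c.x i) := by rw [Finset.mul_sum]
        _ ≤ C1 * C2 := mul_le_mul_of_nonneg_left (h2 η h0 hη c) hC1.le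
    · intro i _
      refine Continuous.intervalIntegrable ?_ _ _
      exact continuous_const.mul
        ((KP_cont (c.x0 i)).comp (continuous_id.sub continuous_const)).abs
  have harc : ∀ j : ℤ, (∫ t in (-(Real.pi / (2 * p)))..(Real.pi / (2 * p)),
      |c.u p (th p j + t)|) ≤ ar p (fun t => sg p * sj j * c.u p (th p j + t)) +
        2 * ∫ t in (-(Real.pi / (2 * p)))..(Real.pi / (2 * p)), V (th p j + t) := by
    intro j
    have hshift : Continuous (fun t : ℝ => th p j + t) := continuous_const.add continuous_id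
    have key := pb21_arc (f := fun t => sg p * sj j * c.u p (th p j + t))
      (V := fun t => V (th p j + t)) hp1 (continuous_const.mul (hu.comp hshift))
      (hVc.comp hshift) (A := c.Ac p) hc.c ?_
    · have e : (fun t => |sg p * sj j * c.u p (th p j + t)|) =
          fun t => |c.u p (th p j + t)| := by
        funext t
        rw [abs_mul, pb21_sgj, one_mul]
      simp only [e] at key
      exact key
    · intro t
      have e := fj_eq hp1 c j t
      rw [hc.s, zero_mul, add_zero] at e
      have e2 : sg p * sj j * c.u p (th p j + t) + c.Ac p * Real.sin (p * t) =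
          ∑ i, c.m i * (c.e i * kj p (c.x i) j (t - c.a i)) := by
        rw [e]; ring
      rw [e2, hV]
      refine (Finset.abs_sum_le_sum_abs _ _).trans (Finset.sum_le_sum fun i _ => ?_)
      rw [abs_mul, abs_mul, abs_of_nonneg (c.m0 i)]
      refine mul_le_mul_of_nonneg_left ?_ (c.m0 i)
      have he : |c.e i| = 1 := by
        rcases c.e1 i with h | h <;> rw [h] <;> simp
      have e3 : th p j + (t - c.a i) = th p j + t - c.a i := by ring
      rw [he, one_mul]
      unfold kj
      rw [abs_mul, pb21_sgj, one_mul, e3]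
  have hsumu := arc_sum hp1 (f := fun t => |c.u p t|) (hu.abs.intervalIntegrable _ _)
  have hsumV := arc_sum hp1 (f := V) (hVc.intervalIntegrable _ _)
  have hpair := sgn_pair hp h0 hη c
  have hle : (∫ t in (-Real.pi)..Real.pi, |c.u p t|) ≤
      (∑ j ∈ JJ p, ar p (fun t => sg p * sj j * c.u p (th p j + t))) + 2 * (C1 * C2) := by
    rw [hsumu]
    calc _ ≤ ∑ j ∈ JJ p, (ar p (fun t => sg p * sj j * c.u p (th p j + t)) +
        2 * ∫ t in (-(Real.pi / (2 * p)))..(Real.pi / (2 * p)), V (th p j + t)) :=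
          Finset.sum_le_sum fun j _ => harc j
      _ = (∑ j ∈ JJ p, ar p (fun t => sg p * sj j * c.u p (th p j + t))) +
          2 * ∫ t in (-Real.pi)..Real.pi, V t := by
          rw [Finset.sum_add_distrib, ← Finset.mul_sum, hsumV]
      _ ≤ _ := by linarith
  have hinv : 0 < (2 * Real.pi)⁻¹ := by positivity
  have h5 := mul_le_mul_of_nonneg_left hle hinv.le
  unfold Cfg.FF
  rw [mul_add] at h5
  linarith

end Pool.Agent.PfB
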