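import Pool.Agent.PfA.Indic

/-! MP_f2c8f8_an, project PfB, row PB-41 -/

set_option autoImplicit false

open MeasureTheory Filter
open scoped ComplexConjugate Topology

noncomputable section

namespace Pool.Agent.PfB

open Pool.Agent.PfA

/-- the integral of `|cos|` up to a point of `(p π - π / 2, p π)` -/
theorem pb41_cos {p : ℕ} (hp : 2 ≤ p) {x : ℝ} (h0 : ((p : ℝ) - 1 / 2) * Real.pi ≤ x)
    (h1 : x ≤ p * Real.pi) :
    (∫ t in (0 : ℝ)..x, |Real.cos t|) = 2 * p - |Real.sin x| := by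
  have hpi := Real.pi_pos
  have hc : Continuous fun t => |Real.cos t| := Real.continuous_cos.abs
  have hper : Function.Periodic (fun t => |Real.cos t|) Real.pi := fun t => by
    show |Real.cos (t + Real.pi)| = |Real.cos t|
    rw [Real.cos_add_pi, abs_neg]
  obtain ⟨q, rfl⟩ : ∃ q : ℕ, p = q + 1 := ⟨p - 1, by omega⟩
  push_cast at h0 h1 ⊢
  set y : ℝ := x - q * Real.pi with hy
  have hy0 : Real.pi / 2 ≤ y := by
    rw [hy]
    linarith
  have hy1 : y ≤ Real.pi := by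
    rw [hy]
    linarith
  have hx : x = y + (q : ℤ) • Real.pi := by
    rw [zsmul_eq_mul]
    push_cast
    rw [hy]
    ring
  have h1 := hper.intervalIntegral_add_zsmul_eq (q : ℤ) y
    (fun a b => hc.intervalIntegrable a b)
  have h2 : (∫ t in y..(y + Real.pi), |Real.cos t|) = 2 := by
    rw [hper.intervalIntegral_add_eq y 0, zero_add,
      pf29_cos_ge (by linarith) le_rfl, Real.sin_pi, sub_zero]
  rw [h2, ← hx] at h1
  rw [← intervalIntegral.integral_add_adjacent_intervals (hc.intervalIntegrable 0 y)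
    (hc.intervalIntegrable y x), h1]
  have h3 : |Real.sin x| = Real.sin y := by
    have h4 : x = y + q * Real.pi := by rw [hy]; ring
    rw [h4, Real.sin_add_nat_mul_pi, abs_mul, abs_pow, abs_neg, abs_one, one_pow, one_mul,
      abs_of_nonneg (Real.sin_nonneg_of_nonneg_of_le_pi (by linarith) hy1)]
  have h6 : ((q : ℤ) • (2 : ℝ)) = 2 * q := by
    rw [zsmul_eq_mul]
    push_cast
    ring
  rw [h3, h6, pf29_cos_ge hy0 hy1]
  ring

/-- the exact mean of `|cos (ρ θ)|` -/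
theorem UU_hh_exact {p : ℕ} (hp : 2 ≤ p) {ρ : ℝ} (h0 : (p : ℝ) - 1 / 2 < ρ) (h1 : ρ < p) :
    (2 * p - sn ρ) / (ρ * sn ρ) ≤ UU (hh ρ) 1 := by
  have hpi := Real.pi_pos
  have hp2 : (2 : ℝ) ≤ p := by exact_mod_cast hp
  have hρ0 : 0 < ρ := by linarith
  have hs : Real.sin (Real.pi * ρ) ≠ 0 := by
    intro h
    rw [Real.sin_eq_zero_iff] at h
    obtain ⟨m, hm⟩ := h
    have h2 : (m : ℝ) * Real.pi = ρ * Real.pi := by linarith
    have h3 : (m : ℝ) = ρ := mul_right_cancel₀ hpi.ne' h2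
    rw [← h3] at h0 h1
    have h4 : m < (p : ℤ) := by exact_mod_cast h1
    have h5 : (m : ℝ) ≤ p - 1 := by
      have h6 : m ≤ (p : ℤ) - 1 := by omega
      exact_mod_cast h6
    linarith
  have hsn : 0 < sn ρ := abs_pos.2 hs
  have hc : Continuous fun t => |Real.cos t| := Real.continuous_cos.abs
  have hc2 : Continuous fun θ => |Real.cos (ρ * θ)| := by fun_prop
  have h1' : UU (hh ρ) 1 = (2 * Real.pi)⁻¹ * (Real.pi / sn ρ *
      ∫ θ in (-Real.pi)..Real.pi, |Real.cos (ρ * θ)|) := by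
    suffices h0 : (∫ θ in (-Real.pi)..Real.pi, |hh ρ (circleMap 0 1 θ)|) =
        ∫ θ in (-Real.pi)..Real.pi, Real.pi / sn ρ * |Real.cos (ρ * θ)| by
      unfold UU
      rw [pf29_avg, smul_eq_mul, h0, intervalIntegral.integral_const_mul]
    refine intervalIntegral.integral_congr_ae (Eventually.of_forall fun θ hθ => ?_)
    rw [Set.uIoc_of_le (by linarith)] at hθ
    show |hh ρ (circleMap 0 1 θ)| = Real.pi / sn ρ * |Real.cos (ρ * θ)|
    unfold hh
    rw [pf29_arg hθ.1 hθ.2, abs_div, abs_mul, abs_of_pos hpi]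
    unfold sn
    ring
  have h2 : (∫ θ in (-Real.pi)..Real.pi, |Real.cos (ρ * θ)|) =
      2 * ∫ θ in (0 : ℝ)..Real.pi, |Real.cos (ρ * θ)| := by
    rw [← intervalIntegral.integral_add_adjacent_intervals
      (hc2.intervalIntegrable (-Real.pi) 0) (hc2.intervalIntegrable 0 Real.pi)]
    have h3 : (∫ θ in (0 : ℝ)..Real.pi, |Real.cos (ρ * -θ)|) =
        ∫ θ in (-Real.pi)..(-0), |Real.cos (ρ * θ)| :=
      intervalIntegral.integral_comp_neg (fun θ => |Real.cos (ρ * θ)|)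
    simp only [neg_zero, mul_neg, Real.cos_neg] at h3
    rw [← h3]
    ring
  have h3 : (∫ θ in (0 : ℝ)..Real.pi, |Real.cos (ρ * θ)|) =
      ρ⁻¹ * ∫ t in (0 : ℝ)..(ρ * Real.pi), |Real.cos t| := by
    have h4 : (∫ θ in (0 : ℝ)..Real.pi, |Real.cos (ρ * θ)|) =
        ρ⁻¹ • ∫ t in (ρ * 0)..(ρ * Real.pi), |Real.cos t| :=
      intervalIntegral.integral_comp_mul_left (fun t => |Real.cos t|) hρ0.ne'
    rw [h4, mul_zero, smul_eq_mul]
  have h4 := pb41_cos (p := p) hp (x := ρ * Real.pi) (by nlinarith) (by nlinarith)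
  have h5 : |Real.sin (ρ * Real.pi)| = sn ρ := by
    unfold sn
    rw [mul_comm]
  rw [h5] at h4
  rw [h1', h2, h3]
  have h7 : (2 * Real.pi)⁻¹ * (Real.pi / sn ρ *
      (2 * (ρ⁻¹ * ∫ t in (0 : ℝ)..(ρ * Real.pi), |Real.cos t|))) =
      (∫ t in (0 : ℝ)..(ρ * Real.pi), |Real.cos t|) / (ρ * sn ρ) := by
    field_simp
  rw [h7, h4]

end Pool.Agent.PfB
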